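import Pool.Agent.Run7.h7.AvgFin
import Pool.Agent.W5h49.EC.Poin0

/-!
The mean oscillation of the differential is bounded by the mean of the second differential.
-/

set_option autoImplicit false
set_option linter.unusedSectionVars false

open scoped ContDiff Topology Pointwise
open MeasureTheory Set Metric Function Filter

namespace Run7.h7.Avg

variable {E : Type} [NormedAddCommGroup E] [NormedSpace ℝ E] [FiniteDimensional ℝ E]
  [MeasurableSpace E] [BorelSpace E] {vol : Measure E} [vol.IsAddHaarMeasure]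

section poin

variable {F : Type} [NormedAddCommGroup F] [NormedSpace ℝ F] [CompleteSpace F]

theorem seg_le {g : E → F} (hg : ContDiff ℝ 1 g) {x y z : E} {r : ℝ} (hy : y ∈ ball x r)
    (hz : z ∈ ball x r) :
    ‖g z - g y‖ ≤ 2 * r * ∫ t in (0 : ℝ)..1, ‖fderiv ℝ g (y + t • (z - y))‖ := by
  have hc : Continuous (fderiv ℝ g) := hg.continuous_fderiv (by simp)
  have hc1 : Continuous (fun t : ℝ => fderiv ℝ g (y + t • (z - y)) (z - y)) :=
    (hc.comp (by fun_prop)).clm_apply continuous_const
  have hc2 : Continuous (fun t : ℝ => ‖fderiv ℝ g (y + t • (z - y))‖) :=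
    (hc.comp (by fun_prop)).norm
  have hd : ∀ t ∈ uIcc (0 : ℝ) 1, HasDerivAt (fun t : ℝ => g (y + t • (z - y)))
      (fderiv ℝ g (y + t • (z - y)) (z - y)) t := by
    intro t _
    have h1 : HasDerivAt (fun σ : ℝ => y + σ • (z - y)) (z - y) t := by
      simpa using ((hasDerivAt_id t).smul_const (z - y)).const_add y
    exact ((hg.differentiable (by simp) (y + t • (z - y))).hasFDerivAt).comp_hasDerivAt t h1
  have h2 := intervalIntegral.integral_eq_sub_of_hasDerivAt hd (hc1.intervalIntegrable _ _)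
  rw [one_smul, zero_smul, add_zero, add_sub_cancel] at h2
  rw [← h2]
  have h3 : ‖z - y‖ ≤ 2 * r := by
    rw [mem_ball, dist_eq_norm] at hy hz
    have h4 := norm_sub_le (z - x) (y - x)
    rw [sub_sub_sub_cancel_right] at h4
    linarith
  calc ‖∫ t in (0 : ℝ)..1, fderiv ℝ g (y + t • (z - y)) (z - y)‖
      ≤ ∫ t in (0 : ℝ)..1, ‖fderiv ℝ g (y + t • (z - y))‖ * (2 * r) := by
        refine intervalIntegral.norm_integral_le_of_norm_le zero_le_one
          (Eventually.of_forall fun t _ => ?_)
          ((hc2.mul continuous_const).intervalIntegrable _ _)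
        exact (ContinuousLinearMap.le_opNorm _ _).trans
          (mul_le_mul_of_nonneg_left h3 (norm_nonneg _))
    _ = 2 * r * ∫ t in (0 : ℝ)..1, ‖fderiv ℝ g (y + t • (z - y))‖ := by
        rw [intervalIntegral.integral_mul_const]
        ring

theorem int_prod {G : Type} [NormedAddCommGroup G] {h : E × E → G} (hc : Continuous h) (x : E)
    (r : ℝ) : Integrable h ((vol.restrict (ball x r)).prod (vol.restrict (ball x r))) := by
  have : ProperSpace E := FiniteDimensional.proper_real E
  rw [Measure.prod_restrict]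
  have h1 : IntegrableOn h (closedBall x r ×ˢ closedBall x r) (vol.prod vol) :=
    hc.continuousOn.integrableOn_compact
      ((isCompact_closedBall x r).prod (isCompact_closedBall x r))
  exact h1.mono_set (Set.prod_mono ball_subset_closedBall ball_subset_closedBall)

theorem poin_two {g : E → F} (hg : ContDiff ℝ 1 g) (x : E) {r : ℝ} (hr : 0 < r) :
    ∫ y in ball x r, ∫ z in ball x r, ‖g z - g y‖ ∂vol ∂vol ≤
      2 * r * (2 ^ (Module.finrank ℝ E) * vol.real (ball x r) *
        ∫ y in ball x r, ‖fderiv ℝ g y‖ ∂vol) := by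
  have : ProperSpace E := FiniteDimensional.proper_real E
  set β := vol.restrict (ball x r) with hβ
  have hc : Continuous (fderiv ℝ g) := hg.continuous_fderiv (by simp)
  have hgc : Continuous g := hg.continuous
  have hF : Continuous (fun q : (E × E) × ℝ => ‖fderiv ℝ g (q.1.1 + q.2 • (q.1.2 - q.1.1))‖) :=
    (hc.comp (by fun_prop)).norm
  have i1 : Integrable (fun p : E × E => ‖g p.2 - g p.1‖) (β.prod β) :=
    int_prod (by fun_prop) x r
  have hIF : Integrable (fun q : (E × E) × ℝ => ‖fderiv ℝ g (q.1.1 + q.2 • (q.1.2 - q.1.1))‖)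
      ((β.prod β).prod (volume.restrict (Ioc (0 : ℝ) 1))) := by
    rw [hβ, Measure.prod_restrict, Measure.prod_restrict]
    have h1 : IntegrableOn
        (fun q : (E × E) × ℝ => ‖fderiv ℝ g (q.1.1 + q.2 • (q.1.2 - q.1.1))‖)
        ((closedBall x r ×ˢ closedBall x r) ×ˢ Icc (0 : ℝ) 1) ((vol.prod vol).prod volume) :=
      hF.continuousOn.integrableOn_compact
        (((isCompact_closedBall x r).prod (isCompact_closedBall x r)).prod isCompact_Icc)
    exact h1.mono_set (Set.prod_mono (Set.prod_mono ball_subset_closedBall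
      ball_subset_closedBall) Ioc_subset_Icc_self)
  have i2 : Integrable (fun p : E × E => ∫ t in (0 : ℝ)..1,
      ‖fderiv ℝ g (p.1 + t • (p.2 - p.1))‖) (β.prod β) := by
    have := hIF.integral_prod_left
    simp only [intervalIntegral.integral_of_le (zero_le_one (α := ℝ))]
    exact this
  calc ∫ y, ∫ z, ‖g z - g y‖ ∂β ∂β
      = ∫ p, ‖g p.2 - g p.1‖ ∂(β.prod β) := (integral_prod _ i1).symm
    _ ≤ ∫ p : E × E, 2 * r * (∫ t in (0 : ℝ)..1, ‖fderiv ℝ g (p.1 + t • (p.2 - p.1))‖)
          ∂(β.prod β) := by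
        refine integral_mono_ae i1 (i2.const_mul _) ?_
        rw [hβ, Measure.prod_restrict]
        refine (ae_restrict_mem (measurableSet_ball.prod measurableSet_ball)).mono ?_
        rintro ⟨y, z⟩ ⟨hy, hz⟩
        exact seg_le hg hy hz
    _ = 2 * r * ∫ p : E × E, (∫ t in (0 : ℝ)..1, ‖fderiv ℝ g (p.1 + t • (p.2 - p.1))‖)
          ∂(β.prod β) := by
        rw [integral_const_mul]
    _ = 2 * r * ∫ t in (0 : ℝ)..1, (∫ p : E × E, ‖fderiv ℝ g (p.1 + t • (p.2 - p.1))‖
          ∂(β.prod β)) := by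
        congr 1
        simp only [intervalIntegral.integral_of_le (zero_le_one (α := ℝ))]
        exact integral_integral_swap hIF
    _ ≤ 2 * r * ∫ _t in (0 : ℝ)..1, (2 ^ (Module.finrank ℝ E) * vol.real (ball x r) *
          ∫ y in ball x r, ‖fderiv ℝ g y‖ ∂vol) := by
        refine mul_le_mul_of_nonneg_left ?_ (by positivity)
        rw [intervalIntegral.integral_of_le zero_le_one,
          intervalIntegral.integral_of_le zero_le_one]
        refine setIntegral_mono_on hIF.integral_prod_right (integrableOn_const (by simp))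
          measurableSet_Ioc fun t ht => ?_
        rw [integral_prod _ (int_prod (by fun_prop) x r)]
        exact Pool.Agent.W5h49.EC.Poin0.seg vol hc.norm (fun _ => norm_nonneg _) x r t ht.1.le ht.2
    _ = _ := by simp [hβ]

end poin

/-- **Poincaré inequality.** -/
theorem OS_le {φ : E → E} (h : DiffC φ) {r : ℝ} (hr : 0 < r) (x : E) :
    OS vol φ r x ≤ 2 ^ (Module.finrank ℝ E + 1) * (r *
      ⨍ y in ball x r, ‖fderiv ℝ (fderiv ℝ φ) y‖ ∂vol) := by
  have : ProperSpace E := FiniteDimensional.proper_real E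
  have : CompleteSpace E := FiniteDimensional.complete ℝ E
  have hg : ContDiff ℝ 1 (fderiv ℝ φ) :=
    (h.smooth.fderiv_right (m := ∞) (by simp)).of_le (by simp)
  have hgc := fd_cont h
  set V := vol.real (ball x r) with hV
  have hV0 : 0 < V := by
    rw [hV, real_ball vol hr]
    have := real_ball_pos vol
    positivity
  set β := vol.restrict (ball x r) with hβ
  have hβf : IsFiniteMeasure β := ⟨by
    rw [hβ, Measure.restrict_apply_univ]
    exact measure_ball_lt_top⟩
  have hβV : β.real univ = V := by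
    rw [hβ, measureReal_restrict_apply_univ]
  set A := AV (unif vol) φ r x with hA
  have hAe : A = V⁻¹ • ∫ z, fderiv ℝ φ z ∂β := by
    rw [hA, AV, HM_unif vol _ hr, setAverage_eq]
  have ig : ∀ {G : Type} [NormedAddCommGroup G] {f : E → G}, Continuous f → Integrable f β := by
    intro G _ f hf
    exact (hf.continuousOn.integrableOn_compact (isCompact_closedBall x r)).mono_set
      ball_subset_closedBall
  have h1 : ∀ y, ‖fderiv ℝ φ y - A‖ ≤ V⁻¹ * ∫ z, ‖fderiv ℝ φ z - fderiv ℝ φ y‖ ∂β := by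
    intro y
    have e1 : fderiv ℝ φ y - A = V⁻¹ • ∫ z, (fderiv ℝ φ y - fderiv ℝ φ z) ∂β := by
      rw [integral_sub (integrable_const _) (ig hgc), integral_const, hβV, smul_sub, smul_smul,
        inv_mul_cancel₀ hV0.ne', one_smul, hAe]
    rw [e1, norm_smul, Real.norm_of_nonneg (by positivity)]
    refine mul_le_mul_of_nonneg_left ?_ (by positivity)
    refine (norm_integral_le_integral_norm _).trans (le_of_eq ?_)
    exact integral_congr_ae (Eventually.of_forall fun z => norm_sub_rev _ _)
  have h2 : OS vol φ r x = V⁻¹ * ∫ y, ‖fderiv ℝ φ y - A‖ ∂β := by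
    rw [OS, HM_unif vol _ hr, setAverage_eq, smul_eq_mul]
  have h3 := poin_two (vol := vol) hg x hr
  have h4 : Integrable (fun y => ∫ z, ‖fderiv ℝ φ z - fderiv ℝ φ y‖ ∂β) β := by
    have hcont : Continuous (fun p : E × E => ‖fderiv ℝ φ p.2 - fderiv ℝ φ p.1‖) := by fun_prop
    have := (int_prod (vol := vol) hcont x r).integral_prod_left
    exact this
  rw [h2]
  have hI : 0 ≤ ∫ y, ‖fderiv ℝ (fderiv ℝ φ) y‖ ∂β := integral_nonneg fun _ => norm_nonneg _
  calc V⁻¹ * ∫ y, ‖fderiv ℝ φ y - A‖ ∂β
      ≤ V⁻¹ * ∫ y, V⁻¹ * ∫ z, ‖fderiv ℝ φ z - fderiv ℝ φ y‖ ∂β ∂β := by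
        refine mul_le_mul_of_nonneg_left ?_ (by positivity)
        exact integral_mono (ig (by fun_prop)) (h4.const_mul _) h1
    _ = V⁻¹ * (V⁻¹ * ∫ y, ∫ z, ‖fderiv ℝ φ z - fderiv ℝ φ y‖ ∂β ∂β) := by
        rw [integral_const_mul]
    _ ≤ V⁻¹ * (V⁻¹ * (2 * r * (2 ^ (Module.finrank ℝ E) * V *
        ∫ y, ‖fderiv ℝ (fderiv ℝ φ) y‖ ∂β))) := by
        refine mul_le_mul_of_nonneg_left (mul_le_mul_of_nonneg_left h3 (by positivity))
          (by positivity)
    _ = 2 ^ (Module.finrank ℝ E + 1) * (r * (V⁻¹ * ∫ y, ‖fderiv ℝ (fderiv ℝ φ) y‖ ∂β)) := by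
        rw [pow_succ]
        field_simp
    _ = _ := by rw [setAverage_eq, smul_eq_mul]

/-- the mean of the second differential and the integral of its power -/
theorem mean_le_energy {h : E → ℝ} (hc : Continuous h) (h0 : ∀ y, 0 ≤ h y) {r r₀ τ : ℝ}
    (hr : 0 < r) (hr1 : r ≤ r₀) (hτ : 0 ≤ τ) (hd : Module.finrank ℝ E ≠ 0) (x : E)
    (he : ∫ y in ball x r₀, h y ^ Module.finrank ℝ E ∂vol ≤
      τ ^ Module.finrank ℝ E * vol.real (ball (0 : E) 1)) :
    r * ⨍ y in ball x r, h y ∂vol ≤ τ := by
  have : ProperSpace E := FiniteDimensional.proper_real E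
  set d := Module.finrank ℝ E with hdd
  have hV := real_ball_pos vol
  have hν := unif_BS vol
  have := hν.prob
  have e1 : ⨍ y in ball x r, h y ∂vol = HM (unif vol) h r x := (HM_unif vol h hr x).symm
  have e2 : ⨍ y in ball x r, h y ^ d ∂vol = HM (unif vol) (fun y => h y ^ d) r x :=
    (HM_unif vol (fun y => h y ^ d) hr x).symm
  have hH0 : 0 ≤ HM (unif vol) h r x := integral_nonneg fun _ => h0 _
  have h1 : HM (unif vol) h r x ^ d ≤ HM (unif vol) (fun y => h y ^ d) r x := by
    refine ConvexOn.map_integral_le (g := fun s : ℝ => s ^ d) (s := Ici 0) (convexOn_pow d)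
      (by fun_prop) isClosed_Ici (Eventually.of_forall fun z => h0 _)
      (hν.int (hc.comp (by fun_prop))) (hν.int ((hc.pow d).comp (by fun_prop)))
  rw [← e2, setAverage_eq, real_ball vol hr, smul_eq_mul] at h1
  have hint : IntegrableOn (fun y => h y ^ d) (ball x r₀) vol :=
    ((hc.pow d).continuousOn.integrableOn_compact (isCompact_closedBall x r₀)).mono_set
      ball_subset_closedBall
  have h2 : ∫ y in ball x r, h y ^ d ∂vol ≤ ∫ y in ball x r₀, h y ^ d ∂vol :=
    setIntegral_mono_set hint (Eventually.of_forall fun y => pow_nonneg (h0 y) d)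
      (ball_subset_ball hr1).eventuallyLE
  have h3 : (r * HM (unif vol) h r x) ^ d ≤ τ ^ d := by
    rw [mul_pow]
    have h4 : r ^ d * HM (unif vol) h r x ^ d ≤ r ^ d * ((r ^ d * vol.real (ball (0 : E) 1))⁻¹ *
        (τ ^ d * vol.real (ball (0 : E) 1))) := by
      refine mul_le_mul_of_nonneg_left (h1.trans ?_) (by positivity)
      exact mul_le_mul_of_nonneg_left (h2.trans he) (by positivity)
    refine h4.trans (le_of_eq ?_)
    field_simp
  rw [e1]
  exact le_of_pow_le_pow_left₀ hd hτ h3

end Run7.h7.Avg
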