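import Pool.Agent.Run7.h7.AvgFin
import Pool.Agent.Run7.h7.AvgPoin

/-!
An explicit bound for the number of isotopy classes of diffeomorphisms whose differentials have
small mean oscillation at small scales.
-/

set_option autoImplicit false
set_option linter.unusedSectionVars false

open scoped ContDiff Topology
open MeasureTheory Set Metric Function Filter

namespace Run7.h7.Avg

theorem reps {α T : Type} [Fintype T] (𝒟 : Set α) (code : α → T) (rel : α → α → Prop)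
    (h : ∀ a ∈ 𝒟, ∀ b ∈ 𝒟, code a = code b → rel a b) :
    ∃ N : ℕ, N ≤ Fintype.card T ∧ ∃ Ψ : Fin N → α, (∀ i, Ψ i ∈ 𝒟) ∧
      ∀ a ∈ 𝒟, ∃ i, rel a (Ψ i) := by
  classical
  obtain ⟨S, hS⟩ : ∃ S : Finset T, ∀ t, t ∈ S ↔ ∃ a ∈ 𝒟, code a = t :=
    ⟨Finset.univ.filter fun t => ∃ a ∈ 𝒟, code a = t, fun t => by simp⟩
  refine ⟨S.card, Finset.card_le_univ S, ?_⟩
  choose Ψ hΨ1 hΨ2 using fun t : S => (hS t).1 t.2
  refine ⟨fun i => Ψ (S.equivFin.symm i), fun i => hΨ1 _, fun a ha => ?_⟩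
  have hm : code a ∈ S := (hS _).2 ⟨a, ha, rfl⟩
  refine ⟨S.equivFin ⟨code a, hm⟩, h a ha _ (hΨ1 _) ?_⟩
  rw [hΨ2, Equiv.symm_apply_apply]

theorem net (n : ℕ) (c : ℝ) (hc : 0 < c) (K : ℕ) (hK : (n : ℝ) ≤ 2 * c * K) :
    ∃ pt : (Fin n → Fin (2 * K + 1)) → EuclideanSpace ℝ (Fin n),
      ∀ x : EuclideanSpace ℝ (Fin n), ‖x‖ ≤ 1 → ∃ k, ‖x - pt k‖ ≤ c := by
  rcases Nat.eq_zero_or_pos n with rfl | hn
  · refine ⟨fun _ => 0, fun x _ => ⟨fun i => i.elim0, ?_⟩⟩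
    rw [Subsingleton.elim (x - 0) 0, norm_zero]
    exact hc.le
  have hn' : (1 : ℝ) ≤ n := by exact_mod_cast hn
  obtain ⟨s, hs⟩ : ∃ s : ℝ, s = 2 * c / n := ⟨_, rfl⟩
  have hs0 : 0 < s := by rw [hs]; positivity
  have hsK : 1 ≤ s * K := by
    rw [hs, div_mul_eq_mul_div, le_div_iff₀ (by linarith)]
    linarith
  have hsn : n * (s / 2) = c := by
    rw [hs]
    field_simp
  refine ⟨fun k => WithLp.toLp 2 fun i => s * ((k i : ℕ) - K : ℝ), fun x hx => ?_⟩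
  have hx1 : ∀ i, |x i| ≤ 1 := by
    intro i
    have := PiLp.norm_apply_le x i
    rw [Real.norm_eq_abs] at this
    exact this.trans hx
  have hz : ∀ i, ∃ k : Fin (2 * K + 1), |x i - s * ((k : ℕ) - K : ℝ)| ≤ s / 2 := by
    intro i
    have h1 := abs_le.1 (hx1 i)
    have h2 : -(K : ℝ) ≤ x i / s := by
      rw [le_div_iff₀ hs0]
      nlinarith
    have h3 : x i / s ≤ K := by
      rw [div_le_iff₀ hs0]
      nlinarith
    obtain ⟨z, hz⟩ : ∃ z : ℤ, z = ⌊x i / s + 1 / 2⌋ := ⟨_, rfl⟩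
    have h4 : -(K : ℤ) ≤ z := by
      rw [hz, Int.le_floor]
      push_cast
      linarith
    have h5 : z < K + 1 := by
      rw [hz, Int.floor_lt]
      push_cast
      linarith
    have h6 : ((z + K).toNat : ℤ) = z + K := Int.toNat_of_nonneg (by omega)
    have h7 : (((z + K).toNat : ℕ) : ℝ) = z + K := by exact_mod_cast h6
    refine ⟨⟨(z + K).toNat, by omega⟩, ?_⟩
    show |x i - s * (((z + K).toNat : ℕ) - K : ℝ)| ≤ s / 2
    rw [h7, add_sub_cancel_right]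
    have h8 : (z : ℝ) ≤ x i / s + 1 / 2 := by
      rw [hz]
      exact Int.floor_le _
    have h9 : x i / s + 1 / 2 < z + 1 := by
      rw [hz]
      exact Int.lt_floor_add_one _
    have h10 : x i - s * z = s * (x i / s - z) := by
      field_simp
    rw [h10, abs_mul, abs_of_pos hs0]
    have h11 : |x i / s - z| ≤ 1 / 2 := abs_le.2 ⟨by linarith, by linarith⟩
    nlinarith
  choose k hk using hz
  refine ⟨k, ?_⟩
  rw [EuclideanSpace.norm_eq]
  refine Real.sqrt_le_iff.2 ⟨hc.le, ?_⟩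
  have h1 : ∀ i ∈ (Finset.univ : Finset (Fin n)),
      ‖(x - WithLp.toLp 2 fun i => s * ((k i : ℕ) - K : ℝ)) i‖ ^ 2 ≤ (s / 2) ^ 2 := by
    intro i _
    refine pow_le_pow_left₀ (norm_nonneg _) ?_ 2
    rw [Real.norm_eq_abs]
    exact hk i
  refine (Finset.sum_le_card_nsmul _ _ _ h1).trans ?_
  rw [Finset.card_univ, Fintype.card_fin, nsmul_eq_mul, ← hsn]
  have h2 : 0 ≤ (s / 2) ^ 2 := by positivity
  nlinarith

/-- the classes are separated by codes in an explicit finite set -/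
theorem codes {n : ℕ} (hn : n ≠ 0) {A : ℕ} {M θ r₀ : ℝ} (hM : 0 ≤ M) (hr : 0 < r₀)
    (hθ : M * θ < 1) (hA : M ≤ A * (r₀ * (1 - M * θ)))
    (hne : ∃ φ : EuclideanSpace ℝ (Fin n) → EuclideanSpace ℝ (Fin n),
      Cls volume M θ r₀ φ ∧ ∀ x, 1 < ‖x‖ → φ x = x) :
    ∃ (T : Type) (_ : Fintype T) (code : (EuclideanSpace ℝ (Fin n) → EuclideanSpace ℝ (Fin n)) → T),
      Fintype.card T = (24 * n ^ 2 * A + 1) ^ (n * (6936 * n ^ 4 * A ^ 2 + 1) ^ n) ∧
      ∀ φ ψ : EuclideanSpace ℝ (Fin n) → EuclideanSpace ℝ (Fin n),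
        (Cls volume M θ r₀ φ ∧ ∀ x, 1 < ‖x‖ → φ x = x) →
        (Cls volume M θ r₀ ψ ∧ ∀ x, 1 < ‖x‖ → ψ x = x) → code φ = code ψ → IsotopicC φ ψ := by
  classical
  let 𝒟 : Set (EuclideanSpace ℝ (Fin n) → EuclideanSpace ℝ (Fin n)) :=
    {φ | Cls volume M θ r₀ φ ∧ ∀ x, 1 < ‖x‖ → φ x = x}
  obtain ⟨φ₀, hφ₀, hφ₁⟩ := hne
  have hθ0 : 0 ≤ θ := hφ₀.nonneg hr
  have hM1 : 1 ≤ M := by
    obtain ⟨v, hv⟩ : ∃ v : EuclideanSpace ℝ (Fin n), ‖v‖ = 2 := by
      refine ⟨EuclideanSpace.single ⟨0, Nat.pos_of_ne_zero hn⟩ (2 : ℝ), ?_⟩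
      simp
    have h1 : fderiv ℝ φ₀ v = ContinuousLinearMap.id ℝ _ := by
      have h2 : {y : EuclideanSpace ℝ (Fin n) | 1 < ‖y‖} ∈ 𝓝 v :=
        (isOpen_lt continuous_const continuous_norm).mem_nhds (by
          show 1 < ‖v‖
          rw [hv]
          norm_num)
      have h3 : φ₀ =ᶠ[𝓝 v] id := by
        filter_upwards [h2] with y hy
        exact hφ₁ y hy
      rw [h3.fderiv_eq]
      exact fderiv_id
    have h2 := hφ₀.lower v v
    rw [h1] at h2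
    have h3 : ‖v‖ ≤ M * ‖v‖ := h2
    rw [hv] at h3
    linarith
  have hq : 0 < 1 - M * θ := by linarith
  have hq1 : 1 - M * θ ≤ 1 := by nlinarith
  have hθ1 : θ ≤ 1 := by nlinarith
  have hn1 : (1 : ℝ) ≤ n := by exact_mod_cast Nat.one_le_iff_ne_zero.2 hn
  have hA0 : 0 < (A : ℝ) := by
    by_contra h
    have h1 : (A : ℝ) = 0 := le_antisymm (not_lt.1 h) (Nat.cast_nonneg _)
    rw [h1, zero_mul] at hA
    linarith
  have hA1 : (1 : ℝ) ≤ A := by
    have : 0 < A := by exact_mod_cast hA0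
    exact_mod_cast this
  have hrA : 1 ≤ A * r₀ := by
    have : (A : ℝ) * (r₀ * (1 - M * θ)) ≤ A * r₀ := by
      have := mul_le_of_le_one_right hr.le hq1
      exact mul_le_mul_of_nonneg_left this hA0.le
    linarith
  obtain ⟨ε, hεd⟩ : ∃ ε : ℝ, ε = 1 / (3 * n * A) := ⟨_, rfl⟩
  have hε : 0 < ε := by rw [hεd]; positivity
  have hεA : 3 * n * A * ε = 1 := by
    rw [hεd]
    field_simp
  have hε1 : 2 * n * ε * M < r₀ * (1 - M * θ) := by
    have h1 : 0 < r₀ * (1 - M * θ) := by positivity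
    have h2 : 2 * n * ε * M ≤ 2 * n * ε * (A * (r₀ * (1 - M * θ))) :=
      mul_le_mul_of_nonneg_left hA (by positivity)
    have h3 : 2 * n * ε * (A * (r₀ * (1 - M * θ))) = 2 / 3 * (3 * n * A * ε) * (r₀ * (1 - M * θ)) := by
      ring
    rw [h3, hεA] at h2
    linarith
  obtain ⟨r, hrd⟩ : ∃ r : ℝ, r = ε / 24 := ⟨_, rfl⟩
  have hr1 : 0 < r := by rw [hrd]; positivity
  have hr2 : r ≤ r₀ := by
    have h1 : A * ε ≤ A * r₀ := by
      have : A * ε ≤ 3 * n * A * ε := by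
        have h3 : 0 ≤ A * ε := by positivity
        nlinarith
      linarith
    have h2 : ε ≤ r₀ := le_of_mul_le_mul_left h1 hA0
    rw [hrd]
    linarith
  have hr3 : 2 * θ * r ≤ ε / 8 := by
    rw [hrd]
    nlinarith
  obtain ⟨L, hL⟩ : ∃ L : ℝ, L = 1 + 4 * n * max (1 : ℝ) 0 / r := ⟨_, rfl⟩
  have hL0 : 0 < L := by rw [hL]; positivity
  have hL1 : L ≤ 289 * n ^ 2 * A := by
    have h1 : 4 * n * max (1 : ℝ) 0 / r = 288 * n ^ 2 * A := by
      rw [max_eq_left zero_le_one, hrd, hεd]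
      field_simp
      ring
    rw [hL, h1]
    have h2 : (1 : ℝ) ≤ n ^ 2 * A := by
      have : (1 : ℝ) ≤ n ^ 2 := one_le_pow₀ hn1
      nlinarith
    linarith
  obtain ⟨δ, hδd⟩ : ∃ δ : ℝ, δ = 1 / (6936 * n ^ 3 * A ^ 2) := ⟨_, rfl⟩
  have hδ0 : 0 < δ := by rw [hδd]; positivity
  have hLδ : L * δ ≤ ε / 8 := by
    refine (mul_le_mul_of_nonneg_right hL1 hδ0.le).trans (le_of_eq ?_)
    rw [hδd, hεd]
    field_simp
    norm_num
  have hequi : ∀ φ ∈ 𝒟, ∀ x y, ‖x - y‖ ≤ δ → ‖φ x - φ y‖ ≤ ε / 4 := by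
    intro φ hφ x y hxy
    have h1 := equi hφ.1 hφ.2 hr1 hr2 x y
    have hfr : Module.finrank ℝ (EuclideanSpace ℝ (Fin n)) = n := by simp
    rw [hfr, ← hL] at h1
    have h2 := mul_le_mul_of_nonneg_left hxy hL0.le
    linarith
  obtain ⟨pt, hpt⟩ := net n δ hδ0 (3468 * n ^ 4 * A ^ 2) (by
    rw [hδd]
    push_cast
    refine le_of_eq ?_
    field_simp
    ring)
  obtain ⟨qt, hqt⟩ := net n (ε / 8) (by positivity) (12 * n ^ 2 * A) (by
    rw [hεd]
    push_cast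
    refine le_of_eq ?_
    field_simp
    ring)
  -- codes
  have hcode : ∀ φ ∈ 𝒟, ∀ k, ∃ l, ‖pt k‖ ≤ 1 → ‖φ (pt k) - qt l‖ ≤ ε / 8 := by
    intro φ hφ k
    by_cases hk : ‖pt k‖ ≤ 1
    · obtain ⟨l, hl⟩ := hqt _ ((disp_bound hφ.1.diff hφ.2 (pt k)).1 hk)
      exact ⟨l, fun _ => hl⟩
    · exact ⟨fun _ => 0, fun h => absurd h hk⟩
  choose! code hcode using hcode
  have hsame : ∀ φ ∈ 𝒟, ∀ ψ ∈ 𝒟, code φ = code ψ → IsotopicC φ ψ := by
    intro φ hφ ψ hψ he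
    refine close hM hr hφ.1 hψ.1 hθ (η := ε) (fun x => ?_) (by
      have hfr : Module.finrank ℝ (EuclideanSpace ℝ (Fin n)) = n := by simp
      rw [hfr]
      exact hε1)
    by_cases hx : ‖x‖ ≤ 1
    · obtain ⟨k, hk⟩ := hpt x hx
      have h2 := hequi φ hφ x (pt k) hk
      have h3 := hequi ψ hψ x (pt k) hk
      have h4 : ‖φ (pt k) - ψ (pt k)‖ ≤ ε / 4 := by
        by_cases hp : ‖pt k‖ ≤ 1
        · have h5 := hcode φ hφ k hp
          have h6 := hcode ψ hψ k hp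
          rw [← he] at h6
          have h7 : φ (pt k) - ψ (pt k) =
              (φ (pt k) - qt (code φ k)) - (ψ (pt k) - qt (code φ k)) := by abel
          rw [h7]
          have h8 := norm_sub_le (φ (pt k) - qt (code φ k)) (ψ (pt k) - qt (code φ k))
          linarith
        · rw [hφ.2 _ (not_le.1 hp), hψ.2 _ (not_le.1 hp), sub_self, norm_zero]
          positivity
      have h6 : φ x - ψ x = (φ x - φ (pt k)) - (ψ x - ψ (pt k)) + (φ (pt k) - ψ (pt k)) := by abel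
      rw [h6]
      have h7 := norm_add_le ((φ x - φ (pt k)) - (ψ x - ψ (pt k))) (φ (pt k) - ψ (pt k))
      have h8 := norm_sub_le (φ x - φ (pt k)) (ψ x - ψ (pt k))
      linarith
    · rw [hφ.2 x (not_le.1 hx), hψ.2 x (not_le.1 hx), sub_self, norm_zero]
      exact hε.le
  refine ⟨_, inferInstance, code, ?_, fun φ ψ h1 h2 h3 => hsame φ h1 ψ h2 h3⟩
  simp only [Fintype.card_fun, Fintype.card_fin]
  rw [← pow_mul]
  have e1 : 2 * (12 * n ^ 2 * A) + 1 = 24 * n ^ 2 * A + 1 := by ring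
  have e2 : 2 * (3468 * n ^ 4 * A ^ 2) + 1 = 6936 * n ^ 4 * A ^ 2 + 1 := by ring
  rw [e1, e2]

/-- **An explicit bound for the number of isotopy classes.** -/
theorem count {n : ℕ} (hn : n ≠ 0) {A : ℕ} {M θ r₀ : ℝ} (hM : 0 ≤ M) (hr : 0 < r₀)
    (hθ : M * θ < 1) (hA : M ≤ A * (r₀ * (1 - M * θ))) :
    ∃ N : ℕ, N ≤ (24 * n ^ 2 * A + 1) ^ (n * (6936 * n ^ 4 * A ^ 2 + 1) ^ n) ∧
      ∃ Ψ : Fin N → EuclideanSpace ℝ (Fin n) → EuclideanSpace ℝ (Fin n),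
        (∀ i, Cls volume M θ r₀ (Ψ i) ∧ ∀ x, 1 < ‖x‖ → Ψ i x = x) ∧
        ∀ φ : EuclideanSpace ℝ (Fin n) → EuclideanSpace ℝ (Fin n), Cls volume M θ r₀ φ →
          (∀ x, 1 < ‖x‖ → φ x = x) → ∃ i, IsotopicC φ (Ψ i) := by
  by_cases hne : ∃ φ : EuclideanSpace ℝ (Fin n) → EuclideanSpace ℝ (Fin n),
      Cls volume M θ r₀ φ ∧ ∀ x, 1 < ‖x‖ → φ x = x
  swap
  · exact ⟨0, Nat.zero_le _, fun i => i.elim0, fun i => i.elim0,
      fun φ h1 h2 => absurd ⟨φ, h1, h2⟩ hne⟩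
  obtain ⟨T, _, code, hT, hc⟩ := codes hn hM hr hθ hA hne
  obtain ⟨N, hN, Ψ, hΨ, hall⟩ := reps {φ | Cls volume M θ r₀ φ ∧ ∀ x, 1 < ‖x‖ → φ x = x} code
    IsotopicC fun a ha b hb => hc a b ha hb
  exact ⟨N, hT ▸ hN, Ψ, hΨ, fun φ h1 h2 => hall φ ⟨h1, h2⟩⟩

theorem iterate_smooth {E : Type} [NormedAddCommGroup E] [NormedSpace ℝ E] {g : E → E}
    (hg : ContDiff ℝ ∞ g) (k : ℕ) : ContDiff ℝ ∞ g^[k] := by
  induction k with
  | zero => exact contDiff_id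
  | succ k ih =>
    rw [Function.iterate_succ]
    exact ih.comp hg

/-- **Slowly growing powers.** -/
theorem torsion {n : ℕ} (hn : n ≠ 0) {A : ℕ} {M θ r₀ : ℝ} (hM : 0 ≤ M) (hr : 0 < r₀)
    (hθ : M * θ < 1) (hA : M ≤ A * (r₀ * (1 - M * θ))) {b : ℕ}
    (hb : b = (24 * n ^ 2 * A + 1) ^ (n * (6936 * n ^ 4 * A ^ 2 + 1) ^ n))
    {φ : EuclideanSpace ℝ (Fin n) → EuclideanSpace ℝ (Fin n)} (hφ : DiffC φ)
    (hs : ∀ x, 1 < ‖x‖ → φ x = x) (hp : ∀ k, 1 ≤ k → k ≤ b + 1 → Cls volume M θ r₀ φ^[k]) :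
    ∃ k, 1 ≤ k ∧ k ≤ b ∧ IsotopicC φ^[k] (fun x => x) := by
  have hsk : ∀ k x, 1 < ‖x‖ → φ^[k] x = x := by
    intro k x hx
    induction k with
    | zero => rfl
    | succ k ih => rw [Function.iterate_succ, comp_apply, hs x hx, ih]
  obtain ⟨T, _, code, hT, hc⟩ := codes hn hM hr hθ hA ⟨φ^[1], hp 1 le_rfl (by omega), hsk 1⟩
  obtain ⟨i, j, hij, he⟩ := Fintype.exists_ne_map_eq_of_card_lt
    (fun i : Fin (b + 1) => code φ^[(i : ℕ) + 1]) (by rw [hT, Fintype.card_fin, ← hb]; omega)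
  -- without loss of generality `i < j`
  obtain ⟨p, q, hpq, hq, he⟩ : ∃ p q : ℕ, p < q ∧ q ≤ b ∧ code φ^[p + 1] = code φ^[q + 1] := by
    rcases lt_or_gt_of_ne (fun h => hij (Fin.ext h) : (i : ℕ) ≠ j) with h | h
    · exact ⟨i, j, h, by omega, he⟩
    · exact ⟨j, i, h, by omega, he.symm⟩
  obtain ⟨F, R, f1, f2, f3, f4, f5⟩ := hc _ _ ⟨hp (q + 1) (by omega) (by omega), hsk _⟩
    ⟨hp (p + 1) (by omega) (by omega), hsk _⟩ he.symm
  obtain ⟨g, g1, g2, g3⟩ := hφ.inv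
  have hgs : ∀ x, 1 < ‖x‖ → g x = x := fun x hx => by
    have := g2 x
    rwa [hs x hx] at this
  have hgk : ∀ k x, 1 < ‖x‖ → g^[k] x = x := by
    intro k x hx
    induction k with
    | zero => rfl
    | succ k ih => rw [Function.iterate_succ, comp_apply, hgs x hx, ih]
  have l1 : LeftInverse g^[p + 1] φ^[p + 1] := g2.iterate _
  have l2 : RightInverse g^[p + 1] φ^[p + 1] := g3.iterate _
  refine ⟨q - p, by omega, by omega, fun y => g^[p + 1] (F y), max R 1,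
    (iterate_smooth g1 _).comp f1, fun t x hx => ?_, fun t ht => ?_, fun x => ?_, fun x => ?_⟩
  · show g^[p + 1] (F (t, x)) = x
    rw [f2 t x ((le_max_left _ _).trans_lt hx), hgk _ x ((le_max_right _ _).trans_lt hx)]
  · obtain ⟨e1, ⟨h, e2, e3, e4⟩, ρ, e5⟩ := f3 t ht
    refine ⟨(iterate_smooth g1 _).comp e1, ⟨fun x => h (φ^[p + 1] x),
      e2.comp (iterate_smooth hφ.smooth _), fun x => ?_, fun x => ?_⟩, max ρ 1, fun x hx => ?_⟩
    · show h (φ^[p + 1] (g^[p + 1] (F (t, x)))) = x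
      rw [l2]
      exact e3 x
    · show g^[p + 1] (F (t, h (φ^[p + 1] x))) = x
      have := e4 (φ^[p + 1] x)
      have e6 : F (t, h (φ^[p + 1] x)) = φ^[p + 1] x := this
      rw [e6]
      exact l1 x
    · show g^[p + 1] (F (t, x)) = x
      have e6 : F (t, x) = x := e5 x ((le_max_left _ _).trans_lt hx)
      rw [e6, hgk _ x ((le_max_right _ _).trans_lt hx)]
  · show g^[p + 1] (F (0, x)) = φ^[q - p] x
    rw [f4]
    have e7 : q + 1 = (p + 1) + (q - p) := by omega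
    rw [e7, Function.iterate_add_apply φ (p + 1) (q - p)]
    exact l1 _
  · show g^[p + 1] (F (1, x)) = x
    rw [f5]
    exact l1 x

/-- bounds for the inverse of the first derivative and for the second derivative -/
theorem cls_of_second {n : ℕ} {A : ℕ} (hA : 1 ≤ A)
    {φ : EuclideanSpace ℝ (Fin n) → EuclideanSpace ℝ (Fin n)} (hφ : DiffC φ)
    (h1 : ∀ x v, ‖v‖ ≤ A * ‖fderiv ℝ φ x v‖)
    (h2 : ∀ x, 2 ^ (n + 2) * ‖fderiv ℝ (fderiv ℝ φ) x‖ ≤ A) :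
    Cls volume (A : ℝ) (1 / (2 * A)) (1 / (A : ℝ) ^ 2) φ := by
  have hA1 : (1 : ℝ) ≤ A := by exact_mod_cast hA
  have hA0 : (0 : ℝ) < A := by linarith
  refine ⟨hφ, h1, fun x r hr hr1 => ?_⟩
  have h3 := OS_le (vol := (volume : Measure (EuclideanSpace ℝ (Fin n)))) hφ hr x
  have hfr : Module.finrank ℝ (EuclideanSpace ℝ (Fin n)) = n := by simp
  rw [hfr] at h3
  refine h3.trans ?_
  have hv : 0 < (volume : Measure (EuclideanSpace ℝ (Fin n))).real (ball x r) :=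
    ENNReal.toReal_pos (measure_ball_pos _ _ hr).ne' measure_ball_lt_top.ne
  have h4 : ⨍ y in ball x r, ‖fderiv ℝ (fderiv ℝ φ) y‖ ≤ A / 2 ^ (n + 2) := by
    rw [setAverage_eq, smul_eq_mul, inv_mul_le_iff₀ hv, mul_comm]
    refine (le_abs_self _).trans ?_
    rw [← Real.norm_eq_abs]
    refine norm_setIntegral_le_of_norm_le_const measure_ball_lt_top fun y _ => ?_
    rw [Real.norm_eq_abs, abs_of_nonneg (norm_nonneg (fderiv ℝ (fderiv ℝ φ) y)),
      le_div_iff₀ (by positivity), mul_comm]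
    exact h2 y
  have h5 : r * ⨍ y in ball x r, ‖fderiv ℝ (fderiv ℝ φ) y‖ ≤
      1 / (A : ℝ) ^ 2 * (A / 2 ^ (n + 2)) := by
    refine (mul_le_mul_of_nonneg_left h4 hr.le).trans ?_
    exact mul_le_mul_of_nonneg_right hr1 (by positivity)
  refine (mul_le_mul_of_nonneg_left h5 (by positivity)).trans (le_of_eq ?_)
  rw [pow_succ (2 : ℝ) (n + 1)]
  field_simp

/-- every diffeomorphism with compact support satisfies such bounds -/
theorem exists_bounds {n : ℕ} {φ : EuclideanSpace ℝ (Fin n) → EuclideanSpace ℝ (Fin n)}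
    (hφ : DiffC φ) : ∃ A : ℕ, 1 ≤ A ∧ (∀ x v, ‖v‖ ≤ A * ‖fderiv ℝ φ x v‖) ∧
      ∀ x, 2 ^ (n + 2) * ‖fderiv ℝ (fderiv ℝ φ) x‖ ≤ A := by
  obtain ⟨g, g1, g2, g3⟩ := hφ.inv
  obtain ⟨R, hR⟩ := hφ.supp
  have hev : ∀ x, R < ‖x‖ → φ =ᶠ[𝓝 x] id := by
    intro x hx
    have h2 : {y : EuclideanSpace ℝ (Fin n) | R < ‖y‖} ∈ 𝓝 x :=
      (isOpen_lt continuous_const continuous_norm).mem_nhds hx
    filter_upwards [h2] with y hy
    exact hR y hy
  have hc1 : Continuous fun x => ‖fderiv ℝ g (φ x)‖ :=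
    ((g1.continuous_fderiv (by simp)).comp hφ.smooth.continuous).norm
  have hc2 : Continuous fun x => ‖fderiv ℝ (fderiv ℝ φ) x‖ :=
    ((hφ.smooth.fderiv_right (m := ∞) (by simp)).continuous_fderiv (by simp)).norm
  obtain ⟨C₁, hC₁⟩ := (isCompact_closedBall (0 : EuclideanSpace ℝ (Fin n)) R).exists_bound_of_continuousOn
    hc1.continuousOn
  obtain ⟨C₂, hC₂⟩ := (isCompact_closedBall (0 : EuclideanSpace ℝ (Fin n)) R).exists_bound_of_continuousOn
    hc2.continuousOn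
  obtain ⟨A, hA⟩ := exists_nat_ge (max 1 (max C₁ (2 ^ (n + 2) * C₂)))
  have hA1 : (1 : ℝ) ≤ A := (le_max_left _ _).trans hA
  have hA2 : C₁ ≤ A := ((le_max_left _ _).trans (le_max_right _ _)).trans hA
  have hA3 : 2 ^ (n + 2) * C₂ ≤ A := ((le_max_right _ _).trans (le_max_right _ _)).trans hA
  refine ⟨A, by exact_mod_cast hA1, fun x v => ?_, fun x => ?_⟩
  · by_cases hx : R < ‖x‖
    · rw [(hev x hx).fderiv_eq, fderiv_id]
      exact le_mul_of_one_le_left (norm_nonneg v) hA1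
    · have h1 : fderiv ℝ g (φ x) (fderiv ℝ φ x v) = v := by
        have h2 : fderiv ℝ (g ∘ φ) x = (fderiv ℝ g (φ x)).comp (fderiv ℝ φ x) :=
          fderiv_comp x (g1.differentiable (by simp) _) (hφ.smooth.differentiable (by simp) x)
        have h3 : g ∘ φ = id := funext g2
        rw [h3, fderiv_id] at h2
        exact (congrArg (fun L : EuclideanSpace ℝ (Fin n) →L[ℝ] EuclideanSpace ℝ (Fin n) => L v)
          h2).symm
      have h4 := (fderiv ℝ g (φ x)).le_opNorm (fderiv ℝ φ x v)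
      rw [h1] at h4
      have h5 : ‖fderiv ℝ g (φ x)‖ ≤ A := by
        have := hC₁ x (by simpa using not_lt.1 hx)
        rw [Real.norm_eq_abs] at this
        exact ((le_abs_self _).trans this).trans hA2
      exact h4.trans (mul_le_mul_of_nonneg_right h5 (norm_nonneg _))
  · by_cases hx : R < ‖x‖
    · have h1 : fderiv ℝ φ =ᶠ[𝓝 x] fun _ => ContinuousLinearMap.id ℝ _ :=
        ((hev x hx).fderiv).trans (Filter.Eventually.of_forall fun y => fderiv_id)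
      rw [h1.fderiv_eq]
      have h4 : fderiv ℝ (fun _ : EuclideanSpace ℝ (Fin n) =>
          ContinuousLinearMap.id ℝ (EuclideanSpace ℝ (Fin n))) x = 0 := fderiv_const_apply _
      rw [h4]
      refine (congrArg (fun s : ℝ => 2 ^ (n + 2) * s) (norm_zero (E := EuclideanSpace ℝ (Fin n)
        →L[ℝ] EuclideanSpace ℝ (Fin n) →L[ℝ] EuclideanSpace ℝ (Fin n)))).trans_le ?_
      rw [mul_zero]
      linarith
    · have := hC₂ x (by simpa using not_lt.1 hx)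
      rw [Real.norm_eq_abs] at this
      exact (mul_le_mul_of_nonneg_left ((le_abs_self _).trans this) (by positivity)).trans hA3

end Run7.h7.Avg
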