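import Mathlib

/-!
# Paths of homeomorphisms of the ball rel boundary
-/

set_option autoImplicit false

open Set Filter Topology Metric Function
open scoped Manifold ContDiff

noncomputable section

namespace Run7.h7.Alex

variable {E : Type} [NormedAddCommGroup E] [NormedSpace ℝ E]

/-- the path of Alexander -/
def alex (φ : E → E) (p : ℝ × E) : E := if p.1 ≤ 0 then p.2 else p.1 • φ (p.1⁻¹ • p.2)

theorem alex_of_nonpos (φ : E → E) {t : ℝ} (ht : t ≤ 0) (x : E) : alex φ (t, x) = x := if_pos ht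

theorem alex_of_pos (φ : E → E) {t : ℝ} (ht : 0 < t) (x : E) :
    alex φ (t, x) = t • φ (t⁻¹ • x) := if_neg (not_le.2 ht)

theorem alex_one (φ : E → E) (x : E) : alex φ (1, x) = φ x := by
  rw [alex_of_pos φ one_pos]
  simp

theorem alex_far {φ : E → E} {r : ℝ} (hφ : ∀ x, r < ‖x‖ → φ x = x) {t : ℝ} {x : E}
    (h : t ≤ 0 ∨ r * t < ‖x‖) : alex φ (t, x) = x := by
  rcases le_or_gt t 0 with ht | ht
  · exact alex_of_nonpos φ ht x
  · rw [alex_of_pos φ ht, hφ, smul_inv_smul₀ ht.ne']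
    rcases h with h | h
    · exact absurd ht (not_lt.2 h)
    rw [norm_smul, norm_inv, Real.norm_of_nonneg ht.le, ← div_eq_inv_mul, lt_div_iff₀ ht]
    exact h

theorem alex_dist {φ : E → E} {D : ℝ} (hD : ∀ x, ‖φ x - x‖ ≤ D) (t : ℝ) (x : E) :
    ‖alex φ (t, x) - x‖ ≤ |t| * D := by
  have hD0 : 0 ≤ D := (norm_nonneg _).trans (hD 0)
  rcases le_or_gt t 0 with ht | ht
  · rw [alex_of_nonpos φ ht, sub_self, norm_zero]
    positivity
  · rw [alex_of_pos φ ht]
    have h1 : t • φ (t⁻¹ • x) - x = t • (φ (t⁻¹ • x) - t⁻¹ • x) := by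
      rw [smul_sub, smul_inv_smul₀ ht.ne']
    rw [h1, norm_smul, Real.norm_eq_abs]
    exact mul_le_mul_of_nonneg_left (hD _) (abs_nonneg t)

theorem alex_smooth_pos {φ : E → E} (hφ : ContDiff ℝ ∞ φ) {t : ℝ} (ht : 0 < t) (x : E) :
    ContDiffAt ℝ ∞ (alex φ) (t, x) := by
  have h1 : alex φ =ᶠ[𝓝 (t, x)] fun p : ℝ × E => p.1 • φ (p.1⁻¹ • p.2) := by
    have h2 : {p : ℝ × E | 0 < p.1} ∈ 𝓝 (t, x) :=
      (isOpen_lt continuous_const continuous_fst).mem_nhds ht
    filter_upwards [h2] with p hp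
    exact if_neg (not_le.2 hp)
  refine ContDiffAt.congr_of_eventuallyEq ?_ h1
  have h3 : ContDiffAt ℝ ∞ (fun p : ℝ × E => p.1⁻¹) (t, x) :=
    (contDiffAt_inv ℝ ht.ne').comp (t, x) contDiffAt_fst
  exact contDiffAt_fst.smul (hφ.contDiffAt.comp (t, x) (h3.smul contDiffAt_snd))

theorem alex_smooth_far {φ : E → E} {r : ℝ} (hr : 0 ≤ r) (hφ : ∀ x, r < ‖x‖ → φ x = x) {t : ℝ}
    {x : E} (h : r * |t| < ‖x‖) : ContDiffAt ℝ ∞ (alex φ) (t, x) := by
  have h1 : alex φ =ᶠ[𝓝 (t, x)] fun p : ℝ × E => p.2 := by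
    have h2 : {p : ℝ × E | r * |p.1| < ‖p.2‖} ∈ 𝓝 (t, x) :=
      (isOpen_lt (continuous_const.mul (continuous_fst.abs)) continuous_snd.norm).mem_nhds h
    filter_upwards [h2] with p hp
    have h3 : r * p.1 ≤ r * |p.1| := mul_le_mul_of_nonneg_left (le_abs_self _) hr
    exact alex_far (t := p.1) (x := p.2) hφ (Or.inr (h3.trans_lt hp))
  exact contDiffAt_snd.congr_of_eventuallyEq h1

theorem alex_smooth {φ : E → E} (hs : ContDiff ℝ ∞ φ) {r : ℝ} (hr : 0 ≤ r)
    (hφ : ∀ x, r < ‖x‖ → φ x = x) {t : ℝ} {x : E} (ht : 0 ≤ t) (h : (t, x) ≠ (0, 0)) :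
    ContDiffAt ℝ ∞ (alex φ) (t, x) := by
  rcases ht.eq_or_lt with h1 | h1
  · subst h1
    refine alex_smooth_far hr hφ ?_
    rw [abs_zero, mul_zero, norm_pos_iff]
    rintro rfl
    exact h rfl
  · exact alex_smooth_pos hs h1 x

theorem alex_continuous {φ : E → E} (hs : ContDiff ℝ ∞ φ) {D : ℝ} (hD : ∀ x, ‖φ x - x‖ ≤ D) :
    Continuous (alex φ) := by
  rw [continuous_iff_continuousAt]
  rintro ⟨t, x⟩
  rcases lt_trichotomy t 0 with ht | ht | ht
  · have h1 : alex φ =ᶠ[𝓝 (t, x)] fun p : ℝ × E => p.2 := by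
      have h2 : {p : ℝ × E | p.1 < 0} ∈ 𝓝 (t, x) :=
        (isOpen_lt continuous_fst continuous_const).mem_nhds ht
      filter_upwards [h2] with p hp
      exact if_pos (le_of_lt hp)
    exact continuousAt_snd.congr h1.symm
  · subst ht
    have h1 : Tendsto (fun p : ℝ × E => |p.1| * D) (𝓝 ((0 : ℝ), x)) (𝓝 0) := by
      have h2 : Continuous fun p : ℝ × E => |p.1| * D := (continuous_fst.abs).mul continuous_const
      have h3 := h2.tendsto ((0 : ℝ), x)
      simpa using h3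
    have h4 : Tendsto (fun p : ℝ × E => alex φ p - p.2) (𝓝 ((0 : ℝ), x)) (𝓝 0) :=
      squeeze_zero_norm (fun p => alex_dist hD p.1 p.2) h1
    have h5 := h4.add (continuous_snd.tendsto ((0 : ℝ), x))
    simp only [sub_add_cancel, zero_add] at h5
    have h6 : alex φ (0, x) = x := alex_of_nonpos φ le_rfl x
    unfold ContinuousAt
    rw [h6]
    exact h5
  · exact (alex_smooth_pos hs ht x).continuousAt

theorem alex_comp {φ g : E → E} (h : LeftInverse g φ) {t : ℝ} :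
    LeftInverse (fun x => alex g (t, x)) fun x => alex φ (t, x) := by
  intro x
  rcases le_or_gt t 0 with ht | ht
  · show alex g (t, alex φ (t, x)) = x
    rw [alex_of_nonpos φ ht, alex_of_nonpos g ht]
  · show alex g (t, alex φ (t, x)) = x
    rw [alex_of_pos φ ht, alex_of_pos g ht, inv_smul_smul₀ ht.ne', h, smul_inv_smul₀ ht.ne']

theorem alex_slice {φ : E → E} (hs : ContDiff ℝ ∞ φ) (t : ℝ) :
    ContDiff ℝ ∞ fun x => alex φ (t, x) := by
  rcases le_or_gt t 0 with ht | ht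
  · have h : (fun x => alex φ (t, x)) = fun x => x := funext fun x => alex_of_nonpos φ ht x
    rw [h]
    exact contDiff_id
  · have h : (fun x => alex φ (t, x)) = fun x => t • φ (t⁻¹ • x) :=
      funext fun x => alex_of_pos φ ht x
    rw [h]
    exact contDiff_const.smul (hs.comp (contDiff_const.smul contDiff_id))

end Run7.h7.Alex
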