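import Mathlib

/-!
Definitions for the approximation of second order Sobolev homeomorphisms by diffeomorphisms
(problem MP_ea0877_an).
-/

open MeasureTheory Filter Set Metric
open scoped ENNReal Topology ContDiff Manifold

namespace Run7.h7

/-- Euclidean space of dimension `n`. -/
abbrev E (n : ℕ) := EuclideanSpace ℝ (Fin n)

/-- The `i`-th standard basis vector. -/
noncomputable def bv {n : ℕ} (i : Fin n) : E n := EuclideanSpace.single i (1 : ℝ)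

/-- `φ` is a test function on `Ω`: smooth, with compact support contained in `Ω`. -/
def IsTest {n : ℕ} (Ω : Set (E n)) (φ : E n → ℝ) : Prop :=
  ContDiff ℝ ∞ φ ∧ HasCompactSupport φ ∧ tsupport φ ⊆ Ω

/-- `v` is the weak `i`-th partial derivative of `u` on `Ω`. -/
def IsWeakPartial {n : ℕ} {F : Type*} [NormedAddCommGroup F] [NormedSpace ℝ F]
    (Ω : Set (E n)) (i : Fin n) (u v : E n → F) : Prop :=
  ∀ φ : E n → ℝ, IsTest Ω φ → ∫ x, fderiv ℝ φ x (bv i) • u x = -∫ x, φ x • v x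

/-- `u` lies in `L^q(Ω)`. -/
def InLq {n : ℕ} {F : Type*} [NormedAddCommGroup F] (Ω : Set (E n)) (q : ℝ≥0∞)
    (u : E n → F) : Prop := MemLp u q (volume.restrict Ω)

/-- The norm of `u` in `L^q(Ω)`. -/
noncomputable def LqNorm {n : ℕ} {F : Type*} [NormedAddCommGroup F] (Ω : Set (E n)) (q : ℝ≥0∞)
    (u : E n → F) : ℝ≥0∞ := eLpNorm u q (volume.restrict Ω)

/-- `u` lies in `W^{2,q}(Ω)`, with weak partial derivatives `Du i` of order one and
`D2u i j` of order two. -/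
def InW2 {n : ℕ} {F : Type*} [NormedAddCommGroup F] [NormedSpace ℝ F]
    (Ω : Set (E n)) (q : ℝ≥0∞) (u : E n → F) (Du : Fin n → E n → F)
    (D2u : Fin n → Fin n → E n → F) : Prop :=
  InLq Ω q u ∧ (∀ i, InLq Ω q (Du i)) ∧ (∀ i j, InLq Ω q (D2u i j)) ∧
    (∀ i, IsWeakPartial Ω i u (Du i)) ∧ ∀ i j, IsWeakPartial Ω j (Du i) (D2u i j)

/-- The `W^{2,q}(Ω)` norm of a map with given partial derivatives. -/
noncomputable def W2norm {n : ℕ} {F : Type*} [NormedAddCommGroup F]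
    (Ω : Set (E n)) (q : ℝ≥0∞) (u : E n → F) (Du : Fin n → E n → F)
    (D2u : Fin n → Fin n → E n → F) : ℝ≥0∞ :=
  LqNorm Ω q u + ∑ i, LqNorm Ω q (Du i) + ∑ i, ∑ j, LqNorm Ω q (D2u i j)

/-- `f` is a homeomorphism of `Ω` onto the open set `f '' Ω`. -/
def IsHomeoOn {n : ℕ} (Ω : Set (E n)) (f : E n → E n) : Prop :=
  ContinuousOn f Ω ∧ IsOpen (f '' Ω) ∧ ∃ h : E n → E n, ContinuousOn h (f '' Ω) ∧ LeftInvOn h f Ω

/-- `g` is smooth on `Ω`. -/
def IsSmoothOn {n : ℕ} (Ω : Set (E n)) (g : E n → E n) : Prop := ContDiffOn ℝ ∞ g Ω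

/-- `g` is a smooth diffeomorphism of `Ω` onto the open set `g '' Ω`. -/
def IsDiffeoOn {n : ℕ} (Ω : Set (E n)) (g : E n → E n) : Prop :=
  IsSmoothOn Ω g ∧ IsOpen (g '' Ω) ∧ ∃ h : E n → E n, IsSmoothOn (g '' Ω) h ∧ LeftInvOn h g Ω

/-- `g` is a smooth immersion of `Ω`. -/
def IsImmersionOn {n : ℕ} (Ω : Set (E n)) (g : E n → E n) : Prop :=
  IsSmoothOn Ω g ∧ ∀ x ∈ Ω, ∀ v, fderiv ℝ g x v = 0 → v = 0

/-- `f` lies in `W^{2,q}(Ω)` and is the limit, in the norm of `W^{2,q}(Ω)`, of a sequence of maps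
with the property `P`. -/
def IsW2Limit {n : ℕ} (P : (E n → E n) → Prop) (Ω : Set (E n)) (q : ℝ≥0∞) (f : E n → E n) :
    Prop :=
  ∃ Df D2f, InW2 Ω q f Df D2f ∧ ∃ (g : ℕ → E n → E n) (Dg : ℕ → Fin n → E n → E n)
    (D2g : ℕ → Fin n → Fin n → E n → E n),
    (∀ k, P (g k) ∧ InW2 Ω q (g k) (Dg k) (D2g k)) ∧
    Tendsto (fun k => W2norm Ω q (fun x => g k x - f x) (fun i x => Dg k i x - Df i x)
      (fun i j x => D2g k i j x - D2f i j x)) atTop (𝓝 0)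

/-- `f` is a homeomorphism of `Ω` onto an open set and lies in `W^{2,q}(Ω)`. -/
def IsW2Homeo {n : ℕ} (Ω : Set (E n)) (q : ℝ≥0∞) (f : E n → E n) : Prop :=
  IsHomeoOn Ω f ∧ ∃ Df D2f, InW2 Ω q f Df D2f

end Run7.h7
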