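import Mathlib
import Pool.Agent.Run7.h7.Defs

/-!
Elementary consequences of the definitions.
-/

open MeasureTheory Filter Set Metric
open scoped ENNReal Topology ContDiff Manifold

namespace Run7.h7

section basic

variable {n : ℕ} {F : Type*} [NormedAddCommGroup F] [NormedSpace ℝ F]
  {Ω : Set (E n)} {q : ℝ≥0∞} {u : E n → F} {Du : Fin n → E n → F}
  {D2u : Fin n → Fin n → E n → F}

lemma InW2.memLp (h : InW2 Ω q u Du D2u) : MemLp u q (volume.restrict Ω) := h.1

lemma InW2.memLp_D (h : InW2 Ω q u Du D2u) (i : Fin n) : MemLp (Du i) q (volume.restrict Ω) :=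
  h.2.1 i

lemma InW2.memLp_D2 (h : InW2 Ω q u Du D2u) (i j : Fin n) :
    MemLp (D2u i j) q (volume.restrict Ω) := h.2.2.1 i j

lemma InW2.weak (h : InW2 Ω q u Du D2u) (i : Fin n) : IsWeakPartial Ω i u (Du i) := h.2.2.2.1 i

lemma InW2.weak2 (h : InW2 Ω q u Du D2u) (i j : Fin n) :
    IsWeakPartial Ω j (Du i) (D2u i j) := h.2.2.2.2 i j

lemma W2norm_def : W2norm Ω q u Du D2u = eLpNorm u q (volume.restrict Ω) +
    ∑ i, eLpNorm (Du i) q (volume.restrict Ω)
    + ∑ i, ∑ j, eLpNorm (D2u i j) q (volume.restrict Ω) := rfl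

lemma IsImmersionOn.injective {g : E n → E n} (h : IsImmersionOn Ω g) :
    ∀ x ∈ Ω, Function.Injective (fderiv ℝ g x) := fun x hx =>
  (injective_iff_map_eq_zero _).2 (h.2 x hx)

lemma IsImmersionOn.mk' {g : E n → E n} (h1 : ContDiffOn ℝ ∞ g Ω)
    (h2 : ∀ x ∈ Ω, Function.Injective (fderiv ℝ g x)) : IsImmersionOn Ω g :=
  ⟨h1, fun x hx => (injective_iff_map_eq_zero _).1 (h2 x hx)⟩

end basic

end Run7.h7
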