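import Mathlib
import Pool.Agent.Run7.h7.Defs
import Pool.Agent.Run7.h7.Basic

/-!
Proper local homeomorphisms of Euclidean space, and inverses of smooth maps with
invertible derivative.
-/

open MeasureTheory Filter Set Metric
open scoped Topology ContDiff

namespace Run7.h7

variable {n : ℕ}

/-- An injective endomorphism of a Euclidean space as a continuous linear equivalence. -/
lemma exists_equiv_of_injective {A : E n →L[ℝ] E n} (h : Function.Injective A) :
    ∃ B : E n ≃L[ℝ] E n, (B : E n →L[ℝ] E n) = A := by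
  let B := (LinearEquiv.ofInjectiveEndo (A : E n →ₗ[ℝ] E n) h).toContinuousLinearEquiv
  refine ⟨B, ?_⟩
  ext x
  rfl

lemma isLocalHomeomorph_of_fderiv {G : E n → E n} (hG : ContDiff ℝ 1 G)
    (hd : ∀ x, Function.Injective (fderiv ℝ G x)) : IsLocalHomeomorph G := by
  intro x
  obtain ⟨B, hB⟩ := exists_equiv_of_injective (hd x)
  have h1 : HasFDerivAt G (B : E n →L[ℝ] E n) x := by
    rw [hB]; exact (hG.differentiable (by simp) x).hasFDerivAt
  exact ⟨hG.contDiffAt.toOpenPartialHomeomorph G h1 (by simp),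
    hG.contDiffAt.mem_toOpenPartialHomeomorph_source h1 (by simp), rfl⟩

/-- A proper local homeomorphism of Euclidean space, one of whose values is taken only once,
is bijective. -/
theorem bijective_of_proper_local {G : E n → E n} (hG : IsLocalHomeomorph G)
    (hp : Tendsto G (cocompact _) (cocompact _)) {x₀ : E n} (h0 : ∀ x, G x = G x₀ → x = x₀) :
    Function.Bijective G := by
  have hc : Continuous G := hG.continuous
  have hproper : IsProperMap G := isProperMap_iff_tendsto_cocompact.2 ⟨hc, hp⟩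
  constructor
  · set P : Set (E n) := {x | ∃ x', x' ≠ x ∧ G x' = G x} with hP
    have hPo : IsOpen P := by
      rw [isOpen_iff_mem_nhds]
      rintro x ⟨x', hne, heq⟩
      obtain ⟨U', U, hU', hU, hx', hx, hdis⟩ := t2_separation hne
      have hV : IsOpen (G '' U') := hG.isOpenMap _ hU'
      have hxV : G x ∈ G '' U' := ⟨x', hx', heq⟩
      filter_upwards [hU.mem_nhds hx, (hV.preimage hc).mem_nhds hxV] with z hz hz'
      obtain ⟨z', hz'U, hzz⟩ := hz'
      refine ⟨z', ?_, hzz⟩
      rintro rfl
      exact disjoint_left.1 hdis hz'U hz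
    have hPc : IsClosed P := by
      apply IsSeqClosed.isClosed
      intro u x hu hux
      choose v hv hv' using hu
      have hcomp : IsCompact (insert (G x) (range fun k => G (u k))) :=
        ((hc.tendsto x).comp hux).isCompact_insert_range
      have hK : IsCompact (G ⁻¹' (insert (G x) (range fun k => G (u k)))) :=
        hproper.isCompact_preimage hcomp
      obtain ⟨x', hx'K, φ, hφ, hφt⟩ := hK.tendsto_subseq (x := v) (fun k => by
        right; exact ⟨k, (hv' k).symm⟩)
      have hGx' : G x' = G x := by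
        have t1 : Tendsto (fun k => G (v (φ k))) atTop (𝓝 (G x')) := (hc.tendsto x').comp hφt
        have t2 : Tendsto (fun k => G (u (φ k))) atTop (𝓝 (G x)) :=
          (hc.tendsto x).comp (hux.comp hφ.tendsto_atTop)
        exact tendsto_nhds_unique (t1.congr fun k => hv' (φ k)) t2
      refine ⟨x', ?_, hGx'⟩
      rintro rfl
      obtain ⟨U, hU, hxU, hinj⟩ := hG.isLocallyInjective x'
      have e1 : ∀ᶠ k in atTop, v (φ k) ∈ U := hφt (hU.mem_nhds hxU)
      have e2 : ∀ᶠ k in atTop, u (φ k) ∈ U :=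
        (hux.comp hφ.tendsto_atTop) (hU.mem_nhds hxU)
      obtain ⟨k, hk1, hk2⟩ := (e1.and e2).exists
      exact hv (φ k) (hinj hk1 hk2 (hv' (φ k)))
    have hPe : P = ∅ := by
      rcases isClopen_iff.1 ⟨hPc, hPo⟩ with h | h
      · exact h
      · exfalso
        have : x₀ ∈ P := by rw [h]; trivial
        obtain ⟨x', hne, heq⟩ := this
        exact hne (h0 x' heq)
    intro a b hab
    by_contra hne
    have : b ∈ P := ⟨a, hne, hab⟩
    rw [hPe] at this
    exact this
  · have h1 : IsOpen (range G) := hG.isOpenMap.isOpen_range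
    have h2 : IsClosed (range G) := hproper.isClosedMap.isClosed_range
    rcases isClopen_iff.1 ⟨h2, h1⟩ with h | h
    · exact absurd h (range_nonempty G).ne_empty
    · exact range_eq_univ.1 h

/-- A bijective smooth map with injective derivatives has a smooth inverse. -/
theorem exists_inverse {G : E n → E n} (hG : ContDiff ℝ ∞ G)
    (hd : ∀ x, Function.Injective (fderiv ℝ G x)) (hbij : Function.Bijective G) :
    ∃ Ψ : E n → E n, ContDiff ℝ ∞ Ψ ∧ (∀ x, Ψ (G x) = x) ∧ ∀ y, G (Ψ y) = y := by
  have hloc := isLocalHomeomorph_of_fderiv (hG.of_le (by simp)) hd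
  let e := Equiv.ofBijective G hbij
  let h : E n ≃ₜ E n := e.toHomeomorphOfContinuousOpen hG.continuous hloc.isOpenMap
  choose B hB using fun x => exists_equiv_of_injective (hd x)
  have hB' : ∀ a, HasFDerivAt h (B a : E n →L[ℝ] E n) a := by
    intro a
    rw [hB a]
    exact (hG.differentiable (by simp) a).hasFDerivAt
  refine ⟨h.symm, h.contDiff_symm hB' hG, fun x => ?_, fun y => ?_⟩
  · exact h.symm_apply_apply x
  · exact h.apply_symm_apply y

/-- the inverse of an injective smooth map with injective derivatives on an open set. -/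
theorem isDiffeoOn_of_injOn {Ω : Set (E n)} (hΩ : IsOpen Ω) {g : E n → E n}
    (hg : ContDiffOn ℝ ∞ g Ω) (hd : ∀ x ∈ Ω, Function.Injective (fderiv ℝ g x))
    (hinj : InjOn g Ω) : IsDiffeoOn Ω g := by
  have hat : ∀ x ∈ Ω, ContDiffAt ℝ ∞ g x := fun x hx => hg.contDiffAt (hΩ.mem_nhds hx)
  have key : ∀ x ∈ Ω, ∃ B : E n ≃L[ℝ] E n, HasFDerivAt g (B : E n →L[ℝ] E n) x := by
    intro x hx
    obtain ⟨B, hB⟩ := exists_equiv_of_injective (hd x hx)
    exact ⟨B, by rw [hB]; exact ((hat x hx).differentiableAt (by simp)).hasFDerivAt⟩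
  have hopen : IsOpen (g '' Ω) := by
    rw [isOpen_iff_mem_nhds]
    rintro _ ⟨x, hx, rfl⟩
    obtain ⟨B, hB⟩ := key x hx
    have := ((hat x hx).hasStrictFDerivAt' hB (by simp)).map_nhds_eq_of_equiv
    rw [← this]
    exact image_mem_map (hΩ.mem_nhds hx)
  refine ⟨hg, hopen, Function.invFunOn g Ω, ?_, hinj.leftInvOn_invFunOn⟩
  rintro _ ⟨x, hx, rfl⟩
  obtain ⟨B, hB⟩ := key x hx
  have h1 := (hat x hx).to_localInverse hB (by simp)
  refine ContDiffAt.contDiffWithinAt (h1.congr_of_eventuallyEq ?_)
  have hs := (hat x hx).hasStrictFDerivAt' hB (by simp)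
  have t1 : Tendsto ((hat x hx).localInverse hB (by simp)) (𝓝 (g x)) (𝓝 x) :=
    hs.localInverse_tendsto
  have t2 : ∀ᶠ y in 𝓝 (g x), g ((hat x hx).localInverse hB (by simp) y) = y :=
    hs.eventually_right_inverse
  filter_upwards [t1 (hΩ.mem_nhds hx), t2] with y hy1 hy2
  have hy1' : (hat x hx).localInverse hB (by simp) y ∈ Ω := hy1
  have h3 : Function.invFunOn g Ω (g ((hat x hx).localInverse hB (by simp) y)) =
      (hat x hx).localInverse hB (by simp) y := hinj.leftInvOn_invFunOn hy1'
  rw [hy2] at h3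
  exact h3

/-- A global diffeomorphism restricts to a diffeomorphism on any open set. -/
theorem isDiffeoOn_of_global {Ω : Set (E n)} (hΩ : IsOpen Ω) {g h : E n → E n}
    (hg : ContDiff ℝ ∞ g) (hh : ContDiff ℝ ∞ h) (h1 : ∀ x, h (g x) = x)
    (h2 : ∀ y, g (h y) = y) : IsDiffeoOn Ω g := by
  refine ⟨hg.contDiffOn, ?_, h, hh.contDiffOn, fun x _ => h1 x⟩
  have : g '' Ω = h ⁻¹' Ω := by
    ext y
    constructor
    · rintro ⟨x, hx, rfl⟩
      simpa [h1] using hx
    · intro hy
      exact ⟨h y, hy, h2 y⟩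
  rw [this]
  exact hΩ.preimage hh.continuous

end Run7.h7
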