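import Mathlib
import Pool.Agent.Run7.h7.Defs
import Pool.Agent.Run7.h7.Basic
import Pool.Agent.Run7.h7.Global

/-!
Small compactly supported perturbations of an injective immersion of class `C^1`.
-/

open MeasureTheory Filter Set Metric
open scoped Topology

namespace Run7.h7

variable {n : ℕ}

/-- uniform lower bounds for continuous families of injective linear maps -/
lemma exists_lower_bound_compact {S : Set (E n)} (hS : IsCompact S) {A : E n → E n →L[ℝ] E n}
    (hA : ContinuousOn A S) (hinj : ∀ x ∈ S, Function.Injective (A x)) :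
    ∃ c : ℝ, 0 < c ∧ ∀ x ∈ S, ∀ v, c * ‖v‖ ≤ ‖A x v‖ := by
  have hK : IsCompact (S ×ˢ sphere (0 : E n) 1) := hS.prod (isCompact_sphere _ _)
  have hcont : ContinuousOn (fun p : E n × E n => ‖A p.1 p.2‖) (S ×ˢ sphere (0 : E n) 1) := by
    refine ContinuousOn.norm ?_
    exact (hA.comp continuousOn_fst fun p hp => hp.1).clm_apply continuousOn_snd
  rcases (S ×ˢ sphere (0 : E n) 1).eq_empty_or_nonempty with he | hne
  · refine ⟨1, one_pos, fun x hx v => ?_⟩
    by_cases hv : v = 0
    · subst hv; simp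
    · exfalso
      have hv' : 0 < ‖v‖ := norm_pos_iff.2 hv
      have : (x, ‖v‖⁻¹ • v) ∈ S ×ˢ sphere (0 : E n) 1 := by
        refine ⟨hx, ?_⟩
        rw [mem_sphere_zero_iff_norm, norm_smul, norm_inv, norm_norm, inv_mul_cancel₀ hv'.ne']
      rw [he] at this
      exact this
  · obtain ⟨p, hp, hmin⟩ := hK.exists_isMinOn hne hcont
    have hp1 : ‖p.2‖ = 1 := mem_sphere_zero_iff_norm.1 hp.2
    have hpos : 0 < ‖A p.1 p.2‖ := by
      rw [norm_pos_iff]
      intro h
      have : p.2 = 0 := (injective_iff_map_eq_zero _).1 (hinj p.1 hp.1) _ h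
      rw [this, norm_zero] at hp1
      exact zero_ne_one hp1
    refine ⟨‖A p.1 p.2‖, hpos, fun x hx v => ?_⟩
    by_cases hv : v = 0
    · subst hv; simp
    · have hv' : 0 < ‖v‖ := norm_pos_iff.2 hv
      have hm : (x, ‖v‖⁻¹ • v) ∈ S ×ˢ sphere (0 : E n) 1 := by
        refine ⟨hx, ?_⟩
        rw [mem_sphere_zero_iff_norm, norm_smul, norm_inv, norm_norm, inv_mul_cancel₀ hv'.ne']
      have h1 := (isMinOn_iff.1 hmin) _ hm
      dsimp only at h1
      rw [map_smul, norm_smul, norm_inv, norm_norm] at h1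
      rwa [← div_eq_inv_mul, le_div_iff₀ hv'] at h1

/-- derivative of the inverse of an injective map. -/
lemma hasFDerivAt_invFunOn {Ω : Set (E n)} (hΩ : IsOpen Ω) {u : E n → E n} (hinj : InjOn u Ω)
    {x : E n} (hx : x ∈ Ω) {B : E n ≃L[ℝ] E n} (hB : HasStrictFDerivAt u (B : E n →L[ℝ] E n) x) :
    HasFDerivAt (Function.invFunOn u Ω) (B.symm : E n →L[ℝ] E n) (u x) := by
  refine hB.to_localInverse.hasFDerivAt.congr_of_eventuallyEq ?_
  have t1 : Tendsto (hB.localInverse u B x) (𝓝 (u x)) (𝓝 x) := hB.localInverse_tendsto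
  have t2 : ∀ᶠ y in 𝓝 (u x), u (hB.localInverse u B x y) = y := hB.eventually_right_inverse
  filter_upwards [t1 (hΩ.mem_nhds hx), t2] with y hy1 hy2
  have hy1' : hB.localInverse u B x y ∈ Ω := hy1
  have h3 : Function.invFunOn u Ω (u (hB.localInverse u B x y)) = hB.localInverse u B x y :=
    hinj.leftInvOn_invFunOn hy1'
  rw [hy2] at h3
  exact h3

/-- Perturbation lemma. -/
theorem injOn_perturb {Ω S : Set (E n)} (hΩ : IsOpen Ω) (hS : IsCompact S) (hSΩ : S ⊆ Ω)
    {u : E n → E n} (hu : ContDiffOn ℝ 1 u Ω) (hinj : InjOn u Ω)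
    (hd : ∀ x ∈ Ω, Function.Injective (fderiv ℝ u x)) :
    ∃ δ : ℝ, 0 < δ ∧ ∀ h : E n → E n, ContDiff ℝ 1 h → (∀ x, x ∉ S → h x = 0) →
      (∀ x, ‖fderiv ℝ h x‖ ≤ δ) → InjOn (fun x => u x + h x) Ω ∧
        ∀ x ∈ Ω, Function.Injective (fderiv ℝ (fun x => u x + h x) x) := by
  have hdc : ContinuousOn (fderiv ℝ u) Ω := hu.continuousOn_fderiv_of_isOpen hΩ le_rfl
  obtain ⟨c, hc, hlow⟩ := exists_lower_bound_compact hS (hdc.mono hSΩ)
    (fun x hx => hd x (hSΩ hx))
  have hudiff : ∀ x ∈ Ω, DifferentiableAt ℝ u x := fun x hx =>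
    (hu.contDiffAt (hΩ.mem_nhds hx)).differentiableAt (by simp)
  refine ⟨c / 2, by positivity, fun h hh h0 hδ => ?_⟩
  have hhdiff : Differentiable ℝ h := hh.differentiable (by simp)
  have hh0 : ∀ x, x ∉ S → fderiv ℝ h x = 0 := by
    intro x hx
    have : h =ᶠ[𝓝 x] fun _ => 0 := by
      filter_upwards [hS.isClosed.isOpen_compl.mem_nhds hx] with y hy
      exact h0 y hy
    rw [this.fderiv_eq]
    simp
  classical
  set inv := Function.invFunOn u Ω with hinv
  have hleft : ∀ x ∈ Ω, inv (u x) = x := fun x hx => hinj.leftInvOn_invFunOn hx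
  set e : E n → E n := fun y => if y ∈ u '' S then h (inv y) else 0 with he
  have heu : ∀ x ∈ Ω, e (u x) = h x := by
    intro x hx
    simp only [he]
    split_ifs with hy
    · rw [hleft x hx]
    · have : x ∉ S := fun hxS => hy ⟨x, hxS, rfl⟩
      rw [h0 x this]
  have hclosed : IsClosed (u '' S) := (hS.image_of_continuousOn
    ((hu.continuousOn).mono hSΩ)).isClosed
  have hopen : ∀ x ∈ Ω, ∀ᶠ y in 𝓝 (u x), ∃ z ∈ Ω, u z = y := by
    intro x hx
    obtain ⟨B, hB⟩ := exists_equiv_of_injective (hd x hx)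
    have hst : HasStrictFDerivAt u (B : E n →L[ℝ] E n) x := by
      rw [hB]
      exact (hu.contDiffAt (hΩ.mem_nhds hx)).hasStrictFDerivAt (by simp)
    have := hst.map_nhds_eq_of_equiv
    rw [← this]
    exact image_mem_map (hΩ.mem_nhds hx)
  have hder : ∀ y, DifferentiableAt ℝ e y ∧ ‖fderiv ℝ e y‖ ≤ 1 / 2 := by
    intro y
    by_cases hy : y ∈ u '' Ω
    · obtain ⟨x, hx, rfl⟩ := hy
      obtain ⟨B, hB⟩ := exists_equiv_of_injective (hd x hx)
      have hst : HasStrictFDerivAt u (B : E n →L[ℝ] E n) x := by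
        rw [hB]
        exact (hu.contDiffAt (hΩ.mem_nhds hx)).hasStrictFDerivAt (by simp)
      have h1 := hasFDerivAt_invFunOn hΩ hinj hx hst
      have h2 : HasFDerivAt h (fderiv ℝ h x) (inv (u x)) := by
        rw [hleft x hx]; exact (hhdiff x).hasFDerivAt
      have h3 := h2.comp (u x) h1
      have h4 : e =ᶠ[𝓝 (u x)] h ∘ inv := by
        filter_upwards [hopen x hx] with z hz
        obtain ⟨w, hw, rfl⟩ := hz
        rw [heu w hw, Function.comp, hleft w hw]
      have h5 := h3.congr_of_eventuallyEq h4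
      refine ⟨h5.differentiableAt, ?_⟩
      rw [h5.fderiv]
      by_cases hxS : x ∈ S
      · refine ContinuousLinearMap.opNorm_le_bound _ (by norm_num) fun v => ?_
        have e1 : B (B.symm v) = v := B.apply_symm_apply v
        have e2 : c * ‖B.symm v‖ ≤ ‖v‖ := by
          have := hlow x hxS (B.symm v)
          rw [← hB] at this
          simpa using this
        calc ‖(fderiv ℝ h x) (B.symm v)‖ ≤ ‖fderiv ℝ h x‖ * ‖B.symm v‖ :=
              ContinuousLinearMap.le_opNorm _ _
          _ ≤ (c / 2) * ‖B.symm v‖ := by gcongr; exact hδ x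
          _ = 1 / 2 * (c * ‖B.symm v‖) := by ring
          _ ≤ 1 / 2 * ‖v‖ := by gcongr
      · rw [hh0 x hxS]
        simp
    · have h1 : e =ᶠ[𝓝 y] fun _ => 0 := by
        have hy' : y ∉ u '' S := fun h => hy (image_mono hSΩ h)
        filter_upwards [hclosed.isOpen_compl.mem_nhds hy'] with z hz
        simp only [he]
        rw [if_neg hz]
      refine ⟨(differentiableAt_const _).congr_of_eventuallyEq h1, ?_⟩
      rw [h1.fderiv_eq]
      simp
  constructor
  · intro x hx x' hx' hxx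
    simp only at hxx
    have h1 := Convex.norm_image_sub_le_of_norm_fderiv_le (𝕜 := ℝ) (f := e) (C := 1 / 2)
      (s := univ) (x := u x') (y := u x) (fun y _ => (hder y).1) (fun y _ => (hder y).2)
      convex_univ (mem_univ _) (mem_univ _)
    rw [heu x hx, heu x' hx'] at h1
    have h2 : h x - h x' = -(u x - u x') := by
      have : u x + h x - (u x' + h x') = 0 := sub_eq_zero.2 hxx
      have h3 : h x - h x' = (u x + h x - (u x' + h x')) - (u x - u x') := by abel
      rw [h3, this, zero_sub]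
    rw [h2, norm_neg] at h1
    have h3 : ‖u x - u x'‖ = 0 := by
      have := norm_nonneg (u x - u x')
      linarith
    exact hinj hx hx' (sub_eq_zero.1 (norm_eq_zero.1 h3))
  · intro x hx
    have h1 : fderiv ℝ (fun x => u x + h x) x = fderiv ℝ u x + fderiv ℝ h x :=
      fderiv_fun_add (hudiff x hx) (hhdiff x)
    rw [h1]
    by_cases hxS : x ∈ S
    · rw [injective_iff_map_eq_zero]
      intro v hv
      by_contra hv0
      have hvp : 0 < ‖v‖ := norm_pos_iff.2 hv0
      rw [add_apply] at hv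
      have e1 : fderiv ℝ u x v = -fderiv ℝ h x v := eq_neg_of_add_eq_zero_left hv
      have e2 := hlow x hxS v
      rw [e1, norm_neg] at e2
      have e3 : ‖fderiv ℝ h x v‖ ≤ c / 2 * ‖v‖ :=
        (ContinuousLinearMap.le_opNorm _ _).trans (by gcongr; exact hδ x)
      have : c * ‖v‖ ≤ c / 2 * ‖v‖ := e2.trans e3
      nlinarith
    · rw [hh0 x hxS, add_zero]
      exact hd x hx

end Run7.h7
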