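import Mathlib
import Pool.Agent.Run7.h7.Defs
import Pool.Agent.Run7.h7.Basic
import Pool.Agent.Run7.h7.Global
import Pool.Agent.Run7.h7.Perturb

/-!
Improvement of a map of class `C^1` with derivatives of corank at most one: the geometric part.
-/

open MeasureTheory Filter Set Metric
open scoped Topology ContDiff RealInnerProductSpace

namespace Run7.h7

variable {n : ℕ}

/-- The orthogonal projection along the unit vector `a`. -/
noncomputable def Pa (a : E n) : E n →L[ℝ] E n :=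
  ContinuousLinearMap.id ℝ (E n) - (innerSL ℝ a).smulRight a

lemma Pa_apply (a y : E n) : Pa a y = y - ⟪a, y⟫ • a := by simp [Pa]

lemma Pa_self {a : E n} (ha : ‖a‖ = 1) : Pa a a = 0 := by
  rw [Pa_apply, real_inner_self_eq_norm_sq, ha]; simp

lemma inner_Pa {a : E n} (ha : ‖a‖ = 1) (y : E n) : ⟪a, Pa a y⟫ = 0 := by
  rw [Pa_apply, inner_sub_right, inner_smul_right, real_inner_self_eq_norm_sq, ha]; simp

lemma Pa_add_inner (a y : E n) : Pa a y + ⟪a, y⟫ • a = y := by rw [Pa_apply]; simp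

lemma Pa_Pa {a : E n} (ha : ‖a‖ = 1) (y : E n) : Pa a (Pa a y) = Pa a y := by
  rw [Pa_apply a (Pa a y), inner_Pa ha]; simp

lemma norm_Pa_le {a : E n} (ha : ‖a‖ = 1) (y : E n) : ‖Pa a y‖ ≤ ‖y‖ := by
  have h1 : ‖y‖ ^ 2 = ‖Pa a y‖ ^ 2 + ⟪a, y⟫ ^ 2 := by
    conv_lhs => rw [← Pa_add_inner a y]
    rw [norm_add_sq_real, inner_smul_right, real_inner_comm a (Pa a y), inner_Pa ha, norm_smul, ha]
    simp
  have h2 : ‖Pa a y‖ ^ 2 ≤ ‖y‖ ^ 2 := by rw [h1]; nlinarith [sq_nonneg ⟪a, y⟫]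
  exact (pow_le_pow_iff_left₀ (norm_nonneg _) (norm_nonneg _) two_ne_zero).1 h2

/-- The chart adapted to the map `v`. -/
noncomputable def Psi (a e x0 : E n) (v : E n → E n) (x : E n) : E n :=
  Pa a (v x) + ⟪e, x - x0⟫ • a

lemma Pa_Psi {a : E n} (ha : ‖a‖ = 1) (e x0 : E n) (v : E n → E n) (x : E n) :
    Pa a (Psi a e x0 v x) = Pa a (v x) := by
  unfold Psi
  rw [map_add, map_smul, Pa_self ha, Pa_Pa ha]; simp

lemma inner_Psi {a : E n} (ha : ‖a‖ = 1) (e x0 : E n) (v : E n → E n) (x : E n) :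
    ⟪a, Psi a e x0 v x⟫ = ⟪e, x - x0⟫ := by
  unfold Psi
  rw [inner_add_right, inner_Pa ha, inner_smul_right, real_inner_self_eq_norm_sq, ha]; simp

lemma hasFDerivAt_Psi {a e x0 : E n} {v : E n → E n} {x : E n} (h : DifferentiableAt ℝ v x) :
    HasFDerivAt (Psi a e x0 v) ((Pa a).comp (fderiv ℝ v x) + (innerSL ℝ e).smulRight a) x := by
  unfold Psi
  refine ((Pa a).hasFDerivAt.comp x h.hasFDerivAt).add ?_
  have h1 : HasFDerivAt (fun y : E n => ⟪e, y - x0⟫) (innerSL ℝ e) x := by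
    have h2 := (innerSL ℝ e).hasFDerivAt.comp x ((hasFDerivAt_id x).sub_const x0)
    rw [ContinuousLinearMap.comp_id] at h2
    exact h2
  exact h1.smul_const a

lemma fderiv_Psi_apply {a e x0 : E n} {v : E n → E n} {x : E n} (h : DifferentiableAt ℝ v x)
    (w : E n) : fderiv ℝ (Psi a e x0 v) x w = Pa a (fderiv ℝ v x w) + ⟪e, w⟫ • a := by
  rw [(hasFDerivAt_Psi h).fderiv]; simp

/-- A good box for the map `v`. -/
structure Box (Ω : Set (E n)) (v : E n → E n) (a e x0 y0 : E n) (r t1 t2 η c : ℝ) : Prop where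
  ha : ‖a‖ = 1
  he : ‖e‖ = 1
  hr : 0 < r
  hB : ball x0 r ⊆ Ω
  ht1 : t1 < 0
  ht2 : 0 < t2
  hη : 0 < η
  hc : 0 < c
  c1 : ContDiffOn ℝ 1 v Ω
  inj : InjOn v Ω
  anti : ∃ κ : ℝ, 0 < κ ∧ ∀ x ∈ ball x0 r, ∀ x' ∈ ball x0 r,
    κ * ‖x - x'‖ ≤ ‖Psi a e x0 v x - Psi a e x0 v x'‖
  psi_inj : ∀ x ∈ ball x0 r, Function.Injective (fderiv ℝ (Psi a e x0 v) x)
  surj : ∀ z : E n, ∀ t : ℝ, Pa a z = z → ‖z - y0‖ ≤ η → t ∈ Icc (t1 - η) (t2 + η) →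
    ∃ x ∈ closedBall x0 (r / 2), Psi a e x0 v x = z + t • a
  zone : ∀ x ∈ ball x0 r, ∀ x' ∈ ball x0 r, ‖Pa a (v x) - y0‖ ≤ η → ‖Pa a (v x') - y0‖ ≤ η →
    (⟪e, x - x0⟫ ∈ Icc (t1 - η) t1 ∧ ⟪e, x' - x0⟫ ∈ Icc (t1 - η) t1) ∨
      (⟪e, x - x0⟫ ∈ Icc t2 (t2 + η) ∧ ⟪e, x' - x0⟫ ∈ Icc t2 (t2 + η)) →
    c * ‖x - x'‖ ≤ ‖v x - v x'‖
  zone' : ∀ x ∈ ball x0 r, ‖Pa a (v x) - y0‖ ≤ η →
    (⟪e, x - x0⟫ ∈ Icc (t1 - η) t1 ∨ ⟪e, x - x0⟫ ∈ Icc t2 (t2 + η)) →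
    ∀ w, c * ‖w‖ ≤ ‖fderiv ℝ v x w‖

section box

variable {Ω : Set (E n)} {v : E n → E n} {a e x0 y0 : E n} {r t1 t2 η c : ℝ}

/-- The inverse of the chart. -/
noncomputable def Xinv (a e x0 : E n) (v : E n → E n) (r : ℝ) : E n → E n :=
  Function.invFunOn (Psi a e x0 v) (ball x0 r)

lemma Box.psi_injOn (h : Box Ω v a e x0 y0 r t1 t2 η c) : InjOn (Psi a e x0 v) (ball x0 r) := by
  obtain ⟨κ, hκ, hκ'⟩ := h.anti
  intro x hx x' hx' hxx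
  have := hκ' x hx x' hx'
  rw [hxx, sub_self, norm_zero] at this
  have h1 : ‖x - x'‖ ≤ 0 := by
    by_contra hcon
    push Not at hcon
    nlinarith
  exact sub_eq_zero.1 (norm_le_zero_iff.1 h1)

lemma Box.X_psi (h : Box Ω v a e x0 y0 r t1 t2 η c) {x : E n} (hx : x ∈ ball x0 r) :
    Xinv a e x0 v r (Psi a e x0 v x) = x := h.psi_injOn.leftInvOn_invFunOn hx

lemma Box.X_mem (h : Box Ω v a e x0 y0 r t1 t2 η c) {z : E n} {t : ℝ} (hz : Pa a z = z)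
    (hz' : ‖z - y0‖ ≤ η) (ht : t ∈ Icc (t1 - η) (t2 + η)) :
    Xinv a e x0 v r (z + t • a) ∈ closedBall x0 (r / 2) ∧
      Psi a e x0 v (Xinv a e x0 v r (z + t • a)) = z + t • a := by
  obtain ⟨x, hx, hx'⟩ := h.surj z t hz hz' ht
  have hxb : x ∈ ball x0 r := closedBall_subset_ball (by linarith [h.hr]) hx
  rw [← hx', h.X_psi hxb]
  exact ⟨hx, rfl⟩

lemma Box.X_mem_ball (h : Box Ω v a e x0 y0 r t1 t2 η c) {z : E n} {t : ℝ} (hz : Pa a z = z)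
    (hz' : ‖z - y0‖ ≤ η) (ht : t ∈ Icc (t1 - η) (t2 + η)) :
    Xinv a e x0 v r (z + t • a) ∈ ball x0 r :=
  closedBall_subset_ball (by linarith [h.hr]) (h.X_mem hz hz' ht).1

lemma Box.Pa_vX (h : Box Ω v a e x0 y0 r t1 t2 η c) {z : E n} {t : ℝ} (hz : Pa a z = z)
    (hz' : ‖z - y0‖ ≤ η) (ht : t ∈ Icc (t1 - η) (t2 + η)) :
    Pa a (v (Xinv a e x0 v r (z + t • a))) = z := by
  rw [← Pa_Psi h.ha e x0 v, (h.X_mem hz hz' ht).2, map_add, map_smul, Pa_self h.ha, hz]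
  simp

lemma Box.t_X (h : Box Ω v a e x0 y0 r t1 t2 η c) {z : E n} {t : ℝ} (hz : Pa a z = z)
    (hz' : ‖z - y0‖ ≤ η) (ht : t ∈ Icc (t1 - η) (t2 + η)) :
    ⟪e, Xinv a e x0 v r (z + t • a) - x0⟫ = t := by
  rw [← inner_Psi h.ha e x0 v, (h.X_mem hz hz' ht).2, inner_add_right, inner_smul_right,
    real_inner_self_eq_norm_sq, h.ha, ← hz, inner_Pa h.ha]
  simp

lemma Box.X_lip (h : Box Ω v a e x0 y0 r t1 t2 η c) : ∃ κ : ℝ, 0 < κ ∧
    ∀ z t z' t', Pa a z = z → ‖z - y0‖ ≤ η → t ∈ Icc (t1 - η) (t2 + η) →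
      Pa a z' = z' → ‖z' - y0‖ ≤ η → t' ∈ Icc (t1 - η) (t2 + η) →
      κ * ‖Xinv a e x0 v r (z + t • a) - Xinv a e x0 v r (z' + t' • a)‖ ≤
        ‖(z + t • a) - (z' + t' • a)‖ := by
  obtain ⟨κ, hκ, hκ'⟩ := h.anti
  refine ⟨κ, hκ, fun z t z' t' h1 h2 h3 h4 h5 h6 => ?_⟩
  have := hκ' _ (h.X_mem_ball h1 h2 h3) _ (h.X_mem_ball h4 h5 h6)
  rwa [(h.X_mem h1 h2 h3).2, (h.X_mem h4 h5 h6).2] at this

lemma Box.X_cont (h : Box Ω v a e x0 y0 r t1 t2 η c) :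
    ContinuousOn (fun p : E n × ℝ => Xinv a e x0 v r (p.1 + p.2 • a))
      ({z | Pa a z = z ∧ ‖z - y0‖ ≤ η} ×ˢ Icc (t1 - η) (t2 + η)) := by
  obtain ⟨κ, hκ, hκ'⟩ := h.X_lip
  rintro ⟨z, t⟩ ⟨⟨hz, hz'⟩, ht⟩
  simp only at hz hz' ht
  rw [ContinuousWithinAt, tendsto_iff_norm_sub_tendsto_zero]
  have h1 : Tendsto (fun p : E n × ℝ => κ⁻¹ * ‖(p.1 + p.2 • a) - (z + t • a)‖)
      (𝓝[{z | Pa a z = z ∧ ‖z - y0‖ ≤ η} ×ˢ Icc (t1 - η) (t2 + η)] (z, t)) (𝓝 0) := by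
    have h2 : Continuous (fun p : E n × ℝ => κ⁻¹ * ‖(p.1 + p.2 • a) - (z + t • a)‖) := by fun_prop
    have h3 := (h2.tendsto (z, t)).mono_left
      (nhdsWithin_le_nhds (s := {z | Pa a z = z ∧ ‖z - y0‖ ≤ η} ×ˢ Icc (t1 - η) (t2 + η)))
    simpa using h3
  refine squeeze_zero' (Eventually.of_forall fun _ => norm_nonneg _) ?_ h1
  filter_upwards [self_mem_nhdsWithin] with p hp
  have := hκ' p.1 p.2 z t hp.1.1 hp.1.2 hp.2 hz hz' ht
  rw [inv_mul_eq_div, le_div_iff₀ hκ]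
  linarith

/-- The restriction of the map to a fibre. -/
noncomputable def fib (v : E n → E n) (a e x0 : E n) (r : ℝ) (z : E n) (t : ℝ) : ℝ :=
  ⟪a, v (Xinv a e x0 v r (z + t • a))⟫

lemma Box.v_X (h : Box Ω v a e x0 y0 r t1 t2 η c) {z : E n} {t : ℝ} (hz : Pa a z = z)
    (hz' : ‖z - y0‖ ≤ η) (ht : t ∈ Icc (t1 - η) (t2 + η)) :
    v (Xinv a e x0 v r (z + t • a)) = z + fib v a e x0 r z t • a := by
  have h1 := Pa_add_inner a (v (Xinv a e x0 v r (z + t • a)))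
  rw [h.Pa_vX hz hz' ht] at h1
  exact h1.symm

lemma Box.fib_cont (h : Box Ω v a e x0 y0 r t1 t2 η c) :
    ContinuousOn (fun p : E n × ℝ => fib v a e x0 r p.1 p.2)
      ({z | Pa a z = z ∧ ‖z - y0‖ ≤ η} ×ˢ Icc (t1 - η) (t2 + η)) := by
  have h1 : ContinuousOn (fun p : E n × ℝ => v (Xinv a e x0 v r (p.1 + p.2 • a)))
      ({z | Pa a z = z ∧ ‖z - y0‖ ≤ η} ×ˢ Icc (t1 - η) (t2 + η)) := by
    refine (h.c1.continuousOn.mono h.hB).comp h.X_cont ?_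
    rintro ⟨z, t⟩ ⟨⟨hz, hz'⟩, ht⟩
    exact h.X_mem_ball hz hz' ht
  exact continuousOn_const.inner h1

lemma Box.fib_inj (h : Box Ω v a e x0 y0 r t1 t2 η c) {z : E n} (hz : Pa a z = z)
    (hz' : ‖z - y0‖ ≤ η) : InjOn (fib v a e x0 r z) (Icc (t1 - η) (t2 + η)) := by
  intro t ht s hs hts
  have h1 : v (Xinv a e x0 v r (z + t • a)) = v (Xinv a e x0 v r (z + s • a)) := by
    rw [h.v_X hz hz' ht, h.v_X hz hz' hs, hts]
  have h2 := h.inj (h.hB (h.X_mem_ball hz hz' ht)) (h.hB (h.X_mem_ball hz hz' hs)) h1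
  rw [← h.t_X hz hz' ht, h2, h.t_X hz hz' hs]

lemma Box.fib_cont' (h : Box Ω v a e x0 y0 r t1 t2 η c) {z : E n} (hz : Pa a z = z)
    (hz' : ‖z - y0‖ ≤ η) : ContinuousOn (fib v a e x0 r z) (Icc (t1 - η) (t2 + η)) := by
  have := h.fib_cont
  refine ContinuousOn.comp (g := fun p : E n × ℝ => fib v a e x0 r p.1 p.2)
    (f := fun t : ℝ => (z, t)) this (by fun_prop) ?_
  intro t ht
  exact ⟨⟨hz, hz'⟩, ht⟩

/-- All the fibre maps are strictly monotone in the same sense. -/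
theorem Box.exists_sign (h : Box Ω v a e x0 y0 r t1 t2 η c) :
    ∃ ς : ℝ, (ς = 1 ∨ ς = -1) ∧ ∀ z, Pa a z = z → ‖z - y0‖ ≤ η →
      StrictMonoOn (fun t => ς * fib v a e x0 r z t) (Icc (t1 - η) (t2 + η)) := by
  have ht1 := h.ht1
  have ht2 := h.ht2
  have hη := h.hη
  have hI : t1 - η ≤ t2 + η := by linarith
  have m1 : t1 ∈ Icc (t1 - η) (t2 + η) := ⟨by linarith, by linarith⟩
  have m2 : t2 ∈ Icc (t1 - η) (t2 + η) := ⟨by linarith, by linarith⟩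
  set Z : Set (E n) := {z | Pa a z = z ∧ ‖z - y0‖ ≤ η} with hZ
  have hconv : Convex ℝ Z := by
    have e1 : Z = {z | (Pa a) z = z} ∩ closedBall y0 η := by
      ext z; simp [hZ, dist_eq_norm]
    rw [e1]
    refine Convex.inter ?_ (convex_closedBall y0 η)
    intro z hz w hw s t _ _ _
    simp only [mem_ofPred_eq] at hz hw ⊢
    rw [map_add, map_smul, map_smul, hz, hw]
  have hG : ContinuousOn (fun z => fib v a e x0 r z t2 - fib v a e x0 r z t1) Z := by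
    have g : ∀ t ∈ Icc (t1 - η) (t2 + η), ContinuousOn (fun z => fib v a e x0 r z t) Z := by
      intro t ht
      refine ContinuousOn.comp (g := fun p : E n × ℝ => fib v a e x0 r p.1 p.2)
        (f := fun z : E n => (z, t)) h.fib_cont (by fun_prop) ?_
      intro z hz
      exact ⟨hz, ht⟩
    exact (g t2 m2).sub (g t1 m1)
  have hne : ∀ z ∈ Z, fib v a e x0 r z t2 - fib v a e x0 r z t1 ≠ 0 := by
    intro z hz h0
    have := h.fib_inj hz.1 hz.2 m2 m1 (sub_eq_zero.1 h0)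
    linarith
  have hmono : ∀ z ∈ Z, StrictMonoOn (fib v a e x0 r z) (Icc (t1 - η) (t2 + η)) ∨
      StrictAntiOn (fib v a e x0 r z) (Icc (t1 - η) (t2 + η)) := fun z hz =>
    (h.fib_cont' hz.1 hz.2).strictMonoOn_of_injOn_Icc' hI (h.fib_inj hz.1 hz.2)
  have hsign : (∀ z ∈ Z, 0 < fib v a e x0 r z t2 - fib v a e x0 r z t1) ∨
      ∀ z ∈ Z, fib v a e x0 r z t2 - fib v a e x0 r z t1 < 0 := by
    by_contra hcon
    push Not at hcon
    obtain ⟨⟨z, hz, hz0⟩, ⟨w, hw, hw0⟩⟩ := hcon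
    obtain ⟨y, hy, hy0⟩ := hconv.isPreconnected.intermediate_value hz hw hG ⟨hz0, hw0⟩
    exact hne y hy hy0
  rcases hsign with hs | hs
  · refine ⟨1, Or.inl rfl, fun z hz hz' => ?_⟩
    rcases hmono z ⟨hz, hz'⟩ with hm | hm
    · simpa using hm
    · exfalso
      have := hm m1 m2 (by linarith)
      have := hs z ⟨hz, hz'⟩
      linarith
  · refine ⟨-1, Or.inr rfl, fun z hz hz' => ?_⟩
    rcases hmono z ⟨hz, hz'⟩ with hm | hm
    · exfalso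
      have := hm m1 m2 (by linarith)
      have := hs z ⟨hz, hz'⟩
      linarith
    · intro s hs t ht hst
      have := hm hs ht hst
      simp only
      linarith

end box

end Run7.h7
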