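import Mathlib
import Pool.Agent.Run7.h7.Defs
import Pool.Agent.Run7.h7.Basic
import Pool.Agent.Run7.h7.Global
import Pool.Agent.Run7.h7.Perturb
import Pool.Agent.Run7.h7.Fibre

/-!
Improvement of a map of class `C^1` with derivatives of corank at most one: perturbation in a box.
-/

open MeasureTheory Filter Set Metric
open scoped Topology ContDiff RealInnerProductSpace

namespace Run7.h7

variable {n : ℕ}

/-- The longitudinal profile. -/
lemma exists_W (t1 t2 : ℝ) {η : ℝ} (hη : 0 < η) :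
    ∃ (W : ℝ → ℝ) (M : ℝ), ContDiff ℝ ∞ W ∧ 0 < M ∧ (∀ t, |deriv W t| ≤ M) ∧
      (∀ t ∈ Icc t1 t2, W t = t ∧ deriv W t = 1) ∧
      (∀ t, t ∉ Ioo (t1 - η) (t2 + η) → W t = 0 ∧ deriv W t = 0) := by
  set χ : ℝ → ℝ := fun t => Real.smoothTransition ((t - (t1 - 3 * η / 4)) * (4 / η)) *
    Real.smoothTransition (((t2 + 3 * η / 4) - t) * (4 / η)) with hχ
  have hχs : ContDiff ℝ ∞ χ := by
    refine (Real.smoothTransition.contDiff.comp ?_).mul (Real.smoothTransition.contDiff.comp ?_)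
    · fun_prop
    · fun_prop
  have hW : ContDiff ℝ ∞ (fun t => t * χ t) := contDiff_id.mul hχs
  have hone : ∀ t, t1 - η / 2 ≤ t → t ≤ t2 + η / 2 → t * χ t = t := by
    intro t h1 h2
    have e1 : Real.smoothTransition ((t - (t1 - 3 * η / 4)) * (4 / η)) = 1 := by
      apply Real.smoothTransition.one_of_one_le
      have : (η / 4) * (4 / η) = 1 := by field_simp
      calc (1 : ℝ) = (η / 4) * (4 / η) := this.symm
        _ ≤ _ := by gcongr; linarith
    have e2 : Real.smoothTransition (((t2 + 3 * η / 4) - t) * (4 / η)) = 1 := by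
      apply Real.smoothTransition.one_of_one_le
      have : (η / 4) * (4 / η) = 1 := by field_simp
      calc (1 : ℝ) = (η / 4) * (4 / η) := this.symm
        _ ≤ _ := by gcongr; linarith
    simp only [hχ, e1, e2, mul_one]
  have hzero : ∀ t, (t ≤ t1 - 3 * η / 4 ∨ t2 + 3 * η / 4 ≤ t) → t * χ t = 0 := by
    rintro t (h1 | h1)
    · have e1 : Real.smoothTransition ((t - (t1 - 3 * η / 4)) * (4 / η)) = 0 := by
        apply Real.smoothTransition.zero_of_nonpos
        exact mul_nonpos_of_nonpos_of_nonneg (by linarith) (by positivity)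
      simp [hχ, e1]
    · have e1 : Real.smoothTransition (((t2 + 3 * η / 4) - t) * (4 / η)) = 0 := by
        apply Real.smoothTransition.zero_of_nonpos
        exact mul_nonpos_of_nonpos_of_nonneg (by linarith) (by positivity)
      simp [hχ, e1]
  have hcs : HasCompactSupport (fun t => t * χ t) := by
    refine HasCompactSupport.intro (isCompact_Icc (a := t1 - η) (b := t2 + η)) ?_
    intro t ht
    apply hzero
    simp only [mem_Icc, not_and_or, not_le] at ht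
    rcases ht with h | h
    · left; linarith
    · right; linarith
  obtain ⟨C, hC⟩ := ((hW.continuous_deriv (by simp)).bounded_above_of_compact_support hcs.deriv)
  refine ⟨fun t => t * χ t, |C| + 1, hW, by positivity, ?_, ?_, ?_⟩
  · intro t
    have := hC t
    rw [Real.norm_eq_abs] at this
    have := le_abs_self C
    linarith
  · intro t ht
    refine ⟨hone t (by linarith [ht.1]) (by linarith [ht.2]), ?_⟩
    have : (fun t => t * χ t) =ᶠ[𝓝 t] fun s => s := by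
      have h1 : Ioo (t1 - η / 2) (t2 + η / 2) ∈ 𝓝 t :=
        Ioo_mem_nhds (by linarith [ht.1]) (by linarith [ht.2])
      filter_upwards [h1] with s hs
      exact hone s hs.1.le hs.2.le
    rw [this.deriv_eq]
    simp
  · intro t ht
    simp only [mem_Ioo, not_and_or, not_lt] at ht
    have h0 : (t ≤ t1 - 3 * η / 4 ∨ t2 + 3 * η / 4 ≤ t) := by
      rcases ht with h | h
      · left; linarith
      · right; linarith
    refine ⟨hzero t h0, ?_⟩
    have : (fun t => t * χ t) =ᶠ[𝓝 t] fun _ => 0 := by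
      rcases ht with h | h
      · have h1 : Iio (t1 - 3 * η / 4) ∈ 𝓝 t := Iio_mem_nhds (by linarith)
        filter_upwards [h1] with s hs
        exact hzero s (Or.inl (le_of_lt hs))
      · have h1 : Ioi (t2 + 3 * η / 4) ∈ 𝓝 t := Ioi_mem_nhds (by linarith)
        filter_upwards [h1] with s hs
        exact hzero s (Or.inr (le_of_lt hs))
    rw [this.deriv_eq]
    simp

/-- The transversal profile. -/
lemma exists_psi {η : ℝ} (hη : 0 < η) : ∃ ψ : ℝ → ℝ, ContDiff ℝ ∞ ψ ∧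
    (∀ s, ψ s ∈ Icc (0 : ℝ) 1) ∧ (∀ s, s ≤ (η / 2) ^ 2 → ψ s = 1) ∧
    ∀ s, η ^ 2 ≤ s → ψ s = 0 := by
  refine ⟨fun s => Real.smoothTransition (2 - 4 * s / η ^ 2), ?_, ?_, ?_, ?_⟩
  · exact Real.smoothTransition.contDiff.comp (by fun_prop)
  · intro s
    exact ⟨Real.smoothTransition.nonneg _, Real.smoothTransition.le_one _⟩
  · intro s hs
    apply Real.smoothTransition.one_of_one_le
    have : 4 * s / η ^ 2 ≤ 1 := by
      rw [div_le_one (by positivity)]
      nlinarith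
    linarith
  · intro s hs
    apply Real.smoothTransition.zero_of_nonpos
    have : 4 ≤ 4 * s / η ^ 2 := by
      rw [le_div_iff₀ (by positivity)]
      nlinarith
    linarith

/-- The kernel of the derivative is at most one-dimensional. -/
def Loc1 (u : E n → E n) (x : E n) : Prop :=
  ∃ w0 : E n, ∀ w, fderiv ℝ u x w = 0 → ∃ t : ℝ, w = t • w0

/-- The derivative is injective. -/
def Good1 (u : E n → E n) (x : E n) : Prop := Function.Injective (fderiv ℝ u x)

section box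

variable {Ω : Set (E n)} {v : E n → E n} {a e x0 y0 : E n} {r t1 t2 η c : ℝ}

lemma Box.diff (h : Box Ω v a e x0 y0 r t1 t2 η c) (hΩ : IsOpen Ω) {x : E n} (hx : x ∈ Ω) :
    DifferentiableAt ℝ v x := (h.c1.contDiffAt (hΩ.mem_nhds hx)).differentiableAt (by simp)

/-- existence of the fibre direction -/
lemma Box.exists_w0 (h : Box Ω v a e x0 y0 r t1 t2 η c) (hΩ : IsOpen Ω) {x : E n}
    (hx : x ∈ ball x0 r) : ∃ (B : E n ≃L[ℝ] E n) (w0 : E n),
      (B : E n →L[ℝ] E n) = fderiv ℝ (Psi a e x0 v) x ∧ w0 = B.symm a ∧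
      ⟪e, w0⟫ = 1 ∧ fderiv ℝ v x w0 = ⟪a, fderiv ℝ v x w0⟫ • a ∧
      ∀ w, Pa a (fderiv ℝ v x w) = 0 → w = ⟪e, w⟫ • w0 := by
  obtain ⟨B, hB⟩ := exists_equiv_of_injective (h.psi_inj x hx)
  have hd := h.diff hΩ (h.hB hx)
  have hBw : ∀ w, B w = Pa a (fderiv ℝ v x w) + ⟪e, w⟫ • a := by
    intro w
    have h1 : B w = fderiv ℝ (Psi a e x0 v) x w := by rw [← hB]; rfl
    rw [h1, fderiv_Psi_apply hd]
  have h2 : Pa a (fderiv ℝ v x (B.symm a)) + ⟪e, B.symm a⟫ • a = a := by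
    rw [← hBw, B.apply_symm_apply]
  have h3 : ⟪e, B.symm a⟫ = 1 := by
    have := congrArg (fun y => ⟪a, y⟫) h2
    simp only [inner_add_right, inner_Pa h.ha, inner_smul_right, real_inner_self_eq_norm_sq,
      h.ha] at this
    linarith
  have h4 : Pa a (fderiv ℝ v x (B.symm a)) = 0 := by
    rw [h3, one_smul] at h2
    exact add_eq_right.1 h2
  refine ⟨B, B.symm a, hB, rfl, h3, ?_, ?_⟩
  · have h5 := Pa_add_inner a (fderiv ℝ v x (B.symm a))
    rw [h4, zero_add] at h5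
    exact h5.symm
  · intro w hw
    apply B.injective
    rw [hBw w, hw, zero_add, map_smul, B.apply_symm_apply]

/-- The derivative along a fibre. -/
lemma Box.sign_deriv (h : Box Ω v a e x0 y0 r t1 t2 η c) (hΩ : IsOpen Ω) {ς : ℝ}
    (hς : ∀ z, Pa a z = z → ‖z - y0‖ ≤ η →
      StrictMonoOn (fun t => ς * fib v a e x0 r z t) (Icc (t1 - η) (t2 + η)))
    {x : E n} (hx : x ∈ ball x0 r) (hx1 : ‖Pa a (v x) - y0‖ ≤ η)
    (hx2 : ⟪e, x - x0⟫ ∈ Ioo (t1 - η) (t2 + η)) {B : E n ≃L[ℝ] E n}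
    (hB : (B : E n →L[ℝ] E n) = fderiv ℝ (Psi a e x0 v) x) :
    0 ≤ ς * ⟪a, fderiv ℝ v x (B.symm a)⟫ := by
  set z := Pa a (v x) with hz
  set t := ⟪e, x - x0⟫ with ht
  have hzz : Pa a z = z := Pa_Pa h.ha _
  have hpsi : Psi a e x0 v x = z + t • a := rfl
  have hX : Xinv a e x0 v r (z + t • a) = x := by rw [← hpsi]; exact h.X_psi hx
  have hd := h.diff hΩ (h.hB hx)
  have hst : HasStrictFDerivAt (Psi a e x0 v) (B : E n →L[ℝ] E n) x := by
    rw [hB]
    have : ContDiffAt ℝ 1 (Psi a e x0 v) x := by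
      have h1 : ContDiffAt ℝ 1 v x := h.c1.contDiffAt (hΩ.mem_nhds (h.hB hx))
      have h2 : ContDiff ℝ 1 (fun y : E n => ⟪e, y - x0⟫ • a) :=
        ((innerSL ℝ e).contDiff.comp (contDiff_id.sub contDiff_const)).smul contDiff_const
      exact ((Pa a).contDiff.contDiffAt.comp x h1).add h2.contDiffAt
    exact this.hasStrictFDerivAt (by simp)
  have h1 : HasFDerivAt (Xinv a e x0 v r) (B.symm : E n →L[ℝ] E n) (z + t • a) := by
    rw [← hpsi]
    exact hasFDerivAt_invFunOn isOpen_ball h.psi_injOn hx hst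
  have h2 : HasDerivAt (fun s : ℝ => z + s • a) a t := by
    have := ((hasDerivAt_id t).smul_const a).const_add z
    simpa using this
  have h3 : HasDerivAt (fun s : ℝ => Xinv a e x0 v r (z + s • a)) (B.symm a) t := by
    have h3' := h1.comp_hasDerivAt t h2
    exact h3'
  have h4 : HasDerivAt (fun s : ℝ => v (Xinv a e x0 v r (z + s • a)))
      (fderiv ℝ v x (B.symm a)) t := by
    refine HasFDerivAt.comp_hasDerivAt t ?_ h3
    rw [hX]
    exact hd.hasFDerivAt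
  have h5 : HasDerivAt (fun s : ℝ => ς * fib v a e x0 r z s)
      (ς * ⟪a, fderiv ℝ v x (B.symm a)⟫) t := by
    have h6 : HasDerivAt (fun s : ℝ => fib v a e x0 r z s) ⟪a, fderiv ℝ v x (B.symm a)⟫ t :=
      HasFDerivAt.comp_hasDerivAt t (innerSL ℝ a).hasFDerivAt h4
    exact h6.const_mul ς
  have hI : t1 - η < t2 + η := by linarith [hx2.1, hx2.2]
  have htI : t ∈ Icc (t1 - η) (t2 + η) := Ioo_subset_Icc_self hx2
  have h6 := h5.hasDerivWithinAt (s := Icc (t1 - η) (t2 + η))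
  have h7 := h6.derivWithin (uniqueDiffOn_Icc hI t htI)
  rw [← h7]
  exact (hς z hzz hx1).monotoneOn.derivWithin_nonneg

/-- The bound from below in the zones. -/
lemma Box.zone_fib (h : Box Ω v a e x0 y0 r t1 t2 η c) {ς : ℝ} (hς1 : ς = 1 ∨ ς = -1)
    (hς : ∀ z, Pa a z = z → ‖z - y0‖ ≤ η →
      StrictMonoOn (fun t => ς * fib v a e x0 r z t) (Icc (t1 - η) (t2 + η)))
    {z : E n} (hz : Pa a z = z) (hz' : ‖z - y0‖ ≤ η) {s t : ℝ} (hst : s < t)
    (hzone : (t ∈ Icc (t1 - η) t1 ∧ s ∈ Icc (t1 - η) t1) ∨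
      (t ∈ Icc t2 (t2 + η) ∧ s ∈ Icc t2 (t2 + η))) :
    c * (t - s) ≤ ς * fib v a e x0 r z t - ς * fib v a e x0 r z s := by
  have ht1 := h.ht1
  have ht2 := h.ht2
  have hη := h.hη
  have htI : t ∈ Icc (t1 - η) (t2 + η) := by
    rcases hzone with ⟨h1, _⟩ | ⟨h1, _⟩
    · exact ⟨h1.1, by linarith [h1.2]⟩
    · exact ⟨by linarith [h1.1], h1.2⟩
  have hsI : s ∈ Icc (t1 - η) (t2 + η) := by
    rcases hzone with ⟨_, h1⟩ | ⟨_, h1⟩
    · exact ⟨h1.1, by linarith [h1.2]⟩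
    · exact ⟨by linarith [h1.1], h1.2⟩
  have h1 := h.zone _ (h.X_mem_ball hz hz' htI) _ (h.X_mem_ball hz hz' hsI)
    (by rw [h.Pa_vX hz hz' htI]; exact hz') (by rw [h.Pa_vX hz hz' hsI]; exact hz')
    (by rw [h.t_X hz hz' htI, h.t_X hz hz' hsI]; exact hzone)
  have h2 : v (Xinv a e x0 v r (z + t • a)) - v (Xinv a e x0 v r (z + s • a)) =
      (fib v a e x0 r z t - fib v a e x0 r z s) • a := by
    rw [h.v_X hz hz' htI, h.v_X hz hz' hsI, sub_smul]; abel
  rw [h2, norm_smul, h.ha, mul_one, Real.norm_eq_abs] at h1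
  have h3 : t - s ≤ ‖Xinv a e x0 v r (z + t • a) - Xinv a e x0 v r (z + s • a)‖ := by
    have h4 : t - s = ⟪e, Xinv a e x0 v r (z + t • a) - Xinv a e x0 v r (z + s • a)⟫ := by
      have e1 := h.t_X hz hz' htI
      have e2 := h.t_X hz hz' hsI
      rw [inner_sub_right] at e1 e2 ⊢
      linarith
    rw [h4]
    have := real_inner_le_norm e
      (Xinv a e x0 v r (z + t • a) - Xinv a e x0 v r (z + s • a))
    rwa [h.he, one_mul] at this
  have h5 : |fib v a e x0 r z t - fib v a e x0 r z s| =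
      ς * fib v a e x0 r z t - ς * fib v a e x0 r z s := by
    have h6 := hς z hz hz' hsI htI hst
    simp only at h6
    rcases hς1 with rfl | rfl
    · rw [abs_of_pos (by linarith)]; ring
    · rw [abs_of_neg (by linarith)]; ring
  rw [h5] at h1
  calc c * (t - s) ≤ c * ‖Xinv a e x0 v r (z + t • a) - Xinv a e x0 v r (z + s • a)‖ := by
        gcongr; exact h.hc.le
    _ ≤ _ := h1

/-- The perturbed fibre maps are strictly monotone. -/
lemma Box.fib_pert (h : Box Ω v a e x0 y0 r t1 t2 η c) {ς : ℝ} (hς1 : ς = 1 ∨ ς = -1)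
    (hς : ∀ z, Pa a z = z → ‖z - y0‖ ≤ η →
      StrictMonoOn (fun t => ς * fib v a e x0 r z t) (Icc (t1 - η) (t2 + η)))
    {W : ℝ → ℝ} {M : ℝ} (hW : ContDiff ℝ ∞ W) (hM : ∀ t, |deriv W t| ≤ M)
    (hW1 : ∀ t ∈ Icc t1 t2, W t = t ∧ deriv W t = 1) {σ : ℝ} (hσ : 0 < σ) (hσM : σ * M < c)
    {z : E n} (hz : Pa a z = z) (hz' : ‖z - y0‖ ≤ η) {p : ℝ} (hp : p ∈ Icc (0 : ℝ) 1) :
    StrictMonoOn (fun t => ς * fib v a e x0 r z t + σ * (p * W t))
      (Icc (t1 - η) (t2 + η)) := by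
  have ht1 := h.ht1
  have ht2 := h.ht2
  have hη := h.hη
  have hlip : ∀ s t, s < t → |W t - W s| ≤ M * (t - s) := by
    intro s t hst
    have := convex_univ.norm_image_sub_le_of_norm_deriv_le (f := W) (C := M) (x := s) (y := t)
      (fun x _ => hW.differentiable (by simp) x) (fun x _ => hM x) (mem_univ _) (mem_univ _)
    rwa [Real.norm_eq_abs, Real.norm_eq_abs, abs_of_pos (sub_pos.2 hst)] at this
  have hzone : ∀ s t, s < t → ((t ∈ Icc (t1 - η) t1 ∧ s ∈ Icc (t1 - η) t1) ∨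
      (t ∈ Icc t2 (t2 + η) ∧ s ∈ Icc t2 (t2 + η))) →
      ς * fib v a e x0 r z s + σ * (p * W s) < ς * fib v a e x0 r z t + σ * (p * W t) := by
    intro s t hst hh
    have h1 := h.zone_fib hς1 hς hz hz' hst hh
    have h2 := hlip s t hst
    have h3 : -(M * (t - s)) ≤ W t - W s := (abs_le.1 h2).1
    have hts : 0 < t - s := sub_pos.2 hst
    have hM0 : 0 ≤ M := (abs_nonneg _).trans (hM 0)
    have h4 : -(M * (t - s)) ≤ p * (W t - W s) := by
      rcases le_total 0 (W t - W s) with h5 | h5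
      · have : 0 ≤ p * (W t - W s) := mul_nonneg hp.1 h5
        have : 0 ≤ M * (t - s) := by positivity
        linarith
      · have : (W t - W s) ≤ p * (W t - W s) := by nlinarith [hp.2]
        linarith
    have h5 : -(σ * M * (t - s)) ≤ σ * (p * (W t - W s)) := by
      calc -(σ * M * (t - s)) = σ * (-(M * (t - s))) := by ring
        _ ≤ _ := mul_le_mul_of_nonneg_left h4 hσ.le
    have h6 : σ * M * (t - s) < c * (t - s) := by gcongr
    have h7 : σ * (p * (W t - W s)) = σ * (p * W t) - σ * (p * W s) := by ring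
    linarith
  have m1 : StrictMonoOn (fun t => ς * fib v a e x0 r z t + σ * (p * W t))
      (Icc (t1 - η) t1) := fun s hs t ht hst => hzone s t hst (Or.inl ⟨ht, hs⟩)
  have m3 : StrictMonoOn (fun t => ς * fib v a e x0 r z t + σ * (p * W t))
      (Icc t2 (t2 + η)) := fun s hs t ht hst => hzone s t hst (Or.inr ⟨ht, hs⟩)
  have m2 : StrictMonoOn (fun t => ς * fib v a e x0 r z t + σ * (p * W t))
      (Icc t1 t2) := by
    intro s hs t ht hst
    have h1 := hς z hz hz' (⟨by linarith [hs.1], by linarith [hs.2]⟩ : s ∈ Icc (t1 - η) (t2 + η))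
      (⟨by linarith [ht.1], by linarith [ht.2]⟩ : t ∈ Icc (t1 - η) (t2 + η)) hst
    simp only at h1 ⊢
    rw [(hW1 s hs).1, (hW1 t ht).1]
    have h2 : p * s ≤ p * t := mul_le_mul_of_nonneg_left hst.le hp.1
    have h3 : σ * (p * s) ≤ σ * (p * t) := mul_le_mul_of_nonneg_left h2 hσ.le
    linarith
  have m12 := m1.union m2 (isGreatest_Icc (by linarith)) (isLeast_Icc (by linarith))
  rw [Icc_union_Icc_eq_Icc (by linarith) (by linarith)] at m12
  have m123 := m12.union m3 (isGreatest_Icc (by linarith)) (isLeast_Icc (by linarith))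
  rwa [Icc_union_Icc_eq_Icc (by linarith) (by linarith)] at m123

/-- Points of the box are the points of the fibres. -/
lemma Box.eq_X (h : Box Ω v a e x0 y0 r t1 t2 η c) {x : E n} (hx : x ∈ ball x0 r) :
    Xinv a e x0 v r (Pa a (v x) + ⟪e, x - x0⟫ • a) = x := h.X_psi hx

/-- Injectivity of the perturbed map. -/
theorem Box.injOn_pert (h : Box Ω v a e x0 y0 r t1 t2 η c) {ς : ℝ} (hς1 : ς = 1 ∨ ς = -1)
    (hς : ∀ z, Pa a z = z → ‖z - y0‖ ≤ η →
      StrictMonoOn (fun t => ς * fib v a e x0 r z t) (Icc (t1 - η) (t2 + η)))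
    {W : ℝ → ℝ} {M : ℝ} (hW : ContDiff ℝ ∞ W) (hM : ∀ t, |deriv W t| ≤ M)
    (hW1 : ∀ t ∈ Icc t1 t2, W t = t ∧ deriv W t = 1)
    (hW0 : ∀ t, t ∉ Ioo (t1 - η) (t2 + η) → W t = 0 ∧ deriv W t = 0)
    {σ : ℝ} (hσ : 0 < σ) (hσM : σ * M < c) {ψ : ℝ → ℝ} (hψI : ∀ s, ψ s ∈ Icc (0 : ℝ) 1)
    (hψ0 : ∀ s, η ^ 2 ≤ s → ψ s = 0) {b : E n → ℝ}
    (hb1 : ∀ x ∈ ball x0 r, b x = ψ (‖Pa a (v x) - y0‖ ^ 2) * W ⟪e, x - x0⟫)
    (hb0 : ∀ x, x ∉ closedBall x0 (r / 2) → b x = 0) :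
    InjOn (fun x => v x + (ς * σ * b x) • a) Ω := by
  have ht1 := h.ht1
  have ht2 := h.ht2
  have hη := h.hη
  have hςς : ς * ς = 1 := by rcases hς1 with rfl | rfl <;> norm_num
  have hI : t1 - η ≤ t2 + η := by linarith
  -- outside the box the perturbation vanishes
  have hout : ∀ x, ¬ (x ∈ ball x0 r ∧ ‖Pa a (v x) - y0‖ ≤ η ∧
      ⟪e, x - x0⟫ ∈ Icc (t1 - η) (t2 + η)) → b x = 0 := by
    intro x hx
    by_cases hxb : x ∈ ball x0 r
    · rw [hb1 x hxb]
      by_cases h1 : ‖Pa a (v x) - y0‖ ≤ η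
      · have h2 : ⟪e, x - x0⟫ ∉ Ioo (t1 - η) (t2 + η) := fun h3 =>
          hx ⟨hxb, h1, Ioo_subset_Icc_self h3⟩
        rw [(hW0 _ h2).1, mul_zero]
      · push Not at h1
        rw [hψ0 _ (by gcongr), zero_mul]
    · refine hb0 x fun h1 => hxb (closedBall_subset_ball (by linarith [h.hr]) h1)
  -- the values in the box
  have hval : ∀ x ∈ ball x0 r, v x + (ς * σ * b x) • a = Pa a (v x) +
      (fib v a e x0 r (Pa a (v x)) ⟪e, x - x0⟫ +
        ς * σ * (ψ (‖Pa a (v x) - y0‖ ^ 2) * W ⟪e, x - x0⟫)) • a := by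
    intro x hx
    have h1 := Pa_add_inner a (v x)
    have h2 : fib v a e x0 r (Pa a (v x)) ⟪e, x - x0⟫ = ⟪a, v x⟫ := by
      unfold fib; rw [h.eq_X hx]
    rw [h2, hb1 x hx, add_smul, ← add_assoc, h1]
  have hPa : ∀ x, Pa a (v x + (ς * σ * b x) • a) = Pa a (v x) := by
    intro x; rw [map_add, map_smul, Pa_self h.ha, smul_zero, add_zero]
  have hin : ∀ z : E n, ∀ α : ℝ, Pa a z = z → ⟪a, z + α • a⟫ = α := by
    intro z α hz
    rw [inner_add_right, inner_smul_right, real_inner_self_eq_norm_sq, h.ha, ← hz, inner_Pa h.ha]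
    simp
  -- mixed case
  have hmix : ∀ x y, y ∈ Ω → (x ∈ ball x0 r ∧ ‖Pa a (v x) - y0‖ ≤ η ∧
      ⟪e, x - x0⟫ ∈ Icc (t1 - η) (t2 + η)) → b y = 0 →
      v x + (ς * σ * b x) • a = v y → y ∈ ball x0 r ∧ ‖Pa a (v y) - y0‖ ≤ η ∧
      ⟪e, y - x0⟫ ∈ Icc (t1 - η) (t2 + η) := by
    rintro x y hyΩ ⟨hx1, hx2, hx3⟩ hby hxy
    set z := Pa a (v x) with hz
    have hzz : Pa a z = z := Pa_Pa h.ha _
    set p := ψ (‖z - y0‖ ^ 2) with hp
    have hmono := h.fib_pert hς1 hς hW hM hW1 hσ hσM hzz hx2 (hψI (‖z - y0‖ ^ 2))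
    rw [← hp] at hmono
    have hW0' : ∀ t, t ∉ Ioo (t1 - η) (t2 + η) → W t = 0 := fun t ht => (hW0 t ht).1
    have hL : t1 - η ∈ Icc (t1 - η) (t2 + η) := ⟨le_rfl, hI⟩
    have hR : t2 + η ∈ Icc (t1 - η) (t2 + η) := ⟨hI, le_rfl⟩
    have e1 := hmono.monotoneOn hL hx3 hx3.1
    have e2 := hmono.monotoneOn hx3 hR hx3.2
    rw [hW0' (t1 - η) (fun h => lt_irrefl _ h.1)] at e1
    rw [hW0' (t2 + η) (fun h => lt_irrefl _ h.2)] at e2
    have hc : ContinuousOn (fun t => ς * fib v a e x0 r z t) (Icc (t1 - η) (t2 + η)) :=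
      continuousOn_const.mul (h.fib_cont' hzz hx2)
    obtain ⟨t', ht', htt⟩ := intermediate_value_Icc hI hc
      (⟨by linarith, by linarith⟩ : ς * fib v a e x0 r z ⟪e, x - x0⟫ + σ * (p * W ⟪e, x - x0⟫) ∈
        Icc (ς * fib v a e x0 r z (t1 - η)) (ς * fib v a e x0 r z (t2 + η)))
    have h3 : fib v a e x0 r z t' = fib v a e x0 r z ⟪e, x - x0⟫ +
        ς * σ * (p * W ⟪e, x - x0⟫) := by
      have := congrArg (fun s => ς * s) htt
      calc fib v a e x0 r z t' = (ς * ς) * fib v a e x0 r z t' := by rw [hςς, one_mul]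
        _ = ς * (ς * fib v a e x0 r z t') := by ring
        _ = (ς * ς) * fib v a e x0 r z ⟪e, x - x0⟫ + ς * σ * (p * W ⟪e, x - x0⟫) := by
            rw [this]; ring
        _ = _ := by rw [hςς, one_mul]
    have h4 : v (Xinv a e x0 v r (z + t' • a)) = v y := by
      rw [h.v_X hzz hx2 ht', h3, ← hxy, hval x hx1]
    have h5 := h.inj (h.hB (h.X_mem_ball hzz hx2 ht')) hyΩ h4
    rw [← h5]
    refine ⟨h.X_mem_ball hzz hx2 ht', ?_, ?_⟩
    · rw [h.Pa_vX hzz hx2 ht']; exact hx2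
    · rw [h.t_X hzz hx2 ht']; exact ht'
  intro x hx y hy hxy
  simp only at hxy
  by_cases hxB : x ∈ ball x0 r ∧ ‖Pa a (v x) - y0‖ ≤ η ∧ ⟪e, x - x0⟫ ∈ Icc (t1 - η) (t2 + η)
  · by_cases hyB : y ∈ ball x0 r ∧ ‖Pa a (v y) - y0‖ ≤ η ∧ ⟪e, y - x0⟫ ∈ Icc (t1 - η) (t2 + η)
    · obtain ⟨hx1, hx2, hx3⟩ := hxB
      obtain ⟨hy1, hy2, hy3⟩ := hyB
      have h1 : Pa a (v x) = Pa a (v y) := by
        have := congrArg (Pa a) hxy
        rwa [hPa, hPa] at this
      have hzz : Pa a (Pa a (v x)) = Pa a (v x) := Pa_Pa h.ha _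
      rw [hval x hx1, hval y hy1, ← h1] at hxy
      have h2 := congrArg (fun y => ⟪a, y⟫) hxy
      rw [hin _ _ hzz, hin _ _ hzz] at h2
      have hmono := h.fib_pert hς1 hς hW hM hW1 hσ hσM hzz hx2
        (hψI (‖Pa a (v x) - y0‖ ^ 2))
      have h3 : ⟪e, x - x0⟫ = ⟪e, y - x0⟫ := by
        refine hmono.injOn hx3 hy3 ?_
        have h4 := congrArg (fun s => ς * s) h2
        have e1 : ∀ α β : ℝ, ς * (α + ς * σ * β) = ς * α + σ * β := by
          intro α β
          calc ς * (α + ς * σ * β) = ς * α + (ς * ς) * σ * β := by ring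
            _ = _ := by rw [hςς]; ring
        rwa [e1, e1] at h4
      rw [← h.eq_X hx1, ← h.eq_X hy1, h1, h3]
    · exfalso
      have hby := hout y hyB
      apply hyB
      apply hmix x y hy hxB hby
      rw [hxy, hby]; simp
  · by_cases hyB : y ∈ ball x0 r ∧ ‖Pa a (v y) - y0‖ ≤ η ∧ ⟪e, y - x0⟫ ∈ Icc (t1 - η) (t2 + η)
    · exfalso
      have hbx := hout x hxB
      apply hxB
      apply hmix y x hx hyB hbx
      rw [← hxy, hbx]; simp
    · rw [hout x hxB, hout y hyB] at hxy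
      simp only [mul_zero, zero_smul, add_zero] at hxy
      exact h.inj hx hy hxy

/-- The derivative of the perturbed map in the box. -/
lemma Box.fderiv_pert (h : Box Ω v a e x0 y0 r t1 t2 η c) (hΩ : IsOpen Ω) {ς σ : ℝ}
    {W ψ : ℝ → ℝ} (hW : ContDiff ℝ ∞ W) (hψ : ContDiff ℝ ∞ ψ) {b : E n → ℝ}
    (hb1 : ∀ x ∈ ball x0 r, b x = ψ (‖Pa a (v x) - y0‖ ^ 2) * W ⟪e, x - x0⟫)
    {x : E n} (hx : x ∈ ball x0 r) : ∃ b' : E n →L[ℝ] ℝ,
      (∀ w, fderiv ℝ (fun x => v x + (ς * σ * b x) • a) x w =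
        fderiv ℝ v x w + (ς * σ * b' w) • a) ∧
      ∀ w, Pa a (fderiv ℝ v x w) = 0 →
        b' w = ψ (‖Pa a (v x) - y0‖ ^ 2) * deriv W ⟪e, x - x0⟫ * ⟪e, w⟫ := by
  have hd := h.diff hΩ (h.hB hx)
  have g1 : HasFDerivAt (fun y => Pa a (v y) - y0) ((Pa a).comp (fderiv ℝ v x)) x :=
    ((Pa a).hasFDerivAt.comp x hd.hasFDerivAt).sub_const y0
  have g2 := g1.norm_sq
  have g3 := ((hψ.differentiable (by simp) (‖Pa a (v x) - y0‖ ^ 2)).hasDerivAt).comp_hasFDerivAt
    x g2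
  have g4 : HasFDerivAt (fun y : E n => ⟪e, y - x0⟫) (innerSL ℝ e) x := by
    have h2 := (innerSL ℝ e).hasFDerivAt.comp x ((hasFDerivAt_id x).sub_const x0)
    rw [ContinuousLinearMap.comp_id] at h2
    exact h2
  have g5 := ((hW.differentiable (by simp) ⟪e, x - x0⟫).hasDerivAt).comp_hasFDerivAt x g4
  have g6 := g3.mul g5
  have g7 : b =ᶠ[𝓝 x] ((ψ ∘ fun y => ‖Pa a (v y) - y0‖ ^ 2) * (W ∘ fun y => ⟪e, y - x0⟫)) := by
    filter_upwards [isOpen_ball.mem_nhds hx] with y hy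
    rw [hb1 y hy]; rfl
  have g8 := g6.congr_of_eventuallyEq g7
  refine ⟨fderiv ℝ b x, fun w => ?_, fun w hw => ?_⟩
  · have g9 := hd.hasFDerivAt.add ((g8.differentiableAt.hasFDerivAt.const_mul (ς * σ)).smul_const a)
    have g10 : fderiv ℝ (fun x => v x + (ς * σ * b x) • a) x = _ := g9.fderiv
    rw [g10]
    simp only [add_apply, ContinuousLinearMap.smulRight_apply, smul_apply, smul_eq_mul]
  · rw [g8.fderiv]
    simp only [Function.comp_apply, add_apply, smul_apply, smul_eq_mul, innerSL_apply_apply,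
      ContinuousLinearMap.comp_apply, hw, inner_zero_right]
    ring_nf

/-- The derivative of the perturbed map: kernels and immersion points. -/
theorem Box.der_pert (h : Box Ω v a e x0 y0 r t1 t2 η c) (hΩ : IsOpen Ω) {ς : ℝ} (hς1 : ς = 1 ∨ ς = -1)
    (hς : ∀ z, Pa a z = z → ‖z - y0‖ ≤ η →
      StrictMonoOn (fun t => ς * fib v a e x0 r z t) (Icc (t1 - η) (t2 + η)))
    {W : ℝ → ℝ} {M : ℝ} (hW : ContDiff ℝ ∞ W) (hM : ∀ t, |deriv W t| ≤ M)
    (hW1 : ∀ t ∈ Icc t1 t2, W t = t ∧ deriv W t = 1)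
    (hW0 : ∀ t, t ∉ Ioo (t1 - η) (t2 + η) → W t = 0 ∧ deriv W t = 0)
    {σ : ℝ} (hσ : 0 < σ) (hσM : σ * M < c) {ψ : ℝ → ℝ} (hψ : ContDiff ℝ ∞ ψ)
    (hψI : ∀ s, ψ s ∈ Icc (0 : ℝ) 1) (hψ1 : ∀ s, s ≤ (η / 2) ^ 2 → ψ s = 1)
    (hψ0 : ∀ s, η ^ 2 ≤ s → ψ s = 0) {b : E n → ℝ}
    (hb1 : ∀ x ∈ ball x0 r, b x = ψ (‖Pa a (v x) - y0‖ ^ 2) * W ⟪e, x - x0⟫)
    (hb0 : ∀ x, x ∉ closedBall x0 (r / 2) → b x = 0) :
    (∀ x ∈ Ω, Loc1 v x → Loc1 (fun x => v x + (ς * σ * b x) • a) x) ∧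
    (∀ x ∈ Ω, Good1 v x → Good1 (fun x => v x + (ς * σ * b x) • a) x) ∧
    ∀ x ∈ ball x0 r, ‖Pa a (v x) - y0‖ ≤ η / 2 → ⟪e, x - x0⟫ ∈ Icc t1 t2 →
      Good1 (fun x => v x + (ς * σ * b x) • a) x := by
  have ht1 := h.ht1
  have ht2 := h.ht2
  have hη := h.hη
  have hςς : ς * ς = 1 := by rcases hς1 with rfl | rfl <;> norm_num
  have hςabs : |ς| = 1 := by rcases hς1 with rfl | rfl <;> norm_num
  have hane : a ≠ 0 := by
    intro h0; have := h.ha; rw [h0, norm_zero] at this; exact zero_ne_one this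
  have hout : ∀ x, x ∉ closedBall x0 (r / 2) →
      fderiv ℝ (fun x => v x + (ς * σ * b x) • a) x = fderiv ℝ v x := by
    intro x hx
    apply Filter.EventuallyEq.fderiv_eq
    filter_upwards [isClosed_closedBall.isOpen_compl.mem_nhds hx] with y hy
    rw [hb0 y hy]; simp
  have hsub : closedBall x0 (r / 2) ⊆ ball x0 r :=
    closedBall_subset_ball (by linarith [h.hr])
  -- kernels in the ball
  have hker : ∀ x ∈ ball x0 r, ∀ w, fderiv ℝ (fun x => v x + (ς * σ * b x) • a) x w = 0 →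
      Pa a (fderiv ℝ v x w) = 0 := by
    intro x hx w hw
    obtain ⟨b', hb', -⟩ := h.fderiv_pert hΩ (ς := ς) (σ := σ) hW hψ hb1 hx
    rw [hb' w] at hw
    have := congrArg (Pa a) hw
    rwa [map_add, map_smul, Pa_self h.ha, smul_zero, add_zero, map_zero] at this
  refine ⟨?_, ?_, ?_⟩
  · intro x hx hloc
    by_cases hxb : x ∈ closedBall x0 (r / 2)
    · obtain ⟨B, w0, hB, hw0, h1, h2, h3⟩ := h.exists_w0 hΩ (hsub hxb)
      exact ⟨w0, fun w hw => ⟨⟪e, w⟫, h3 w (hker x (hsub hxb) w hw)⟩⟩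
    · obtain ⟨w0, hw0⟩ := hloc
      refine ⟨w0, fun w hw => hw0 w ?_⟩
      rwa [hout x hxb] at hw
  · intro x hx hg
    by_cases hxb : x ∈ closedBall x0 (r / 2)
    · obtain ⟨B, w0, hB, hw0, h1, h2, h3⟩ := h.exists_w0 hΩ (hsub hxb)
      obtain ⟨b', hb', hb''⟩ := h.fderiv_pert hΩ (ς := ς) (σ := σ) hW hψ hb1 (hsub hxb)
      have hw0ne : w0 ≠ 0 := by
        intro h0; rw [h0, inner_zero_right] at h1; exact zero_ne_one h1
      have hPw0 : Pa a (fderiv ℝ v x w0) = 0 := by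
        rw [h2, map_smul, Pa_self h.ha, smul_zero]
      have hk0 : ⟪a, fderiv ℝ v x w0⟫ ≠ 0 := by
        intro h0
        rw [h0, zero_smul] at h2
        exact hw0ne ((injective_iff_map_eq_zero _).1 hg _ h2)
      refine (injective_iff_map_eq_zero _).2 fun w hw => ?_
      have hw1 := h3 w (hker x (hsub hxb) w hw)
      by_contra hwne
      have hew : ⟪e, w⟫ ≠ 0 := by
        intro h0; rw [h0, zero_smul] at hw1; exact hwne hw1
      have h4 : fderiv ℝ (fun x => v x + (ς * σ * b x) • a) x w0 = 0 := by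
        rw [hw1, map_smul] at hw
        exact (smul_eq_zero.1 hw).resolve_left hew
      rw [hb' w0, hb'' w0 hPw0, h1, mul_one, h2, ← add_smul] at h4
      have h5 := (smul_eq_zero.1 h4).resolve_right hane
      -- the three cases
      by_cases hbox : ‖Pa a (v x) - y0‖ < η ∧ ⟪e, x - x0⟫ ∈ Ioo (t1 - η) (t2 + η)
      · have hs := h.sign_deriv hΩ hς (hsub hxb) hbox.1.le hbox.2 hB
        rw [← hw0] at hs
        have h6 : ς * ⟪a, fderiv ℝ v x w0⟫ +
            σ * (ψ (‖Pa a (v x) - y0‖ ^ 2) * deriv W ⟪e, x - x0⟫) = 0 := by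
          have := congrArg (fun s => ς * s) h5
          simp only [mul_zero] at this
          calc _ = ς * ⟪a, fderiv ℝ v x w0⟫ +
              (ς * ς) * σ * (ψ (‖Pa a (v x) - y0‖ ^ 2) * deriv W ⟪e, x - x0⟫) := by
                rw [hςς, one_mul]
            _ = _ := by rw [← this]; ring
        have hψx := hψI (‖Pa a (v x) - y0‖ ^ 2)
        by_cases hcore : ⟪e, x - x0⟫ ∈ Icc t1 t2
        · rw [(hW1 _ hcore).2, mul_one] at h6
          have h7 : 0 ≤ σ * ψ (‖Pa a (v x) - y0‖ ^ 2) := mul_nonneg hσ.le hψx.1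
          have h8 : ς * ⟪a, fderiv ℝ v x w0⟫ = 0 := by linarith
          rcases mul_eq_zero.1 h8 with h9 | h9
          · rw [h9] at hςς; norm_num at hςς
          · exact hk0 h9
        · have hz : ⟪e, x - x0⟫ ∈ Icc (t1 - η) t1 ∨ ⟪e, x - x0⟫ ∈ Icc t2 (t2 + η) := by
            simp only [mem_Icc, not_and_or, not_le] at hcore
            rcases hcore with h | h
            · left; exact ⟨hbox.2.1.le, h.le⟩
            · right; exact ⟨h.le, hbox.2.2.le⟩
          have h7 := h.zone' x (hsub hxb) hbox.1.le hz w0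
          have h8 : ‖fderiv ℝ v x w0‖ = |⟪a, fderiv ℝ v x w0⟫| := by
            conv_lhs => rw [h2]
            rw [norm_smul, h.ha, mul_one, Real.norm_eq_abs]
          have h9 : (1 : ℝ) ≤ ‖w0‖ := by
            have := real_inner_le_norm e w0
            rw [h1, h.he, one_mul] at this
            exact this
          have h10 : c ≤ |⟪a, fderiv ℝ v x w0⟫| := by
            rw [← h8]
            calc c = c * 1 := (mul_one c).symm
              _ ≤ c * ‖w0‖ := by gcongr; exact h.hc.le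
              _ ≤ _ := h7
          have h11 : |⟪a, fderiv ℝ v x w0⟫| = ς * ⟪a, fderiv ℝ v x w0⟫ := by
            rw [← abs_of_nonneg hs, abs_mul, hςabs, one_mul]
          have h12 : |ψ (‖Pa a (v x) - y0‖ ^ 2) * deriv W ⟪e, x - x0⟫| ≤ M := by
            rw [abs_mul, abs_of_nonneg hψx.1]
            calc _ ≤ 1 * M := mul_le_mul hψx.2 (hM _) (abs_nonneg _) zero_le_one
              _ = M := one_mul M
          have h13 := (abs_le.1 h12).1
          have h14 : -(σ * M) ≤ σ * (ψ (‖Pa a (v x) - y0‖ ^ 2) * deriv W ⟪e, x - x0⟫) := by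
            have := mul_le_mul_of_nonneg_left h13 hσ.le
            linarith
          linarith
      · have h6 : ψ (‖Pa a (v x) - y0‖ ^ 2) * deriv W ⟪e, x - x0⟫ = 0 := by
          by_cases h7 : ‖Pa a (v x) - y0‖ < η
          · have h8 : ⟪e, x - x0⟫ ∉ Ioo (t1 - η) (t2 + η) := fun h9 => hbox ⟨h7, h9⟩
            rw [(hW0 _ h8).2, mul_zero]
          · push Not at h7
            rw [hψ0 _ (by gcongr), zero_mul]
        rw [h6, mul_zero, add_zero] at h5
        exact hk0 h5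
    · unfold Good1 at hg ⊢
      rwa [hout x hxb]
  · intro x hxb h10 h11
    obtain ⟨B, w0, hB, hw0, h1, h2, h3⟩ := h.exists_w0 hΩ hxb
    obtain ⟨b', hb', hb''⟩ := h.fderiv_pert hΩ (ς := ς) (σ := σ) hW hψ hb1 hxb
    have hPw0 : Pa a (fderiv ℝ v x w0) = 0 := by
      rw [h2, map_smul, Pa_self h.ha, smul_zero]
    refine (injective_iff_map_eq_zero _).2 fun w hw => ?_
    have hw1 := h3 w (hker x hxb w hw)
    by_contra hwne
    have hew : ⟪e, w⟫ ≠ 0 := by
      intro h0; rw [h0, zero_smul] at hw1; exact hwne hw1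
    have h4 : fderiv ℝ (fun x => v x + (ς * σ * b x) • a) x w0 = 0 := by
      rw [hw1, map_smul] at hw
      exact (smul_eq_zero.1 hw).resolve_left hew
    rw [hb' w0, hb'' w0 hPw0, h1, mul_one, h2, ← add_smul] at h4
    have h5 := (smul_eq_zero.1 h4).resolve_right hane
    have hs := h.sign_deriv hΩ hς hxb (by linarith) (⟨by linarith [h11.1], by linarith [h11.2]⟩ :
      ⟪e, x - x0⟫ ∈ Ioo (t1 - η) (t2 + η)) hB
    rw [← hw0] at hs
    rw [(hW1 _ h11).2, hψ1 _ (by gcongr), mul_one, mul_one] at h5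
    have h6 : ς * ⟪a, fderiv ℝ v x w0⟫ + σ = 0 := by
      have := congrArg (fun s => ς * s) h5
      simp only [mul_zero] at this
      calc _ = ς * ⟪a, fderiv ℝ v x w0⟫ + (ς * ς) * σ := by rw [hςς, one_mul]
        _ = _ := by rw [← this]; ring
    linarith

end box

end Run7.h7
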