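import Mathlib
import Pool.Agent.Run7.h7.Defs
import Pool.Agent.Run7.h7.Basic
import Pool.Agent.Run7.h7.Global
import Pool.Agent.Run7.h7.Perturb
import Pool.Agent.Run7.h7.Fibre
import Pool.Agent.Run7.h7.FibrePert

/-!
Improvement of a map of class `C^1` with derivatives of corank at most one: choice of the box.
-/

open MeasureTheory Filter Set Metric
open scoped Topology ContDiff RealInnerProductSpace NNReal

namespace Run7.h7

variable {n : ℕ}

lemma surj_ball {G : E n → E n} {L : E n →L[ℝ] E n} {m r : ℝ} (hm : 0 < m)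
    (hL : ∀ w, m * ‖w‖ ≤ ‖L w‖) {x0 : E n} (hr : 0 ≤ r)
    (hG : ∀ x ∈ closedBall x0 r, ∀ y ∈ closedBall x0 r,
      ‖G x - G y - L (x - y)‖ ≤ (m / 4) * ‖x - y‖) :
    ∀ y, ‖y - G x0‖ ≤ 3 * m / 4 * r → ∃ x ∈ closedBall x0 r, G x = y := by
  intro y hy
  have hinj : Function.Injective L := by
    refine (injective_iff_map_eq_zero _).2 fun w hw => ?_
    have := hL w
    rw [hw, norm_zero] at this
    have h1 : ‖w‖ ≤ 0 := by
      by_contra hcon
      push Not at hcon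
      nlinarith
    exact norm_le_zero_iff.1 h1
  obtain ⟨B, hB⟩ := exists_equiv_of_injective hinj
  have hBL : ∀ w, B w = L w := fun w => by rw [← hB]; rfl
  have hap : ApproximatesLinearOn G L (closedBall x0 r) (Real.toNNReal (m / 4)) := by
    intro x hx y hy
    rw [Real.coe_toNNReal _ (by positivity)]
    exact hG x hx y hy
  let N : L.NonlinearRightInverse :=
    { toFun := B.symm
      nnnorm := Real.toNNReal m⁻¹
      bound' := by
        intro y
        rw [Real.coe_toNNReal _ (by positivity)]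
        have := hL (B.symm y)
        rw [← hBL, B.apply_symm_apply] at this
        rw [inv_mul_eq_div, le_div_iff₀ hm]
        linarith
      right_inv' := by
        intro y
        rw [← hBL, B.apply_symm_apply] }
  have h1 := hap.surjOn_closedBall_of_nonlinearRightInverse N hr Subset.rfl
  have h2 : ((N.nnnorm : ℝ)⁻¹ - (Real.toNNReal (m / 4) : ℝ)) * r = 3 * m / 4 * r := by
    have e1 : (N.nnnorm : ℝ) = m⁻¹ := Real.coe_toNNReal _ (by positivity)
    rw [e1, Real.coe_toNNReal _ (by positivity), inv_inv]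
    ring
  rw [h2] at h1
  obtain ⟨x, hx, hx'⟩ := h1 (mem_closedBall_iff_norm.2 hy)
  exact ⟨x, hx, hx'⟩

/-- Mean value inequality. -/
lemma mvt_ball {G : E n → E n} {L : E n →L[ℝ] E n} {C : ℝ} {s : Set (E n)} (hs : Convex ℝ s)
    (hd : ∀ x ∈ s, DifferentiableAt ℝ G x) (hb : ∀ x ∈ s, ‖fderiv ℝ G x - L‖ ≤ C) :
    ∀ x ∈ s, ∀ y ∈ s, ‖G x - G y - L (x - y)‖ ≤ C * ‖x - y‖ := fun _ hx _ hy =>
  hs.norm_image_sub_le_of_norm_fderiv_le' hd hb hy hx

lemma lower_of_close {A L : E n →L[ℝ] E n} {m C : ℝ} (hL : ∀ w, m * ‖w‖ ≤ ‖L w‖)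
    (hA : ‖A - L‖ ≤ C) : ∀ w, (m - C) * ‖w‖ ≤ ‖A w‖ := by
  intro w
  have h1 : ‖(A - L) w‖ ≤ C * ‖w‖ := (A - L).le_of_opNorm_le hA w
  have h2 : ‖L w‖ ≤ ‖A w‖ + ‖(A - L) w‖ := by
    have : L w = A w - (A - L) w := by simp
    rw [this]
    exact norm_sub_le _ _
  have := hL w
  linarith

lemma lower_of_mvt {G : E n → E n} {L : E n →L[ℝ] E n} {m C : ℝ} {x y : E n}
    (hL : ∀ w, m * ‖w‖ ≤ ‖L w‖) (h : ‖G x - G y - L (x - y)‖ ≤ C * ‖x - y‖) :
    (m - C) * ‖x - y‖ ≤ ‖G x - G y‖ := by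
  have h2 : ‖L (x - y)‖ ≤ ‖G x - G y‖ + ‖G x - G y - L (x - y)‖ := by
    have : L (x - y) = (G x - G y) - (G x - G y - L (x - y)) := by abel
    conv_lhs => rw [this]
    exact norm_sub_le _ _
  have := hL (x - y)
  linarith

lemma injective_of_lower {A : E n →L[ℝ] E n} {m : ℝ} (hm : 0 < m)
    (hL : ∀ w, m * ‖w‖ ≤ ‖A w‖) : Function.Injective A := by
  refine (injective_iff_map_eq_zero _).2 fun w hw => ?_
  have := hL w
  rw [hw, norm_zero] at this
  have h1 : ‖w‖ ≤ 0 := by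
    by_contra hcon
    push Not at hcon
    nlinarith
  exact norm_le_zero_iff.1 h1

lemma exists_lower {A : E n →L[ℝ] E n} (hA : Function.Injective A) :
    ∃ m : ℝ, 0 < m ∧ ∀ w, m * ‖w‖ ≤ ‖A w‖ := by
  obtain ⟨c, hc, h⟩ := exists_lower_bound_compact (S := {(0 : E n)}) isCompact_singleton
    (A := fun _ => A) continuousOn_const (fun _ _ => hA)
  exact ⟨c, hc, h 0 rfl⟩

/-- adapted unit vectors for a linear map with one-dimensional kernel -/
lemma exists_unit {A : E n →L[ℝ] E n} (hA : ¬ Function.Injective A)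
    (hker : ∃ w0 : E n, ∀ w, A w = 0 → ∃ t : ℝ, w = t • w0) :
    ∃ a e : E n, ‖a‖ = 1 ∧ ‖e‖ = 1 ∧ (∀ w, ⟪a, A w⟫ = 0) ∧ A e = 0 ∧
      ∀ w, A w = 0 → w = ⟪e, w⟫ • e := by
  obtain ⟨w1, hw1, hw1ne⟩ : ∃ w1, A w1 = 0 ∧ w1 ≠ 0 := by
    by_contra hcon
    push Not at hcon
    exact hA ((injective_iff_map_eq_zero _).2 hcon)
  have hn1 : ‖w1‖ ≠ 0 := norm_ne_zero_iff.2 hw1ne
  set e := ‖w1‖⁻¹ • w1 with he
  have he1 : ‖e‖ = 1 := by rw [he, norm_smul, norm_inv, norm_norm, inv_mul_cancel₀ hn1]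
  have hAe : A e = 0 := by rw [he, map_smul, hw1, smul_zero]
  obtain ⟨w0, hw0⟩ := hker
  have hkere : ∀ w, A w = 0 → w = ⟪e, w⟫ • e := by
    obtain ⟨s, hs⟩ := hw0 e hAe
    have hs0 : s ≠ 0 := by
      intro h0; rw [h0, zero_smul] at hs; rw [hs, norm_zero] at he1; exact zero_ne_one he1
    intro w hw
    obtain ⟨t, ht⟩ := hw0 w hw
    have h1 : w0 = s⁻¹ • e := by rw [hs, smul_smul, inv_mul_cancel₀ hs0, one_smul]
    rw [h1, smul_smul] at ht
    rw [ht, inner_smul_right, real_inner_self_eq_norm_sq, he1]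
    simp
  have hns : ¬ Function.Surjective A := by
    intro h
    exact hA ((LinearMap.injective_iff_surjective (f := (A : E n →ₗ[ℝ] E n))).2 h)
  have hrange : (LinearMap.range (A : E n →ₗ[ℝ] E n)) ≠ ⊤ := by
    intro h
    exact hns (LinearMap.range_eq_top.1 h)
  have horth : (LinearMap.range (A : E n →ₗ[ℝ] E n))ᗮ ≠ ⊥ := by
    intro h
    exact hrange ((Submodule.orthogonal_eq_bot_iff).1 h)
  obtain ⟨a1, ha1, ha1ne⟩ := Submodule.exists_mem_ne_zero_of_ne_bot horth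
  have hn2 : ‖a1‖ ≠ 0 := norm_ne_zero_iff.2 ha1ne
  refine ⟨‖a1‖⁻¹ • a1, e, ?_, he1, ?_, hAe, hkere⟩
  · rw [norm_smul, norm_inv, norm_norm, inv_mul_cancel₀ hn2]
  · intro w
    rw [inner_smul_left]
    have : ⟪A w, a1⟫ = 0 := (Submodule.mem_orthogonal _ _).1 ha1 (A w) ⟨w, rfl⟩
    rw [real_inner_comm] at this
    rw [this, mul_zero]

/-- On a fibre there are points with injective derivative. -/
lemma exists_regular_on_fibre {Ω : Set (E n)} (hΩ : IsOpen Ω) {u : E n → E n} {a e x0 y0 : E n}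
    {r : ℝ} (ha : ‖a‖ = 1) (hB : ball x0 r ⊆ Ω) (c1 : ContDiffOn ℝ 1 u Ω) (inj : InjOn u Ω)
    (pinj : InjOn (Psi a e x0 u) (ball x0 r))
    (pder : ∀ x ∈ ball x0 r, Function.Injective (fderiv ℝ (Psi a e x0 u) x))
    {α β : ℝ} (hαβ : α < β)
    (hX : ∀ t ∈ Ioo α β, ∃ x ∈ ball x0 r, Psi a e x0 u x = y0 + t • a) :
    ∃ t ∈ Ioo α β, ∃ x ∈ ball x0 r, Psi a e x0 u x = y0 + t • a ∧
      Function.Injective (fderiv ℝ u x) := by
  by_contra hcon
  push Not at hcon
  have hane : a ≠ 0 := by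
    intro h0; rw [h0, norm_zero] at ha; exact zero_ne_one ha
  have hXx : ∀ x ∈ ball x0 r, Xinv a e x0 u r (Psi a e x0 u x) = x := fun x hx =>
    pinj.leftInvOn_invFunOn hx
  have hXt : ∀ t ∈ Ioo α β, Xinv a e x0 u r (y0 + t • a) ∈ ball x0 r ∧
      Psi a e x0 u (Xinv a e x0 u r (y0 + t • a)) = y0 + t • a := by
    intro t ht
    obtain ⟨x, hx, hx'⟩ := hX t ht
    rw [← hx', hXx x hx]
    exact ⟨hx, rfl⟩
  have hder : ∀ t ∈ Ioo α β,
      HasDerivAt (fun s : ℝ => u (Xinv a e x0 u r (y0 + s • a))) 0 t := by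
    intro t ht
    obtain ⟨hx, hx'⟩ := hXt t ht
    set x := Xinv a e x0 u r (y0 + t • a) with hxdef
    have hni := hcon t ht x hx hx'
    obtain ⟨B, hBB⟩ := exists_equiv_of_injective (pder x hx)
    have hd : DifferentiableAt ℝ u x :=
      (c1.contDiffAt (hΩ.mem_nhds (hB hx))).differentiableAt (by simp)
    have hst : HasStrictFDerivAt (Psi a e x0 u) (B : E n →L[ℝ] E n) x := by
      rw [hBB]
      have : ContDiffAt ℝ 1 (Psi a e x0 u) x := by
        have h1 : ContDiffAt ℝ 1 u x := c1.contDiffAt (hΩ.mem_nhds (hB hx))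
        have h2 : ContDiff ℝ 1 (fun y : E n => ⟪e, y - x0⟫ • a) :=
          ((innerSL ℝ e).contDiff.comp (contDiff_id.sub contDiff_const)).smul contDiff_const
        exact ((Pa a).contDiff.contDiffAt.comp x h1).add h2.contDiffAt
      exact this.hasStrictFDerivAt (by simp)
    have h1 : HasFDerivAt (Xinv a e x0 u r) (B.symm : E n →L[ℝ] E n) (y0 + t • a) := by
      rw [← hx']
      exact hasFDerivAt_invFunOn isOpen_ball pinj hx hst
    have h2 : HasDerivAt (fun s : ℝ => y0 + s • a) a t := by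
      have := ((hasDerivAt_id t).smul_const a).const_add y0
      simpa using this
    have h3 : HasDerivAt (fun s : ℝ => Xinv a e x0 u r (y0 + s • a)) (B.symm a) t := by
      have h3' := h1.comp_hasDerivAt t h2
      exact h3'
    have h4 : HasDerivAt (fun s : ℝ => u (Xinv a e x0 u r (y0 + s • a)))
        (fderiv ℝ u x (B.symm a)) t := HasFDerivAt.comp_hasDerivAt t hd.hasFDerivAt h3
    -- the fibre direction is in the kernel
    obtain ⟨w, hw, hwne⟩ : ∃ w, fderiv ℝ u x w = 0 ∧ w ≠ 0 := by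
      by_contra hc2
      push Not at hc2
      exact hni ((injective_iff_map_eq_zero _).2 hc2)
    have h5 : B w = ⟪e, w⟫ • a := by
      have h6 : B w = fderiv ℝ (Psi a e x0 u) x w := by rw [← hBB]; rfl
      rw [h6, fderiv_Psi_apply hd, hw, map_zero, zero_add]
    have h7 : w = ⟪e, w⟫ • B.symm a := by
      rw [← map_smul, ← h5, B.symm_apply_apply]
    have hew : ⟪e, w⟫ ≠ 0 := by
      intro h0; rw [h0, zero_smul] at h7; exact hwne h7
    have h8 : fderiv ℝ u x (B.symm a) = 0 := by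
      rw [h7, map_smul] at hw
      exact (smul_eq_zero.1 hw).resolve_left hew
    rwa [h8] at h4
  obtain ⟨s, hs⟩ : ∃ s, s ∈ Ioo α β := ⟨(α + β) / 2, by constructor <;> linarith⟩
  obtain ⟨t, ht, hts⟩ : ∃ t ∈ Ioo α β, t ≠ s := by
    refine ⟨(s + β) / 2, ⟨by linarith [hs.1, hs.2], by linarith [hs.2]⟩, ?_⟩
    intro h; linarith [hs.2]
  have hconst : u (Xinv a e x0 u r (y0 + t • a)) = u (Xinv a e x0 u r (y0 + s • a)) := by
    refine isOpen_Ioo.is_const_of_deriv_eq_zero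
      (f := fun s : ℝ => u (Xinv a e x0 u r (y0 + s • a))) isPreconnected_Ioo ?_ ?_ ht hs
    · intro τ hτ
      exact (hder τ hτ).differentiableAt.differentiableWithinAt
    · intro τ hτ
      exact (hder τ hτ).deriv
  have hXeq := inj (hB (hXt t ht).1) (hB (hXt s hs).1) hconst
  have h9 : y0 + t • a = y0 + s • a := by rw [← (hXt t ht).2, hXeq, (hXt s hs).2]
  have h10 : (t - s) • a = 0 := by
    have := add_left_cancel h9
    rw [sub_smul, this, sub_self]
  rcases smul_eq_zero.1 h10 with h | h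
  · exact hts (sub_eq_zero.1 h)
  · exact hane h

lemma fderiv_Psi_sub_le {a e x0 : E n} (ha : ‖a‖ = 1) {v : E n → E n} {x : E n}
    (h : DifferentiableAt ℝ v x) {A : E n →L[ℝ] E n} {C : ℝ} (hC : ‖fderiv ℝ v x - A‖ ≤ C) :
    ‖fderiv ℝ (Psi a e x0 v) x - ((Pa a).comp A + (innerSL ℝ e).smulRight a)‖ ≤ C := by
  have hC0 : 0 ≤ C := (norm_nonneg _).trans hC
  refine ContinuousLinearMap.opNorm_le_bound _ hC0 fun w => ?_
  have h1 : (fderiv ℝ (Psi a e x0 v) x - ((Pa a).comp A + (innerSL ℝ e).smulRight a)) w =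
      Pa a ((fderiv ℝ v x - A) w) := by
    rw [sub_apply, fderiv_Psi_apply h]
    simp
  rw [h1]
  exact (norm_Pa_le ha _).trans ((fderiv ℝ v x - A).le_of_opNorm_le hC w)

/-- Properties of the chart of a map whose derivative is close to a fixed linear map. -/
lemma chart_props {Ω : Set (E n)} (hΩ : IsOpen Ω) {v : E n → E n} {a e x0 : E n}
    {r m : ℝ} {A L : E n →L[ℝ] E n} (ha : ‖a‖ = 1) (hr : 0 < r) (hB : closedBall x0 r ⊆ Ω)
    (hv : ContDiffOn ℝ 1 v Ω) (hm : 0 < m)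
    (hLA : L = (Pa a).comp A + (innerSL ℝ e).smulRight a) (hL : ∀ w, m * ‖w‖ ≤ ‖L w‖)
    (hclose : ∀ x ∈ closedBall x0 r, ‖fderiv ℝ v x - A‖ ≤ m / 4) :
    (∀ x ∈ ball x0 r, ∀ x' ∈ ball x0 r,
      (3 * m / 4) * ‖x - x'‖ ≤ ‖Psi a e x0 v x - Psi a e x0 v x'‖) ∧
    (∀ x ∈ ball x0 r, Function.Injective (fderiv ℝ (Psi a e x0 v) x)) ∧
    ∀ y, ‖y - Psi a e x0 v x0‖ ≤ 3 * m * r / 8 →
      ∃ x ∈ closedBall x0 (r / 2), Psi a e x0 v x = y := by
  have hd : ∀ x ∈ closedBall x0 r, DifferentiableAt ℝ v x := fun x hx =>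
    (hv.contDiffAt (hΩ.mem_nhds (hB hx))).differentiableAt (by simp)
  have hdP : ∀ x ∈ closedBall x0 r, DifferentiableAt ℝ (Psi a e x0 v) x := fun x hx =>
    (hasFDerivAt_Psi (hd x hx)).differentiableAt
  have hdc : ∀ x ∈ closedBall x0 r, ‖fderiv ℝ (Psi a e x0 v) x - L‖ ≤ m / 4 := by
    intro x hx
    rw [hLA]
    exact fderiv_Psi_sub_le ha (hd x hx) (hclose x hx)
  have hmvt := mvt_ball (convex_closedBall x0 r) hdP hdc
  refine ⟨fun x hx x' hx' => ?_, fun x hx => ?_, fun y hy => ?_⟩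
  · have := lower_of_mvt hL (hmvt x (ball_subset_closedBall hx) x' (ball_subset_closedBall hx'))
    have e1 : m - m / 4 = 3 * m / 4 := by ring
    rwa [e1] at this
  · refine injective_of_lower (m := m - m / 4) (by linarith) ?_
    exact lower_of_close hL (hdc x (ball_subset_closedBall hx))
  · have hsub : closedBall x0 (r / 2) ⊆ closedBall x0 r := closedBall_subset_closedBall (by linarith)
    refine surj_ball hm hL (by positivity) (fun x hx y hy => hmvt x (hsub hx) y (hsub hy)) y ?_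
    calc ‖y - Psi a e x0 v x0‖ ≤ 3 * m * r / 8 := hy
      _ = _ := by ring

/-- **Choice of the box.** -/
theorem exists_box {Ω : Set (E n)} (hΩ : IsOpen Ω) {u : E n → E n} (hu : ContDiffOn ℝ 1 u Ω)
    (hinj : InjOn u Ω) {x0 : E n} (hx0 : x0 ∈ Ω) (hloc : Loc1 u x0) (hng : ¬ Good1 u x0)
    {R : ℝ} (hR : 0 < R) :
    ∃ (a e y0 : E n) (r t1 t2 η c δ ρ : ℝ), 0 < δ ∧ 0 < ρ ∧ ρ ≤ r ∧ r ≤ R ∧
      closedBall x0 r ⊆ Ω ∧ ∀ v : E n → E n, ContDiffOn ℝ 1 v Ω → InjOn v Ω →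
        (∀ x ∈ closedBall x0 r, ‖v x - u x‖ ≤ δ ∧ ‖fderiv ℝ v x - fderiv ℝ u x‖ ≤ δ) →
        Box Ω v a e x0 y0 r t1 t2 η c ∧ ∀ x ∈ ball x0 ρ,
          ‖Pa a (v x) - y0‖ ≤ η / 2 ∧ ⟪e, x - x0⟫ ∈ Icc t1 t2 := by
  obtain ⟨a, e, ha, he, haA, hAe, hker⟩ := exists_unit hng hloc
  set A := fderiv ℝ u x0 with hA
  set L : E n →L[ℝ] E n := (Pa a).comp A + (innerSL ℝ e).smulRight a with hL
  have hane : a ≠ 0 := by
    intro h0; rw [h0, norm_zero] at ha; exact zero_ne_one ha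
  have hLinj : Function.Injective L := by
    refine (injective_iff_map_eq_zero _).2 fun w hw => ?_
    have h1 : Pa a (A w) + ⟪e, w⟫ • a = 0 := by
      have : L w = Pa a (A w) + ⟪e, w⟫ • a := by simp [hL]
      rw [← this]; exact hw
    have h2 : Pa a (A w) = A w := by rw [Pa_apply, haA]; simp
    have h3 : ⟪e, w⟫ = 0 := by
      have := congrArg (fun y => ⟪a, y⟫) h1
      simp only [inner_add_right, inner_Pa ha, inner_smul_right, real_inner_self_eq_norm_sq,
        ha, inner_zero_right] at this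
      linarith
    rw [h2, h3, zero_smul, add_zero] at h1
    rw [hker w h1, h3, zero_smul]
  obtain ⟨m, hm, hLm⟩ := exists_lower hLinj
  have hdc : ContinuousOn (fderiv ℝ u) Ω := hu.continuousOn_fderiv_of_isOpen hΩ le_rfl
  have hdiff : ∀ x ∈ Ω, DifferentiableAt ℝ u x := fun x hx =>
    (hu.contDiffAt (hΩ.mem_nhds hx)).differentiableAt (by simp)
  -- the radius
  obtain ⟨r, hr, hrR, hrΩ, hrA⟩ : ∃ r : ℝ, 0 < r ∧ r ≤ R ∧ closedBall x0 r ⊆ Ω ∧
      ∀ x ∈ closedBall x0 r, ‖fderiv ℝ u x - A‖ ≤ m / 8 := by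
    have h1 : ∀ᶠ x in 𝓝 x0, x ∈ Ω ∧ ‖fderiv ℝ u x - A‖ < m / 8 := by
      have hm0 : ∀ᶠ x in 𝓝 x0, x ∈ Ω := hΩ.mem_nhds hx0
      refine hm0.and ?_
      have h2 := (hdc.continuousAt (hΩ.mem_nhds hx0)).sub (continuousAt_const (y := A))
      have h3 : Tendsto (fun x => ‖fderiv ℝ u x - A‖) (𝓝 x0) (𝓝 0) := by
        have := h2.norm
        simpa [ContinuousAt, hA] using this
      exact h3.eventually (gt_mem_nhds (by positivity))
    obtain ⟨ε, hε, hball⟩ := Metric.eventually_nhds_iff_ball.1 h1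
    refine ⟨min R (ε / 2), lt_min hR (by positivity), min_le_left _ _, ?_, ?_⟩
    · intro x hx
      exact (hball x (mem_ball.2 (lt_of_le_of_lt (mem_closedBall.1 hx)
        (lt_of_le_of_lt (min_le_right _ _) (half_lt_self hε))))).1
    · intro x hx
      exact (hball x (mem_ball.2 (lt_of_le_of_lt (mem_closedBall.1 hx)
        (lt_of_le_of_lt (min_le_right _ _) (half_lt_self hε))))).2.le
  have hrb : ball x0 r ⊆ Ω := ball_subset_closedBall.trans hrΩ
  obtain ⟨pu1, pu2, pu3⟩ := chart_props hΩ (e := e) ha hr hrΩ hu hm hL hLm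
    (fun x hx => (hrA x hx).trans (by linarith))
  have hpinj : InjOn (Psi a e x0 u) (ball x0 r) := by
    intro x hx x' hx' hxx
    have := pu1 x hx x' hx'
    rw [hxx, sub_self, norm_zero] at this
    have h1 : ‖x - x'‖ ≤ 0 := by
      by_contra hcon
      push Not at hcon
      nlinarith
    exact sub_eq_zero.1 (norm_le_zero_iff.1 h1)
  set y0 := Pa a (u x0) with hy0
  have hy0' : Psi a e x0 u x0 = y0 := by unfold Psi; simp [hy0]
  -- regular points on the central fibre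
  set T := m * r / 8 with hT
  have hTpos : 0 < T := by positivity
  have hXex : ∀ t : ℝ, |t| ≤ T → ∃ x ∈ ball x0 r, Psi a e x0 u x = y0 + t • a := by
    intro t ht
    obtain ⟨x, hx, hx'⟩ := pu3 (y0 + t • a) (by
      rw [hy0', add_sub_cancel_left, norm_smul, ha, mul_one, Real.norm_eq_abs]
      have : m * r / 8 ≤ 3 * m * r / 8 := by nlinarith [mul_pos hm hr]
      linarith)
    exact ⟨x, closedBall_subset_ball (by linarith) hx, hx'⟩
  obtain ⟨t2, ht2, x2, hx2, hx2', hg2⟩ := exists_regular_on_fibre hΩ ha hrb hu hinj hpinj pu2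
    hTpos (fun t ht => hXex t (by rw [abs_of_pos ht.1]; exact ht.2.le))
  obtain ⟨t1, ht1, x1, hx1, hx1', hg1⟩ := exists_regular_on_fibre hΩ ha hrb hu hinj hpinj pu2
    (neg_lt_zero.2 hTpos) (fun t ht => hXex t (by rw [abs_of_neg ht.2]; linarith [ht.1]))
  obtain ⟨c1, hc1, hc1'⟩ := exists_lower hg1
  obtain ⟨c2, hc2, hc2'⟩ := exists_lower hg2
  -- neighbourhoods of the regular points
  have hnb : ∀ (x : E n), x ∈ ball x0 r → ∀ c : ℝ, 0 < c → ∃ s : ℝ, 0 < s ∧ ball x s ⊆ ball x0 r ∧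
      ∀ y ∈ ball x s, ‖fderiv ℝ u y - fderiv ℝ u x‖ ≤ c := by
    intro x hx c hc
    have h1 : ∀ᶠ y in 𝓝 x, y ∈ ball x0 r ∧ ‖fderiv ℝ u y - fderiv ℝ u x‖ < c := by
      have hm0 : ∀ᶠ y in 𝓝 x, y ∈ ball x0 r := isOpen_ball.mem_nhds hx
      refine hm0.and ?_
      have h2 := (hdc.continuousAt (hΩ.mem_nhds (hrb hx))).sub
        (continuousAt_const (y := fderiv ℝ u x))
      have h3 : Tendsto (fun y => ‖fderiv ℝ u y - fderiv ℝ u x‖) (𝓝 x) (𝓝 0) := by
        have := h2.norm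
        simpa [ContinuousAt] using this
      exact h3.eventually (gt_mem_nhds hc)
    obtain ⟨s, hs, hball⟩ := Metric.eventually_nhds_iff_ball.1 h1
    exact ⟨s, hs, fun y hy => (hball y hy).1, fun y hy => (hball y hy).2.le⟩
  obtain ⟨s1, hs1, hs1B, hs1c⟩ := hnb x1 hx1 (c1 / 4) (by positivity)
  obtain ⟨s2, hs2, hs2B, hs2c⟩ := hnb x2 hx2 (c2 / 4) (by positivity)
  set c := min (c1 / 2) (c2 / 2) with hc
  have hcpos : 0 < c := lt_min (by positivity) (by positivity)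
  set s := min s1 s2 with hs
  have hspos : 0 < s := lt_min hs1 hs2
  set η := min (m * r / 16) (m * s / 8) with hη
  have hηpos : 0 < η := lt_min (by positivity) (by positivity)
  have hη1 : η ≤ m * r / 16 := min_le_left _ _
  have hη2 : η ≤ m * s / 8 := min_le_right _ _
  set δ := min (min (m / 8) (m * r / 8)) (min (min (c1 / 4) (c2 / 4)) (min (m * s / 8) (η / 4)))
    with hδ
  have hδpos : 0 < δ := by
    refine lt_min (lt_min ?_ ?_) (lt_min (lt_min ?_ ?_) (lt_min ?_ ?_)) <;> positivity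
  have hδ1 : δ ≤ m / 8 := (min_le_left _ _).trans (min_le_left _ _)
  have hδ2 : δ ≤ m * r / 8 := (min_le_left _ _).trans (min_le_right _ _)
  have hδ3 : δ ≤ c1 / 4 := (min_le_right _ _).trans ((min_le_left _ _).trans (min_le_left _ _))
  have hδ4 : δ ≤ c2 / 4 := (min_le_right _ _).trans ((min_le_left _ _).trans (min_le_right _ _))
  have hδ5 : δ ≤ m * s / 8 := (min_le_right _ _).trans ((min_le_right _ _).trans (min_le_left _ _))
  have hδ6 : δ ≤ η / 4 := (min_le_right _ _).trans ((min_le_right _ _).trans (min_le_right _ _))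
  -- the core
  obtain ⟨ρ, hρ, hρr, hρt1, hρt2, hρu⟩ : ∃ ρ : ℝ, 0 < ρ ∧ ρ ≤ r ∧ ρ ≤ -t1 ∧ ρ ≤ t2 ∧
      ∀ x ∈ ball x0 ρ, ‖u x - u x0‖ ≤ η / 4 := by
    have h1 : ∀ᶠ x in 𝓝 x0, ‖u x - u x0‖ < η / 4 := by
      have h2 := (hu.continuousOn.continuousAt (hΩ.mem_nhds hx0)).sub
        (continuousAt_const (y := u x0))
      have h3 : Tendsto (fun x => ‖u x - u x0‖) (𝓝 x0) (𝓝 0) := by
        have := h2.norm
        simpa [ContinuousAt] using this
      exact h3.eventually (gt_mem_nhds (by positivity))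
    obtain ⟨ε, hε, hball⟩ := Metric.eventually_nhds_iff_ball.1 h1
    refine ⟨min (min ε r) (min (-t1) t2), ?_, ?_, ?_, ?_, ?_⟩
    · exact lt_min (lt_min hε hr) (lt_min (by linarith [ht1.2]) ht2.1)
    · exact (min_le_left _ _).trans (min_le_right _ _)
    · exact (min_le_right _ _).trans (min_le_left _ _)
    · exact (min_le_right _ _).trans (min_le_right _ _)
    · intro x hx
      exact (hball x (mem_ball.2 (lt_of_lt_of_le (mem_ball.1 hx)
        ((min_le_left _ _).trans (min_le_left _ _))))).le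
  refine ⟨a, e, y0, r, t1, t2, η, c, δ, ρ, hδpos, hρ, hρr, hrR, hrΩ, fun v hv hvinj hvu => ?_⟩
  have hvA : ∀ x ∈ closedBall x0 r, ‖fderiv ℝ v x - A‖ ≤ m / 4 := by
    intro x hx
    have h1 : fderiv ℝ v x - A = (fderiv ℝ v x - fderiv ℝ u x) + (fderiv ℝ u x - A) := by abel
    rw [h1]
    refine (norm_add_le _ _).trans ?_
    have := (hvu x hx).2
    have := hrA x hx
    linarith
  obtain ⟨pv1, pv2, pv3⟩ := chart_props hΩ (e := e) ha hr hrΩ hv hm hL hLm hvA
  have hvdiff : ∀ x ∈ ball x0 r, DifferentiableAt ℝ v x := fun x hx =>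
    (hv.contDiffAt (hΩ.mem_nhds (hrb hx))).differentiableAt (by simp)
  -- points in the zones are close to the regular points
  have hzone : ∀ (xi : E n) (ti si : ℝ), xi ∈ ball x0 r → s ≤ si →
      Psi a e x0 u xi = y0 + ti • a → ∀ x ∈ ball x0 r, ‖Pa a (v x) - y0‖ ≤ η →
      |⟪e, x - x0⟫ - ti| ≤ η → x ∈ ball xi si := by
    intro xi ti si hxi hsi hpsi x hx hx1 hx2
    have h1 := pv1 x hx xi hxi
    have h2 : Psi a e x0 v x - Psi a e x0 v xi = (Pa a (v x) - y0) +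
        (⟪e, x - x0⟫ - ti) • a + Pa a (u xi - v xi) := by
      have h3 : Psi a e x0 v xi = Psi a e x0 u xi - Pa a (u xi - v xi) := by
        unfold Psi; rw [map_sub]; abel
      rw [h3, hpsi]
      unfold Psi
      rw [sub_smul]; abel
    have h4 : ‖Pa a (u xi - v xi)‖ ≤ δ := by
      refine (norm_Pa_le ha _).trans ?_
      rw [norm_sub_rev]
      exact (hvu xi (ball_subset_closedBall hxi)).1
    have h5 : ‖Psi a e x0 v x - Psi a e x0 v xi‖ ≤ η + η + δ := by
      rw [h2]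
      refine (norm_add₃_le).trans ?_
      rw [norm_smul, ha, mul_one, Real.norm_eq_abs]
      linarith
    rw [mem_ball_iff_norm]
    have h6 : 3 * m / 4 * ‖x - xi‖ ≤ 3 * (m * s / 8) := by linarith
    have h7 : ‖x - xi‖ ≤ s / 2 := by
      have h8 : 3 * m / 4 * ‖x - xi‖ ≤ 3 * m / 4 * (s / 2) := by
        calc _ ≤ 3 * (m * s / 8) := h6
          _ = _ := by ring
      exact le_of_mul_le_mul_left h8 (by positivity)
    linarith
  -- bounds in the neighbourhoods of the regular points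
  have hlow : ∀ (xi : E n) (si ci : ℝ), ball xi si ⊆ ball x0 r → 0 < ci →
      (∀ w, ci * ‖w‖ ≤ ‖fderiv ℝ u xi w‖) → (∀ y ∈ ball xi si, ‖fderiv ℝ u y - fderiv ℝ u xi‖ ≤
        ci / 4) → δ ≤ ci / 4 → (∀ x ∈ ball xi si, ∀ w, ci / 2 * ‖w‖ ≤ ‖fderiv ℝ v x w‖) ∧
      ∀ x ∈ ball xi si, ∀ x' ∈ ball xi si, ci / 2 * ‖x - x'‖ ≤ ‖v x - v x'‖ := by
    intro xi si ci hsub hci hlo hcl hδc
    have hcl' : ∀ y ∈ ball xi si, ‖fderiv ℝ v y - fderiv ℝ u xi‖ ≤ ci / 2 := by
      intro y hy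
      have h1 : fderiv ℝ v y - fderiv ℝ u xi = (fderiv ℝ v y - fderiv ℝ u y) +
        (fderiv ℝ u y - fderiv ℝ u xi) := by abel
      rw [h1]
      refine (norm_add_le _ _).trans ?_
      have h2 := (hvu y (ball_subset_closedBall (hsub hy))).2
      have h3 := hcl y hy
      linarith
    have e1 : ci - ci / 2 = ci / 2 := by ring
    refine ⟨fun x hx w => ?_, fun x hx x' hx' => ?_⟩
    · have := lower_of_close hlo (hcl' x hx) w
      rwa [e1] at this
    · have h4 := mvt_ball (convex_ball xi si) (fun y hy => hvdiff y (hsub hy)) hcl' x hx x' hx'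
      have := lower_of_mvt hlo h4
      rwa [e1] at this
  obtain ⟨l1, l1'⟩ := hlow x1 s1 c1 hs1B hc1 hc1' hs1c hδ3
  obtain ⟨l2, l2'⟩ := hlow x2 s2 c2 hs2B hc2 hc2' hs2c hδ4
  have hz1 : ∀ x ∈ ball x0 r, ‖Pa a (v x) - y0‖ ≤ η → ⟪e, x - x0⟫ ∈ Icc (t1 - η) t1 →
      x ∈ ball x1 s1 := fun x hx h1 h2 =>
    hzone x1 t1 s1 hx1 (min_le_left _ _) hx1' x hx h1
      (by rw [abs_le]; exact ⟨by linarith [h2.1], by linarith [h2.2]⟩)
  have hz2 : ∀ x ∈ ball x0 r, ‖Pa a (v x) - y0‖ ≤ η → ⟪e, x - x0⟫ ∈ Icc t2 (t2 + η) →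
      x ∈ ball x2 s2 := fun x hx h1 h2 =>
    hzone x2 t2 s2 hx2 (min_le_right _ _) hx2' x hx h1
      (by rw [abs_le]; exact ⟨by linarith [h2.1], by linarith [h2.2]⟩)
  have hcc1 : c ≤ c1 / 2 := min_le_left _ _
  have hcc2 : c ≤ c2 / 2 := min_le_right _ _
  refine ⟨⟨ha, he, hr, hrb, ht1.2, ht2.1, hηpos, hcpos, hv, hvinj, ⟨3 * m / 4, by positivity,
    pv1⟩, pv2, ?_, ?_, ?_⟩, ?_⟩
  · intro z t hz hz' ht
    apply pv3
    have h1 : z + t • a - Psi a e x0 v x0 = (z - y0) + t • a + Pa a (u x0 - v x0) := by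
      unfold Psi; rw [map_sub, ← hy0]; simp; abel
    rw [h1]
    refine (norm_add₃_le).trans ?_
    have h2 : ‖Pa a (u x0 - v x0)‖ ≤ δ := by
      refine (norm_Pa_le ha _).trans ?_
      rw [norm_sub_rev]
      exact (hvu x0 (mem_closedBall_self hr.le)).1
    rw [norm_smul, ha, mul_one, Real.norm_eq_abs]
    have h3 : |t| ≤ T + η := by
      rw [abs_le]
      exact ⟨by linarith [ht.1, ht1.1], by linarith [ht.2, ht2.2]⟩
    have h4 : T = m * r / 8 := rfl
    linarith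
  · intro x hx x' hx' hp hp' hh
    rcases hh with ⟨h1, h2⟩ | ⟨h1, h2⟩
    · refine le_trans ?_ (l1' x (hz1 x hx hp h1) x' (hz1 x' hx' hp' h2))
      gcongr
    · refine le_trans ?_ (l2' x (hz2 x hx hp h1) x' (hz2 x' hx' hp' h2))
      gcongr
  · intro x hx hp hh w
    rcases hh with h1 | h1
    · refine le_trans ?_ (l1 x (hz1 x hx hp h1) w)
      gcongr
    · refine le_trans ?_ (l2 x (hz2 x hx hp h1) w)
      gcongr
  · intro x hx
    have hxr : x ∈ closedBall x0 r := (ball_subset_closedBall.trans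
      (closedBall_subset_closedBall hρr)) hx
    constructor
    · have h1 : Pa a (v x) - y0 = Pa a ((v x - u x) + (u x - u x0)) := by
        rw [hy0, ← map_sub]; congr 1; abel
      rw [h1]
      refine (norm_Pa_le ha _).trans ((norm_add_le _ _).trans ?_)
      have h2 := (hvu x hxr).1
      have h3 := hρu x hx
      linarith
    · have h1 : |⟪e, x - x0⟫| ≤ ρ := by
        refine (abs_real_inner_le_norm _ _).trans ?_
        rw [he, one_mul]
        exact (mem_ball_iff_norm.1 hx).le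
      rw [abs_le] at h1
      exact ⟨by linarith [h1.1], by linarith [h1.2]⟩

end Run7.h7
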