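import Mathlib
import Pool.Agent.Run7.h7.Defs
import Pool.Agent.Run7.h7.Basic

/-!
The supremum bound of Morrey for functions of class `C^1`.
-/

open MeasureTheory Filter Set Metric
open scoped ENNReal Topology

namespace Run7.h7

variable {n : ℕ} {F : Type*} [NormedAddCommGroup F] [NormedSpace ℝ F] [CompleteSpace F]

lemma segment_mem_ball {x y : E n} {ρ : ℝ} (hy : y ∈ ball x ρ) {t : ℝ} (ht : t ∈ Icc (0 : ℝ) 1) :
    x + t • (y - x) ∈ ball x ρ := by
  rw [mem_ball, dist_eq_norm] at *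
  have : ‖x + t • (y - x) - x‖ = t * ‖y - x‖ := by
    rw [add_sub_cancel_left, norm_smul, Real.norm_of_nonneg ht.1]
  rw [this]
  have := mul_le_mul_of_nonneg_right ht.2 (norm_nonneg (y - x))
  linarith

lemma enorm_le_add_lintegral {w : E n → F} {x y : E n} {ρ : ℝ}
    (hw : ∀ z ∈ ball x ρ, DifferentiableAt ℝ w z) (hc : ContinuousOn (fderiv ℝ w) (ball x ρ))
    (hy : y ∈ ball x ρ) :
    ‖w x‖ₑ ≤ ‖w y‖ₑ + ENNReal.ofReal ρ *
      ∫⁻ t in Ioc (0 : ℝ) 1, ‖fderiv ℝ w (x + t • (y - x))‖ₑ := by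
  have hγ : ∀ t ∈ uIcc (0 : ℝ) 1, HasDerivAt (fun t : ℝ => w (x + t • (y - x)))
      (fderiv ℝ w (x + t • (y - x)) (y - x)) t := by
    intro t ht
    rw [uIcc_of_le zero_le_one] at ht
    have h1 := (hw _ (segment_mem_ball hy ht)).hasFDerivAt
    have h2 : HasDerivAt (fun t : ℝ => x + t • (y - x)) (y - x) t := by
      simpa using ((hasDerivAt_id t).smul_const (y - x)).const_add x
    exact h1.comp_hasDerivAt t h2
  have hcont : ContinuousOn (fun t : ℝ => fderiv ℝ w (x + t • (y - x)) (y - x)) (Icc 0 1) := by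
    refine ContinuousOn.clm_apply (hc.comp (by fun_prop) (fun t ht => segment_mem_ball hy ht))
      continuousOn_const
  have hint : IntervalIntegrable (fun t : ℝ => fderiv ℝ w (x + t • (y - x)) (y - x))
      volume 0 1 := by
    apply ContinuousOn.intervalIntegrable
    rwa [uIcc_of_le zero_le_one]
  have key := intervalIntegral.integral_eq_sub_of_hasDerivAt hγ hint
  simp only [one_smul, add_sub_cancel, zero_smul, add_zero] at key
  rw [intervalIntegral.integral_of_le zero_le_one] at key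
  have e : w x = w y - ∫ t in Ioc (0 : ℝ) 1, fderiv ℝ w (x + t • (y - x)) (y - x) := by
    rw [key]; abel
  have hyx : ‖y - x‖ₑ ≤ ENNReal.ofReal ρ := by
    rw [← ofReal_norm]
    apply ENNReal.ofReal_le_ofReal
    rw [mem_ball, dist_eq_norm] at hy
    exact hy.le
  calc ‖w x‖ₑ ≤ ‖w y‖ₑ + ‖∫ t in Ioc (0 : ℝ) 1, fderiv ℝ w (x + t • (y - x)) (y - x)‖ₑ := by
        rw [e]; exact enorm_sub_le
    _ ≤ ‖w y‖ₑ + ∫⁻ t in Ioc (0 : ℝ) 1, ‖fderiv ℝ w (x + t • (y - x)) (y - x)‖ₑ := by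
        gcongr; exact enorm_integral_le_lintegral_enorm _
    _ ≤ ‖w y‖ₑ + ∫⁻ t in Ioc (0 : ℝ) 1, ENNReal.ofReal ρ * ‖fderiv ℝ w (x + t • (y - x))‖ₑ := by
        gcongr with t
        calc ‖fderiv ℝ w (x + t • (y - x)) (y - x)‖ₑ
            ≤ ‖fderiv ℝ w (x + t • (y - x))‖ₑ * ‖y - x‖ₑ := ContinuousLinearMap.le_opENorm _ _
          _ ≤ ENNReal.ofReal ρ * ‖fderiv ℝ w (x + t • (y - x))‖ₑ := by
              rw [mul_comm]; gcongr
    _ = _ := by rw [lintegral_const_mul' _ _ ENNReal.ofReal_ne_top]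

lemma measurable_enorm_fderiv (w : E n → F) : Measurable (fun z => ‖fderiv ℝ w z‖ₑ) :=
  (measurable_fderiv ℝ w).enorm

lemma lintegral_scale {g : E n → ℝ≥0∞} (hg : Measurable g) (x : E n) {t : ℝ} (ht : 0 < t) :
    ∫⁻ y, g (x + t • (y - x)) = ENNReal.ofReal (t ^ n)⁻¹ * ∫⁻ z, g z := by
  have h1 : ∫⁻ y, g (x + t • (y - x)) = ∫⁻ y, g (x + t • y) :=
    lintegral_sub_right_eq_self (fun y => g (x + t • y)) x
  have h2 : ∫⁻ y : E n, g (x + t • y) = ∫⁻ z, g (x + z) ∂(Measure.map (t • ·) volume) := by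
    rw [lintegral_map (by fun_prop) (by fun_prop)]
  have h3 : ENNReal.ofReal |(t ^ n)⁻¹| = ENNReal.ofReal (t ^ n)⁻¹ := by
    rw [abs_of_nonneg (by positivity)]
  rw [h1, h2, Measure.map_addHaar_smul _ ht.ne', lintegral_smul_measure, finrank_euclideanSpace,
    Fintype.card_fin, h3, lintegral_add_left_eq_self, smul_eq_mul]

/-- scaling of the integral over a ball. -/
lemma lintegral_ball_scale {h : E n → ℝ≥0∞} (hh : Measurable h) (x : E n) {ρ t : ℝ}
    (ht : 0 < t) :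
    ∫⁻ y in ball x ρ, h (x + t • (y - x)) =
      ENNReal.ofReal (t ^ n)⁻¹ * ∫⁻ z in ball x (t * ρ), h z := by
  rw [← lintegral_indicator measurableSet_ball, ← lintegral_indicator measurableSet_ball,
    ← lintegral_scale (hh.indicator measurableSet_ball) x ht]
  congr 1
  ext y
  have hiff : x + t • (y - x) ∈ ball x (t * ρ) ↔ y ∈ ball x ρ := by
    rw [mem_ball, mem_ball, dist_eq_norm, dist_eq_norm, add_sub_cancel_left, norm_smul,
      Real.norm_of_nonneg ht.le, mul_lt_mul_iff_of_pos_left ht]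
  by_cases hy : y ∈ ball x ρ
  · rw [indicator_of_mem hy, indicator_of_mem (hiff.2 hy)]
  · rw [indicator_of_notMem hy, indicator_of_notMem (fun h => hy (hiff.1 h))]

/-- integral over a small ball by the `L^q` norm. -/
lemma lintegral_ball_le {h : E n → ℝ≥0∞} (hh : Measurable h) (x : E n) {ρ t : ℝ} {q : ℝ≥0∞}
    (hq : 1 ≤ q) (ht : 0 < t) (ht1 : t ≤ 1) (hρ : 0 < ρ) :
    ∫⁻ z in ball x (t * ρ), h z ≤ eLpNorm h q (volume.restrict (ball x ρ)) *
      (ENNReal.ofReal (t ^ n) * volume (ball (0 : E n) ρ)) ^ (1 - 1 / q.toReal) := by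
  have h1 := eLpNorm_le_eLpNorm_mul_rpow_measure_univ (μ := volume.restrict (ball x (t * ρ)))
    (f := h) hq hh.aestronglyMeasurable
  rw [eLpNorm_one_eq_lintegral_enorm, Measure.restrict_apply_univ, ENNReal.toReal_one, one_div_one]
    at h1
  simp only [enorm_eq_self] at h1
  refine h1.trans ?_
  have h2 : volume (ball x (t * ρ)) = ENNReal.ofReal (t ^ n) * volume (ball (0 : E n) ρ) := by
    rw [Measure.addHaar_ball_center, Measure.addHaar_ball_mul_of_pos _ _ ht,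
      finrank_euclideanSpace, Fintype.card_fin]
  rw [h2]
  gcongr
  nlinarith

lemma morrey_const_ne_top {q : ℝ≥0∞} (hq : (n : ℝ≥0∞) < q) (hq' : q ≠ ∞) :
    ∫⁻ t in Ioc (0 : ℝ) 1, ENNReal.ofReal (t ^ n)⁻¹ *
      ENNReal.ofReal (t ^ n) ^ (1 - 1 / q.toReal) ≠ ∞ := by
  have hq0 : (0 : ℝ) < q.toReal :=
    ENNReal.toReal_pos (ne_of_gt (lt_of_le_of_lt (by simp) hq)) hq'
  have hnq : (n : ℝ) < q.toReal := by
    rw [← ENNReal.toReal_natCast]
    exact (ENNReal.toReal_lt_toReal (by simp) hq').2 hq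
  have h1 : ∀ t ∈ Ioc (0 : ℝ) 1, ENNReal.ofReal (t ^ n)⁻¹ *
      ENNReal.ofReal (t ^ n) ^ (1 - 1 / q.toReal) = ENNReal.ofReal (t ^ (-(n : ℝ) / q.toReal)) := by
    intro t ht
    rw [ENNReal.ofReal_rpow_of_pos (pow_pos ht.1 n), ← ENNReal.ofReal_mul (by
      have := ht.1; positivity)]
    congr 1
    rw [← Real.rpow_natCast, ← Real.rpow_neg ht.1.le, ← Real.rpow_mul ht.1.le,
      ← Real.rpow_add ht.1]
    congr 1
    field_simp
    ring
  rw [setLIntegral_congr_fun measurableSet_Ioc h1]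
  have h2 : IntegrableOn (fun t : ℝ => t ^ (-(n : ℝ) / q.toReal)) (Ioc 0 1) := by
    have := intervalIntegral.intervalIntegrable_rpow' (a := 0) (b := 1)
      (r := -(n : ℝ) / q.toReal) (by
        rw [neg_div, neg_lt_neg_iff, div_lt_one hq0]; exact hnq)
    exact (intervalIntegrable_iff_integrableOn_Ioc_of_le zero_le_one).1 this
  have h3 := h2.2
  rw [hasFiniteIntegral_iff_enorm] at h3
  refine ne_of_lt (lt_of_le_of_lt ?_ h3)
  refine lintegral_mono fun t => ?_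
  rw [← ofReal_norm]
  exact ENNReal.ofReal_le_ofReal (le_abs_self _)

/-- **Morrey's bound.** -/
theorem morrey {q : ℝ≥0∞} (hn : 1 ≤ n) (hq : (n : ℝ≥0∞) < q) (hq' : q ≠ ∞) {ρ : ℝ} (hρ : 0 < ρ) :
    ∃ C : ℝ≥0∞, C ≠ ∞ ∧ ∀ (w : E n → F) (x : E n), (∀ z ∈ ball x ρ, DifferentiableAt ℝ w z) →
      ContinuousOn (fderiv ℝ w) (ball x ρ) →
      ‖w x‖ₑ ≤ C * (eLpNorm w q (volume.restrict (ball x ρ)) +
        eLpNorm (fderiv ℝ w) q (volume.restrict (ball x ρ))) := by
  have hq1 : 1 ≤ q := le_trans (by exact_mod_cast hn) hq.le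
  set A : ℝ≥0∞ := ∫⁻ t in Ioc (0 : ℝ) 1, ENNReal.ofReal (t ^ n)⁻¹ *
      ENNReal.ofReal (t ^ n) ^ (1 - 1 / q.toReal) with hA
  have hA' : A ≠ ∞ := morrey_const_ne_top hq hq'
  set V : ℝ≥0∞ := volume (ball (0 : E n) ρ) with hV
  have hV0 : V ≠ 0 := (measure_ball_pos _ _ hρ).ne'
  have hVt : V ≠ ∞ := measure_ball_lt_top.ne
  set r : ℝ := 1 - 1 / q.toReal with hr
  have hr0 : 0 ≤ r := by
    have : 1 ≤ q.toReal := by
      rw [← ENNReal.toReal_one]; exact (ENNReal.toReal_le_toReal (by simp) hq').2 hq1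
    rw [hr, sub_nonneg, div_le_one (by linarith)]
    exact this
  refine ⟨V⁻¹ * (V ^ r * (1 + ENNReal.ofReal ρ * A)), ?_, ?_⟩
  · refine ENNReal.mul_ne_top (ENNReal.inv_ne_top.2 hV0) (ENNReal.mul_ne_top ?_ ?_)
    · exact ENNReal.rpow_ne_top_of_nonneg hr0 hVt
    · exact ENNReal.add_ne_top.2 ⟨by simp, ENNReal.mul_ne_top ENNReal.ofReal_ne_top hA'⟩
  intro w x hw hc
  set h : E n → ℝ≥0∞ := fun z => ‖fderiv ℝ w z‖ₑ with hh
  have hhm : Measurable h := measurable_enorm_fderiv w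
  have hVx : volume (ball x ρ) = V := by rw [hV, Measure.addHaar_ball_center]
  have hwm : AEStronglyMeasurable w (volume.restrict (ball x ρ)) :=
    ContinuousOn.aestronglyMeasurable
      (fun z hz => (hw z hz).continuousAt.continuousWithinAt) measurableSet_ball
  have hjoint : Measurable (fun p : E n × ℝ => h (x + p.2 • (p.1 - x))) :=
    hhm.comp (by fun_prop)
  have step1 : V * ‖w x‖ₑ ≤ (∫⁻ y in ball x ρ, ‖w y‖ₑ) + ENNReal.ofReal ρ *
      ∫⁻ y in ball x ρ, ∫⁻ t in Ioc (0 : ℝ) 1, h (x + t • (y - x)) := by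
    calc V * ‖w x‖ₑ = ∫⁻ y in ball x ρ, ‖w x‖ₑ := by
          rw [setLIntegral_const, hVx, mul_comm]
      _ ≤ ∫⁻ y in ball x ρ, (‖w y‖ₑ + ENNReal.ofReal ρ *
            ∫⁻ t in Ioc (0 : ℝ) 1, h (x + t • (y - x))) :=
          setLIntegral_mono' measurableSet_ball (fun y hy => enorm_le_add_lintegral hw hc hy)
      _ = _ := by
          rw [lintegral_add_right, lintegral_const_mul]
          · exact hjoint.lintegral_prod_right'
          · exact hjoint.lintegral_prod_right'.const_mul _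
  have step2 : ∫⁻ y in ball x ρ, ∫⁻ t in Ioc (0 : ℝ) 1, h (x + t • (y - x)) ≤
      eLpNorm h q (volume.restrict (ball x ρ)) * (V ^ r * A) := by
    rw [lintegral_lintegral_swap (by exact hjoint.aemeasurable)]
    calc ∫⁻ t in Ioc (0 : ℝ) 1, ∫⁻ y in ball x ρ, h (x + t • (y - x))
        ≤ ∫⁻ t in Ioc (0 : ℝ) 1, (eLpNorm h q (volume.restrict (ball x ρ)) * V ^ r) *
            (ENNReal.ofReal (t ^ n)⁻¹ * ENNReal.ofReal (t ^ n) ^ r) := by
          refine setLIntegral_mono' measurableSet_Ioc (fun t ht => ?_)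
          rw [lintegral_ball_scale hhm x ht.1]
          have := lintegral_ball_le hhm x hq1 ht.1 ht.2 hρ
          calc ENNReal.ofReal (t ^ n)⁻¹ * ∫⁻ z in ball x (t * ρ), h z
              ≤ ENNReal.ofReal (t ^ n)⁻¹ * (eLpNorm h q (volume.restrict (ball x ρ)) *
                (ENNReal.ofReal (t ^ n) * V) ^ r) := by gcongr
            _ = _ := by
                rw [ENNReal.mul_rpow_of_nonneg _ _ hr0]; ring
      _ = (eLpNorm h q (volume.restrict (ball x ρ)) * V ^ r) * A := by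
          rw [lintegral_const_mul]
          fun_prop
      _ = _ := by ring
  have step3 : ∫⁻ y in ball x ρ, ‖w y‖ₑ ≤ eLpNorm w q (volume.restrict (ball x ρ)) * V ^ r := by
    have h1 := eLpNorm_le_eLpNorm_mul_rpow_measure_univ hq1 hwm
    rw [eLpNorm_one_eq_lintegral_enorm, Measure.restrict_apply_univ, ENNReal.toReal_one,
      one_div_one, hVx] at h1
    exact h1
  have hheq : eLpNorm h q (volume.restrict (ball x ρ)) =
      eLpNorm (fderiv ℝ w) q (volume.restrict (ball x ρ)) := eLpNorm_enorm _ 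
  rw [hheq] at step2
  set a := eLpNorm w q (volume.restrict (ball x ρ))
  set b := eLpNorm (fderiv ℝ w) q (volume.restrict (ball x ρ))
  have step4 : V * ‖w x‖ₑ ≤ V ^ r * (1 + ENNReal.ofReal ρ * A) * (a + b) := by
    calc V * ‖w x‖ₑ ≤ a * V ^ r + ENNReal.ofReal ρ * (b * (V ^ r * A)) := by
          refine step1.trans ?_
          gcongr
      _ = V ^ r * (1 * a + (ENNReal.ofReal ρ * A) * b) := by ring
      _ ≤ V ^ r * ((1 + ENNReal.ofReal ρ * A) * a + (1 + ENNReal.ofReal ρ * A) * b) := by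
          gcongr
          · exact le_self_add
          · exact le_add_self
      _ = _ := by ring
  calc ‖w x‖ₑ = V⁻¹ * (V * ‖w x‖ₑ) := by
        rw [← mul_assoc, ENNReal.inv_mul_cancel hV0 hVt, one_mul]
    _ ≤ V⁻¹ * (V ^ r * (1 + ENNReal.ofReal ρ * A) * (a + b)) := by gcongr
    _ = _ := by ring

end Run7.h7
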