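import Mathlib
import Pool.Agent.Run7.h7.Defs
import Pool.Agent.Run7.h7.Basic

/-!
Basic facts on weak partial derivatives.
-/

open MeasureTheory Filter Set Metric
open scoped ENNReal Topology ContDiff

namespace Run7.h7

variable {n : ℕ} {F : Type*} [NormedAddCommGroup F] [NormedSpace ℝ F]

/-- a continuous function times a function continuous on an open set containing the support is
integrable. -/
lemma integrable_smul_of_support {Ω K : Set (E n)} {a : E n → ℝ} {u : E n → F}
    (hK : IsCompact K) (hKΩ : K ⊆ Ω) (ha : Continuous a) (haK : Function.support a ⊆ K)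
    (hu : ContinuousOn u Ω) : Integrable (fun x => a x • u x) := by
  have h1 : IntegrableOn (fun x => a x • u x) K :=
    (ha.continuousOn.smul (hu.mono hKΩ)).integrableOn_compact hK
  refine (integrableOn_iff_integrable_of_support_subset ?_).1 h1
  intro x hx
  apply haK
  simp only [Function.mem_support, ne_eq] at hx ⊢
  intro h
  exact hx (by rw [h, zero_smul])

lemma support_fderiv_apply_subset {φ : E n → ℝ} (v : E n) :
    Function.support (fun x => fderiv ℝ φ x v) ⊆ tsupport φ := by
  intro x hx
  by_contra h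
  apply hx
  have : fderiv ℝ φ x = 0 := by
    have := support_fderiv_subset ℝ (f := φ)
    by_contra h'
    exact h (this h')
  simp [this]

/-- classical derivatives are weak derivatives. -/
lemma IsWeakPartial.of_differentiableOn {Ω : Set (E n)} {u : E n → F}
    (hu : ∀ x ∈ Ω, DifferentiableAt ℝ u x) (hu' : ∀ v, ContinuousOn (fun x => fderiv ℝ u x v) Ω)
    (i : Fin n) : IsWeakPartial Ω i u (fun x => fderiv ℝ u x (bv i)) := by
  rintro φ ⟨hφ, hc, hs⟩
  have hcu : ContinuousOn u Ω := fun x hx => (hu x hx).continuousAt.continuousWithinAt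
  have hdφ : Continuous (fun x => fderiv ℝ φ x (bv i)) :=
    (hφ.continuous_fderiv (by simp)).clm_apply continuous_const
  have h1 := integral_smul_fderiv_eq_neg_fderiv_smul_of_integrable (μ := (volume : Measure (E n)))
    (f := φ) (g := u) (v := bv i)
    (integrable_smul_of_support hc hs hdφ (support_fderiv_apply_subset _) hcu)
    (integrable_smul_of_support hc hs hφ.continuous (subset_tsupport _) (hu' _))
    (integrable_smul_of_support hc hs hφ.continuous (subset_tsupport _) hcu)
    (fun x _ => hφ.contDiffAt.differentiableAt (by simp))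
    (fun x hx => hu x (hs hx))
  rw [h1, neg_neg]

lemma IsWeakPartial.of_contDiffOn {Ω : Set (E n)} (hΩ : IsOpen Ω) {u : E n → F}
    (hu : ContDiffOn ℝ 1 u Ω) (i : Fin n) :
    IsWeakPartial Ω i u (fun x => fderiv ℝ u x (bv i)) := by
  refine IsWeakPartial.of_differentiableOn (fun x hx => ?_) (fun v => ?_) i
  · exact (hu.contDiffAt (hΩ.mem_nhds hx)).differentiableAt (by simp)
  · exact (hu.continuousOn_fderiv_of_isOpen hΩ le_rfl).clm_apply continuousOn_const

lemma IsWeakPartial.mono {Ω Ω' : Set (E n)} {i : Fin n} {u v : E n → F}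
    (h : IsWeakPartial Ω i u v) (hs : Ω' ⊆ Ω) : IsWeakPartial Ω' i u v :=
  fun φ h1 => h φ ⟨h1.1, h1.2.1, h1.2.2.trans hs⟩

lemma IsWeakPartial.congr_ae {Ω : Set (E n)} {i : Fin n} {u v u' v' : E n → F}
    (h : IsWeakPartial Ω i u v) (hu : ∀ᵐ x, x ∈ Ω → u x = u' x)
    (hv : ∀ᵐ x, x ∈ Ω → v x = v' x) : IsWeakPartial Ω i u' v' := by
  rintro φ ⟨h1, h2, h3⟩
  have e1 : ∫ x, fderiv ℝ φ x (bv i) • u' x = ∫ x, fderiv ℝ φ x (bv i) • u x := by
    apply integral_congr_ae
    filter_upwards [hu] with x hx
    by_cases hxs : x ∈ tsupport φ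
    · rw [hx (h3 hxs)]
    · have : fderiv ℝ φ x (bv i) = 0 := by
        by_contra h'
        exact hxs (support_fderiv_apply_subset (bv i) h')
      simp [this]
  have e2 : ∫ x, φ x • v' x = ∫ x, φ x • v x := by
    apply integral_congr_ae
    filter_upwards [hv] with x hx
    by_cases hxs : x ∈ tsupport φ
    · rw [hx (h3 hxs)]
    · simp [image_eq_zero_of_notMem_tsupport hxs]
  rw [e1, e2]
  exact h φ ⟨h1, h2, h3⟩

/-- uniqueness of weak derivatives. -/
lemma IsWeakPartial.unique [CompleteSpace F] {Ω : Set (E n)} (hΩ : IsOpen Ω) {i : Fin n}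
    {u v w : E n → F} (hv : IsWeakPartial Ω i u v) (hw : IsWeakPartial Ω i u w)
    (iv : LocallyIntegrableOn v Ω) (iw : LocallyIntegrableOn w Ω) :
    ∀ᵐ x, x ∈ Ω → v x = w x := by
  have key := hΩ.ae_eq_zero_of_integral_contDiff_smul_eq_zero (f := fun x => v x - w x)
    (μ := (volume : Measure (E n))) (iv.sub iw) (fun φ h1 h2 h3 => by
      have e1 := hv φ ⟨h1, h2, h3⟩
      have e2 := hw φ ⟨h1, h2, h3⟩
      have hint : ∀ z : E n → F, LocallyIntegrableOn z Ω →
          Integrable (fun x => φ x • z x) := by
        intro z hz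
        have hK := hz.integrableOn_compact_subset h3 h2
        have : IntegrableOn (fun x => φ x • z x) (tsupport φ) :=
          hK.continuousOn_smul h1.continuous.continuousOn h2
        refine (integrableOn_iff_integrable_of_support_subset ?_).1 this
        intro x hx
        apply subset_tsupport
        simp only [Function.mem_support, ne_eq] at hx ⊢
        intro h
        exact hx (by rw [h, zero_smul])
      simp only [smul_sub]
      rw [integral_sub (hint v iv) (hint w iw), ← neg_neg (∫ x, φ x • v x),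
        ← neg_neg (∫ x, φ x • w x), ← e1, ← e2, sub_self])
  filter_upwards [key] with x hx h
  exact sub_eq_zero.1 (hx h)

lemma locallyIntegrableOn_of_memLp {Ω : Set (E n)} {q : ℝ≥0∞} (hq : 1 ≤ q) {u : E n → F}
    (hu : MemLp u q (volume.restrict Ω)) : LocallyIntegrableOn u Ω :=
  locallyIntegrableOn_of_locallyIntegrable_restrict (hu.locallyIntegrable hq)

end Run7.h7
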