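import Mathlib
import Pool.Agent.Run7.h7.Defs
import Pool.Agent.Run7.h7.Basic
import Pool.Agent.Run7.h7.Weak
import Pool.Agent.Run7.h7.Morrey

/-!
Maps of class `C^2` as members of the second order Sobolev space.
-/

open MeasureTheory Filter Set Metric
open scoped Topology ENNReal

namespace Run7.h7

variable {n : ℕ} {F : Type*} [NormedAddCommGroup F] [NormedSpace ℝ F]

/-- classical first partial derivatives. -/
noncomputable def pd (u : E n → F) (i : Fin n) (x : E n) : F := fderiv ℝ u x (bv i)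

/-- classical second partial derivatives. -/
noncomputable def pd2 (u : E n → F) (i j : Fin n) (x : E n) : F := fderiv ℝ (pd u i) x (bv j)

lemma pd_contDiffOn {Ω : Set (E n)} (hΩ : IsOpen Ω) {u : E n → F} (hu : ContDiffOn ℝ 2 u Ω)
    (i : Fin n) : ContDiffOn ℝ 1 (pd u i) Ω :=
  (hu.fderiv_of_isOpen hΩ (m := 1) (by norm_num)).clm_apply contDiffOn_const

lemma pd_contDiff {u : E n → F} (hu : ContDiff ℝ 2 u) (i : Fin n) : ContDiff ℝ 1 (pd u i) :=
  (hu.fderiv_right (m := 1) (by norm_num)).clm_apply contDiff_const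

lemma pd2_continuousOn {Ω : Set (E n)} (hΩ : IsOpen Ω) {u : E n → F} (hu : ContDiffOn ℝ 2 u Ω)
    (i j : Fin n) : ContinuousOn (pd2 u i j) Ω :=
  ((pd_contDiffOn hΩ hu i).continuousOn_fderiv_of_isOpen hΩ le_rfl).clm_apply continuousOn_const

lemma pd2_continuous {u : E n → F} (hu : ContDiff ℝ 2 u) (i j : Fin n) :
    Continuous (pd2 u i j) :=
  ((pd_contDiff hu i).continuous_fderiv (by norm_num)).clm_apply continuous_const

lemma pd_weak {Ω : Set (E n)} (hΩ : IsOpen Ω) {u : E n → F} (hu : ContDiffOn ℝ 2 u Ω)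
    (i : Fin n) : IsWeakPartial Ω i u (pd u i) :=
  IsWeakPartial.of_contDiffOn hΩ (hu.of_le (by norm_num)) i

lemma pd2_weak {Ω : Set (E n)} (hΩ : IsOpen Ω) {u : E n → F} (hu : ContDiffOn ℝ 2 u Ω)
    (i j : Fin n) : IsWeakPartial Ω j (pd u i) (pd2 u i j) :=
  IsWeakPartial.of_contDiffOn hΩ (pd_contDiffOn hΩ hu i) j

/-- A continuous function is in `L^q` of a bounded set. -/
lemma memLp_of_continuous {Ω : Set (E n)} (hΩ : Bornology.IsBounded Ω) {u : E n → F}
    (hu : Continuous u) (q : ℝ≥0∞) : MemLp u q (volume.restrict Ω) := by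
  have : IsFiniteMeasure (volume.restrict Ω) := ⟨by
    rw [Measure.restrict_apply_univ]; exact hΩ.measure_lt_top⟩
  obtain ⟨C, hC⟩ := hΩ.isCompact_closure.exists_bound_of_continuousOn hu.continuousOn
  refine MemLp.of_bound hu.aestronglyMeasurable.restrict C ?_
  have : ∀ᵐ x ∂(volume.restrict (closure Ω)), ‖u x‖ ≤ C := by
    rw [ae_restrict_iff' isClosed_closure.measurableSet]
    exact Eventually.of_forall hC
  exact ae_restrict_of_ae_restrict_of_subset subset_closure this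

lemma InW2.of_contDiff {Ω : Set (E n)} (hΩ : IsOpen Ω) (hb : Bornology.IsBounded Ω)
    {u : E n → F} (hu : ContDiff ℝ 2 u) (q : ℝ≥0∞) : InW2 Ω q u (pd u) (pd2 u) :=
  ⟨memLp_of_continuous hb hu.continuous q,
    fun i => memLp_of_continuous hb (pd_contDiff hu i).continuous q,
    fun i j => memLp_of_continuous hb (pd2_continuous hu i j) q,
    fun i => pd_weak hΩ hu.contDiffOn i, fun i j => pd2_weak hΩ hu.contDiffOn i j⟩

/-- The weak derivatives of a map of class `C^2` are the classical ones. -/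
lemma InW2.ae_eq [CompleteSpace F] {Ω : Set (E n)} (hΩ : IsOpen Ω) {q : ℝ≥0∞} (hq : 1 ≤ q)
    {u : E n → F} {Du : Fin n → E n → F} {D2u : Fin n → Fin n → E n → F}
    (hu : ContDiffOn ℝ 2 u Ω) (h : InW2 Ω q u Du D2u) :
    (∀ i, ∀ᵐ x, x ∈ Ω → Du i x = pd u i x) ∧
      ∀ i j, ∀ᵐ x, x ∈ Ω → D2u i j x = pd2 u i j x := by
  have h1 : ∀ i, ∀ᵐ x, x ∈ Ω → Du i x = pd u i x := fun i =>
    (h.weak i).unique hΩ (pd_weak hΩ hu i) (locallyIntegrableOn_of_memLp hq (h.memLp_D i))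
      ((pd_contDiffOn hΩ hu i).continuousOn.locallyIntegrableOn hΩ.measurableSet)
  refine ⟨h1, fun i j => ?_⟩
  have h2 : IsWeakPartial Ω j (pd u i) (D2u i j) :=
    (h.weak2 i j).congr_ae (h1 i) (Eventually.of_forall fun x _ => rfl)
  exact h2.unique hΩ (pd2_weak hΩ hu i j) (locallyIntegrableOn_of_memLp hq (h.memLp_D2 i j))
    ((pd2_continuousOn hΩ hu i j).locallyIntegrableOn hΩ.measurableSet)

lemma ae_restrict_of_imp {Ω : Set (E n)} (hΩ : MeasurableSet Ω) {P : E n → Prop}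
    (h : ∀ᵐ x, x ∈ Ω → P x) : ∀ᵐ x ∂(volume.restrict Ω), P x := by
  rwa [ae_restrict_iff' hΩ]

lemma W2norm_congr {Ω : Set (E n)} (hΩ : MeasurableSet Ω) {q : ℝ≥0∞} {u u' : E n → F}
    {Du Du' : Fin n → E n → F} {D2u D2u' : Fin n → Fin n → E n → F}
    (h0 : ∀ᵐ x, x ∈ Ω → u x = u' x) (h1 : ∀ i, ∀ᵐ x, x ∈ Ω → Du i x = Du' i x)
    (h2 : ∀ i j, ∀ᵐ x, x ∈ Ω → D2u i j x = D2u' i j x) :
    W2norm Ω q u Du D2u = W2norm Ω q u' Du' D2u' := by
  rw [W2norm_def, W2norm_def]
  congr 1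
  · congr 1
    · exact eLpNorm_congr_ae (ae_restrict_of_imp hΩ h0)
    · exact Finset.sum_congr rfl fun i _ => eLpNorm_congr_ae (ae_restrict_of_imp hΩ (h1 i))
  · exact Finset.sum_congr rfl fun i _ => Finset.sum_congr rfl fun j _ =>
      eLpNorm_congr_ae (ae_restrict_of_imp hΩ (h2 i j))

lemma W2norm_mono {Ω Ω' : Set (E n)} (h : Ω' ⊆ Ω) {q : ℝ≥0∞} {u : E n → F}
    {Du : Fin n → E n → F} {D2u : Fin n → Fin n → E n → F} :
    W2norm Ω' q u Du D2u ≤ W2norm Ω q u Du D2u := by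
  rw [W2norm_def, W2norm_def]
  gcongr

/-- The operator norm is at most the sum of the norms of the columns. -/
lemma norm_clm_le_sum (A : E n →L[ℝ] F) : ‖A‖ ≤ ∑ i, ‖A (bv i)‖ := by
  refine A.opNorm_le_bound (Finset.sum_nonneg fun i _ => norm_nonneg _) fun v => ?_
  have hv : v = ∑ i, v i • (bv i : E n) := by
    have := (EuclideanSpace.basisFun (Fin n) ℝ).sum_repr v
    simpa [bv] using this.symm
  conv_lhs => rw [hv, map_sum]
  rw [Finset.sum_mul]
  refine (norm_sum_le _ _).trans (Finset.sum_le_sum fun i _ => ?_)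
  rw [map_smul, norm_smul, mul_comm]
  gcongr
  exact PiLp.norm_apply_le v i

lemma eLpNorm_fderiv_le_sum {Ω : Set (E n)} {q : ℝ≥0∞} (hq : 1 ≤ q) {w : E n → F}
    (hw : ∀ i, AEStronglyMeasurable (pd w i) (volume.restrict Ω)) :
    eLpNorm (fderiv ℝ w) q (volume.restrict Ω) ≤
      ∑ i, eLpNorm (pd w i) q (volume.restrict Ω) := by
  calc eLpNorm (fderiv ℝ w) q (volume.restrict Ω)
      ≤ eLpNorm (∑ i, fun x => ‖pd w i x‖) q (volume.restrict Ω) := by
        refine eLpNorm_mono fun x => ?_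
        have := norm_clm_le_sum (fderiv ℝ w x)
        rw [Finset.sum_apply]
        exact this.trans (le_abs_self _)
    _ ≤ ∑ i, eLpNorm (fun x => ‖pd w i x‖) q (volume.restrict Ω) :=
        eLpNorm_sum_le (fun i _ => (hw i).norm) hq
    _ = _ := Finset.sum_congr rfl fun i _ => eLpNorm_norm _

/-- Morrey's bound for the first derivatives. -/
theorem morreyC1 [CompleteSpace F] {q : ℝ≥0∞} (hn : 1 ≤ n) (hq : (n : ℝ≥0∞) < q) (hq' : q ≠ ∞)
    {ρ : ℝ} (hρ : 0 < ρ) :
    ∃ C : ℝ≥0∞, C ≠ ∞ ∧ ∀ (w : E n → F) (x : E n), ContDiffOn ℝ 2 w (ball x ρ) →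
      ‖w x‖ₑ ≤ C * W2norm (ball x ρ) q w (pd w) (pd2 w) ∧
      ‖fderiv ℝ w x‖ₑ ≤ C * W2norm (ball x ρ) q w (pd w) (pd2 w) := by
  obtain ⟨C, hC, hM⟩ := morrey (F := F) hn hq hq' hρ
  have hq1 : 1 ≤ q := le_trans (by exact_mod_cast hn) hq.le
  refine ⟨C * (1 + n), ENNReal.mul_ne_top hC (by simp), fun w x hw => ?_⟩
  have hcb : ∀ i, ContDiffOn ℝ 1 (pd w i) (ball x ρ) := pd_contDiffOn isOpen_ball hw
  have meas1 : ∀ i, AEStronglyMeasurable (pd w i) (volume.restrict (ball x ρ)) := fun i =>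
    (hcb i).continuousOn.aestronglyMeasurable measurableSet_ball
  have meas2 : ∀ i j, AEStronglyMeasurable (pd2 w i j) (volume.restrict (ball x ρ)) :=
    fun i j => (pd2_continuousOn isOpen_ball hw i j).aestronglyMeasurable measurableSet_ball
  have hd : ∀ {v : E n → F}, ContDiffOn ℝ 1 v (ball x ρ) → ∀ z ∈ ball x ρ,
      DifferentiableAt ℝ v z := fun hv z hz =>
    (hv.contDiffAt (isOpen_ball.mem_nhds hz)).differentiableAt (by norm_num)
  set N := W2norm (ball x ρ) q w (pd w) (pd2 w) with hN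
  have b0 : ‖w x‖ₑ ≤ C * N := by
    refine (hM w x (hd (hw.of_le (by norm_num)))
      (hw.continuousOn_fderiv_of_isOpen isOpen_ball (by norm_num))).trans ?_
    gcongr
    rw [hN]
    rw [W2norm_def]
    refine le_trans ?_ le_self_add
    gcongr
    exact eLpNorm_fderiv_le_sum hq1 meas1
  have b1 : ∀ i, ‖pd w i x‖ₑ ≤ C * N := by
    intro i
    refine (hM (pd w i) x (hd (hcb i))
      ((hcb i).continuousOn_fderiv_of_isOpen isOpen_ball (by norm_num))).trans ?_
    gcongr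
    rw [hN]
    rw [W2norm_def]
    have e1 : eLpNorm (pd w i) q (volume.restrict (ball x ρ)) ≤
        ∑ i, eLpNorm (pd w i) q (volume.restrict (ball x ρ)) :=
      Finset.single_le_sum (f := fun i => eLpNorm (pd w i) q (volume.restrict (ball x ρ)))
        (fun _ _ => zero_le) (Finset.mem_univ i)
    have e2 : eLpNorm (fderiv ℝ (pd w i)) q (volume.restrict (ball x ρ)) ≤
        ∑ i, ∑ j, eLpNorm (pd2 w i j) q (volume.restrict (ball x ρ)) := by
      refine (eLpNorm_fderiv_le_sum hq1 (w := pd w i) (meas2 i)).trans ?_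
      exact Finset.single_le_sum
        (f := fun i => ∑ j, eLpNorm (pd2 w i j) q (volume.restrict (ball x ρ)))
        (fun _ _ => zero_le) (Finset.mem_univ i)
    exact add_le_add (e1.trans le_add_self) e2
  constructor
  · refine b0.trans ?_
    rw [mul_assoc]
    gcongr
    calc N = 1 * N := (one_mul _).symm
      _ ≤ (1 + n) * N := by gcongr; exact le_self_add
  · have : ‖fderiv ℝ w x‖ₑ ≤ ∑ i, ‖pd w i x‖ₑ := by
      have h1 := norm_clm_le_sum (fderiv ℝ w x)
      have h2 : ‖fderiv ℝ w x‖ₑ ≤ ENNReal.ofReal (∑ i, ‖pd w i x‖) := by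
        rw [← ofReal_norm]
        exact ENNReal.ofReal_le_ofReal h1
      rw [ENNReal.ofReal_sum_of_nonneg (fun i _ => norm_nonneg _)] at h2
      simpa only [ofReal_norm] using h2
    refine this.trans ?_
    calc ∑ i, ‖pd w i x‖ₑ ≤ ∑ _i : Fin n, C * N := Finset.sum_le_sum fun i _ => b1 i
      _ = n * (C * N) := by simp
      _ ≤ (1 + n) * (C * N) := by gcongr; exact le_add_self
      _ = C * (1 + n) * N := by ring

/-- norm of a function with bounded derivatives on a set of finite measure. -/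
lemma W2norm_le_of_bound {Ω : Set (E n)} (hΩ : MeasurableSet Ω) {q : ℝ≥0∞} {u : E n → F}
    {Du : Fin n → E n → F} {D2u : Fin n → Fin n → E n → F} {M : ℝ}
    (h0 : ∀ x ∈ Ω, ‖u x‖ ≤ M) (h1 : ∀ i, ∀ x ∈ Ω, ‖Du i x‖ ≤ M)
    (h2 : ∀ i j, ∀ x ∈ Ω, ‖D2u i j x‖ ≤ M) :
    W2norm Ω q u Du D2u ≤ (1 + n + n * n) * (volume Ω ^ q.toReal⁻¹ * ENNReal.ofReal M) := by
  have key : ∀ v : E n → F, (∀ x ∈ Ω, ‖v x‖ ≤ M) →
      eLpNorm v q (volume.restrict Ω) ≤ volume Ω ^ q.toReal⁻¹ * ENNReal.ofReal M := by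
    intro v hv
    have := eLpNorm_le_of_ae_bound (p := q) (μ := volume.restrict Ω) (f := v) (C := M)
      (by rw [ae_restrict_iff' hΩ]; exact Eventually.of_forall hv)
    rwa [Measure.restrict_apply_univ] at this
  rw [W2norm_def]
  set B := volume Ω ^ q.toReal⁻¹ * ENNReal.ofReal M
  calc _ ≤ B + ∑ _i : Fin n, B + ∑ _i : Fin n, ∑ _j : Fin n, B := by
        refine add_le_add (add_le_add (key _ h0) (Finset.sum_le_sum fun i _ => key _ (h1 i)))
          (Finset.sum_le_sum fun i _ => Finset.sum_le_sum fun j _ => key _ (h2 i j))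
    _ = _ := by
        simp only [Finset.sum_const, Finset.card_univ, Fintype.card_fin, nsmul_eq_mul]
        ring

end Run7.h7
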