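import Mathlib
import Pool.Agent.Run7.h7.Defs
import Pool.Agent.Run7.h7.Basic
import Pool.Agent.Run7.h7.Weak

/-!
Mollification.
-/

open MeasureTheory Filter Set Metric ContinuousLinearMap
open scoped ENNReal Topology ContDiff Convolution

namespace Run7.h7

variable {n : ℕ} {F : Type*} [NormedAddCommGroup F] [NormedSpace ℝ F] [CompleteSpace F]

/-- the mollifiers -/
noncomputable def rho (n k : ℕ) : ContDiffBump (0 : E n) where
  rIn := 1 / (2 * (k + 1))
  rOut := 1 / (k + 1)
  rIn_pos := by positivity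
  rIn_lt_rOut := by
    apply div_lt_div_of_pos_left one_pos (by positivity)
    have : (0 : ℝ) ≤ k := Nat.cast_nonneg k
    linarith

lemma rho_rOut (n k : ℕ) : (rho n k).rOut = 1 / (k + 1) := rfl

/-- mollification -/
noncomputable def mo (k : ℕ) (g : E n → F) : E n → F :=
  (rho n k).normed volume ⋆[lsmul ℝ ℝ, volume] g

lemma mo_apply (k : ℕ) (g : E n → F) (x : E n) :
    mo k g x = ∫ y, (rho n k).normed volume y • g (x - y) := rfl

lemma mo_contDiff {g : E n → F} (hg : LocallyIntegrable g) (k : ℕ) :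
    ContDiff ℝ ∞ (mo k g) :=
  (rho n k).hasCompactSupport_normed.contDiff_convolution_left _ (rho n k).contDiff_normed hg

lemma mo_support (k : ℕ) (g : E n → F) :
    Function.support (mo k g) ⊆ cthickening (1 / (k + 1)) (tsupport g) := by
  refine (support_convolution_subset _).trans ?_
  rw [(rho n k).support_normed_eq]
  rintro _ ⟨a, ha, b, hb, rfl⟩
  refine mem_cthickening_of_dist_le (a + b) b _ _ (subset_tsupport g hb) ?_
  rw [dist_eq_norm, add_sub_cancel_right]
  rw [mem_ball_zero_iff, rho_rOut] at ha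
  exact ha.le

lemma mo_close {g : E n → F} (hg : Continuous g) (hc : HasCompactSupport g) {ε : ℝ}
    (hε : 0 < ε) : ∀ᶠ k in atTop, ∀ x, ‖mo k g x - g x‖ ≤ ε := by
  have huc := hc.uniformContinuous_of_continuous hg
  obtain ⟨δ, hδ, hδ'⟩ := Metric.uniformContinuous_iff.1 huc ε hε
  have h1 : Tendsto (fun k : ℕ => 1 / ((k : ℝ) + 1)) atTop (𝓝 0) :=
    tendsto_one_div_add_atTop_nhds_zero_nat
  filter_upwards [(tendsto_order.1 h1).2 δ hδ] with k hk x
  rw [← dist_eq_norm]
  refine (rho n k).dist_normed_convolution_le hg.aestronglyMeasurable (fun y hy => ?_)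
  rw [mem_ball, rho_rOut] at hy
  exact (hδ' (hy.trans hk)).le

lemma mo_fderiv {g : E n → F} (hg : ContDiff ℝ 1 g) (hc : HasCompactSupport g) (k : ℕ)
    (x v : E n) :
    fderiv ℝ (mo k g) x v = mo k (fun y => fderiv ℝ g y v) x := by
  have hloc : LocallyIntegrable ((rho n k).normed volume) (volume : Measure (E n)) :=
    (rho n k).continuous_normed.locallyIntegrable
  have h1 := hc.hasFDerivAt_convolution_right (lsmul ℝ ℝ) (μ := (volume : Measure (E n)))
    (f := (rho n k).normed volume) hloc hg x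
  have h2 : fderiv ℝ (mo k g) x = _ := h1.fderiv
  rw [h2, convolution_precompR_apply]
  · rfl
  · exact hloc
  · exact hc.fderiv ℝ
  · exact hg.continuous_fderiv (by simp)

/-- the derivative of the mollification of a function with a weak derivative on the whole
space. -/
lemma mo_fderiv_weak {g g' : E n → F} {i : Fin n} (h : IsWeakPartial univ i g g')
    (hg : LocallyIntegrable g) (k : ℕ) (x : E n) :
    fderiv ℝ (mo k g) x (bv i) = mo k g' x := by
  set r : E n → ℝ := (rho n k).normed volume with hr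
  have hrs : ContDiff ℝ ∞ r := (rho n k).contDiff_normed
  have hrc : HasCompactSupport r := (rho n k).hasCompactSupport_normed
  have h1 := hrc.hasFDerivAt_convolution_left (lsmul ℝ ℝ) (μ := (volume : Measure (E n)))
    (hrs.of_le (by simp)) hg x
  have h2 : fderiv ℝ (mo k g) x = _ := h1.fderiv
  have hdr : Continuous (fderiv ℝ r) := hrs.continuous_fderiv (by simp)
  have hex : ConvolutionExistsAt (fderiv ℝ r) g x ((lsmul ℝ ℝ).precompL (E n)) volume :=
    (hrc.fderiv ℝ).convolutionExists_left _ hdr hg x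
  have h3 : fderiv ℝ (mo k g) x (bv i) = ∫ y, fderiv ℝ r (x - y) (bv i) • g y := by
    rw [h2, convolution_eq_swap]
    have hint : Integrable (fun t => ((lsmul ℝ ℝ).precompL (E n) (fderiv ℝ r (x - t))) (g t)) :=
      hex.integrable_swap
    rw [ContinuousLinearMap.integral_apply hint]
    rfl
  rw [h3, mo_apply]
  -- the test function
  have hφ : IsTest univ (fun y => r (x - y)) := by
    refine ⟨hrs.comp (contDiff_const.sub contDiff_id), ?_, subset_univ _⟩
    exact hrc.comp_homeomorph (Homeomorph.subLeft x)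
  have h4 := h _ hφ
  have h5 : ∀ y, fderiv ℝ (fun y => r (x - y)) y (bv i) = -fderiv ℝ r (x - y) (bv i) := by
    intro y
    have e1 : HasFDerivAt (fun y : E n => x - y) (-ContinuousLinearMap.id ℝ (E n)) y :=
      (hasFDerivAt_id y).const_sub x
    have e2 : HasFDerivAt r (fderiv ℝ r (x - y)) (x - y) :=
      (hrs.differentiable (by simp) _).hasFDerivAt
    have e3 := e2.comp y e1
    have e4 : fderiv ℝ (fun y => r (x - y)) y = _ := e3.fderiv
    rw [e4]
    simp
  simp only [h5, neg_smul, integral_neg, neg_inj] at h4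
  rw [h4, ← integral_sub_left_eq_self (fun y => r y • g' (x - y)) volume x]
  simp

/-- Young's inequality for the mollifiers. -/
lemma mo_eLpNorm_le {g : E n → F} {q : ℝ≥0∞} (hq : 1 ≤ q) (hq' : q ≠ ⊤)
    (hg : AEStronglyMeasurable g) (k : ℕ) : eLpNorm (mo k g) q ≤ eLpNorm g q := by
  set r : E n → ℝ := (rho n k).normed volume with hr
  have hr0 : ∀ y, 0 ≤ r y := (rho n k).nonneg_normed
  have hr1 : ∫ y, r y = 1 := (rho n k).integral_normed
  have hrc : Continuous r := (rho n k).continuous_normed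
  have hri : Integrable r := hrc.integrable_of_hasCompactSupport (rho n k).hasCompactSupport_normed
  set w : E n → ℝ≥0∞ := fun y => ENNReal.ofReal (r y) with hw
  have hwm : Measurable w := hrc.measurable.ennreal_ofReal
  have hw1 : ∫⁻ y, w y = 1 := by
    rw [hw, ← ofReal_integral_eq_lintegral_ofReal hri (Eventually.of_forall hr0), hr1,
      ENNReal.ofReal_one]
  set μ : Measure (E n) := volume.withDensity w with hμ
  have hμp : IsProbabilityMeasure μ := ⟨by rw [hμ, withDensity_apply _ MeasurableSet.univ,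
    Measure.restrict_univ, hw1]⟩
  have hq0 : q ≠ 0 := (lt_of_lt_of_le one_pos hq).ne'
  have hqr : 0 < q.toReal := ENNReal.toReal_pos hq0 hq'
  have hmeas : ∀ x, AEMeasurable (fun y => ‖g (x - y)‖ₑ) volume := fun x =>
    (hg.comp_quasiMeasurePreserving
      (quasiMeasurePreserving_sub_left_of_right_invariant volume x)).enorm
  have hmeasμ : ∀ x, AEMeasurable (fun y => ‖g (x - y)‖ₑ) μ := fun x =>
    (hmeas x).mono_ac (withDensity_absolutelyContinuous _ _)
  have step : ∀ x, ‖mo k g x‖ₑ ^ q.toReal ≤ ∫⁻ y, w y * ‖g (x - y)‖ₑ ^ q.toReal := by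
    intro x
    have e1 : ‖mo k g x‖ₑ ≤ ∫⁻ y, ‖g (x - y)‖ₑ ∂μ := by
      rw [hμ, lintegral_withDensity_eq_lintegral_mul₀ hwm.aemeasurable (hmeas x)]
      rw [mo_apply]
      refine (enorm_integral_le_lintegral_enorm _).trans (lintegral_mono fun y => ?_)
      rw [enorm_smul, Pi.mul_apply, hw, Real.enorm_of_nonneg (hr0 y)]
    have e2 : ∫⁻ y, ‖g (x - y)‖ₑ ∂μ ≤ (∫⁻ y, ‖g (x - y)‖ₑ ^ q.toReal ∂μ) ^ (1 / q.toReal) := by
      have := eLpNorm_le_eLpNorm_of_exponent_le hq (μ := μ) (f := fun y => ‖g (x - y)‖ₑ)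
        (hmeasμ x).aestronglyMeasurable
      rw [eLpNorm_one_eq_lintegral_enorm, eLpNorm_eq_lintegral_rpow_enorm_toReal hq0 hq'] at this
      simpa only [enorm_eq_self] using this
    calc ‖mo k g x‖ₑ ^ q.toReal
        ≤ ((∫⁻ y, ‖g (x - y)‖ₑ ^ q.toReal ∂μ) ^ (1 / q.toReal)) ^ q.toReal := by
          gcongr; exact e1.trans e2
      _ = ∫⁻ y, ‖g (x - y)‖ₑ ^ q.toReal ∂μ := by
          rw [← ENNReal.rpow_mul, one_div, inv_mul_cancel₀ hqr.ne', ENNReal.rpow_one]
      _ = ∫⁻ y, w y * ‖g (x - y)‖ₑ ^ q.toReal := by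
          rw [hμ, lintegral_withDensity_eq_lintegral_mul₀ hwm.aemeasurable
            ((hmeas x).pow_const _)]
          rfl
  rw [eLpNorm_eq_lintegral_rpow_enorm_toReal hq0 hq', eLpNorm_eq_lintegral_rpow_enorm_toReal hq0 hq']
  gcongr ?_ ^ (1 / q.toReal)
  have hjoint : AEMeasurable (fun p : E n × E n => w p.2 * ‖g (p.1 - p.2)‖ₑ ^ q.toReal)
      (volume.prod volume) := by
    refine AEMeasurable.mul (hwm.comp measurable_snd).aemeasurable ?_
    refine AEMeasurable.pow_const ?_ _
    exact (hg.comp_quasiMeasurePreserving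
      (quasiMeasurePreserving_sub_of_right_invariant volume volume)).enorm
  calc ∫⁻ x, ‖mo k g x‖ₑ ^ q.toReal ≤ ∫⁻ x, ∫⁻ y, w y * ‖g (x - y)‖ₑ ^ q.toReal :=
        lintegral_mono step
    _ = ∫⁻ y, ∫⁻ x, w y * ‖g (x - y)‖ₑ ^ q.toReal := lintegral_lintegral_swap hjoint
    _ = ∫⁻ y, w y * ∫⁻ x, ‖g x‖ₑ ^ q.toReal := by
        refine lintegral_congr fun y => ?_
        rw [lintegral_const_mul' _ _ ENNReal.ofReal_ne_top]
        congr 1
        exact lintegral_sub_right_eq_self (fun x => ‖g x‖ₑ ^ q.toReal) y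
    _ = ∫⁻ x, ‖g x‖ₑ ^ q.toReal := by
        rw [lintegral_mul_const _ hwm, hw1, one_mul]

lemma mo_sub {g h : E n → F} (hg : LocallyIntegrable g) (hh : LocallyIntegrable h) (k : ℕ)
    (x : E n) : mo k (fun y => g y - h y) x = mo k g x - mo k h x := by
  have hex : ∀ {g : E n → F}, LocallyIntegrable g →
      Integrable (fun y => (rho n k).normed volume y • g (x - y)) := by
    intro g hg
    exact ((rho n k).hasCompactSupport_normed.convolutionExists_left (lsmul ℝ ℝ)
      (rho n k).continuous_normed hg x).integrable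
  rw [mo_apply, mo_apply, mo_apply, ← integral_sub (hex hg) (hex hh)]
  simp only [smul_sub]

/-- Mollifications converge in `L^q`. -/
theorem mo_tendsto {g : E n → F} {q : ℝ≥0∞} (hq : 1 ≤ q) (hq' : q ≠ ⊤) (hg : MemLp g q) :
    Tendsto (fun k => eLpNorm (fun x => mo k g x - g x) q) atTop (𝓝 0) := by
  rw [ENNReal.tendsto_nhds_zero]
  intro ε hε
  have hε3 : ε / 3 ≠ 0 := (ENNReal.div_pos hε.ne' (by simp)).ne'
  obtain ⟨h, hc, hgh, hcont, hmem⟩ := hg.exists_hasCompactSupport_eLpNorm_sub_le hq' hε3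
  set K : Set (E n) := cthickening 1 (tsupport h) with hK
  have hKc : IsCompact K := hc.isCompact.cthickening
  have hvol : volume K ^ q.toReal⁻¹ ≠ ⊤ :=
    ENNReal.rpow_ne_top_of_nonneg (by positivity) hKc.measure_lt_top.ne
  obtain ⟨η, hη, hηε⟩ : ∃ η : ℝ, 0 < η ∧ volume K ^ q.toReal⁻¹ * ENNReal.ofReal η ≤ ε / 3 := by
    have h1 : Tendsto (fun t : ℝ => volume K ^ q.toReal⁻¹ * ENNReal.ofReal t) (𝓝[>] 0)
        (𝓝 0) := by
      have h2 : Tendsto (fun t : ℝ => ENNReal.ofReal t) (𝓝[>] 0) (𝓝 0) := by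
        have := (ENNReal.continuous_ofReal.tendsto (0 : ℝ)).mono_left
          (nhdsWithin_le_nhds (s := Ioi 0))
        simpa using this
      simpa using ENNReal.Tendsto.const_mul h2 (Or.inr hvol)
    have h3 := (ENNReal.tendsto_nhds_zero.1 h1) (ε / 3) (pos_iff_ne_zero.2 hε3)
    obtain ⟨t, ht1, ht2⟩ := (h3.and self_mem_nhdsWithin).exists
    exact ⟨t, ht2, ht1⟩
  filter_upwards [mo_close hcont hc hη] with k hk
  have hgl : LocallyIntegrable g := hg.locallyIntegrable hq
  have hhl : LocallyIntegrable h := hcont.locallyIntegrable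
  have hsplit : (fun x => mo k g x - g x) =
      (mo k (fun y => g y - h y)) + ((fun x => mo k h x - h x) + fun x => h x - g x) := by
    ext1 x
    simp only [Pi.add_apply]
    rw [mo_sub hgl hhl]
    abel
  have m1 : AEStronglyMeasurable (mo k (fun y => g y - h y)) :=
    (mo_contDiff (hgl.sub hhl) k).continuous.aestronglyMeasurable
  have m2 : AEStronglyMeasurable (fun x => mo k h x - h x) :=
    ((mo_contDiff hhl k).continuous.sub hcont).aestronglyMeasurable
  have m3 : AEStronglyMeasurable (fun x => h x - g x) :=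
    hcont.aestronglyMeasurable.sub hg.1
  have b1 : eLpNorm (mo k (fun y => g y - h y)) q ≤ ε / 3 :=
    (mo_eLpNorm_le hq hq' (hg.1.sub hcont.aestronglyMeasurable) k).trans hgh
  have b3 : eLpNorm (fun x => h x - g x) q ≤ ε / 3 := by
    have : eLpNorm (fun x => h x - g x) q = eLpNorm (g - h) q := by
      rw [eLpNorm_sub_comm]; rfl
    rw [this]; exact hgh
  have b2 : eLpNorm (fun x => mo k h x - h x) q ≤ ε / 3 := by
    have hs : Function.support (fun x => mo k h x - h x) ⊆ K := by
      intro x hx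
      by_contra hxK
      apply hx
      have h1 : mo k h x = 0 := by
        by_contra h2
        have := mo_support k h h2
        refine hxK (cthickening_mono ?_ _ this)
        rw [div_le_one (by positivity)]
        have : (0 : ℝ) ≤ k := Nat.cast_nonneg k
        linarith
      have h2 : h x = 0 := by
        by_contra h3
        exact hxK (self_subset_cthickening _ (subset_tsupport h h3))
      simp [h1, h2]
    rw [← eLpNorm_restrict_eq_of_support_subset hs]
    refine le_trans (eLpNorm_le_of_ae_bound (C := η) (Eventually.of_forall hk)) ?_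
    rwa [Measure.restrict_apply_univ]
  have c1 := eLpNorm_add_le m1 (m2.add m3) hq
  have c2 := eLpNorm_add_le m2 m3 hq
  rw [← hsplit] at c1
  have c3 := c1.trans (add_le_add b1 (c2.trans (add_le_add b2 b3)))
  refine c3.trans (le_of_eq ?_)
  rw [← add_assoc]
  exact ENNReal.add_thirds ε

end Run7.h7
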