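import Mathlib
import Pool.Agent.Run7.h7.Defs
import Pool.Agent.Run7.h7.Basic
import Pool.Agent.Run7.h7.Weak
import Pool.Agent.Run7.h7.Smooth2
import Pool.Agent.Run7.h7.Moll

/-!
Weak derivatives: test functions of class `C^1`, product rule, linear images.
-/

open MeasureTheory Filter Set Metric ContinuousLinearMap
open scoped ENNReal Topology ContDiff

namespace Run7.h7

variable {n : ℕ} {F : Type*} [NormedAddCommGroup F] [NormedSpace ℝ F] [CompleteSpace F]

lemma integrable_smul_of_locallyIntegrableOn {Ω K : Set (E n)} {a : E n → ℝ} {u : E n → F}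
    (hK : IsCompact K) (hKΩ : K ⊆ Ω) (ha : Continuous a) (haK : Function.support a ⊆ K)
    (hu : LocallyIntegrableOn u Ω) : Integrable (fun x => a x • u x) := by
  have h1 : IntegrableOn u K := hu.integrableOn_compact_subset hKΩ hK
  have h2 : IntegrableOn (fun x => a x • u x) K := h1.continuousOn_smul ha.continuousOn hK
  refine (integrableOn_iff_integrable_of_support_subset ?_).1 h2
  intro x hx
  apply haK
  simp only [Function.mem_support, ne_eq] at hx ⊢
  intro h
  exact hx (by rw [h, zero_smul])

/-- Test functions of class `C^1` are allowed. -/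
theorem IsWeakPartial.test_C1 {Ω : Set (E n)} (hΩ : IsOpen Ω) {i : Fin n} {u v : E n → F}
    (h : IsWeakPartial Ω i u v) (iu : LocallyIntegrableOn u Ω) (iv : LocallyIntegrableOn v Ω)
    {φ : E n → ℝ} (hφ : ContDiff ℝ 1 φ) (hc : HasCompactSupport φ) (hs : tsupport φ ⊆ Ω) :
    ∫ x, fderiv ℝ φ x (bv i) • u x = -∫ x, φ x • v x := by
  obtain ⟨δ, hδ, hδΩ⟩ := hc.isCompact.exists_cthickening_subset_open hΩ hs
  set K : Set (E n) := cthickening δ (tsupport φ) with hK
  have hKc : IsCompact K := hc.isCompact.cthickening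
  have hKm : MeasurableSet K := isClosed_cthickening.measurableSet
  set dφ : E n → ℝ := fun x => fderiv ℝ φ x (bv i) with hdφ
  have hdφc : Continuous dφ := (hφ.continuous_fderiv (by simp)).clm_apply continuous_const
  have hdφs : HasCompactSupport dφ :=
    (hc.fderiv ℝ).comp_left (g := fun L : E n →L[ℝ] ℝ => L (bv i)) (by simp)
  have hdφt : tsupport dφ ⊆ tsupport φ :=
    closure_minimal (support_fderiv_apply_subset _) (isClosed_tsupport φ)
  have hev : ∀ᶠ k : ℕ in atTop, 1 / ((k : ℝ) + 1) ≤ δ := by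
    have := tendsto_one_div_add_atTop_nhds_zero_nat (𝕜 := ℝ)
    exact ((tendsto_order.1 this).2 δ hδ).mono fun k hk => hk.le
  -- convergence of the integrals
  have key : ∀ (ψ : E n → ℝ) (w : E n → F), Continuous ψ → HasCompactSupport ψ →
      tsupport ψ ⊆ tsupport φ → LocallyIntegrableOn w Ω →
      Tendsto (fun k => ∫ x, mo k ψ x • w x) atTop (𝓝 (∫ x, ψ x • w x)) := by
    intro ψ w hψ hψc hψs hw
    have hwK : IntegrableOn w K := hw.integrableOn_compact_subset hδΩ hKc
    obtain ⟨M, hM⟩ := hψ.bounded_above_of_compact_support hψc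
    refine tendsto_integral_filter_of_dominated_convergence
      (fun x => K.indicator (fun y => (M + 1) * ‖w y‖) x) ?_ ?_ ?_ ?_
    · filter_upwards [hev] with k hk
      refine (integrable_smul_of_locallyIntegrableOn hKc hδΩ
        (mo_contDiff hψ.locallyIntegrable k).continuous ?_ hw).aestronglyMeasurable
      exact (mo_support k ψ).trans (cthickening_mono hk _ |>.trans
        (cthickening_subset_of_subset δ hψs))
    · filter_upwards [hev, mo_close hψ hψc one_pos] with k hk hk1
      refine Eventually.of_forall fun x => ?_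
      by_cases hx : x ∈ K
      · rw [indicator_of_mem hx, norm_smul]
        gcongr
        have h1 := hk1 x
        have h2 := hM x
        calc ‖mo k ψ x‖ = ‖(mo k ψ x - ψ x) + ψ x‖ := by rw [sub_add_cancel]
          _ ≤ ‖mo k ψ x - ψ x‖ + ‖ψ x‖ := norm_add_le _ _
          _ ≤ M + 1 := by linarith
      · rw [indicator_of_notMem hx]
        have : mo k ψ x = 0 := by
          by_contra h2
          exact hx (cthickening_subset_of_subset δ hψs
            (cthickening_mono hk _ (mo_support k ψ h2)))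
        rw [this, zero_smul, norm_zero]
    · exact (integrable_indicator_iff hKm).2 (hwK.norm.const_mul _)
    · refine Eventually.of_forall fun x => ?_
      refine Tendsto.smul_const ?_ _
      rw [tendsto_iff_norm_sub_tendsto_zero, Metric.tendsto_atTop]
      intro ε hε
      obtain ⟨N, hN⟩ := eventually_atTop.1 (mo_close hψ hψc (half_pos hε))
      refine ⟨N, fun k hk => ?_⟩
      rw [dist_zero_right, norm_norm]
      exact (hN k hk x).trans_lt (half_lt_self hε)
  have e1 := key dφ u hdφc hdφs hdφt iu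
  have e2 := key φ v hφ.continuous hc le_rfl iv
  refine tendsto_nhds_unique e1 ((e2.neg).congr' ?_)
  filter_upwards [hev] with k hk
  have htest : IsTest Ω (mo k φ) := by
    have hsup : Function.support (mo k φ) ⊆ K :=
      (mo_support k φ).trans (cthickening_mono hk _)
    have hts : tsupport (mo k φ) ⊆ K := closure_minimal hsup isClosed_cthickening
    exact ⟨mo_contDiff hφ.continuous.locallyIntegrable k,
      hKc.of_isClosed_subset (isClosed_tsupport _) hts, hts.trans hδΩ⟩
  have h1 := h _ htest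
  rw [← h1]
  congr 1
  ext1 x
  rw [mo_fderiv hφ hc k x (bv i)]

/-- Product rule, with a scalar factor of class `C^1`. -/
theorem IsWeakPartial.smul {Ω : Set (E n)} (hΩ : IsOpen Ω) {j : Fin n} {u u' : E n → F}
    (h : IsWeakPartial Ω j u u') (iu : LocallyIntegrableOn u Ω) (iu' : LocallyIntegrableOn u' Ω)
    {a : E n → ℝ} (ha : ContDiffOn ℝ 1 a Ω) :
    IsWeakPartial Ω j (fun x => a x • u x) (fun x => pd a j x • u x + a x • u' x) := by
  rintro φ ⟨hφ, hc, hs⟩
  have hφ1 : ContDiff ℝ 1 φ := hφ.of_le (by simp)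
  -- the product test function
  set ψ : E n → ℝ := fun x => φ x * a x with hψ
  have hψsup : tsupport ψ ⊆ tsupport φ := by
    apply closure_mono
    intro x hx
    simp only [hψ, Function.mem_support, ne_eq, mul_eq_zero, not_or] at hx
    exact hx.1
  have hψ1 : ContDiff ℝ 1 ψ := by
    rw [contDiff_iff_contDiffAt]
    intro x
    by_cases hx : x ∈ tsupport φ
    · exact hφ1.contDiffAt.mul (ha.contDiffAt (hΩ.mem_nhds (hs hx)))
    · have : ψ =ᶠ[𝓝 x] fun _ => 0 := by
        filter_upwards [(isClosed_tsupport φ).isOpen_compl.mem_nhds hx] with y hy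
        simp only [hψ]
        rw [image_eq_zero_of_notMem_tsupport hy, zero_mul]
      exact contDiffAt_const.congr_of_eventuallyEq this
  have hψc : HasCompactSupport ψ := hc.of_isClosed_subset (isClosed_tsupport _) hψsup
  have h1 := h.test_C1 hΩ iu iu' hψ1 hψc (hψsup.trans hs)
  have hder : ∀ x, fderiv ℝ ψ x (bv j) • u x =
      fderiv ℝ φ x (bv j) • (a x • u x) + φ x • (pd a j x • u x) := by
    intro x
    by_cases hx : x ∈ tsupport φ
    · have d1 : DifferentiableAt ℝ φ x := hφ1.contDiffAt.differentiableAt (by simp)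
      have d2 : DifferentiableAt ℝ a x :=
        (ha.contDiffAt (hΩ.mem_nhds (hs hx))).differentiableAt (by simp)
      have : fderiv ℝ ψ x = φ x • fderiv ℝ a x + a x • fderiv ℝ φ x := fderiv_fun_mul d1 d2
      rw [this]
      simp only [add_apply, smul_apply, smul_eq_mul, add_smul, mul_smul, pd]
      rw [add_comm]
      congr 1
      rw [smul_comm]
    · have e1 : fderiv ℝ ψ x (bv j) = 0 := by
        by_contra h'
        exact hx (hψsup (support_fderiv_apply_subset (bv j) h'))
      have e2 : fderiv ℝ φ x (bv j) = 0 := by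
        by_contra h'
        exact hx (support_fderiv_apply_subset (bv j) h')
      rw [e1, e2, image_eq_zero_of_notMem_tsupport hx]
      simp
  -- integrability
  have hac : ContinuousOn a Ω := ha.continuousOn
  have hpa : ContinuousOn (pd a j) Ω :=
    (ha.continuousOn_fderiv_of_isOpen hΩ le_rfl).clm_apply continuousOn_const
  have hau : LocallyIntegrableOn (fun x => a x • u x) Ω := iu.continuousOn_smul hΩ.isLocallyClosed hac
  have hpau : LocallyIntegrableOn (fun x => pd a j x • u x) Ω :=
    iu.continuousOn_smul hΩ.isLocallyClosed hpa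
  have hau' : LocallyIntegrableOn (fun x => a x • u' x) Ω :=
    iu'.continuousOn_smul hΩ.isLocallyClosed hac
  have i1 : Integrable (fun x => fderiv ℝ φ x (bv j) • (a x • u x)) :=
    integrable_smul_of_locallyIntegrableOn hc hs
      ((hφ1.continuous_fderiv (by simp)).clm_apply continuous_const)
      (support_fderiv_apply_subset _) hau
  have i2 : Integrable (fun x => φ x • (pd a j x • u x)) :=
    integrable_smul_of_locallyIntegrableOn hc hs hφ.continuous (subset_tsupport _) hpau
  have i3 : Integrable (fun x => φ x • (a x • u' x)) :=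
    integrable_smul_of_locallyIntegrableOn hc hs hφ.continuous (subset_tsupport _) hau'
  simp only [hder] at h1
  rw [integral_add i1 i2] at h1
  have h2 : ∫ x, ψ x • u' x = ∫ x, φ x • (a x • u' x) := by
    congr 1; ext1 x; simp only [hψ, mul_smul]
  rw [h2] at h1
  simp only [smul_add]
  rw [integral_add i2 i3, neg_add, ← h1]
  abel

lemma IsWeakPartial.add {Ω : Set (E n)} {j : Fin n} {u u' v v' : E n → F}
    (h : IsWeakPartial Ω j u u') (k : IsWeakPartial Ω j v v') (iu : LocallyIntegrableOn u Ω)
    (iu' : LocallyIntegrableOn u' Ω) (iv : LocallyIntegrableOn v Ω)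
    (iv' : LocallyIntegrableOn v' Ω) :
    IsWeakPartial Ω j (fun x => u x + v x) (fun x => u' x + v' x) := by
  rintro φ hφ
  obtain ⟨h1, h2, h3⟩ := hφ
  have hd : Continuous (fun x => fderiv ℝ φ x (bv j)) :=
    (h1.continuous_fderiv (by simp)).clm_apply continuous_const
  simp only [smul_add]
  rw [integral_add (integrable_smul_of_locallyIntegrableOn h2 h3 hd
      (support_fderiv_apply_subset _) iu)
    (integrable_smul_of_locallyIntegrableOn h2 h3 hd (support_fderiv_apply_subset _) iv),
    integral_add (integrable_smul_of_locallyIntegrableOn h2 h3 h1.continuous (subset_tsupport _) iu')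
    (integrable_smul_of_locallyIntegrableOn h2 h3 h1.continuous (subset_tsupport _) iv'),
    h φ ⟨h1, h2, h3⟩, k φ ⟨h1, h2, h3⟩, neg_add]

lemma IsWeakPartial.zero {Ω : Set (E n)} {j : Fin n} :
    IsWeakPartial Ω j (fun _ => (0 : F)) (fun _ => 0) := by
  rintro φ -
  simp

lemma IsWeakPartial.sum {ι : Type*} (s : Finset ι) {Ω : Set (E n)} {j : Fin n}
    {u u' : ι → E n → F} (h : ∀ k ∈ s, IsWeakPartial Ω j (u k) (u' k))
    (iu : ∀ k ∈ s, LocallyIntegrableOn (u k) Ω) (iu' : ∀ k ∈ s, LocallyIntegrableOn (u' k) Ω) :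
    IsWeakPartial Ω j (fun x => ∑ k ∈ s, u k x) (fun x => ∑ k ∈ s, u' k x) := by
  rintro φ ⟨h1, h2, h3⟩
  have hd : Continuous (fun x => fderiv ℝ φ x (bv j)) :=
    (h1.continuous_fderiv (by simp)).clm_apply continuous_const
  simp only [Finset.smul_sum]
  rw [integral_finsetSum _ fun k hk => integrable_smul_of_locallyIntegrableOn h2 h3 hd
      (support_fderiv_apply_subset _) (iu k hk),
    integral_finsetSum _ fun k hk => integrable_smul_of_locallyIntegrableOn h2 h3
      h1.continuous (subset_tsupport _) (iu' k hk), ← Finset.sum_neg_distrib]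
  exact Finset.sum_congr rfl fun k hk => h k hk φ ⟨h1, h2, h3⟩

/-- images under continuous linear maps -/
lemma IsWeakPartial.clm {G : Type*} [NormedAddCommGroup G] [NormedSpace ℝ G] [CompleteSpace G]
    {Ω : Set (E n)} {j : Fin n} {u u' : E n → F} (h : IsWeakPartial Ω j u u')
    (iu : LocallyIntegrableOn u Ω) (iu' : LocallyIntegrableOn u' Ω) (T : F →L[ℝ] G) :
    IsWeakPartial Ω j (fun x => T (u x)) (fun x => T (u' x)) := by
  rintro φ ⟨h1, h2, h3⟩
  have hd : Continuous (fun x => fderiv ℝ φ x (bv j)) :=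
    (h1.continuous_fderiv (by simp)).clm_apply continuous_const
  have i1 := integrable_smul_of_locallyIntegrableOn h2 h3 hd (support_fderiv_apply_subset _) iu
  have i2 := integrable_smul_of_locallyIntegrableOn h2 h3 h1.continuous (subset_tsupport _) iu'
  simp only [← map_smul]
  rw [T.integral_comp_comm i1, T.integral_comp_comm i2, h φ ⟨h1, h2, h3⟩, map_neg]

/-- scalar functions times a constant vector -/
lemma IsWeakPartial.smul_vec {Ω : Set (E n)} {j : Fin n} {u u' : E n → ℝ}
    (h : IsWeakPartial Ω j u u') (iu : LocallyIntegrableOn u Ω)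
    (iu' : LocallyIntegrableOn u' Ω) (a : F) :
    IsWeakPartial Ω j (fun x => u x • a) (fun x => u' x • a) := by
  have := h.clm iu iu' ((1 : ℝ →L[ℝ] ℝ).smulRight a)
  simpa using this

/-- if a function vanishes outside a closed set, so does its weak derivative. -/
lemma IsWeakPartial.indicator {Ω S : Set (E n)} (hΩ : IsOpen Ω) (hS : IsClosed S) {j : Fin n}
    {u u' : E n → F} (h : IsWeakPartial Ω j u u') (iu' : LocallyIntegrableOn u' Ω)
    (h0 : ∀ x ∈ Ω, x ∉ S → u x = 0) : IsWeakPartial Ω j u (S.indicator u') := by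
  refine h.congr_ae (Eventually.of_forall fun _ _ => rfl) ?_
  have hΩ' : IsOpen (Ω \ S) := hΩ.sdiff hS
  have h1 : IsWeakPartial (Ω \ S) j u u' := h.mono sdiff_subset
  have h2 : IsWeakPartial (Ω \ S) j u (fun _ => 0) := by
    refine (IsWeakPartial.zero (F := F)).congr_ae ?_ (Eventually.of_forall fun _ _ => rfl)
    exact Eventually.of_forall fun x hx => (h0 x hx.1 hx.2).symm
  have h3 := h1.unique hΩ' h2 (iu'.mono_set sdiff_subset)
    ((locallyIntegrable_const (0 : F)).locallyIntegrableOn _)
  filter_upwards [h3] with x hx hxΩ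
  by_cases hxS : x ∈ S
  · rw [indicator_of_mem hxS]
  · rw [indicator_of_notMem hxS, hx ⟨hxΩ, hxS⟩]

/-- smooth cutoffs -/
lemma exists_cutoff {K U : Set (E n)} (hK : IsCompact K) (hU : IsOpen U) (hKU : K ⊆ U) :
    ∃ χ : E n → ℝ, ContDiff ℝ ∞ χ ∧ HasCompactSupport χ ∧ tsupport χ ⊆ U ∧
      (∀ᶠ x in 𝓝ˢ K, χ x = 1) ∧ ∀ x, χ x ∈ Icc (0 : ℝ) 1 := by
  obtain ⟨δ, hδ, hδU⟩ := hK.exists_cthickening_subset_open hU hKU
  have hint : K ⊆ interior (cthickening δ K) := by
    refine (self_subset_thickening hδ K).trans ?_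
    exact interior_maximal (thickening_subset_cthickening δ K) isOpen_thickening
  obtain ⟨f, h1, h0, hf⟩ := exists_contMDiffMap_one_nhds_of_subset_interior
    (n := (⊤ : ℕ∞)) (modelWithCornersSelf ℝ (E n)) hK.isClosed hint
  have hts : tsupport (f : E n → ℝ) ⊆ cthickening δ K := by
    refine closure_minimal ?_ isClosed_cthickening
    intro x hx
    by_contra hx'
    exact hx (h0 x hx')
  refine ⟨f, ?_, hK.cthickening.of_isClosed_subset (isClosed_tsupport _) hts, hts.trans hδU,
    h1, hf⟩
  exact f.contMDiff.contDiff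

omit [CompleteSpace F] in
/-- extension by zero of a weak derivative. -/
lemma IsWeakPartial.extend {Ω K : Set (E n)} (hΩ : IsOpen Ω) (hK : IsCompact K) (hKΩ : K ⊆ Ω)
    {j : Fin n} {u u' : E n → F} (h : IsWeakPartial Ω j u u')
    (h0 : ∀ x, x ∉ K → u x = 0) (h0' : ∀ x, x ∉ K → u' x = 0) :
    IsWeakPartial univ j u u' := by
  rintro φ ⟨h1, h2, -⟩
  obtain ⟨χ, hχs, hχc, hχΩ, hχ1, -⟩ := exists_cutoff hK hΩ hKΩ
  have htest : IsTest Ω (fun x => χ x * φ x) := by
    refine ⟨hχs.mul h1, hχc.mul_right, ?_⟩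
    refine (closure_mono ?_).trans hχΩ
    intro x hx
    simp only [Function.mem_support, ne_eq, mul_eq_zero, not_or] at hx
    exact hx.1
  have key := h _ htest
  have e1 : ∀ x, fderiv ℝ (fun x => χ x * φ x) x (bv j) • u x = fderiv ℝ φ x (bv j) • u x := by
    intro x
    by_cases hx : x ∈ K
    · have h3 : ∀ᶠ y in 𝓝 x, χ y = 1 := (eventually_nhdsSet_iff_forall.1 hχ1) x hx
      have h4 : (fun x => χ x * φ x) =ᶠ[𝓝 x] φ := by
        filter_upwards [h3] with y hy
        rw [hy, one_mul]
      rw [h4.fderiv_eq]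
    · rw [h0 x hx, smul_zero, smul_zero]
  have e2 : ∀ x, (χ x * φ x) • u' x = φ x • u' x := by
    intro x
    by_cases hx : x ∈ K
    · have h3 : ∀ᶠ y in 𝓝 x, χ y = 1 := (eventually_nhdsSet_iff_forall.1 hχ1) x hx
      rw [h3.self_of_nhds, one_mul]
    · rw [h0' x hx, smul_zero, smul_zero]
  simp only [e1, e2] at key
  exact key

end Run7.h7
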