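import Mathlib
import Pool.Agent.Run7.h7.Defs
import Pool.Agent.Run7.h7.Basic
import Pool.Agent.Run7.h7.Smooth2
import Pool.Agent.Run7.h7.WeakC1
import Pool.Agent.Run7.h7.Global
import Pool.Agent.Run7.h7.Perturb
import Pool.Agent.Run7.h7.Fibre
import Pool.Agent.Run7.h7.FibrePert
import Pool.Agent.Run7.h7.FibreChart

/-!
Improvement of a map of class `C^1` with derivatives of corank at most one in a box: no second
derivatives are needed, and the image does not change.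
-/

open MeasureTheory Filter Set Metric
open scoped Topology ContDiff RealInnerProductSpace

namespace Run7.h7

variable {n : ℕ}

section box

variable {Ω : Set (E n)} {v : E n → E n} {a e x0 y0 : E n} {r t1 t2 η c : ℝ}

/-- The image of the perturbed map. -/
theorem Box.image_pert (h : Box Ω v a e x0 y0 r t1 t2 η c) {ς : ℝ} (hς1 : ς = 1 ∨ ς = -1)
    (hς : ∀ z, Pa a z = z → ‖z - y0‖ ≤ η →
      StrictMonoOn (fun t => ς * fib v a e x0 r z t) (Icc (t1 - η) (t2 + η)))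
    {W : ℝ → ℝ} {M : ℝ} (hW : ContDiff ℝ ∞ W) (hM : ∀ t, |deriv W t| ≤ M)
    (hW1 : ∀ t ∈ Icc t1 t2, W t = t ∧ deriv W t = 1)
    (hW0 : ∀ t, t ∉ Ioo (t1 - η) (t2 + η) → W t = 0 ∧ deriv W t = 0)
    {σ : ℝ} (hσ : 0 < σ) (hσM : σ * M < c) {ψ : ℝ → ℝ} (hψI : ∀ s, ψ s ∈ Icc (0 : ℝ) 1)
    (hψ0 : ∀ s, η ^ 2 ≤ s → ψ s = 0) {b : E n → ℝ}
    (hb1 : ∀ x ∈ ball x0 r, b x = ψ (‖Pa a (v x) - y0‖ ^ 2) * W ⟪e, x - x0⟫)
    (hb0 : ∀ x, x ∉ closedBall x0 (r / 2) → b x = 0) :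
    (fun x => v x + (ς * σ * b x) • a) '' Ω = v '' Ω := by
  have ht1 := h.ht1
  have ht2 := h.ht2
  have hη := h.hη
  have hςς : ς * ς = 1 := by rcases hς1 with rfl | rfl <;> norm_num
  have hI : t1 - η ≤ t2 + η := by linarith
  have hout : ∀ x, ¬ (x ∈ ball x0 r ∧ ‖Pa a (v x) - y0‖ ≤ η ∧
      ⟪e, x - x0⟫ ∈ Icc (t1 - η) (t2 + η)) → b x = 0 := by
    intro x hx
    by_cases hxb : x ∈ ball x0 r
    · rw [hb1 x hxb]
      by_cases h1 : ‖Pa a (v x) - y0‖ ≤ η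
      · have h2 : ⟪e, x - x0⟫ ∉ Ioo (t1 - η) (t2 + η) := fun h3 =>
          hx ⟨hxb, h1, Ioo_subset_Icc_self h3⟩
        rw [(hW0 _ h2).1, mul_zero]
      · push Not at h1
        rw [hψ0 _ (by gcongr), zero_mul]
    · refine hb0 x fun h1 => hxb (closedBall_subset_ball (by linarith [h.hr]) h1)
  have hval : ∀ x ∈ ball x0 r, v x + (ς * σ * b x) • a = Pa a (v x) +
      (fib v a e x0 r (Pa a (v x)) ⟪e, x - x0⟫ +
        ς * σ * (ψ (‖Pa a (v x) - y0‖ ^ 2) * W ⟪e, x - x0⟫)) • a := by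
    intro x hx
    have h1 := Pa_add_inner a (v x)
    have h2 : fib v a e x0 r (Pa a (v x)) ⟪e, x - x0⟫ = ⟪a, v x⟫ := by
      unfold fib; rw [h.eq_X hx]
    rw [h2, hb1 x hx, add_smul, ← add_assoc, h1]
  have hW0' : ∀ t, t ∉ Ioo (t1 - η) (t2 + η) → W t = 0 := fun t ht => (hW0 t ht).1
  have hL : t1 - η ∈ Icc (t1 - η) (t2 + η) := ⟨le_rfl, hI⟩
  have hR : t2 + η ∈ Icc (t1 - η) (t2 + η) := ⟨hI, le_rfl⟩
  have hunscale : ∀ α β γ : ℝ, ς * γ = ς * α + σ * β → γ = α + ς * σ * β := by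
    intro α β γ hh
    have := congrArg (fun s => ς * s) hh
    calc γ = (ς * ς) * γ := by rw [hςς, one_mul]
      _ = ς * (ς * γ) := by ring
      _ = (ς * ς) * α + ς * σ * β := by rw [this]; ring
      _ = _ := by rw [hςς, one_mul]
  ext y
  constructor
  · rintro ⟨x, hx, rfl⟩
    by_cases hxB : x ∈ ball x0 r ∧ ‖Pa a (v x) - y0‖ ≤ η ∧ ⟪e, x - x0⟫ ∈ Icc (t1 - η) (t2 + η)
    · obtain ⟨hx1, hx2, hx3⟩ := hxB
      set z := Pa a (v x) with hz
      have hzz : Pa a z = z := Pa_Pa h.ha _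
      set p := ψ (‖z - y0‖ ^ 2) with hp
      have hmono := h.fib_pert hς1 hς hW hM hW1 hσ hσM hzz hx2 (hψI (‖z - y0‖ ^ 2))
      rw [← hp] at hmono
      have e1 := hmono.monotoneOn hL hx3 hx3.1
      have e2 := hmono.monotoneOn hx3 hR hx3.2
      rw [hW0' (t1 - η) (fun h => lt_irrefl _ h.1)] at e1
      rw [hW0' (t2 + η) (fun h => lt_irrefl _ h.2)] at e2
      have hc : ContinuousOn (fun t => ς * fib v a e x0 r z t) (Icc (t1 - η) (t2 + η)) :=
        continuousOn_const.mul (h.fib_cont' hzz hx2)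
      obtain ⟨t', ht', htt⟩ := intermediate_value_Icc hI hc
        (⟨by linarith, by linarith⟩ : ς * fib v a e x0 r z ⟪e, x - x0⟫ + σ * (p * W ⟪e, x - x0⟫) ∈
          Icc (ς * fib v a e x0 r z (t1 - η)) (ς * fib v a e x0 r z (t2 + η)))
      have h3 := hunscale _ _ _ htt
      refine ⟨_, h.hB (h.X_mem_ball hzz hx2 ht'), ?_⟩
      simp only
      rw [h.v_X hzz hx2 ht', h3, hval x hx1]
    · exact ⟨x, hx, by simp only; rw [hout x hxB]; simp⟩
  · rintro ⟨x, hx, rfl⟩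
    by_cases hxB : x ∈ ball x0 r ∧ ‖Pa a (v x) - y0‖ ≤ η ∧ ⟪e, x - x0⟫ ∈ Icc (t1 - η) (t2 + η)
    · obtain ⟨hx1, hx2, hx3⟩ := hxB
      set z := Pa a (v x) with hz
      have hzz : Pa a z = z := Pa_Pa h.ha _
      set p := ψ (‖z - y0‖ ^ 2) with hp
      have hm := (hς z hzz hx2).monotoneOn
      have e1 := hm hL hx3 hx3.1
      have e2 := hm hx3 hR hx3.2
      simp only at e1 e2
      have hc : ContinuousOn (fun t => ς * fib v a e x0 r z t + σ * (p * W t))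
          (Icc (t1 - η) (t2 + η)) :=
        (continuousOn_const.mul (h.fib_cont' hzz hx2)).add
          (continuousOn_const.mul (continuousOn_const.mul hW.continuous.continuousOn))
      obtain ⟨t', ht', htt⟩ := intermediate_value_Icc hI hc
        (⟨by rw [hW0' (t1 - η) (fun h => lt_irrefl _ h.1)]; linarith,
          by rw [hW0' (t2 + η) (fun h => lt_irrefl _ h.2)]; linarith⟩ :
          ς * fib v a e x0 r z ⟪e, x - x0⟫ ∈
          Icc (ς * fib v a e x0 r z (t1 - η) + σ * (p * W (t1 - η)))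
            (ς * fib v a e x0 r z (t2 + η) + σ * (p * W (t2 + η))))
      have h3 := hunscale _ _ _ htt.symm
      have hxt := h.X_mem_ball hzz hx2 ht'
      refine ⟨_, h.hB hxt, ?_⟩
      simp only
      rw [hval _ hxt, h.Pa_vX hzz hx2 ht', h.t_X hzz hx2 ht', ← hp, ← h3]
      have h4 : fib v a e x0 r z ⟪e, x - x0⟫ = ⟪a, v x⟫ := by
        unfold fib; rw [hz, h.eq_X hx1]
      rw [h4, hz, Pa_add_inner]
    · exact ⟨x, hx, by simp only; rw [hout x hxB]; simp⟩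

end box

/-- Injective maps of class `C^1` with derivatives of corank at most one. -/
structure V1 (Ω : Set (E n)) (u : E n → E n) : Prop where
  inj : InjOn u Ω
  c1 : ContDiffOn ℝ 1 u Ω
  loc : ∀ x ∈ Ω, Loc1 u x

/-- Scaling a compactly supported perturbation. -/
lemma small_scale1 {h : E n → E n} (hh : ContDiff ℝ 1 h) (hc : HasCompactSupport h)
    {κ : ℝ} (hκ : 0 < κ) :
    ∃ σ0 : ℝ, 0 < σ0 ∧ ∀ σ : ℝ, |σ| ≤ σ0 → (∀ x, ‖σ • h x‖ ≤ κ) ∧
      (∀ x, ‖fderiv ℝ (fun x => σ • h x) x‖ ≤ κ) ∧ ContDiff ℝ 1 (fun x => σ • h x) := by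
  obtain ⟨C, hC⟩ := hh.continuous.bounded_above_of_compact_support hc
  obtain ⟨C', hC'⟩ := (hh.continuous_fderiv (by simp)).bounded_above_of_compact_support
    (hc.fderiv (𝕜 := ℝ))
  have hfd : ∀ (σ : ℝ) x, fderiv ℝ (fun x => σ • h x) x = σ • fderiv ℝ h x := fun σ x =>
    fderiv_fun_const_smul (hh.differentiable (by simp) x) σ
  refine ⟨κ / (|C| + |C'| + 1), by positivity, fun σ hσ => ?_⟩
  have hσb : |σ| * (|C| + |C'| + 1) ≤ κ := by
    rwa [le_div_iff₀ (by positivity)] at hσ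
  refine ⟨fun x => ?_, fun x => ?_, hh.const_smul σ⟩
  · rw [norm_smul, Real.norm_eq_abs]
    have h1 : ‖h x‖ ≤ |C| + |C'| + 1 := by
      have := hC x; have := le_abs_self C; have := abs_nonneg C'; linarith
    exact (mul_le_mul_of_nonneg_left h1 (abs_nonneg _)).trans hσb
  · rw [hfd, norm_smul, Real.norm_eq_abs]
    have h1 : ‖fderiv ℝ h x‖ ≤ |C| + |C'| + 1 := by
      have := hC' x; have := le_abs_self C'; have := abs_nonneg C; linarith
    exact (mul_le_mul_of_nonneg_left h1 (abs_nonneg _)).trans hσb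

/-- The improvement in a box. -/
lemma Box.improve1 {Ω : Set (E n)} (hΩ : IsOpen Ω) {v : E n → E n}
    (hv : V1 Ω v) {a e x0 y0 : E n}
    {r t1 t2 η c : ℝ} (h : Box Ω v a e x0 y0 r t1 t2 η c) {κ : ℝ} (hκ : 0 < κ) :
    ∃ v', V1 Ω v' ∧ v' '' Ω = v '' Ω ∧
      (∀ x, x ∉ closedBall x0 r → v' x = v x) ∧ (∀ x, ‖v' x - v x‖ ≤ κ) ∧
      (∀ x ∈ Ω, ‖fderiv ℝ v' x - fderiv ℝ v x‖ ≤ κ) ∧
      (∀ x ∈ Ω, Good1 v x → Good1 v' x) ∧
      ∀ x ∈ ball x0 r, ‖Pa a (v x) - y0‖ ≤ η / 2 → ⟪e, x - x0⟫ ∈ Icc t1 t2 → Good1 v' x := by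
  obtain ⟨ς, hς1, hς⟩ := h.exists_sign
  obtain ⟨W, M, hW, hMpos, hM, hW1, hW0⟩ := exists_W t1 t2 h.hη
  obtain ⟨ψ, hψ, hψI, hψ1, hψ0⟩ := exists_psi h.hη
  have hr := h.hr
  obtain ⟨θ, hθ, hθc, hθU, hθ1, hθI⟩ := exists_cutoff (isCompact_closedBall x0 (r / 2))
    (isOpen_ball (x := x0) (ε := r)) (closedBall_subset_ball (by linarith))
  set S : Set (E n) := closedBall x0 (r / 2) with hS
  have hSc : IsCompact S := isCompact_closedBall _ _
  have hSb : S ⊆ ball x0 r := closedBall_subset_ball (by linarith)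
  have hSΩ : S ⊆ Ω := hSb.trans h.hB
  have hTc : IsCompact (tsupport θ) := hθc.isCompact
  have hTΩ : tsupport θ ⊆ Ω := hθU.trans h.hB
  set Φ : E n × E n → ℝ := fun p => θ p.2 * (ψ (‖Pa a p.1 - y0‖ ^ 2) * W ⟪e, p.2 - x0⟫) with hΦ
  have hΦs : ContDiff ℝ ∞ Φ := by
    have g1 : ContDiff ℝ ∞ (fun p : E n × E n => Pa a p.1 - y0) :=
      ((Pa a).contDiff.comp contDiff_fst).sub contDiff_const
    have g2 : ContDiff ℝ ∞ (fun p : E n × E n => ‖Pa a p.1 - y0‖ ^ 2) := g1.norm_sq ℝ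
    have g3 : ContDiff ℝ ∞ (fun p : E n × E n => ⟪e, p.2 - x0⟫) :=
      (innerSL ℝ e).contDiff.comp (contDiff_snd.sub contDiff_const)
    exact (hθ.comp contDiff_snd).mul ((hψ.comp g2).mul (hW.comp g3))
  have hΦ0 : ∀ y x, x ∉ tsupport θ → Φ (y, x) = 0 := by
    intro y x hx
    simp only [hΦ]
    rw [image_eq_zero_of_notMem_tsupport hx, zero_mul]
  set b : E n → ℝ := fun x => Φ (v x, x) with hb
  have hb1 : ContDiff ℝ 1 b := by
    have hpair : ContDiffOn ℝ 1 (fun x => (v x, x)) Ω := hv.c1.prodMk contDiffOn_id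
    have hbΩ : ContDiffOn ℝ 1 b Ω := (hΦs.of_le (by simp)).comp_contDiffOn hpair
    rw [contDiff_iff_contDiffAt]
    intro x
    by_cases hx : x ∈ tsupport θ
    · exact hbΩ.contDiffAt (hΩ.mem_nhds (hTΩ hx))
    · have h1 : b =ᶠ[𝓝 x] fun _ => 0 := by
        filter_upwards [hTc.isClosed.isOpen_compl.mem_nhds hx] with y hy
        exact hΦ0 _ _ hy
      exact contDiffAt_const.congr_of_eventuallyEq h1
  -- the formula in the ball
  have hθS : ∀ x ∈ S, θ x = 1 := fun x hx =>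
    ((eventually_nhdsSet_iff_forall.1 hθ1) x hx).self_of_nhds
  have hformula : ∀ x ∈ ball x0 r, b x = ψ (‖Pa a (v x) - y0‖ ^ 2) * W ⟪e, x - x0⟫ := by
    intro x hx
    by_cases hxS : x ∈ S
    · simp only [hb, hΦ]; rw [hθS x hxS, one_mul]
    · have h0 : ψ (‖Pa a (v x) - y0‖ ^ 2) * W ⟪e, x - x0⟫ = 0 := by
        by_cases h1 : ‖Pa a (v x) - y0‖ < η
        · by_cases h2 : ⟪e, x - x0⟫ ∈ Ioo (t1 - η) (t2 + η)
          · exfalso
            apply hxS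
            have h3 := (h.X_mem (Pa_Pa h.ha (v x)) h1.le (Ioo_subset_Icc_self h2)).1
            rwa [h.eq_X hx] at h3
          · rw [(hW0 _ h2).1, mul_zero]
        · push Not at h1
          have := h.hη
          rw [hψ0 _ (by gcongr), zero_mul]
      simp only [hb, hΦ]
      rw [h0, mul_zero]
  have hb0 : ∀ x, x ∉ S → b x = 0 := by
    intro x hx
    by_cases hxb : x ∈ ball x0 r
    · rw [hformula x hxb]
      by_cases h1 : ‖Pa a (v x) - y0‖ < η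
      · by_cases h2 : ⟪e, x - x0⟫ ∈ Ioo (t1 - η) (t2 + η)
        · exfalso
          apply hx
          have h3 := (h.X_mem (Pa_Pa h.ha (v x)) h1.le (Ioo_subset_Icc_self h2)).1
          rwa [h.eq_X hxb] at h3
        · rw [(hW0 _ h2).1, mul_zero]
      · push Not at h1
        have := h.hη
        rw [hψ0 _ (by gcongr), zero_mul]
    · exact hΦ0 _ _ fun h1 => hxb (hθU h1)
  -- the vector perturbation
  set g : E n → E n := fun x => b x • a with hg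
  have hg1 : ContDiff ℝ 1 g := hb1.smul contDiff_const
  have hbc : HasCompactSupport b := HasCompactSupport.intro hSc (fun x hx => hb0 x hx)
  have hgc : HasCompactSupport g := hbc.smul_right
  obtain ⟨σ0, hσ0, hσ⟩ := small_scale1 hg1 hgc hκ
  obtain ⟨σ, hσpos, hσσ0, hσM⟩ : ∃ σ : ℝ, 0 < σ ∧ σ ≤ σ0 ∧ σ * M < c := by
    refine ⟨min σ0 (c / (2 * M)), lt_min hσ0 (by have := h.hc; positivity), min_le_left _ _, ?_⟩
    have h1 : min σ0 (c / (2 * M)) ≤ c / (2 * M) := min_le_right _ _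
    have h2 : min σ0 (c / (2 * M)) * M ≤ c / (2 * M) * M := by gcongr
    have h3 : c / (2 * M) * M = c / 2 := by field_simp
    have := h.hc
    linarith
  have hςσ : |ς * σ| ≤ σ0 := by
    rw [abs_mul, abs_of_pos hσpos]
    rcases hς1 with rfl | rfl <;> simpa using hσσ0
  obtain ⟨k1, k2, k3⟩ := hσ (ς * σ) hςσ
  have heq : (fun x => v x + (ς * σ) • g x) = fun x => v x + (ς * σ * b x) • a := by
    ext1 x; rw [hg, smul_smul]
  have hinj : InjOn (fun x => v x + (ς * σ) • g x) Ω := by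
    rw [heq]
    exact h.injOn_pert hς1 hς hW hM hW1 hW0 hσpos hσM hψI hψ0 hformula hb0
  have himg : (fun x => v x + (ς * σ) • g x) '' Ω = v '' Ω := by
    rw [heq]
    exact h.image_pert hς1 hς hW hM hW1 hW0 hσpos hσM hψI hψ0 hformula hb0
  obtain ⟨d1, d2, d3⟩ := h.der_pert hΩ hς1 hς hW hM hW1 hW0 hσpos hσM hψ hψI hψ1 hψ0
    hformula hb0
  rw [← heq] at d1 d2 d3
  refine ⟨_, ⟨hinj, hv.c1.add k3.contDiffOn, fun x hx => d1 x hx (hv.loc x hx)⟩, himg,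
    ?_, ?_, ?_, d2, d3⟩
  · intro x hx
    have hxS : x ∉ S := fun h1 => hx (ball_subset_closedBall (hSb h1))
    simp only [hg]
    rw [hb0 x hxS]; simp
  · intro x
    have : v x + (ς * σ) • g x - v x = (ς * σ) • g x := by abel
    rw [this]
    exact k1 x
  · intro x hx
    have hvd : DifferentiableAt ℝ v x :=
      (hv.c1.contDiffAt (hΩ.mem_nhds hx)).differentiableAt (by simp)
    have : fderiv ℝ (fun x => v x + (ς * σ) • g x) x - fderiv ℝ v x =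
        fderiv ℝ (fun x => (ς * σ) • g x) x := by
      rw [fderiv_fun_add hvd (k3.differentiable (by simp) x)]
      abel
    rw [this]
    exact k2 x

/-- **Robust local improvement.** -/
theorem local_improve1 {Ω : Set (E n)} (hΩ : IsOpen Ω) {u : E n → E n}
    (hu : V1 Ω u) {x0 : E n} (hx0 : x0 ∈ Ω) {R : ℝ} (hR : 0 < R) :
    ∃ ρ δ : ℝ, 0 < ρ ∧ 0 < δ ∧ ∀ v, V1 Ω v →
      (∀ x ∈ Ω, ‖v x - u x‖ ≤ δ ∧ ‖fderiv ℝ v x - fderiv ℝ u x‖ ≤ δ) →
      ∀ κ : ℝ, 0 < κ →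
      ∃ v', V1 Ω v' ∧ v' '' Ω = v '' Ω ∧
        (∀ x, x ∉ closedBall x0 R → v' x = v x) ∧ (∀ x, ‖v' x - v x‖ ≤ κ) ∧
        (∀ x ∈ Ω, ‖fderiv ℝ v' x - fderiv ℝ v x‖ ≤ κ) ∧
        (∀ x ∈ Ω, Good1 v x → Good1 v' x) ∧ ∀ x ∈ ball x0 ρ, Good1 v' x := by
  by_cases hg : Good1 u x0
  · -- regular point
    obtain ⟨m, hm, hlow⟩ := exists_lower hg
    have hdc : ContinuousOn (fderiv ℝ u) Ω := hu.c1.continuousOn_fderiv_of_isOpen hΩ le_rfl
    have h1 : ∀ᶠ x in 𝓝 x0, x ∈ Ω ∧ ‖fderiv ℝ u x - fderiv ℝ u x0‖ < m / 4 := by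
      have hm0 : ∀ᶠ x in 𝓝 x0, x ∈ Ω := hΩ.mem_nhds hx0
      refine hm0.and ?_
      have h2 := (hdc.continuousAt (hΩ.mem_nhds hx0)).sub (continuousAt_const (y := fderiv ℝ u x0))
      have h3 : Tendsto (fun x => ‖fderiv ℝ u x - fderiv ℝ u x0‖) (𝓝 x0) (𝓝 0) := by
        have := h2.norm
        simpa [ContinuousAt] using this
      exact h3.eventually (gt_mem_nhds (by positivity))
    obtain ⟨ρ, hρ, hball⟩ := Metric.eventually_nhds_iff_ball.1 h1
    refine ⟨ρ, m / 4, hρ, by positivity, fun v hv hclose κ hκ => ?_⟩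
    refine ⟨v, hv, rfl, fun x _ => rfl, fun x => by simpa using hκ.le,
      fun x _ => by simpa using hκ.le, fun x _ h => h, fun x hx => ?_⟩
    obtain ⟨hxΩ, hxc⟩ := hball x hx
    have h2 : ‖fderiv ℝ v x - fderiv ℝ u x0‖ ≤ m / 2 := by
      have h3 : fderiv ℝ v x - fderiv ℝ u x0 = (fderiv ℝ v x - fderiv ℝ u x) +
        (fderiv ℝ u x - fderiv ℝ u x0) := by abel
      rw [h3]
      refine (norm_add_le _ _).trans ?_
      have := (hclose x hxΩ).2
      linarith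
    have h4 := lower_of_close hlow h2
    exact injective_of_lower (m := m - m / 2) (by linarith) h4
  · obtain ⟨a, e, y0, r, t1, t2, η, c, δ, ρ, hδ, hρ, hρr, hrR, hrΩ, hbox⟩ :=
      exists_box hΩ hu.c1 hu.inj hx0 (hu.loc x0 hx0) hg hR
    refine ⟨ρ, δ, hρ, hδ, fun v hv hclose κ hκ => ?_⟩
    obtain ⟨hB, hcore⟩ := hbox v hv.c1 hv.inj (fun x hx => hclose x (hrΩ hx))
    obtain ⟨v', h1, h2, h3, h4, h5, h6, h7⟩ := hB.improve1 hΩ hv hκ
    refine ⟨v', h1, h2, fun x hx => h3 x fun h => hx (closedBall_subset_closedBall hrR h), h4,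
      h5, h6, fun x hx => ?_⟩
    obtain ⟨c1, c2⟩ := hcore x hx
    exact h7 x (ball_subset_ball hρr hx) c1 c2

/-- **The stage**: improvement near a compact set, by a perturbation with support in a given
neighbourhood. -/
theorem stage1 {Ω : Set (E n)} (hΩ : IsOpen Ω) {u : E n → E n} (hu : V1 Ω u) {K C : Set (E n)}
    (hK : IsCompact K) (hKΩ : K ⊆ Ω) (hC : IsClosed C) (hdis : Disjoint K C) {κ : ℝ}
    (hκ : 0 < κ) :
    ∃ v', V1 Ω v' ∧ v' '' Ω = u '' Ω ∧ (∀ y ∈ C, v' y = u y) ∧ (∀ y, ‖v' y - u y‖ ≤ κ) ∧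
      (∀ y ∈ Ω, ‖fderiv ℝ v' y - fderiv ℝ u y‖ ≤ κ) ∧
      (∀ y ∈ Ω, Good1 u y → Good1 v' y) ∧ ∀ y ∈ K, Good1 v' y := by
  classical
  have hRex : ∀ x ∈ K, ∃ R : ℝ, 0 < R ∧ Disjoint (closedBall x R) C := by
    intro x hx
    have hxC : x ∈ Cᶜ := disjoint_left.1 hdis hx
    obtain ⟨R, hR, hsub⟩ := Metric.nhds_basis_closedBall.mem_iff.1
      (hC.isOpen_compl.mem_nhds hxC)
    exact ⟨R, hR, disjoint_left.2 fun y hy => hsub hy⟩
  choose! R hR hRC using hRex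
  have hloc : ∀ x ∈ K, ∃ ρ δ : ℝ, 0 < ρ ∧ 0 < δ ∧ ∀ v, V1 Ω v →
      (∀ y ∈ Ω, ‖v y - u y‖ ≤ δ ∧ ‖fderiv ℝ v y - fderiv ℝ u y‖ ≤ δ) →
      ∀ κ : ℝ, 0 < κ →
      ∃ v', V1 Ω v' ∧ v' '' Ω = v '' Ω ∧
        (∀ y, y ∉ closedBall x (R x) → v' y = v y) ∧ (∀ y, ‖v' y - v y‖ ≤ κ) ∧
        (∀ y ∈ Ω, ‖fderiv ℝ v' y - fderiv ℝ v y‖ ≤ κ) ∧
        (∀ y ∈ Ω, Good1 v y → Good1 v' y) ∧ ∀ y ∈ ball x ρ, Good1 v' y := fun x hx =>
    local_improve1 hΩ hu (hKΩ hx) (hR x hx)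
  choose! ρ δ hρ hδ himp using hloc
  obtain ⟨t, htK, htcov⟩ := hK.elim_nhds_subcover (fun x => ball x (ρ x))
    (fun x hx => ball_mem_nhds x (hρ x hx))
  have key : ∀ s : Finset (E n), s ⊆ t → ∀ κ : ℝ, 0 < κ →
      ∃ v', V1 Ω v' ∧ v' '' Ω = u '' Ω ∧ (∀ y ∈ C, v' y = u y) ∧ (∀ y, ‖v' y - u y‖ ≤ κ) ∧
        (∀ y ∈ Ω, ‖fderiv ℝ v' y - fderiv ℝ u y‖ ≤ κ) ∧
        (∀ y ∈ Ω, Good1 u y → Good1 v' y) ∧ ∀ x ∈ s, ∀ y ∈ ball x (ρ x), y ∈ Ω → Good1 v' y := by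
    intro s
    induction s using Finset.induction_on with
    | empty =>
      intro _ κ hκ
      exact ⟨u, hu, rfl, fun y _ => rfl, fun y => by simpa using hκ.le,
        fun y _ => by simpa using hκ.le, fun y _ h => h, fun x hx => absurd hx (by simp)⟩
    | insert a s ha ih =>
      intro hst κ hκ
      have hat : a ∈ t := hst (Finset.mem_insert_self a s)
      have hst' : s ⊆ t := fun x hx => hst (Finset.mem_insert_of_mem hx)
      have haK : a ∈ K := htK a hat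
      obtain ⟨v, v1, v0, v2, v4, v5, v6, v7⟩ := ih hst' (min (κ / 2) (δ a))
        (lt_min (by positivity) (hδ a haK))
      obtain ⟨v', w1, w0, w2, w4, w5, w6, w7⟩ := himp a haK v v1
        (fun y hy => ⟨(v4 y).trans (min_le_right _ _), (v5 y hy).trans (min_le_right _ _)⟩)
        (κ / 2) (by positivity)
      refine ⟨v', w1, w0.trans v0, fun y hy => ?_, fun y => ?_, fun y hy => ?_,
        fun y hy h => w6 y hy (v6 y hy h), fun x hx y hy hyΩ => ?_⟩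
      · have hya : y ∉ closedBall a (R a) := fun h => disjoint_left.1 (hRC a haK) h hy
        exact (w2 y hya).trans (v2 y hy)
      · have e1 : v' y - u y = (v' y - v y) + (v y - u y) := by abel
        rw [e1]
        refine (norm_add_le _ _).trans ?_
        have := w4 y
        have := (v4 y).trans (min_le_left _ _)
        linarith
      · have e1 : fderiv ℝ v' y - fderiv ℝ u y = (fderiv ℝ v' y - fderiv ℝ v y) +
          (fderiv ℝ v y - fderiv ℝ u y) := by abel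
        rw [e1]
        refine (norm_add_le _ _).trans ?_
        have := w5 y hy
        have := (v5 y hy).trans (min_le_left _ _)
        linarith
      · rcases Finset.mem_insert.1 hx with rfl | hx'
        · exact w7 y hy
        · exact w6 y hyΩ (v7 x hx' y hy hyΩ)
  obtain ⟨v', w1, w0, w2, w4, w5, w6, w7⟩ := key t (Finset.Subset.refl t) κ hκ
  refine ⟨v', w1, w0, w2, w4, w5, w6, fun x hx => ?_⟩
  obtain ⟨a, ha, hxa⟩ := mem_iUnion₂.1 (htcov hx)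
  exact w7 a ha x hxa (hKΩ hx)

end Run7.h7
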