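import Mathlib
import Pool.Agent.Run7.h7.Defs

/-!
Definition: the points where the rank of the derivative drops by at least two.
-/

open Set

namespace Run7.h7

/-- The corank of the derivative of `f` at `x`: the dimension of the kernel of the (Fréchet)
derivative. -/
noncomputable def corank {n : ℕ} (f : E n → E n) (x : E n) : ℕ :=
  Module.finrank ℝ (LinearMap.ker (fderiv ℝ f x : E n →ₗ[ℝ] E n))

end Run7.h7
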