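import Mathlib
import Pool.Agent.Run7.h7.Defs
import Pool.Agent.Run7.h7.Basic
import Pool.Agent.Run7.h7.CorankDefs

/-!
The set of points at which the corank of the derivative is at most one is open.
-/

open Set Filter
open scoped Topology

namespace Run7.h7

variable {n : ℕ}

lemma corank_le_one_iff (f : E n → E n) (x : E n) :
    corank f x ≤ 1 ↔ ((n - 1 : ℕ) : Cardinal) ≤ ((fderiv ℝ f x : E n →L[ℝ] E n) :
      E n →ₗ[ℝ] E n).rank := by
  unfold corank
  have h1 := LinearMap.finrank_range_add_finrank_ker (fderiv ℝ f x : E n →ₗ[ℝ] E n)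
  have h2 : Module.finrank ℝ (E n) = n := by simp
  rw [h2] at h1
  have h3 : ((fderiv ℝ f x : E n →L[ℝ] E n) : E n →ₗ[ℝ] E n).rank =
      ((Module.finrank ℝ (LinearMap.range (fderiv ℝ f x : E n →ₗ[ℝ] E n)) : ℕ) : Cardinal) := by
    unfold LinearMap.rank
    exact (Module.finrank_eq_rank ℝ _).symm
  rw [h3, Nat.cast_le]
  omega

theorem isOpen_corank {Ω : Set (E n)} (hΩ : IsOpen Ω) {f : E n → E n}
    (hc : ContDiffOn ℝ 1 f Ω) : IsOpen (Ω \ {x | 2 ≤ corank f x}) := by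
  have h1 : Ω \ {x | 2 ≤ corank f x} = Ω ∩ (fderiv ℝ f) ⁻¹'
      {A | ((n - 1 : ℕ) : Cardinal) ≤ ((A : E n →L[ℝ] E n) : E n →ₗ[ℝ] E n).rank} := by
    ext x
    simp only [mem_diff, mem_ofPred_eq, not_le, mem_inter_iff, mem_preimage]
    rw [← corank_le_one_iff]
    constructor
    · rintro ⟨h1, h2⟩; exact ⟨h1, by omega⟩
    · rintro ⟨h1, h2⟩; exact ⟨h1, by omega⟩
  rw [h1]
  exact (hc.continuousOn_fderiv_of_isOpen hΩ le_rfl).isOpen_inter_preimage hΩ
    (isOpen_setOfPred_nat_le_rank (n - 1))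

end Run7.h7
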