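import Mathlib
import Pool.Agent.Run7.h7.C1Box
import Pool.Agent.Run7.h7.CorankDefs
import Pool.Agent.Run7.h7.CorankOpen
import Pool.Agent.Y522.Tools
import Pool.Agent.Y66.CM.All

/-!
Maps of class `C^1` between manifolds with a condition on the derivative, near a point.
-/

open Filter Set Metric Function
open scoped Topology ContDiff Manifold RealInnerProductSpace

namespace Run7.h7

open Pool.Agent.Y522 (LD)
open Pool.Agent.Y66.CM (CMon CMonE LD_chart)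

variable {n : ℕ}

/-- a condition on linear maps which is invariant under composition with isomorphisms -/
structure LinInv (P : (E n →L[ℝ] E n) → Prop) : Prop where
  post : ∀ A L : E n →L[ℝ] E n, Injective A → P L → P (A.comp L)
  pre : ∀ L B : E n →L[ℝ] E n, Bijective B → P L → P (L.comp B)

/-- the kernel is at most one-dimensional -/
def K1 (L : E n →L[ℝ] E n) : Prop := ∃ w0 : E n, ∀ w, L w = 0 → ∃ t : ℝ, w = t • w0

/-- the kernel is trivial -/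
def K0 (L : E n →L[ℝ] E n) : Prop := Injective L

lemma linInv_K1 : LinInv (n := n) K1 := by
  constructor
  · rintro A L hA ⟨w0, h⟩
    refine ⟨w0, fun w hw => h w (hA ?_)⟩
    rw [map_zero]
    exact hw
  · rintro L B hB ⟨w0, h⟩
    obtain ⟨v0, hv0⟩ := hB.2 w0
    refine ⟨v0, fun w hw => ?_⟩
    obtain ⟨t, ht⟩ := h (B w) hw
    refine ⟨t, hB.1 ?_⟩
    rw [map_smul, hv0, ht]

lemma linInv_K0 : LinInv (n := n) K0 :=
  ⟨fun _ _ hA hL => hA.comp hL, fun _ _ hB hL => hL.comp hB.1⟩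

lemma K0.K1 {L : E n →L[ℝ] E n} (h : K0 L) : K1 L :=
  ⟨0, fun w hw => ⟨0, by rw [zero_smul]; exact h (by rw [hw, map_zero])⟩⟩

section man

variable {X Y Z : Type} [TopologicalSpace X] [ChartedSpace (E n) X]
  [TopologicalSpace Y] [ChartedSpace (E n) Y] [TopologicalSpace Z] [ChartedSpace (E n) Z]

/-- `f` is of class `C^1` near `x` and its derivative at `x` satisfies `P` -/
def CP (P : (E n →L[ℝ] E n) → Prop) (f : X → Y) (x : X) : Prop :=
  ContMDiffAt (𝓡 n) (𝓡 n) 1 f x ∧ P (mfderiv (𝓡 n) (𝓡 n) f x)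

lemma CP.mono {P Q : (E n →L[ℝ] E n) → Prop} {f : X → Y} {x : X} (h : CP P f x)
    (hPQ : ∀ L, P L → Q L) : CP Q f x := ⟨h.1, hPQ _ h.2⟩

lemma CP.congr {P : (E n →L[ℝ] E n) → Prop} {f g : X → Y} {x : X} (h : CP P f x)
    (hg : g =ᶠ[𝓝 x] f) : CP P g x := by
  refine ⟨h.1.congr_of_eventuallyEq hg, ?_⟩
  have h1 : mfderiv (𝓡 n) (𝓡 n) g x = mfderiv (𝓡 n) (𝓡 n) f x := hg.mfderiv_eq
  have h2 := h.2
  have h3 : (mfderiv (𝓡 n) (𝓡 n) g x : E n →L[ℝ] E n) = mfderiv (𝓡 n) (𝓡 n) f x := h1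
  rw [h3]
  exact h2

variable [IsManifold (𝓡 n) ∞ X] [IsManifold (𝓡 n) ∞ Y] [IsManifold (𝓡 n) ∞ Z]

lemma LD.mfderiv_bijective {f : X → Y} {x : X} (hf : LD n f x) :
    Bijective (mfderiv (𝓡 n) (𝓡 n) f x : E n →L[ℝ] E n) := by
  have h1 : Injective (mfderiv (𝓡 n) (𝓡 n) f x : E n →L[ℝ] E n) :=
    Pool.Agent.Y522.LD.mfderiv_injective hf
  obtain ⟨L, hL⟩ : ∃ L : E n →L[ℝ] E n, L = mfderiv (𝓡 n) (𝓡 n) f x := ⟨_, rfl⟩
  have h0 : Injective L := by rw [hL]; exact h1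
  have h2 : Surjective L := (LinearMap.injective_iff_surjective (f := L.toLinearMap)).1 h0
  rw [hL] at h2
  exact ⟨h1, h2⟩

lemma CP.post {P : (E n →L[ℝ] E n) → Prop} (hP : LinInv P) {f : X → Y} {g : Y → Z} {x : X}
    (hg : LD n g (f x)) (hf : CP P f x) : CP P (fun y => g (f y)) x := by
  have hgd : MDifferentiableAt (𝓡 n) (𝓡 n) g (f x) := Pool.Agent.Y522.LD.mdifferentiableAt hg
  have hfd : MDifferentiableAt (𝓡 n) (𝓡 n) f x := hf.1.mdifferentiableAt (by simp)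
  refine ⟨ContMDiffAt.comp x (hg.contMDiffAt.of_le (by simp)) hf.1, ?_⟩
  have h1 : mfderiv (𝓡 n) (𝓡 n) (fun y => g (f y)) x =
      (mfderiv (𝓡 n) (𝓡 n) g (f x)).comp (mfderiv (𝓡 n) (𝓡 n) f x) := mfderiv_comp x hgd hfd
  have h3 : (mfderiv (𝓡 n) (𝓡 n) (fun y => g (f y)) x : E n →L[ℝ] E n) =
    (mfderiv (𝓡 n) (𝓡 n) g (f x) : E n →L[ℝ] E n).comp
      (mfderiv (𝓡 n) (𝓡 n) f x : E n →L[ℝ] E n) := h1
  rw [h3]
  exact hP.post _ _ (LD.mfderiv_bijective hg).1 hf.2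

lemma CP.pre {P : (E n →L[ℝ] E n) → Prop} (hP : LinInv P) {f : Y → Z} {g : X → Y} {x : X}
    (hg : LD n g x) (hf : CP P f (g x)) : CP P (fun y => f (g y)) x := by
  have hgd : MDifferentiableAt (𝓡 n) (𝓡 n) g x := Pool.Agent.Y522.LD.mdifferentiableAt hg
  have hfd : MDifferentiableAt (𝓡 n) (𝓡 n) f (g x) := hf.1.mdifferentiableAt (by simp)
  refine ⟨ContMDiffAt.comp x hf.1 (hg.contMDiffAt.of_le (by simp)), ?_⟩
  have h1 : mfderiv (𝓡 n) (𝓡 n) (fun y => f (g y)) x =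
      (mfderiv (𝓡 n) (𝓡 n) f (g x)).comp (mfderiv (𝓡 n) (𝓡 n) g x) := mfderiv_comp x hfd hgd
  have h3 : (mfderiv (𝓡 n) (𝓡 n) (fun y => f (g y)) x : E n →L[ℝ] E n) =
    (mfderiv (𝓡 n) (𝓡 n) f (g x) : E n →L[ℝ] E n).comp
      (mfderiv (𝓡 n) (𝓡 n) g x : E n →L[ℝ] E n) := h1
  rw [h3]
  exact hP.pre _ _ (LD.mfderiv_bijective hg) hf.2

omit [IsManifold (𝓡 n) ∞ X] [IsManifold (𝓡 n) ∞ Y] [IsManifold (𝓡 n) ∞ Z] in
lemma CP_vec {P : (E n →L[ℝ] E n) → Prop} {u : E n → E n} {z : E n} :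
    CP P u z ↔ ContDiffAt ℝ 1 u z ∧ P (fderiv ℝ u z) := by
  unfold CP
  rw [contMDiffAt_iff_contDiffAt, mfderiv_eq_fderiv]

omit [IsManifold (𝓡 n) ∞ Z] in
lemma LD.CP0 {f : X → Y} {x : X} (hf : LD n f x) : CP (n := n) K0 f x :=
  ⟨ContMDiffAt.of_le hf.contMDiffAt (by simp), (LD.mfderiv_bijective hf).1⟩

omit [IsManifold (𝓡 n) ∞ Y] [IsManifold (𝓡 n) ∞ Z] in
lemma chart_symm_LD (x : X) {z : E n} (hz : z ∈ (chartAt (E n) x).target) :
    LD n ((chartAt (E n) x).symm : E n → X) z := by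
  have h1 := LD_chart (n := n) x ((chartAt (E n) x).symm z) ((chartAt (E n) x).map_target hz)
  have h2 := Pool.Agent.Y522.LD.inverse (n := n) (chartAt (E n) x).open_source
    (fun y hy => LD_chart (n := n) x y hy)
    (g := ((chartAt (E n) x).symm : E n → X))
    (fun y hy => (chartAt (E n) x).left_inv hy) ((chartAt (E n) x).map_target hz)
  rwa [(chartAt (E n) x).right_inv hz] at h2

/-- the local representation around a point -/
lemma CP.chart {P : (E n →L[ℝ] E n) → Prop} (hP : LinInv P) {f : X → Y} {x : X}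
    (hf : CP P f x) (z : E n) (hz : z ∈ (chartAt (E n) x).target)
    (hzx : (chartAt (E n) x).symm z = x) {e : Y → E n} (he : LD n e (f x)) :
    CP P (fun z => e (f ((chartAt (E n) x).symm z))) z := by
  have h1 : LD n ((chartAt (E n) x).symm : E n → X) z := chart_symm_LD x hz
  have h2 : CP P (fun y => e (f y)) ((chartAt (E n) x).symm z) := by
    rw [hzx]
    exact hf.post hP he
  exact CP.pre hP (f := fun y => e (f y)) (g := fun z => (chartAt (E n) x).symm z) h1 h2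

end man

end Run7.h7
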