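import Mathlib
import Pool.Agent.Run7.h7.C1Pt
import Pool.Agent.Y66.CM.Box
import Pool.Agent.Y66.CM.Stage

/-!
Maps of class `C^1` and cone monotone maps.
-/

open Filter Set Metric Function
open scoped Topology ContDiff Manifold RealInnerProductSpace

namespace Run7.h7

open Pool.Agent.Y522 (LD)
open Pool.Agent.Y66.CM (CMon CMonE LD_chart)

variable {n : ℕ}

/-! ### linear algebra -/

lemma K1_iff (L : E n →L[ℝ] E n) :
    K1 L ↔ ((n - 1 : ℕ) : Cardinal) ≤ (L : E n →ₗ[ℝ] E n).rank := by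
  have h1 := LinearMap.finrank_range_add_finrank_ker (L : E n →ₗ[ℝ] E n)
  have h2 : Module.finrank ℝ (E n) = n := by simp
  rw [h2] at h1
  have h3 : (L : E n →ₗ[ℝ] E n).rank =
      ((Module.finrank ℝ (LinearMap.range (L : E n →ₗ[ℝ] E n)) : ℕ) : Cardinal) := by
    unfold LinearMap.rank
    exact (Module.finrank_eq_rank ℝ _).symm
  rw [h3, Nat.cast_le]
  have h4 : K1 L ↔ Module.finrank ℝ (LinearMap.ker (L : E n →ₗ[ℝ] E n)) ≤ 1 := by
    rw [finrank_le_one_iff]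
    constructor
    · rintro ⟨w0, h⟩
      by_cases hz : ∀ w : LinearMap.ker (L : E n →ₗ[ℝ] E n), w = 0
      · exact ⟨0, fun w => ⟨0, by rw [hz w]; simp⟩⟩
      · push Not at hz
        obtain ⟨v, hv⟩ := hz
        obtain ⟨t, ht⟩ := h v v.2
        have ht0 : t ≠ 0 := by
          rintro rfl
          apply hv
          ext1
          rw [ht]; simp
        refine ⟨v, fun w => ?_⟩
        obtain ⟨s, hs⟩ := h w w.2
        refine ⟨s * t⁻¹, ?_⟩
        ext1
        rw [Submodule.coe_smul, ht, hs, smul_smul, mul_assoc, inv_mul_cancel₀ ht0, mul_one]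
    · rintro ⟨v, hv⟩
      refine ⟨v, fun w hw => ?_⟩
      obtain ⟨c, hc⟩ := hv ⟨w, hw⟩
      exact ⟨c, by rw [← Submodule.coe_smul, hc]⟩
  rw [h4]
  omega

lemma isOpen_K1 : IsOpen {L : E n →L[ℝ] E n | K1 L} := by
  have h1 : {L : E n →L[ℝ] E n | K1 L} =
      {L : E n →L[ℝ] E n | ((n - 1 : ℕ) : Cardinal) ≤ (L : E n →ₗ[ℝ] E n).rank} := by
    ext L; exact K1_iff L
  rw [h1]
  exact isOpen_setOfPred_nat_le_rank (n - 1)

lemma K1.exists_ne (hn : 2 ≤ n) {L : E n →L[ℝ] E n} (h : K1 L) : ∃ w, L w ≠ 0 := by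
  by_contra hcon
  push Not at hcon
  obtain ⟨w0, h0⟩ := h
  have h1 : Module.finrank ℝ (E n) ≤ 1 := finrank_le_one w0 fun w => by
    obtain ⟨t, ht⟩ := h0 w (hcon w)
    exact ⟨t, ht.symm⟩
  have h2 : Module.finrank ℝ (E n) = n := by simp
  omega

/-- a monotone map has derivative zero if the direction is in the kernel -/
lemma zero_of_mono {u : E n → E n} {L : E n →L[ℝ] E n} (hd : HasFDerivAt u L 0)
    {v : E n} (hv0 : L v = 0) {r : ℝ} {ℓ : E n →L[ℝ] ℝ} (hr : 0 < r)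
    (hℓ : ∀ p q : E n, ‖p‖ ≤ r → ‖q‖ ≤ r → ∀ t : ℝ, 0 < t → ‖q - p - t • v‖ ≤ r * t →
        r * ‖u q - u p‖ < ℓ (u q - u p)) (w : E n) : L w = 0 := by
  have key : ∀ w : E n, ‖w‖ ≤ r → r * ‖L w‖ ≤ ℓ (L w) := by
    intro w hw
    have h2 : HasDerivAt (fun t : ℝ => u (t • (v + w))) (L (v + w)) 0 := by
      have h3 : HasDerivAt (fun t : ℝ => t • (v + w)) (v + w) 0 := by
        simpa using (hasDerivAt_id (0 : ℝ)).smul_const (v + w)
      have h4 : HasFDerivAt u L ((0 : ℝ) • (v + w)) := by rw [zero_smul]; exact hd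
      exact h4.comp_hasDerivAt (0 : ℝ) h3
    rw [map_add, hv0, zero_add] at h2
    have h5 := h2.tendsto_slope_zero_right
    simp only [zero_add, zero_smul] at h5
    have h6 : ∀ᶠ t : ℝ in 𝓝[>] 0, r * ‖t⁻¹ • (u (t • (v + w)) - u 0)‖ ≤
        ℓ (t⁻¹ • (u (t • (v + w)) - u 0)) := by
      have h7 : ∀ᶠ t : ℝ in 𝓝[>] 0, ‖t • (v + w)‖ ≤ r := by
        have h8 : Tendsto (fun t : ℝ => ‖t • (v + w)‖) (𝓝 0) (𝓝 0) := by
          have : Continuous (fun t : ℝ => ‖t • (v + w)‖) := by fun_prop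
          simpa using this.tendsto 0
        exact (h8.mono_left nhdsWithin_le_nhds).eventually (ge_mem_nhds hr)
      filter_upwards [h7, self_mem_nhdsWithin] with t ht1 ht2
      have ht0 : 0 < t := ht2
      have h9 := hℓ 0 (t • (v + w)) (by simpa using hr.le) ht1 t ht0 (by
        have : t • (v + w) - 0 - t • v = t • w := by rw [smul_add]; abel
        rw [this, norm_smul, Real.norm_of_nonneg ht0.le, mul_comm]
        exact mul_le_mul_of_nonneg_right hw ht0.le)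
      rw [norm_smul, map_smul, smul_eq_mul, norm_inv, Real.norm_of_nonneg ht0.le]
      have h10 : t⁻¹ * (r * ‖u (t • (v + w)) - u 0‖) ≤ t⁻¹ * ℓ (u (t • (v + w)) - u 0) :=
        mul_le_mul_of_nonneg_left h9.le (inv_nonneg.2 ht0.le)
      calc r * (t⁻¹ * ‖u (t • (v + w)) - u 0‖) = t⁻¹ * (r * ‖u (t • (v + w)) - u 0‖) := by ring
        _ ≤ _ := h10
    exact le_of_tendsto_of_tendsto (h5.norm.const_mul r) ((ℓ.continuous.tendsto _).comp h5) h6
  have hLw : ∀ w : E n, ‖w‖ ≤ r → L w = 0 := by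
    intro w hw
    have e1 := key w hw
    have e2 := key (-w) (by rwa [norm_neg])
    rw [map_neg, norm_neg, map_neg] at e2
    have e3 : ‖L w‖ ≤ 0 := by
      by_contra h0
      push Not at h0
      nlinarith
    exact norm_le_zero_iff.1 e3
  by_cases hw0 : w = 0
  · rw [hw0, map_zero]
  · have hwn : 0 < ‖w‖ := norm_pos_iff.2 hw0
    have h2 := hLw ((r / ‖w‖) • w) (by
      rw [norm_smul, Real.norm_of_nonneg (by positivity), div_mul_cancel₀ _ hwn.ne'])
    rw [map_smul, smul_eq_zero] at h2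
    rcases h2 with h2 | h2
    · have : 0 < r / ‖w‖ := by positivity
      linarith
    · exact h2

/-- monotonicity from strict differentiability -/
lemma mono_of_strict {u : E n → E n} {L : E n →L[ℝ] E n} (hs : HasStrictFDerivAt u L 0)
    {v : E n} (hLv : L v ≠ 0) : ∃ (r : ℝ) (ℓ : E n →L[ℝ] ℝ), 0 < r ∧
      ∀ p q : E n, ‖p‖ ≤ r → ‖q‖ ≤ r → ∀ t : ℝ, 0 < t → ‖q - p - t • v‖ ≤ r * t →
        r * ‖u q - u p‖ < ℓ (u q - u p) := by
  have hLv0 : 0 < ‖L v‖ := norm_pos_iff.2 hLv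
  -- constants
  set c : ℝ := ‖L‖ + ‖v‖ + 2 with hc
  have hc0 : 0 < c := by positivity
  obtain ⟨η, hη, hη1⟩ : ∃ η : ℝ, 0 < η ∧ η * c ≤ ‖L v‖ / 4 :=
    ⟨‖L v‖ / 4 / c, by positivity, by rw [div_mul_cancel₀ _ hc0.ne']⟩
  have h2 : ∀ᶠ z : E n × E n in 𝓝 (0, 0),
      ‖u z.1 - u z.2 - L (z.1 - z.2)‖ ≤ η * ‖z.1 - z.2‖ := hs.isLittleO.def hη
  obtain ⟨δ, hδ, hball'⟩ := Metric.eventually_nhds_iff_ball.1 h2
  have hball : ∀ q p : E n, ‖q‖ < δ → ‖p‖ < δ → ‖u q - u p - L (q - p)‖ ≤ η * ‖q - p‖ := by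
    intro q p hq hp
    refine hball' (q, p) ?_
    rw [mem_ball, Prod.dist_eq, max_lt_iff]
    exact ⟨by simpa using hq, by simpa using hp⟩
  clear hball' h2
  set r : ℝ := min (min (δ / 2) 1) (min η (‖L v‖ / 4)) with hr
  have hr0 : 0 < r := by positivity
  have hr1 : r ≤ δ / 2 := (min_le_left _ _).trans (min_le_left _ _)
  have hr2 : r ≤ 1 := (min_le_left _ _).trans (min_le_right _ _)
  have hr3 : r ≤ η := (min_le_right _ _).trans (min_le_left _ _)
  have hr4 : r ≤ ‖L v‖ / 4 := (min_le_right _ _).trans (min_le_right _ _)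
  refine ⟨r, innerSL ℝ (L v), hr0, fun p q hp hq t ht hpq => ?_⟩
  have h3 : ‖u q - u p - L (q - p)‖ ≤ η * ‖q - p‖ :=
    hball q p (by linarith) (by linarith)
  have h5 : ‖q - p‖ ≤ t * (‖v‖ + 1) := by
    have h6 : q - p = (q - p - t • v) + t • v := by abel
    rw [h6]
    refine (norm_add_le _ _).trans ?_
    rw [norm_smul, Real.norm_of_nonneg ht.le]
    nlinarith
  set w : E n := (u q - u p) - t • L v with hw
  have h7 : ‖w‖ ≤ t * (‖L v‖ / 4) := by
    have h8 : w = (u q - u p - L (q - p)) + L (q - p - t • v) := by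
      rw [hw]; simp only [map_sub, map_smul]; abel
    rw [h8]
    refine (norm_add_le _ _).trans ?_
    have h9 : ‖L (q - p - t • v)‖ ≤ ‖L‖ * (r * t) := (L.le_opNorm _).trans (by gcongr)
    have h10 : η * ‖q - p‖ ≤ η * (t * (‖v‖ + 1)) := by gcongr
    have h11 : ‖L‖ * (r * t) ≤ ‖L‖ * (η * t) := by gcongr
    have h12 : η * (t * (‖v‖ + 1)) + ‖L‖ * (η * t) ≤ t * (η * c) := by
      rw [hc]
      have : 0 ≤ η * t := by positivity
      nlinarith
    have h13 : t * (η * c) ≤ t * (‖L v‖ / 4) := by gcongr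
    linarith
  have h14 : u q - u p = t • L v + w := by rw [hw]; abel
  have h15 : innerSL ℝ (L v) (u q - u p) = t * ‖L v‖ ^ 2 + ⟪L v, w⟫ := by
    rw [h14, innerSL_apply_apply, inner_add_right, inner_smul_right, real_inner_self_eq_norm_sq]
  have h16 : |⟪L v, w⟫| ≤ ‖L v‖ * ‖w‖ := abs_real_inner_le_norm _ _
  have h17 : ‖L v‖ * ‖w‖ ≤ ‖L v‖ * (t * (‖L v‖ / 4)) := by gcongr
  have h18 : ‖u q - u p‖ ≤ t * ‖L v‖ + t * (‖L v‖ / 4) := by
    rw [h14]
    refine (norm_add_le _ _).trans ?_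
    rw [norm_smul, Real.norm_of_nonneg ht.le]
    linarith
  have h19 : r * ‖u q - u p‖ ≤ ‖L v‖ / 4 * (t * ‖L v‖ + t * (‖L v‖ / 4)) := by gcongr
  have h20 := neg_abs_le ⟪L v, w⟫
  change r * ‖u q - u p‖ < innerSL ℝ (L v) (u q - u p)
  rw [h15]
  have h21 : 0 < t * ‖L v‖ ^ 2 := by positivity
  nlinarith

section man

variable {X Y : Type} [TopologicalSpace X] [ChartedSpace (E n) X]
  [TopologicalSpace Y] [ChartedSpace (E n) Y]
  [IsManifold (𝓡 n) ∞ X] [IsManifold (𝓡 n) ∞ Y]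

lemma CP.of_chart {P : (E n →L[ℝ] E n) → Prop} (hP : LinInv P) {f : X → Y} {x : X}
    {φ : X → E n} {ψ : E n → Y} {u : E n → E n} (hφ : LD n φ x) (hψ : LD n ψ (u (φ x)))
    (hu : CP P u (φ x)) (heq : f =ᶠ[𝓝 x] fun y => ψ (u (φ y))) : CP P f x := by
  refine CP.congr ?_ heq
  have h1 : CP P (fun y => u (φ y)) x := CP.pre hP (f := u) (g := φ) hφ hu
  exact CP.post hP (g := ψ) (f := fun y => u (φ y)) hψ h1

lemma CP.eventually {P : (E n →L[ℝ] E n) → Prop} (hP : LinInv P) (hPo : IsOpen {L | P L})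
    {f : X → Y} {x : X} (hf : CP P f x) : ∀ᶠ y in 𝓝 x, CP P f y := by
  obtain ⟨φ, hφ⟩ : ∃ φ : OpenPartialHomeomorph X (E n), φ = chartAt (E n) x := ⟨_, rfl⟩
  obtain ⟨e, he⟩ : ∃ e : OpenPartialHomeomorph Y (E n), e = chartAt (E n) (f x) := ⟨_, rfl⟩
  have hxs : x ∈ φ.source := by rw [hφ]; exact mem_chart_source _ _
  have hfs : f x ∈ e.source := by rw [he]; exact mem_chart_source _ _
  have heLD : ∀ y ∈ e.source, LD n e y := by rw [he]; exact fun y hy => LD_chart _ y hy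
  have hφLD : ∀ y ∈ φ.source, LD n φ y := by rw [hφ]; exact fun y hy => LD_chart _ y hy
  have hφsLD : ∀ z ∈ φ.target, LD n φ.symm z := by rw [hφ]; exact fun z hz => chart_symm_LD _ hz
  have hesLD : ∀ z ∈ e.target, LD n e.symm z := by rw [he]; exact fun z hz => chart_symm_LD _ hz
  set u : E n → E n := fun z => e (f (φ.symm z)) with hu
  have h1 : CP P u (φ x) := by
    have h2 : CP P (fun y => e (f y)) (φ.symm (φ x)) := by
      rw [φ.left_inv hxs]
      exact hf.post hP (heLD _ hfs)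
    exact CP.pre hP (f := fun y => e (f y)) (g := fun z => φ.symm z) (hφsLD _ (φ.map_source hxs)) h2
  obtain ⟨h1a, h1b⟩ := CP_vec.1 h1
  have h2 : ∀ᶠ z in 𝓝 (φ x), ContDiffAt ℝ 1 u z := h1a.eventually (by simp)
  have h3 : ∀ᶠ z in 𝓝 (φ x), P (fderiv ℝ u z) :=
    (h1a.continuousAt_fderiv (by simp)).eventually (hPo.mem_nhds h1b)
  have h4 : ∀ᶠ y in 𝓝 x, CP P u (φ y) := by
    refine (φ.continuousAt hxs).eventually ?_
    filter_upwards [h2, h3] with z hz hz'
    exact CP_vec.2 ⟨hz, hz'⟩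
  have hfc : ContinuousAt f x := hf.1.continuousAt
  have h5 : ∀ᶠ y in 𝓝 x, y ∈ φ.source ∧ f y ∈ e.source :=
    Filter.Eventually.and (φ.open_source.mem_nhds hxs)
      (hfc.eventually (e.open_source.mem_nhds hfs))
  filter_upwards [h4, h5.eventually_nhds] with y hy hy'
  obtain ⟨hys, hfy⟩ := hy'.self_of_nhds
  have e1 : u (φ y) = e (f y) := by
    simp only [hu]; rw [φ.left_inv hys]
  refine CP.of_chart hP (φ := φ) (ψ := e.symm) (u := u) (hφLD y hys) ?_ hy ?_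
  · rw [e1]; exact hesLD _ (e.map_source hfy)
  · filter_upwards [hy'] with w hw
    obtain ⟨hw1, hw2⟩ := hw
    simp only [hu]
    rw [φ.left_inv hw1, e.left_inv hw2]

/-- back from coordinates -/
lemma CP.of_coord {P : (E n →L[ℝ] E n) → Prop} (hP : LinInv P) {f : X → Y} {x : X}
    (hf : ContinuousAt f x) {A : E n → X} {B : Y → E n} {z : E n} (hA0 : A z = x)
    (hAd : LD n A z) (hB : LD n B (f x)) (h : CP P (fun z => B (f (A z))) z) : CP P f x := by
  obtain ⟨p, hp1, hp2, -, hp4⟩ := Pool.Agent.Y522.LD.exists_inverse hAd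
  obtain ⟨q, hq1, hq2, hq3, -⟩ := Pool.Agent.Y522.LD.exists_inverse hB
  rw [hA0] at hp1 hp2 hp4
  refine CP.of_chart hP (φ := p) (ψ := q) (u := fun z => B (f (A z))) hp1 ?_ ?_ ?_
  · rw [hp2]
    have : B (f (A z)) = B (f x) := by rw [hA0]
    rw [this]; exact hq1
  · rw [hp2]; exact h
  · filter_upwards [hp4, hf.eventually hq3] with y hy1 hy2
    rw [hy1, hy2]

/-- to coordinates -/
lemma CP.to_coord {P : (E n →L[ℝ] E n) → Prop} (hP : LinInv P) {f : X → Y} {x : X}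
    {A : E n → X} {B : Y → E n} {z : E n} (hA0 : A z = x)
    (hAd : LD n A z) (hB : LD n B (f x)) (h : CP P f x) : CP P (fun z => B (f (A z))) z := by
  have h2 : CP P (fun y => B (f y)) (A z) := by
    rw [hA0]
    exact h.post hP hB
  exact CP.pre hP (f := fun y => B (f y)) (g := A) hAd h2

lemma isOpen_CP1 {f : X → Y} : IsOpen {x | CP (n := n) K1 f x} := by
  rw [isOpen_iff_mem_nhds]
  intro x hx
  exact CP.eventually linInv_K1 isOpen_K1 hx

/-- injectivity of the derivative, from `C^1` inverses -/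
lemma CP1.both {f : X ≃ₜ Y} {x : X} (h1 : CP (n := n) K1 f x)
    (h2 : CP (n := n) K1 f.symm (f x)) : CP (n := n) K0 f x := by
  refine ⟨h1.1, ?_⟩
  have hfd : MDifferentiableAt (𝓡 n) (𝓡 n) f (f.symm (f x)) := by
    rw [f.symm_apply_apply]; exact h1.1.mdifferentiableAt (by simp)
  have hgd : MDifferentiableAt (𝓡 n) (𝓡 n) f.symm (f x) := h2.1.mdifferentiableAt (by simp)
  have e1 := mfderiv_comp (f x) hfd hgd
  have e2 : (f ∘ f.symm : Y → Y) = id := by ext y; simp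
  rw [e2, mfderiv_id] at e1
  obtain ⟨A, hA⟩ : ∃ A : E n →L[ℝ] E n, A = mfderiv (𝓡 n) (𝓡 n) f (f.symm (f x)) := ⟨_, rfl⟩
  obtain ⟨B, hB⟩ : ∃ B : E n →L[ℝ] E n, B = mfderiv (𝓡 n) (𝓡 n) f.symm (f x) := ⟨_, rfl⟩
  have e3 : ContinuousLinearMap.id ℝ (E n) = A.comp B := by
    rw [hA, hB]; exact e1
  have hs : Surjective A := fun y => ⟨B y, by
    have := congrArg (fun T : E n →L[ℝ] E n => T y) e3
    simpa using this.symm⟩
  have hi : Injective A := (LinearMap.injective_iff_surjective (f := A.toLinearMap)).2 hs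
  have hx : f.symm (f x) = x := f.symm_apply_apply x
  have h3 : ∀ x', f.symm (f x) = x' → K0 (mfderiv (𝓡 n) (𝓡 n) f x' : E n →L[ℝ] E n) := by
    rintro _ rfl
    rw [hA] at hi
    exact hi
  exact h3 x hx

/-- `C^1` diffeomorphisms are cone monotone -/
lemma CP0.cmon {f : X → Y} {x : X} (h : CP (n := n) K0 f x) : CMon n f x := by
  obtain ⟨φ, hφ⟩ : ∃ φ : OpenPartialHomeomorph X (E n), φ = chartAt (E n) x := ⟨_, rfl⟩
  obtain ⟨e, he⟩ : ∃ e : OpenPartialHomeomorph Y (E n), e = chartAt (E n) (f x) := ⟨_, rfl⟩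
  have hxs : x ∈ φ.source := by rw [hφ]; exact mem_chart_source _ _
  have hfs : f x ∈ e.source := by rw [he]; exact mem_chart_source _ _
  have heLD : LD n e (f x) := by rw [he]; exact LD_chart _ _ (mem_chart_source _ _)
  have hφsLD : ∀ z ∈ φ.target, LD n φ.symm z := by rw [hφ]; exact fun z hz => chart_symm_LD _ hz
  set A : E n → X := fun z => φ.symm (z + φ x) with hA
  have hA0 : A 0 = x := by simp only [hA]; rw [zero_add]; exact φ.left_inv hxs
  have hAd : LD n A 0 := by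
    have h1 : LD n (fun z : E n => z + φ x) 0 := Pool.Agent.Y522.LD_add_const (φ x) 0
    have h2 : LD n (fun z : E n => φ.symm z) ((fun z : E n => z + φ x) 0) := by
      simp only [zero_add]
      exact hφsLD _ (φ.map_source hxs)
    exact Pool.Agent.Y522.LD.comp_fun h2 h1
  refine ⟨e, heLD, A, hA0, hAd, fun v hv => ?_⟩
  set u : E n → E n := fun z => e (f (A z)) with hu
  have h1 : CP K0 u 0 := CP.to_coord linInv_K0 hA0 hAd heLD h
  obtain ⟨h1a, h1b⟩ := CP_vec.1 h1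
  have hs : HasStrictFDerivAt u (fderiv ℝ u 0) 0 := h1a.hasStrictFDerivAt (by simp)
  have hLv : fderiv ℝ u 0 v ≠ 0 := fun h0 => hv (h1b (by rw [h0, map_zero]))
  exact mono_of_strict hs hLv

/-- cone monotone maps of class `C^1` and corank at most one -/
lemma CMon.cp0 (hn : 2 ≤ n) {f : X → Y} {x : X} (hm : CMon n f x) (h : CP (n := n) K1 f x) :
    CP (n := n) K0 f x := by
  refine ⟨h.1, ?_⟩
  obtain ⟨B, hB, A, hA0, hAd, hmon⟩ := hm
  set u : E n → E n := fun z => B (f (A z)) with hu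
  -- transfer to the coordinates
  obtain ⟨h1a, h1b⟩ := CP_vec.1 (CP.to_coord linInv_K1 hA0 hAd hB h)
  set L := fderiv ℝ u 0 with hL
  have hd : HasFDerivAt u L 0 := (h1a.differentiableAt (by simp)).hasFDerivAt
  have hinj : K0 L := by
    by_contra hcon
    obtain ⟨v, hv0, hv⟩ : ∃ v, L v = 0 ∧ v ≠ 0 := by
      by_contra hcon'
      push Not at hcon'
      exact hcon ((injective_iff_map_eq_zero _).2 hcon')
    obtain ⟨w, hw⟩ := h1b.exists_ne hn
    obtain ⟨r, ℓ, hr, hℓ⟩ := hmon v hv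
    exact hw (zero_of_mono hd hv0 hr hℓ w)
  -- back to the manifold
  exact (CP.of_coord linInv_K0 h.1.continuousAt hA0 hAd hB (CP_vec.2 ⟨h1a, hinj⟩)).2

end man

end Run7.h7
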