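import Mathlib
import Pool.Agent.Run7.h7.C1Mon

/-!
Homeomorphisms between manifolds which are of class `C^1` with derivatives of corank at most one on
an open set: improvement near a compact subset.
-/

open Filter Set Metric Function
open scoped Topology ContDiff Manifold

namespace Run7.h7

open Pool.Agent.Y522 (LD)
open Pool.Agent.Y66.CM (CMon CMonE LD_chart)

variable {n : ℕ}

section man

variable {X Y : Type} [TopologicalSpace X] [T2Space X] [ChartedSpace (E n) X]
  [TopologicalSpace Y] [ChartedSpace (E n) Y]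
  [IsManifold (𝓡 n) ∞ X] [IsManifold (𝓡 n) ∞ Y]

/-- **One step.** -/
theorem man_step (F : X ≃ₜ Y) {R : Set X} (hF : ∀ x ∈ R, CP (n := n) K1 F x)
    (e : OpenPartialHomeomorph Y (E n)) (heLD : ∀ y ∈ e.source, LD n (e : Y → E n) y)
    (hesLD : ∀ z ∈ e.target, LD n (e.symm : E n → Y) z)
    (φ : OpenPartialHomeomorph X (E n)) (hφLD : ∀ x ∈ φ.source, LD n (φ : X → E n) x)
    (hφsLD : ∀ z ∈ φ.target, LD n (φ.symm : E n → X) z) (hφR : φ.source ⊆ R)
    (hφe : ∀ x ∈ φ.source, F x ∈ e.source) {K : Set X} (hK : IsCompact K) (hKφ : K ⊆ φ.source)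
    {O : Set (X × Y)} (hO : IsOpen O) (hFO : ∀ x, (x, F x) ∈ O) :
    ∃ (F' : X ≃ₜ Y) (C : Set X), IsCompact C ∧ C ⊆ φ.source ∧ (∀ x, x ∉ C → F' x = F x) ∧
      (∀ x, (x, F' x) ∈ O) ∧ (∀ x ∈ R, CP (n := n) K1 F' x) ∧
      (∀ x, CP (n := n) K0 F x → CP (n := n) K0 F' x) ∧ ∀ x ∈ K, CP (n := n) K0 F' x := by
  classical
  have hT2Y : T2Space Y := F.t2Space
  set Ω : Set (E n) := φ.target with hΩ
  have hΩo : IsOpen Ω := φ.open_target
  set u : E n → E n := fun z => e (F (φ.symm z)) with hu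
  have hms : ∀ z ∈ Ω, φ.symm z ∈ φ.source := fun z hz => φ.map_target hz
  have huP : ∀ P : (E n →L[ℝ] E n) → Prop, LinInv P → ∀ z ∈ Ω, CP (n := n) P F (φ.symm z) →
      CP (n := n) P u z := fun P hP z hz h =>
    CP.to_coord (n := n) (A := φ.symm) (B := e) hP rfl (hφsLD z hz) (heLD _ (hφe _ (hms z hz))) h
  have hu1 : ∀ z ∈ Ω, CP (n := n) K1 u z := fun z hz =>
    huP K1 linInv_K1 z hz (hF _ (hφR (hms z hz)))
  have hV : V1 Ω u := by
    refine ⟨fun z hz w hw hzw => ?_, fun z hz => ?_, fun z hz => (CP_vec.1 (hu1 z hz)).2⟩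
    · have h1 := e.injOn (hφe _ (hms z hz)) (hφe _ (hms w hw)) hzw
      exact φ.symm.injOn hz hw (F.injective h1)
    · exact (CP_vec.1 (hu1 z hz)).1.contDiffWithinAt
  have huc : ContinuousOn u Ω := hV.c1.continuousOn
  have hut : ∀ z ∈ Ω, u z ∈ e.target := fun z hz => e.map_source (hφe _ (hms z hz))
  -- the compact sets
  set K' : Set (E n) := φ '' K with hK'
  have hK'c : IsCompact K' := hK.image_of_continuousOn (φ.continuousOn.mono hKφ)
  have hK'Ω : K' ⊆ Ω := by
    rintro _ ⟨x, hx, rfl⟩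
    exact φ.map_source (hKφ hx)
  obtain ⟨C', hC'c, hK'C', hC'Ω⟩ := exists_compact_between hK'c hΩo hK'Ω
  have hdis : Disjoint K' (interior C')ᶜ := disjoint_compl_right_iff_subset.2 hK'C'
  -- the size of the perturbation
  set G : Set (E n × E n) := {p | p.1 ∈ Ω ∧ p.2 ∈ e.target ∧ (φ.symm p.1, e.symm p.2) ∈ O} with hG
  have hGo : IsOpen G := by
    have h1 : ContinuousOn (fun p : E n × E n => ((φ.symm p.1, e.symm p.2) : X × Y))
        (Ω ×ˢ e.target) :=
      (φ.continuousOn_symm.comp continuousOn_fst fun p hp => hp.1).prodMk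
        (e.continuousOn_symm.comp continuousOn_snd fun p hp => hp.2)
    have h2 := h1.isOpen_inter_preimage (hΩo.prod e.open_target) hO
    have h3 : G = Ω ×ˢ e.target ∩
        (fun p : E n × E n => ((φ.symm p.1, e.symm p.2) : X × Y)) ⁻¹' O := by
      ext p
      simp only [hG, mem_ofPred_eq, mem_inter_iff, mem_prod, mem_preimage]
      tauto
    rw [h3]; exact h2
  have hgr : IsCompact ((fun z => (z, u z)) '' C') :=
    hC'c.image_of_continuousOn (continuousOn_id.prodMk (huc.mono hC'Ω))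
  have hgrG : (fun z => (z, u z)) '' C' ⊆ G := by
    rintro _ ⟨z, hz, rfl⟩
    have hzΩ := hC'Ω hz
    refine ⟨hzΩ, hut z hzΩ, ?_⟩
    simp only [hu]
    rw [e.left_inv (hφe _ (hms z hzΩ))]
    exact hFO _
  obtain ⟨κ, hκ, hκG⟩ := hgr.exists_cthickening_subset_open hGo hgrG
  have hclose : ∀ z ∈ C', ∀ y : E n, ‖y - u z‖ ≤ κ → y ∈ e.target ∧
      (φ.symm z, e.symm y) ∈ O := by
    intro z hz y hy
    have h1 : ((z, y) : E n × E n) ∈ cthickening κ ((fun z => (z, u z)) '' C') := by
      refine mem_cthickening_of_dist_le (z, y) (z, u z) κ _ ⟨z, hz, rfl⟩ ?_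
      rw [Prod.dist_eq]
      simp only [dist_self]
      rw [max_le_iff]
      exact ⟨hκ.le, by rw [dist_eq_norm]; exact hy⟩
    exact (hκG h1).2
  obtain ⟨v, hv1, hvI, hvC, hvκ, -, hvG, hvK⟩ := stage1 hΩo hV hK'c hK'Ω
    isOpen_interior.isClosed_compl hdis hκ
  have hvout : ∀ z, z ∉ C' → v z = u z := fun z hz => hvC z fun h => hz (interior_subset h)
  have hvt : ∀ z ∈ Ω, v z ∈ e.target := by
    intro z hz
    obtain ⟨w, hw, hwz⟩ : v z ∈ u '' Ω := by rw [← hvI]; exact ⟨z, hz, rfl⟩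
    rw [← hwz]; exact hut w hw
  -- the new map
  set g : X → Y := fun x => if x ∈ φ.source then e.symm (v (φ x)) else F x with hg
  have hgin : ∀ x ∈ φ.source, g x = e.symm (v (φ x)) := fun x hx => by simp only [hg]; rw [if_pos hx]
  have hgout : ∀ x, x ∉ φ.source → g x = F x := fun x hx => by simp only [hg]; rw [if_neg hx]
  set C : Set X := φ.symm '' C' with hC
  have hCc : IsCompact C := hC'c.image_of_continuousOn (φ.continuousOn_symm.mono hC'Ω)
  have hCs : C ⊆ φ.source := by
    rintro _ ⟨z, hz, rfl⟩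
    exact hms z (hC'Ω hz)
  have hFin : ∀ x ∈ φ.source, e.symm (u (φ x)) = F x := by
    intro x hx
    simp only [hu]
    rw [φ.left_inv hx, e.left_inv (hφe x hx)]
  have hoff : ∀ x, x ∉ C → g x = F x := by
    intro x hx
    by_cases hxs : x ∈ φ.source
    · rw [hgin x hxs, hvout (φ x) fun h => hx ⟨φ x, h, φ.left_inv hxs⟩, hFin x hxs]
    · exact hgout x hxs
  have hgsurj : Surjective g := by
    intro y
    obtain ⟨x, rfl⟩ := F.surjective y
    by_cases hxs : x ∈ φ.source
    · obtain ⟨z, hz, hzx⟩ : u (φ x) ∈ v '' Ω := by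
        rw [hvI]; exact ⟨φ x, φ.map_source hxs, rfl⟩
      refine ⟨φ.symm z, ?_⟩
      rw [hgin _ (hms z hz), φ.right_inv hz, hzx, hFin x hxs]
    · exact ⟨x, hgout x hxs⟩
  have hgF : ∀ x ∈ φ.source, ∃ x' ∈ φ.source, g x = F x' := by
    intro x hx
    obtain ⟨z, hz, hzx⟩ : v (φ x) ∈ u '' Ω := by rw [← hvI]; exact ⟨φ x, φ.map_source hx, rfl⟩
    refine ⟨φ.symm z, hms z hz, ?_⟩
    rw [hgin x hx, ← hzx, ← hFin _ (hms z hz), φ.right_inv hz]
  have hginj : Injective g := by
    intro x x' hxx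
    by_cases hx : x ∈ φ.source
    · by_cases hx' : x' ∈ φ.source
      · rw [hgin x hx, hgin x' hx'] at hxx
        have h1 := e.symm.injOn (hvt _ (φ.map_source hx)) (hvt _ (φ.map_source hx')) hxx
        have h2 := hv1.inj (φ.map_source hx) (φ.map_source hx') h1
        exact φ.injOn hx hx' h2
      · exfalso
        obtain ⟨x'', hx'', h1⟩ := hgF x hx
        rw [h1, hgout x' hx'] at hxx
        exact hx' (F.injective hxx ▸ hx'')
    · by_cases hx' : x' ∈ φ.source
      · exfalso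
        obtain ⟨x'', hx'', h1⟩ := hgF x' hx'
        rw [h1, hgout x hx] at hxx
        exact hx (F.injective hxx ▸ hx'')
      · rw [hgout x hx, hgout x' hx'] at hxx
        exact F.injective hxx
  have hnear : ∀ x ∈ φ.source, g =ᶠ[𝓝 x] fun y => e.symm (v (φ y)) := by
    intro x hx
    filter_upwards [φ.open_source.mem_nhds hx] with y hy
    exact hgin y hy
  have hfar : ∀ x, x ∉ φ.source → g =ᶠ[𝓝 x] F := by
    intro x hx
    filter_upwards [hCc.isClosed.isOpen_compl.mem_nhds fun h => hx (hCs h)] with y hy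
    exact hoff y hy
  have hgc : Continuous g := by
    rw [continuous_iff_continuousAt]
    intro x
    by_cases hx : x ∈ φ.source
    · refine ContinuousAt.congr ?_ (hnear x hx).symm
      have h1 : ContinuousAt v (φ x) :=
        hv1.c1.continuousOn.continuousAt (hΩo.mem_nhds (φ.map_source hx))
      have h2 : ContinuousAt e.symm (v (φ x)) :=
        e.symm.continuousAt (hvt _ (φ.map_source hx))
      exact ContinuousAt.comp (f := fun y => v (φ y)) h2
        (ContinuousAt.comp (f := φ) h1 (φ.continuousAt hx))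
    · exact ContinuousAt.congr F.continuous.continuousAt (hfar x hx).symm
  have hgcl : IsClosedMap g := by
    intro S hS
    have hid : ∀ x ∈ closure Cᶜ, g x = F x := by
      have h2 : IsClosed {x | g x = F x} := isClosed_eq hgc F.continuous
      exact fun x hx => closure_minimal (fun z hz => hoff z hz) h2 hx
    have h3 : g '' S = g '' (C ∩ S) ∪ F '' (closure Cᶜ ∩ S) := by
      ext y
      constructor
      · rintro ⟨z, hz, rfl⟩
        by_cases hzC : z ∈ C
        · exact Or.inl ⟨z, ⟨hzC, hz⟩, rfl⟩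
        · right
          rw [hoff z hzC]
          exact ⟨z, ⟨subset_closure hzC, hz⟩, rfl⟩
      · rintro (⟨z, ⟨-, hz⟩, rfl⟩ | ⟨z, ⟨hz, hzS⟩, rfl⟩)
        · exact ⟨z, hz, rfl⟩
        · exact ⟨z, hzS, hid z hz⟩
    rw [h3]
    exact ((hCc.inter_right hS).image hgc).isClosed.union
      (F.isClosedMap _ (isClosed_closure.inter hS))
  let F' : X ≃ₜ Y := (Equiv.ofBijective g ⟨hginj, hgsurj⟩).toHomeomorphOfContinuousClosed hgc hgcl
  have hF' : (F' : X → Y) = g := rfl
  have hLoc : ∀ P : (E n →L[ℝ] E n) → Prop, LinInv P → ∀ x ∈ φ.source,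
      CP (n := n) P v (φ x) → CP (n := n) P g x := by
    intro P hP x hx h
    exact CP.of_chart (n := n) hP (φ := φ) (ψ := e.symm) (u := v) (hφLD x hx)
      (hesLD _ (hvt _ (φ.map_source hx))) h (hnear x hx)
  have hvc1 : ∀ z ∈ Ω, ContDiffAt ℝ 1 v z := fun z hz => hv1.c1.contDiffAt (hΩo.mem_nhds hz)
  refine ⟨F', C, hCc, hCs, ?_, ?_, ?_, ?_, ?_⟩
  · rw [hF']; exact hoff
  · rw [hF']
    intro x
    by_cases hx : x ∈ C
    · obtain ⟨z, hz, rfl⟩ := hx
      rw [hgin _ (hms z (hC'Ω hz)), φ.right_inv (hC'Ω hz)]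
      exact (hclose z hz _ (hvκ z)).2
    · rw [hoff x hx]; exact hFO x
  · rw [hF']
    intro x hxR
    by_cases hx : x ∈ φ.source
    · have hz := φ.map_source hx
      exact hLoc K1 linInv_K1 x hx (CP_vec.2 ⟨hvc1 _ hz, hv1.loc _ hz⟩)
    · exact (hF x hxR).congr (hfar x hx)
  · rw [hF']
    intro x h0
    by_cases hx : x ∈ φ.source
    · have hz := φ.map_source hx
      have h1 : CP (n := n) K0 u (φ x) := huP K0 linInv_K0 _ hz (by rwa [φ.left_inv hx])
      exact hLoc K0 linInv_K0 x hx (CP_vec.2 ⟨hvc1 _ hz, hvG _ hz (CP_vec.1 h1).2⟩)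
    · exact h0.congr (hfar x hx)
  · rw [hF']
    intro x hxK
    have hx := hKφ hxK
    have hz := φ.map_source hx
    exact hLoc K0 linInv_K0 x hx (CP_vec.2 ⟨hvc1 _ hz, hvK _ ⟨x, hxK, rfl⟩⟩)

/-- **The first phase**: improvement near a compact subset of the open set. -/
theorem phase_one (f : X ≃ₜ Y) {R : Set X} (hR : IsOpen R) (hf : ∀ x ∈ R, CP (n := n) K1 f x)
    {S : Set X} (hS : IsCompact S) (hSR : S ⊆ R)
    {O : Set (X × Y)} (hO : IsOpen O) (hfO : ∀ x, (x, f x) ∈ O) :
    ∃ (F : X ≃ₜ Y) (C : Set X), IsCompact C ∧ C ⊆ R ∧ (∀ x, x ∉ C → F x = f x) ∧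
      (∀ x, (x, F x) ∈ O) ∧ (∀ x ∈ R, CP (n := n) K1 F x) ∧
      (∀ x, CP (n := n) K0 f x → CP (n := n) K0 F x) ∧ ∀ x ∈ S, CP (n := n) K0 F x := by
  classical
  have hlc : LocallyCompactSpace X := ChartedSpace.locallyCompactSpace (E n) X
  have hD : ∀ x ∈ S, ∃ D : Set X, IsCompact D ∧ x ∈ interior D ∧
      D ⊆ R ∩ ((chartAt (E n) x).source ∩ f ⁻¹' (chartAt (E n) (f x)).source) := by
    intro x hx
    exact exists_compact_subset (hR.inter ((chartAt (E n) x).open_source.inter
      ((chartAt (E n) (f x)).open_source.preimage f.continuous)))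
      ⟨hSR hx, mem_chart_source _ _, mem_chart_source _ _⟩
  choose! D hDc hDx hDV using hD
  have hD' : ∀ x ∈ S, ∃ D' : Set X, IsCompact D' ∧ x ∈ interior D' ∧ D' ⊆ interior (D x) :=
    fun x hx => exists_compact_subset isOpen_interior (hDx x hx)
  choose! D' hDc' hDx' hDV' using hD'
  obtain ⟨t, htS, ht⟩ := hS.elim_nhds_subcover (fun x => interior (D' x))
    (fun x hx => isOpen_interior.mem_nhds (hDx' x hx))
  obtain ⟨O', hO'd⟩ : ∃ O' : Set (X × Y), O' = O ∩ ⋂ x ∈ t, {p : X × Y | p.1 ∉ D x ∨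
    p.2 ∈ (chartAt (E n) (f x)).source} := ⟨_, rfl⟩
  have hO'm : ∀ p : X × Y, p ∈ O' ↔ p ∈ O ∧ ∀ x ∈ t, p.1 ∉ D x ∨
      p.2 ∈ (chartAt (E n) (f x)).source := by
    intro p
    rw [hO'd]
    simp
  have hO'o : IsOpen O' := by
    rw [hO'd]
    refine hO.inter (isOpen_biInter_finset fun x hx => ?_)
    have h1 : IsOpen {p : X × Y | p.1 ∉ D x} :=
      (hDc x (htS x hx)).isClosed.isOpen_compl.preimage continuous_fst
    have h2 : IsOpen {p : X × Y | p.2 ∈ (chartAt (E n) (f x)).source} :=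
      (chartAt (E n) (f x)).open_source.preimage continuous_snd
    exact h1.union h2
  have hfO' : ∀ x, (x, f x) ∈ O' := by
    intro x
    rw [hO'm]
    refine ⟨hfO x, fun z hz => ?_⟩
    by_cases hxz : x ∈ D z
    · exact Or.inr (hDV z (htS z hz) hxz).2.2
    · exact Or.inl hxz
  have hind : ∀ s : Finset X, s ⊆ t → ∃ (F : X ≃ₜ Y) (C : Set X), IsCompact C ∧ C ⊆ R ∧
      (∀ x, x ∉ C → F x = f x) ∧ (∀ x, (x, F x) ∈ O') ∧ (∀ x ∈ R, CP (n := n) K1 F x) ∧
      (∀ x, CP (n := n) K0 f x → CP (n := n) K0 F x) ∧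
      ∀ z ∈ s, ∀ x ∈ D' z, CP (n := n) K0 F x := by
    intro s
    induction s using Finset.induction_on with
    | empty =>
      intro _
      exact ⟨f, ∅, isCompact_empty, empty_subset _, fun _ _ => rfl, hfO', hf, fun _ h => h,
        fun z hz => absurd hz (Finset.notMem_empty z)⟩
    | insert a s ha ih =>
      intro hst
      obtain ⟨F1, C1, hC1, hC1R, h1, h2, h3, h4, h5⟩ := ih ((Finset.subset_insert a s).trans hst)
      have hat : a ∈ t := hst (Finset.mem_insert_self a s)
      have haS := htS a hat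
      have hUs : interior (D a) ⊆ (chartAt (E n) a).source := fun x hx =>
        (hDV a haS (interior_subset hx)).2.1
      let φ : OpenPartialHomeomorph X (E n) := (chartAt (E n) a).restr (interior (D a))
      have hφs : φ.source = interior (D a) := by
        change ((chartAt (E n) a).restr (interior (D a))).source = interior (D a)
        rw [OpenPartialHomeomorph.restr_source' _ _ isOpen_interior]
        exact inter_eq_right.2 hUs
      have hφt : ∀ z ∈ φ.target, z ∈ (chartAt (E n) a).target := by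
        intro z hz
        exact ((chartAt (E n) a).restr_toPartialEquiv' _ isOpen_interior ▸ hz :
          z ∈ ((chartAt (E n) a).toPartialEquiv.restr (interior (D a))).target).1
      obtain ⟨F2, C2, g1, g2, g3, g4, g5, g6, g7⟩ := man_step F1 h3 (chartAt (E n) (f a))
        (fun y hy => LD_chart (f a) y hy) (fun z hz => chart_symm_LD (f a) hz) φ
        (fun x hx => LD_chart a x (hUs (hφs ▸ hx)))
        (fun z hz => chart_symm_LD a (hφt z hz))
        (fun x hx => (hDV a haS (interior_subset (hφs ▸ hx : x ∈ interior (D a)))).1)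
        (fun x hx => by
          have hx' : x ∈ interior (D a) := hφs ▸ hx
          rcases ((hO'm _).1 (h2 x)).2 a hat with h6 | h6
          · exact absurd (interior_subset hx') h6
          · exact h6)
        (hDc' a haS) (by rw [hφs]; exact hDV' a haS) hO'o h2
      refine ⟨F2, C1 ∪ C2, hC1.union g1, union_subset hC1R (g2.trans ?_), fun x hx => ?_, g4, g5,
        fun x hx => g6 x (h4 x hx), fun z hz x hxz => ?_⟩
      · rw [hφs]
        exact fun x hx => (hDV a haS (interior_subset hx)).1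
      · rw [mem_union, not_or] at hx
        rw [g3 x hx.2, h1 x hx.1]
      · rcases Finset.mem_insert.1 hz with h10 | h10
        · subst h10
          exact g7 x hxz
        · exact g6 x (h5 z h10 x hxz)
  obtain ⟨F, C, h0, h0', h1, h2, h3, h4, h5⟩ := hind t (Finset.Subset.refl t)
  refine ⟨F, C, h0, h0', h1, fun x => ((hO'm _).1 (h2 x)).1, h3, h4, fun x hx => ?_⟩
  obtain ⟨z, hz, hxz⟩ := mem_iUnion₂.1 (ht hx)
  exact h5 z hz x (interior_subset hxz)

end man

end Run7.h7
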