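import Mathlib
import Pool.Agent.Run7.h7.C1Mon

/-!
Maps of class `C^1` and cone monotone maps: inverses, openness.
-/

open Filter Set Metric Function
open scoped Topology ContDiff Manifold RealInnerProductSpace

namespace Run7.h7

open Pool.Agent.Y522 (LD)
open Pool.Agent.Y66.CM (CMon CMonE LD_chart)

variable {n : ℕ}

/-- If `u` is monotone near `0` in the direction `L w'` and `k` is a local right inverse, then the
kernel of the derivative `L` of `k` is trivial. -/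
lemma ker_of_mono {u k : E n → E n} {b0 : E n} {L : E n →L[ℝ] E n} (hk : HasFDerivAt k L b0)
    (hk0 : k b0 = 0) (huk : ∀ᶠ z in 𝓝 b0, u (k z) = z) {w' : E n} {r : ℝ} {ℓ : E n →L[ℝ] ℝ}
    (hr : 0 < r)
    (hℓ : ∀ p q : E n, ‖p‖ ≤ r → ‖q‖ ≤ r → ∀ t : ℝ, 0 < t → ‖q - p - t • L w'‖ ≤ r * t →
        r * ‖u q - u p‖ < ℓ (u q - u p)) {w : E n} (hw : L w = 0) : w = 0 := by
  by_contra hw0
  have hwn : 0 < ‖w‖ := norm_pos_iff.2 hw0
  have hu0 : u 0 = b0 := by
    have := huk.self_of_nhds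
    rwa [hk0] at this
  have key : ∀ w₁ : E n, L w₁ = 0 → r * ‖w' + w₁‖ ≤ ℓ (w' + w₁) := by
    intro w₁ hw₁
    have h2 : HasDerivAt (fun t : ℝ => k (b0 + t • (w' + w₁))) (L (w' + w₁)) 0 := by
      have h3 : HasDerivAt (fun t : ℝ => b0 + t • (w' + w₁)) (w' + w₁) 0 := by
        simpa using ((hasDerivAt_id (0 : ℝ)).smul_const (w' + w₁)).const_add b0
      have h4 : HasFDerivAt k L (b0 + (0 : ℝ) • (w' + w₁)) := by rw [zero_smul, add_zero]; exact hk
      exact h4.comp_hasDerivAt (0 : ℝ) h3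
    rw [map_add, hw₁, add_zero] at h2
    have h5 := h2.tendsto_slope_zero_right
    simp only [zero_add, zero_smul, add_zero, hk0, sub_zero] at h5
    have h6 : ∀ᶠ t : ℝ in 𝓝[>] 0, ‖t⁻¹ • k (b0 + t • (w' + w₁)) - L w'‖ ≤ r := by
      have h7 : Tendsto (fun t : ℝ => ‖t⁻¹ • k (b0 + t • (w' + w₁)) - L w'‖) (𝓝[>] 0) (𝓝 0) := by
        have := (h5.sub_const (L w')).norm
        rwa [sub_self, norm_zero] at this
      exact h7.eventually (ge_mem_nhds hr)
    have hc : Tendsto (fun t : ℝ => b0 + t • (w' + w₁)) (𝓝[>] 0) (𝓝 b0) := by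
      have h8 : Continuous (fun t : ℝ => b0 + t • (w' + w₁)) := by fun_prop
      have h9 := (h8.tendsto 0).mono_left (nhdsWithin_le_nhds (s := Ioi 0))
      simpa using h9
    have h10 : ∀ᶠ t : ℝ in 𝓝[>] 0, u (k (b0 + t • (w' + w₁))) = b0 + t • (w' + w₁) :=
      hc.eventually huk
    have h11 : ∀ᶠ t : ℝ in 𝓝[>] 0, ‖k (b0 + t • (w' + w₁))‖ ≤ r := by
      have h12 : Tendsto (fun t : ℝ => ‖k (b0 + t • (w' + w₁))‖) (𝓝[>] 0) (𝓝 0) := by
        have := (hk.continuousAt.tendsto.comp hc).norm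
        rwa [hk0, norm_zero] at this
      exact h12.eventually (ge_mem_nhds hr)
    obtain ⟨t, ht6, ht10, ht11, ht⟩ := (h6.and (h10.and (h11.and
      (self_mem_nhdsWithin : Ioi (0 : ℝ) ∈ 𝓝[>] (0 : ℝ))))).exists
    have ht0 : (0 : ℝ) < t := ht
    have h13 := hℓ 0 (k (b0 + t • (w' + w₁))) (by simpa using hr.le) ht11 t ht0 (by
      have e1 : k (b0 + t • (w' + w₁)) - 0 - t • L w' =
          t • (t⁻¹ • k (b0 + t • (w' + w₁)) - L w') := by
        rw [smul_sub, smul_smul, mul_inv_cancel₀ ht0.ne', one_smul, sub_zero]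
      rw [e1, norm_smul, Real.norm_of_nonneg ht0.le, mul_comm]
      exact mul_le_mul_of_nonneg_right ht6 ht0.le)
    rw [ht10, hu0, add_sub_cancel_left, norm_smul, map_smul, smul_eq_mul,
      Real.norm_of_nonneg ht0.le] at h13
    have h14 : t * (r * ‖w' + w₁‖) < t * ℓ (w' + w₁) := by linarith
    exact (lt_of_mul_lt_mul_left h14 ht0.le).le
  obtain ⟨M, hM, hM1⟩ : ∃ M : ℝ, 0 < M ∧ |ℓ w'| < r * (M * ‖w‖) := by
    refine ⟨(|ℓ w'| + 1) / (r * ‖w‖), by positivity, ?_⟩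
    have : r * ((|ℓ w'| + 1) / (r * ‖w‖) * ‖w‖) = |ℓ w'| + 1 := by field_simp
    rw [this]; linarith
  have e1 := key (M • w) (by rw [map_smul, hw, smul_zero])
  have e2 := key (-(M • w)) (by rw [map_neg, map_smul, hw, smul_zero, neg_zero])
  rw [map_add] at e1 e2
  rw [map_neg] at e2
  have e3 : ‖M • w‖ ≤ (‖w' + M • w‖ + ‖w' + -(M • w)‖) / 2 := by
    have e4 : (2 : ℝ) • (M • w) = (w' + M • w) - (w' + -(M • w)) := by
      rw [two_smul]; abel
    have e5 := norm_sub_le (w' + M • w) (w' + -(M • w))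
    rw [← e4, norm_smul, Real.norm_of_nonneg (by norm_num : (0 : ℝ) ≤ 2)] at e5
    linarith
  rw [norm_smul, Real.norm_of_nonneg hM.le] at e3
  have e6 := le_abs_self (ℓ w')
  have e7 : r * (M * ‖w‖) ≤ r * ((‖w' + M • w‖ + ‖w' + -(M • w)‖) / 2) := by gcongr
  linarith

section man

variable {X Y : Type} [TopologicalSpace X] [ChartedSpace (E n) X]
  [TopologicalSpace Y] [ChartedSpace (E n) Y]
  [IsManifold (𝓡 n) ∞ X] [IsManifold (𝓡 n) ∞ Y]

/-- cone monotone homeomorphisms with an inverse of class `C^1` and corank at most one -/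
lemma CMon.cp0_symm (hn : 2 ≤ n) {f : X ≃ₜ Y} {x : X} (hm : CMon n f x)
    (h : CP (n := n) K1 f.symm (f x)) : CP (n := n) K0 f.symm (f x) := by
  obtain ⟨B, hB, A, hA0, hAd, hmon⟩ := hm
  obtain ⟨p, hp1, hp2, hp3, hp4⟩ := Pool.Agent.Y522.LD.exists_inverse hAd
  obtain ⟨q, hq1, hq2, hq3, hq4⟩ := Pool.Agent.Y522.LD.exists_inverse hB
  rw [hA0] at hp1 hp2 hp4
  set u : E n → E n := fun z => B (f (A z)) with hu
  set k : E n → E n := fun z => p (f.symm (q z)) with hk
  have hpx : LD n p (f.symm (f x)) := by rw [f.symm_apply_apply]; exact hp1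
  have h1 : CP K1 k (B (f x)) := CP.to_coord linInv_K1 hq2 hq1 hpx h
  obtain ⟨h1a, h1b⟩ := CP_vec.1 h1
  have hkd : HasFDerivAt k (fderiv ℝ k (B (f x))) (B (f x)) :=
    (h1a.differentiableAt (by simp)).hasFDerivAt
  have hk0 : k (B (f x)) = 0 := by
    simp only [hk]; rw [hq2, f.symm_apply_apply, hp2]
  have hqc : Tendsto (fun z => f.symm (q z)) (𝓝 (B (f x))) (𝓝 x) := by
    have h2 : Tendsto q (𝓝 (B (f x))) (𝓝 (f x)) := by
      have := hq1.continuousAt.tendsto
      rwa [hq2] at this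
    have h3 := (f.symm.continuous.tendsto (f x)).comp h2
    rwa [f.symm_apply_apply] at h3
  have huk : ∀ᶠ z in 𝓝 (B (f x)), u (k z) = z := by
    filter_upwards [hqc.eventually hp4, hq4] with z hz1 hz2
    simp only [hu, hk]
    rw [hz1, f.apply_symm_apply, hz2]
  obtain ⟨w', hw'⟩ := h1b.exists_ne hn
  obtain ⟨r, ℓ, hr, hℓ⟩ := hmon _ hw'
  have hinj : K0 (fderiv ℝ k (B (f x))) :=
    (injective_iff_map_eq_zero _).2 fun w hw => ker_of_mono hkd hk0 huk hr hℓ hw
  exact CP.of_coord linInv_K0 h.1.continuousAt (A := q) (B := p) hq2 hq1 hpx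
    (CP_vec.2 ⟨h1a, hinj⟩)

/-- the inverse of a homeomorphism of class `C^1` with invertible derivative -/
lemma CP0.symm {f : X ≃ₜ Y} {x : X} (h : CP (n := n) K0 f x) :
    CP (n := n) K0 f.symm (f x) := by
  obtain ⟨φ, hφ⟩ : ∃ φ : OpenPartialHomeomorph X (E n), φ = chartAt (E n) x := ⟨_, rfl⟩
  obtain ⟨e, he⟩ : ∃ e : OpenPartialHomeomorph Y (E n), e = chartAt (E n) (f x) := ⟨_, rfl⟩
  have hxs : x ∈ φ.source := by rw [hφ]; exact mem_chart_source _ _
  have hfs : f x ∈ e.source := by rw [he]; exact mem_chart_source _ _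
  have heLD : LD n (e : Y → E n) (f x) := by rw [he]; exact LD_chart _ _ (mem_chart_source _ _)
  have hφLD : LD n (φ : X → E n) x := by rw [hφ]; exact LD_chart _ _ (mem_chart_source _ _)
  have hφsLD : LD n (φ.symm : E n → X) (φ x) := by
    rw [hφ]; exact chart_symm_LD _ ((chartAt (E n) x).map_source (mem_chart_source _ _))
  have hesLD : LD n (e.symm : E n → Y) (e (f x)) := by
    rw [he]; exact chart_symm_LD _ ((chartAt (E n) (f x)).map_source (mem_chart_source _ _))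
  set g : OpenPartialHomeomorph (E n) (E n) :=
    (φ.symm.trans f.toOpenPartialHomeomorph).trans e with hg
  have hgc : (g : E n → E n) = fun z => e (f (φ.symm z)) := rfl
  have hgs : (g.symm : E n → E n) = fun z => φ (f.symm (e.symm z)) := rfl
  have hzs : φ x ∈ g.source := by
    rw [hg]
    simp only [OpenPartialHomeomorph.trans_source, mem_inter_iff, mem_preimage]
    refine ⟨⟨φ.map_source hxs, trivial⟩, ?_⟩
    change f (φ.symm (φ x)) ∈ e.source
    rw [φ.left_inv hxs]; exact hfs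
  have h1 : CP (n := n) K0 (g : E n → E n) (φ x) := by
    rw [hgc]
    exact CP.to_coord (f := f) (A := φ.symm) (B := e) (x := x) linInv_K0 (φ.left_inv hxs) hφsLD
      heLD h
  obtain ⟨h1a, h1b⟩ := CP_vec.1 h1
  obtain ⟨T, hT⟩ := exists_equiv_of_injective h1b
  have hgz : g (φ x) = e (f x) := by rw [hgc]; simp only; rw [φ.left_inv hxs]
  have hat : e (f x) ∈ g.target := by rw [← hgz]; exact g.map_source hzs
  have hsy : g.symm (e (f x)) = φ x := by rw [← hgz]; exact g.left_inv hzs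
  have hTd : HasFDerivAt g (T : E n →L[ℝ] E n) (g.symm (e (f x))) := by
    rw [hsy, hT]; exact (h1a.differentiableAt (by simp)).hasFDerivAt
  have h2 : ContDiffAt ℝ 1 g.symm (e (f x)) :=
    g.contDiffAt_symm hat hTd (by rw [hsy]; exact h1a)
  have h3 : HasFDerivAt g.symm (T.symm : E n →L[ℝ] E n) (e (f x)) :=
    g.hasFDerivAt_symm hat hTd
  have h4 : CP (n := n) K0 (g.symm : E n → E n) (e (f x)) := by
    refine CP_vec.2 ⟨h2, ?_⟩
    rw [h3.fderiv]
    exact T.symm.injective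
  rw [hgs] at h4
  refine CP.of_coord linInv_K0 f.symm.continuous.continuousAt (A := e.symm) (B := φ)
    (z := e (f x)) (e.left_inv hfs) hesLD ?_ h4
  rw [f.symm_apply_apply]; exact hφLD

/-- cone monotonicity is an open condition -/
lemma cmon_eventually {f : X → Y} (hf : Continuous f) {x : X} (h : CMon n f x) :
    ∀ᶠ y in 𝓝 x, CMon n f y := by
  obtain ⟨B, hB, hm⟩ := h
  obtain ⟨A, κ, hκ, hA0, -, hAd, -, hbox⟩ := Pool.Agent.Y66.CM.cbox_exists isOpen_univ
    (mem_univ x) hm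
  have h1 : ∀ᶠ y in 𝓝 x, LD n B (f y) :=
    hf.continuousAt.eventually (Pool.Agent.Y522.LD.eventually hB)
  have h0 : (0 : E n) ∈ closedBall (0 : E n) 2 := by simp
  have h2 : A '' ball 0 1 ∈ 𝓝 x := by
    have := (hAd 0 h0).image_mem_nhds (ball_mem_nhds (0 : E n) one_pos)
    rwa [hA0] at this
  filter_upwards [h1, h2] with y hy1 hy2
  obtain ⟨z, hz, rfl⟩ := hy2
  rw [mem_ball_zero_iff] at hz
  refine ⟨B, hy1, ?_⟩
  exact Pool.Agent.Y66.CM.CMonE_of_CBox hκ (hbox.mono (by norm_num) le_rfl) hz.le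
    (hAd z (by rw [mem_closedBall_zero_iff]; linarith))

end man

end Run7.h7
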