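import Mathlib
import Pool.Agent.Run7.h7.C1Mon2
import Pool.Agent.Run7.h7.C1Man
import Pool.Agent.R765.CAll

/-!
Homeomorphisms which are, near every point, local diffeomorphisms, cone monotone, or of class `C^1`
with derivatives of corank at most one in one of the two directions.
-/

open Filter Set Metric Function
open scoped Topology ContDiff Manifold

namespace Run7.h7

open Pool.Agent.Y522 (LD)
open Pool.Agent.Y66.CM (CMon CMonE LD_chart)

variable {n : ℕ}

lemma symm_eventuallyEq {X Y : Type} [TopologicalSpace X] [TopologicalSpace Y] {f g : X ≃ₜ Y}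
    {x : X} (h : (f : X → Y) =ᶠ[𝓝 x] g) : (f.symm : Y → X) =ᶠ[𝓝 (f x)] g.symm := by
  have h1 : Tendsto f.symm (𝓝 (f x)) (𝓝 x) := by
    have := f.symm.continuous.tendsto (f x)
    rwa [f.symm_apply_apply] at this
  filter_upwards [h1.eventually h] with y hy
  rw [f.apply_symm_apply] at hy
  rw [hy, g.symm_apply_apply]
  rw [← hy]

lemma isClosed_bad {X Y : Type} [TopologicalSpace X] [ChartedSpace (E n) X]
    [TopologicalSpace Y] [ChartedSpace (E n) Y] (f : X → Y) : IsClosed {x | ¬ LD n f x} := by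
  rw [← isOpen_compl_iff, isOpen_iff_mem_nhds]
  intro x hx
  have h1 : LD n f x := by
    by_contra h
    exact hx h
  filter_upwards [Pool.Agent.Y522.LD.eventually h1] with y hy h2
  exact h2 hy

section man

variable {X Y : Type} [TopologicalSpace X] [T2Space X] [ChartedSpace (E n) X]
  [TopologicalSpace Y] [ChartedSpace (E n) Y]
  [IsManifold (𝓡 n) ∞ X] [IsManifold (𝓡 n) ∞ Y]

/-- **Main theorem.** -/
theorem mixed (hn : 2 ≤ n) (f : X ≃ₜ Y) (hf : ∀ x, (LD n f x ∨ CMon n f x) ∨
      (CP (n := n) K1 f x ∨ CP (n := n) K1 f.symm (f x)))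
    (hB : IsCompact {x | ¬ LD n f x}) {O : Set (X × Y)} (hO : IsOpen O)
    (hfO : ∀ x, (x, f x) ∈ O) :
    ∃ (f' : X → Y) (C : Set X), IsCompact C ∧ Bijective f' ∧ (∀ x, LD n f' x) ∧
      (∀ x, (x, f' x) ∈ O) ∧ ∀ x, x ∉ C → f' x = f x := by
  classical
  have hT2Y : T2Space Y := f.t2Space
  have hQopen : ∀ F : X ≃ₜ Y, IsOpen {x | LD n F x ∨ CMon n F x} := by
    intro F
    rw [isOpen_iff_mem_nhds]
    rintro x (hx | hx)
    · filter_upwards [Pool.Agent.Y522.LD.eventually hx] with y hy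
      exact Or.inl hy
    · filter_upwards [cmon_eventually F.continuous hx] with y hy
      exact Or.inr hy
  -- phase one
  obtain ⟨K₁, K₂, hK₁, hK₂, hK₁R, hK₂R, hK⟩ := IsCompact.binary_compact_cover
    (K := {x | ¬ LD n f x} ∩ {x | LD n f x ∨ CMon n f x}ᶜ)
    (hB.inter_right (hQopen f).isClosed_compl)
    (isOpen_CP1 (n := n) (f := (f : X → Y)))
    ((isOpen_CP1 (n := n) (f := (f.symm : Y → X))).preimage f.continuous)
    (by
      rintro x ⟨-, hx⟩
      rcases hf x with h | h | h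
      · exact absurd h hx
      · exact Or.inl h
      · exact Or.inr h)
  obtain ⟨F1, C1, hC1, hC1R, hoff1, hO1, hR1, hkeep1, hgood1⟩ := phase_one f
    (isOpen_CP1 (n := n) (f := (f : X → Y))) (fun x hx => hx) hK₁ hK₁R hO hfO
  have hin : ∀ x, ¬ (LD n f x ∨ CMon n f x) → ¬ CP (n := n) K1 f.symm (f x) → x ∈ K₁ := by
    intro x h1 h2
    have h3 : x ∈ K₁ ∪ K₂ := by
      rw [← hK]
      exact ⟨fun h => h1 (Or.inl h), h1⟩
    rcases h3 with h3 | h3
    · exact h3
    · exact absurd (hK₂R h3) h2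
  have hclaim1 : ∀ x, (LD n F1 x ∨ CMon n F1 x) ∨ CP (n := n) K1 F1.symm (F1 x) := by
    intro x
    by_cases hxC : x ∈ C1
    · left; right
      apply CP0.cmon
      have hx1 : CP (n := n) K1 f x := hC1R hxC
      by_cases hQ : LD n f x ∨ CMon n f x
      · rcases hQ with hQ | hQ
        · exact hkeep1 x (LD.CP0 hQ)
        · exact hkeep1 x (CMon.cp0 hn hQ hx1)
      · by_cases h2 : CP (n := n) K1 f.symm (f x)
        · exact hkeep1 x (CP1.both hx1 h2)
        · exact hgood1 x (hin x hQ h2)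
    · have hnear : (F1 : X → Y) =ᶠ[𝓝 x] f := by
        filter_upwards [hC1.isClosed.isOpen_compl.mem_nhds hxC] with y hy
        exact hoff1 y hy
      by_cases hQ : LD n f x ∨ CMon n f x
      · rcases hQ with hQ | hQ
        · exact Or.inl (Or.inl (Pool.Agent.Y522.LD.congr hQ hnear))
        · exact Or.inl (Or.inr (Pool.Agent.Y66.CM.CMon.congr hQ hnear))
      · by_cases h2 : CP (n := n) K1 f.symm (f x)
        · right
          have e1 : F1 x = f x := hoff1 x hxC
          rw [e1]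
          refine h2.congr ?_
          have := symm_eventuallyEq hnear
          rwa [e1] at this
        · left; right
          exact CP0.cmon (hgood1 x (hin x hQ h2))
  have hB1 : IsCompact {x | ¬ LD n F1 x} := by
    refine (hB.union hC1).of_isClosed_subset (isClosed_bad _) fun x hx => ?_
    by_cases hxC : x ∈ C1
    · exact Or.inr hxC
    · left
      intro h
      apply hx
      refine Pool.Agent.Y522.LD.congr h ?_
      filter_upwards [hC1.isClosed.isOpen_compl.mem_nhds hxC] with y hy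
      exact hoff1 y hy
  -- phase two
  obtain ⟨S, hSd⟩ : ∃ S : Set Y, S = F1 '' ({x | ¬ LD n F1 x} ∩
    {x | LD n F1 x ∨ CMon n F1 x}ᶜ) := ⟨_, rfl⟩
  have hS : IsCompact S := by
    rw [hSd]
    exact (hB1.inter_right (hQopen F1).isClosed_compl).image F1.continuous
  have hSR : S ⊆ {y | CP (n := n) K1 F1.symm y} := by
    rw [hSd]
    rintro _ ⟨x, ⟨-, hx⟩, rfl⟩
    rcases hclaim1 x with h | h
    · exact absurd h hx
    · exact h
  have hmemS : ∀ x, ¬ (LD n F1 x ∨ CMon n F1 x) → F1 x ∈ S := by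
    intro x hx
    rw [hSd]
    exact ⟨x, ⟨fun h => hx (Or.inl h), hx⟩, rfl⟩
  obtain ⟨G, C2, hC2, hC2R, hoff2, hO2, hR2, hkeep2, hgood2⟩ := phase_one (O := Prod.swap ⁻¹' O)
    F1.symm (isOpen_CP1 (n := n) (f := (F1.symm : Y → X))) (fun x hx => hx) hS hSR
    (hO.preimage continuous_swap) (fun y => by
      have := hO1 (F1.symm y)
      rw [F1.apply_symm_apply] at this
      exact this)
  have hsymm0 : ∀ y, CP (n := n) K0 G y → CMon n G.symm (G y) := fun y hy =>
    CP0.cmon (CP0.symm hy)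
  have hG0 : ∀ y, (y ∈ C2 ∨ y ∈ S) → CP (n := n) K0 G y := by
    rintro y (hy | hy)
    · have hx1 : CP (n := n) K1 F1.symm y := hC2R hy
      obtain ⟨x, rfl⟩ := F1.surjective y
      by_cases hQ : LD n F1 x ∨ CMon n F1 x
      · rcases hQ with hQ | hQ
        · exact hkeep2 _ (CP0.symm (LD.CP0 hQ))
        · exact hkeep2 _ (CMon.cp0_symm hn hQ hx1)
      · exact hgood2 _ (hmemS x hQ)
    · exact hgood2 y hy
  have hnear2 : ∀ y, y ∉ C2 → (G.symm : X → Y) =ᶠ[𝓝 (G y)] F1 := by
    intro y hy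
    have h1 : (G : Y → X) =ᶠ[𝓝 y] F1.symm := by
      filter_upwards [hC2.isClosed.isOpen_compl.mem_nhds hy] with z hz
      exact hoff2 z hz
    exact symm_eventuallyEq h1
  have hclaim2 : ∀ x, LD n G.symm x ∨ CMon n G.symm x := by
    intro x
    obtain ⟨y, rfl⟩ := G.surjective x
    by_cases hy : y ∈ C2
    · exact Or.inr (hsymm0 y (hG0 y (Or.inl hy)))
    · have h1 := hnear2 y hy
      have h2 : F1 (G y) = y := by rw [hoff2 y hy, F1.apply_symm_apply]
      by_cases hQ : LD n F1 (G y) ∨ CMon n F1 (G y)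
      · rcases hQ with hQ | hQ
        · exact Or.inl (Pool.Agent.Y522.LD.congr hQ h1)
        · exact Or.inr (Pool.Agent.Y66.CM.CMon.congr hQ h1)
      · have h3 := hmemS _ hQ
        rw [h2] at h3
        exact Or.inr (hsymm0 y (hG0 y (Or.inr h3)))
  have hB2 : IsCompact {x | ¬ LD n G.symm x} := by
    refine (hB1.union (hC2.image G.continuous)).of_isClosed_subset (isClosed_bad _) fun x hx => ?_
    obtain ⟨y, rfl⟩ := G.surjective x
    by_cases hy : y ∈ C2
    · exact Or.inr ⟨y, hy, rfl⟩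
    · left
      intro h
      exact hx (Pool.Agent.Y522.LD.congr h (hnear2 y hy))
  obtain ⟨f', C, hC, hbij, hLD, hgr, hoff⟩ := Pool.Agent.R765.coneMonotone n X Y G.symm O
    hclaim2 hB2 hO (fun x => by
      have := hO2 (G.symm x)
      rw [G.apply_symm_apply] at this
      exact this)
  refine ⟨f', C ∪ (C1 ∪ G '' C2), hC.union (hC1.union (hC2.image G.continuous)), hbij, hLD, hgr,
    fun x hx => ?_⟩
  rw [mem_union, mem_union, not_or, not_or] at hx
  obtain ⟨hx1, hx2, hx3⟩ := hx
  rw [hoff x hx1]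
  obtain ⟨y, rfl⟩ := G.surjective x
  have hy : y ∉ C2 := fun h => hx3 ⟨y, h, rfl⟩
  have h2 : F1 (G y) = y := by rw [hoff2 y hy, F1.apply_symm_apply]
  rw [G.symm_apply_apply, ← hoff1 _ hx2, h2]

end man

end Run7.h7
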