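import Mathlib

/-!
Mollification of a continuous function, monotone in one direction.
-/

open MeasureTheory Filter Set Metric ContinuousLinearMap
open scoped ENNReal Topology ContDiff Convolution

namespace Run7.h7

variable {B : Type*} [NormedAddCommGroup B] [NormedSpace ℝ B] [FiniteDimensional ℝ B]
  [MeasurableSpace B] [BorelSpace B]

/-- Mollification near a compact set. -/
lemma exists_mollB (μ : Measure B) [μ.IsAddHaarMeasure] {h : B → ℝ} (hc : Continuous h)
    {K : Set B} (hK : IsCompact K) {ε : ℝ} (hε : 0 < ε) {ρ : ℝ} (hρ : 0 < ρ) :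
    ∃ A : B → ℝ, ContDiff ℝ ∞ A ∧ (∀ z ∈ K, |A z - h z| ≤ ε) ∧
      ∀ z z', (∀ w, ‖w‖ < ρ → h (z - w) ≤ h (z' - w)) → A z ≤ A z' := by
  -- uniform continuity near the compact set
  obtain ⟨δ, hδ, hδ'⟩ : ∃ δ : ℝ, 0 < δ ∧ ∀ z ∈ K, ∀ x, dist x z < δ → dist (h x) (h z) ≤ ε := by
    have h1 := hK.uniformContinuousAt_of_continuousAt h (fun a _ => hc.continuousAt)
      (Metric.dist_mem_uniformity hε)
    obtain ⟨δ, hδ, h2⟩ := Metric.mem_uniformity_dist.1 h1
    refine ⟨δ, hδ, fun z hz x hx => ?_⟩
    have h3 := h2 (a := z) (b := x) (by rwa [dist_comm]) hz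
    have h4 : dist (h z) (h x) < ε := h3
    rw [dist_comm]
    exact h4.le
  let φ : ContDiffBump (0 : B) :=
    { rIn := min δ ρ / 2, rOut := min δ ρ, rIn_pos := by positivity,
      rIn_lt_rOut := by
        have : 0 < min δ ρ := lt_min hδ hρ
        linarith }
  have hφo : φ.rOut = min δ ρ := rfl
  have hloc : LocallyIntegrable h μ := hc.locallyIntegrable
  refine ⟨φ.normed μ ⋆[lsmul ℝ ℝ, μ] h, ?_, ?_, ?_⟩
  · exact φ.hasCompactSupport_normed.contDiff_convolution_left _ φ.contDiff_normed hloc
  · intro z hz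
    have h1 := φ.dist_normed_convolution_le (x₀ := z) (g := h) (μ := μ) (ε := ε)
      hc.aestronglyMeasurable (fun y hy => by
        rw [mem_ball, hφo] at hy
        exact hδ' z hz y (hy.trans_le (min_le_left _ _)))
    rwa [Real.dist_eq] at h1
  · intro z z' hzz
    have happ : ∀ x, (φ.normed μ ⋆[lsmul ℝ ℝ, μ] h) x = ∫ y, φ.normed μ y • h (x - y) ∂μ :=
      fun x => rfl
    rw [happ, happ]
    have hint : ∀ x, Integrable (fun y => φ.normed μ y • h (x - y)) μ := by
      intro x
      refine Continuous.integrable_of_hasCompactSupport ?_ ?_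
      · exact φ.continuous_normed.smul (hc.comp (continuous_const.sub continuous_id))
      · exact φ.hasCompactSupport_normed.smul_right
    refine integral_mono (hint z) (hint z') fun y => ?_
    simp only [smul_eq_mul]
    by_cases hy : ‖y‖ < ρ
    · exact mul_le_mul_of_nonneg_left (hzz y hy) (φ.nonneg_normed y)
    · have h0 : φ.normed μ y = 0 := by
        by_contra hne
        have h1 : y ∈ Function.support (φ.normed μ) := hne
        rw [φ.support_normed_eq, mem_ball_zero_iff, hφo] at h1
        exact hy (h1.trans_le (min_le_right _ _))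
      rw [h0]; simp

end Run7.h7
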