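import Mathlib
import Pool.Agent.Run7.h7.QMoll

/-!
Cut-off functions and derivatives along the fibres of a product with the line.
-/

open MeasureTheory Filter Set Metric Function
open scoped Topology ContDiff Manifold

namespace Run7.h7

section cutoff

variable {B : Type*} [NormedAddCommGroup B] [NormedSpace ℝ B] [FiniteDimensional ℝ B]

lemma exists_cutoffB {K U : Set B} (hK : IsCompact K) (hU : IsOpen U) (hKU : K ⊆ U) :
    ∃ χ : B → ℝ, ContDiff ℝ ∞ χ ∧ HasCompactSupport χ ∧ tsupport χ ⊆ U ∧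
      (∀ᶠ x in 𝓝ˢ K, χ x = 1) ∧ ∀ x, χ x ∈ Icc (0 : ℝ) 1 := by
  have : ProperSpace B := FiniteDimensional.proper ℝ B
  obtain ⟨δ, hδ, hδU⟩ := hK.exists_cthickening_subset_open hU hKU
  have hint : K ⊆ interior (cthickening δ K) := by
    refine (self_subset_thickening hδ K).trans ?_
    exact interior_maximal (thickening_subset_cthickening δ K) isOpen_thickening
  obtain ⟨f, h1, h0, hf⟩ := exists_contMDiffMap_one_nhds_of_subset_interior
    (n := (⊤ : ℕ∞)) (modelWithCornersSelf ℝ B) hK.isClosed hint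
  have hts : tsupport (f : B → ℝ) ⊆ cthickening δ K := by
    refine closure_minimal ?_ isClosed_cthickening
    intro x hx
    by_contra hx'
    exact hx (h0 x hx')
  refine ⟨f, ?_, hK.cthickening.of_isClosed_subset (isClosed_tsupport _) hts, hts.trans hδU,
    h1, hf⟩
  exact f.contMDiff.contDiff

omit [FiniteDimensional ℝ B] in
lemma exists_fderiv_bound {χ : B → ℝ} (h : ContDiff ℝ ∞ χ) (hc : HasCompactSupport χ) :
    ∃ C : ℝ, 0 ≤ C ∧ ∀ x, ‖fderiv ℝ χ x‖ ≤ C := by
  obtain ⟨C, hC⟩ := (h.continuous_fderiv (by simp)).bounded_above_of_compact_support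
    (hc.fderiv (𝕜 := ℝ))
  exact ⟨max C 0, le_max_right _ _, fun x => (hC x).trans (le_max_left _ _)⟩

end cutoff

/-! ### the cut-off in the direction of the line -/

/-- equal to one for `|t - t₀| ≤ η / 4`, zero for `|t - t₀| ≥ η / 2`, monotone on both sides -/
noncomputable def chiT (t₀ η t : ℝ) : ℝ :=
  Real.smoothTransition ((t - (t₀ - η / 2)) / (η / 4)) *
    Real.smoothTransition (((t₀ + η / 2) - t) / (η / 4))

section chiT

variable {t₀ η : ℝ}

lemma chiT_contDiff (t₀ η : ℝ) : ContDiff ℝ ∞ (chiT t₀ η) := by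
  unfold chiT
  refine ContDiff.mul ?_ ?_
  · exact (Real.smoothTransition.contDiff (n := (⊤ : ℕ∞))).comp
      ((contDiff_id.sub contDiff_const).div_const _)
  · exact (Real.smoothTransition.contDiff (n := (⊤ : ℕ∞))).comp
      ((contDiff_const.sub contDiff_id).div_const _)

lemma chiT_mem (t : ℝ) : chiT t₀ η t ∈ Icc (0 : ℝ) 1 := by
  unfold chiT
  have h1 := Real.smoothTransition.nonneg ((t - (t₀ - η / 2)) / (η / 4))
  have h2 := Real.smoothTransition.nonneg (((t₀ + η / 2) - t) / (η / 4))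
  have h3 := Real.smoothTransition.le_one ((t - (t₀ - η / 2)) / (η / 4))
  have h4 := Real.smoothTransition.le_one (((t₀ + η / 2) - t) / (η / 4))
  exact ⟨mul_nonneg h1 h2, mul_le_one₀ h3 h2 h4⟩

lemma chiT_left (hη : 0 < η) {t : ℝ} (ht : t ≤ t₀) :
    chiT t₀ η t = Real.smoothTransition ((t - (t₀ - η / 2)) / (η / 4)) := by
  unfold chiT
  rw [Real.smoothTransition.one_of_one_le (x := ((t₀ + η / 2) - t) / (η / 4)), mul_one]
  rw [le_div_iff₀ (by positivity)]
  linarith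

lemma chiT_right (hη : 0 < η) {t : ℝ} (ht : t₀ ≤ t) :
    chiT t₀ η t = Real.smoothTransition (((t₀ + η / 2) - t) / (η / 4)) := by
  unfold chiT
  rw [Real.smoothTransition.one_of_one_le (x := (t - (t₀ - η / 2)) / (η / 4)), one_mul]
  rw [le_div_iff₀ (by positivity)]
  linarith

lemma chiT_mono (hη : 0 < η) : MonotoneOn (chiT t₀ η) (Iic t₀) := by
  intro s hs t ht hst
  rw [chiT_left hη hs, chiT_left hη ht]
  refine Real.smoothTransition.monotone ?_
  gcongr

lemma chiT_anti (hη : 0 < η) : AntitoneOn (chiT t₀ η) (Ici t₀) := by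
  intro s hs t ht hst
  rw [chiT_right hη hs, chiT_right hη ht]
  refine Real.smoothTransition.monotone ?_
  gcongr

lemma chiT_one (hη : 0 < η) {t : ℝ} (ht : t ∈ Icc (t₀ - η / 4) (t₀ + η / 4)) :
    chiT t₀ η t = 1 := by
  unfold chiT
  rw [Real.smoothTransition.one_of_one_le, Real.smoothTransition.one_of_one_le, mul_one]
  · rw [le_div_iff₀ (by positivity)]; linarith [ht.2]
  · rw [le_div_iff₀ (by positivity)]; linarith [ht.1]

lemma chiT_zero (hη : 0 < η) {t : ℝ} (ht : t ∉ Ioo (t₀ - η / 2) (t₀ + η / 2)) :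
    chiT t₀ η t = 0 := by
  unfold chiT
  by_cases h : t ≤ t₀ - η / 2
  · rw [Real.smoothTransition.zero_of_nonpos (x := (t - (t₀ - η / 2)) / (η / 4)), zero_mul]
    exact div_nonpos_of_nonpos_of_nonneg (by linarith) (by positivity)
  · rw [Real.smoothTransition.zero_of_nonpos (x := ((t₀ + η / 2) - t) / (η / 4)), mul_zero]
    have : t₀ + η / 2 ≤ t := by
      by_contra h'
      push Not at h h'
      exact ht ⟨h, h'⟩
    exact div_nonpos_of_nonpos_of_nonneg (by linarith) (by positivity)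

lemma deriv_nonneg_of_monotoneOn {f : ℝ → ℝ} {s : Set ℝ} (hf : MonotoneOn f s) {x : ℝ}
    (hs : s ∈ 𝓝 x) : 0 ≤ deriv f x := by
  rw [← derivWithin_of_mem_nhds hs]
  exact hf.derivWithin_nonneg

lemma deriv_nonpos_of_antitoneOn {f : ℝ → ℝ} {s : Set ℝ} (hf : AntitoneOn f s) {x : ℝ}
    (hs : s ∈ 𝓝 x) : deriv f x ≤ 0 := by
  rw [← derivWithin_of_mem_nhds hs]
  exact hf.derivWithin_nonpos

/-- the product of the derivative of the cut-off with a number of the right sign -/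
lemma chiT_sign (hη : 0 < η) {t d : ℝ} (h1 : t ∈ Icc (t₀ - η / 2) (t₀ - η / 4) → 0 ≤ d)
    (h2 : t ∈ Icc (t₀ + η / 4) (t₀ + η / 2) → d ≤ 0)
    (ht : t ∈ Icc (t₀ - η / 2) (t₀ + η / 2)) : 0 ≤ deriv (chiT t₀ η) t * d := by
  by_cases hL : t ≤ t₀ - η / 4
  · refine mul_nonneg (deriv_nonneg_of_monotoneOn (chiT_mono hη) (Iic_mem_nhds (by linarith)))
      (h1 ⟨ht.1, hL⟩)
  · by_cases hR : t₀ + η / 4 ≤ t
    · exact mul_nonneg_of_nonpos_of_nonpos
        (deriv_nonpos_of_antitoneOn (chiT_anti hη) (Ici_mem_nhds (by linarith))) (h2 ⟨hR, ht.2⟩)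
    · push Not at hL hR
      have h3 : chiT t₀ η =ᶠ[𝓝 t] fun _ => 1 := by
        filter_upwards [Icc_mem_nhds hL hR] with s hs
        exact chiT_one hη hs
      rw [h3.deriv_eq, deriv_const, zero_mul]

end chiT

/-! ### slices -/

section slice

variable {V F : Type*} [NormedAddCommGroup V] [NormedSpace ℝ V] [NormedAddCommGroup F]
  [NormedSpace ℝ F]

lemma hasDerivAt_slice {f : V × ℝ → F} {z : V × ℝ} (hf : DifferentiableAt ℝ f z) :
    HasDerivAt (fun s => f (z.1, s)) (fderiv ℝ f z (0, 1)) z.2 := by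
  have h1 : HasFDerivAt (fun s : ℝ => (z.1, s)) (ContinuousLinearMap.inr ℝ V ℝ) z.2 :=
    hasFDerivAt_prodMk_right z.1 z.2
  have h2 : HasFDerivAt f (fderiv ℝ f z) ((fun s : ℝ => (z.1, s)) z.2) := hf.hasFDerivAt
  have h3 := h2.comp z.2 h1
  have h4 : HasDerivAt (fun s => f (z.1, s))
      (((fderiv ℝ f z).comp (ContinuousLinearMap.inr ℝ V ℝ)) 1) z.2 := h3.hasDerivAt
  have h5 : ((fderiv ℝ f z).comp (ContinuousLinearMap.inr ℝ V ℝ)) 1 = fderiv ℝ f z (0, 1) := by
    simp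
  rwa [h5] at h4

lemma slice_deriv {f : V × ℝ → ℝ} {z : V × ℝ} (hf : DifferentiableAt ℝ f z) :
    deriv (fun s => f (z.1, s)) z.2 = fderiv ℝ f z (0, 1) := (hasDerivAt_slice hf).deriv

lemma slice_nonneg {f : V × ℝ → ℝ} {z : V × ℝ} (hf : DifferentiableAt ℝ f z) {s : Set ℝ}
    (hm : MonotoneOn (fun s => f (z.1, s)) s) (hs : s ∈ 𝓝 z.2) : 0 ≤ fderiv ℝ f z (0, 1) := by
  rw [← slice_deriv hf]
  exact deriv_nonneg_of_monotoneOn hm hs

end slice

end Run7.h7
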