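import Mathlib
import Pool.Agent.Run7.h7.Defs
import Pool.Agent.Run7.h7.QCut

/-!
Approximation of a continuous function, increasing in one direction, by functions of class `C^1`
with positive derivative, without change near a compact set on which the function is of class `C^1`.
-/

open MeasureTheory Filter Set Metric Function
open scoped Topology ContDiff Manifold

namespace Run7.h7

variable {m : ℕ}

/-- the points near which a function is of class `C^1` -/
lemma isOpen_C1 {B F : Type*} [NormedAddCommGroup B] [NormedSpace ℝ B] [NormedAddCommGroup F]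
    [NormedSpace ℝ F] (h : B → F) : IsOpen {z | ContDiffAt ℝ 1 h z} := by
  rw [isOpen_iff_mem_nhds]
  intro z hz
  exact ContDiffAt.eventually hz (by simp)

/-- the closed box -/
def cbox (a₀ : E m) (t₀ r η : ℝ) : Set (E m × ℝ) :=
  closedBall a₀ r ×ˢ Icc (t₀ - η) (t₀ + η)

/-- the open box -/
def obox (a₀ : E m) (t₀ r η : ℝ) : Set (E m × ℝ) :=
  ball a₀ r ×ˢ Ioo (t₀ - η) (t₀ + η)

lemma isOpen_obox (a₀ : E m) (t₀ r η : ℝ) : IsOpen (obox a₀ t₀ r η) :=
  isOpen_ball.prod isOpen_Ioo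

lemma isCompact_cbox (a₀ : E m) (t₀ r η : ℝ) : IsCompact (cbox a₀ t₀ r η) :=
  (isCompact_closedBall _ _).prod isCompact_Icc

lemma cbox_subset_obox {a₀ : E m} {t₀ r η r' η' : ℝ} (hr : r' < r) (hη : η' < η) :
    cbox a₀ t₀ r' η' ⊆ obox a₀ t₀ r η := by
  rintro ⟨a, t⟩ ⟨ha, ht⟩
  exact ⟨closedBall_subset_ball hr ha, by linarith [ht.1], by linarith [ht.2]⟩

lemma obox_subset_cbox {a₀ : E m} {t₀ r η : ℝ} : obox a₀ t₀ r η ⊆ cbox a₀ t₀ r η :=
  prod_mono ball_subset_closedBall Ioo_subset_Icc_self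

lemma cbox_mono {a₀ : E m} {t₀ r η r' η' : ℝ} (hr : r' ≤ r) (hη : η' ≤ η) :
    cbox a₀ t₀ r' η' ⊆ cbox a₀ t₀ r η :=
  prod_mono (closedBall_subset_closedBall hr) (Icc_subset_Icc (by linarith) (by linarith))

/-- the first approximation -/
lemma exists_app {h : E m × ℝ → ℝ} {a₀ : E m} {t₀ r η : ℝ} (hr : 0 < r) (hη : 0 < η)
    (hc : Continuous h)
    (hmono : ∀ a ∈ closedBall a₀ r, StrictMonoOn (fun t => h (a, t)) (Icc (t₀ - η) (t₀ + η)))
    {θ : E m × ℝ → ℝ} (hθ : ContDiff ℝ ∞ θ) (hθc : HasCompactSupport θ)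
    (hθL : tsupport θ ⊆ {z | ContDiffAt ℝ 1 h z} ∩ obox a₀ t₀ r η)
    (hθI : ∀ z, θ z ∈ Icc (0 : ℝ) 1) {ε e : ℝ} (hε : 0 < ε) (he : 0 < e) :
    ∃ A : E m × ℝ → ℝ, ContDiff ℝ 1 A ∧
      (∀ z ∈ cbox a₀ t₀ (r / 2) (η / 2), |A z - (h z + ε * (z.2 - t₀))| ≤ e) ∧
      (∀ z, θ z = 1 → A z = h z + ε * (z.2 - t₀)) ∧
      ∀ z ∈ cbox a₀ t₀ (r / 2) (η / 2), z.2 ∈ Ioo (t₀ - η / 2) (t₀ + η / 2) →
        0 < fderiv ℝ A z (0, 1) := by
  obtain ⟨C, hC0, hC⟩ := exists_fderiv_bound hθ hθc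
  obtain ⟨e₁, he₁, he₁e, he₁C⟩ : ∃ e₁ : ℝ, 0 < e₁ ∧ e₁ ≤ e ∧ e₁ * C ≤ ε / 2 := by
    refine ⟨min e (ε / (2 * (C + 1))), lt_min he (by positivity), min_le_left _ _, ?_⟩
    have h1 : min e (ε / (2 * (C + 1))) * C ≤ ε / (2 * (C + 1)) * C := by
      gcongr
      exact min_le_right _ _
    refine h1.trans ?_
    rw [div_mul_eq_mul_div, div_le_div_iff₀ (by positivity) (by positivity)]
    nlinarith
  obtain ⟨A₁, hA₁, hA₁c, hA₁m⟩ := exists_mollB ((volume : Measure (E m)).prod (volume : Measure ℝ)) hc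
    ((isCompact_cbox a₀ t₀ (r / 2) (η / 2)).union hθc.isCompact) he₁
    (ρ := min (r / 2) (η / 2)) (by positivity)
  have hL : IsOpen {z | ContDiffAt ℝ 1 h z} := isOpen_C1 h
  have hA₁1 : ContDiff ℝ 1 A₁ := hA₁.of_le (by simp)
  have hθ1 : ContDiff ℝ 1 θ := hθ.of_le (by simp)
  -- the correction
  have hcor : ContDiff ℝ 1 (fun z => θ z * (h z - A₁ z)) := by
    rw [contDiff_iff_contDiffAt]
    intro z
    by_cases hz : z ∈ tsupport θ
    · have h1 : ContDiffAt ℝ 1 h z := (hθL hz).1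
      exact hθ1.contDiffAt.mul (h1.sub hA₁1.contDiffAt)
    · have h1 : (fun z => θ z * (h z - A₁ z)) =ᶠ[𝓝 z] fun _ => 0 := by
        have h2 : ∀ᶠ y in 𝓝 z, y ∉ tsupport θ := (isClosed_tsupport θ).isOpen_compl.mem_nhds hz
        filter_upwards [h2] with y hy
        rw [image_eq_zero_of_notMem_tsupport hy, zero_mul]
      exact contDiffAt_const.congr_of_eventuallyEq h1
  have hlin : ContDiff ℝ 1 (fun z : E m × ℝ => ε * (z.2 - t₀)) := by fun_prop
  have hlind : ∀ z : E m × ℝ, fderiv ℝ (fun z : E m × ℝ => ε * (z.2 - t₀)) z (0, 1) = ε := by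
    intro z
    have h1 : HasDerivAt (fun s : ℝ => ε * (s - t₀)) ε z.2 := by
      simpa using ((hasDerivAt_id z.2).sub_const t₀).const_mul ε
    have h2 := hasDerivAt_slice (f := fun z : E m × ℝ => ε * (z.2 - t₀)) (z := z)
      ((hlin.differentiable (by simp)) z)
    exact h2.unique h1
  have hmono1 : ∀ z ∈ cbox a₀ t₀ (r / 2) (η / 2), z.2 ∈ Ioo (t₀ - η / 2) (t₀ + η / 2) →
      0 ≤ fderiv ℝ A₁ z (0, 1) := by
    intro z hz hz2
    refine slice_nonneg ((hA₁1.differentiable (by simp)) z)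
      (s := Icc (t₀ - η / 2) (t₀ + η / 2)) ?_ (Icc_mem_nhds hz2.1 hz2.2)
    intro s hs s' hs' hss
    refine hA₁m _ _ fun w hw => ?_
    have hw1 : ‖w.1‖ < r / 2 := (norm_fst_le w).trans_lt (hw.trans_le (min_le_left _ _))
    have hw2 : ‖w.2‖ < η / 2 := (norm_snd_le w).trans_lt (hw.trans_le (min_le_right _ _))
    rw [Real.norm_eq_abs, abs_lt] at hw2
    have ha : z.1 - w.1 ∈ closedBall a₀ r := by
      rw [mem_closedBall, dist_eq_norm]
      have h1 : z.1 - w.1 - a₀ = (z.1 - a₀) - w.1 := by abel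
      rw [h1]
      refine (norm_sub_le _ _).trans ?_
      have h2 : ‖z.1 - a₀‖ ≤ r / 2 := by
        have := hz.1
        rwa [mem_closedBall, dist_eq_norm] at this
      linarith
    have h3 := (hmono _ ha).monotoneOn (a := s - w.2) (b := s' - w.2)
      ⟨by linarith [hs.1, hw2.2], by linarith [hs.2, hw2.1]⟩
      ⟨by linarith [hs'.1, hw2.2], by linarith [hs'.2, hw2.1]⟩ (by linarith)
    exact h3
  refine ⟨fun z => A₁ z + θ z * (h z - A₁ z) + ε * (z.2 - t₀), (hA₁1.add hcor).add hlin,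
    ?_, ?_, ?_⟩
  · intro z hz
    have h1 := hA₁c z (Or.inl hz)
    have h2 : A₁ z + θ z * (h z - A₁ z) + ε * (z.2 - t₀) - (h z + ε * (z.2 - t₀)) =
      (1 - θ z) * (A₁ z - h z) := by ring
    rw [h2, abs_mul, abs_of_nonneg (by linarith [(hθI z).2])]
    calc (1 - θ z) * |A₁ z - h z| ≤ 1 * |A₁ z - h z| := by
          gcongr
          linarith [(hθI z).1]
      _ ≤ e := by linarith
  · intro z hz
    simp only
    rw [hz]; ring
  · intro z hz hz2
    have hA₁0 := hmono1 z hz hz2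
    have hdA : DifferentiableAt ℝ A₁ z := (hA₁1.differentiable (by simp)) z
    have hdl : DifferentiableAt ℝ (fun z : E m × ℝ => ε * (z.2 - t₀)) z :=
      (hlin.differentiable (by simp)) z
    by_cases hzθ : z ∈ tsupport θ
    · have hh1 : ContDiffAt ℝ 1 h z := (hθL hzθ).1
      have hzo := (hθL hzθ).2
      have hdh : DifferentiableAt ℝ h z := hh1.differentiableAt (by simp)
      have hdθ : DifferentiableAt ℝ θ z := (hθ1.differentiable (by simp)) z
      have h1 : fderiv ℝ (fun z => A₁ z + θ z * (h z - A₁ z) + ε * (z.2 - t₀)) z (0, 1) =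
          fderiv ℝ A₁ z (0, 1) + (θ z * (fderiv ℝ h z (0, 1) - fderiv ℝ A₁ z (0, 1)) +
            (h z - A₁ z) * fderiv ℝ θ z (0, 1)) + ε := by
        have h0 : HasFDerivAt (fun z => A₁ z + θ z * (h z - A₁ z) + ε * (z.2 - t₀))
            (fderiv ℝ A₁ z + (θ z • (fderiv ℝ h z - fderiv ℝ A₁ z) +
              (h z - A₁ z) • fderiv ℝ θ z) +
              fderiv ℝ (fun z : E m × ℝ => ε * (z.2 - t₀)) z) z :=
          (hdA.hasFDerivAt.add (hdθ.hasFDerivAt.mul
            (hdh.hasFDerivAt.sub hdA.hasFDerivAt))).add hdl.hasFDerivAt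
        rw [h0.fderiv]
        have h1 := hlind z
        simp only [add_apply, smul_apply, sub_apply, smul_eq_mul] at h1 ⊢
        rw [h1]
      rw [h1]
      have hh0 : 0 ≤ fderiv ℝ h z (0, 1) :=
        slice_nonneg hdh (s := Icc (t₀ - η) (t₀ + η))
          (hmono z.1 (ball_subset_closedBall hzo.1)).monotoneOn (Icc_mem_nhds hzo.2.1 hzo.2.2)
      have h2 : |(h z - A₁ z) * fderiv ℝ θ z (0, 1)| ≤ e₁ * C := by
        rw [abs_mul]
        have h3 : |h z - A₁ z| ≤ e₁ := by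
          rw [abs_sub_comm]
          exact hA₁c z (Or.inl hz)
        have h4 : |fderiv ℝ θ z (0, 1)| ≤ C := by
          have h5 := (fderiv ℝ θ z).le_opNorm (0, 1)
          have h6 : ‖((0 : E m), (1 : ℝ))‖ = 1 := by simp [Prod.norm_def]
          rw [h6, mul_one, Real.norm_eq_abs] at h5
          exact h5.trans (hC z)
        gcongr
      have h3 := neg_abs_le ((h z - A₁ z) * fderiv ℝ θ z (0, 1))
      have h4 := hθI z
      have h5 : 0 ≤ (1 - θ z) * fderiv ℝ A₁ z (0, 1) + θ z * fderiv ℝ h z (0, 1) :=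
        add_nonneg (mul_nonneg (by linarith [h4.2]) hA₁0) (mul_nonneg h4.1 hh0)
      nlinarith
    · have h1 : (fun z => A₁ z + θ z * (h z - A₁ z) + ε * (z.2 - t₀)) =ᶠ[𝓝 z]
          fun z => A₁ z + ε * (z.2 - t₀) := by
        have h2 : ∀ᶠ y in 𝓝 z, y ∉ tsupport θ := (isClosed_tsupport θ).isOpen_compl.mem_nhds hzθ
        filter_upwards [h2] with y hy
        rw [image_eq_zero_of_notMem_tsupport hy, zero_mul, add_zero]
      rw [h1.fderiv_eq, fderiv_fun_add hdA hdl, add_apply, hlind]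
      linarith

end Run7.h7
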