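import Mathlib
import Pool.Agent.Run7.h7.QApp

/-!
Improvement of a continuous function, strictly monotone in one direction, in a box: it becomes of
class `C^1` with a nonzero derivative in this direction in the inner box, it is not changed outside
the box, it stays of class `C^1` where it is of class `C^1`, with control of the derivative on a
compact set.
-/

open MeasureTheory Filter Set Metric Function
open scoped Topology ContDiff Manifold

namespace Run7.h7

variable {m : ℕ}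

lemma glue_mono {f g : ℝ → ℝ} {t₀ η c : ℝ} (hη : 0 < η) (hc : c ∈ Icc (0 : ℝ) 1)
    (hf : StrictMonoOn f (Icc (t₀ - η) (t₀ + η)))
    (hg : StrictMonoOn g (Icc (t₀ - η / 2) (t₀ + η / 2)))
    (hL : ∀ t ∈ Icc (t₀ - η / 2) (t₀ - η / 4), f t ≤ g t)
    (hR : ∀ t ∈ Icc (t₀ + η / 4) (t₀ + η / 2), g t ≤ f t) :
    StrictMonoOn (fun t => f t + c * chiT t₀ η t * (g t - f t)) (Icc (t₀ - η) (t₀ + η)) := by
  set F : ℝ → ℝ := fun t => f t + c * chiT t₀ η t * (g t - f t) with hF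
  have hout : ∀ t, t ∉ Ioo (t₀ - η / 2) (t₀ + η / 2) → F t = f t := by
    intro t ht
    simp only [hF]
    rw [chiT_zero hη ht]; ring
  have h1 : StrictMonoOn F (Icc (t₀ - η) (t₀ - η / 2)) := by
    intro s hs t ht hst
    rw [hout s fun h => by linarith [h.1, hs.2], hout t fun h => by linarith [h.1, ht.2]]
    exact hf ⟨hs.1, by linarith [hs.2]⟩ ⟨ht.1, by linarith [ht.2]⟩ hst
  have h4 : StrictMonoOn F (Icc (t₀ + η / 2) (t₀ + η)) := by
    intro s hs t ht hst
    rw [hout s fun h => by linarith [h.2, hs.1], hout t fun h => by linarith [h.2, ht.1]]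
    exact hf ⟨by linarith [hs.1], hs.2⟩ ⟨by linarith [ht.1], ht.2⟩ hst
  have hχ := fun t => chiT_mem (t₀ := t₀) (η := η) t
  have key : ∀ χ χ' F₁ F₂ G₁ G₂ : ℝ, F₁ < F₂ → G₁ < G₂ → χ ∈ Icc (0 : ℝ) 1 →
      0 < (1 - χ) * (F₂ - F₁) + χ * (G₂ - G₁) := by
    intro χ χ' F₁ F₂ G₁ G₂ h1 h2 h3
    have e1 : 0 ≤ (1 - χ) * (F₂ - F₁) := mul_nonneg (by linarith [h3.2]) (by linarith)
    have e2 : 0 ≤ χ * (G₂ - G₁) := mul_nonneg h3.1 (by linarith)
    rcases eq_or_lt_of_le h3.1 with h0 | h0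
    · have : 0 < (1 - χ) * (F₂ - F₁) := mul_pos (by rw [← h0]; norm_num) (by linarith)
      linarith
    · have : 0 < χ * (G₂ - G₁) := mul_pos h0 (by linarith)
      linarith
  have hcχ : ∀ t, c * chiT t₀ η t ∈ Icc (0 : ℝ) 1 := fun t =>
    ⟨mul_nonneg hc.1 (hχ t).1, mul_le_one₀ hc.2 (hχ t).1 (hχ t).2⟩
  have h2 : StrictMonoOn F (Icc (t₀ - η / 2) t₀) := by
    intro s hs t ht hst
    have hfst : f s < f t := hf ⟨by linarith [hs.1], by linarith [hs.2]⟩
      ⟨by linarith [ht.1], by linarith [ht.2]⟩ hst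
    have hgst : g s < g t := hg ⟨hs.1, by linarith [hs.2]⟩ ⟨ht.1, by linarith [ht.2]⟩ hst
    have e1 := key _ 0 _ _ _ _ hfst hgst (hcχ t)
    have e2 : 0 ≤ (c * chiT t₀ η t - c * chiT t₀ η s) * (g s - f s) := by
      rw [← mul_sub, mul_assoc]
      refine mul_nonneg hc.1 ?_
      by_cases hs4 : s ≤ t₀ - η / 4
      · have hm : chiT t₀ η s ≤ chiT t₀ η t :=
          chiT_mono hη (mem_Iic.2 hs.2) (mem_Iic.2 ht.2) hst.le
        exact mul_nonneg (by linarith) (by linarith [hL s ⟨hs.1, hs4⟩])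
      · push Not at hs4
        rw [chiT_one (t := s) hη ⟨hs4.le, by linarith [hs.2]⟩,
          chiT_one (t := t) hη ⟨by linarith, by linarith [ht.2]⟩]
        simp
    have e3 : F t - F s = (1 - c * chiT t₀ η t) * (f t - f s) + c * chiT t₀ η t * (g t - g s) +
        (c * chiT t₀ η t - c * chiT t₀ η s) * (g s - f s) := by
      simp only [hF]; ring
    linarith
  have h3 : StrictMonoOn F (Icc t₀ (t₀ + η / 2)) := by
    intro s hs t ht hst
    have hfst : f s < f t := hf ⟨by linarith [hs.1], by linarith [hs.2]⟩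
      ⟨by linarith [ht.1], by linarith [ht.2]⟩ hst
    have hgst : g s < g t := hg ⟨by linarith [hs.1], hs.2⟩ ⟨by linarith [ht.1], ht.2⟩ hst
    have e1 := key _ 0 _ _ _ _ hfst hgst (hcχ s)
    have e2 : 0 ≤ (c * chiT t₀ η t - c * chiT t₀ η s) * (g t - f t) := by
      rw [← mul_sub, mul_assoc]
      refine mul_nonneg hc.1 ?_
      by_cases ht4 : t₀ + η / 4 ≤ t
      · have hm : chiT t₀ η t ≤ chiT t₀ η s :=
          chiT_anti hη (mem_Ici.2 hs.1) (mem_Ici.2 ht.1) hst.le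
        exact mul_nonneg_of_nonpos_of_nonpos (by linarith) (by linarith [hR t ⟨ht4, ht.2⟩])
      · push Not at ht4
        rw [chiT_one (t := t) hη ⟨by linarith [ht.1], ht4.le⟩,
          chiT_one (t := s) hη ⟨by linarith [hs.1], by linarith⟩]
        simp
    have e3 : F t - F s = (1 - c * chiT t₀ η s) * (f t - f s) + c * chiT t₀ η s * (g t - g s) +
        (c * chiT t₀ η t - c * chiT t₀ η s) * (g t - f t) := by
      simp only [hF]; ring
    linarith
  have h12 : StrictMonoOn F (Icc (t₀ - η) t₀) := by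
    have := h1.union h2 (c := t₀ - η / 2) (isGreatest_Icc (by linarith)) (isLeast_Icc (by linarith))
    rwa [Icc_union_Icc_eq_Icc (by linarith) (by linarith)] at this
  have h34 : StrictMonoOn F (Icc t₀ (t₀ + η)) := by
    have := h3.union h4 (c := t₀ + η / 2) (isGreatest_Icc (by linarith)) (isLeast_Icc (by linarith))
    rwa [Icc_union_Icc_eq_Icc (by linarith) (by linarith)] at this
  have := h12.union h34 (c := t₀) (isGreatest_Icc (by linarith)) (isLeast_Icc (by linarith))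
  rwa [Icc_union_Icc_eq_Icc (by linarith) (by linarith)] at this

/-- the contraction towards the level `t₀` -/
noncomputable def ctr (t₀ δ : ℝ) (z : E m × ℝ) : E m × ℝ := (z.1, t₀ + (1 - δ) * (z.2 - t₀))

/-- its derivative -/
noncomputable def ctrD (m : ℕ) (δ : ℝ) : E m × ℝ →L[ℝ] E m × ℝ :=
  (ContinuousLinearMap.fst ℝ (E m) ℝ).prod ((1 - δ) • ContinuousLinearMap.snd ℝ (E m) ℝ)

lemma ctr_hasFDerivAt (t₀ δ : ℝ) (z : E m × ℝ) : HasFDerivAt (ctr t₀ δ) (ctrD m δ) z := by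
  have h1 : HasFDerivAt (fun z : E m × ℝ => z.1) (ContinuousLinearMap.fst ℝ (E m) ℝ) z :=
    hasFDerivAt_fst
  have h2 : HasFDerivAt (fun z : E m × ℝ => z.2) (ContinuousLinearMap.snd ℝ (E m) ℝ) z :=
    hasFDerivAt_snd
  have h3 : HasFDerivAt (fun z : E m × ℝ => t₀ + (1 - δ) * (z.2 - t₀))
      ((1 - δ) • ContinuousLinearMap.snd ℝ (E m) ℝ) z :=
    ((h2.sub_const t₀).const_mul (1 - δ)).const_add t₀
  exact h1.prodMk h3

lemma continuous_ctr (t₀ : ℝ) : Continuous fun p : ℝ × (E m × ℝ) => ctr t₀ p.1 p.2 := by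
  unfold ctr
  fun_prop

lemma ctr_zero (t₀ : ℝ) (z : E m × ℝ) : ctr t₀ 0 z = z := by
  unfold ctr
  ext1
  · rfl
  · simp

lemma ctrD_zero : ctrD m 0 = ContinuousLinearMap.id ℝ (E m × ℝ) := by
  unfold ctrD
  ext z
  · simp
  · simp
  · simp
  · simp

lemma ctrD_apply (δ : ℝ) : ctrD m δ (0, 1) = (1 - δ) • ((0 : E m), (1 : ℝ)) := by
  unfold ctrD
  simp

lemma ctrD_norm {δ : ℝ} (h : δ ∈ Icc (0 : ℝ) 1) : ‖ctrD m δ‖ ≤ 1 := by
  refine ContinuousLinearMap.opNorm_le_bound _ zero_le_one fun z => ?_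
  unfold ctrD
  simp only [ContinuousLinearMap.prod_apply, ContinuousLinearMap.coe_fst', smul_apply,
    ContinuousLinearMap.coe_snd', smul_eq_mul, Prod.norm_def, one_mul]
  refine max_le_max le_rfl ?_
  rw [norm_mul, Real.norm_eq_abs (1 - δ), abs_of_nonneg (by linarith [h.2])]
  calc (1 - δ) * ‖z.2‖ ≤ 1 * ‖z.2‖ := by
        gcongr
        linarith [h.1]
    _ = ‖z.2‖ := one_mul _

end Run7.h7
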