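import Mathlib
import Pool.Agent.Run7.h7.QBox

/-!
Improvement of a continuous function in a box: the theorem.
-/

open MeasureTheory Filter Set Metric Function
open scoped Topology ContDiff Manifold

namespace Run7.h7

variable {m : ℕ}

/-- **Improvement in a box**, increasing functions. -/
theorem box_pos {h : E m × ℝ → ℝ} {a₀ : E m} {t₀ r η : ℝ} (hr : 0 < r) (hη : 0 < η)
    (hc : Continuous h)
    (hmono : ∀ a ∈ closedBall a₀ r, StrictMonoOn (fun t => h (a, t)) (Icc (t₀ - η) (t₀ + η)))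
    {K : Set (E m × ℝ)} (hK : IsCompact K) (hKQ : K ⊆ cbox a₀ t₀ (r / 2) (η / 2))
    (hKd : ∀ z ∈ K, ContDiffAt ℝ 1 h z) {ε : ℝ} (hε : 0 < ε) :
    ∃ h' : E m × ℝ → ℝ, Continuous h' ∧
      (∀ z, z ∉ cbox a₀ t₀ (r / 2) (η / 2) → h' z = h z) ∧ (∀ z, |h' z - h z| ≤ ε) ∧
      (∀ a ∈ closedBall a₀ r, StrictMonoOn (fun t => h' (a, t)) (Icc (t₀ - η) (t₀ + η))) ∧
      (∀ z, ContDiffAt ℝ 1 h z → ContDiffAt ℝ 1 h' z) ∧
      (∀ z ∈ obox a₀ t₀ r η, ContDiffAt ℝ 1 h z → fderiv ℝ h z (0, 1) ≠ 0 →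
        fderiv ℝ h' z (0, 1) ≠ 0) ∧
      (∀ z ∈ obox a₀ t₀ (r / 4) (η / 4), ContDiffAt ℝ 1 h' z ∧ fderiv ℝ h' z (0, 1) ≠ 0) ∧
      ∀ z ∈ K, ‖fderiv ℝ h' z - fderiv ℝ h z‖ ≤ ε := by
  set Q : Set (E m × ℝ) := cbox a₀ t₀ (r / 2) (η / 2) with hQ
  have hQc : IsCompact Q := isCompact_cbox _ _ _ _
  have hQo : Q ⊆ obox a₀ t₀ r η := cbox_subset_obox (by linarith) (by linarith)
  have hL : IsOpen {z | ContDiffAt ℝ 1 h z} := isOpen_C1 h
  -- the cut-off functions
  obtain ⟨θ, hθ, hθc, hθU, hθ1, hθI⟩ := exists_cutoffB hK (hL.inter (isOpen_obox a₀ t₀ r η))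
    (fun z hz => ⟨hKd z hz, hQo (hKQ hz)⟩)
  obtain ⟨χa, hχa, hχac, hχaU, hχa1, hχaI⟩ := exists_cutoffB
    (isCompact_closedBall a₀ (r / 4)) (isOpen_ball (x := a₀) (ε := r / 2))
    (closedBall_subset_ball (by linarith))
  set χ : E m × ℝ → ℝ := fun z => χa z.1 * chiT t₀ η z.2 with hχd
  have hχ : ContDiff ℝ ∞ χ :=
    (hχa.comp contDiff_fst).mul ((chiT_contDiff t₀ η).comp contDiff_snd)
  have hχ0 : ∀ z, z ∉ Q → χ z = 0 := by
    intro z hz
    simp only [hχd]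
    by_cases h1 : z.1 ∈ ball a₀ (r / 2)
    · rw [chiT_zero hη, mul_zero]
      intro h2
      exact hz ⟨ball_subset_closedBall h1, h2.1.le, h2.2.le⟩
    · rw [image_eq_zero_of_notMem_tsupport (fun h2 => h1 (hχaU h2)), zero_mul]
  have hχc : HasCompactSupport χ := HasCompactSupport.intro hQc hχ0
  have hχI : ∀ z, χ z ∈ Icc (0 : ℝ) 1 := by
    intro z
    have h1 := hχaI z.1
    have h2 := chiT_mem (t₀ := t₀) (η := η) z.2
    exact ⟨mul_nonneg h1.1 h2.1, mul_le_one₀ h1.2 h2.1 h2.2⟩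
  obtain ⟨C, hC0, hC⟩ := exists_fderiv_bound hχ hχc
  -- the first constant
  obtain ⟨e₂, he₂, he₂1, he₂C⟩ : ∃ e₂ : ℝ, 0 < e₂ ∧ 2 * e₂ ≤ ε / 2 ∧ 2 * e₂ * C ≤ ε / 2 := by
    refine ⟨ε / (4 * (C + 1)), by positivity, ?_, ?_⟩
    · rw [mul_div_assoc', div_le_div_iff₀ (by positivity) (by positivity)]
      nlinarith
    · rw [mul_div_assoc', div_mul_eq_mul_div, div_le_div_iff₀ (by positivity) (by positivity)]
      nlinarith
  -- the contraction
  obtain ⟨δ, hδ0, hδ1, hδa, hδb, hδc⟩ : ∃ δ : ℝ, 0 < δ ∧ δ < 1 ∧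
      (∀ z ∈ Q, |h (ctr t₀ δ z) - h z| ≤ e₂) ∧
      (∀ z ∈ K, ∀ᶠ y in 𝓝 (ctr t₀ δ z), θ y = 1) ∧
      ∀ z ∈ K, ‖(fderiv ℝ h (ctr t₀ δ z)).comp (ctrD m δ) - fderiv ℝ h z‖ ≤ ε / 4 := by
    have hctr : ∀ z : E m × ℝ, Tendsto (fun p : ℝ × (E m × ℝ) => ctr t₀ p.1 p.2) (𝓝 (0, z))
        (𝓝 z) := by
      intro z
      have := (continuous_ctr (m := m) t₀).tendsto (0, z)
      simpa [ctr_zero] using this
    have e1 : ∀ᶠ δ : ℝ in 𝓝 0, ∀ z ∈ Q, |h (ctr t₀ δ z) - h z| < e₂ := by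
      refine hQc.eventually_forall_of_forall_eventually fun z _ => ?_
      have h1 : Tendsto (fun p : ℝ × (E m × ℝ) => |h (ctr t₀ p.1 p.2) - h p.2|) (𝓝 (0, z))
          (𝓝 |h z - h z|) :=
        (((hc.tendsto z).comp (hctr z)).sub ((hc.comp continuous_snd).tendsto (0, z))).abs
      rw [sub_self, abs_zero] at h1
      exact h1.eventually (gt_mem_nhds he₂)
    have e2 : ∀ᶠ δ : ℝ in 𝓝 0, ∀ z ∈ K, ∀ᶠ y in 𝓝 (ctr t₀ δ z), θ y = 1 := by
      refine hK.eventually_forall_of_forall_eventually fun z hz => ?_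
      have h1 : ∀ᶠ y in 𝓝 z, θ y = 1 := (eventually_nhdsSet_iff_forall.1 hθ1) z hz
      exact (hctr z).eventually h1.eventually_nhds
    have e3 : ∀ᶠ δ : ℝ in 𝓝 0, ∀ z ∈ K,
        ‖(fderiv ℝ h (ctr t₀ δ z)).comp (ctrD m δ) - fderiv ℝ h z‖ < ε / 4 := by
      refine hK.eventually_forall_of_forall_eventually fun z hz => ?_
      have h1 : ContinuousAt (fderiv ℝ h) z := (hKd z hz).continuousAt_fderiv (by simp)
      have h2 : Tendsto (fun p : ℝ × (E m × ℝ) => fderiv ℝ h (ctr t₀ p.1 p.2)) (𝓝 (0, z))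
          (𝓝 (fderiv ℝ h z)) := h1.tendsto.comp (hctr z)
      have h3 : Tendsto (fun p : ℝ × (E m × ℝ) => ctrD m p.1) (𝓝 (0, z)) (𝓝 (ctrD m 0)) := by
        have h4 : Continuous (fun δ : ℝ => ctrD m δ) := by
          unfold ctrD
          have h5 : ∀ δ : ℝ, (ContinuousLinearMap.fst ℝ (E m) ℝ).prod
              ((1 - δ) • ContinuousLinearMap.snd ℝ (E m) ℝ) =
              ContinuousLinearMap.prodₗᵢ ℝ (ContinuousLinearMap.fst ℝ (E m) ℝ,
                (1 - δ) • ContinuousLinearMap.snd ℝ (E m) ℝ) := fun δ => rfl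
          simp only [h5]
          refine (LinearIsometryEquiv.continuous _).comp ?_
          exact continuous_const.prodMk ((continuous_const.sub continuous_id).smul
            continuous_const)
        exact (h4.tendsto 0).comp continuous_fst.continuousAt
      have h4 : Tendsto (fun p : ℝ × (E m × ℝ) => fderiv ℝ h p.2) (𝓝 (0, z))
          (𝓝 (fderiv ℝ h z)) := h1.tendsto.comp continuous_snd.continuousAt
      have hcc : Continuous fun p : (E m × ℝ →L[ℝ] ℝ) × (E m × ℝ →L[ℝ] E m × ℝ) =>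
          p.1.comp p.2 := by fun_prop
      have h23 : Tendsto (fun p : ℝ × (E m × ℝ) =>
          (fderiv ℝ h (ctr t₀ p.1 p.2)).comp (ctrD m p.1)) (𝓝 (0, z))
          (𝓝 ((fderiv ℝ h z).comp (ctrD m 0))) :=
        (hcc.tendsto (fderiv ℝ h z, ctrD m 0)).comp (h2.prodMk_nhds h3)
      have h5 := (h23.sub h4).norm
      rw [ctrD_zero, ContinuousLinearMap.comp_id, sub_self, norm_zero] at h5
      exact h5.eventually (gt_mem_nhds (by positivity))
    have e4 : ∀ᶠ δ : ℝ in 𝓝[>] 0, 0 < δ ∧ δ < 1 := by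
      have : Ioo (0 : ℝ) 1 ∈ 𝓝[>] (0 : ℝ) := Ioo_mem_nhdsGT one_pos
      filter_upwards [this] with δ hδ using hδ
    obtain ⟨δ, ⟨h4, h1, h2, h3⟩⟩ := (e4.and ((e1.filter_mono nhdsWithin_le_nhds).and
      ((e2.filter_mono nhdsWithin_le_nhds).and (e3.filter_mono nhdsWithin_le_nhds)))).exists
    exact ⟨δ, h4.1, h4.2, fun z hz => (h1 z hz).le, h2, fun z hz => (h3 z hz).le⟩
  -- the contraction preserves the box
  have hσQ : ∀ z ∈ Q, ctr t₀ δ z ∈ Q := by
    rintro ⟨a, t⟩ ⟨ha, ht⟩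
    refine ⟨ha, ?_⟩
    have ht1 : t₀ - η / 2 ≤ t := ht.1
    have ht2 : t ≤ t₀ + η / 2 := ht.2
    show t₀ + (1 - δ) * (t - t₀) ∈ Icc (t₀ - η / 2) (t₀ + η / 2)
    constructor <;> nlinarith
  have hσI : ∀ z ∈ Q, (ctr t₀ δ z).2 ∈ Ioo (t₀ - η / 2) (t₀ + η / 2) := by
    rintro ⟨a, t⟩ ⟨ha, ht⟩
    have ht1 : t₀ - η / 2 ≤ t := ht.1
    have ht2 : t ≤ t₀ + η / 2 := ht.2
    show t₀ + (1 - δ) * (t - t₀) ∈ Ioo (t₀ - η / 2) (t₀ + η / 2)
    constructor <;> nlinarith
  -- the gaps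
  have hgapc : Continuous (fun z => h (ctr t₀ δ z)) :=
    hc.comp ((continuous_ctr (m := m) t₀).comp (continuous_const.prodMk continuous_id))
  obtain ⟨c, hc0, hcL, hcR⟩ : ∃ c : ℝ, 0 < c ∧
      (∀ z ∈ Q, z.2 ≤ t₀ - η / 4 → c ≤ h (ctr t₀ δ z) - h z) ∧
      ∀ z ∈ Q, t₀ + η / 4 ≤ z.2 → c ≤ h z - h (ctr t₀ δ z) := by
    have k1 : IsCompact (Q ∩ {z | z.2 ≤ t₀ - η / 4}) :=
      hQc.inter_right (isClosed_le continuous_snd continuous_const)
    have k2 : IsCompact (Q ∩ {z | t₀ + η / 4 ≤ z.2}) :=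
      hQc.inter_right (isClosed_le continuous_const continuous_snd)
    have hIcc : ∀ z ∈ Q, z.2 ∈ Icc (t₀ - η) (t₀ + η) := by
      rintro ⟨a, t⟩ ⟨ha, ht⟩
      have ht1 : t₀ - η / 2 ≤ t := ht.1
      have ht2 : t ≤ t₀ + η / 2 := ht.2
      exact ⟨by simp only; linarith, by simp only; linarith⟩
    obtain ⟨c₁, hc₁, h1⟩ := k1.exists_forall_le' (f := fun z => h (ctr t₀ δ z) - h z)
      (hgapc.sub hc).continuousOn (a := 0) (by
        rintro z ⟨hz, hz2⟩
        have hz2' : z.2 ≤ t₀ - η / 4 := hz2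
        rw [sub_pos]
        exact hmono z.1 (closedBall_subset_closedBall (by linarith) hz.1) (hIcc z hz)
          (hIcc _ (hσQ z hz)) (show z.2 < t₀ + (1 - δ) * (z.2 - t₀) by nlinarith))
    obtain ⟨c₂, hc₂, h2⟩ := k2.exists_forall_le' (f := fun z => h z - h (ctr t₀ δ z))
      (hc.sub hgapc).continuousOn (a := 0) (by
        rintro z ⟨hz, hz2⟩
        have hz2' : t₀ + η / 4 ≤ z.2 := hz2
        rw [sub_pos]
        exact hmono z.1 (closedBall_subset_closedBall (by linarith) hz.1)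
          (hIcc _ (hσQ z hz)) (hIcc z hz) (show t₀ + (1 - δ) * (z.2 - t₀) < z.2 by nlinarith))
    exact ⟨min c₁ c₂, lt_min hc₁ hc₂, fun z hz hz2 => (min_le_left _ _).trans (h1 z ⟨hz, hz2⟩),
      fun z hz hz2 => (min_le_right _ _).trans (h2 z ⟨hz, hz2⟩)⟩
  -- the second constant and the approximation
  obtain ⟨μ, hμ0, hμc, hμe⟩ : ∃ μ : ℝ, 0 < μ ∧ μ ≤ c ∧ μ ≤ e₂ :=
    ⟨min c e₂, lt_min hc0 he₂, min_le_left _ _, min_le_right _ _⟩
  obtain ⟨ε', hε', hε'1, hε'2⟩ : ∃ ε' : ℝ, 0 < ε' ∧ ε' * η ≤ μ / 2 ∧ ε' ≤ ε / 4 := by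
    refine ⟨min (μ / (2 * η)) (ε / 4), by positivity, ?_, min_le_right _ _⟩
    have h1 : min (μ / (2 * η)) (ε / 4) * η ≤ μ / (2 * η) * η := by
      gcongr
      exact min_le_left _ _
    refine h1.trans (le_of_eq ?_)
    field_simp
  obtain ⟨A₀, hA₀, hA₀c, hA₀1, hA₀p⟩ := exists_app hr hη hc hmono hθ hθc hθU hθI hε'
    (show 0 < μ / 2 by positivity)
  set A : E m × ℝ → ℝ := fun z => A₀ (ctr t₀ δ z) with hA
  have hAd : ∀ z, HasFDerivAt A ((fderiv ℝ A₀ (ctr t₀ δ z)).comp (ctrD m δ)) z := by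
    intro z
    have h1 : HasFDerivAt A₀ (fderiv ℝ A₀ (ctr t₀ δ z)) (ctr t₀ δ z) :=
      ((hA₀.differentiable (by simp)) _).hasFDerivAt
    exact h1.comp z (ctr_hasFDerivAt t₀ δ z)
  have hA1 : ContDiff ℝ 1 A := by
    refine hA₀.comp ?_
    unfold ctr
    fun_prop
  have hAh : ∀ z ∈ Q, |A z - h (ctr t₀ δ z)| ≤ μ := by
    intro z hz
    have h1 := hA₀c _ (hσQ z hz)
    have h2 : |ε' * ((ctr t₀ δ z).2 - t₀)| ≤ μ / 2 := by
      rw [abs_mul, abs_of_pos hε']
      refine le_trans ?_ hε'1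
      gcongr
      have h3 := hσI z hz
      rw [abs_le]
      constructor <;> linarith [h3.1, h3.2]
    have h3 : A z - h (ctr t₀ δ z) = (A₀ (ctr t₀ δ z) - (h (ctr t₀ δ z) +
        ε' * ((ctr t₀ δ z).2 - t₀))) + ε' * ((ctr t₀ δ z).2 - t₀) := by
      simp only [hA]; ring
    rw [h3]
    refine (abs_add_le _ _).trans ?_
    linarith
  have hAL : ∀ z ∈ Q, z.2 ≤ t₀ - η / 4 → h z ≤ A z := by
    intro z hz hz2
    have h1 := hcL z hz hz2
    have h2 := (abs_le.1 (hAh z hz)).1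
    linarith
  have hAR : ∀ z ∈ Q, t₀ + η / 4 ≤ z.2 → A z ≤ h z := by
    intro z hz hz2
    have h1 := hcR z hz hz2
    have h2 := (abs_le.1 (hAh z hz)).2
    linarith
  have hAc : ∀ z ∈ Q, |A z - h z| ≤ 2 * e₂ := by
    intro z hz
    have h1 : A z - h z = (A z - h (ctr t₀ δ z)) + (h (ctr t₀ δ z) - h z) := by ring
    rw [h1]
    refine (abs_add_le _ _).trans ?_
    have := hAh z hz
    have := hδa z hz
    linarith
  have hAp : ∀ z ∈ Q, 0 < fderiv ℝ A z (0, 1) := by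
    intro z hz
    rw [(hAd z).fderiv, ContinuousLinearMap.comp_apply, ctrD_apply, map_smul, smul_eq_mul]
    exact mul_pos (by linarith) (hA₀p _ (hσQ z hz) (hσI z hz))
  -- the new function
  set h' : E m × ℝ → ℝ := fun z => h z + χ z * (A z - h z) with hh'
  have hχ1 : ContDiff ℝ 1 χ := hχ.of_le (by simp)
  have hout : ∀ z, z ∉ Q → h' z = h z := by
    intro z hz
    simp only [hh']
    rw [hχ0 z hz, zero_mul, add_zero]
  have hnear : ∀ z, z ∉ Q → h' =ᶠ[𝓝 z] h := by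
    intro z hz
    filter_upwards [hQc.isClosed.isOpen_compl.mem_nhds hz] with y hy
    exact hout y hy
  have hfd : ∀ z, DifferentiableAt ℝ h z → fderiv ℝ h' z = fderiv ℝ h z +
      (χ z • (fderiv ℝ A z - fderiv ℝ h z) + (A z - h z) • fderiv ℝ χ z) := by
    intro z hz
    have hdA : DifferentiableAt ℝ A z := (hAd z).differentiableAt
    have hdχ : DifferentiableAt ℝ χ z := (hχ1.differentiable (by simp)) z
    have h0 : HasFDerivAt h' (fderiv ℝ h z +
      (χ z • (fderiv ℝ A z - fderiv ℝ h z) + (A z - h z) • fderiv ℝ χ z)) z :=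
      hz.hasFDerivAt.add (hdχ.hasFDerivAt.mul (hdA.hasFDerivAt.sub hz.hasFDerivAt))
    exact h0.fderiv
  refine ⟨h', ?_, hout, ?_, ?_, ?_, ?_, ?_, ?_⟩
  · exact hc.add (hχ.continuous.mul (hA1.continuous.sub hc))
  · intro z
    by_cases hz : z ∈ Q
    · have h1 : h' z - h z = χ z * (A z - h z) := by simp only [hh']; ring
      rw [h1, abs_mul, abs_of_nonneg (hχI z).1]
      calc χ z * |A z - h z| ≤ 1 * (2 * e₂) := by
            gcongr
            · exact (hχI z).2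
            · exact hAc z hz
        _ ≤ ε := by linarith
    · rw [hout z hz, sub_self, abs_zero]; exact hε.le
  · intro a ha
    by_cases ha2 : a ∈ closedBall a₀ (r / 2)
    · have h1 := glue_mono (f := fun t => h (a, t)) (g := fun t => A (a, t)) (c := χa a) hη
        (hχaI a) (hmono a ha) (by
          refine strictMonoOn_of_deriv_pos (convex_Icc _ _) ?_ fun t ht => ?_
          · exact (hA1.continuous.comp (continuous_const.prodMk continuous_id)).continuousOn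
          · rw [interior_Icc] at ht
            have hz : (a, t) ∈ Q := ⟨ha2, ht.1.le, ht.2.le⟩
            have h2 := hAp (a, t) hz
            rwa [← slice_deriv (hAd (a, t)).differentiableAt] at h2)
        (fun t ht => hAL (a, t) ⟨ha2, ht.1, by simp only; linarith [ht.2]⟩ ht.2)
        (fun t ht => hAR (a, t) ⟨ha2, by simp only; linarith [ht.1], ht.2⟩ ht.1)
      exact h1
    · have h1 : (fun t => h' (a, t)) = fun t => h (a, t) := by
        funext t
        exact hout _ fun h2 => ha2 h2.1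
      rw [h1]
      exact hmono a ha
  · intro z hz
    exact hz.add (hχ1.contDiffAt.mul (hA1.contDiffAt.sub hz))
  · intro z hz hz1 hz0
    by_cases hzQ : z ∈ Q
    · have hd : DifferentiableAt ℝ h z := hz1.differentiableAt (by simp)
      have hpos : 0 < fderiv ℝ h z (0, 1) := by
        refine lt_of_le_of_ne ?_ (Ne.symm hz0)
        exact slice_nonneg hd (s := Icc (t₀ - η) (t₀ + η))
          (hmono z.1 (ball_subset_closedBall hz.1)).monotoneOn (Icc_mem_nhds hz.2.1 hz.2.2)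
      have hdχ : DifferentiableAt ℝ χ z := (hχ1.differentiable (by simp)) z
      have hχs : fderiv ℝ χ z (0, 1) = χa z.1 * deriv (chiT t₀ η) z.2 := by
        have h1 := hasDerivAt_slice hdχ
        have h2 : HasDerivAt (fun s => χ (z.1, s)) (χa z.1 * deriv (chiT t₀ η) z.2) z.2 := by
          have h3 : DifferentiableAt ℝ (chiT t₀ η) z.2 :=
            ((chiT_contDiff t₀ η).differentiable (by simp)) z.2
          exact h3.hasDerivAt.const_mul (χa z.1)
        exact h1.unique h2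
      have hsgn : 0 ≤ deriv (chiT t₀ η) z.2 * (A z - h z) := by
        refine chiT_sign hη (fun ht => ?_) (fun ht => ?_) ⟨hzQ.2.1, hzQ.2.2⟩
        · linarith [hAL z hzQ ht.2]
        · linarith [hAR z hzQ ht.1]
      rw [hfd z hd]
      simp only [add_apply, smul_apply, sub_apply, smul_eq_mul]
      rw [hχs]
      have e1 : 0 ≤ (A z - h z) * (χa z.1 * deriv (chiT t₀ η) z.2) := by
        have : (A z - h z) * (χa z.1 * deriv (chiT t₀ η) z.2) =
          χa z.1 * (deriv (chiT t₀ η) z.2 * (A z - h z)) := by ring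
        rw [this]
        exact mul_nonneg (hχaI z.1).1 hsgn
      have e2 := hAp z hzQ
      have e3 := hχI z
      have e4 : 0 < (1 - χ z) * fderiv ℝ h z (0, 1) + χ z * fderiv ℝ A z (0, 1) := by
        rcases eq_or_lt_of_le e3.1 with h0 | h0
        · rw [← h0]; simpa using hpos
        · have := mul_pos h0 e2
          have := mul_nonneg (show 0 ≤ 1 - χ z by linarith [e3.2]) hpos.le
          linarith
      intro hcon
      linarith
    · rw [(hnear z hzQ).fderiv_eq]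
      exact hz0
  · intro z hz
    have hzQ : z ∈ Q := by
      refine obox_subset_cbox.trans (cbox_mono (by linarith) (by linarith)) hz
    have h1 : h' =ᶠ[𝓝 z] A := by
      have h2 : ∀ᶠ y in 𝓝 z, y ∈ obox a₀ t₀ (r / 4) (η / 4) := (isOpen_obox _ _ _ _).mem_nhds hz
      filter_upwards [h2] with y hy
      have h3 : χ y = 1 := by
        simp only [hχd]
        rw [((eventually_nhdsSet_iff_forall.1 hχa1) y.1
          (ball_subset_closedBall hy.1)).self_of_nhds, chiT_one hη ⟨hy.2.1.le, hy.2.2.le⟩, mul_one]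
      simp only [hh']
      rw [h3]; ring
    refine ⟨hA1.contDiffAt.congr_of_eventuallyEq h1, ?_⟩
    rw [h1.fderiv_eq]
    exact (hAp z hzQ).ne'
  · intro z hz
    have hd : DifferentiableAt ℝ h z := (hKd z hz).differentiableAt (by simp)
    have hzQ := hKQ hz
    rw [hfd z hd]
    have h1 : fderiv ℝ h z + (χ z • (fderiv ℝ A z - fderiv ℝ h z) +
        (A z - h z) • fderiv ℝ χ z) - fderiv ℝ h z =
        χ z • (fderiv ℝ A z - fderiv ℝ h z) + (A z - h z) • fderiv ℝ χ z := by abel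
    rw [h1]
    -- the derivative of `A`
    have hev := hδb z hz
    have hA₀h : A₀ =ᶠ[𝓝 (ctr t₀ δ z)] fun y => h y + ε' * (y.2 - t₀) := by
      filter_upwards [hev] with y hy
      exact hA₀1 y hy
    have hdh' : DifferentiableAt ℝ h (ctr t₀ δ z) := by
      have h2 : ctr t₀ δ z ∈ tsupport θ := by
        refine subset_tsupport θ ?_
        rw [mem_support, hev.self_of_nhds]
        exact one_ne_zero
      have h3 : ContDiffAt ℝ 1 h (ctr t₀ δ z) := (hθU h2).1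
      exact h3.differentiableAt (by simp)
    have hdA₀ : fderiv ℝ A₀ (ctr t₀ δ z) = fderiv ℝ h (ctr t₀ δ z) +
        ε' • ContinuousLinearMap.snd ℝ (E m) ℝ := by
      rw [hA₀h.fderiv_eq]
      have h2 : HasFDerivAt (fun y : E m × ℝ => y.2) (ContinuousLinearMap.snd ℝ (E m) ℝ)
        (ctr t₀ δ z) := hasFDerivAt_snd
      exact (hdh'.hasFDerivAt.add ((h2.sub_const t₀).const_mul ε')).fderiv
    have h2 : ‖fderiv ℝ A z - fderiv ℝ h z‖ ≤ ε / 4 + ε / 4 := by
      rw [(hAd z).fderiv, hdA₀, ContinuousLinearMap.add_comp]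
      have h3 : (fderiv ℝ h (ctr t₀ δ z)).comp (ctrD m δ) +
          (ε' • ContinuousLinearMap.snd ℝ (E m) ℝ).comp (ctrD m δ) - fderiv ℝ h z =
          ((fderiv ℝ h (ctr t₀ δ z)).comp (ctrD m δ) - fderiv ℝ h z) +
          (ε' • ContinuousLinearMap.snd ℝ (E m) ℝ).comp (ctrD m δ) := by abel
      rw [h3]
      refine (norm_add_le _ _).trans (add_le_add (hδc z hz) ?_)
      refine (ContinuousLinearMap.opNorm_comp_le _ _).trans ?_
      rw [norm_smul, Real.norm_of_nonneg hε'.le]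
      calc ε' * ‖ContinuousLinearMap.snd ℝ (E m) ℝ‖ * ‖ctrD m δ‖ ≤ ε' * 1 * 1 := by
            gcongr
            · exact ContinuousLinearMap.norm_snd_le ℝ (E m) ℝ
            · exact ctrD_norm ⟨hδ0.le, hδ1.le⟩
        _ ≤ ε / 4 := by linarith
    calc ‖χ z • (fderiv ℝ A z - fderiv ℝ h z) + (A z - h z) • fderiv ℝ χ z‖
        ≤ ‖χ z • (fderiv ℝ A z - fderiv ℝ h z)‖ + ‖(A z - h z) • fderiv ℝ χ z‖ :=
          norm_add_le _ _
      _ ≤ 1 * (ε / 4 + ε / 4) + 2 * e₂ * C := by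
          rw [norm_smul, norm_smul, Real.norm_of_nonneg (hχI z).1, Real.norm_eq_abs]
          gcongr
          · exact (hχI z).2
          · exact hAc z hzQ
          · exact hC z
      _ ≤ ε := by linarith

end Run7.h7
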