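import Mathlib
import Pool.Agent.Run7.h7.QBoxT

/-!
Improvement in a box: functions continuous on the box, increasing or decreasing along the fibres.
-/

open MeasureTheory Filter Set Metric Function
open scoped Topology ContDiff Manifold

namespace Run7.h7

variable {m : ℕ}

lemma image_Icc_of_strictMono {f : ℝ → ℝ} {a b : ℝ} (hab : a ≤ b) (hf : StrictMonoOn f (Icc a b))
    (hc : ContinuousOn f (Icc a b)) : f '' Icc a b = Icc (f a) (f b) := by
  apply Subset.antisymm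
  · rintro _ ⟨t, ht, rfl⟩
    exact ⟨hf.monotoneOn ⟨le_rfl, hab⟩ ht ht.1, hf.monotoneOn ht ⟨hab, le_rfl⟩ ht.2⟩
  · exact intermediate_value_Icc hab hc

/-- the conclusion of the improvement in a box -/
structure BoxImp (h h' : E m × ℝ → ℝ) (a₀ : E m) (t₀ r η : ℝ) (K : Set (E m × ℝ)) (ε : ℝ) :
    Prop where
  cont : ContinuousOn h' (cbox a₀ t₀ r η)
  out : ∀ z, z ∉ cbox a₀ t₀ (r / 2) (η / 2) → h' z = h z
  close : ∀ z, |h' z - h z| ≤ ε
  inj : ∀ a ∈ closedBall a₀ r, InjOn (fun t => h' (a, t)) (Icc (t₀ - η) (t₀ + η))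
  img : ∀ a ∈ closedBall a₀ r, (fun t => h' (a, t)) '' Icc (t₀ - η) (t₀ + η) =
    (fun t => h (a, t)) '' Icc (t₀ - η) (t₀ + η)
  c1 : ∀ z ∈ obox a₀ t₀ r η, ContDiffAt ℝ 1 h z → ContDiffAt ℝ 1 h' z
  k0 : ∀ z ∈ obox a₀ t₀ r η, ContDiffAt ℝ 1 h z → fderiv ℝ h z (0, 1) ≠ 0 →
    fderiv ℝ h' z (0, 1) ≠ 0
  inner : ∀ z ∈ obox a₀ t₀ (r / 4) (η / 4), ContDiffAt ℝ 1 h' z ∧ fderiv ℝ h' z (0, 1) ≠ 0
  der : ∀ z ∈ K, ‖fderiv ℝ h' z - fderiv ℝ h z‖ ≤ ε

lemma box_mono {h : E m × ℝ → ℝ} {a₀ : E m} {t₀ r η : ℝ} (hr : 0 < r) (hη : 0 < η)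
    (hc : ContinuousOn h (cbox a₀ t₀ r η))
    (hmono : ∀ a ∈ closedBall a₀ r, StrictMonoOn (fun t => h (a, t)) (Icc (t₀ - η) (t₀ + η)))
    {K : Set (E m × ℝ)} (hK : IsCompact K) (hKQ : K ⊆ cbox a₀ t₀ (r / 2) (η / 2))
    (hKd : ∀ z ∈ K, ContDiffAt ℝ 1 h z) {ε : ℝ} (hε : 0 < ε) :
    ∃ h' : E m × ℝ → ℝ, BoxImp h h' a₀ t₀ r η K ε := by
  classical
  obtain ⟨g, hg⟩ := ContinuousMap.exists_restrict_eq (isCompact_cbox a₀ t₀ r η).isClosed
    (⟨_, hc.domRestrict⟩ : C(cbox a₀ t₀ r η, ℝ))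
  have hgh : ∀ z ∈ cbox a₀ t₀ r η, g z = h z := by
    intro z hz
    have := congrArg (fun f : C(cbox a₀ t₀ r η, ℝ) => f ⟨z, hz⟩) hg
    exact this
  have hgm : ∀ a ∈ closedBall a₀ r,
      StrictMonoOn (fun t => g (a, t)) (Icc (t₀ - η) (t₀ + η)) := by
    intro a ha s hs t ht hst
    simp only
    rw [hgh (a, s) ⟨ha, hs⟩, hgh (a, t) ⟨ha, ht⟩]
    exact hmono a ha hs ht hst
  have hnear : ∀ z ∈ obox a₀ t₀ r η, (g : E m × ℝ → ℝ) =ᶠ[𝓝 z] h := by
    intro z hz
    filter_upwards [(isOpen_obox a₀ t₀ r η).mem_nhds hz] with y hy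
    exact hgh y (obox_subset_cbox hy)
  have hhalf : cbox a₀ t₀ (r / 2) (η / 2) ⊆ obox a₀ t₀ r η :=
    cbox_subset_obox (by linarith) (by linarith)
  obtain ⟨g', p1, p2, p3, p4, p5, p6, p7, p8⟩ := box_pos hr hη g.continuous hgm hK hKQ
    (fun z hz => (hKd z hz).congr_of_eventuallyEq (hnear z (hhalf (hKQ hz)))) hε
  set h' : E m × ℝ → ℝ := fun z => if z ∈ cbox a₀ t₀ r η then g' z else h z with hh'
  have hin : ∀ z ∈ cbox a₀ t₀ r η, h' z = g' z := fun z hz => by simp only [hh']; rw [if_pos hz]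
  have hno : ∀ z, z ∉ cbox a₀ t₀ r η → h' z = h z := fun z hz => by
    simp only [hh']; rw [if_neg hz]
  have hnear' : ∀ z ∈ obox a₀ t₀ r η, h' =ᶠ[𝓝 z] g' := by
    intro z hz
    filter_upwards [(isOpen_obox a₀ t₀ r η).mem_nhds hz] with y hy
    exact hin y (obox_subset_cbox hy)
  have hmono' : ∀ a ∈ closedBall a₀ r,
      StrictMonoOn (fun t => h' (a, t)) (Icc (t₀ - η) (t₀ + η)) := by
    intro a ha s hs t ht hst
    simp only
    rw [hin (a, s) ⟨ha, hs⟩, hin (a, t) ⟨ha, ht⟩]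
    exact p4 a ha hs ht hst
  have hout : ∀ z, z ∉ cbox a₀ t₀ (r / 2) (η / 2) → h' z = h z := by
    intro z hz
    by_cases hz1 : z ∈ cbox a₀ t₀ r η
    · rw [hin z hz1, p2 z hz, hgh z hz1]
    · exact hno z hz1
  have hcont' : ContinuousOn h' (cbox a₀ t₀ r η) := p1.continuousOn.congr hin
  refine ⟨h', hcont', hout, ?_, fun a ha => (hmono' a ha).injOn, ?_, ?_, ?_, ?_, ?_⟩
  · intro z
    by_cases hz1 : z ∈ cbox a₀ t₀ r η
    · rw [hin z hz1, ← hgh z hz1]
      exact p3 z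
    · rw [hno z hz1, sub_self, abs_zero]
      exact hε.le
  · intro a ha
    have hI : t₀ - η ≤ t₀ + η := by linarith
    have hsl : ∀ f : E m × ℝ → ℝ, ContinuousOn f (cbox a₀ t₀ r η) →
        ContinuousOn (fun t => f (a, t)) (Icc (t₀ - η) (t₀ + η)) := by
      intro f hf
      refine hf.comp (continuous_const.prodMk continuous_id).continuousOn ?_
      exact fun t ht => ⟨ha, ht⟩
    rw [image_Icc_of_strictMono hI (hmono' a ha) (hsl h' hcont'),
      image_Icc_of_strictMono hI (hmono a ha) (hsl h hc)]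
    rw [hout (a, t₀ - η) fun h1 => by have := h1.2.1; simp only at this; linarith,
      hout (a, t₀ + η) fun h1 => by have := h1.2.2; simp only at this; linarith]
  · intro z hz h1
    exact (p5 z (h1.congr_of_eventuallyEq (hnear z hz))).congr_of_eventuallyEq (hnear' z hz)
  · intro z hz h1 h2
    rw [(hnear' z hz).fderiv_eq]
    refine p6 z hz (h1.congr_of_eventuallyEq (hnear z hz)) ?_
    rw [(hnear z hz).fderiv_eq]
    exact h2
  · intro z hz
    have hz' : z ∈ obox a₀ t₀ r η :=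
      hhalf (obox_subset_cbox.trans (cbox_mono (by linarith) (by linarith)) hz)
    obtain ⟨h1, h2⟩ := p7 z hz
    refine ⟨h1.congr_of_eventuallyEq (hnear' z hz'), ?_⟩
    rw [(hnear' z hz').fderiv_eq]
    exact h2
  · intro z hz
    have hz' := hhalf (hKQ hz)
    rw [(hnear' z hz').fderiv_eq, ← (hnear z hz').fderiv_eq]
    exact p8 z hz

/-- **Improvement in a box.** -/
theorem box_gen {h : E m × ℝ → ℝ} {a₀ : E m} {t₀ r η : ℝ} (hr : 0 < r) (hη : 0 < η)
    (hc : ContinuousOn h (cbox a₀ t₀ r η))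
    (hmono : (∀ a ∈ closedBall a₀ r, StrictMonoOn (fun t => h (a, t)) (Icc (t₀ - η) (t₀ + η))) ∨
      ∀ a ∈ closedBall a₀ r, StrictAntiOn (fun t => h (a, t)) (Icc (t₀ - η) (t₀ + η)))
    {K : Set (E m × ℝ)} (hK : IsCompact K) (hKQ : K ⊆ cbox a₀ t₀ (r / 2) (η / 2))
    (hKd : ∀ z ∈ K, ContDiffAt ℝ 1 h z) {ε : ℝ} (hε : 0 < ε) :
    ∃ h' : E m × ℝ → ℝ, BoxImp h h' a₀ t₀ r η K ε := by
  rcases hmono with hmono | hmono
  · exact box_mono hr hη hc hmono hK hKQ hKd hε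
  · obtain ⟨g', hg'⟩ := box_mono (h := fun z => -h z) hr hη hc.neg
      (fun a ha s hs t ht hst => neg_lt_neg (hmono a ha hs ht hst)) hK hKQ
      (fun z hz => (hKd z hz).neg) hε
    have hfd : ∀ (f : E m × ℝ → ℝ) z, fderiv ℝ (fun z => -f z) z = -fderiv ℝ f z := fun f z =>
      fderiv_fun_neg
    have e0 : ∀ z, h z = -(-h z) := fun z => (neg_neg _).symm
    refine ⟨fun z => -g' z, hg'.cont.neg, fun z hz => ?_, fun z => ?_, fun a ha s hs t ht hst => ?_,
      fun a ha => ?_, fun z hz h1 => ?_, fun z hz h1 h2 => ?_, fun z hz => ?_, fun z hz => ?_⟩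
    · rw [hg'.out z hz, neg_neg]
    · have h1 := hg'.close z
      have h2 : -g' z - h z = -(g' z - -h z) := by ring
      rw [h2, abs_neg]
      exact h1
    · exact hg'.inj a ha hs ht (neg_injective hst)
    · have h1 := hg'.img a ha
      have h2 : (fun t => -g' (a, t)) '' Icc (t₀ - η) (t₀ + η) =
          Neg.neg '' ((fun t => g' (a, t)) '' Icc (t₀ - η) (t₀ + η)) := by
        rw [image_image]
      have h3 : (fun t => h (a, t)) '' Icc (t₀ - η) (t₀ + η) =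
          Neg.neg '' ((fun t => -h (a, t)) '' Icc (t₀ - η) (t₀ + η)) := by
        rw [image_image]
        simp only [neg_neg]
      rw [h2, h3, h1]
    · exact (hg'.c1 z hz h1.neg).neg
    · rw [hfd, neg_apply]
      refine neg_ne_zero.2 (hg'.k0 z hz h1.neg ?_)
      rw [hfd, neg_apply]
      exact neg_ne_zero.2 h2
    · obtain ⟨h1, h2⟩ := hg'.inner z hz
      refine ⟨h1.neg, ?_⟩
      rw [hfd, neg_apply]
      exact neg_ne_zero.2 h2
    · have h1 := hg'.der z hz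
      rw [hfd] at h1 ⊢
      have h2 : -fderiv ℝ g' z - fderiv ℝ h z = -(fderiv ℝ g' z - -fderiv ℝ h z) := by abel
      rw [h2, norm_neg]
      exact h1

/-- The fibres are mapped monotonically, in the same sense. -/
lemma same_sense {h : E m × ℝ → ℝ} {a₀ : E m} {t₀ r η : ℝ} (hr : 0 < r) (hη : 0 < η)
    (hc : ContinuousOn h (cbox a₀ t₀ r η))
    (hinj : ∀ a ∈ closedBall a₀ r, InjOn (fun t => h (a, t)) (Icc (t₀ - η) (t₀ + η))) :
    (∀ a ∈ closedBall a₀ r, StrictMonoOn (fun t => h (a, t)) (Icc (t₀ - η) (t₀ + η))) ∨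
      ∀ a ∈ closedBall a₀ r, StrictAntiOn (fun t => h (a, t)) (Icc (t₀ - η) (t₀ + η)) := by
  have hI : t₀ - η ≤ t₀ + η := by linarith
  have hlt : t₀ - η < t₀ + η := by linarith
  have hL : t₀ - η ∈ Icc (t₀ - η) (t₀ + η) := ⟨le_rfl, hI⟩
  have hR : t₀ + η ∈ Icc (t₀ - η) (t₀ + η) := ⟨hI, le_rfl⟩
  have hsl : ∀ a ∈ closedBall a₀ r, StrictMonoOn (fun t => h (a, t)) (Icc (t₀ - η) (t₀ + η)) ∨
      StrictAntiOn (fun t => h (a, t)) (Icc (t₀ - η) (t₀ + η)) := by
    intro a ha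
    refine ContinuousOn.strictMonoOn_of_injOn_Icc' hI ?_ (hinj a ha)
    exact hc.comp (continuous_const.prodMk continuous_id).continuousOn fun t ht => ⟨ha, ht⟩
  set d : E m → ℝ := fun a => h (a, t₀ + η) - h (a, t₀ - η) with hd
  have hdc : ContinuousOn d (closedBall a₀ r) := by
    refine ContinuousOn.sub ?_ ?_
    · exact hc.comp (continuous_id.prodMk continuous_const).continuousOn fun a ha => ⟨ha, hR⟩
    · exact hc.comp (continuous_id.prodMk continuous_const).continuousOn fun a ha => ⟨ha, hL⟩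
  have hd0 : ∀ a ∈ closedBall a₀ r, d a ≠ 0 := by
    intro a ha h0
    have h1 : h (a, t₀ + η) = h (a, t₀ - η) := by simp only [hd] at h0; linarith
    have := hinj a ha hR hL h1
    linarith
  have hpre : IsPreconnected (closedBall a₀ r) := (convex_closedBall a₀ r).isPreconnected
  have ha₀ : a₀ ∈ closedBall a₀ r := mem_closedBall_self hr.le
  rcases lt_or_gt_of_ne (hd0 a₀ ha₀) with hneg | hpos
  · right
    intro a ha
    rcases hsl a ha with h1 | h1
    · exfalso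
      have h2 : 0 < d a := by
        simp only [hd]
        have := h1 hL hR hlt
        simp only at this
        linarith
      obtain ⟨b, hb, hb0⟩ := hpre.intermediate_value ha₀ ha hdc
        (⟨hneg.le, h2.le⟩ : (0 : ℝ) ∈ Icc (d a₀) (d a))
      exact hd0 b hb hb0
    · exact h1
  · left
    intro a ha
    rcases hsl a ha with h1 | h1
    · exact h1
    · exfalso
      have h2 : d a < 0 := by
        simp only [hd]
        have := h1 hL hR hlt
        simp only at this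
        linarith
      obtain ⟨b, hb, hb0⟩ := hpre.intermediate_value ha ha₀ hdc
        (⟨h2.le, hpos.le⟩ : (0 : ℝ) ∈ Icc (d a) (d a₀))
      exact hd0 b hb hb0

end Run7.h7
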