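import Mathlib

/-!
Modification of a homeomorphism in a compact set, in coordinates.
-/

open Filter Set Function
open scoped Topology

namespace Run7.h7

/-- **Modification in a coordinate box.** -/
theorem glue_homeo {X Y B : Type*} [TopologicalSpace X] [T2Space X] [TopologicalSpace Y]
    [TopologicalSpace B] (F : X ≃ₜ Y) (Φ : OpenPartialHomeomorph X B)
    (Ψ : OpenPartialHomeomorph Y B) {Q Q' U : Set B} (hU : IsOpen U) (hQU : Q' ⊆ U)
    (hUQ : U ⊆ Q) (hQ' : IsCompact Q') (hQΦ : Q ⊆ Φ.target)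
    (hFΨ : ∀ z ∈ Q, F (Φ.symm z) ∈ Ψ.source) {H' : B → B} (hc : ContinuousOn H' Q)
    (hinj : InjOn H' Q) (himg : H' '' Q = (fun z => Ψ (F (Φ.symm z))) '' Q)
    (hout : ∀ z ∈ Q, z ∉ Q' → H' z = Ψ (F (Φ.symm z))) :
    ∃ F' : X ≃ₜ Y, (∀ x, x ∉ Φ.symm '' Q' → F' x = F x) ∧
      ∀ z ∈ Q, F' (Φ.symm z) = Ψ.symm (H' z) := by
  classical
  have hT2Y : T2Space Y := F.t2Space
  set D : Set X := Φ.symm '' Q with hD
  set g : X → Y := fun x => if x ∈ D then Ψ.symm (H' (Φ x)) else F x with hg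
  have hgin : ∀ z ∈ Q, g (Φ.symm z) = Ψ.symm (H' z) := by
    intro z hz
    simp only [hg]
    rw [if_pos ⟨z, hz, rfl⟩, Φ.right_inv (hQΦ hz)]
  have hgno : ∀ x, x ∉ D → g x = F x := fun x hx => by simp only [hg]; rw [if_neg hx]
  have htgt : ∀ z ∈ Q, H' z ∈ Ψ.target := by
    intro z hz
    obtain ⟨w, hw, hwz⟩ : H' z ∈ (fun z => Ψ (F (Φ.symm z))) '' Q := by
      rw [← himg]; exact ⟨z, hz, rfl⟩
    rw [← hwz]
    exact Ψ.map_source (hFΨ w hw)
  set C : Set X := Φ.symm '' Q' with hC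
  have hCc : IsCompact C :=
    hQ'.image_of_continuousOn (Φ.continuousOn_symm.mono ((hQU.trans hUQ).trans hQΦ))
  have hoff : ∀ x, x ∉ C → g x = F x := by
    intro x hx
    by_cases hxD : x ∈ D
    · obtain ⟨z, hz, rfl⟩ := hxD
      rw [hgin z hz, hout z hz fun h => hx ⟨z, h, rfl⟩, Ψ.left_inv (hFΨ z hz)]
    · exact hgno x hxD
  have hgsurj : Surjective g := by
    intro y
    obtain ⟨x, rfl⟩ := F.surjective y
    by_cases hxD : x ∈ D
    · obtain ⟨z, hz, rfl⟩ := hxD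
      obtain ⟨w, hw, hwz⟩ : Ψ (F (Φ.symm z)) ∈ H' '' Q := by rw [himg]; exact ⟨z, hz, rfl⟩
      refine ⟨Φ.symm w, ?_⟩
      rw [hgin w hw, hwz, Ψ.left_inv (hFΨ z hz)]
    · exact ⟨x, hgno x hxD⟩
  have hgF : ∀ x ∈ D, ∃ x' ∈ D, g x = F x' := by
    rintro x ⟨z, hz, rfl⟩
    obtain ⟨w, hw, hwz⟩ : H' z ∈ (fun z => Ψ (F (Φ.symm z))) '' Q := by
      rw [← himg]; exact ⟨z, hz, rfl⟩
    refine ⟨Φ.symm w, ⟨w, hw, rfl⟩, ?_⟩
    have hwz' : Ψ (F (Φ.symm w)) = H' z := hwz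
    rw [hgin z hz, ← hwz', Ψ.left_inv (hFΨ w hw)]
  have hginj : Injective g := by
    intro x x' hxx
    by_cases hx : x ∈ D
    · by_cases hx' : x' ∈ D
      · obtain ⟨z, hz, rfl⟩ := hx
        obtain ⟨w, hw, rfl⟩ := hx'
        rw [hgin z hz, hgin w hw] at hxx
        rw [hinj hz hw (Ψ.symm.injOn (htgt z hz) (htgt w hw) hxx)]
      · exfalso
        obtain ⟨x'', hx'', h1⟩ := hgF x hx
        rw [h1, hgno x' hx'] at hxx
        exact hx' (F.injective hxx ▸ hx'')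
    · by_cases hx' : x' ∈ D
      · exfalso
        obtain ⟨x'', hx'', h1⟩ := hgF x' hx'
        rw [h1, hgno x hx] at hxx
        exact hx (F.injective hxx ▸ hx'')
      · rw [hgno x hx, hgno x' hx'] at hxx
        exact F.injective hxx
  have hgc : Continuous g := by
    rw [continuous_iff_continuousAt]
    intro x
    by_cases hx : x ∈ Φ.source ∩ Φ ⁻¹' U
    · have hopen : IsOpen (Φ.source ∩ Φ ⁻¹' U) := Φ.isOpen_inter_preimage hU
      have hnear : g =ᶠ[𝓝 x] fun y => Ψ.symm (H' (Φ y)) := by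
        filter_upwards [hopen.mem_nhds hx] with y hy
        have h1 := hgin (Φ y) (hUQ hy.2)
        rwa [Φ.left_inv hy.1] at h1
      refine ContinuousAt.congr ?_ hnear.symm
      have h1 : ContinuousAt H' (Φ x) :=
        hc.continuousAt (mem_of_superset (hU.mem_nhds hx.2) hUQ)
      have h2 : ContinuousAt Ψ.symm (H' (Φ x)) := Ψ.symm.continuousAt (htgt _ (hUQ hx.2))
      exact ContinuousAt.comp (f := fun y => H' (Φ y)) h2
        (ContinuousAt.comp (f := Φ) h1 (Φ.continuousAt hx.1))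
    · have hxC : x ∉ C := by
        rintro ⟨z, hz, rfl⟩
        apply hx
        refine ⟨Φ.map_target (hQΦ (hUQ (hQU hz))), ?_⟩
        rw [mem_preimage, Φ.right_inv (hQΦ (hUQ (hQU hz)))]
        exact hQU hz
      refine ContinuousAt.congr F.continuous.continuousAt ?_
      filter_upwards [hCc.isClosed.isOpen_compl.mem_nhds hxC] with y hy
      exact (hoff y hy).symm
  have hgcl : IsClosedMap g := by
    intro S hS
    have hid : ∀ x ∈ closure Cᶜ, g x = F x := by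
      have h2 : IsClosed {x | g x = F x} := isClosed_eq hgc F.continuous
      exact fun x hx => closure_minimal (fun z hz => hoff z hz) h2 hx
    have h3 : g '' S = g '' (C ∩ S) ∪ F '' (closure Cᶜ ∩ S) := by
      ext y
      constructor
      · rintro ⟨z, hz, rfl⟩
        by_cases hzC : z ∈ C
        · exact Or.inl ⟨z, ⟨hzC, hz⟩, rfl⟩
        · right
          rw [hoff z hzC]
          exact ⟨z, ⟨subset_closure hzC, hz⟩, rfl⟩
      · rintro (⟨z, ⟨-, hz⟩, rfl⟩ | ⟨z, ⟨hz, hzS⟩, rfl⟩)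
        · exact ⟨z, hz, rfl⟩
        · exact ⟨z, hzS, hid z hz⟩
    rw [h3]
    exact ((hCc.inter_right hS).image hgc).isClosed.union
      (F.isClosedMap _ (isClosed_closure.inter hS))
  exact ⟨(Equiv.ofBijective g ⟨hginj, hgsurj⟩).toHomeomorphOfContinuousClosed hgc hgcl, hoff, hgin⟩

end Run7.h7
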