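import Mathlib
import Pool.Agent.Run7.h7.C1Pt

/-!
Coordinates of class `C^1` adapted to a submersion of class `C^1`.
-/

open Filter Set Metric Function
open scoped Topology ContDiff Manifold RealInnerProductSpace

namespace Run7.h7

open Pool.Agent.Y522 (LD)
open Pool.Agent.Y66.CM (LD_chart)

variable {n : ℕ}

section defs

variable {X B : Type*} [TopologicalSpace X] [ChartedSpace (E n) X]
  [NormedAddCommGroup B] [NormedSpace ℝ B]

/-- coordinates of class `C^1` -/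
structure C1C (n : ℕ) {X B : Type*} [TopologicalSpace X] [ChartedSpace (E n) X]
    [NormedAddCommGroup B] [NormedSpace ℝ B] (Φ : OpenPartialHomeomorph X B) : Prop where
  dir : ∀ x ∈ Φ.source, ContMDiffAt (𝓡 n) 𝓘(ℝ, B) 1 Φ x
  inv : ∀ z ∈ Φ.target, ContMDiffAt 𝓘(ℝ, B) (𝓡 n) 1 Φ.symm z

/-- `q` is of class `C^1` near `y` and a submersion at `y` -/
def SubAt (n m : ℕ) {Y : Type*} [TopologicalSpace Y] [ChartedSpace (E n) Y] (q : Y → E m)
    (y : Y) : Prop :=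
  ContMDiffAt (𝓡 n) (𝓡 m) 1 q y ∧
    Surjective (mfderiv (𝓡 n) (𝓡 m) q y : E n →L[ℝ] E m)

end defs

/-- a surjective linear map onto a space of dimension one less extends to an isomorphism -/
lemma exists_equiv_prod {m : ℕ} {L : E (m + 1) →L[ℝ] E m} (hL : Surjective L) :
    ∃ (w : E (m + 1)) (T : E (m + 1) ≃L[ℝ] E m × ℝ),
      (T : E (m + 1) →L[ℝ] E m × ℝ) = L.prod (innerSL ℝ w) := by
  have h1 := LinearMap.finrank_range_add_finrank_ker (L : E (m + 1) →ₗ[ℝ] E m)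
  have h2 : LinearMap.range (L : E (m + 1) →ₗ[ℝ] E m) = ⊤ := LinearMap.range_eq_top.2 hL
  rw [h2, finrank_top] at h1
  have h3 : Module.finrank ℝ (LinearMap.ker (L : E (m + 1) →ₗ[ℝ] E m)) = 1 := by
    simp at h1
    omega
  obtain ⟨⟨w, hwk⟩, hw0, hw⟩ := finrank_eq_one_iff'.1 h3
  have hw0' : w ≠ 0 := fun h => hw0 (Subtype.ext h)
  have hinj : Injective (L.prod (innerSL ℝ w)) := by
    refine (injective_iff_map_eq_zero _).2 fun v hv => ?_
    rw [ContinuousLinearMap.prod_apply, Prod.mk_eq_zero] at hv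
    obtain ⟨hv1, hv2⟩ := hv
    obtain ⟨c, hc⟩ := hw ⟨v, hv1⟩
    have hc' : c • w = v := congrArg Subtype.val hc
    rw [innerSL_apply_apply, ← hc', inner_smul_right, real_inner_self_eq_norm_sq] at hv2
    rcases mul_eq_zero.1 hv2 with h | h
    · rw [← hc', h, zero_smul]
    · exact absurd (pow_eq_zero_iff (two_ne_zero)|>.1 h) (norm_ne_zero_iff.2 hw0')
  have hfr : Module.finrank ℝ (E (m + 1)) = Module.finrank ℝ (E m × ℝ) := by simp
  have hsurj : Surjective (L.prod (innerSL ℝ w)) :=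
    (LinearMap.injective_iff_surjective_of_finrank_eq_finrank
      (f := (L.prod (innerSL ℝ w)).toLinearMap) hfr).1 hinj
  refine ⟨w, ContinuousLinearEquiv.ofBijective (L.prod (innerSL ℝ w))
    (LinearMap.ker_eq_bot.2 hinj) (LinearMap.range_eq_top.2 hsurj), ?_⟩
  exact ContinuousLinearEquiv.coe_ofBijective _ _ _

section man

variable {m : ℕ} {X : Type} [TopologicalSpace X] [ChartedSpace (E (m + 1)) X]
  [IsManifold (𝓡 (m + 1)) ∞ X]

/-- **Adapted coordinates.** -/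
theorem exists_C1C {p : X → E m} {x : X} (h : SubAt (m + 1) m p x) {N : Set X} (hN : N ∈ 𝓝 x) :
    ∃ Φ : OpenPartialHomeomorph X (E m × ℝ), x ∈ Φ.source ∧ Φ.source ⊆ N ∧ C1C (m + 1) Φ ∧
      ∀ y ∈ Φ.source, (Φ y).1 = p y := by
  obtain ⟨φ, hφ⟩ : ∃ φ : OpenPartialHomeomorph X (E (m + 1)), φ = chartAt (E (m + 1)) x :=
    ⟨_, rfl⟩
  have hxs : x ∈ φ.source := by rw [hφ]; exact mem_chart_source _ _
  have hφLD : ∀ y ∈ φ.source, LD (m + 1) (φ : X → E (m + 1)) y := by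
    rw [hφ]; exact fun y hy => LD_chart _ y hy
  have hφsLD : ∀ z ∈ φ.target, LD (m + 1) (φ.symm : E (m + 1) → X) z := by
    rw [hφ]; exact fun z hz => chart_symm_LD _ hz
  set z₀ : E (m + 1) := φ x with hz₀
  have hz₀t : z₀ ∈ φ.target := φ.map_source hxs
  have hsz : φ.symm z₀ = x := φ.left_inv hxs
  set p₀ : E (m + 1) → E m := fun z => p (φ.symm z) with hp₀
  have hpm : ContMDiffAt (𝓡 (m + 1)) (𝓡 m) 1 p (φ.symm z₀) := by rw [hsz]; exact h.1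
  have hp₀m : ContMDiffAt (𝓡 (m + 1)) (𝓡 m) 1 p₀ z₀ :=
    ContMDiffAt.comp z₀ hpm ((hφsLD z₀ hz₀t).contMDiffAt.of_le (by simp))
  have hp₀1 : ContDiffAt ℝ 1 p₀ z₀ := contMDiffAt_iff_contDiffAt.1 hp₀m
  have hp₀s : Surjective (fderiv ℝ p₀ z₀) := by
    have e1 : mfderiv (𝓡 (m + 1)) (𝓡 m) p₀ z₀ =
        (mfderiv (𝓡 (m + 1)) (𝓡 m) p (φ.symm z₀)).comp
          (mfderiv (𝓡 (m + 1)) (𝓡 (m + 1)) (φ.symm : E (m + 1) → X) z₀) :=
      mfderiv_comp z₀ (hpm.mdifferentiableAt (by simp))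
        (Pool.Agent.Y522.LD.mdifferentiableAt (hφsLD z₀ hz₀t))
    have e2 : (mfderiv (𝓡 (m + 1)) (𝓡 m) p₀ z₀ : E (m + 1) →L[ℝ] E m) = fderiv ℝ p₀ z₀ := by
      rw [mfderiv_eq_fderiv]
    have e3 : ∀ y, y = x → Surjective (mfderiv (𝓡 (m + 1)) (𝓡 m) p y : E (m + 1) →L[ℝ] E m) := by
      rintro y rfl; exact h.2
    have e4 := e3 _ hsz
    have e5 := (LD.mfderiv_bijective (hφsLD z₀ hz₀t)).2
    obtain ⟨A, hA⟩ : ∃ A : E (m + 1) →L[ℝ] E m,
        A = mfderiv (𝓡 (m + 1)) (𝓡 m) p (φ.symm z₀) := ⟨_, rfl⟩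
    obtain ⟨A', hA'⟩ : ∃ A' : E (m + 1) →L[ℝ] E (m + 1),
        A' = mfderiv (𝓡 (m + 1)) (𝓡 (m + 1)) (φ.symm : E (m + 1) → X) z₀ := ⟨_, rfl⟩
    have e6 : fderiv ℝ p₀ z₀ = A.comp A' := by
      rw [← e2, hA, hA']
      exact e1
    rw [e6]
    rw [← hA] at e4
    rw [← hA'] at e5
    exact e4.comp e5
  obtain ⟨w, T, hT⟩ := exists_equiv_prod hp₀s
  set g : E (m + 1) → E m × ℝ := fun z => (p₀ z, innerSL ℝ w z) with hg
  have hg1 : ContDiffAt ℝ 1 g z₀ := hp₀1.prodMk (innerSL ℝ w).contDiff.contDiffAt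
  have hgd : ∀ z, DifferentiableAt ℝ p₀ z → HasFDerivAt g ((fderiv ℝ p₀ z).prod (innerSL ℝ w)) z :=
    fun z hz => hz.hasFDerivAt.prodMk (innerSL ℝ w).hasFDerivAt
  have hgT : HasFDerivAt g (T : E (m + 1) →L[ℝ] E m × ℝ) z₀ := by
    rw [hT]; exact hgd z₀ (hp₀1.differentiableAt (by simp))
  obtain ⟨G, hG, hGz⟩ : ∃ G : OpenPartialHomeomorph (E (m + 1)) (E m × ℝ),
      (G : E (m + 1) → E m × ℝ) = g ∧ z₀ ∈ G.source :=
    ⟨hg1.toOpenPartialHomeomorph g hgT (by simp),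
      hg1.toOpenPartialHomeomorph_coe hgT (by simp),
      hg1.mem_toOpenPartialHomeomorph_source hgT (by simp)⟩
  -- the good set
  have hgood : ∀ᶠ z in 𝓝 z₀, ContDiffAt ℝ 1 g z ∧
      ∃ S : E (m + 1) ≃L[ℝ] E m × ℝ, (S : E (m + 1) →L[ℝ] E m × ℝ) = fderiv ℝ g z := by
    refine (hg1.eventually (by simp)).and ?_
    have h1 : ContinuousAt (fderiv ℝ g) z₀ := hg1.continuousAt_fderiv (by simp)
    have h2 : range ((↑) : (E (m + 1) ≃L[ℝ] E m × ℝ) → (E (m + 1) →L[ℝ] E m × ℝ)) ∈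
        𝓝 (fderiv ℝ g z₀) := by
      rw [hgT.fderiv]
      exact ContinuousLinearEquiv.nhds T
    filter_upwards [h1.eventually h2] with z hz
    exact hz
  obtain ⟨W, hWsub, hWo, hzW⟩ := _root_.mem_nhds_iff.1 hgood
  obtain ⟨O, hON, hOo, hxO⟩ := _root_.mem_nhds_iff.1 hN
  set Φ₀ : OpenPartialHomeomorph X (E m × ℝ) := φ.trans G with hΦ₀
  set R : Set X := (φ.source ∩ φ ⁻¹' W) ∩ O with hR
  have hRo : IsOpen R := (φ.isOpen_inter_preimage hWo).inter hOo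
  set Φ : OpenPartialHomeomorph X (E m × ℝ) := Φ₀.restr R with hΦ
  have hΦs : Φ.source = Φ₀.source ∩ R := by
    rw [hΦ, OpenPartialHomeomorph.restr_source' _ _ hRo]
  have hΦ₀s : Φ₀.source = φ.source ∩ φ ⁻¹' G.source := by
    rw [hΦ₀, OpenPartialHomeomorph.trans_source]
  have hΦa : ∀ y, Φ y = g (φ y) := by
    intro y
    change G (φ y) = g (φ y)
    rw [hG]
  have hΦi : ∀ z, Φ.symm z = φ.symm (G.symm z) := fun z => rfl
  refine ⟨Φ, ?_, ?_, ⟨?_, ?_⟩, ?_⟩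
  · rw [hΦs, hΦ₀s]
    exact ⟨⟨hxs, hGz⟩, ⟨hxs, hzW⟩, hxO⟩
  · rw [hΦs]
    exact fun y hy => hON hy.2.2
  · intro y hy
    rw [hΦs] at hy
    have hyW := hWsub hy.2.1.2
    have h1 : ContMDiffAt (𝓡 (m + 1)) 𝓘(ℝ, E m × ℝ) 1 g (φ y) :=
      contMDiffAt_iff_contDiffAt.2 hyW.1
    have h2 : ContMDiffAt (𝓡 (m + 1)) (𝓡 (m + 1)) 1 φ y :=
      (hφLD y hy.2.1.1).contMDiffAt.of_le (by simp)
    have h3 : ContMDiffAt (𝓡 (m + 1)) 𝓘(ℝ, E m × ℝ) 1 (fun y => g (φ y)) y :=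
      ContMDiffAt.comp y h1 h2
    exact h3.congr_of_eventuallyEq (Eventually.of_forall hΦa)
  · intro z hz
    have hy : Φ.symm z ∈ Φ.source := Φ.map_target hz
    have hzy : Φ (Φ.symm z) = z := Φ.right_inv hz
    rw [hΦs, hΦ₀s] at hy
    have hyW := hWsub hy.2.1.2
    have hGs : φ (Φ.symm z) ∈ G.source := hy.1.2
    have hGz' : G (φ (Φ.symm z)) = z := hzy
    have hzt : z ∈ G.target := by rw [← hGz']; exact G.map_source hGs
    have hGsz : G.symm z = φ (Φ.symm z) := by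
      rw [← hGz', G.left_inv hGs]
      rw [hGz']
    obtain ⟨hc1, S, hS⟩ := hyW
    have h1 : ContDiffAt ℝ 1 G.symm z := by
      refine G.contDiffAt_symm (f₀' := S) hzt ?_ ?_
      · rw [hGsz, hS, hG]
        exact (hc1.differentiableAt (by simp)).hasFDerivAt
      · rw [hGsz, hG]
        exact hc1
    have h2 : ContMDiffAt 𝓘(ℝ, E m × ℝ) (𝓡 (m + 1)) 1 G.symm z :=
      contMDiffAt_iff_contDiffAt.2 h1
    have h3 : ContMDiffAt (𝓡 (m + 1)) (𝓡 (m + 1)) 1 (φ.symm : E (m + 1) → X) (G.symm z) := by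
      refine (hφsLD _ ?_).contMDiffAt.of_le (by simp)
      rw [hGsz]
      exact φ.map_source hy.1.1
    have h4 : ContMDiffAt 𝓘(ℝ, E m × ℝ) (𝓡 (m + 1)) 1 (fun z => φ.symm (G.symm z)) z :=
      ContMDiffAt.comp z h3 h2
    exact h4
  · intro y _
    rw [hΦa, hg]
    rw [hΦs] at *
    simp only [hp₀]
    rename_i hy
    rw [φ.left_inv hy.2.1.1]

end man

end Run7.h7
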