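import Mathlib
import Pool.Agent.Run7.h7.QChart
import Pool.Agent.Run7.h7.C1Mon

/-!
Maps of class `C^1` in coordinates of class `C^1`.
-/

open Filter Set Metric Function
open scoped Topology ContDiff Manifold RealInnerProductSpace

namespace Run7.h7

open Pool.Agent.Y522 (LD)
open Pool.Agent.Y66.CM (LD_chart)

variable {n : ℕ}

section man

variable {X Y B : Type} [TopologicalSpace X] [ChartedSpace (E n) X]
  [TopologicalSpace Y] [ChartedSpace (E n) Y] [NormedAddCommGroup B] [NormedSpace ℝ B]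
  {Φ : OpenPartialHomeomorph X B} {Ψ : OpenPartialHomeomorph Y B}

lemma C1C.comp_ids (hΦ : C1C n Φ) {x : X} (hx : x ∈ Φ.source) :
    ∃ (A : E n →L[ℝ] B) (A' : B →L[ℝ] E n), HasMFDerivAt (𝓡 n) 𝓘(ℝ, B) Φ x A ∧
      HasMFDerivAt 𝓘(ℝ, B) (𝓡 n) Φ.symm (Φ x) A' ∧ A'.comp A = ContinuousLinearMap.id ℝ (E n) ∧
      A.comp A' = ContinuousLinearMap.id ℝ B := by
  have h1 : MDifferentiableAt (𝓡 n) 𝓘(ℝ, B) Φ x := (hΦ.dir x hx).mdifferentiableAt (by simp)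
  have h2 : MDifferentiableAt 𝓘(ℝ, B) (𝓡 n) Φ.symm (Φ x) :=
    (hΦ.inv _ (Φ.map_source hx)).mdifferentiableAt (by simp)
  obtain ⟨A, hA⟩ : ∃ A : E n →L[ℝ] B, HasMFDerivAt (𝓡 n) 𝓘(ℝ, B) Φ x A := ⟨_, h1.hasMFDerivAt⟩
  obtain ⟨A', hA'⟩ : ∃ A' : B →L[ℝ] E n, HasMFDerivAt 𝓘(ℝ, B) (𝓡 n) Φ.symm (Φ x) A' :=
    ⟨_, h2.hasMFDerivAt⟩
  refine ⟨A, A', hA, hA', ?_, ?_⟩
  · have h3 : HasMFDerivAt (𝓡 n) (𝓡 n) (Φ.symm ∘ Φ) x (A'.comp A) := hA'.comp x hA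
    have h4 : HasMFDerivAt (𝓡 n) (𝓡 n) (Φ.symm ∘ Φ) x (ContinuousLinearMap.id ℝ (E n)) := by
      refine (hasMFDerivAt_id x).congr_of_eventuallyEq ?_
      filter_upwards [Φ.open_source.mem_nhds hx] with y hy
      exact Φ.left_inv hy
    exact hasMFDerivAt_unique h3 h4
  · have hA2 : HasMFDerivAt (𝓡 n) 𝓘(ℝ, B) Φ (Φ.symm (Φ x)) A := by
      have h5 : ∀ y, y = x → HasMFDerivAt (𝓡 n) 𝓘(ℝ, B) Φ y A := by
        rintro y rfl; exact hA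
      exact h5 _ (Φ.left_inv hx)
    have h3 : HasMFDerivAt 𝓘(ℝ, B) 𝓘(ℝ, B) (Φ ∘ Φ.symm) (Φ x) (A.comp A') :=
      hA2.comp (Φ x) hA'
    have h4 : HasMFDerivAt 𝓘(ℝ, B) 𝓘(ℝ, B) (Φ ∘ Φ.symm) (Φ x) (ContinuousLinearMap.id ℝ B) := by
      refine (hasMFDerivAt_id (Φ x)).congr_of_eventuallyEq ?_
      filter_upwards [Φ.open_target.mem_nhds (Φ.map_source hx)] with y hy
      exact Φ.right_inv hy
    exact hasMFDerivAt_unique h3 h4

/-- the derivative of the direct coordinate map -/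
lemma C1C.exists_dir (hΦ : C1C n Φ) {x : X} (hx : x ∈ Φ.source) :
    ∃ A : E n →L[ℝ] B, HasMFDerivAt (𝓡 n) 𝓘(ℝ, B) Φ x A ∧ Bijective A := by
  obtain ⟨A, A', h1, h2, h3, h4⟩ := hΦ.comp_ids hx
  refine ⟨A, h1, fun v w hvw => ?_, fun b => ⟨A' b, ?_⟩⟩
  · have e1 := congrArg (fun T : E n →L[ℝ] E n => T v) h3
    have e2 := congrArg (fun T : E n →L[ℝ] E n => T w) h3
    simp only [ContinuousLinearMap.comp_apply, ContinuousLinearMap.id_apply] at e1 e2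
    rw [← e1, ← e2, hvw]
  · have e1 := congrArg (fun T : B →L[ℝ] B => T b) h4
    simpa using e1

/-- the derivative of the inverse coordinate map -/
lemma C1C.exists_inv (hΦ : C1C n Φ) {z : B} (hz : z ∈ Φ.target) :
    ∃ A : B →L[ℝ] E n, HasMFDerivAt 𝓘(ℝ, B) (𝓡 n) Φ.symm z A ∧ Bijective A := by
  obtain ⟨A, A', h1, h2, h3, h4⟩ := hΦ.comp_ids (Φ.map_target hz)
  rw [Φ.right_inv hz] at h2
  refine ⟨A', h2, fun v w hvw => ?_, fun b => ⟨A b, ?_⟩⟩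
  · have e1 := congrArg (fun T : B →L[ℝ] B => T v) h4
    have e2 := congrArg (fun T : B →L[ℝ] B => T w) h4
    simp only [ContinuousLinearMap.comp_apply, ContinuousLinearMap.id_apply] at e1 e2
    rw [← e1, ← e2, hvw]
  · have e1 := congrArg (fun T : E n →L[ℝ] E n => T b) h3
    simpa using e1

/-- to the coordinates -/
lemma to_box (hΦ : C1C n Φ) (hΨ : C1C n Ψ) {F : X → Y} {z : B} (hz : z ∈ Φ.target)
    (hFz : F (Φ.symm z) ∈ Ψ.source) (hF : ContMDiffAt (𝓡 n) (𝓡 n) 1 F (Φ.symm z)) :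
    ContDiffAt ℝ 1 (fun z => Ψ (F (Φ.symm z))) z ∧
      (CP (n := n) K0 F (Φ.symm z) → Injective (fderiv ℝ (fun z => Ψ (F (Φ.symm z))) z)) := by
  have h1 : ContMDiffAt 𝓘(ℝ, B) (𝓡 n) 1 (fun z => F (Φ.symm z)) z :=
    ContMDiffAt.comp z hF (hΦ.inv z hz)
  have h2 : ContMDiffAt 𝓘(ℝ, B) 𝓘(ℝ, B) 1 (fun z => Ψ (F (Φ.symm z))) z :=
    ContMDiffAt.comp z (hΨ.dir _ hFz) h1
  refine ⟨contMDiffAt_iff_contDiffAt.1 h2, fun h0 => ?_⟩
  obtain ⟨A, hA, hAb⟩ := hΦ.exists_inv hz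
  obtain ⟨A', hA', hAb'⟩ := hΨ.exists_dir hFz
  obtain ⟨L, hL⟩ : ∃ L : E n →L[ℝ] E n, HasMFDerivAt (𝓡 n) (𝓡 n) F (Φ.symm z) L :=
    ⟨_, (hF.mdifferentiableAt (by simp)).hasMFDerivAt⟩
  have hLi : Injective L := by
    have h3 : (mfderiv (𝓡 n) (𝓡 n) F (Φ.symm z) : E n →L[ℝ] E n) = L := hL.mfderiv
    rw [← h3]
    exact h0.2
  have h3 : HasMFDerivAt 𝓘(ℝ, B) 𝓘(ℝ, B) (fun z => Ψ (F (Φ.symm z))) z
      (A'.comp (L.comp A)) :=
    HasMFDerivAt.comp (f := fun z => F (Φ.symm z)) z hA' (HasMFDerivAt.comp z hL hA)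
  have h4 : fderiv ℝ (fun z => Ψ (F (Φ.symm z))) z = A'.comp (L.comp A) := by
    have h5 : HasFDerivAt (fun z => Ψ (F (Φ.symm z))) (A'.comp (L.comp A)) z :=
      hasMFDerivAt_iff_hasFDerivAt.1 h3
    exact h5.fderiv
  rw [h4]
  exact hAb'.1.comp (hLi.comp hAb.1)

/-- back from the coordinates -/
lemma of_box (hΦ : C1C n Φ) (hΨ : C1C n Ψ) {F : X → Y} {H : B → B} {x : X} (hx : x ∈ Φ.source)
    (hF : F =ᶠ[𝓝 x] fun y => Ψ.symm (H (Φ y))) (hHx : H (Φ x) ∈ Ψ.target)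
    (hH : ContDiffAt ℝ 1 H (Φ x)) :
    ContMDiffAt (𝓡 n) (𝓡 n) 1 F x ∧ ∃ (A : E n →L[ℝ] B) (A' : B →L[ℝ] E n), Bijective A ∧
      Bijective A' ∧
      HasMFDerivAt (𝓡 n) (𝓡 n) F x (A'.comp ((fderiv ℝ H (Φ x)).comp A)) := by
  have h1 : ContMDiffAt (𝓡 n) 𝓘(ℝ, B) 1 (fun y => H (Φ y)) x :=
    ContMDiffAt.comp x (contMDiffAt_iff_contDiffAt.2 hH) (hΦ.dir x hx)
  have h2 : ContMDiffAt (𝓡 n) (𝓡 n) 1 (fun y => Ψ.symm (H (Φ y))) x :=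
    ContMDiffAt.comp x (hΨ.inv _ hHx) h1
  refine ⟨h2.congr_of_eventuallyEq hF, ?_⟩
  obtain ⟨A, hA, hAb⟩ := hΦ.exists_dir hx
  obtain ⟨A', hA', hAb'⟩ := hΨ.exists_inv hHx
  have h3 : HasMFDerivAt 𝓘(ℝ, B) 𝓘(ℝ, B) H (Φ x) (fderiv ℝ H (Φ x)) :=
    (hH.differentiableAt (by simp)).hasFDerivAt.hasMFDerivAt
  have h4 : HasMFDerivAt (𝓡 n) (𝓡 n) (fun y => Ψ.symm (H (Φ y))) x
      (A'.comp ((fderiv ℝ H (Φ x)).comp A)) :=
    HasMFDerivAt.comp (f := fun y => H (Φ y)) x hA' (HasMFDerivAt.comp x h3 hA)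
  exact ⟨A, A', hAb, hAb', h4.congr_of_eventuallyEq hF⟩

/-- submersions in coordinates -/
lemma SubAt.to_box (hΨ : C1C n Ψ) {m : ℕ} {q : Y → E m} {w : B} (hw : w ∈ Ψ.target)
    (h : SubAt n m q (Ψ.symm w)) : ContDiffAt ℝ 1 (fun w => q (Ψ.symm w)) w := by
  have h1 : ContMDiffAt 𝓘(ℝ, B) (𝓡 m) 1 (fun w => q (Ψ.symm w)) w :=
    ContMDiffAt.comp w h.1 (hΨ.inv w hw)
  exact contMDiffAt_iff_contDiffAt.1 h1

/-- submersions, from coordinates -/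
lemma SubAt.of_box (hΦ : C1C n Φ) {m : ℕ} {p : X → E m} {P : B → E m} {x : X}
    (hx : x ∈ Φ.source) (hp : p =ᶠ[𝓝 x] fun y => P (Φ y)) (hP : ContDiffAt ℝ 1 P (Φ x))
    (hs : Surjective (fderiv ℝ P (Φ x))) : SubAt n m p x := by
  have h1 : ContMDiffAt (𝓡 n) (𝓡 m) 1 (fun y => P (Φ y)) x :=
    ContMDiffAt.comp x (contMDiffAt_iff_contDiffAt.2 hP) (hΦ.dir x hx)
  refine ⟨h1.congr_of_eventuallyEq hp, ?_⟩
  obtain ⟨A, hA, hAb⟩ := hΦ.exists_dir hx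
  have h3 : HasMFDerivAt 𝓘(ℝ, B) (𝓡 m) P (Φ x) (fderiv ℝ P (Φ x)) :=
    (hP.differentiableAt (by simp)).hasFDerivAt.hasMFDerivAt
  have h4 : HasMFDerivAt (𝓡 n) (𝓡 m) (fun y => P (Φ y)) x ((fderiv ℝ P (Φ x)).comp A) :=
    HasMFDerivAt.comp x h3 hA
  have h5 := (h4.congr_of_eventuallyEq hp).mfderiv
  have h6 : (mfderiv (𝓡 n) (𝓡 m) p x : E n →L[ℝ] E m) = (fderiv ℝ P (Φ x)).comp A := h5
  rw [h6]
  exact hs.comp hAb.2

/-- composition of submersions with maps of class `C^1` with invertible derivative -/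
lemma SubAt.comp_K0 {m : ℕ} {q : Y → E m} {F : X → Y} {x : X} (hq : SubAt n m q (F x))
    (hF : CP (n := n) K0 F x) : SubAt n m (fun y => q (F y)) x := by
  have h1 : ContMDiffAt (𝓡 n) (𝓡 m) 1 (fun y => q (F y)) x := ContMDiffAt.comp x hq.1 hF.1
  refine ⟨h1, ?_⟩
  obtain ⟨L, hL⟩ : ∃ L : E n →L[ℝ] E n, HasMFDerivAt (𝓡 n) (𝓡 n) F x L :=
    ⟨_, (hF.1.mdifferentiableAt (by simp)).hasMFDerivAt⟩
  have hLi : Injective L := by
    have h3 : (mfderiv (𝓡 n) (𝓡 n) F x : E n →L[ℝ] E n) = L := hL.mfderiv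
    rw [← h3]
    exact hF.2
  have hLs : Surjective L := (LinearMap.injective_iff_surjective (f := L.toLinearMap)).1 hLi
  obtain ⟨M, hM⟩ : ∃ M : E n →L[ℝ] E m, HasMFDerivAt (𝓡 n) (𝓡 m) q (F x) M :=
    ⟨_, (hq.1.mdifferentiableAt (by simp)).hasMFDerivAt⟩
  have hMs : Surjective M := by
    have h3 : (mfderiv (𝓡 n) (𝓡 m) q (F x) : E n →L[ℝ] E m) = M := hM.mfderiv
    rw [← h3]
    exact hq.2
  have h3 : HasMFDerivAt (𝓡 n) (𝓡 m) (fun y => q (F y)) x (M.comp L) :=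
    HasMFDerivAt.comp x hM hL
  have h4 : (mfderiv (𝓡 n) (𝓡 m) (fun y => q (F y)) x : E n →L[ℝ] E m) = M.comp L := h3.mfderiv
  rw [h4]
  exact hMs.comp hLs

end man

/-! ### surjective linear maps, jets -/

lemma isOpen_surj {B : Type*} [NormedAddCommGroup B] [NormedSpace ℝ B] (m : ℕ) :
    IsOpen {L : B →L[ℝ] E m | Surjective L} := by
  have h1 : {L : B →L[ℝ] E m | Surjective L} =
      {L : B →L[ℝ] E m | ((m : ℕ) : Cardinal) ≤ (L : B →ₗ[ℝ] E m).rank} := by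
    ext L
    have h2 : (L : B →ₗ[ℝ] E m).rank =
        ((Module.finrank ℝ (LinearMap.range (L : B →ₗ[ℝ] E m)) : ℕ) : Cardinal) := by
      unfold LinearMap.rank
      exact (Module.finrank_eq_rank ℝ _).symm
    simp only [mem_ofPred_eq]
    rw [h2, Nat.cast_le]
    have h3 : Module.finrank ℝ (E m) = m := by simp
    constructor
    · intro hs
      have h4 : LinearMap.range (L : B →ₗ[ℝ] E m) = ⊤ := LinearMap.range_eq_top.2 hs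
      rw [h4, finrank_top, h3]
    · intro hs
      have h4 : LinearMap.range (L : B →ₗ[ℝ] E m) = ⊤ := by
        refine Submodule.eq_top_of_finrank_eq ?_
        refine le_antisymm (Submodule.finrank_le _) ?_
        rw [h3]; exact hs
      exact LinearMap.range_eq_top.1 h4
  rw [h1]
  exact isOpen_setOfPred_nat_le_rank m

lemma compact_jets {B J : Type*} [TopologicalSpace B] [PseudoMetricSpace J] {K : Set B}
    (hK : IsCompact K) {j : B → J} (hj : ContinuousOn j K) {P : J → Prop}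
    (hP : ∀ z ∈ K, ∀ᶠ p in 𝓝 (j z), P p) :
    ∃ ε : ℝ, 0 < ε ∧ ∀ z ∈ K, ∀ p, dist p (j z) ≤ ε → P p := by
  have h1 : IsCompact (j '' K) := hK.image_of_continuousOn hj
  have h2 : j '' K ⊆ interior {p | P p} := by
    rintro _ ⟨z, hz, rfl⟩
    exact mem_interior_iff_mem_nhds.2 (hP z hz)
  obtain ⟨ε, hε, hsub⟩ := h1.exists_cthickening_subset_open isOpen_interior h2
  exact ⟨ε, hε, fun z hz p hp => interior_subset
    (hsub (mem_cthickening_of_dist_le p (j z) ε _ ⟨z, hz, rfl⟩ hp))⟩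

end Run7.h7
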