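import Mathlib
import Pool.Agent.Run7.h7.QPt
import Pool.Agent.Run7.h7.QBoxG
import Pool.Agent.Run7.h7.QGlue

/-!
One step: improvement of a homeomorphism in a coordinate box, along the fibres of a submersion.
-/

open Filter Set Metric Function
open scoped Topology ContDiff Manifold RealInnerProductSpace

namespace Run7.h7

open Pool.Agent.Y522 (LD)
open Pool.Agent.Y66.CM (LD_chart)

variable {m : ℕ}

/-- a box in coordinates of class `C^1` -/
structure Patch (m : ℕ) (X Y : Type) [TopologicalSpace X] [ChartedSpace (E (m + 1)) X]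
    [TopologicalSpace Y] [ChartedSpace (E (m + 1)) Y] where
  Φ : OpenPartialHomeomorph X (E m × ℝ)
  Ψ : OpenPartialHomeomorph Y (E m × ℝ)
  hΦ : C1C (m + 1) Φ
  hΨ : C1C (m + 1) Ψ
  a₀ : E m
  t₀ : ℝ
  r : ℝ
  η : ℝ
  hr : 0 < r
  hη : 0 < η
  sub : cbox a₀ t₀ r η ⊆ Φ.target

section patch

variable {X Y : Type} [TopologicalSpace X] [ChartedSpace (E (m + 1)) X]
  [TopologicalSpace Y] [ChartedSpace (E (m + 1)) Y]

/-- in the box the homeomorphism preserves the first coordinate -/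
def Patch.Fits (P : Patch m X Y) (F : X → Y) : Prop :=
  ∀ z ∈ cbox P.a₀ P.t₀ P.r P.η, F (P.Φ.symm z) ∈ P.Ψ.source ∧ (P.Ψ (F (P.Φ.symm z))).1 = z.1

/-- the support of the modification -/
def Patch.supp (P : Patch m X Y) : Set X := P.Φ.symm '' cbox P.a₀ P.t₀ (P.r / 2) (P.η / 2)

/-- the set on which the homeomorphism is improved -/
def Patch.core (P : Patch m X Y) : Set X := P.Φ.symm '' obox P.a₀ P.t₀ (P.r / 4) (P.η / 4)

lemma Patch.half (P : Patch m X Y) : cbox P.a₀ P.t₀ (P.r / 2) (P.η / 2) ⊆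
    obox P.a₀ P.t₀ P.r P.η :=
  cbox_subset_obox (by linarith [P.hr]) (by linarith [P.hη])

lemma Patch.isCompact_supp (P : Patch m X Y) : IsCompact P.supp :=
  (isCompact_cbox _ _ _ _).image_of_continuousOn (P.Φ.continuousOn_symm.mono
    ((P.half.trans obox_subset_cbox).trans P.sub))

lemma Patch.isOpen_core (P : Patch m X Y) : IsOpen P.core := by
  refine P.Φ.isOpen_image_symm_of_subset_target (isOpen_obox _ _ _ _) ?_
  exact (obox_subset_cbox.trans (cbox_mono (by linarith [P.hr]) (by linarith [P.hη]))).trans P.sub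

lemma exists_pos_le_all {ι : Type*} [Finite ι] {f : ι → ℝ} (hf : ∀ i, 0 < f i) :
    ∃ ε : ℝ, 0 < ε ∧ ∀ i, ε ≤ f i := by
  cases isEmpty_or_nonempty ι with
  | inl h => exact ⟨1, one_pos, fun i => h.elim i⟩
  | inr h =>
    obtain ⟨i, hi⟩ := Finite.exists_min f
    exact ⟨f i, hf i, hi⟩

lemma norm_prod_sub_le {B : Type*} [NormedAddCommGroup B] [NormedSpace ℝ B]
    (P : B →L[ℝ] E m) (L M : B →L[ℝ] ℝ) : ‖P.prod L - P.prod M‖ ≤ ‖L - M‖ := by
  refine ContinuousLinearMap.opNorm_le_bound _ (norm_nonneg _) fun z => ?_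
  have h1 : (P.prod L - P.prod M) z = (0, (L - M) z) := by
    simp
  rw [h1, Prod.norm_def]
  simp only [norm_zero]
  rw [max_eq_right (norm_nonneg _)]
  exact (L - M).le_opNorm z

/-- **One step.** -/
theorem Patch.step [T2Space X] (P : Patch m X Y) (F : X ≃ₜ Y) (hF : P.Fits F)
    {O : Set (X × Y)} (hO : IsOpen O) (hFO : ∀ x, (x, F x) ∈ O) {ι : Type*} [Finite ι]
    (q : ι → Y → E m) (Kc : ι → Set X) (hKc : ∀ i, IsCompact (Kc i))
    (hKF : ∀ i, ∀ x ∈ Kc i, ContMDiffAt (𝓡 (m + 1)) (𝓡 (m + 1)) 1 F x ∧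
      SubAt (m + 1) m (q i) (F x) ∧ SubAt (m + 1) m (fun y => q i (F y)) x) :
    ∃ F' : X ≃ₜ Y, P.Fits F' ∧ (∀ x, x ∉ P.supp → F' x = F x) ∧ (∀ x, (x, F' x) ∈ O) ∧
      (∀ x ∈ P.supp, F x ∈ P.Ψ.source ∧ F' x ∈ P.Ψ.source ∧ (P.Ψ (F' x)).1 = (P.Ψ (F x)).1) ∧
      (∀ x, ContMDiffAt (𝓡 (m + 1)) (𝓡 (m + 1)) 1 F x →
        ContMDiffAt (𝓡 (m + 1)) (𝓡 (m + 1)) 1 F' x) ∧
      (∀ x, CP (n := m + 1) K0 F x → CP (n := m + 1) K0 F' x) ∧
      (∀ x ∈ P.core, CP (n := m + 1) K0 F' x) ∧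
      ∀ i, ∀ x ∈ Kc i, SubAt (m + 1) m (q i) (F' x) ∧
        SubAt (m + 1) m (fun y => q i (F' y)) x := by
  classical
  obtain ⟨Φ, Ψ, hΦ, hΨ, a₀, t₀, r, η, hr, hη, hsub⟩ := P
  set Q := cbox a₀ t₀ r η with hQ
  set Q' := cbox a₀ t₀ (r / 2) (η / 2) with hQ'
  have hQ'o : Q' ⊆ obox a₀ t₀ r η := cbox_subset_obox (by linarith) (by linarith)
  have hoQ : obox a₀ t₀ r η ⊆ Q := obox_subset_cbox
  have hQ'Q : Q' ⊆ Q := hQ'o.trans hoQ
  have hQ'c : IsCompact Q' := isCompact_cbox _ _ _ _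
  have hF1 : ∀ z ∈ Q, F (Φ.symm z) ∈ Ψ.source := fun z hz => (hF z hz).1
  have hF2 : ∀ z ∈ Q, (Ψ (F (Φ.symm z))).1 = z.1 := fun z hz => (hF z hz).2
  set H : E m × ℝ → E m × ℝ := fun z => Ψ (F (Φ.symm z)) with hH
  set h : E m × ℝ → ℝ := fun z => (H z).2 with hh
  have hHh : ∀ z ∈ Q, H z = (z.1, h z) := fun z hz => Prod.ext (hF2 z hz) rfl
  have hHc : ContinuousOn H Q :=
    Ψ.continuousOn.comp (F.continuous.comp_continuousOn (Φ.continuousOn_symm.mono hsub)) hF1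
  have hhc : ContinuousOn h Q := continuous_snd.comp_continuousOn hHc
  have hHi : InjOn H Q := by
    intro z hz w hw hzw
    exact Φ.symm.injOn (hsub hz) (hsub hw) (F.injective (Ψ.injOn (hF1 z hz) (hF1 w hw) hzw))
  have hhi : ∀ a ∈ closedBall a₀ r, InjOn (fun t => h (a, t)) (Icc (t₀ - η) (t₀ + η)) := by
    intro a ha s hs t ht hst
    have hs' : (a, s) ∈ Q := ⟨ha, hs⟩
    have ht' : (a, t) ∈ Q := ⟨ha, ht⟩
    have h1 : H (a, s) = H (a, t) := by
      rw [hHh (a, s) hs', hHh (a, t) ht']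
      exact Prod.ext rfl hst
    have h2 : (a, s) = (a, t) := hHi hs' ht' h1
    exact (Prod.mk.inj h2).2
  -- the derivative of `H`
  have hHnear : ∀ z ∈ obox a₀ t₀ r η, H =ᶠ[𝓝 z] fun z => (z.1, h z) := by
    intro z hz
    filter_upwards [(isOpen_obox a₀ t₀ r η).mem_nhds hz] with y hy
    exact hHh y (hoQ hy)
  have hHd : ∀ z ∈ obox a₀ t₀ r η, ContDiffAt ℝ 1 h z →
      fderiv ℝ H z = (ContinuousLinearMap.fst ℝ (E m) ℝ).prod (fderiv ℝ h z) := by
    intro z hz h1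
    rw [(hHnear z hz).fderiv_eq]
    exact (hasFDerivAt_fst.prodMk (h1.differentiableAt (by simp)).hasFDerivAt).fderiv
  have hc1 : ∀ z ∈ Q', ContMDiffAt (𝓡 (m + 1)) (𝓡 (m + 1)) 1 F (Φ.symm z) →
      ContDiffAt ℝ 1 h z := by
    intro z hz h1
    have h2 := to_box hΦ hΨ (hsub (hQ'Q hz)) (hF1 z (hQ'Q hz)) h1
    have h3 : ContDiffAt ℝ 1 H z := h2.1
    exact h3.snd
  -- the compact sets in the coordinates
  set K : ι → Set (E m × ℝ) := fun i => Q' ∩ Φ.symm ⁻¹' (Kc i) with hK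
  have hKcpt : ∀ i, IsCompact (K i) := by
    intro i
    refine hQ'c.of_isClosed_subset ?_ inter_subset_left
    exact (Φ.continuousOn_symm.mono (hQ'Q.trans hsub)).preimage_isClosed_of_isClosed
      hQ'c.isClosed (hKc i).isClosed
  have hKd : ∀ i, ∀ z ∈ K i, ContDiffAt ℝ 1 h z := fun i z hz => hc1 z hz.1 (hKF i _ hz.2).1
  -- smallness for the graph
  obtain ⟨ε₀, hε₀, hgr⟩ := compact_jets hQ'c (j := fun z => (z, H z))
    (continuousOn_id.prodMk (hHc.mono hQ'Q))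
    (P := fun p => (Φ.symm p.1, Ψ.symm p.2) ∈ O) (by
      intro z hz
      have hzQ := hQ'Q hz
      have h1 : ContinuousAt (fun p : (E m × ℝ) × (E m × ℝ) => (Φ.symm p.1, Ψ.symm p.2))
          (z, H z) := by
        refine ContinuousAt.prodMk ?_ ?_
        · exact (Φ.symm.continuousAt (hsub hzQ)).comp_of_eq continuousAt_fst rfl
        · exact (Ψ.symm.continuousAt (Ψ.map_source (hF1 z hzQ))).comp_of_eq continuousAt_snd rfl
      refine h1.eventually (hO.mem_nhds ?_)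
      show (Φ.symm z, Ψ.symm (H z)) ∈ O
      have h2 : Ψ.symm (H z) = F (Φ.symm z) := Ψ.left_inv (hF1 z hzQ)
      rw [h2]
      exact hFO _)
  -- smallness for the submersions
  have hjets : ∀ i, ∃ ε : ℝ, 0 < ε ∧ ∀ z ∈ K i, ∀ p : (E m × ℝ) × (E m × ℝ →L[ℝ] E m × ℝ),
      dist p (H z, (ContinuousLinearMap.fst ℝ (E m) ℝ).prod (fderiv ℝ h z)) ≤ ε →
      (ContDiffAt ℝ 1 (fun w => q i (Ψ.symm w)) p.1 ∧ p.1 ∈ Ψ.target ∧
        Surjective ((fderiv ℝ (fun w => q i (Ψ.symm w)) p.1).comp p.2)) := by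
    intro i
    refine compact_jets (hKcpt i) ?_ ?_
    · refine (hHc.mono fun z hz => hQ'Q hz.1).prodMk ?_
      intro z hz
      have h1 : ContinuousAt (fderiv ℝ h) z := (hKd i z hz).continuousAt_fderiv (by simp)
      have h4 : Continuous (fun L : E m × ℝ →L[ℝ] ℝ =>
          (ContinuousLinearMap.fst ℝ (E m) ℝ).prod L) := by
        have h5 : ∀ L : E m × ℝ →L[ℝ] ℝ, (ContinuousLinearMap.fst ℝ (E m) ℝ).prod L =
            ContinuousLinearMap.prodₗᵢ ℝ (ContinuousLinearMap.fst ℝ (E m) ℝ, L) := fun L => rfl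
        simp only [h5]
        exact (LinearIsometryEquiv.continuous _).comp (continuous_const.prodMk continuous_id)
      exact (h4.continuousAt.comp h1).continuousWithinAt
    · intro z hz
      have hzQ := hQ'Q hz.1
      have hzt : H z ∈ Ψ.target := Ψ.map_source (hF1 z hzQ)
      have hzs : Ψ.symm (H z) = F (Φ.symm z) := Ψ.left_inv (hF1 z hzQ)
      obtain ⟨k1, k2, k3⟩ := hKF i _ hz.2
      have hQi : ContDiffAt ℝ 1 (fun w => q i (Ψ.symm w)) (H z) :=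
        SubAt.to_box hΨ hzt (by rw [hzs]; exact k2)
      have e1 : ∀ᶠ p : (E m × ℝ) × (E m × ℝ →L[ℝ] E m × ℝ) in
          𝓝 (H z, (ContinuousLinearMap.fst ℝ (E m) ℝ).prod (fderiv ℝ h z)),
          ContDiffAt ℝ 1 (fun w => q i (Ψ.symm w)) p.1 :=
        continuousAt_fst.eventually (hQi.eventually (by simp))
      have e2 : ∀ᶠ p : (E m × ℝ) × (E m × ℝ →L[ℝ] E m × ℝ) in
          𝓝 (H z, (ContinuousLinearMap.fst ℝ (E m) ℝ).prod (fderiv ℝ h z)), p.1 ∈ Ψ.target :=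
        continuousAt_fst.eventually (Ψ.open_target.mem_nhds hzt)
      have hcont : ContinuousAt (fun p : (E m × ℝ) × (E m × ℝ →L[ℝ] E m × ℝ) =>
          (fderiv ℝ (fun w => q i (Ψ.symm w)) p.1).comp p.2)
          (H z, (ContinuousLinearMap.fst ℝ (E m) ℝ).prod (fderiv ℝ h z)) := by
        have c1 : ContinuousAt (fun p : (E m × ℝ) × (E m × ℝ →L[ℝ] E m × ℝ) =>
            fderiv ℝ (fun w => q i (Ψ.symm w)) p.1)
            (H z, (ContinuousLinearMap.fst ℝ (E m) ℝ).prod (fderiv ℝ h z)) :=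
          (hQi.continuousAt_fderiv (by simp)).comp_of_eq continuousAt_fst rfl
        have hcc : Continuous fun p : (E m × ℝ →L[ℝ] E m) × (E m × ℝ →L[ℝ] E m × ℝ) =>
            p.1.comp p.2 := by fun_prop
        exact hcc.continuousAt.comp (c1.prodMk continuousAt_snd)
      have e3 : ∀ᶠ p : (E m × ℝ) × (E m × ℝ →L[ℝ] E m × ℝ) in
          𝓝 (H z, (ContinuousLinearMap.fst ℝ (E m) ℝ).prod (fderiv ℝ h z)),
          Surjective ((fderiv ℝ (fun w => q i (Ψ.symm w)) p.1).comp p.2) := by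
        refine hcont.eventually ((isOpen_surj m).mem_nhds ?_)
        show Surjective ((fderiv ℝ (fun w => q i (Ψ.symm w)) (H z)).comp
          ((ContinuousLinearMap.fst ℝ (E m) ℝ).prod (fderiv ℝ h z)))
        rw [← hHd z (hQ'o hz.1) (hKd i z hz)]
        -- the derivative of the composition
        have hHz0 := to_box hΦ hΨ (hsub hzQ) (hF1 z hzQ) k1
        have hHz1 : ContDiffAt ℝ 1 H z := hHz0.1
        have d1 : HasFDerivAt (fun z => q i (Ψ.symm (H z)))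
            ((fderiv ℝ (fun w => q i (Ψ.symm w)) (H z)).comp (fderiv ℝ H z)) z :=
          HasFDerivAt.comp z (hQi.differentiableAt (by simp)).hasFDerivAt
            (hHz1.differentiableAt (by simp)).hasFDerivAt
        have d2 : (fun z => q i (Ψ.symm (H z))) =ᶠ[𝓝 z] fun z => q i (F (Φ.symm z)) := by
          filter_upwards [(isOpen_obox a₀ t₀ r η).mem_nhds (hQ'o hz.1)] with y hy
          have : Ψ.symm (H y) = F (Φ.symm y) := Ψ.left_inv (hF1 y (hoQ hy))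
          rw [this]
        obtain ⟨A, hA, hAb⟩ := hΦ.exists_inv (hsub hzQ)
        obtain ⟨M, hM⟩ : ∃ M : E (m + 1) →L[ℝ] E m,
            HasMFDerivAt (𝓡 (m + 1)) (𝓡 m) (fun y => q i (F y)) (Φ.symm z) M :=
          ⟨_, (k3.1.mdifferentiableAt (by simp)).hasMFDerivAt⟩
        have hMs : Surjective M := by
          have h3 : (mfderiv (𝓡 (m + 1)) (𝓡 m) (fun y => q i (F y)) (Φ.symm z) :
            E (m + 1) →L[ℝ] E m) = M := hM.mfderiv
          rw [← h3]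
          exact k3.2
        have d3 : HasMFDerivAt 𝓘(ℝ, E m × ℝ) (𝓡 m) (fun z => q i (F (Φ.symm z))) z (M.comp A) :=
          HasMFDerivAt.comp (g := fun y => q i (F y)) (f := fun z => Φ.symm z) z hM hA
        have d4 : HasFDerivAt (fun z => q i (F (Φ.symm z))) (M.comp A) z :=
          hasMFDerivAt_iff_hasFDerivAt.1 d3
        have d5 := d1.unique (d4.congr_of_eventuallyEq d2)
        rw [d5]
        exact hMs.comp hAb.2
      filter_upwards [e1, e2, e3] with p h1 h2 h3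
      exact ⟨h1, h2, h3⟩
  choose εi hεi hjet using hjets
  obtain ⟨ε₁, hε₁, hε₁i⟩ := exists_pos_le_all hεi
  obtain ⟨ε, hε, hεε₀, hεε₁⟩ : ∃ ε : ℝ, 0 < ε ∧ ε ≤ ε₀ ∧ ε ≤ ε₁ :=
    ⟨min ε₀ ε₁, lt_min hε₀ hε₁, min_le_left _ _, min_le_right _ _⟩
  obtain ⟨h', hh'⟩ := box_gen hr hη hhc (same_sense hr hη hhc hhi) (isCompact_iUnion hKcpt)
    (iUnion_subset fun i => inter_subset_left)
    (fun z hz => by
      obtain ⟨i, hi⟩ := mem_iUnion.1 hz
      exact hKd i z hi) hε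
  set H' : E m × ℝ → E m × ℝ := fun z => (z.1, h' z) with hH'
  have hH'c : ContinuousOn H' Q := continuous_fst.continuousOn.prodMk hh'.cont
  have hH'i : InjOn H' Q := by
    rintro ⟨a, s⟩ ⟨ha, hs⟩ ⟨b, t⟩ ⟨hb, ht⟩ heq
    obtain ⟨h1, h2⟩ := Prod.mk.inj heq
    simp only at h1
    subst h1
    have h3 := hh'.inj a ha hs ht h2
    exact Prod.ext rfl h3
  have himg : H' '' Q = H '' Q := by
    ext w
    constructor
    · rintro ⟨⟨a, t⟩, ⟨ha, ht⟩, rfl⟩
      have h1 : h' (a, t) ∈ (fun t => h (a, t)) '' Icc (t₀ - η) (t₀ + η) := by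
        rw [← hh'.img a ha]; exact ⟨t, ht, rfl⟩
      obtain ⟨s, hs, hst⟩ := h1
      refine ⟨(a, s), ⟨ha, hs⟩, ?_⟩
      rw [hHh (a, s) ⟨ha, hs⟩]
      exact Prod.ext rfl hst
    · rintro ⟨⟨a, t⟩, ⟨ha, ht⟩, rfl⟩
      have h1 : h (a, t) ∈ (fun t => h' (a, t)) '' Icc (t₀ - η) (t₀ + η) := by
        rw [hh'.img a ha]; exact ⟨t, ht, rfl⟩
      obtain ⟨s, hs, hst⟩ := h1
      refine ⟨(a, s), ⟨ha, hs⟩, ?_⟩
      rw [hHh (a, t) ⟨ha, ht⟩]
      exact Prod.ext rfl hst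
  obtain ⟨F', hF'o, hF'i⟩ := glue_homeo F Φ Ψ (isOpen_obox a₀ t₀ r η) hQ'o hoQ hQ'c hsub hF1
    hH'c hH'i himg (fun z hz hz' => by
      rw [show Ψ (F (Φ.symm z)) = H z from rfl, hHh z hz]
      exact Prod.ext rfl (hh'.out z hz'))
  have hH't : ∀ z ∈ Q, H' z ∈ Ψ.target := by
    intro z hz
    obtain ⟨w, hw, hwz⟩ : H' z ∈ H '' Q := by rw [← himg]; exact ⟨z, hz, rfl⟩
    rw [← hwz]
    exact Ψ.map_source (hF1 w hw)
  have hF's : ∀ z ∈ Q, F' (Φ.symm z) ∈ Ψ.source ∧ Ψ (F' (Φ.symm z)) = H' z := by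
    intro z hz
    rw [hF'i z hz]
    exact ⟨Ψ.map_target (hH't z hz), Ψ.right_inv (hH't z hz)⟩
  have hsuppc : IsCompact (Φ.symm '' Q') :=
    hQ'c.image_of_continuousOn (Φ.continuousOn_symm.mono (hQ'Q.trans hsub))
  have hfar : ∀ x, x ∉ Φ.symm '' Q' → (F' : X → Y) =ᶠ[𝓝 x] F := by
    intro x hx
    filter_upwards [hsuppc.isClosed.isOpen_compl.mem_nhds hx] with y hy
    exact hF'o y hy
  have hnear : ∀ z ∈ obox a₀ t₀ r η,
      (F' : X → Y) =ᶠ[𝓝 (Φ.symm z)] fun y => Ψ.symm (H' (Φ y)) := by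
    intro z hz
    have h1 : IsOpen (Φ.symm '' obox a₀ t₀ r η) :=
      Φ.isOpen_image_symm_of_subset_target (isOpen_obox _ _ _ _) (hoQ.trans hsub)
    filter_upwards [h1.mem_nhds ⟨z, hz, rfl⟩] with y hy
    obtain ⟨w, hw, rfl⟩ := hy
    rw [Φ.right_inv (hsub (hoQ hw))]
    exact hF'i w (hoQ hw)
  -- class `C^1` from the coordinates
  have hH'1 : ∀ z, ContDiffAt ℝ 1 h' z → ContDiffAt ℝ 1 H' z := fun z h1 =>
    contDiff_fst.contDiffAt.prodMk h1
  have hH'd : ∀ z, ContDiffAt ℝ 1 h' z →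
      fderiv ℝ H' z = (ContinuousLinearMap.fst ℝ (E m) ℝ).prod (fderiv ℝ h' z) := fun z h1 =>
    (hasFDerivAt_fst.prodMk (h1.differentiableAt (by simp)).hasFDerivAt).fderiv
  have hC1 : ∀ z ∈ obox a₀ t₀ r η, ContDiffAt ℝ 1 h' z →
      ContMDiffAt (𝓡 (m + 1)) (𝓡 (m + 1)) 1 F' (Φ.symm z) := by
    intro z hz h1
    have hzt := hsub (hoQ hz)
    refine (of_box (H := H') hΦ hΨ (Φ.map_target hzt) (hnear z hz) ?_ ?_).1
    · rw [Φ.right_inv hzt]; exact hH't z (hoQ hz)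
    · rw [Φ.right_inv hzt]; exact hH'1 z h1
  have hK0 : ∀ z ∈ obox a₀ t₀ r η, ContDiffAt ℝ 1 h' z → fderiv ℝ h' z (0, 1) ≠ 0 →
      CP (n := m + 1) K0 F' (Φ.symm z) := by
    intro z hz h1 h2
    have hzt := hsub (hoQ hz)
    obtain ⟨g1, A, A', hA, hA', g2⟩ := of_box (H := H') (F := F') hΦ hΨ (Φ.map_target hzt)
      (hnear z hz) (by rw [Φ.right_inv hzt]; exact hH't z (hoQ hz))
      (by rw [Φ.right_inv hzt]; exact hH'1 z h1)
    refine ⟨g1, ?_⟩
    have g3 : (mfderiv (𝓡 (m + 1)) (𝓡 (m + 1)) F' (Φ.symm z) : E (m + 1) →L[ℝ] E (m + 1)) =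
      A'.comp ((fderiv ℝ H' (Φ (Φ.symm z))).comp A) := g2.mfderiv
    rw [g3]
    have g4 : Injective (fderiv ℝ H' (Φ (Φ.symm z))) := by
      rw [Φ.right_inv hzt, hH'd z h1]
      refine (injective_iff_map_eq_zero _).2 fun v hv => ?_
      rw [ContinuousLinearMap.prod_apply, Prod.mk_eq_zero] at hv
      obtain ⟨hv1, hv2⟩ := hv
      have hv3 : v.1 = 0 := hv1
      have hv4 : v = v.2 • ((0 : E m), (1 : ℝ)) := by
        ext1
        · simp [hv3]
        · simp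
      rw [hv4, map_smul, smul_eq_mul] at hv2
      rcases mul_eq_zero.1 hv2 with h5 | h5
      · rw [hv4, h5, zero_smul]
      · exact absurd h5 h2
    exact hA'.1.comp (g4.comp hA.1)
  refine ⟨F', fun z hz => ⟨(hF's z hz).1, by rw [(hF's z hz).2]⟩, hF'o, ?_, ?_, ?_, ?_, ?_, ?_⟩
  · intro x
    by_cases hx : x ∈ Φ.symm '' Q'
    · obtain ⟨z, hz, rfl⟩ := hx
      rw [hF'i z (hQ'Q hz)]
      refine hgr z hz (z, H' z) ?_
      rw [Prod.dist_eq, dist_self, hHh z (hQ'Q hz)]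
      rw [max_le_iff]
      refine ⟨hε₀.le, ?_⟩
      rw [Prod.dist_eq, dist_self, max_le_iff]
      refine ⟨hε₀.le, ?_⟩
      rw [Real.dist_eq]
      exact (hh'.close z).trans hεε₀
    · rw [hF'o x hx]; exact hFO x
  · rintro x ⟨z, hz, rfl⟩
    have hzQ := hQ'Q hz
    refine ⟨hF1 z hzQ, (hF's z hzQ).1, ?_⟩
    show (Ψ (F' (Φ.symm z))).1 = (Ψ (F (Φ.symm z))).1
    rw [(hF's z hzQ).2, hF2 z hzQ]
  · intro x h1
    by_cases hx : x ∈ Φ.symm '' Q'
    · obtain ⟨z, hz, rfl⟩ := hx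
      exact hC1 z (hQ'o hz) (hh'.c1 z (hQ'o hz) (hc1 z hz h1))
    · exact h1.congr_of_eventuallyEq (hfar x hx)
  · intro x h1
    by_cases hx : x ∈ Φ.symm '' Q'
    · obtain ⟨z, hz, rfl⟩ := hx
      have hzQ := hQ'Q hz
      have h2 := hc1 z hz h1.1
      have h3' := to_box hΦ hΨ (hsub hzQ) (hF1 z hzQ) h1.1
      have h3 : Injective (fderiv ℝ H z) := h3'.2 h1
      have h4 : fderiv ℝ h z (0, 1) ≠ 0 := by
        intro h0
        have h5 : fderiv ℝ H z (0, 1) = 0 := by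
          rw [hHd z (hQ'o hz) h2, ContinuousLinearMap.prod_apply, h0]
          rfl
        have h6 : ((0 : E m), (1 : ℝ)) = 0 := h3 (by rw [map_zero]; exact h5)
        exact one_ne_zero (congrArg Prod.snd h6)
      exact hK0 z (hQ'o hz) (hh'.c1 z (hQ'o hz) h2) (hh'.k0 z (hQ'o hz) h2 h4)
    · exact h1.congr (hfar x hx)
  · rintro x ⟨z, hz, rfl⟩
    have hz' : z ∈ obox a₀ t₀ r η :=
      hQ'o (obox_subset_cbox.trans (cbox_mono (by linarith) (by linarith)) hz)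
    exact hK0 z hz' (hh'.inner z hz).1 (hh'.inner z hz).2
  · intro i x hxK
    by_cases hx : x ∈ Φ.symm '' Q'
    · obtain ⟨z, hz, rfl⟩ := hx
      have hzQ := hQ'Q hz
      have hzK : z ∈ K i := ⟨hz, hxK⟩
      have h1 : ContDiffAt ℝ 1 h' z := hh'.c1 z (hQ'o hz) (hKd i z hzK)
      have hd : ‖fderiv ℝ h' z - fderiv ℝ h z‖ ≤ ε := hh'.der z (mem_iUnion.2 ⟨i, hzK⟩)
      obtain ⟨j1, j2, j3⟩ := hjet i z hzK
        (H' z, (ContinuousLinearMap.fst ℝ (E m) ℝ).prod (fderiv ℝ h' z)) (by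
          rw [Prod.dist_eq, max_le_iff]
          constructor
          · rw [hHh z hzQ, Prod.dist_eq, dist_self, max_le_iff]
            refine ⟨(hεi i).le, ?_⟩
            rw [Real.dist_eq]
            exact ((hh'.close z).trans hεε₁).trans (hε₁i i)
          · rw [dist_eq_norm]
            exact ((norm_prod_sub_le _ _ _).trans hd).trans (hεε₁.trans (hε₁i i)))
      simp only at j1 j2 j3
      have hF'z : F' (Φ.symm z) ∈ Ψ.source := (hF's z hzQ).1
      have hΨF' : Ψ (F' (Φ.symm z)) = H' z := (hF's z hzQ).2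
      have hsF : Surjective (fderiv ℝ (fun w => q i (Ψ.symm w)) (H' z)) := fun y => by
        obtain ⟨v, hv⟩ := j3 y
        exact ⟨_, hv⟩
      constructor
      · refine SubAt.of_box hΨ (P := fun w => q i (Ψ.symm w)) hF'z ?_ ?_ ?_
        · filter_upwards [Ψ.open_source.mem_nhds hF'z] with y hy
          rw [Ψ.left_inv hy]
        · rw [hΨF']; exact j1
        · rw [hΨF']; exact hsF
      · have hzt := hsub hzQ
        have hP1 : ContDiffAt ℝ 1 (fun z => q i (Ψ.symm (H' z))) z :=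
          ContDiffAt.comp (g := fun w => q i (Ψ.symm w)) z j1 (hH'1 z h1)
        refine SubAt.of_box hΦ (P := fun z => q i (Ψ.symm (H' z))) (Φ.map_target hzt) ?_ ?_ ?_
        · filter_upwards [hnear z (hQ'o hz)] with y hy
          rw [hy]
        · rw [Φ.right_inv hzt]; exact hP1
        · rw [Φ.right_inv hzt]
          have d1 : HasFDerivAt (fun z => q i (Ψ.symm (H' z)))
              ((fderiv ℝ (fun w => q i (Ψ.symm w)) (H' z)).comp (fderiv ℝ H' z)) z :=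
            HasFDerivAt.comp z (j1.differentiableAt (by simp)).hasFDerivAt
              ((hH'1 z h1).differentiableAt (by simp)).hasFDerivAt
          rw [d1.fderiv, hH'd z h1]
          exact j3
    · obtain ⟨k1, k2, k3⟩ := hKF i x hxK
      rw [hF'o x hx]
      refine ⟨k2, ?_⟩
      have hev : (fun y => q i (F' y)) =ᶠ[𝓝 x] fun y => q i (F y) := by
        filter_upwards [hfar x hx] with y hy
        rw [hy]
      refine ⟨k3.1.congr_of_eventuallyEq hev, ?_⟩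
      have h3 : (mfderiv (𝓡 (m + 1)) (𝓡 m) (fun y => q i (F' y)) x : E (m + 1) →L[ℝ] E m) =
        mfderiv (𝓡 (m + 1)) (𝓡 m) (fun y => q i (F y)) x := by
        rw [hev.mfderiv_eq]
      rw [h3]
      exact k3.2

end patch

end Run7.h7
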