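import Mathlib
import Pool.Agent.Run7.h7.QStep

/-!
Submersions with the same fibres; boxes adapted to a submersion.
-/

open Filter Set Metric Function
open scoped Topology ContDiff Manifold RealInnerProductSpace

namespace Run7.h7

open Pool.Agent.Y522 (LD)
open Pool.Agent.Y66.CM (LD_chart)

/-! ### same fibres -/

/-- near `y`, the map `q'` is constant on the fibres of `q` -/
def SameFib {Y α β : Type*} [TopologicalSpace Y] (q : Y → α) (q' : Y → β) (y : Y) : Prop :=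
  ∃ N ∈ 𝓝 y, ∀ y₁ ∈ N, ∀ y₂ ∈ N, q y₁ = q y₂ → q' y₁ = q' y₂

lemma SameFib.refl {Y α : Type*} [TopologicalSpace Y] (q : Y → α) (y : Y) : SameFib q q y :=
  ⟨univ, univ_mem, fun _ _ _ _ h => h⟩

lemma isOpen_sameFib {Y α β : Type*} [TopologicalSpace Y] (q : Y → α) (q' : Y → β) :
    IsOpen {y | SameFib q q' y} := by
  rw [isOpen_iff_mem_nhds]
  rintro y ⟨N, hN, h⟩
  obtain ⟨N', hN'N, hN'o, hy⟩ := _root_.mem_nhds_iff.1 hN
  filter_upwards [hN'o.mem_nhds hy] with z hz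
  exact ⟨N', hN'o.mem_nhds hz, fun y₁ h₁ y₂ h₂ => h y₁ (hN'N h₁) y₂ (hN'N h₂)⟩

/-- a uniform version, near the graph of a map over a compact set -/
lemma unif_fib {X Y α β : Type*} [TopologicalSpace X] [T2Space X] [LocallyCompactSpace X]
    [TopologicalSpace Y] {f : X → Y} (hf : Continuous f) {q : Y → α} {q' : Y → β} {K : Set X}
    (hK : IsCompact K) (h : ∀ x ∈ K, SameFib q q' (f x)) :
    ∃ O : Set (X × Y), IsOpen O ∧ (∀ x, (x, f x) ∈ O) ∧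
      ∀ x ∈ K, ∀ y₁ y₂, (x, y₁) ∈ O → (x, y₂) ∈ O → q y₁ = q y₂ → q' y₁ = q' y₂ := by
  classical
  have h1 : ∀ x ∈ K, ∃ (N : Set Y) (D : Set X), IsOpen N ∧ IsCompact D ∧ x ∈ interior D ∧
      (∀ z ∈ D, f z ∈ N) ∧ ∀ y₁ ∈ N, ∀ y₂ ∈ N, q y₁ = q y₂ → q' y₁ = q' y₂ := by
    intro x hx
    obtain ⟨N, hN, hq⟩ := h x hx
    obtain ⟨N', hN'N, hN'o, hy⟩ := _root_.mem_nhds_iff.1 hN
    obtain ⟨D, hD, hxD, hDN⟩ := exists_compact_subset (hN'o.preimage hf) hy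
    exact ⟨N', D, hN'o, hD, hxD, fun z hz => hDN hz,
      fun y₁ h₁ y₂ h₂ => hq y₁ (hN'N h₁) y₂ (hN'N h₂)⟩
  choose! N D hNo hDc hxD hDN hND using h1
  obtain ⟨t, htK, ht⟩ := hK.elim_nhds_subcover (fun x => interior (D x))
    (fun x hx => isOpen_interior.mem_nhds (hxD x hx))
  refine ⟨⋂ x ∈ t, {p : X × Y | p.1 ∉ D x ∨ p.2 ∈ N x}, ?_, ?_, ?_⟩
  · refine isOpen_biInter_finset fun x hx => ?_
    have e1 : IsOpen {p : X × Y | p.1 ∉ D x} :=
      (hDc x (htK x hx)).isClosed.isOpen_compl.preimage continuous_fst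
    have e2 : IsOpen {p : X × Y | p.2 ∈ N x} := (hNo x (htK x hx)).preimage continuous_snd
    exact e1.union e2
  · intro x
    refine mem_iInter₂.2 fun z hz => ?_
    by_cases hxz : x ∈ D z
    · exact Or.inr (hDN z (htK z hz) x hxz)
    · exact Or.inl hxz
  · intro x hx y₁ y₂ h₁ h₂ hqq
    obtain ⟨z, hz, hxz⟩ := mem_iUnion₂.1 (ht hx)
    have g₁ := mem_iInter₂.1 h₁ z hz
    have g₂ := mem_iInter₂.1 h₂ z hz
    rcases g₁ with g₁ | g₁
    · exact absurd (interior_subset hxz) g₁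
    · rcases g₂ with g₂ | g₂
      · exact absurd (interior_subset hxz) g₂
      · exact hND z (htK z hz) y₁ g₁ y₂ g₂ hqq

/-! ### submersions -/

section man

variable {n : ℕ} {X Y : Type} [TopologicalSpace X] [ChartedSpace (E n) X]
  [TopologicalSpace Y] [ChartedSpace (E n) Y]

lemma SubAt.congr {m : ℕ} {p p' : X → E m} {x : X} (h : SubAt n m p x) (hp : p' =ᶠ[𝓝 x] p) :
    SubAt n m p' x := by
  refine ⟨h.1.congr_of_eventuallyEq hp, ?_⟩
  have h3 : (mfderiv (𝓡 n) (𝓡 m) p' x : E n →L[ℝ] E m) = mfderiv (𝓡 n) (𝓡 m) p x := by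
    rw [hp.mfderiv_eq]
  rw [h3]
  exact h.2

lemma SubAt.surj_box {B : Type} [NormedAddCommGroup B] [NormedSpace ℝ B]
    {Ψ : OpenPartialHomeomorph Y B} (hΨ : C1C n Ψ) {m : ℕ} {q : Y → E m} {w : B}
    (hw : w ∈ Ψ.target) (h : SubAt n m q (Ψ.symm w)) :
    Surjective (fderiv ℝ (fun w => q (Ψ.symm w)) w) := by
  obtain ⟨A, hA, hAb⟩ := hΨ.exists_inv hw
  obtain ⟨M, hM⟩ : ∃ M : E n →L[ℝ] E m, HasMFDerivAt (𝓡 n) (𝓡 m) q (Ψ.symm w) M :=
    ⟨_, (h.1.mdifferentiableAt (by simp)).hasMFDerivAt⟩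
  have hMs : Surjective M := by
    have h3 : (mfderiv (𝓡 n) (𝓡 m) q (Ψ.symm w) : E n →L[ℝ] E m) = M := hM.mfderiv
    rw [← h3]
    exact h.2
  have d3 : HasMFDerivAt 𝓘(ℝ, B) (𝓡 m) (fun w => q (Ψ.symm w)) w (M.comp A) :=
    HasMFDerivAt.comp (g := q) (f := fun w => Ψ.symm w) w hM hA
  have d4 : HasFDerivAt (fun w => q (Ψ.symm w)) (M.comp A) w := hasMFDerivAt_iff_hasFDerivAt.1 d3
  rw [d4.fderiv]
  exact hMs.comp hAb.2

variable [IsManifold (𝓡 n) ∞ X]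

lemma chart_C1C (x : X) : C1C n (chartAt (E n) x) :=
  ⟨fun y hy => ContMDiffAt.of_le (LD_chart (n := n) x y hy).contMDiffAt (by simp),
    fun z hz => ContMDiffAt.of_le (chart_symm_LD (n := n) x hz).contMDiffAt (by simp)⟩

lemma SubAt.eventually {m : ℕ} {p : X → E m} {x : X} (h : SubAt n m p x) :
    ∀ᶠ y in 𝓝 x, SubAt n m p y := by
  have hΦ := chart_C1C (n := n) x
  obtain ⟨φ, hφ⟩ : ∃ φ : OpenPartialHomeomorph X (E n), φ = chartAt (E n) x := ⟨_, rfl⟩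
  rw [← hφ] at hΦ
  have hxs : x ∈ φ.source := by rw [hφ]; exact mem_chart_source _ _
  have hxt := φ.map_source hxs
  have h' : SubAt n m p (φ.symm (φ x)) := by rw [φ.left_inv hxs]; exact h
  have h1 : ContDiffAt ℝ 1 (fun w => p (φ.symm w)) (φ x) := h'.to_box hΦ hxt
  have h2 := h'.surj_box hΦ hxt
  have h3 : ∀ᶠ w in 𝓝 (φ x), ContDiffAt ℝ 1 (fun w => p (φ.symm w)) w ∧
      Surjective (fderiv ℝ (fun w => p (φ.symm w)) w) :=
    (h1.eventually (by simp)).and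
      ((h1.continuousAt_fderiv (by simp)).eventually ((isOpen_surj m).mem_nhds h2))
  filter_upwards [(φ.continuousAt hxs).eventually h3, φ.open_source.mem_nhds hxs] with y hy hys
  refine SubAt.of_box hΦ (P := fun w => p (φ.symm w)) hys ?_ hy.1 hy.2
  filter_upwards [φ.open_source.mem_nhds hys] with z hz
  rw [φ.left_inv hz]

lemma isOpen_subAt {m : ℕ} (p : X → E m) : IsOpen {x | SubAt n m p x} := by
  rw [isOpen_iff_mem_nhds]
  exact fun x hx => SubAt.eventually hx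

end man

/-! ### patches -/

section patch

variable {m : ℕ} {X Y : Type} [TopologicalSpace X] [ChartedSpace (E (m + 1)) X]
  [TopologicalSpace Y] [ChartedSpace (E (m + 1)) Y] [IsManifold (𝓡 (m + 1)) ∞ X]
  [IsManifold (𝓡 (m + 1)) ∞ Y]

/-- **Existence of patches.** -/
theorem exists_patch (F : X ≃ₜ Y) {q : Y → E m} {x : X} (h1 : SubAt (m + 1) m q (F x))
    (h2 : SubAt (m + 1) m (fun y => q (F y)) x) {N : Set X} (hN : N ∈ 𝓝 x) :
    ∃ P : Patch m X Y, x ∈ P.core ∧ P.Φ.source ⊆ N ∧ (∀ y ∈ P.Ψ.source, (P.Ψ y).1 = q y) ∧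
      (∀ y ∈ P.Φ.source, F y ∈ P.Ψ.source) ∧ ∀ y ∈ P.Φ.source, (P.Φ y).1 = q (F y) := by
  obtain ⟨Ψ, hFx, -, hΨ, hΨq⟩ := exists_C1C h1 univ_mem
  obtain ⟨Φ, hx, hΦN, hΦ, hΦq⟩ := exists_C1C h2
    (inter_mem hN (F.continuous.continuousAt (Ψ.open_source.mem_nhds hFx)))
  obtain ⟨ρ, hρ, hball⟩ := Metric.nhds_basis_closedBall.mem_iff.1
    (Φ.open_target.mem_nhds (Φ.map_source hx))
  have hbox : cbox (Φ x).1 (Φ x).2 ρ ρ ⊆ Φ.target := by
    refine subset_trans ?_ hball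
    rintro ⟨a, t⟩ ⟨ha, ht⟩
    rw [← closedBall_prod_same]
    refine ⟨ha, ?_⟩
    rw [Real.closedBall_eq_Icc]
    exact ht
  refine ⟨⟨Φ, Ψ, hΦ, hΨ, (Φ x).1, (Φ x).2, ρ, ρ, hρ, hρ, hbox⟩, ?_, fun y hy => (hΦN hy).1,
    hΨq, fun y hy => (hΦN hy).2, hΦq⟩
  refine ⟨Φ x, ⟨mem_ball_self (by positivity), ?_, ?_⟩, Φ.left_inv hx⟩
  · show (Φ x).2 - ρ / 4 < (Φ x).2
    linarith
  · show (Φ x).2 < (Φ x).2 + ρ / 4
    linarith

end patch

end Run7.h7
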