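import Mathlib
import Pool.Agent.Run7.h7.QFib

/-!
The engine: a homeomorphism which preserves, near each point of a compact set, the fibres of a
submersion onto a space of dimension one less, is improved near this set.
-/

open Filter Set Metric Function
open scoped Topology ContDiff Manifold RealInnerProductSpace

namespace Run7.h7

open Pool.Agent.Y522 (LD)
open Pool.Agent.Y66.CM (LD_chart)

variable {m : ℕ} {X Y : Type} [TopologicalSpace X] [ChartedSpace (E (m + 1)) X]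
  [TopologicalSpace Y] [ChartedSpace (E (m + 1)) Y]

/-- the data which control the modifications -/
structure Ctl (m : ℕ) (X Y : Type) [TopologicalSpace X] [ChartedSpace (E (m + 1)) X]
    [TopologicalSpace Y] [ChartedSpace (E (m + 1)) Y] (ι Λ : Type) where
  F₀ : X ≃ₜ Y
  q : ι → Y → E m
  D : ι → Set X
  lam : Y → Λ
  Kc : ι → ι → Set X
  K' : ι → ι → Set X
  O : Set (X × Y)
  hO : IsOpen O
  hKc : ∀ i j, IsCompact (Kc i j)
  hsub : ∀ i j, Kc i j ⊆ D j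
  c1 : ∀ i j, ∀ x ∈ Kc i j, ContMDiffAt (𝓡 (m + 1)) (𝓡 (m + 1)) 1 F₀ x
  sub : ∀ i, ∀ x ∈ D i, ∀ y, (x, y) ∈ O → SubAt (m + 1) m (q i) y
  lev : ∀ i, ∀ x ∈ D i, ∀ y₁ y₂, (x, y₁) ∈ O → (x, y₂) ∈ O → q i y₁ = q i y₂ → lam y₁ = lam y₂
  fib : ∀ i j, ∀ x ∈ K' i j, ∀ y₁ y₂, (x, y₁) ∈ O → (x, y₂) ∈ O → q i y₁ = q i y₂ →
    q j y₁ = q j y₂
  cov : ∀ i j, ∀ x ∈ D i, x ∈ D j → x ∈ Kc i j ∨ x ∈ interior (K' i j)

variable {ι Λ : Type}

/-- the properties preserved by all modifications -/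
structure Ctl.St (Z : Ctl m X Y ι Λ) (F : X ≃ₜ Y) : Prop where
  gr : ∀ x, (x, F x) ∈ Z.O
  off : ∀ x, (∀ i, x ∉ Z.D i) → F x = Z.F₀ x
  c1 : ∀ x, ContMDiffAt (𝓡 (m + 1)) (𝓡 (m + 1)) 1 Z.F₀ x →
    ContMDiffAt (𝓡 (m + 1)) (𝓡 (m + 1)) 1 F x
  sub : ∀ i, ∀ x ∈ Z.D i, SubAt (m + 1) m (fun y => Z.q i (F y)) x
  lev : ∀ x, Z.lam (F x) = Z.lam (Z.F₀ x)

/-- admissible patches -/
structure Ctl.Good (Z : Ctl m X Y ι Λ) (i : ι) (F : X ≃ₜ Y) (P : Patch m X Y) : Prop where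
  supp : P.supp ⊆ Z.D i
  fib : ∀ y ∈ P.Ψ.source, (P.Ψ y).1 = Z.q i y
  fits : P.Fits F

lemma Ctl.Good.stable [T2Space X] {Z : Ctl m X Y ι Λ} {i : ι} {F : X ≃ₜ Y} {P : Patch m X Y}
    (h : Z.Good i F P) : ∃ O : Set (X × Y), IsOpen O ∧ (∀ x, (x, F x) ∈ O) ∧
      ∀ F' : X ≃ₜ Y, (∀ x, (x, F' x) ∈ O) → (∀ x, Z.q i (F' x) = Z.q i (F x)) → Z.Good i F' P := by
  have hc : IsCompact (P.Φ.symm '' cbox P.a₀ P.t₀ P.r P.η) :=
    (isCompact_cbox _ _ _ _).image_of_continuousOn (P.Φ.continuousOn_symm.mono P.sub)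
  refine ⟨{p | p.1 ∉ P.Φ.symm '' cbox P.a₀ P.t₀ P.r P.η ∨ p.2 ∈ P.Ψ.source}, ?_, ?_, ?_⟩
  · have e1 : IsOpen {p : X × Y | p.1 ∉ P.Φ.symm '' cbox P.a₀ P.t₀ P.r P.η} :=
      hc.isClosed.isOpen_compl.preimage continuous_fst
    exact e1.union (P.Ψ.open_source.preimage continuous_snd)
  · intro x
    by_cases hx : x ∈ P.Φ.symm '' cbox P.a₀ P.t₀ P.r P.η
    · obtain ⟨z, hz, rfl⟩ := hx
      exact Or.inr (h.fits z hz).1
    · exact Or.inl hx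
  · intro F' hF' hq
    refine ⟨h.supp, h.fib, fun z hz => ?_⟩
    have h1 : F' (P.Φ.symm z) ∈ P.Ψ.source := by
      rcases hF' (P.Φ.symm z) with h1 | h1
      · exact absurd ⟨z, hz, rfl⟩ h1
      · exact h1
    refine ⟨h1, ?_⟩
    rw [h.fib _ h1, hq, ← h.fib _ (h.fits z hz).1]
    exact (h.fits z hz).2

/-- **One step of the engine.** -/
theorem Ctl.St.step [T2Space X] [Finite ι] {Z : Ctl m X Y ι Λ} {F : X ≃ₜ Y} (hF : Z.St F) {i : ι}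
    {P : Patch m X Y} (hP : Z.Good i F P) {O : Set (X × Y)} (hO : IsOpen O)
    (hFO : ∀ x, (x, F x) ∈ O) :
    ∃ F' : X ≃ₜ Y, Z.St F' ∧ (∀ x, (x, F' x) ∈ O) ∧ (∀ x, Z.q i (F' x) = Z.q i (F x)) ∧
      (∀ x, CP (n := m + 1) K0 F x → CP (n := m + 1) K0 F' x) ∧
      ∀ x ∈ P.core, CP (n := m + 1) K0 F' x := by
  obtain ⟨F', -, hoff, hgr, hfib, hc1, hk0, hcore, hsub⟩ := P.step F hP.fits (Z.hO.inter hO)
    (fun x => ⟨hF.gr x, hFO x⟩) Z.q (fun j => Z.Kc i j) (fun j => Z.hKc i j)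
    (fun j x hx => ⟨hF.c1 x (Z.c1 i j x hx), Z.sub j x (Z.hsub i j hx) _ (hF.gr x),
      hF.sub j x (Z.hsub i j hx)⟩)
  have hnear : ∀ x, x ∉ P.supp → (F' : X → Y) =ᶠ[𝓝 x] F := by
    intro x hx
    filter_upwards [P.isCompact_supp.isClosed.isOpen_compl.mem_nhds hx] with y hy
    exact hoff y hy
  have hq : ∀ x, Z.q i (F' x) = Z.q i (F x) := by
    intro x
    by_cases hx : x ∈ P.supp
    · obtain ⟨h1, h2, h3⟩ := hfib x hx
      rw [← hP.fib _ h1, ← hP.fib _ h2, h3]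
    · rw [hoff x hx]
  refine ⟨F', ⟨fun x => (hgr x).1, ?_, fun x hx => hc1 x (hF.c1 x hx), ?_, ?_⟩,
    fun x => (hgr x).2, hq, hk0, hcore⟩
  · intro x hx
    rw [hoff x fun h => hx i (hP.supp h), hF.off x hx]
  · intro j x hx
    by_cases hxs : x ∈ P.supp
    · rcases Z.cov i j x (hP.supp hxs) hx with h | h
      · exact (hsub j x h).2
      · refine (hF.sub j x hx).congr ?_
        filter_upwards [isOpen_interior.mem_nhds h] with y hy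
        exact Z.fib i j y (interior_subset hy) _ _ (hgr y).1 (hF.gr y) (hq y)
    · refine (hF.sub j x hx).congr ?_
      filter_upwards [hnear x hxs] with y hy
      rw [hy]
  · intro x
    rw [← hF.lev x]
    by_cases hx : x ∈ P.supp
    · exact Z.lev i x (hP.supp hx) _ _ (hgr x).1 (hF.gr x) (hq x)
    · rw [hoff x hx]

/-- a finite number of steps along the fibres of the same map -/
theorem Ctl.St.steps [T2Space X] [Finite ι] {Z : Ctl m X Y ι Λ} {i : ι} (L : List (Patch m X Y)) :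
    ∀ {F : X ≃ₜ Y}, Z.St F → (∀ P ∈ L, Z.Good i F P) → ∀ {O : Set (X × Y)}, IsOpen O →
      (∀ x, (x, F x) ∈ O) →
    ∃ F' : X ≃ₜ Y, Z.St F' ∧ (∀ x, (x, F' x) ∈ O) ∧
      (∀ x, CP (n := m + 1) K0 F x → CP (n := m + 1) K0 F' x) ∧
      ∀ P ∈ L, ∀ x ∈ P.core, CP (n := m + 1) K0 F' x := by
  induction L with
  | nil =>
    intro F hF _ O _ hFO
    exact ⟨F, hF, hFO, fun _ h => h, fun P hP => absurd hP (by simp)⟩
  | cons P L ih =>
    intro F hF hL O hO hFO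
    have hst : ∀ P' ∈ L, ∃ O : Set (X × Y), IsOpen O ∧ (∀ x, (x, F x) ∈ O) ∧
      ∀ F' : X ≃ₜ Y, (∀ x, (x, F' x) ∈ O) → (∀ x, Z.q i (F' x) = Z.q i (F x)) →
        Z.Good i F' P' := fun P' hP' => (hL P' (by simp [hP'])).stable
    have hW : ∃ W : Set (X × Y), IsOpen W ∧ (∀ x, (x, F x) ∈ W) ∧
        ∀ F' : X ≃ₜ Y, (∀ x, (x, F' x) ∈ W) → (∀ x, Z.q i (F' x) = Z.q i (F x)) →
          ∀ P' ∈ L, Z.Good i F' P' := by
      clear ih hL
      induction L with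
      | nil => exact ⟨univ, isOpen_univ, fun _ => trivial, fun _ _ _ P' hP' => absurd hP' (by simp)⟩
      | cons P₁ L₁ ih₁ =>
        obtain ⟨W₁, hW₁, hFW₁, h₁⟩ := ih₁ (fun P' hP' => hst P' (by simp [hP']))
        obtain ⟨W₂, hW₂, hFW₂, h₂⟩ := hst P₁ (by simp)
        refine ⟨W₁ ∩ W₂, hW₁.inter hW₂, fun x => ⟨hFW₁ x, hFW₂ x⟩, fun F' hF' hq P' hP' => ?_⟩
        rcases List.mem_cons.1 hP' with rfl | hP'
        · exact h₂ F' (fun x => (hF' x).2) hq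
        · exact h₁ F' (fun x => (hF' x).1) hq P' hP'
    obtain ⟨W, hWo, hFW, hWP⟩ := hW
    obtain ⟨F₁, hF₁, hgr₁, hq₁, hk₁, hcore₁⟩ := hF.step (hL P (by simp)) (hO.inter hWo)
      (fun x => ⟨hFO x, hFW x⟩)
    obtain ⟨F₂, hF₂, hgr₂, hk₂, hcore₂⟩ := ih hF₁ (hWP F₁ (fun x => (hgr₁ x).2) hq₁) hO
      (fun x => (hgr₁ x).1)
    refine ⟨F₂, hF₂, hgr₂, fun x hx => hk₂ x (hk₁ x hx), fun P' hP' x hx => ?_⟩
    rcases List.mem_cons.1 hP' with rfl | hP'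
    · exact hk₂ x (hcore₁ x hx)
    · exact hcore₂ P' hP' x hx

variable [IsManifold (𝓡 (m + 1)) ∞ X] [IsManifold (𝓡 (m + 1)) ∞ Y]

/-- one phase -/
theorem Ctl.St.phase [T2Space X] [Finite ι] {Z : Ctl m X Y ι Λ} {F : X ≃ₜ Y} (hF : Z.St F) {i : ι}
    {S : Set X} (hS : IsCompact S) (hSD : S ⊆ interior (Z.D i)) {O : Set (X × Y)} (hO : IsOpen O)
    (hFO : ∀ x, (x, F x) ∈ O) :
    ∃ F' : X ≃ₜ Y, Z.St F' ∧ (∀ x, (x, F' x) ∈ O) ∧
      (∀ x, CP (n := m + 1) K0 F x → CP (n := m + 1) K0 F' x) ∧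
      ∀ x ∈ S, CP (n := m + 1) K0 F' x := by
  classical
  have h1 : ∀ x ∈ S, ∃ P : Patch m X Y, x ∈ P.core ∧ Z.Good i F P := by
    intro x hx
    have hxD := hSD hx
    obtain ⟨P, hxP, hPN, hP1, hP2, hP3⟩ := exists_patch F
      (Z.sub i x (interior_subset hxD) _ (hF.gr x)) (hF.sub i x (interior_subset hxD))
      (isOpen_interior.mem_nhds hxD)
    refine ⟨P, hxP, ⟨?_, hP1, fun z hz => ?_⟩⟩
    · rintro _ ⟨z, hz, rfl⟩
      exact interior_subset (hPN (P.Φ.map_target (P.sub ((P.half.trans obox_subset_cbox) hz))))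
    · have h2 := P.Φ.map_target (P.sub hz)
      refine ⟨hP2 _ h2, ?_⟩
      rw [hP1 _ (hP2 _ h2), ← hP3 _ h2, P.Φ.right_inv (P.sub hz)]
  rcases S.eq_empty_or_nonempty with rfl | ⟨x₀, hx₀⟩
  · exact ⟨F, hF, hFO, fun _ h => h, fun x hx => absurd hx (by simp)⟩
  have hne : Nonempty (Patch m X Y) := ⟨(h1 x₀ hx₀).choose⟩
  choose! P hxP hGood using h1
  obtain ⟨t, htS, ht⟩ := hS.elim_nhds_subcover (fun x => (P x).core)
    (fun x hx => (P x).isOpen_core.mem_nhds (hxP x hx))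
  obtain ⟨F', hF', hgr, hk, hcore⟩ := hF.steps (i := i) (t.toList.map P) (by
    intro P' hP'
    obtain ⟨x, hx, rfl⟩ := List.mem_map.1 hP'
    exact hGood x (htS x (Finset.mem_toList.1 hx))) hO hFO
  refine ⟨F', hF', hgr, hk, fun x hx => ?_⟩
  obtain ⟨z, hz, hxz⟩ := mem_iUnion₂.1 (ht hx)
  exact hcore (P z) (List.mem_map.2 ⟨z, Finset.mem_toList.2 hz, rfl⟩) x hxz

/-- all phases -/
theorem Ctl.St.phases [T2Space X] [Finite ι] {Z : Ctl m X Y ι Λ} {F : X ≃ₜ Y} (hF : Z.St F)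
    {S : ι → Set X} (hS : ∀ i, IsCompact (S i)) (hSD : ∀ i, S i ⊆ interior (Z.D i))
    {O : Set (X × Y)} (hO : IsOpen O) (hFO : ∀ x, (x, F x) ∈ O) (t : Finset ι) :
    ∃ F' : X ≃ₜ Y, Z.St F' ∧ (∀ x, (x, F' x) ∈ O) ∧
      (∀ x, CP (n := m + 1) K0 F x → CP (n := m + 1) K0 F' x) ∧
      ∀ i ∈ t, ∀ x ∈ S i, CP (n := m + 1) K0 F' x := by
  classical
  induction t using Finset.induction_on with
  | empty => exact ⟨F, hF, hFO, fun _ h => h, by simp⟩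
  | insert i t hi ih =>
    obtain ⟨F₁, hF₁, hgr₁, hk₁, hS₁⟩ := ih
    obtain ⟨F₂, hF₂, hgr₂, hk₂, hS₂⟩ := hF₁.phase (hS i) (hSD i) hO hgr₁
    refine ⟨F₂, hF₂, hgr₂, fun x hx => hk₂ x (hk₁ x hx), fun j hj x hx => ?_⟩
    rcases Finset.mem_insert.1 hj with rfl | hj
    · exact hS₂ x hx
    · exact hk₂ x (hS₁ j hj x hx)

lemma isOpen_C1M (F : X → Y) : IsOpen {x | ContMDiffAt (𝓡 (m + 1)) (𝓡 (m + 1)) 1 F x} := by
  have hX : IsManifold (𝓡 (m + 1)) 1 X := IsManifold.of_le (n := ∞) (by simp)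
  have hY : IsManifold (𝓡 (m + 1)) 1 Y := IsManifold.of_le (n := ∞) (by simp)
  rw [isOpen_iff_mem_nhds]
  intro x hx
  exact (contMDiffAt_iff_contMDiffAt_nhds (by simp)).1 hx

/-- **The engine.** -/
theorem engine [T2Space X] [LocallyCompactSpace X] [Finite ι] (F₀ : X ≃ₜ Y) {q : ι → Y → E m}
    {D : ι → Set X} {lam : Y → Λ} (hD : ∀ i, IsCompact (D i))
    (hsub : ∀ i, ∀ x ∈ D i, SubAt (m + 1) m (q i) (F₀ x) ∧
      SubAt (m + 1) m (fun y => q i (F₀ y)) x)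
    (hfib : ∀ i j, ∀ x ∈ D i, x ∈ D j → ContMDiffAt (𝓡 (m + 1)) (𝓡 (m + 1)) 1 F₀ x ∨
      SameFib (q i) (q j) (F₀ x))
    (hlev : ∀ i, ∀ x ∈ D i, SameFib (q i) lam (F₀ x)) {S : Set X} (hS : IsCompact S)
    (hSD : S ⊆ ⋃ i, interior (D i)) {O : Set (X × Y)} (hO : IsOpen O)
    (hFO : ∀ x, (x, F₀ x) ∈ O) :
    ∃ F : X ≃ₜ Y, (∀ x, (x, F x) ∈ O) ∧ (∀ x, (∀ i, x ∉ D i) → F x = F₀ x) ∧
      (∀ x, ContMDiffAt (𝓡 (m + 1)) (𝓡 (m + 1)) 1 F₀ x →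
        ContMDiffAt (𝓡 (m + 1)) (𝓡 (m + 1)) 1 F x) ∧
      (∀ x, CP (n := m + 1) K0 F₀ x → CP (n := m + 1) K0 F x) ∧
      (∀ x ∈ S, CP (n := m + 1) K0 F x) ∧ (∀ x, lam (F x) = lam (F₀ x)) ∧
      ∀ i, ∀ x ∈ D i, SubAt (m + 1) m (q i) (F x) ∧ SubAt (m + 1) m (fun y => q i (F y)) x := by
  classical
  have hι : Fintype ι := Fintype.ofFinite ι
  -- the points with the same fibres, and the points of class `C^1`
  have h1 : ∀ i j, ∃ Kc Ks : Set X, IsCompact Kc ∧ IsCompact Ks ∧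
      Kc ⊆ {x | ContMDiffAt (𝓡 (m + 1)) (𝓡 (m + 1)) 1 F₀ x} ∧
      Ks ⊆ {x | SameFib (q i) (q j) (F₀ x)} ∧ D i ∩ D j = Kc ∪ Ks := by
    intro i j
    exact ((hD i).inter (hD j)).binary_compact_cover (isOpen_C1M F₀)
      ((isOpen_sameFib (q i) (q j)).preimage F₀.continuous)
      (fun x hx => hfib i j x hx.1 hx.2)
  choose Kc Ks hKc hKs hKcC hKsS hKK using h1
  have h2 : ∀ i j, ∃ K' : Set X, IsCompact K' ∧ Ks i j ⊆ interior K' ∧
      K' ⊆ {x | SameFib (q i) (q j) (F₀ x)} := fun i j =>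
    exists_compact_between (hKs i j)
      ((isOpen_sameFib (q i) (q j)).preimage F₀.continuous) (hKsS i j)
  choose K' hK' hKsK' hK'S using h2
  -- the neighbourhoods of the graph
  have h3 : ∀ i j, ∃ O : Set (X × Y), IsOpen O ∧ (∀ x, (x, F₀ x) ∈ O) ∧
      ∀ x ∈ K' i j, ∀ y₁ y₂, (x, y₁) ∈ O → (x, y₂) ∈ O → q i y₁ = q i y₂ → q j y₁ = q j y₂ :=
    fun i j => unif_fib F₀.continuous (hK' i j) (hK'S i j)
  choose O₁ hO₁ hF₁ h₁ using h3
  have h4 : ∀ i, ∃ O : Set (X × Y), IsOpen O ∧ (∀ x, (x, F₀ x) ∈ O) ∧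
      ∀ x ∈ D i, ∀ y₁ y₂, (x, y₁) ∈ O → (x, y₂) ∈ O → q i y₁ = q i y₂ → lam y₁ = lam y₂ :=
    fun i => unif_fib F₀.continuous (hD i) (hlev i)
  choose O₂ hO₂ hF₂ h₂ using h4
  obtain ⟨Z, hZ⟩ : ∃ Z : Ctl m X Y ι Λ, Z.F₀ = F₀ ∧ Z.q = q ∧ Z.D = D ∧ Z.lam = lam ∧
      ∀ x, (x, F₀ x) ∈ Z.O := by
    refine ⟨{ F₀ := F₀, q := q, D := D, lam := lam, Kc := Kc, K' := K',
              O := ((⋂ i, ⋂ j, O₁ i j) ∩ ⋂ i, O₂ i) ∩
                ⋂ i, {p : X × Y | p.1 ∉ D i ∨ SubAt (m + 1) m (q i) p.2},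
              hO := ?_, hKc := hKc, hsub := ?_, c1 := ?_, sub := ?_, lev := ?_, fib := ?_,
              cov := ?_ }, rfl, rfl, rfl, rfl, ?_⟩
    · refine ((isOpen_iInter_of_finite fun i => isOpen_iInter_of_finite fun j => hO₁ i j).inter
        (isOpen_iInter_of_finite fun i => hO₂ i)).inter (isOpen_iInter_of_finite fun i => ?_)
      have e1 : IsOpen {p : X × Y | p.1 ∉ D i} :=
        (hD i).isClosed.isOpen_compl.preimage continuous_fst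
      exact e1.union ((isOpen_subAt (q i)).preimage continuous_snd)
    · intro i j x hx
      have : x ∈ D i ∩ D j := by rw [hKK]; exact Or.inl hx
      exact this.2
    · exact fun i j x hx => hKcC i j hx
    · intro i x hx y hy
      rcases mem_iInter.1 hy.2 i with h | h
      · exact absurd hx h
      · exact h
    · intro i x hx y₁ y₂ hy₁ hy₂ hqq
      exact h₂ i x hx y₁ y₂ (mem_iInter.1 hy₁.1.2 i) (mem_iInter.1 hy₂.1.2 i) hqq
    · intro i j x hx y₁ y₂ hy₁ hy₂ hqq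
      exact h₁ i j x hx y₁ y₂ (mem_iInter.1 (mem_iInter.1 hy₁.1.1 i) j)
        (mem_iInter.1 (mem_iInter.1 hy₂.1.1 i) j) hqq
    · intro i j x hxi hxj
      have : x ∈ Kc i j ∪ Ks i j := by rw [← hKK]; exact ⟨hxi, hxj⟩
      rcases this with h | h
      · exact Or.inl h
      · exact Or.inr (hKsK' i j h)
    · intro x
      refine ⟨⟨mem_iInter.2 fun i => mem_iInter.2 fun j => hF₁ i j x,
        mem_iInter.2 fun i => hF₂ i x⟩, mem_iInter.2 fun i => ?_⟩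
      by_cases hx : x ∈ D i
      · exact Or.inr (hsub i x hx).1
      · exact Or.inl hx
  obtain ⟨hZF, hZq, hZD, hZl, hZO⟩ := hZ
  have hSt : Z.St F₀ := by
    refine ⟨hZO, fun x _ => by rw [hZF], fun x hx => by rwa [hZF] at hx, ?_, fun x => by rw [hZF]⟩
    intro i x hx
    rw [hZq]
    rw [hZD] at hx
    exact (hsub i x hx).2
  obtain ⟨S', hS', hS'D, hSS'⟩ := hS.finite_compact_cover Finset.univ
    (fun i => interior (D i)) (fun i _ => isOpen_interior) (by simpa using hSD)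
  obtain ⟨F, hF, hgr, hk, hgood⟩ := hSt.phases hS' (fun i => by rw [hZD]; exact hS'D i) hO hFO
    Finset.univ
  refine ⟨F, hgr, fun x hx => ?_, fun x hx => ?_, hk, fun x hx => ?_, fun x => ?_,
    fun i x hx => ?_⟩
  · rw [hF.off x (by rw [hZD]; exact hx), hZF]
  · exact hF.c1 x (by rw [hZF]; exact hx)
  · rw [hSS'] at hx
    obtain ⟨i, -, hi⟩ := mem_iUnion₂.1 hx
    exact hgood i (Finset.mem_univ i) x hi
  · have := hF.lev x
    rw [hZl, hZF] at this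
    exact this
  · have hx' : x ∈ Z.D i := by rw [hZD]; exact hx
    have g1 := Z.sub i x hx' _ (hF.gr x)
    have g2 := hF.sub i x hx'
    rw [hZq] at g1 g2
    exact ⟨g1, g2⟩

end Run7.h7
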