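import Mathlib
import Pool.Agent.Run7.h7.QEng
import Pool.Agent.Run7.h7.C1Main

/-!
Homeomorphisms which preserve, near every bad point, the fibres of a submersion from an admissible
family, or are of class `C^1` and of corank at most one.
-/

open Filter Set Metric Function
open scoped Topology ContDiff Manifold RealInnerProductSpace

namespace Run7.h7

open Pool.Agent.Y522 (LD)
open Pool.Agent.Y66.CM (CMon LD_chart)

variable {m : ℕ}

/-- the derivatives of `q` and `q'` at `y` have no common kernel vector -/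
def Transv (m : ℕ) {Y : Type*} [TopologicalSpace Y] [ChartedSpace (E (m + 1)) Y] (q q' : Y → E m)
    (y : Y) : Prop :=
  ∀ v : E (m + 1), (mfderiv (𝓡 (m + 1)) (𝓡 m) q y : E (m + 1) →L[ℝ] E m) v = 0 →
    (mfderiv (𝓡 (m + 1)) (𝓡 m) q' y : E (m + 1) →L[ℝ] E m) v = 0 → v = 0

/-- a family of submersions, defined on open sets, such that any two members are at every common
point transversal, or have the same fibres near this point -/
structure Fam (m : ℕ) {Y : Type*} [TopologicalSpace Y] [ChartedSpace (E (m + 1)) Y] {J : Type*}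
    (U : J → Set Y) (q : J → Y → E m) : Prop where
  op : ∀ j, IsOpen (U j)
  sub : ∀ j, ∀ y ∈ U j, SubAt (m + 1) m (q j) y
  adm : ∀ j k, ∀ y ∈ U j, y ∈ U k → Transv m (q j) (q k) y ∨ SameFib (q j) (q k) y

lemma exists_ker {L : E (m + 1) →L[ℝ] E m} (hL : Surjective L) : ∃ w : E (m + 1), w ≠ 0 ∧
    L w = 0 ∧ ∀ v, L v = 0 → ∃ t : ℝ, v = t • w := by
  obtain ⟨u, T, hT⟩ := exists_equiv_prod hL
  have hT' : ∀ v, T v = (L v, innerSL ℝ u v) := fun v => by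
    have : (T : E (m + 1) →L[ℝ] E m × ℝ) v = (L.prod (innerSL ℝ u)) v := by rw [hT]
    exact this
  refine ⟨T.symm (0, 1), ?_, ?_, fun v hv => ⟨innerSL ℝ u v, ?_⟩⟩
  · intro h
    have h1 : ((0 : E m), (1 : ℝ)) = 0 := T.symm.injective (by rw [h, map_zero])
    exact one_ne_zero (congrArg Prod.snd h1)
  · have h1 := hT' (T.symm (0, 1))
    rw [T.apply_symm_apply] at h1
    exact (congrArg Prod.fst h1).symm
  · apply T.injective
    rw [map_smul, T.apply_symm_apply, hT' v, hv]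
    simp

section man

variable {X Y : Type} [TopologicalSpace X] [ChartedSpace (E (m + 1)) X]
  [TopologicalSpace Y] [ChartedSpace (E (m + 1)) Y]

/-- the rank of a map of class `C^1` which respects a submersion -/
lemma K1_of_sub {q : Y → E m} {F : X → Y} {x : X}
    (hF : ContMDiffAt (𝓡 (m + 1)) (𝓡 (m + 1)) 1 F x) (h1 : SubAt (m + 1) m q (F x))
    (h2 : SubAt (m + 1) m (fun y => q (F y)) x) : CP (n := m + 1) K1 F x := by
  refine ⟨hF, ?_⟩
  obtain ⟨A, hA⟩ : ∃ A : E (m + 1) →L[ℝ] E (m + 1),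
      HasMFDerivAt (𝓡 (m + 1)) (𝓡 (m + 1)) F x A := ⟨_, (hF.mdifferentiableAt (by simp)).hasMFDerivAt⟩
  obtain ⟨M, hM⟩ : ∃ M : E (m + 1) →L[ℝ] E m, HasMFDerivAt (𝓡 (m + 1)) (𝓡 m) q (F x) M :=
    ⟨_, (h1.1.mdifferentiableAt (by simp)).hasMFDerivAt⟩
  have h3 : HasMFDerivAt (𝓡 (m + 1)) (𝓡 m) (fun y => q (F y)) x (M.comp A) :=
    HasMFDerivAt.comp (g := q) (f := F) x hM hA
  have h4 : (mfderiv (𝓡 (m + 1)) (𝓡 m) (fun y => q (F y)) x : E (m + 1) →L[ℝ] E m) =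
    M.comp A := h3.mfderiv
  have h5 : (mfderiv (𝓡 (m + 1)) (𝓡 (m + 1)) F x : E (m + 1) →L[ℝ] E (m + 1)) = A := hA.mfderiv
  have h6 := h2.2
  rw [h4] at h6
  rw [h5]
  obtain ⟨w, -, -, hw⟩ := exists_ker h6
  refine ⟨w, fun v hv => hw v ?_⟩
  rw [ContinuousLinearMap.comp_apply, hv, map_zero]

variable [IsManifold (𝓡 (m + 1)) ∞ X] [IsManifold (𝓡 (m + 1)) ∞ Y]

/-- a map which respects two transversal submersions is of class `C^1` -/
theorem c1_of_transv {q q' : Y → E m} {F : X → Y} {x : X} (hF : ContinuousAt F x)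
    (h1 : SubAt (m + 1) m q (F x)) (h2 : SubAt (m + 1) m q' (F x)) (ht : Transv m q q' (F x))
    (g1 : ContMDiffAt (𝓡 (m + 1)) (𝓡 m) 1 (fun y => q (F y)) x)
    (g2 : ContMDiffAt (𝓡 (m + 1)) (𝓡 m) 1 (fun y => q' (F y)) x) :
    ContMDiffAt (𝓡 (m + 1)) (𝓡 (m + 1)) 1 F x := by
  obtain ⟨Ψ, hFx, -, hΨ, hΨq⟩ := exists_C1C h1 univ_mem
  set w₀ := Ψ (F x) with hw₀
  have hw₀t : w₀ ∈ Ψ.target := Ψ.map_source hFx
  have hw₀s : Ψ.symm w₀ = F x := Ψ.left_inv hFx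
  set G : E m × ℝ → E m := fun w => q' (Ψ.symm w) with hG
  have hG1 : ContDiffAt ℝ 1 G w₀ := SubAt.to_box hΨ hw₀t (by rw [hw₀s]; exact h2)
  -- the derivative along the fibre
  have hGs : fderiv ℝ G w₀ (0, 1) ≠ 0 := by
    intro h0
    obtain ⟨A, hA, hAb⟩ := hΨ.exists_inv hw₀t
    obtain ⟨M, hM⟩ : ∃ M : E (m + 1) →L[ℝ] E m, HasMFDerivAt (𝓡 (m + 1)) (𝓡 m) q (Ψ.symm w₀) M :=
      ⟨_, ((show SubAt (m + 1) m q (Ψ.symm w₀) by rw [hw₀s]; exact h1).1.mdifferentiableAt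
        (by simp)).hasMFDerivAt⟩
    obtain ⟨M', hM'⟩ : ∃ M' : E (m + 1) →L[ℝ] E m,
        HasMFDerivAt (𝓡 (m + 1)) (𝓡 m) q' (Ψ.symm w₀) M' :=
      ⟨_, ((show SubAt (m + 1) m q' (Ψ.symm w₀) by rw [hw₀s]; exact h2).1.mdifferentiableAt
        (by simp)).hasMFDerivAt⟩
    have d1 : HasMFDerivAt 𝓘(ℝ, E m × ℝ) (𝓡 m) (fun w => q (Ψ.symm w)) w₀ (M.comp A) :=
      HasMFDerivAt.comp (g := q) (f := fun w => Ψ.symm w) w₀ hM hA
    have d2 : HasFDerivAt (fun w => q (Ψ.symm w)) (M.comp A) w₀ := hasMFDerivAt_iff_hasFDerivAt.1 d1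
    have d3 : (fun w => q (Ψ.symm w)) =ᶠ[𝓝 w₀] fun w => w.1 := by
      filter_upwards [Ψ.open_target.mem_nhds hw₀t] with w hw
      rw [← hΨq _ (Ψ.map_target hw), Ψ.right_inv hw]
    have d4 : M.comp A = ContinuousLinearMap.fst ℝ (E m) ℝ :=
      (d2.congr_of_eventuallyEq d3.symm).unique hasFDerivAt_fst
    have d5 : HasMFDerivAt 𝓘(ℝ, E m × ℝ) (𝓡 m) (fun w => q' (Ψ.symm w)) w₀ (M'.comp A) :=
      HasMFDerivAt.comp (g := q') (f := fun w => Ψ.symm w) w₀ hM' hA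
    have d6 : HasFDerivAt G (M'.comp A) w₀ := hasMFDerivAt_iff_hasFDerivAt.1 d5
    have d7 : (M'.comp A) (0, 1) = 0 := by rw [← d6.fderiv]; exact h0
    have d8 : (M.comp A) (0, 1) = 0 := by rw [d4]; rfl
    have e1 : (mfderiv (𝓡 (m + 1)) (𝓡 m) q (F x) : E (m + 1) →L[ℝ] E m) = M := by
      have : HasMFDerivAt (𝓡 (m + 1)) (𝓡 m) q (F x) M := by rw [hw₀s] at hM; exact hM
      exact this.mfderiv
    have e2 : (mfderiv (𝓡 (m + 1)) (𝓡 m) q' (F x) : E (m + 1) →L[ℝ] E m) = M' := by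
      have : HasMFDerivAt (𝓡 (m + 1)) (𝓡 m) q' (F x) M' := by rw [hw₀s] at hM'; exact hM'
      exact this.mfderiv
    have h3 := ht (A (0, 1)) (by rw [e1]; exact d8) (by rw [e2]; exact d7)
    have h4 : ((0 : E m), (1 : ℝ)) = 0 := hAb.1 (by rw [h3, map_zero])
    exact one_ne_zero (congrArg Prod.snd h4)
  -- the new coordinates
  set u := fderiv ℝ G w₀ (0, 1) with hu
  set Θ : E m × ℝ → E m × ℝ := fun w => (w.1, innerSL ℝ u (G w)) with hΘ
  have hΘ1 : ContDiffAt ℝ 1 Θ w₀ :=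
    contDiffAt_fst.prodMk ((innerSL ℝ u).contDiff.contDiffAt.comp w₀ hG1)
  set T₀ : E m × ℝ →L[ℝ] E m × ℝ := (ContinuousLinearMap.fst ℝ (E m) ℝ).prod
    ((innerSL ℝ u).comp (fderiv ℝ G w₀)) with hT₀
  have hΘd : HasFDerivAt Θ T₀ w₀ :=
    hasFDerivAt_fst.prodMk ((innerSL ℝ u).hasFDerivAt.comp w₀
      (hG1.differentiableAt (by simp)).hasFDerivAt)
  have hinj : Injective T₀ := by
    refine (injective_iff_map_eq_zero _).2 fun v hv => ?_
    rw [hT₀, ContinuousLinearMap.prod_apply, Prod.mk_eq_zero] at hv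
    obtain ⟨hv1, hv2⟩ := hv
    have hv3 : v.1 = 0 := hv1
    have hv4 : v = v.2 • ((0 : E m), (1 : ℝ)) := by
      ext1
      · simp [hv3]
      · simp
    rw [ContinuousLinearMap.comp_apply, hv4, map_smul, map_smul, ← hu, smul_eq_mul,
      innerSL_apply_apply, real_inner_self_eq_norm_sq] at hv2
    rcases mul_eq_zero.1 hv2 with h5 | h5
    · rw [hv4, h5, zero_smul]
    · exact absurd (pow_eq_zero_iff (two_ne_zero)|>.1 h5) (norm_ne_zero_iff.2 hGs)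
  have hsurj : Surjective T₀ :=
    (LinearMap.injective_iff_surjective (f := T₀.toLinearMap)).1 hinj
  obtain ⟨T, hT⟩ : ∃ T : (E m × ℝ) ≃L[ℝ] (E m × ℝ), (T : E m × ℝ →L[ℝ] E m × ℝ) = T₀ :=
    ⟨ContinuousLinearEquiv.ofBijective T₀ (LinearMap.ker_eq_bot.2 hinj)
      (LinearMap.range_eq_top.2 hsurj), ContinuousLinearEquiv.coe_ofBijective _ _ _⟩
  have hΘT : HasFDerivAt Θ (T : E m × ℝ →L[ℝ] E m × ℝ) w₀ := by rw [hT]; exact hΘd
  obtain ⟨R, hR1, hR2⟩ : ∃ R : E m × ℝ → E m × ℝ, ContDiffAt ℝ 1 R (Θ w₀) ∧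
      ∀ᶠ w in 𝓝 w₀, R (Θ w) = w := by
    refine ⟨hΘ1.localInverse hΘT (by simp), hΘ1.to_localInverse hΘT (by simp), ?_⟩
    exact (hΘ1.hasStrictFDerivAt' hΘT (by simp)).eventually_left_inverse
  -- the map
  have hcont : ContinuousAt (fun y => Ψ (F y)) x :=
    (Ψ.continuousAt hFx).comp_of_eq hF rfl
  have hev : F =ᶠ[𝓝 x] fun y => Ψ.symm (R (q (F y), innerSL ℝ u (q' (F y)))) := by
    filter_upwards [hcont.eventually hR2, hF.eventually (Ψ.open_source.mem_nhds hFx)] with y hy hys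
    have h3 : Θ (Ψ (F y)) = (q (F y), innerSL ℝ u (q' (F y))) := by
      show ((Ψ (F y)).1, innerSL ℝ u (q' (Ψ.symm (Ψ (F y))))) = _
      rw [Ψ.left_inv hys, hΨq _ hys]
    rw [← h3, hy, Ψ.left_inv hys]
  refine ContMDiffAt.congr_of_eventuallyEq ?_ hev
  have h3 : (q (F x), innerSL ℝ u (q' (F x))) = Θ w₀ := by
    show _ = ((Ψ (F x)).1, innerSL ℝ u (q' (Ψ.symm (Ψ (F x)))))
    rw [Ψ.left_inv hFx, hΨq _ hFx]
  have k1 : ContMDiffAt (𝓡 (m + 1)) 𝓘(ℝ, E m × ℝ) 1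
      (fun y => (q (F y), innerSL ℝ u (q' (F y)))) x := by
    refine ContMDiffAt.prodMk_space g1 ?_
    have : ContMDiffAt (𝓡 m) 𝓘(ℝ, ℝ) 1 (fun v : E m => innerSL ℝ u v) (q' (F x)) :=
      (innerSL ℝ u).contDiff.contDiffAt.contMDiffAt
    exact this.comp x g2
  have k2 : ContMDiffAt 𝓘(ℝ, E m × ℝ) 𝓘(ℝ, E m × ℝ) 1 R
      (q (F x), innerSL ℝ u (q' (F x))) := by
    rw [h3]; exact hR1.contMDiffAt
  have k3 : R (Θ w₀) = w₀ := hR2.self_of_nhds
  have k4 : ContMDiffAt 𝓘(ℝ, E m × ℝ) (𝓡 (m + 1)) 1 Ψ.symm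
      (R (q (F x), innerSL ℝ u (q' (F x)))) := by
    rw [h3, k3]; exact hΨ.inv w₀ hw₀t
  have k5 : ContMDiffAt (𝓡 (m + 1)) 𝓘(ℝ, E m × ℝ) 1
      (fun y => R (q (F y), innerSL ℝ u (q' (F y)))) x := ContMDiffAt.comp x k2 k1
  exact ContMDiffAt.comp (g := Ψ.symm)
    (f := fun y => R (q (F y), innerSL ℝ u (q' (F y)))) x k4 k5

/-- **Main theorem.** -/
theorem qmixed [T2Space X] (hm : 1 ≤ m) (f : X ≃ₜ Y) {J : Type*} {U : J → Set Y}
    {Q : J → Y → E m} (hQ : Fam m U Q)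
    (hf : ∀ x, LD (m + 1) f x ∨ CP (n := m + 1) K1 f x ∨
      ∃ j, f x ∈ U j ∧ SubAt (m + 1) m (fun y => Q j (f y)) x)
    (hB : IsCompact {x | ¬ LD (m + 1) f x}) {O : Set (X × Y)} (hO : IsOpen O)
    (hfO : ∀ x, (x, f x) ∈ O) :
    ∃ (f' : X → Y) (C : Set X), IsCompact C ∧ Bijective f' ∧ (∀ x, LD (m + 1) f' x) ∧
      (∀ x, (x, f' x) ∈ O) ∧ ∀ x, x ∉ C → f' x = f x := by
  classical
  have hLC : LocallyCompactSpace X := Manifold.locallyCompact_of_finiteDimensional (𝓡 (m + 1))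
  set B' : Set X := {x | ¬ LD (m + 1) f x} ∩ {x | CP (n := m + 1) K1 f x}ᶜ with hB'
  have hB'c : IsCompact B' :=
    hB.inter_right (isOpen_CP1 (n := m + 1) (f := (f : X → Y))).isClosed_compl
  rcases isEmpty_or_nonempty J with hJ | hJ
  · refine mixed (n := m + 1) (by omega) f (fun x => ?_) hB hO hfO
    rcases hf x with h | h | ⟨j, -⟩
    · exact Or.inl (Or.inl h)
    · exact Or.inr (Or.inl h)
    · exact hJ.elim j
  have h1 : ∀ x ∈ B', ∃ (j : J) (D : Set X), IsCompact D ∧ x ∈ interior D ∧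
      ∀ y ∈ D, f y ∈ U j ∧ SubAt (m + 1) m (fun y => Q j (f y)) y := by
    rintro x ⟨hx1, hx2⟩
    rcases hf x with h | h | ⟨j, hs⟩
    · exact absurd h hx1
    · exact absurd h hx2
    · have hop : IsOpen {y | f y ∈ U j ∧ SubAt (m + 1) m (fun y => Q j (f y)) y} :=
        ((hQ.op j).preimage f.continuous).inter (isOpen_subAt _)
      obtain ⟨D, hD, hxD, hDN⟩ := exists_compact_subset hop hs
      exact ⟨j, D, hD, hxD, fun y hy => hDN hy⟩
  choose! q D hDc hxD hDq using h1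
  obtain ⟨t, htB, ht⟩ := hB'c.elim_nhds_subcover (fun x => interior (D x))
    (fun x hx => isOpen_interior.mem_nhds (hxD x hx))
  obtain ⟨F, hgr, hoff, hc1, hk0, hS, -, hsub⟩ := engine (ι := t) (Λ := Unit) f
    (q := fun i => Q (q i)) (D := fun i => D i) (lam := fun _ => ())
    (fun i => hDc i (htB i i.2))
    (fun i x hx => ⟨hQ.sub _ _ (hDq i (htB i i.2) x hx).1, (hDq i (htB i i.2) x hx).2⟩)
    (fun i j x hxi hxj => by
      obtain ⟨a1, a2⟩ := hDq i (htB i i.2) x hxi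
      obtain ⟨b1, b2⟩ := hDq j (htB j j.2) x hxj
      rcases hQ.adm _ _ (f x) a1 b1 with h | h
      · exact Or.inl (c1_of_transv f.continuous.continuousAt (hQ.sub _ _ a1) (hQ.sub _ _ b1)
          h a2.1 b2.1)
      · exact Or.inr h)
    (fun i x hx => ⟨univ, univ_mem, fun _ _ _ _ _ => rfl⟩) hB'c
    (by
      intro x hx
      obtain ⟨z, hz, hxz⟩ := mem_iUnion₂.1 (ht hx)
      exact mem_iUnion.2 ⟨⟨z, hz⟩, hxz⟩) hO hfO
  set C₀ : Set X := ⋃ i : t, D i with hC₀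
  have hC₀c : IsCompact C₀ := isCompact_iUnion fun i => hDc i (htB i i.2)
  have hnear : ∀ x, x ∉ C₀ → (F : X → Y) =ᶠ[𝓝 x] f := by
    intro x hx
    filter_upwards [hC₀c.isClosed.isOpen_compl.mem_nhds hx] with y hy
    exact hoff y fun i hi => hy (mem_iUnion.2 ⟨i, hi⟩)
  have hF : ∀ x, (LD (m + 1) F x ∨ CMon (m + 1) F x) ∨
      (CP (n := m + 1) K1 F x ∨ CP (n := m + 1) K1 F.symm (F x)) := by
    intro x
    by_cases hx : x ∈ B'
    · exact Or.inl (Or.inr (CP0.cmon (hS x hx)))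
    · by_cases hx1 : LD (m + 1) f x
      · exact Or.inl (Or.inr (CP0.cmon (hk0 x (LD.CP0 hx1))))
      · have hx2 : CP (n := m + 1) K1 f x := by
          by_contra h
          exact hx ⟨hx1, h⟩
        by_cases hxC : x ∈ C₀
        · obtain ⟨i, hi⟩ := mem_iUnion.1 hxC
          exact Or.inr (Or.inl (K1_of_sub (hc1 x hx2.1) (hsub i x hi).1 (hsub i x hi).2))
        · exact Or.inr (Or.inl (hx2.congr (hnear x hxC)))
  have hBF : IsCompact {x | ¬ LD (m + 1) F x} := by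
    refine (hB.union hC₀c).of_isClosed_subset (isClosed_bad _) fun x hx => ?_
    by_cases hxC : x ∈ C₀
    · exact Or.inr hxC
    · left
      intro h
      exact hx (Pool.Agent.Y522.LD.congr h (hnear x hxC))
  obtain ⟨f', C, hC, hb, hLD, hg, hof⟩ := mixed (n := m + 1) (by omega) F hF hBF hO hgr
  refine ⟨f', C ∪ C₀, hC.union hC₀c, hb, hLD, hg, fun x hx => ?_⟩
  rw [mem_union, not_or] at hx
  rw [hof x hx.1]
  exact hoff x fun i hi => hx.2 (mem_iUnion.2 ⟨i, hi⟩)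

end man

end Run7.h7
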