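import Mathlib
import Pool.Agent.Run7.h7.QAbs

/-!
Families of submersions: maps to a manifold of dimension one less.
-/

open Filter Set Metric Function
open scoped Topology ContDiff Manifold RealInnerProductSpace

namespace Run7.h7

open Pool.Agent.Y522 (LD)
open Pool.Agent.Y66.CM (CMon LD_chart)

variable {m : ℕ}

section man

variable {X Y B : Type} [TopologicalSpace X] [ChartedSpace (E (m + 1)) X]
  [TopologicalSpace Y] [ChartedSpace (E (m + 1)) Y] [TopologicalSpace B] [ChartedSpace (E m) B]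

/-- `q` is of class `C^1` near `y` and a submersion at `y` -/
def SubB (m : ℕ) {Y B : Type} [TopologicalSpace Y] [ChartedSpace (E (m + 1)) Y]
    [TopologicalSpace B] [ChartedSpace (E m) B] (q : Y → B) (y : Y) : Prop :=
  (∀ᶠ z in 𝓝 y, ContMDiffAt (𝓡 (m + 1)) (𝓡 m) 1 q z) ∧
    Surjective (mfderiv (𝓡 (m + 1)) (𝓡 m) q y : E (m + 1) →L[ℝ] E m)

variable [IsManifold (𝓡 (m + 1)) ∞ X] [IsManifold (𝓡 (m + 1)) ∞ Y] [IsManifold (𝓡 m) ∞ B]

lemma SubB.chart {q : Y → B} {y : Y} (h : SubB m q y) {b : B}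
    (hb : q y ∈ (chartAt (E m) b).source) : SubAt (m + 1) m (fun z => chartAt (E m) b (q z)) y := by
  have h1 : LD m (chartAt (E m) b : B → E m) (q y) := LD_chart _ _ hb
  have h2 : ContMDiffAt (𝓡 m) (𝓡 m) 1 (chartAt (E m) b : B → E m) (q y) :=
    h1.contMDiffAt.of_le (by simp)
  have h3 := h.1.self_of_nhds
  refine ⟨ContMDiffAt.comp y h2 h3, ?_⟩
  obtain ⟨A, hA⟩ : ∃ A : E m →L[ℝ] E m,
      HasMFDerivAt (𝓡 m) (𝓡 m) (chartAt (E m) b : B → E m) (q y) A :=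
    ⟨_, (h2.mdifferentiableAt (by simp)).hasMFDerivAt⟩
  obtain ⟨M, hM⟩ : ∃ M : E (m + 1) →L[ℝ] E m, HasMFDerivAt (𝓡 (m + 1)) (𝓡 m) q y M :=
    ⟨_, (h3.mdifferentiableAt (by simp)).hasMFDerivAt⟩
  have h4 : HasMFDerivAt (𝓡 (m + 1)) (𝓡 m) (fun z => chartAt (E m) b (q z)) y (A.comp M) :=
    HasMFDerivAt.comp y hA hM
  have h5 : (mfderiv (𝓡 (m + 1)) (𝓡 m) (fun z => chartAt (E m) b (q z)) y :
    E (m + 1) →L[ℝ] E m) = A.comp M := h4.mfderiv
  rw [h5]
  have h6 : (mfderiv (𝓡 m) (𝓡 m) (chartAt (E m) b : B → E m) (q y) : E m →L[ℝ] E m) = A :=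
    hA.mfderiv
  have h7 : (mfderiv (𝓡 (m + 1)) (𝓡 m) q y : E (m + 1) →L[ℝ] E m) = M := hM.mfderiv
  have h8 := (LD.mfderiv_bijective h1).2
  rw [h6] at h8
  have h9 := h.2
  rw [h7] at h9
  exact h8.comp h9

/-- the family of submersions given by a map to a manifold -/
lemma famB (q : Y → B) : Fam m (fun b : B => {y | (∀ᶠ z in 𝓝 y, ContinuousAt q z) ∧
    q y ∈ (chartAt (E m) b).source ∧ SubAt (m + 1) m (fun z => chartAt (E m) b (q z)) y})
    (fun b z => chartAt (E m) b (q z)) := by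
  refine ⟨fun b => ?_, fun b y hy => hy.2.2, fun b b' y hy hy' => Or.inr ?_⟩
  · rw [isOpen_iff_mem_nhds]
    rintro y ⟨h1, h2, h3⟩
    filter_upwards [h1.eventually_nhds,
      h1.self_of_nhds.eventually ((chartAt (E m) b).open_source.mem_nhds h2), h3.eventually]
      with z a1 a2 a3
    exact ⟨a1, a2, a3⟩
  · have h1 : ContinuousAt q y := hy.1.self_of_nhds
    refine ⟨q ⁻¹' ((chartAt (E m) b).source ∩ (chartAt (E m) b').source), ?_, ?_⟩
    · exact h1 (inter_mem ((chartAt (E m) b).open_source.mem_nhds hy.2.1)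
        ((chartAt (E m) b').open_source.mem_nhds hy'.2.1))
    · intro y₁ h₁ y₂ h₂ hqq
      have h3 : q y₁ = q y₂ := (chartAt (E m) b).injOn h₁.1 h₂.1 hqq
      simp only [h3]

/-- homeomorphisms over a manifold of dimension one less -/
theorem qmixedB [T2Space X] (hm : 1 ≤ m) (f : X ≃ₜ Y) (q : Y → B)
    (hf : ∀ x, LD (m + 1) f x ∨ CP (n := m + 1) K1 f x ∨
      (SubB m q (f x) ∧ SubB m (fun z => q (f z)) x))
    (hB : IsCompact {x | ¬ LD (m + 1) f x}) {O : Set (X × Y)} (hO : IsOpen O)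
    (hfO : ∀ x, (x, f x) ∈ O) :
    ∃ (f' : X → Y) (C : Set X), IsCompact C ∧ Bijective f' ∧ (∀ x, LD (m + 1) f' x) ∧
      (∀ x, (x, f' x) ∈ O) ∧ ∀ x, x ∉ C → f' x = f x := by
  refine qmixed hm f (famB q) (fun x => ?_) hB hO hfO
  rcases hf x with h | h | ⟨h1, h2⟩
  · exact Or.inl h
  · exact Or.inr (Or.inl h)
  · refine Or.inr (Or.inr ⟨q (f x), ⟨h1.1.mono fun z hz => hz.continuousAt,
      mem_chart_source _ _, h1.chart (mem_chart_source _ _)⟩, ?_⟩)
    exact h2.chart (mem_chart_source _ _)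

end man

end Run7.h7
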