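import Mathlib
import Pool.Agent.Run7.h7.C1Main
import Pool.Agent.R865.TB

/-!
Smoothing of homeomorphisms of mixed type: manifolds with boundary, closed manifolds.
-/

open Filter Set Metric Function
open scoped Topology ContDiff Manifold

noncomputable section

namespace Run7.h7

open Pool.Agent.Y522 (LD)
open Pool.Agent.Y66.CM (CMon CMonE LD_chart)

variable {n : ℕ}

lemma K1_of_rank {L : E n →L[ℝ] E n}
    (h : n ≤ Module.finrank ℝ (LinearMap.range L.toLinearMap) + 1) : K1 L := by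
  rw [K1_iff]
  have h3 : (L : E n →ₗ[ℝ] E n).rank =
      ((Module.finrank ℝ (LinearMap.range (L : E n →ₗ[ℝ] E n)) : ℕ) : Cardinal) := by
    unfold LinearMap.rank
    exact (Module.finrank_eq_rank ℝ _).symm
  rw [h3, Nat.cast_le]
  exact Nat.sub_le_iff_le_add.2 h

section restr

variable {m : ℕ} {M N X Y : Type} [TopologicalSpace M] [TopologicalSpace N]
    [TopologicalSpace X] [TopologicalSpace Y]
    [ChartedSpace (EuclideanHalfSpace (m + 1)) M] [ChartedSpace (EuclideanHalfSpace (m + 1)) N]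
    [ChartedSpace (E (m + 1)) X] [ChartedSpace (E (m + 1)) Y]

/-- the restriction is of class `C^1` where the map is -/
theorem c1_restr (ι : X → M)
    (hιd : ∀ x, IsLocalDiffeomorphAt (𝓡 (m + 1)) (𝓡∂ (m + 1)) ∞ ι x)
    (κ : Y → N) (hκ : Injective κ)
    (hκd : ∀ x, IsLocalDiffeomorphAt (𝓡 (m + 1)) (𝓡∂ (m + 1)) ∞ κ x)
    (f : M → N) (F : X → Y) (hF : ∀ x, κ (F x) = f (ι x)) {x : X}
    (h : ContMDiffAt (𝓡∂ (m + 1)) (𝓡∂ (m + 1)) 1 f (ι x)) :
    ContMDiffAt (𝓡 (m + 1)) (𝓡 (m + 1)) 1 F x := by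
  have h1 : ContMDiffAt (𝓡 (m + 1)) (𝓡∂ (m + 1)) 1 (f ∘ ι) x :=
    ContMDiffAt.comp x h ((hιd x).contMDiffAt.of_le (by simp))
  have h3 := (hκd (F x)).localInverse_contMDiffAt
  have h4 : κ (F x) = (f ∘ ι) x := hF x
  rw [h4] at h3
  have h5 : ContMDiffAt (𝓡 (m + 1)) (𝓡 (m + 1)) 1 ((hκd (F x)).localInverse ∘ (f ∘ ι)) x :=
    ContMDiffAt.comp x (h3.of_le (by simp)) h1
  refine h5.congr_of_eventuallyEq ?_
  have hco : ContinuousAt (f ∘ ι) x := h1.continuousAt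
  have h6 : (f ∘ ι) x ∈ (hκd (F x)).localInverse.source := by
    rw [← h4]
    exact (hκd (F x)).localInverse_mem_source
  filter_upwards [hco ((hκd (F x)).localInverse.open_source.mem_nhds h6)] with y hy
  have h7 := (hκd (F x)).localInverse_right_inv hy
  apply hκ
  rw [hF]
  exact h7.symm

/-- the rank of the restriction -/
theorem rank_restr1 [IsManifold (𝓡∂ (m + 1)) ∞ M] [IsManifold (𝓡∂ (m + 1)) ∞ N]
    [IsManifold (𝓡 (m + 1)) ∞ X] [IsManifold (𝓡 (m + 1)) ∞ Y] (ι : X → M)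
    (hιd : ∀ x, IsLocalDiffeomorphAt (𝓡 (m + 1)) (𝓡∂ (m + 1)) ∞ ι x)
    (κ : Y → N) (hκ : Injective κ)
    (hκd : ∀ x, IsLocalDiffeomorphAt (𝓡 (m + 1)) (𝓡∂ (m + 1)) ∞ κ x)
    (f : M → N) (F : X → Y) (hF : ∀ x, κ (F x) = f (ι x)) {x : X}
    (h : ContMDiffAt (𝓡∂ (m + 1)) (𝓡∂ (m + 1)) 1 f (ι x)) :
    Module.finrank ℝ (LinearMap.range
      (mfderiv (𝓡 (m + 1)) (𝓡 (m + 1)) F x).toLinearMap) =
    Module.finrank ℝ (LinearMap.range
      (mfderiv (𝓡∂ (m + 1)) (𝓡∂ (m + 1)) f (ι x)).toLinearMap) := by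
  have hFs := c1_restr ι hιd κ hκ hκd f F hF h
  let Df : E (m + 1) →L[ℝ] E (m + 1) := mfderiv (𝓡∂ (m + 1)) (𝓡∂ (m + 1)) f (ι x)
  let DF : E (m + 1) →L[ℝ] E (m + 1) := mfderiv (𝓡 (m + 1)) (𝓡 (m + 1)) F x
  let Di : E (m + 1) →L[ℝ] E (m + 1) := mfderiv (𝓡 (m + 1)) (𝓡∂ (m + 1)) ι x
  let Dk : E (m + 1) →L[ℝ] E (m + 1) := mfderiv (𝓡 (m + 1)) (𝓡∂ (m + 1)) κ (F x)
  have hn : (∞ : WithTop ℕ∞) ≠ 0 := by simp
  have hn1 : (1 : WithTop ℕ∞) ≠ 0 := by simp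
  have hDi : Bijective Di := by
    have h1 := (hιd x).mfderivToContinuousLinearEquiv_coe hn
    change Bijective (mfderiv (𝓡 (m + 1)) (𝓡∂ (m + 1)) ι x)
    rw [← h1]
    exact ((hιd x).mfderivToContinuousLinearEquiv hn).bijective
  have hDk : Bijective Dk := by
    have h1 := (hκd (F x)).mfderivToContinuousLinearEquiv_coe hn
    change Bijective (mfderiv (𝓡 (m + 1)) (𝓡∂ (m + 1)) κ (F x))
    rw [← h1]
    exact ((hκd (F x)).mfderivToContinuousLinearEquiv hn).bijective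
  have c1 : HasMFDerivAt (𝓡 (m + 1)) (𝓡∂ (m + 1)) (f ∘ ι) x (Df ∘L Di) :=
    HasMFDerivAt.comp x (h.mdifferentiableAt hn1).hasMFDerivAt
      ((hιd x).contMDiffAt.mdifferentiableAt hn).hasMFDerivAt
  have c2 : HasMFDerivAt (𝓡 (m + 1)) (𝓡∂ (m + 1)) (κ ∘ F) x (Dk ∘L DF) :=
    HasMFDerivAt.comp x ((hκd (F x)).contMDiffAt.mdifferentiableAt hn).hasMFDerivAt
      (hFs.mdifferentiableAt hn1).hasMFDerivAt
  have e1 : κ ∘ F = f ∘ ι := funext hF
  rw [e1] at c2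
  have e2 : Dk ∘L DF = Df ∘L Di := hasMFDerivAt_unique c2 c1
  change Module.finrank ℝ (LinearMap.range DF.toLinearMap) =
    Module.finrank ℝ (LinearMap.range Df.toLinearMap)
  have e3 : LinearMap.range (Dk.toLinearMap ∘ₗ DF.toLinearMap) =
      LinearMap.range (Df.toLinearMap ∘ₗ Di.toLinearMap) := by
    have := congrArg (fun L : E (m + 1) →L[ℝ] E (m + 1) => LinearMap.range L.toLinearMap) e2
    exact this
  rw [LinearMap.range_comp, LinearMap.range_comp_of_range_eq_top _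
    (LinearMap.range_eq_top.2 hDi.2)] at e3
  rw [← e3]
  exact LinearEquiv.finrank_eq (Submodule.equivMapOfInjective Dk.toLinearMap hDk.1 _)

/-- the condition on the derivative for the restriction -/
theorem cp_restr [IsManifold (𝓡∂ (m + 1)) ∞ M] [IsManifold (𝓡∂ (m + 1)) ∞ N]
    [IsManifold (𝓡 (m + 1)) ∞ X] [IsManifold (𝓡 (m + 1)) ∞ Y] (ι : X → M)
    (hιd : ∀ x, IsLocalDiffeomorphAt (𝓡 (m + 1)) (𝓡∂ (m + 1)) ∞ ι x)
    (κ : Y → N) (hκ : Injective κ)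
    (hκd : ∀ x, IsLocalDiffeomorphAt (𝓡 (m + 1)) (𝓡∂ (m + 1)) ∞ κ x)
    (f : M → N) (F : X → Y) (hF : ∀ x, κ (F x) = f (ι x)) {x : X}
    (h : ContMDiffAt (𝓡∂ (m + 1)) (𝓡∂ (m + 1)) 1 f (ι x))
    (hr : m ≤ Module.finrank ℝ (LinearMap.range
      (mfderiv (𝓡∂ (m + 1)) (𝓡∂ (m + 1)) f (ι x)).toLinearMap)) :
    CP (n := m + 1) K1 F x := by
  have h1 := rank_restr1 ι hιd κ hκ hκd f F hF h
  have h2 : m + 1 ≤ Module.finrank ℝ (LinearMap.range
      (mfderiv (𝓡 (m + 1)) (𝓡 (m + 1)) F x).toLinearMap) + 1 := by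
    rw [h1]
    exact Nat.succ_le_succ hr
  exact ⟨c1_restr ι hιd κ hκ hκd f F hF h, K1_of_rank h2⟩

end restr

open Pool.Agent.Y522 Pool.Agent.Y833.SH Pool.Agent.Y674.SH Pool.Agent.R765
  Pool.Agent.R865.TB in
/-- Homeomorphisms of mixed type between manifolds with boundary, local diffeomorphisms at the
boundary points. -/
theorem mixedO (m : ℕ) (hm : 1 ≤ m) (M N : Type) [TopologicalSpace M] [TopologicalSpace N]
    [T2Space M] [CompactSpace M]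
    [ChartedSpace (EuclideanHalfSpace (m + 1)) M] [ChartedSpace (EuclideanHalfSpace (m + 1)) N]
    [IsManifold (𝓡∂ (m + 1)) ∞ M] [IsManifold (𝓡∂ (m + 1)) ∞ N]
    (f : M ≃ₜ N) (hfi : ∀ x, x ∈ (𝓡∂ (m + 1)).interior M ↔ f x ∈ (𝓡∂ (m + 1)).interior N)
    (hb : ∀ x ∉ (𝓡∂ (m + 1)).interior M,
      IsLocalDiffeomorphAt (𝓡∂ (m + 1)) (𝓡∂ (m + 1)) ∞ f x)
    (hc : ∀ x ∈ (𝓡∂ (m + 1)).interior M,
      (IsLocalDiffeomorphAt (𝓡∂ (m + 1)) (𝓡∂ (m + 1)) ∞ f x ∨ CMonB m f x) ∨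
      (ContMDiffAt (𝓡∂ (m + 1)) (𝓡∂ (m + 1)) 1 f x ∧ m ≤ Module.finrank ℝ (LinearMap.range
        (mfderiv (𝓡∂ (m + 1)) (𝓡∂ (m + 1)) f x).toLinearMap)) ∨
      (ContMDiffAt (𝓡∂ (m + 1)) (𝓡∂ (m + 1)) 1 f.symm (f x) ∧
        m ≤ Module.finrank ℝ (LinearMap.range
        (mfderiv (𝓡∂ (m + 1)) (𝓡∂ (m + 1)) f.symm (f x)).toLinearMap)))
    (O : Set (M × N)) (hO : IsOpen O) (hfO : ∀ x, (x, f x) ∈ O) :
    ∃ Φ : Diffeomorph (𝓡∂ (m + 1)) (𝓡∂ (m + 1)) M N ∞, ∀ x, (x, Φ x) ∈ O := by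
  let := csI (M := M) (𝓡∂ (m + 1))
  have := mfI (M := M) (𝓡∂ (m + 1))
  let := csI (M := N) (𝓡∂ (m + 1))
  have := mfI (M := N) (𝓡∂ (m + 1))
  let X := (𝓡∂ (m + 1)).interior M
  let Y := (𝓡∂ (m + 1)).interior N
  let ι : X → M := Subtype.val
  let κ : Y → N := Subtype.val
  have hι : Injective ι := Subtype.val_injective
  have hκ : Injective κ := Subtype.val_injective
  have hιr : range ι = (𝓡∂ (m + 1)).interior M := Subtype.range_val
  have hκr : range κ = (𝓡∂ (m + 1)).interior N := Subtype.range_val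
  have hιd : ∀ x : X, IsLocalDiffeomorphAt (𝓡 (m + 1)) (𝓡∂ (m + 1)) ∞ ι x :=
    fun x => ldiff_val (𝓡∂ (m + 1)) x
  have hκd : ∀ x : Y, IsLocalDiffeomorphAt (𝓡 (m + 1)) (𝓡∂ (m + 1)) ∞ κ x :=
    fun x => ldiff_val (𝓡∂ (m + 1)) x
  have hιm : ∀ x : X, ι x ∈ (𝓡∂ (m + 1)).interior M := fun x => x.2
  obtain ⟨F, hF⟩ := exists_restr ι hι hιr hιd κ hκ hκr hκd f hfi
  have hK := bad_compact ι hι hιr hιd κ hκ hκd f F hF hb
  have hX2 : T2Space X := inferInstance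
  have hcm : ∀ x, (LD (m + 1) F x ∨ CMon (m + 1) F x) ∨
      (CP (n := m + 1) K1 F x ∨ CP (n := m + 1) K1 F.symm (F x)) := by
    intro x
    rcases hc (ι x) (hιm x) with (h | ⟨A, B, hA0, hAd, hBd, hm⟩) | ⟨h, hr⟩ | ⟨h, hr⟩
    · exact Or.inl (Or.inl (ld_restr ι hιd κ hκ hκd f F hF h))
    · left; right
      have ha := (hιd x).localInverse_isLocalDiffeomorphAt
      have hax : (hιd x).localInverse (ι x) = x :=
        (hιd x).localInverse_left_inv (hιd x).localInverse_mem_target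
      have hA' : LD (m + 1) ((hιd x).localInverse ∘ A) 0 := by
        rw [← hA0] at ha
        exact IsLocalDiffeomorphAt.comp (𝓡 (m + 1)) X hAd ha
      have hev : ∀ᶠ z in 𝓝 (0 : E (m + 1)), ι ((hιd x).localInverse (A z)) = A z := by
        have h1 : A 0 ∈ (hιd x).localInverse.source := by
          rw [hA0]
          exact (hιd x).localInverse_mem_source
        filter_upwards [hAd.contMDiffAt.continuousAt
          ((hιd x).localInverse.open_source.mem_nhds h1)] with z hz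
        exact (hιd x).localInverse_right_inv hz
      obtain ⟨δ, hδ, hδe⟩ := Metric.eventually_nhds_iff_ball.1 hev
      have hB' : LD (m + 1) (B ∘ κ) (F x) := by
        have h2 : IsLocalDiffeomorphAt (𝓡∂ (m + 1)) (𝓡 (m + 1)) ∞ B (κ (F x)) := by
          rw [hF]
          exact hBd
        exact IsLocalDiffeomorphAt.comp (𝓡 (m + 1)) (E (m + 1)) (hκd (F x)) h2
      refine ⟨B ∘ κ, hB', (hιd x).localInverse ∘ A, ?_, hA', ?_⟩
      · rw [comp_apply, hA0, hax]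
      · intro v hv
        obtain ⟨r, ℓ, hr, hℓ⟩ := hm v hv
        refine ⟨min r (δ / 2), ℓ, lt_min hr (by linarith), ?_⟩
        intro p q hp hq t ht hpq
        have e1 : ∀ z : E (m + 1), ‖z‖ ≤ min r (δ / 2) →
            (B ∘ κ) (F (((hιd x).localInverse ∘ A) z)) = B (f (A z)) := by
          intro z hz
          rw [comp_apply, hF, comp_apply, hδe z]
          rw [mem_ball_zero_iff]
          have := hz.trans (min_le_right _ _)
          linarith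
        beta_reduce
        rw [e1 p hp, e1 q hq]
        refine lt_of_le_of_lt (mul_le_mul_of_nonneg_right (min_le_left _ _) (norm_nonneg _)) ?_
        refine hℓ p q (hp.trans (min_le_left _ _)) (hq.trans (min_le_left _ _)) t ht (hpq.trans ?_)
        exact mul_le_mul_of_nonneg_right (min_le_left _ _) ht.le
    · right; left
      exact cp_restr ι hιd κ hκ hκd f F hF h hr
    · right; right
      have hF' : ∀ y, ι (F.symm y) = f.symm (κ y) := by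
        intro y
        apply f.injective
        rw [f.apply_symm_apply, ← hF, F.apply_symm_apply]
      have h1 : κ (F x) = f (ι x) := hF x
      refine cp_restr κ hκd ι hι hιd f.symm F.symm hF' (x := F x) ?_ ?_
      · rw [h1]; exact h
      · rw [h1]; exact hr
  obtain ⟨O', hO', hFO', hsub⟩ := restr_open ι hιd κ hκd f F hF O hO hfO
  obtain ⟨F', C, hC, hb', hd', hgr, hF'⟩ := mixed (n := m + 1) (by omega) F hcm hK hO' hFO'
  obtain ⟨Φ, hΦ1, hΦ2⟩ := glueO ι hι hιr hιd κ hκ hκr hκd f hfi hb F' C hC hb'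
    (fun x hx => by rw [hF' x hx, hF]) hd'
  exact ⟨Φ, graph_glue ι κ f F' Φ hΦ1 hΦ2 O hfO fun x => hsub _ (hgr x)⟩

/-- Homeomorphisms of mixed type between closed manifolds. -/
theorem mixedClosed (hn : 2 ≤ n) (X Y : Type) [TopologicalSpace X] [T2Space X] [CompactSpace X]
    [ChartedSpace (E n) X] [IsManifold (𝓡 n) ∞ X] [TopologicalSpace Y]
    [ChartedSpace (E n) Y] [IsManifold (𝓡 n) ∞ Y]
    (f : X ≃ₜ Y) (hf : ∀ x, (LD n f x ∨ CMon n f x) ∨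
      ((ContMDiffAt (𝓡 n) (𝓡 n) 1 f x ∧ n ≤ Module.finrank ℝ (LinearMap.range
        (mfderiv (𝓡 n) (𝓡 n) f x).toLinearMap) + 1) ∨
      (ContMDiffAt (𝓡 n) (𝓡 n) 1 f.symm (f x) ∧ n ≤ Module.finrank ℝ (LinearMap.range
        (mfderiv (𝓡 n) (𝓡 n) f.symm (f x)).toLinearMap) + 1)))
    (O : Set (X × Y)) (hO : IsOpen O) (hfO : ∀ x, (x, f x) ∈ O) :
    ∃ Φ : Diffeomorph (𝓡 n) (𝓡 n) X Y ∞, ∀ x, (x, Φ x) ∈ O := by
  obtain ⟨F, C, -, hb, hd, hg, -⟩ := mixed hn f (fun x => by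
    rcases hf x with h | ⟨h, hr⟩ | ⟨h, hr⟩
    · exact Or.inl h
    · exact Or.inr (Or.inl ⟨h, K1_of_rank hr⟩)
    · exact Or.inr (Or.inr ⟨h, K1_of_rank hr⟩)) (isClosed_bad _).isCompact hO hfO
  have hl : IsLocalDiffeomorph (𝓡 n) (𝓡 n) ∞ F := hd
  exact ⟨hl.diffeomorphOfBijective hb, hg⟩

end Run7.h7
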