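import Mathlib
import Pool.Agent.Run7.h7.Defs

/-!
Definitions: the cubic cone over a map of the sphere, and extension of a diffeomorphism of the
sphere to the whole space.
-/

open Filter Set Metric
open scoped Topology ContDiff Manifold

namespace Run7.h7

variable {m : ℕ}

/-- The unit sphere of dimension `m`. -/
abbrev Sph (m : ℕ) := sphere (0 : E (m + 1)) 1

lemma inv_norm_smul_mem {x : E (m + 1)} (hx : x ≠ 0) : ‖x‖⁻¹ • x ∈ sphere (0 : E (m + 1)) 1 := by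
  rw [mem_sphere_zero_iff_norm, norm_smul, norm_inv, norm_norm,
    inv_mul_cancel₀ (norm_ne_zero_iff.2 hx)]

/-- The point `x / ‖x‖` of the unit sphere, for `x ≠ 0`. -/
noncomputable def radPt {x : E (m + 1)} (hx : x ≠ 0) : Sph m :=
  ⟨‖x‖⁻¹ • x, inv_norm_smul_mem hx⟩

open Classical in
/-- `φ (x / ‖x‖)`, and `0` at the origin. -/
noncomputable def sphDir (φ : Sph m → Sph m) (x : E (m + 1)) : E (m + 1) :=
  if h : x = 0 then 0 else φ (radPt h)

/-- `φ` is a smooth map of the unit sphere to itself. -/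
def SmoothSph (φ : Sph m → Sph m) : Prop := ContMDiff (𝓡 m) (𝓡 m) ∞ φ

/-- `φ` is a smooth diffeomorphism of the unit sphere. -/
def IsSphDiffeo (φ : Sph m → Sph m) : Prop :=
  SmoothSph φ ∧ ∃ ψ : Sph m → Sph m, SmoothSph ψ ∧ (∀ u, ψ (φ u) = u) ∧ ∀ u, φ (ψ u) = u

/-- The cubic cone `‖x‖ ^ 3 • φ (x / ‖x‖)` over `φ`. -/
noncomputable def coneMap (φ : Sph m → Sph m) (x : E (m + 1)) : E (m + 1) :=
  ‖x‖ ^ 3 • sphDir φ x

/-- `φ` extends to a smooth diffeomorphism of the whole space, which is the radial extension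
`‖x‖ • φ (x / ‖x‖)` of `φ` outside the open unit ball. -/
def ExtendsToDiffeo (φ : Sph m → Sph m) : Prop :=
  ∃ Φ Ψ : E (m + 1) → E (m + 1), IsSmoothOn univ Φ ∧ IsSmoothOn univ Ψ ∧ (∀ x, Ψ (Φ x) = x) ∧
    (∀ y, Φ (Ψ y) = y) ∧ ∀ x, 1 ≤ ‖x‖ → Φ x = ‖x‖ • sphDir φ x

end Run7.h7
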