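import Mathlib
import Pool.Agent.Run7.h7.Defs
import Pool.Agent.Run7.h7.Basic

/-!
Positively homogeneous maps, smooth away from the origin.
-/

open MeasureTheory Filter Set Metric
open scoped Topology ContDiff

namespace Run7.h7

variable {n : ℕ}

lemma homog_bound {F : Type*} [NormedAddCommGroup F] [NormedSpace ℝ F] {h : E n → F} {k : ℕ}
    (hc : ContinuousOn h ({0}ᶜ : Set (E n)))
    (hh : ∀ t : ℝ, 0 < t → ∀ x, h (t • x) = t ^ (k + 1) • h x) (h0 : h 0 = 0) :
    ∃ C : ℝ, 0 ≤ C ∧ ∀ x, ‖h x‖ ≤ C * ‖x‖ ^ (k + 1) := by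
  have hS : ContinuousOn h (sphere (0 : E n) 1) := hc.mono (by
    intro x hx
    rw [mem_compl_iff, mem_singleton_iff]
    rintro rfl
    simp at hx)
  obtain ⟨C, hC⟩ := (isCompact_sphere (0 : E n) 1).exists_bound_of_continuousOn hS
  refine ⟨max C 0, le_max_right _ _, fun x => ?_⟩
  by_cases hx : x = 0
  · subst hx; simp [h0]
  · have hx' : 0 < ‖x‖ := norm_pos_iff.2 hx
    have e : x = ‖x‖ • (‖x‖⁻¹ • x) := by
      rw [smul_smul, mul_inv_cancel₀ hx'.ne', one_smul]
    have hm : ‖x‖⁻¹ • x ∈ sphere (0 : E n) 1 := by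
      rw [mem_sphere_zero_iff_norm, norm_smul, norm_inv, norm_norm, inv_mul_cancel₀ hx'.ne']
    calc ‖h x‖ = ‖h (‖x‖ • (‖x‖⁻¹ • x))‖ := by rw [← e]
      _ = ‖x‖ ^ (k + 1) * ‖h (‖x‖⁻¹ • x)‖ := by
          rw [hh _ hx', norm_smul, norm_pow, norm_norm]
      _ ≤ ‖x‖ ^ (k + 1) * max C 0 := by
          gcongr
          exact (hC _ hm).trans (le_max_left _ _)
      _ = _ := mul_comm _ _

theorem contDiff_of_homog {F : Type*} [NormedAddCommGroup F] [NormedSpace ℝ F] (k : ℕ)
    {h : E n → F} (hs : ContDiffOn ℝ ∞ h ({0}ᶜ : Set (E n)))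
    (hh : ∀ t : ℝ, 0 < t → ∀ x, h (t • x) = t ^ (k + 1) • h x) (h0 : h 0 = 0) :
    ContDiff ℝ k h := by
  induction k generalizing F with
  | zero =>
    rw [Nat.cast_zero, contDiff_zero, continuous_iff_continuousAt]
    intro x
    by_cases hx : x = 0
    · subst hx
      obtain ⟨C, hC0, hC⟩ := homog_bound hs.continuousOn hh h0
      rw [ContinuousAt, h0, tendsto_zero_iff_norm_tendsto_zero]
      have : Tendsto (fun x : E n => C * ‖x‖ ^ (0 + 1)) (𝓝 0) (𝓝 0) := by
        have : Continuous (fun x : E n => C * ‖x‖ ^ (0 + 1)) := by fun_prop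
        simpa using this.tendsto 0
      exact squeeze_zero (fun x => norm_nonneg _) hC this
    · exact hs.continuousOn.continuousAt (isOpen_compl_singleton.mem_nhds hx)
  | succ k ih =>
    obtain ⟨C, hC0, hC⟩ := homog_bound hs.continuousOn hh h0
    have hd0 : HasFDerivAt h (0 : E n →L[ℝ] F) 0 := by
      rw [hasFDerivAt_iff_isLittleO_nhds_zero]
      simp only [zero_add, h0, sub_zero, zero_apply]
      have h1 : h =O[𝓝 0] fun x : E n => ‖x‖ ^ (k + 1 + 1) := by
        apply Asymptotics.IsBigO.of_bound C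
        filter_upwards with x
        have := hC x
        rwa [norm_pow, norm_norm]
      refine h1.trans_isLittleO ?_
      have : (fun x : E n => ‖x‖ ^ (k + 1 + 1)) =o[𝓝 0] fun x => ‖x‖ ^ 1 :=
        Asymptotics.isLittleO_norm_pow_norm_pow (by omega)
      simp only [pow_one] at this
      exact Asymptotics.isLittleO_norm_right.1 this
    have hdiff : Differentiable ℝ h := by
      intro x
      by_cases hx : x = 0
      · subst hx; exact hd0.differentiableAt
      · exact (hs.contDiffAt (isOpen_compl_singleton.mem_nhds hx)).differentiableAt (by simp)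
    have hf0 : fderiv ℝ h 0 = 0 := hd0.fderiv
    have hs' : ContDiffOn ℝ ∞ (fderiv ℝ h) ({0}ᶜ : Set (E n)) :=
      hs.fderiv_of_isOpen isOpen_compl_singleton (by simp)
    have hh' : ∀ t : ℝ, 0 < t → ∀ x, fderiv ℝ h (t • x) = t ^ (k + 1) • fderiv ℝ h x := by
      intro t ht x
      have h1 : HasFDerivAt (fun y : E n => h (t • y))
          ((fderiv ℝ h (t • x)).comp (t • ContinuousLinearMap.id ℝ (E n))) x := by
        have h3 : HasFDerivAt (fun y : E n => t • y) (t • ContinuousLinearMap.id ℝ (E n)) x :=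
          (hasFDerivAt_id x).const_smul t
        exact (hdiff (t • x)).hasFDerivAt.comp x h3
      have h2 : HasFDerivAt (fun y : E n => h (t • y)) (t ^ (k + 1 + 1) • fderiv ℝ h x) x := by
        have : (fun y : E n => h (t • y)) = fun y => t ^ (k + 1 + 1) • h y := by
          ext1 y; exact hh t ht y
        rw [this]
        exact (hdiff x).hasFDerivAt.const_smul _
      have h3 := h1.unique h2
      have h4 : t • fderiv ℝ h (t • x) = t ^ (k + 1 + 1) • fderiv ℝ h x := by
        rw [← h3]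
        ext v
        simp
      have h5 : fderiv ℝ h (t • x) = t⁻¹ • (t ^ (k + 1 + 1) • fderiv ℝ h x) := by
        rw [← h4, smul_smul, inv_mul_cancel₀ ht.ne', one_smul]
      rw [h5, smul_smul]
      congr 1
      field_simp
      ring
    have := ih hs' hh' hf0
    rw [Nat.cast_succ, contDiff_succ_iff_fderiv]
    exact ⟨hdiff, by simp, this⟩

end Run7.h7
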