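import Mathlib
import Pool.Agent.Run7.h7.Defs
import Pool.Agent.Run7.h7.Basic
import Pool.Agent.Run7.h7.Homog
import Pool.Agent.Run7.h7.ConeDefs

/-!
The cone over a diffeomorphism of the sphere.
-/

open MeasureTheory Filter Set Metric
open scoped Topology ContDiff Manifold

namespace Run7.h7

variable {m : ℕ}

lemma sphDir_zero (φ : Sph m → Sph m) : sphDir φ 0 = 0 := by simp [sphDir]

lemma sphDir_of_ne (φ : Sph m → Sph m) {x : E (m + 1)} (hx : x ≠ 0) :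
    sphDir φ x = (φ ⟨‖x‖⁻¹ • x, inv_norm_smul_mem hx⟩ : E (m + 1)) := by
  simp [sphDir, radPt, hx]

lemma norm_sphDir (φ : Sph m → Sph m) {x : E (m + 1)} (hx : x ≠ 0) : ‖sphDir φ x‖ = 1 := by
  rw [sphDir_of_ne φ hx]
  exact mem_sphere_zero_iff_norm.1 (φ _).2

lemma sphDir_smul (φ : Sph m → Sph m) {t : ℝ} (ht : 0 < t) (x : E (m + 1)) :
    sphDir φ (t • x) = sphDir φ x := by
  by_cases hx : x = 0
  · subst hx; simp
  · have htx : t • x ≠ 0 := smul_ne_zero ht.ne' hx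
    rw [sphDir_of_ne φ hx, sphDir_of_ne φ htx]
    congr 3
    rw [norm_smul, Real.norm_of_nonneg ht.le, mul_inv, smul_smul]
    congr 1
    field_simp

lemma sphDir_coe (φ : Sph m → Sph m) (u : Sph m) : sphDir φ (u : E (m + 1)) = φ u := by
  have hu : ‖(u : E (m + 1))‖ = 1 := mem_sphere_zero_iff_norm.1 u.2
  have hu0 : (u : E (m + 1)) ≠ 0 := by
    intro h; rw [h] at hu; simp at hu
  rw [sphDir_of_ne φ hu0]
  congr 2
  apply Subtype.ext
  simp [hu]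

lemma sphDir_smul_coe (φ : Sph m → Sph m) {t : ℝ} (ht : 0 < t) (u : Sph m) :
    sphDir φ (t • (u : E (m + 1))) = φ u := by
  rw [sphDir_smul φ ht, sphDir_coe]

lemma sphDir_contDiffOn {φ : Sph m → Sph m} (hφ : ContMDiff (𝓡 m) (𝓡 m) ∞ φ) :
    ContDiffOn ℝ ∞ (sphDir φ) ({0}ᶜ : Set (E (m + 1))) := by
  haveI : Fact (Module.finrank ℝ (E (m + 1)) = m + 1) := ⟨finrank_euclideanSpace_fin⟩
  let U : TopologicalSpace.Opens (E (m + 1)) := ⟨{0}ᶜ, isOpen_compl_singleton⟩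
  have hU : ∀ x : U, (x : E (m + 1)) ≠ 0 := fun x => x.2
  have h1 : ContMDiff 𝓘(ℝ, E (m + 1)) 𝓘(ℝ, E (m + 1)) ∞
      (fun x : U => ‖(x : E (m + 1))‖⁻¹ • (x : E (m + 1))) := by
    intro x
    have : ContDiffAt ℝ ∞ (fun x : E (m + 1) => ‖x‖⁻¹ • x) x := by
      have hn : ContDiffAt ℝ ∞ (fun x : E (m + 1) => ‖x‖) (x : E (m + 1)) :=
        contDiffAt_norm ℝ (hU x)
      exact (hn.inv (norm_ne_zero_iff.2 (hU x))).smul contDiffAt_id
    exact contMDiffAt_subtype_iff (f := fun x : E (m + 1) => ‖x‖⁻¹ • x) |>.2 this.contMDiffAt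
  have h2 : ContMDiff 𝓘(ℝ, E (m + 1)) (𝓡 m) ∞
      (Set.codRestrict (fun x : U => ‖(x : E (m + 1))‖⁻¹ • (x : E (m + 1)))
        (sphere (0 : E (m + 1)) 1) (fun x => inv_norm_smul_mem (hU x))) :=
    h1.codRestrict_sphere _
  have h3 : ContMDiff (𝓡 m) 𝓘(ℝ, E (m + 1)) ∞ ((↑) : sphere (0 : E (m + 1)) 1 → E (m + 1)) :=
    contMDiff_coe_sphere
  have h4 := h3.comp (hφ.comp h2)
  intro x hx
  have h5 : ContMDiffAt 𝓘(ℝ, E (m + 1)) 𝓘(ℝ, E (m + 1)) ∞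
      (fun x : U => sphDir φ (x : E (m + 1))) ⟨x, hx⟩ := by
    have := h4 ⟨x, hx⟩
    refine this.congr_of_eventuallyEq (Eventually.of_forall fun y => ?_)
    simp only [Function.comp]
    rw [sphDir_of_ne φ (hU y)]
    rfl
  have h6 := contMDiffAt_subtype_iff (f := sphDir φ) |>.1 h5
  exact h6.contDiffAt.contDiffWithinAt

end Run7.h7
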