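import Mathlib
import Pool.Agent.Run7.h7.Defs
import Pool.Agent.Run7.h7.Basic
import Pool.Agent.Run7.h7.Homog
import Pool.Agent.Run7.h7.Cone

/-!
Cones of any positive degree over diffeomorphisms of the sphere.
-/

open MeasureTheory Filter Set Metric
open scoped Topology ContDiff Manifold

namespace Run7.h7

variable {m : ℕ}

/-- The cone `‖x‖ ^ a • φ (x / ‖x‖)`. -/
noncomputable def rcone (a : ℝ) (φ : Sph m → Sph m) (x : E (m + 1)) : E (m + 1) :=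
  ‖x‖ ^ a • sphDir φ x

lemma coneMap_eq_rcone (φ : Sph m → Sph m) : coneMap φ = rcone 3 φ := by
  ext1 x
  unfold coneMap rcone
  rw [← Real.rpow_natCast]
  norm_num

lemma rcone_one (φ : Sph m → Sph m) (x : E (m + 1)) : rcone 1 φ x = ‖x‖ • sphDir φ x := by
  unfold rcone
  rw [Real.rpow_one]

lemma rcone_zero (a : ℝ) (φ : Sph m → Sph m) : rcone a φ 0 = 0 := by
  unfold rcone; rw [sphDir_zero, smul_zero]

lemma norm_rcone {a : ℝ} (ha : a ≠ 0) (φ : Sph m → Sph m) (x : E (m + 1)) :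
    ‖rcone a φ x‖ = ‖x‖ ^ a := by
  by_cases hx : x = 0
  · subst hx
    rw [rcone_zero, norm_zero, Real.zero_rpow ha]
  · unfold rcone
    rw [norm_smul, norm_sphDir φ hx, mul_one, Real.norm_of_nonneg (by positivity)]

lemma sphDir_rcone (a : ℝ) {φ ψ : Sph m → Sph m} {x : E (m + 1)} (hx : x ≠ 0) :
    sphDir ψ (rcone a φ x) = ψ (φ ⟨‖x‖⁻¹ • x, inv_norm_smul_mem hx⟩) := by
  unfold rcone
  rw [sphDir_of_ne φ hx, sphDir_smul_coe]
  have : 0 < ‖x‖ := norm_pos_iff.2 hx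
  positivity

lemma rcone_rcone {a b : ℝ} (hab : a * b = 1) {φ ψ : Sph m → Sph m} (h : ∀ u, ψ (φ u) = u)
    (x : E (m + 1)) : rcone b ψ (rcone a φ x) = x := by
  by_cases hx : x = 0
  · subst hx; rw [rcone_zero, rcone_zero]
  · have ha : a ≠ 0 := by rintro rfl; simp at hab
    have hx' : 0 < ‖x‖ := norm_pos_iff.2 hx
    have e : rcone b ψ (rcone a φ x) = ‖rcone a φ x‖ ^ b • sphDir ψ (rcone a φ x) := rfl
    rw [e, sphDir_rcone a hx, h, norm_rcone ha, ← Real.rpow_mul hx'.le, hab, Real.rpow_one,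
      smul_smul, mul_inv_cancel₀ hx'.ne', one_smul]

lemma rcone_contDiffOn (a : ℝ) {φ : Sph m → Sph m} (hφ : ContMDiff (𝓡 m) (𝓡 m) ∞ φ) :
    ContDiffOn ℝ ∞ (rcone a φ) ({0}ᶜ : Set (E (m + 1))) := by
  have h1 : ContDiffOn ℝ ∞ (fun x : E (m + 1) => ‖x‖ ^ a) ({0}ᶜ : Set (E (m + 1))) := by
    intro x hx
    have hx' : x ≠ 0 := hx
    exact ((contDiffAt_norm ℝ hx').rpow_const_of_ne (norm_ne_zero_iff.2 hx')).contDiffWithinAt
  exact h1.smul (sphDir_contDiffOn hφ)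

lemma rcone_ne_zero {a : ℝ} (ha : a ≠ 0) (φ : Sph m → Sph m) {x : E (m + 1)} (hx : x ≠ 0) :
    rcone a φ x ≠ 0 := by
  rw [← norm_ne_zero_iff, norm_rcone ha]
  have : 0 < ‖x‖ := norm_pos_iff.2 hx
  positivity

lemma rcone_fderiv_leftInv {a : ℝ} (ha : a ≠ 0) {φ ψ : Sph m → Sph m}
    (hφ : ContMDiff (𝓡 m) (𝓡 m) ∞ φ) (hψ : ContMDiff (𝓡 m) (𝓡 m) ∞ ψ) (h : ∀ u, ψ (φ u) = u)
    {x : E (m + 1)} (hx : x ≠ 0) (v : E (m + 1)) :
    fderiv ℝ (rcone a⁻¹ ψ) (rcone a φ x) (fderiv ℝ (rcone a φ) x v) = v := by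
  have h1 : DifferentiableAt ℝ (rcone a φ) x :=
    ((rcone_contDiffOn a hφ).contDiffAt (isOpen_compl_singleton.mem_nhds hx)).differentiableAt
      (by simp)
  have hy : rcone a φ x ≠ 0 := rcone_ne_zero ha φ hx
  have h2 : DifferentiableAt ℝ (rcone a⁻¹ ψ) (rcone a φ x) :=
    ((rcone_contDiffOn a⁻¹ hψ).contDiffAt (isOpen_compl_singleton.mem_nhds hy)).differentiableAt
      (by simp)
  have h3 := h2.hasFDerivAt.comp x h1.hasFDerivAt
  have h4 : rcone a⁻¹ ψ ∘ rcone a φ = id := by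
    ext1 y
    exact rcone_rcone (mul_inv_cancel₀ ha) h y
  rw [h4] at h3
  have h5 := h3.unique (hasFDerivAt_id x)
  simpa using congrArg (fun L : E (m + 1) →L[ℝ] E (m + 1) => L v) h5

lemma rcone_fderiv_inj {a : ℝ} (ha : a ≠ 0) {φ ψ : Sph m → Sph m}
    (hφ : ContMDiff (𝓡 m) (𝓡 m) ∞ φ) (hψ : ContMDiff (𝓡 m) (𝓡 m) ∞ ψ) (h : ∀ u, ψ (φ u) = u)
    {x : E (m + 1)} (hx : x ≠ 0) : Function.Injective (fderiv ℝ (rcone a φ) x) := by
  intro v w hvw
  rw [← rcone_fderiv_leftInv ha hφ hψ h hx v, ← rcone_fderiv_leftInv ha hφ hψ h hx w, hvw]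

lemma coneMap_smul (φ : Sph m → Sph m) {t : ℝ} (ht : 0 < t) (x : E (m + 1)) :
    coneMap φ (t • x) = t ^ 3 • coneMap φ x := by
  unfold coneMap
  rw [sphDir_smul φ ht, norm_smul, Real.norm_of_nonneg ht.le, mul_pow, smul_smul]

lemma coneMap_contDiffOn {φ : Sph m → Sph m} (hφ : ContMDiff (𝓡 m) (𝓡 m) ∞ φ) :
    ContDiffOn ℝ ∞ (coneMap φ) ({0}ᶜ : Set (E (m + 1))) := by
  rw [coneMap_eq_rcone]; exact rcone_contDiffOn 3 hφ

lemma coneMap_contDiff {φ : Sph m → Sph m} (hφ : ContMDiff (𝓡 m) (𝓡 m) ∞ φ) :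
    ContDiff ℝ 2 (coneMap φ) := by
  have := contDiff_of_homog (F := E (m + 1)) 2 (h := coneMap φ) (coneMap_contDiffOn hφ)
    (fun t ht x => by rw [coneMap_smul φ ht]) (by rw [coneMap_eq_rcone, rcone_zero])
  exact_mod_cast this

lemma norm_coneMap (φ : Sph m → Sph m) (x : E (m + 1)) : ‖coneMap φ x‖ = ‖x‖ ^ 3 := by
  rw [coneMap_eq_rcone, norm_rcone (by norm_num), ← Real.rpow_natCast]
  norm_num

lemma rcone_continuous {a : ℝ} (ha : 0 < a) {φ : Sph m → Sph m}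
    (hφ : ContMDiff (𝓡 m) (𝓡 m) ∞ φ) : Continuous (rcone a φ) := by
  rw [continuous_iff_continuousAt]
  intro x
  by_cases hx : x = 0
  · subst hx
    rw [ContinuousAt, rcone_zero, tendsto_zero_iff_norm_tendsto_zero]
    simp only [norm_rcone ha.ne']
    have : Continuous (fun x : E (m + 1) => ‖x‖ ^ a) :=
      continuous_norm.rpow_const (fun _ => Or.inr ha.le)
    have h2 := this.tendsto 0
    simpa [Real.zero_rpow ha.ne'] using h2
  · exact ((rcone_contDiffOn a hφ).contDiffAt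
      (isOpen_compl_singleton.mem_nhds hx)).continuousAt

/-- the cone map over a diffeomorphism is a homeomorphism on every open set. -/
lemma coneMap_isHomeoOn {φ ψ : Sph m → Sph m} (hφ : ContMDiff (𝓡 m) (𝓡 m) ∞ φ)
    (hψ : ContMDiff (𝓡 m) (𝓡 m) ∞ ψ) (h : ∀ u, ψ (φ u) = u) (h' : ∀ u, φ (ψ u) = u)
    {Ω : Set (E (m + 1))} (hΩ : IsOpen Ω) : IsHomeoOn Ω (coneMap φ) := by
  have hc : Continuous (rcone (1 / 3) ψ) := rcone_continuous (by norm_num) hψ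
  have e1 : ∀ x, rcone (1 / 3) ψ (coneMap φ x) = x := fun x => by
    rw [coneMap_eq_rcone]; exact rcone_rcone (by norm_num) h x
  have e2 : ∀ y, coneMap φ (rcone (1 / 3) ψ y) = y := fun y => by
    rw [coneMap_eq_rcone]; exact rcone_rcone (by norm_num) h' y
  refine ⟨(coneMap_contDiff hφ).continuous.continuousOn, ?_, rcone (1 / 3) ψ, hc.continuousOn,
    fun x _ => e1 x⟩
  have : coneMap φ '' Ω = rcone (1 / 3) ψ ⁻¹' Ω := by
    ext y
    constructor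
    · rintro ⟨x, hx, rfl⟩
      rw [mem_preimage, e1]
      exact hx
    · intro hy
      exact ⟨rcone (1 / 3) ψ y, hy, e2 y⟩
  rw [this]
  exact hΩ.preimage hc

end Run7.h7
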