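import Mathlib
import Pool.Agent.Run7.h7.Defs
import Pool.Agent.Run7.h7.Basic
import Pool.Agent.Run7.h7.Global

/-!
A smooth radial diffeomorphism which is the radial cube root outside a ball.
-/

open MeasureTheory Filter Set Metric
open scoped Topology ContDiff

namespace Run7.h7

variable {n : ℕ}

/-- the weight `s + κ (s0 - s)`. -/
noncomputable def radW (s0 s : ℝ) : ℝ := s + expNegInvGlue (s0 - s)

lemma radW_pos {s0 s : ℝ} (hs0 : 0 < s0) (hs : 0 ≤ s) : 0 < radW s0 s := by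
  unfold radW
  rcases lt_or_ge s s0 with h | h
  · have := expNegInvGlue.pos_of_pos (sub_pos.2 h); linarith
  · have := expNegInvGlue.nonneg (s0 - s); linarith

lemma le_radW (s0 s : ℝ) : s ≤ radW s0 s := by
  unfold radW
  have := expNegInvGlue.nonneg (s0 - s); linarith

lemma radW_of_ge {s0 s : ℝ} (hs : s0 ≤ s) : radW s0 s = s := by
  unfold radW
  rw [expNegInvGlue.zero_of_nonpos (by linarith), add_zero]

lemma radW_contDiff (s0 : ℝ) : ContDiff ℝ ∞ (radW s0) := by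
  unfold radW
  exact contDiff_id.add ((expNegInvGlue.contDiff (n := ⊤)).comp (contDiff_const.sub contDiff_id))

lemma radW_deriv_le (s0 s : ℝ) : deriv (radW s0) s ≤ 1 := by
  have h1 : HasDerivAt expNegInvGlue (deriv expNegInvGlue (s0 - s)) (s0 - s) :=
    ((expNegInvGlue.contDiff (n := 1)).differentiable (by simp) _).hasDerivAt
  have h2 : HasDerivAt (radW s0) (1 + deriv expNegInvGlue (s0 - s) * (-1)) s := by
    have := (hasDerivAt_id s).add (h1.comp s ((hasDerivAt_id s).const_sub s0))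
    exact this
  rw [h2.deriv]
  have : 0 ≤ deriv expNegInvGlue (s0 - s) := expNegInvGlue.monotone.deriv_nonneg
  linarith

/-- the radial map. -/
noncomputable def Qmap (n : ℕ) (s0 : ℝ) (z : E n) : E n :=
  (radW s0 (‖z‖ ^ 2)) ^ (-(1 / 3 : ℝ)) • z

lemma Qmap_contDiff {s0 : ℝ} (hs0 : 0 < s0) : ContDiff ℝ ∞ (Qmap n s0) := by
  unfold Qmap
  have h1 : ContDiff ℝ ∞ (fun z : E n => radW s0 (‖z‖ ^ 2)) :=
    (radW_contDiff s0).comp (contDiff_norm_sq ℝ)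
  exact (h1.rpow_const_of_ne (fun x => (radW_pos hs0 (by positivity)).ne')).smul contDiff_id

lemma Qmap_fderiv_inj {s0 : ℝ} (hs0 : 0 < s0) (z : E n) :
    Function.Injective (fderiv ℝ (Qmap n s0) z) := by
  set s := ‖z‖ ^ 2 with hs
  have hsnn : 0 ≤ s := by positivity
  have hW := radW_pos hs0 hsnn
  set W := radW s0 s with hWdef
  set W' := deriv (radW s0) s with hW'def
  have h1 : HasDerivAt (radW s0) W' s :=
    ((radW_contDiff s0).differentiable (by simp) s).hasDerivAt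
  have h2 : HasDerivAt (fun s => radW s0 s ^ (-(1 / 3 : ℝ)))
      (W' * (-(1 / 3 : ℝ)) * W ^ (-(1 / 3 : ℝ) - 1)) s := h1.rpow_const (Or.inl hW.ne')
  have h3 : HasFDerivAt (fun x : E n => ‖x‖ ^ 2) (2 • (innerSL ℝ z)) z :=
    (hasStrictFDerivAt_norm_sq z).hasFDerivAt
  have h4 : HasFDerivAt (fun x : E n => radW s0 (‖x‖ ^ 2) ^ (-(1 / 3 : ℝ)))
      ((W' * (-(1 / 3 : ℝ)) * W ^ (-(1 / 3 : ℝ) - 1)) • (2 • (innerSL ℝ z))) z :=
    HasDerivAt.comp_hasFDerivAt (h₂ := fun s => radW s0 s ^ (-(1 / 3 : ℝ))) z h2 h3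
  have h5 := h4.smul (hasFDerivAt_id z)
  have h6 : fderiv ℝ (Qmap n s0) z = _ := h5.fderiv
  rw [injective_iff_map_eq_zero]
  intro v hv
  rw [h6] at hv
  simp only [add_apply, smul_apply,
    ContinuousLinearMap.smulRight_apply, ContinuousLinearMap.id_apply, id_eq,
    innerSL_apply_apply, ← hs, ← hWdef] at hv
  set c := W' * (-(1 / 3 : ℝ)) * W ^ (-(1 / 3 : ℝ) - 1) with hc
  set m := W ^ (-(1 / 3 : ℝ)) with hm
  have hmpos : 0 < m := Real.rpow_pos_of_pos hW _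
  have hv' : m • v + (c * (2 * inner ℝ z v)) • z = 0 := by
    simpa [smul_smul, mul_comm, mul_assoc, mul_left_comm] using hv
  have hin : (m + 2 * c * s) * inner ℝ z v = 0 := by
    have := congrArg (fun y => inner ℝ z y) hv'
    simp only [inner_add_right, inner_smul_right, inner_zero_right, real_inner_self_eq_norm_sq,
      ← hs] at this
    linear_combination this
  have hpos : 0 < m + 2 * c * s := by
    have e1 : W ^ (-(1 / 3 : ℝ)) = W ^ (-(1 / 3 : ℝ) - 1) * W := by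
      rw [← Real.rpow_add_one hW.ne']; congr 1; ring
    have hk : 0 < W ^ (-(1 / 3 : ℝ) - 1) := Real.rpow_pos_of_pos hW _
    have e2 : m + 2 * c * s = W ^ (-(1 / 3 : ℝ) - 1) * (W - 2 / 3 * W' * s) := by
      rw [hm, e1, hc]; ring
    rw [e2]
    apply mul_pos hk
    have hsW : s ≤ W := le_radW s0 s
    have hW'le : W' ≤ 1 := radW_deriv_le s0 s
    have : W' * s ≤ 1 * s := mul_le_mul_of_nonneg_right hW'le hsnn
    nlinarith
  have hzv : inner ℝ z v = 0 := by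
    rcases mul_eq_zero.1 hin with h | h
    · exact absurd h hpos.ne'
    · exact h
  rw [hzv] at hv'
  simp only [mul_zero, zero_smul, add_zero, smul_eq_zero] at hv'
  rcases hv' with h | h
  · exact absurd h hmpos.ne'
  · exact h

lemma Qmap_of_ge {s0 : ℝ} {z : E n} (hz : s0 ≤ ‖z‖ ^ 2) :
    Qmap n s0 z = (‖z‖ ^ 2) ^ (-(1 / 3 : ℝ)) • z := by
  unfold Qmap
  rw [radW_of_ge hz]

lemma Qmap_norm_cube {s0 : ℝ} (hs0 : 0 < s0) (z : E n) :
    ‖Qmap n s0 z‖ ^ 3 = (radW s0 (‖z‖ ^ 2))⁻¹ * ‖z‖ ^ 3 := by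
  have hW := radW_pos hs0 (s := ‖z‖ ^ 2) (by positivity)
  unfold Qmap
  rw [norm_smul, Real.norm_of_nonneg (Real.rpow_nonneg hW.le _), mul_pow]
  congr 1
  rw [← Real.rpow_natCast, ← Real.rpow_mul hW.le]
  norm_num
  exact Real.rpow_neg_one _

lemma Qmap_norm_cube_le {s0 : ℝ} (hs0 : 0 < s0) (z : E n) : ‖Qmap n s0 z‖ ^ 3 ≤ ‖z‖ := by
  rw [Qmap_norm_cube hs0]
  have hW := radW_pos hs0 (s := ‖z‖ ^ 2) (by positivity)
  have h1 : ‖z‖ ^ 2 ≤ radW s0 (‖z‖ ^ 2) := le_radW _ _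
  rw [inv_mul_le_iff₀ hW]
  nlinarith [norm_nonneg z, mul_le_mul_of_nonneg_right h1 (norm_nonneg z)]

lemma Qmap_norm_cube_eq {s0 : ℝ} (hs0 : 0 < s0) {z : E n} (hz : s0 ≤ ‖z‖ ^ 2) :
    ‖Qmap n s0 z‖ ^ 3 = ‖z‖ := by
  rw [Qmap_norm_cube hs0, radW_of_ge hz]
  have : 0 < ‖z‖ ^ 2 := lt_of_lt_of_le hs0 hz
  field_simp

lemma Qmap_tendsto {s0 : ℝ} (hs0 : 0 < s0) :
    Tendsto (Qmap n s0) (cocompact _) (cocompact _) := by
  apply tendsto_cocompact_of_tendsto_dist_comp_atTop 0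
  simp only [dist_zero_right]
  rw [Filter.tendsto_atTop]
  intro b
  have h1 : ∀ᶠ z : E n in cocompact _, max (max b 0 ^ 3) (s0 + 1) ≤ ‖z‖ :=
    tendsto_norm_cocompact_atTop.eventually_ge_atTop _
  filter_upwards [h1] with z hz
  have hz1 : s0 ≤ ‖z‖ ^ 2 := by
    have : s0 + 1 ≤ ‖z‖ := (le_max_right _ _).trans hz
    nlinarith
  have hz2 : max b 0 ^ 3 ≤ ‖z‖ := (le_max_left _ _).trans hz
  rw [← Qmap_norm_cube_eq hs0 hz1] at hz2
  have := le_of_pow_le_pow_left₀ (by norm_num) (norm_nonneg _) hz2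
  exact (le_max_left _ _).trans this

lemma Qmap_unique {s0 : ℝ} (hs0 : 0 < s0) {x₀ : E n} (hx₀ : s0 ≤ ‖x₀‖ ^ 2) (x : E n)
    (h : Qmap n s0 x = Qmap n s0 x₀) : x = x₀ := by
  have h1 : ‖x₀‖ ≤ ‖x‖ := by
    rw [← Qmap_norm_cube_eq hs0 hx₀, ← h]
    exact Qmap_norm_cube_le hs0 x
  have h2 : s0 ≤ ‖x‖ ^ 2 := hx₀.trans (by gcongr)
  have h3 : ‖x‖ = ‖x₀‖ := by
    rw [← Qmap_norm_cube_eq hs0 hx₀, ← h, Qmap_norm_cube_eq hs0 h2]
  rw [Qmap_of_ge hx₀, Qmap_of_ge h2, h3] at h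
  have hpos : 0 < ‖x₀‖ ^ 2 := lt_of_lt_of_le hs0 hx₀
  exact smul_right_injective _ (Real.rpow_pos_of_pos hpos _).ne' h

lemma Qmap_bijective (hn : 1 ≤ n) {s0 : ℝ} (hs0 : 0 < s0) : Function.Bijective (Qmap n s0) := by
  obtain ⟨x₀, hx₀⟩ : ∃ x₀ : E n, s0 ≤ ‖x₀‖ ^ 2 := by
    refine ⟨EuclideanSpace.single ⟨0, hn⟩ (s0 + 1), ?_⟩
    rw [PiLp.norm_single, Real.norm_of_nonneg (by linarith)]
    nlinarith
  exact bijective_of_proper_local
    (isLocalHomeomorph_of_fderiv ((Qmap_contDiff hs0).of_le (by simp)) (Qmap_fderiv_inj hs0))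
    (Qmap_tendsto hs0) (Qmap_unique hs0 hx₀)

/-- The inverse of the radial cube root. -/
theorem exists_Pmap (hn : 1 ≤ n) {s0 : ℝ} (hs0 : 0 < s0) :
    ∃ P : E n → E n, ContDiff ℝ ∞ P ∧ (∀ x, P (Qmap n s0 x) = x) ∧ (∀ y, Qmap n s0 (P y) = y) ∧
      ∀ y : E n, s0 ≤ ‖y‖ ^ 6 → P y = ‖y‖ ^ 2 • y := by
  obtain ⟨P, hP, h1, h2⟩ := exists_inverse (Qmap_contDiff hs0) (Qmap_fderiv_inj hs0)
    (Qmap_bijective hn hs0)
  refine ⟨P, hP, h1, h2, fun y hy => ?_⟩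
  have hy0 : 0 < ‖y‖ := by
    rcases (norm_nonneg y).eq_or_lt with h | h
    · rw [← h] at hy; norm_num at hy; linarith
    · exact h
  have hn1 : ‖‖y‖ ^ 2 • y‖ ^ 2 = ‖y‖ ^ 6 := by
    rw [norm_smul, norm_pow, norm_norm]; ring
  have : Qmap n s0 (‖y‖ ^ 2 • y) = y := by
    rw [Qmap_of_ge (by rw [hn1]; exact hy), hn1, smul_smul]
    have : ((‖y‖ ^ 6) ^ (-(1 / 3 : ℝ)) * ‖y‖ ^ 2) = 1 := by
      rw [← Real.rpow_natCast, ← Real.rpow_mul hy0.le, ← Real.rpow_natCast,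
        ← Real.rpow_add hy0]
      norm_num
    rw [this, one_smul]
  rw [← h1 (‖y‖ ^ 2 • y), this]

end Run7.h7
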