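import Mathlib
import Pool.Agent.Run7.h7.Defs
import Pool.Agent.Run7.h7.Basic
import Pool.Agent.Run7.h7.Global
import Pool.Agent.Run7.h7.Radial
import Pool.Agent.Run7.h7.RCone

/-!
Gluing an immersion of a ball, close to a cone map on an annulus, to the cone map.
-/

open MeasureTheory Filter Set Metric
open scoped Topology ContDiff Manifold

namespace Run7.h7

variable {m : ℕ}

/-- a radial cutoff. -/
noncomputable def cutoff (m : ℕ) {r₁ r₂ : ℝ} (h1 : 0 < r₁) (h2 : r₁ < r₂) :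
    ContDiffBump (0 : E (m + 1)) := ⟨r₁, r₂, h1, h2⟩

/-- If a smooth map `G` with injective derivatives agrees with the cone map outside a ball, then
`φ` extends. -/
theorem extends_of_glued (hm : 0 < m + 1) {φ ψ : Sph m → Sph m}
    (h : ∀ u, ψ (φ u) = u) {r : ℝ} (hr : 0 < r)
    {G : E (m + 1) → E (m + 1)} (hG : ContDiff ℝ ∞ G)
    (hd : ∀ x, Function.Injective (fderiv ℝ G x)) (hGf : ∀ x, r ≤ ‖x‖ → G x = coneMap φ x) :
    ExtendsToDiffeo φ := by
  have hinj : ∀ x y, coneMap φ x = coneMap φ y → x = y := fun x y hxy => by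
    rw [coneMap_eq_rcone] at hxy
    rw [← rcone_rcone (a := 3) (b := 1 / 3) (by norm_num) h x,
      ← rcone_rcone (a := 3) (b := 1 / 3) (by norm_num) h y, hxy]
  -- properness
  have hprop : Tendsto G (cocompact _) (cocompact _) := by
    apply tendsto_cocompact_of_tendsto_dist_comp_atTop 0
    simp only [dist_zero_right]
    have h1 : Tendsto (fun x : E (m + 1) => ‖x‖ ^ 3) (cocompact _) atTop :=
      (tendsto_pow_atTop (by norm_num)).comp (tendsto_norm_cocompact_atTop (E := E (m + 1)))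
    refine h1.congr' ?_
    filter_upwards [tendsto_norm_cocompact_atTop.eventually_ge_atTop r] with x hx
    rw [hGf x hx, norm_coneMap]
  -- a value taken once
  obtain ⟨C, hC⟩ := (isCompact_closedBall (0 : E (m + 1)) r).exists_bound_of_continuousOn
    hG.continuous.continuousOn
  obtain ⟨x₀, hx₀⟩ : ∃ x₀ : E (m + 1), ‖x₀‖ = max r 1 + |C| := by
    refine ⟨EuclideanSpace.single ⟨0, hm⟩ (max r 1 + |C|), ?_⟩
    rw [PiLp.norm_single, Real.norm_of_nonneg]
    have := abs_nonneg C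
    have := le_max_right r 1
    linarith
  have hx₀r : r ≤ ‖x₀‖ := by
    rw [hx₀]; have := abs_nonneg C; have := le_max_left r 1; linarith
  have hone : ∀ x, G x = G x₀ → x = x₀ := by
    intro x hx
    have hbig : C < ‖G x₀‖ := by
      rw [hGf x₀ hx₀r, norm_coneMap]
      have h1 : 1 ≤ ‖x₀‖ := by
        rw [hx₀]; have := abs_nonneg C; have := le_max_right r 1; linarith
      have h2 : C < ‖x₀‖ := by
        rw [hx₀]; have := le_abs_self C; have := le_max_right r 1; linarith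
      have h3 : ‖x₀‖ ≤ ‖x₀‖ ^ 3 := by nlinarith [mul_le_mul h1 h1 (by norm_num) (norm_nonneg _)]
      linarith
    have hxr : r ≤ ‖x‖ := by
      by_contra hlt
      have := hC x (by rw [mem_closedBall_zero_iff]; linarith)
      rw [hx] at this
      linarith
    rw [hGf x hxr, hGf x₀ hx₀r] at hx
    exact hinj _ _ hx
  have hbij : Function.Bijective G := bijective_of_proper_local
    (isLocalHomeomorph_of_fderiv (hG.of_le (by simp)) hd) hprop hone
  obtain ⟨H, hH, hH1, hH2⟩ := exists_inverse hG hd hbij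
  have hs0 : 0 < r ^ 6 := by positivity
  obtain ⟨P, hP, hP1, hP2, -⟩ := exists_Pmap (n := m + 1) (by omega) hs0
  have key : ∀ x : E (m + 1), r ≤ ‖x‖ → Qmap (m + 1) (r ^ 6) (G x) = ‖x‖ • sphDir φ x := by
    intro x hx
    have hx0 : 0 < ‖x‖ := lt_of_lt_of_le hr hx
    have e1 : ‖G x‖ ^ 2 = ‖x‖ ^ 6 := by rw [hGf x hx, norm_coneMap]; ring
    rw [Qmap_of_ge (by rw [e1]; gcongr), e1, hGf x hx, coneMap, smul_smul]
    congr 1
    rw [← Real.rpow_natCast, ← Real.rpow_natCast, ← Real.rpow_mul hx0.le,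
      ← Real.rpow_add hx0]
    norm_num
  have hr' : r ≠ 0 := hr.ne'
  refine ⟨fun x => r⁻¹ • Qmap (m + 1) (r ^ 6) (G (r • x)), fun y => r⁻¹ • H (P (r • y)),
    ?_, ?_, ?_, ?_, ?_⟩
  · exact ((((Qmap_contDiff hs0).comp (hG.comp (contDiff_const_smul r)))).const_smul _).contDiffOn
  · exact (((hH.comp (hP.comp (contDiff_const_smul r)))).const_smul _).contDiffOn
  · intro x
    simp only [smul_smul, mul_inv_cancel₀ hr', one_smul, hP1, hH1, inv_mul_cancel₀ hr']
  · intro y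
    simp only [smul_smul, mul_inv_cancel₀ hr', one_smul, hP2, hH2, inv_mul_cancel₀ hr']
  · intro x hx
    have : r ≤ ‖r • x‖ := by
      rw [norm_smul, Real.norm_of_nonneg hr.le]; nlinarith
    simp only
    rw [key _ this, sphDir_smul φ hr, norm_smul, Real.norm_of_nonneg hr.le, smul_smul,
      ← mul_assoc, inv_mul_cancel₀ hr', one_mul]

/-- Uniform lower bound for the derivative of the cone map on an annulus. -/
lemma exists_lower_bound {φ ψ : Sph m → Sph m} (hφ : ContMDiff (𝓡 m) (𝓡 m) ∞ φ)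
    (hψ : ContMDiff (𝓡 m) (𝓡 m) ∞ ψ) (h : ∀ u, ψ (φ u) = u) {r₁ r₂ : ℝ} (hr₁ : 0 < r₁) :
    ∃ C : ℝ, 0 < C ∧ ∀ x : E (m + 1), r₁ ≤ ‖x‖ → ‖x‖ ≤ r₂ → ∀ v,
      ‖v‖ ≤ C * ‖fderiv ℝ (coneMap φ) x v‖ := by
  set K : Set (E (m + 1)) := closedBall 0 r₂ ∩ {x | r₁ ≤ ‖x‖} with hK
  have hKc : IsCompact K := (isCompact_closedBall _ _).inter_right
    (isClosed_le continuous_const continuous_norm)
  have hK0 : K ⊆ ({0}ᶜ : Set (E (m + 1))) := by
    rintro x ⟨-, hx⟩
    rw [mem_compl_singleton_iff]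
    rintro rfl
    simp only [mem_ofPred_eq, norm_zero] at hx
    linarith
  have hc1 : ContinuousOn (rcone (3 : ℝ) φ) K := ((rcone_contDiffOn 3 hφ).continuousOn).mono hK0
  have hc2 : ContinuousOn (fderiv ℝ (rcone (3 : ℝ)⁻¹ ψ)) ({0}ᶜ : Set (E (m + 1))) :=
    (rcone_contDiffOn _ hψ).continuousOn_fderiv_of_isOpen isOpen_compl_singleton (by simp)
  have hc3 : ContinuousOn (fun x => fderiv ℝ (rcone (3 : ℝ)⁻¹ ψ) (rcone 3 φ x)) K :=
    hc2.comp hc1 (fun x hx => rcone_ne_zero (by norm_num) φ (hK0 hx))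
  obtain ⟨C, hC⟩ := hKc.exists_bound_of_continuousOn hc3
  refine ⟨max C 1, lt_of_lt_of_le one_pos (le_max_right _ _), fun x hx1 hx2 v => ?_⟩
  have hxK : x ∈ K := ⟨by rwa [mem_closedBall_zero_iff], hx1⟩
  have hx0 : x ≠ 0 := hK0 hxK
  rw [coneMap_eq_rcone]
  have e := rcone_fderiv_leftInv (a := 3) (by norm_num) hφ hψ h hx0 v
  calc ‖v‖ = ‖fderiv ℝ (rcone (3 : ℝ)⁻¹ ψ) (rcone 3 φ x) (fderiv ℝ (rcone 3 φ) x v)‖ := by rw [e]
    _ ≤ ‖fderiv ℝ (rcone (3 : ℝ)⁻¹ ψ) (rcone 3 φ x)‖ * ‖fderiv ℝ (rcone 3 φ) x v‖ :=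
        ContinuousLinearMap.le_opNorm _ _
    _ ≤ max C 1 * ‖fderiv ℝ (rcone 3 φ) x v‖ := by
        gcongr
        exact (hC x hxK).trans (le_max_left _ _)

/-- **Gluing.** An immersion, sufficiently close in `C^1` on an annulus to the cone map over `φ`,
forces `φ` to extend. -/
theorem extends_of_close {φ ψ : Sph m → Sph m} (hφ : ContMDiff (𝓡 m) (𝓡 m) ∞ φ)
    (hψ : ContMDiff (𝓡 m) (𝓡 m) ∞ ψ) (h : ∀ u, ψ (φ u) = u) {r₁ r₂ : ℝ} (hr₁ : 0 < r₁)
    (hr : r₁ < r₂) :
    ∃ δ : ℝ, 0 < δ ∧ ∀ (Ω : Set (E (m + 1))) (g : E (m + 1) → E (m + 1)), IsOpen Ω →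
      closedBall 0 r₂ ⊆ Ω → IsImmersionOn Ω g →
      (∀ x, r₁ ≤ ‖x‖ → ‖x‖ ≤ r₂ → ‖g x - coneMap φ x‖ ≤ δ ∧
        ‖fderiv ℝ (fun y => g y - coneMap φ y) x‖ ≤ δ) → ExtendsToDiffeo φ := by
  obtain ⟨C, hC0, hC⟩ := exists_lower_bound hφ hψ h (r₁ := r₁) (r₂ := r₂) hr₁
  set b := cutoff m hr₁ hr with hb
  have hb1 : ∀ x : E (m + 1), ‖x‖ ≤ r₁ → b x = 1 := fun x hx =>
    b.one_of_mem_closedBall (by rw [mem_closedBall_zero_iff]; exact hx)
  have hb0 : ∀ x : E (m + 1), r₂ ≤ ‖x‖ → b x = 0 := fun x hx =>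
    b.zero_of_le_dist (by rw [dist_zero_right]; exact hx)
  have hbs : ContDiff ℝ ∞ b := b.contDiff
  obtain ⟨M, hM⟩ : ∃ M, ∀ x, ‖fderiv ℝ b x‖ ≤ M :=
    (hbs.continuous_fderiv (by simp)).bounded_above_of_compact_support
      (b.hasCompactSupport.fderiv ℝ)
  have hM0 : 0 ≤ M := (norm_nonneg _).trans (hM 0)
  refine ⟨(2 * (C * (1 + M)))⁻¹, by positivity, fun Ω g hΩ hΩr hg hclose => ?_⟩
  set δ := (2 * (C * (1 + M)))⁻¹ with hδ
  set f := coneMap φ with hf
  have hfs : ContDiffOn ℝ ∞ f ({0}ᶜ : Set (E (m + 1))) := coneMap_contDiffOn hφ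
  have hfat : ∀ x, x ≠ 0 → ContDiffAt ℝ ∞ f x := fun x hx =>
    hfs.contDiffAt (isOpen_compl_singleton.mem_nhds hx)
  have hgat : ∀ x ∈ Ω, ContDiffAt ℝ ∞ g x := fun x hx => hg.1.contDiffAt (hΩ.mem_nhds hx)
  set G : E (m + 1) → E (m + 1) := fun x => f x + b x • (g x - f x) with hG
  have hG1 : ∀ x, ‖x‖ < r₁ → G =ᶠ[𝓝 x] g := by
    intro x hx
    have : ball (0 : E (m + 1)) r₁ ∈ 𝓝 x := isOpen_ball.mem_nhds (by
      rwa [mem_ball_zero_iff])
    filter_upwards [this] with y hy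
    rw [mem_ball_zero_iff] at hy
    simp only [hG]
    rw [hb1 y hy.le, one_smul, add_sub_cancel]
  have hG2 : ∀ x, r₂ < ‖x‖ → G =ᶠ[𝓝 x] f := by
    intro x hx
    have : {y : E (m + 1) | r₂ < ‖y‖} ∈ 𝓝 x :=
      (isOpen_lt continuous_const continuous_norm).mem_nhds hx
    filter_upwards [this] with y hy
    simp only [hG]
    rw [hb0 y (le_of_lt hy), zero_smul, add_zero]
  have hmem : ∀ x : E (m + 1), ‖x‖ ≤ r₂ → x ∈ Ω := fun x hx =>
    hΩr (by rwa [mem_closedBall_zero_iff])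
  have hne : ∀ x : E (m + 1), r₁ ≤ ‖x‖ → x ≠ 0 := by
    rintro x hx rfl
    rw [norm_zero] at hx; linarith
  have hGs : ContDiff ℝ ∞ G := by
    rw [contDiff_iff_contDiffAt]
    intro x
    rcases lt_or_ge ‖x‖ r₁ with h1 | h1
    · exact (hgat x (hmem x (h1.le.trans hr.le))).congr_of_eventuallyEq (hG1 x h1)
    · rcases lt_or_ge r₂ ‖x‖ with h2 | h2
      · exact (hfat x (hne x h1)).congr_of_eventuallyEq (hG2 x h2)
      · exact (hfat x (hne x h1)).add
          (hbs.contDiffAt.smul ((hgat x (hmem x h2)).sub (hfat x (hne x h1))))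
  have hGd : ∀ x, Function.Injective (fderiv ℝ G x) := by
    intro x
    rcases lt_or_ge ‖x‖ r₁ with h1 | h1
    · rw [(hG1 x h1).fderiv_eq]
      exact hg.injective x (hmem x (h1.le.trans hr.le))
    · rcases lt_or_ge r₂ ‖x‖ with h2 | h2
      · rw [(hG2 x h2).fderiv_eq, hf, coneMap_eq_rcone]
        exact rcone_fderiv_inj (by norm_num) hφ hψ h (hne x h1)
      · obtain ⟨c1, c2⟩ := hclose x h1 h2
        have df : DifferentiableAt ℝ f x := (hfat x (hne x h1)).differentiableAt (by simp)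
        have dg : DifferentiableAt ℝ g x := (hgat x (hmem x h2)).differentiableAt (by simp)
        have db : DifferentiableAt ℝ b x := hbs.contDiffAt.differentiableAt (by simp)
        have hder : HasFDerivAt G (fderiv ℝ f x + (b x • fderiv ℝ (fun y => g y - f y) x +
            (fderiv ℝ b x).smulRight (g x - f x))) x :=
          df.hasFDerivAt.add (db.hasFDerivAt.smul (dg.sub df).hasFDerivAt)
        rw [hder.fderiv, injective_iff_map_eq_zero]
        intro v hv
        by_contra hv0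
        have hvpos : 0 < ‖v‖ := norm_pos_iff.2 hv0
        simp only [add_apply, smul_apply, ContinuousLinearMap.smulRight_apply] at hv
        have e1 : fderiv ℝ f x v = -(b x • fderiv ℝ (fun y => g y - f y) x v +
            (fderiv ℝ b x v) • (g x - f x)) := by
          rw [eq_neg_iff_add_eq_zero]; exact hv
        have hbx : |b x| ≤ 1 := by
          rw [abs_of_nonneg b.nonneg]; exact b.le_one
        have e2 : ‖fderiv ℝ f x v‖ ≤ δ * (1 + M) * ‖v‖ := by
          rw [e1, norm_neg]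
          calc _ ≤ ‖b x • fderiv ℝ (fun y => g y - f y) x v‖ +
                ‖(fderiv ℝ b x v) • (g x - f x)‖ := norm_add_le _ _
            _ = |b x| * ‖fderiv ℝ (fun y => g y - f y) x v‖ +
                ‖fderiv ℝ b x v‖ * ‖g x - f x‖ := by
                rw [norm_smul, norm_smul, Real.norm_eq_abs]
            _ ≤ 1 * (δ * ‖v‖) + (M * ‖v‖) * δ := by
                gcongr
                · exact (ContinuousLinearMap.le_opNorm _ _).trans (by gcongr)
                · exact (ContinuousLinearMap.le_opNorm _ _).trans (by gcongr; exact hM x)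
            _ = _ := by ring
        have e3 := hC x h1 h2 v
        have e4 : C * (δ * (1 + M) * ‖v‖) = ‖v‖ / 2 := by
          rw [hδ]; field_simp
        have e5 : ‖v‖ ≤ ‖v‖ / 2 := by
          calc ‖v‖ ≤ C * ‖fderiv ℝ f x v‖ := e3
            _ ≤ C * (δ * (1 + M) * ‖v‖) := by gcongr
            _ = _ := e4
        linarith
  exact extends_of_glued (by omega) h (hr₁.trans hr) hGs hGd (fun x hx => by
    simp only [hG]
    rw [hb0 x hx, zero_smul, add_zero])

end Run7.h7
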