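import Mathlib
import Pool.Agent.Run7.h7.Defs
import Pool.Agent.Run7.h7.Basic
import Pool.Agent.Run7.h7.Smooth2
import Pool.Agent.Run7.h7.Glue

/-!
Cone maps over diffeomorphisms of spheres: approximability is equivalent to extendability.
-/

open MeasureTheory Filter Set Metric
open scoped Topology ENNReal ContDiff Manifold

namespace Run7.h7

variable {n m : ℕ} {F : Type*} [NormedAddCommGroup F] [NormedSpace ℝ F]

lemma pd_add {u v : E n → F} {x : E n} (hu : DifferentiableAt ℝ u x)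
    (hv : DifferentiableAt ℝ v x) (i : Fin n) :
    pd (fun y => u y + v y) i x = pd u i x + pd v i x := by
  unfold pd
  rw [fderiv_fun_add hu hv, add_apply]

lemma pd_sub {u v : E n → F} {x : E n} (hu : DifferentiableAt ℝ u x)
    (hv : DifferentiableAt ℝ v x) (i : Fin n) :
    pd (fun y => u y - v y) i x = pd u i x - pd v i x := by
  unfold pd
  rw [fderiv_fun_sub hu hv, sub_apply]

lemma pd_scale {w : E n → F} (hw : Differentiable ℝ w) (a c : ℝ) (i : Fin n) (x : E n) :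
    pd (fun x => a • w (c • x)) i x = (a * c) • pd w i (c • x) := by
  unfold pd
  have h1 : HasFDerivAt (fun x : E n => c • x) (c • ContinuousLinearMap.id ℝ (E n)) x :=
    (hasFDerivAt_id x).const_smul c
  have h2 : HasFDerivAt (fun x => w (c • x)) ((fderiv ℝ w (c • x)).comp
    (c • ContinuousLinearMap.id ℝ (E n))) x := (hw (c • x)).hasFDerivAt.comp x h1
  have h3 : HasFDerivAt (fun x => a • w (c • x)) (a • (fderiv ℝ w (c • x)).comp
    (c • ContinuousLinearMap.id ℝ (E n))) x := h2.const_smul a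
  rw [h3.fderiv]
  simp [smul_smul]

lemma bounded_of_zero_outside {u : E n → F} (hu : Continuous u)
    (h : ∀ x, 1 < ‖x‖ → u x = 0) : ∃ M, ∀ x, ‖u x‖ ≤ M := by
  obtain ⟨C, hC⟩ := (isCompact_closedBall (0 : E n) 1).exists_bound_of_continuousOn
    hu.continuousOn
  refine ⟨max C 0, fun x => ?_⟩
  rcases le_or_gt ‖x‖ 1 with h1 | h1
  · exact (hC x (by rwa [mem_closedBall_zero_iff])).trans (le_max_left _ _)
  · rw [h x h1, norm_zero]; exact le_max_right _ _

/-- If `φ` extends, then the cone map is a limit of diffeomorphisms. -/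
theorem limit_of_extends {φ : Sph m → Sph m} (hφ : ContMDiff (𝓡 m) (𝓡 m) ∞ φ)
    (hext : ExtendsToDiffeo φ) {Ω : Set (E (m + 1))} (hΩ : IsOpen Ω)
    (hb : Bornology.IsBounded Ω) (q : ℝ≥0∞) : IsW2Limit (IsDiffeoOn Ω) Ω q (coneMap φ) := by
  obtain ⟨Φ, Ψ, hΦ', hΨ', hΨΦ, hΦΨ, hΦr⟩ := hext
  have hΦ : ContDiff ℝ ∞ Φ := contDiffOn_univ.1 hΦ'
  have hΨ : ContDiff ℝ ∞ Ψ := contDiffOn_univ.1 hΨ'
  obtain ⟨P, hP, hP1, hP2, hP3⟩ := exists_Pmap (n := m + 1) (by omega) (s0 := 1) one_pos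
  set f := coneMap φ with hf
  set F₁ : E (m + 1) → E (m + 1) := fun x => P (Φ x) with hF₁
  set H₁ : E (m + 1) → E (m + 1) := fun y => Ψ (Qmap (m + 1) 1 y) with hH₁
  have hF₁s : ContDiff ℝ ∞ F₁ := hP.comp hΦ
  have hH₁s : ContDiff ℝ ∞ H₁ := hΨ.comp (Qmap_contDiff one_pos)
  have hHF : ∀ x, H₁ (F₁ x) = x := fun x => by simp only [hH₁, hF₁, hP2, hΨΦ]
  have hFH : ∀ y, F₁ (H₁ y) = y := fun y => by simp only [hH₁, hF₁, hP1, hΦΨ]
  have hfF : ∀ x, 1 ≤ ‖x‖ → F₁ x = f x := by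
    intro x hx
    have hx0 : x ≠ 0 := by rintro rfl; simp at hx; linarith
    have e0 : ‖Φ x‖ = ‖x‖ := by
      rw [hΦr x hx, norm_smul, norm_sphDir φ hx0, norm_norm, mul_one]
    have e1 : 1 ≤ ‖Φ x‖ ^ 6 := by rw [e0]; exact one_le_pow₀ hx
    simp only [hF₁]
    rw [hP3 _ e1, e0, hΦr x hx, hf, coneMap, smul_smul]
    ring_nf
  have hf2 : ContDiff ℝ 2 f := coneMap_contDiff hφ
  set w : E (m + 1) → E (m + 1) := fun x => F₁ x - f x with hw
  have hw2 : ContDiff ℝ 2 w := (hF₁s.of_le (WithTop.coe_le_coe.2 le_top)).sub hf2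
  have hw0 : ∀ x, 1 < ‖x‖ → w =ᶠ[𝓝 x] fun _ => 0 := by
    intro x hx
    have : {y : E (m + 1) | 1 < ‖y‖} ∈ 𝓝 x :=
      (isOpen_lt continuous_const continuous_norm).mem_nhds hx
    filter_upwards [this] with y hy
    simp only [hw]
    rw [hfF y (le_of_lt hy), sub_self]
  have hpw0 : ∀ i, ∀ x, 1 < ‖x‖ → pd w i =ᶠ[𝓝 x] fun _ => 0 := by
    intro i x hx
    have : {y : E (m + 1) | 1 < ‖y‖} ∈ 𝓝 x :=
      (isOpen_lt continuous_const continuous_norm).mem_nhds hx
    filter_upwards [this] with y hy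
    unfold pd
    rw [(hw0 y hy).fderiv_eq]
    simp
  obtain ⟨M₀, hM₀⟩ := bounded_of_zero_outside hw2.continuous (fun x hx => (hw0 x hx).self_of_nhds)
  have hex1 : ∀ i, ∃ M, ∀ x, ‖pd w i x‖ ≤ M := fun i =>
    bounded_of_zero_outside (pd_contDiff hw2 i).continuous
      (fun x hx => (hpw0 i x hx).self_of_nhds)
  have hex2 : ∀ i j, ∃ M, ∀ x, ‖pd2 w i j x‖ ≤ M := fun i j =>
    bounded_of_zero_outside (pd2_continuous hw2 i j) (fun x hx => by
      unfold pd2
      rw [(hpw0 i x hx).fderiv_eq]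
      simp)
  choose M₁ hM₁ using hex1
  choose M₂ hM₂ using hex2
  set M : ℝ := |M₀| + ∑ i, |M₁ i| + ∑ i, ∑ j, |M₂ i j| with hM
  have hMnn : 0 ≤ M := by positivity
  have b0 : ∀ x, ‖w x‖ ≤ M := fun x => by
    refine (hM₀ x).trans ((le_abs_self _).trans ?_)
    rw [hM, add_assoc]
    exact le_add_of_nonneg_right (by positivity)
  have b1 : ∀ i x, ‖pd w i x‖ ≤ M := fun i x => by
    refine (hM₁ i x).trans ((le_abs_self _).trans ?_)
    have : |M₁ i| ≤ ∑ i, |M₁ i| :=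
      Finset.single_le_sum (f := fun i => |M₁ i|) (fun _ _ => abs_nonneg _) (Finset.mem_univ i)
    have h2 : 0 ≤ ∑ i, ∑ j, |M₂ i j| := by positivity
    have h3 := abs_nonneg M₀
    linarith
  have b2 : ∀ i j x, ‖pd2 w i j x‖ ≤ M := fun i j x => by
    refine (hM₂ i j x).trans ((le_abs_self _).trans ?_)
    have h1 : |M₂ i j| ≤ ∑ j, |M₂ i j| :=
      Finset.single_le_sum (f := fun j => |M₂ i j|) (fun _ _ => abs_nonneg _) (Finset.mem_univ j)
    have h2 : ∑ j, |M₂ i j| ≤ ∑ i, ∑ j, |M₂ i j| :=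
      Finset.single_le_sum (f := fun i => ∑ j, |M₂ i j|) (fun _ _ => by positivity)
        (Finset.mem_univ i)
    have h3 := abs_nonneg M₀
    have h4 : 0 ≤ ∑ i, |M₁ i| := by positivity
    linarith
  -- the approximating maps
  set c : ℕ → ℝ := fun k => (k : ℝ) + 1 with hc
  have hcpos : ∀ k, 0 < c k := fun k => by simp only [hc]; positivity
  have hc1 : ∀ k, 1 ≤ c k := fun k => by
    simp only [hc]; have : (0 : ℝ) ≤ k := Nat.cast_nonneg k
    linarith
  set g : ℕ → E (m + 1) → E (m + 1) := fun k x => (c k ^ 3)⁻¹ • F₁ (c k • x) with hg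
  set u : ℕ → E (m + 1) → E (m + 1) := fun k x => (c k ^ 3)⁻¹ • w (c k • x) with hu
  have hgu : ∀ k, g k = fun x => f x + u k x := by
    intro k
    ext1 x
    simp only [hg, hu, hw]
    rw [smul_sub, hf, coneMap_smul φ (hcpos k), smul_smul,
      inv_mul_cancel₀ (pow_ne_zero _ (hcpos k).ne'), one_smul, add_sub_cancel]
  have hgs : ∀ k, ContDiff ℝ ∞ (g k) := fun k =>
    (hF₁s.comp (contDiff_const_smul (c k))).const_smul _
  have hus : ∀ k, ContDiff ℝ 2 (u k) := fun k =>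
    (hw2.comp (contDiff_const_smul (c k))).const_smul _
  have hg2 : ∀ k, ContDiff ℝ 2 (g k) := fun k => (hgs k).of_le (WithTop.coe_le_coe.2 le_top)
  have hgd : ∀ k, IsDiffeoOn Ω (g k) := by
    intro k
    have hck := (hcpos k).ne'
    have hck3 : c k ^ 3 ≠ 0 := pow_ne_zero _ hck
    refine isDiffeoOn_of_global hΩ (h := fun y => (c k)⁻¹ • H₁ (c k ^ 3 • y)) (hgs k) ?_ ?_ ?_
    · exact (hH₁s.comp (contDiff_const_smul _)).const_smul _
    · intro x
      simp only [hg]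
      rw [smul_smul, mul_inv_cancel₀ hck3, one_smul, hHF, smul_smul, inv_mul_cancel₀ hck,
        one_smul]
    · intro y
      simp only [hg]
      rw [smul_smul, mul_inv_cancel₀ hck, one_smul, hFH, smul_smul, inv_mul_cancel₀ hck3,
        one_smul]
  refine ⟨pd f, pd2 f, InW2.of_contDiff hΩ hb hf2 q, g, fun k => pd (g k), fun k => pd2 (g k),
    fun k => ⟨hgd k, InW2.of_contDiff hΩ hb (hg2 k) q⟩, ?_⟩
  have hdiff2 : ∀ {v : E (m + 1) → E (m + 1)}, ContDiff ℝ 2 v → Differentiable ℝ v := fun hv =>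
    hv.differentiable (by norm_num)
  have hdiff1 : ∀ {v : E (m + 1) → E (m + 1)}, ContDiff ℝ 1 v → Differentiable ℝ v := fun hv =>
    hv.differentiable (by norm_num)
  have e1 : ∀ k i, pd (g k) i = fun x => pd f i x + pd (u k) i x := by
    intro k i
    ext1 x
    rw [hgu k]
    exact pd_add (hdiff2 hf2 x) (hdiff2 (hus k) x) i
  have e2 : ∀ k i j x, pd2 (g k) i j x = pd2 f i j x + pd2 (u k) i j x := by
    intro k i j x
    unfold pd2
    rw [e1 k i]
    rw [fderiv_fun_add (hdiff1 (pd_contDiff hf2 i) x) (hdiff1 (pd_contDiff (hus k) i) x),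
      add_apply]
  have f1 : ∀ k i, pd (u k) i = fun x => ((c k ^ 3)⁻¹ * c k) • pd w i (c k • x) := by
    intro k i
    ext1 x
    exact pd_scale (hdiff2 hw2) _ _ i x
  have f2 : ∀ k i j x, pd2 (u k) i j x = ((c k ^ 3)⁻¹ * c k * c k) • pd2 w i j (c k • x) := by
    intro k i j x
    have : pd2 (u k) i j x = pd (pd (u k) i) j x := rfl
    rw [this, f1 k i]
    exact pd_scale (hdiff1 (pd_contDiff hw2 i)) _ _ j x
  have bound : ∀ k, W2norm Ω q (fun x => g k x - f x) (fun i x => pd (g k) i x - pd f i x)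
      (fun i j x => pd2 (g k) i j x - pd2 f i j x) ≤
      (1 + (m + 1 : ℕ) + (m + 1 : ℕ) * (m + 1 : ℕ)) *
        (volume Ω ^ q.toReal⁻¹ * ENNReal.ofReal (M / c k)) := by
    intro k
    have hck := hcpos k
    have a3 : ‖(c k ^ 3)⁻¹‖ ≤ (c k)⁻¹ := by
      rw [Real.norm_of_nonneg (by positivity)]
      exact inv_anti₀ hck (le_self_pow₀ (hc1 k) (by norm_num))
    have a2 : ‖(c k ^ 3)⁻¹ * c k‖ ≤ (c k)⁻¹ := by
      rw [Real.norm_of_nonneg (by positivity)]
      have : (c k ^ 3)⁻¹ * c k = (c k ^ 2)⁻¹ := by field_simp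
      rw [this]
      exact inv_anti₀ hck (le_self_pow₀ (hc1 k) (by norm_num))
    have a1 : ‖(c k ^ 3)⁻¹ * c k * c k‖ ≤ (c k)⁻¹ := by
      rw [Real.norm_of_nonneg (by positivity)]
      have : (c k ^ 3)⁻¹ * c k * c k = (c k)⁻¹ := by field_simp
      rw [this]
    have hMc : M / c k = (c k)⁻¹ * M := by rw [div_eq_inv_mul]
    rw [hMc]
    apply W2norm_le_of_bound hΩ.measurableSet
    · intro x _
      rw [hgu k]
      simp only [hu]
      rw [add_sub_cancel_left, norm_smul]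
      exact mul_le_mul a3 (b0 _) (norm_nonneg _) (by positivity)
    · intro i x _
      rw [e1 k i, f1 k i]
      simp only
      rw [add_sub_cancel_left, norm_smul]
      exact mul_le_mul a2 (b1 i _) (norm_nonneg _) (by positivity)
    · intro i j x _
      rw [e2 k i j, f2 k i j, add_sub_cancel_left, norm_smul]
      exact mul_le_mul a1 (b2 i j _) (norm_nonneg _) (by positivity)
  refine tendsto_of_tendsto_of_tendsto_of_le_of_le tendsto_const_nhds ?_ (fun k => zero_le) bound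
  have hM0 : Tendsto (fun k => ENNReal.ofReal (M / c k)) atTop (𝓝 0) := by
    rw [← ENNReal.ofReal_zero]
    apply ENNReal.tendsto_ofReal
    apply Tendsto.div_atTop tendsto_const_nhds
    simp only [hc]
    exact tendsto_atTop_add_const_right _ _ tendsto_natCast_atTop_atTop
  have hvol : volume Ω ^ q.toReal⁻¹ ≠ ⊤ :=
    ENNReal.rpow_ne_top_of_nonneg (by positivity) hb.measure_lt_top.ne
  have h1 := ENNReal.Tendsto.const_mul hM0 (Or.inr hvol)
  have h2 := ENNReal.Tendsto.const_mul h1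
    (a := (1 + (m + 1 : ℕ) + (m + 1 : ℕ) * (m + 1 : ℕ) : ℝ≥0∞)) (Or.inr (by
      norm_cast; exact ENNReal.natCast_ne_top _))
  simpa using h2

/-- If the cone map is a limit of immersions near the origin, then `φ` extends. -/
theorem extends_of_limit {φ ψ : Sph m → Sph m} (hφ : ContMDiff (𝓡 m) (𝓡 m) ∞ φ)
    (hψ : ContMDiff (𝓡 m) (𝓡 m) ∞ ψ) (h : ∀ u, ψ (φ u) = u) {Ω : Set (E (m + 1))}
    (hΩ : IsOpen Ω) (h0 : (0 : E (m + 1)) ∈ Ω) {q : ℝ≥0∞} (hq : ((m + 1 : ℕ) : ℝ≥0∞) < q)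
    (hq' : q ≠ ⊤) (hlim : IsW2Limit (IsImmersionOn Ω) Ω q (coneMap φ)) : ExtendsToDiffeo φ := by
  obtain ⟨Df, D2f, hfW, g, Dg, D2g, hg, ht⟩ := hlim
  obtain ⟨R₀, hR₀, hball⟩ := Metric.isOpen_iff.1 hΩ 0 h0
  set R := R₀ / 4 with hR
  have hRpos : 0 < R := by positivity
  have hsub : closedBall (0 : E (m + 1)) (2 * R) ⊆ Ω :=
    (closedBall_subset_ball (by linarith)).trans hball
  obtain ⟨δ, hδ, hclose⟩ := extends_of_close hφ hψ h (r₁ := R) (r₂ := 2 * R) hRpos (by linarith)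
  obtain ⟨C, hC, hM⟩ := morreyC1 (F := E (m + 1)) (by omega) hq hq' hRpos
  have hq1 : 1 ≤ q := le_trans (by exact_mod_cast (by omega : 1 ≤ m + 1)) hq.le
  have hδ' : ENNReal.ofReal δ / (C + 1) ≠ 0 := by
    refine (ENNReal.div_pos ?_ ?_).ne'
    · exact (ENNReal.ofReal_pos.2 hδ).ne'
    · exact ENNReal.add_ne_top.2 ⟨hC, by simp⟩
  obtain ⟨k, hk⟩ := ((tendsto_order.1 ht).2 _ (pos_iff_ne_zero.2 hδ')).exists
  obtain ⟨himm, hgW⟩ := hg k
  set f := coneMap φ with hf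
  have hf2 : ContDiff ℝ 2 f := coneMap_contDiff hφ
  have hg2 : ContDiffOn ℝ 2 (g k) Ω := ContDiffOn.of_le himm.1 (WithTop.coe_le_coe.2 le_top)
  set w : E (m + 1) → E (m + 1) := fun x => g k x - f x with hw
  have hw2 : ContDiffOn ℝ 2 w Ω := hg2.sub hf2.contDiffOn
  obtain ⟨a1, a2⟩ := InW2.ae_eq hΩ hq1 hg2 hgW
  obtain ⟨b1, b2⟩ := InW2.ae_eq hΩ hq1 hf2.contDiffOn hfW
  have hdat : ∀ {v : E (m + 1) → E (m + 1)}, ContDiffOn ℝ 1 v Ω → ∀ x ∈ Ω,
      DifferentiableAt ℝ v x := fun hv x hx =>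
    (hv.contDiffAt (hΩ.mem_nhds hx)).differentiableAt (by norm_num)
  have p1 : ∀ i, ∀ x ∈ Ω, pd w i x = pd (g k) i x - pd f i x := fun i x hx =>
    pd_sub (hdat (hg2.of_le (by norm_num)) x hx)
      (hdat (hf2.contDiffOn.of_le (by norm_num)) x hx) i
  have p2 : ∀ i j, ∀ x ∈ Ω, pd2 w i j x = pd2 (g k) i j x - pd2 f i j x := by
    intro i j x hx
    have e : pd w i =ᶠ[𝓝 x] fun y => pd (g k) i y - pd f i y := by
      filter_upwards [hΩ.mem_nhds hx] with y hy
      exact p1 i y hy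
    unfold pd2
    rw [e.fderiv_eq]
    exact pd_sub (hdat (pd_contDiffOn hΩ hg2 i) x hx) (hdat (pd_contDiff hf2 i).contDiffOn x hx) j
  have hnorm : W2norm Ω q w (pd w) (pd2 w) = W2norm Ω q (fun x => g k x - f x)
      (fun i x => Dg k i x - Df i x) (fun i j x => D2g k i j x - D2f i j x) := by
    refine W2norm_congr hΩ.measurableSet (Eventually.of_forall fun x _ => rfl) (fun i => ?_)
      (fun i j => ?_)
    · filter_upwards [a1 i, b1 i] with x ha hb hx
      rw [ha hx, hb hx, p1 i x hx]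
    · filter_upwards [a2 i j, b2 i j] with x ha hb hx
      rw [ha hx, hb hx, p2 i j x hx]
  have hsmall : ∀ x : E (m + 1), ‖x‖ ≤ 2 * R → ∀ N : ℝ≥0∞,
      N ≤ C * W2norm (ball x R) q w (pd w) (pd2 w) → N ≤ ENNReal.ofReal δ := by
    intro x hx N hN
    have hsub2 : ball x R ⊆ Ω := by
      refine (ball_subset_ball' ?_).trans hball
      rw [dist_zero_right]; linarith
    calc N ≤ C * W2norm (ball x R) q w (pd w) (pd2 w) := hN
      _ ≤ C * W2norm Ω q w (pd w) (pd2 w) := by gcongr; exact W2norm_mono hsub2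
      _ ≤ (C + 1) * (ENNReal.ofReal δ / (C + 1)) := by
          rw [hnorm]; gcongr; exact le_self_add
      _ = ENNReal.ofReal δ :=
          ENNReal.mul_div_cancel (by simp) (ENNReal.add_ne_top.2 ⟨hC, by simp⟩)
  refine hclose Ω (g k) hΩ hsub himm fun x hx1 hx2 => ?_
  have hsub2 : ball x R ⊆ Ω := by
    refine (ball_subset_ball' ?_).trans hball
    rw [dist_zero_right]; linarith
  obtain ⟨m1, m2⟩ := hM w x (hw2.mono hsub2)
  have n1 := hsmall x hx2 _ m1
  have n2 := hsmall x hx2 _ m2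
  constructor
  · rw [← ofReal_norm] at n1
    exact (ENNReal.ofReal_le_ofReal_iff hδ.le).1 n1
  · rw [← ofReal_norm] at n2
    exact (ENNReal.ofReal_le_ofReal_iff hδ.le).1 n2

lemma IsDiffeoOn.isImmersionOn {n : ℕ} {Ω : Set (E n)} (hΩ : IsOpen Ω) {g : E n → E n}
    (h : IsDiffeoOn Ω g) : IsImmersionOn Ω g := by
  obtain ⟨h1, h2, H, h3, h4⟩ := h
  refine IsImmersionOn.mk' h1 fun x hx => ?_
  have d1 : DifferentiableAt ℝ g x := (ContDiffOn.contDiffAt h1 (hΩ.mem_nhds hx)).differentiableAt (by simp)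
  have d2 : DifferentiableAt ℝ H (g x) :=
    (ContDiffOn.contDiffAt h3 (h2.mem_nhds ⟨x, hx, rfl⟩)).differentiableAt (by simp)
  have h5 := d2.hasFDerivAt.comp x d1.hasFDerivAt
  have h6 : HasFDerivAt (H ∘ g) (ContinuousLinearMap.id ℝ (E n)) x := by
    refine (hasFDerivAt_id x).congr_of_eventuallyEq ?_
    filter_upwards [hΩ.mem_nhds hx] with y hy
    exact h4 hy
  have h7 := h5.unique h6
  intro v w hvw
  have e1 := congrArg (fun L : E n →L[ℝ] E n => L v) h7
  have e2 := congrArg (fun L : E n →L[ℝ] E n => L w) h7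
  simp only [ContinuousLinearMap.comp_apply, ContinuousLinearMap.id_apply] at e1 e2
  rw [← e1, ← e2, hvw]

lemma IsW2Limit.imp {n : ℕ} {P Q : (E n → E n) → Prop} (hPQ : ∀ g, P g → Q g) {Ω : Set (E n)}
    {q : ℝ≥0∞} {f : E n → E n} (h : IsW2Limit P Ω q f) : IsW2Limit Q Ω q f := by
  obtain ⟨Df, D2f, h1, g, Dg, D2g, h2, h3⟩ := h
  exact ⟨Df, D2f, h1, g, Dg, D2g, fun k => ⟨hPQ _ (h2 k).1, (h2 k).2⟩, h3⟩

end Run7.h7
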