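import Mathlib
import Pool.Agent.Run7.h7.Defs

/-!
Definition: fine approximations of a homeomorphism, relative to a closed set.
-/

open Set

namespace Run7.h7

/-- `g` is a homeomorphism of `Ω` onto `f '' Ω`, of class `C^1`; it is a smooth diffeomorphism of
`Ω \ Z` onto `f '' (Ω \ Z)`; it agrees with `f` up to first order at the points of `Z`; and at
every point `x` of `Ω \ Z` it is `τ x`-close to `f` together with the first derivative. -/
structure IsFineApprox {n : ℕ} (Ω Z : Set (E n)) (f : E n → E n) (τ : E n → ℝ)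
    (g : E n → E n) : Prop where
  homeo : IsHomeoOn Ω g
  image : g '' Ω = f '' Ω
  c1 : ContDiffOn ℝ 1 g Ω
  diffeo : IsDiffeoOn (Ω \ Z) g
  image_off : g '' (Ω \ Z) = f '' (Ω \ Z)
  eq_on : ∀ x ∈ Ω ∩ Z, g x = f x ∧ fderiv ℝ g x = fderiv ℝ f x
  close : ∀ x ∈ Ω \ Z, ‖g x - f x‖ ≤ τ x ∧ ‖fderiv ℝ g x - fderiv ℝ f x‖ ≤ τ x

end Run7.h7
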