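import Mathlib
import Pool.Agent.Run7.h7.Defs
import Pool.Agent.Run7.h7.Basic
import Pool.Agent.Run7.h7.Weak
import Pool.Agent.Run7.h7.Smooth2

/-!
A limit theorem: local improvements, repeated along an exhaustion.
-/

open MeasureTheory Filter Set Metric
open scoped ENNReal Topology

namespace Run7.h7

variable {n : ℕ}

/-- an exhaustion of an open set by compact sets, starting with the empty set. -/
noncomputable def exh (Ω : Set (E n)) : ℕ → Set (E n)
  | 0 => ∅
  | m + 1 => {x | ‖x‖ ≤ m ∧ ∀ y ∉ Ω, 1 / ((m : ℝ) + 1) ≤ dist x y}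

lemma exh_isCompact (Ω : Set (E n)) (m : ℕ) : IsCompact (exh Ω m) := by
  cases m with
  | zero => exact isCompact_empty
  | succ m =>
    have h1 : IsClosed (exh Ω (m + 1)) := by
      have : exh Ω (m + 1) = {x | ‖x‖ ≤ m} ∩ ⋂ y ∈ Ωᶜ, {x | 1 / ((m : ℝ) + 1) ≤ dist x y} := by
        ext x
        simp [exh]
      rw [this]
      refine (isClosed_le continuous_norm continuous_const).inter ?_
      exact isClosed_biInter fun y _ => isClosed_le continuous_const (by fun_prop)
    refine (isCompact_closedBall (0 : E n) m).of_isClosed_subset h1 ?_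
    intro x hx
    rw [mem_closedBall_zero_iff]
    exact hx.1

lemma exh_subset (Ω : Set (E n)) (m : ℕ) : exh Ω m ⊆ Ω := by
  cases m with
  | zero => exact empty_subset _
  | succ m =>
    intro x hx
    by_contra h
    have := hx.2 x h
    rw [dist_self] at this
    have h2 : (0 : ℝ) < 1 / ((m : ℝ) + 1) := by positivity
    linarith

lemma exh_interior (Ω : Set (E n)) (m : ℕ) : exh Ω m ⊆ interior (exh Ω (m + 1)) := by
  cases m with
  | zero => exact empty_subset _
  | succ m =>
    intro x hx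
    rw [mem_interior_iff_mem_nhds, Metric.mem_nhds_iff]
    have hlt : 1 / ((m : ℝ) + 1 + 1) < 1 / ((m : ℝ) + 1) := by
      apply one_div_lt_one_div_of_lt (by positivity); linarith
    refine ⟨min 1 (1 / ((m : ℝ) + 1) - 1 / ((m : ℝ) + 1 + 1)), ?_, ?_⟩
    · exact lt_min one_pos (by linarith)
    · intro z hz
      rw [mem_ball] at hz
      have h1 := hz.trans_le (min_le_left _ _)
      have h2 := hz.trans_le (min_le_right _ _)
      refine ⟨?_, fun y hy => ?_⟩
      · have : ‖z‖ ≤ ‖x‖ + dist z x := by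
          rw [dist_eq_norm]
          calc ‖z‖ = ‖x + (z - x)‖ := by rw [add_sub_cancel]
            _ ≤ _ := norm_add_le _ _
        have := hx.1
        push_cast
        linarith
      · have h3 := hx.2 y hy
        have h4 : dist x y ≤ dist x z + dist z y := dist_triangle _ _ _
        rw [dist_comm x z] at h4
        push_cast
        linarith

lemma exh_mono (Ω : Set (E n)) : Monotone (exh Ω) :=
  monotone_nat_of_le_succ fun m => (exh_interior Ω m).trans interior_subset

lemma exh_cover {Ω : Set (E n)} (hΩ : IsOpen Ω) {x : E n} (hx : x ∈ Ω) : ∃ m, x ∈ exh Ω m := by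
  obtain ⟨r, hr, hball⟩ := Metric.isOpen_iff.1 hΩ x hx
  obtain ⟨m, hm⟩ := exists_nat_ge (max ‖x‖ (1 / r))
  refine ⟨m + 1, (le_max_left _ _).trans hm, fun y hy => ?_⟩
  by_contra h
  push Not at h
  have h1 : 1 / r ≤ m := (le_max_right _ _).trans hm
  have hm0 : 0 < (m : ℝ) := lt_of_lt_of_le (by positivity) h1
  have h2 : 1 / ((m : ℝ) + 1) ≤ r := by
    rw [div_le_iff₀ (by positivity)]
    rw [div_le_iff₀ hr] at h1
    nlinarith
  apply hy
  apply hball
  rw [mem_ball, dist_comm]
  linarith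

/-- a compact subset of the open set is contained in a member of the exhaustion -/
lemma exh_compact {Ω : Set (E n)} (hΩ : IsOpen Ω) {K : Set (E n)} (hK : IsCompact K)
    (hKΩ : K ⊆ Ω) : ∃ m, K ⊆ interior (exh Ω (m + 1)) := by
  have h1 : K ⊆ ⋃ m, interior (exh Ω (m + 1)) := by
    intro x hx
    obtain ⟨m, hm⟩ := exh_cover hΩ (hKΩ hx)
    exact mem_iUnion.2 ⟨m, exh_interior Ω m hm⟩
  obtain ⟨m, hm⟩ := hK.elim_directed_cover _ (fun m => isOpen_interior) h1
    (directed_of_isDirected_le (fun i j hij => interior_mono (exh_mono Ω (by omega))))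
  exact ⟨m, hm⟩

/-- The class of maps on which the improvements operate. -/
structure Valid (Ω : Set (E n)) (q : ℝ≥0∞) (Loc : (E n → E n) → E n → Prop) (u : E n → E n)
    (D : Fin n → Fin n → E n → E n) : Prop where
  inj : InjOn u Ω
  c1 : ContDiffOn ℝ 1 u Ω
  loc : ∀ x ∈ Ω, Loc u x
  weak : ∀ i j, IsWeakPartial Ω j (pd u i) (D i j)
  mem : ∀ i j, MemLp (D i j) q (volume.restrict Ω)

/-- the norm of the difference of two maps. -/
noncomputable def dW (Ω : Set (E n)) (q : ℝ≥0∞) (u : E n → E n)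
    (D : Fin n → Fin n → E n → E n) (u' : E n → E n) (D' : Fin n → Fin n → E n → E n) : ℝ≥0∞ :=
  W2norm Ω q (fun x => u' x - u x) (fun i x => pd u' i x - pd u i x)
    (fun i j x => D' i j x - D i j x)

/-- Improvements near a compact set. -/
def Stage (Ω : Set (E n)) (q : ℝ≥0∞) (Loc Good : (E n → E n) → E n → Prop) : Prop :=
  ∀ u D, Valid Ω q Loc u D → ∀ K C : Set (E n), IsCompact K → K ⊆ Ω → IsClosed C →
    Disjoint K C → ∀ ε : ℝ≥0∞, ε ≠ 0 → ∃ u' D', Valid Ω q Loc u' D' ∧
      (∀ x ∈ C, u' x = u x ∧ ∀ i j, D' i j x = D i j x) ∧ dW Ω q u D u' D' ≤ ε ∧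
      (∀ x ∈ Ω, Good u x → Good u' x) ∧ ∀ x ∈ K, Good u' x

lemma Valid.aesm {Ω : Set (E n)} (hΩ : IsOpen Ω) {q : ℝ≥0∞} {Loc : (E n → E n) → E n → Prop}
    {u : E n → E n} {D : Fin n → Fin n → E n → E n} (h : Valid Ω q Loc u D) :
    AEStronglyMeasurable u (volume.restrict Ω) :=
  h.c1.continuousOn.aestronglyMeasurable hΩ.measurableSet

lemma Valid.aesm_pd {Ω : Set (E n)} (hΩ : IsOpen Ω) {q : ℝ≥0∞}
    {Loc : (E n → E n) → E n → Prop} {u : E n → E n} {D : Fin n → Fin n → E n → E n}
    (h : Valid Ω q Loc u D) (i : Fin n) :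
    AEStronglyMeasurable (pd u i) (volume.restrict Ω) :=
  ((h.c1.continuousOn_fderiv_of_isOpen hΩ le_rfl).clm_apply
    continuousOn_const).aestronglyMeasurable hΩ.measurableSet

theorem limit_of_stage {Ω : Set (E n)} (hΩ : IsOpen Ω) {q : ℝ≥0∞} (hq : 1 ≤ q)
    {Loc Good : (E n → E n) → E n → Prop}
    (hLoc : ∀ u v x, u =ᶠ[𝓝 x] v → Loc u x → Loc v x)
    (hGood : ∀ u v x, u =ᶠ[𝓝 x] v → Good u x → Good v x) (hst : Stage Ω q Loc Good)
    {f : E n → E n} {Df : Fin n → Fin n → E n → E n} (hf : Valid Ω q Loc f Df) {ε : ℝ≥0∞}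
    (hε : ε ≠ 0) (hε' : ε ≠ ⊤) :
    ∃ g D, Valid Ω q Loc g D ∧ (∀ x ∈ Ω, Good g x) ∧
      dW Ω q f Df g D ≤ (1 + n + n * n) * ε := by
  obtain ⟨e, he, hesum⟩ := ENNReal.exists_pos_sum_of_countable' hε ℕ
  -- the recursion
  let State := {p : (E n → E n) × (Fin n → Fin n → E n → E n) // Valid Ω q Loc p.1 p.2}
  have step : ∀ (m : ℕ) (s : State), ∃ s' : State,
      (∀ x ∈ exh Ω (m - 1), s'.1.1 x = s.1.1 x ∧ ∀ i j, s'.1.2 i j x = s.1.2 i j x) ∧
      dW Ω q s.1.1 s.1.2 s'.1.1 s'.1.2 ≤ e m ∧ (∀ x ∈ Ω, Good s.1.1 x → Good s'.1.1 x) ∧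
      ∀ x ∈ exh Ω (m + 1) \ interior (exh Ω m), Good s'.1.1 x := by
    rintro m ⟨⟨u, D⟩, hs⟩
    have hdis : Disjoint (exh Ω (m + 1) \ interior (exh Ω m)) (exh Ω (m - 1)) := by
      rw [disjoint_left]
      rintro x ⟨-, hx1⟩ hx2
      apply hx1
      cases m with
      | zero => exact absurd hx2 (notMem_empty x)
      | succ m => exact exh_interior Ω m hx2
    obtain ⟨u', D', h1, h2, h3, h4, h5⟩ := hst u D hs (exh Ω (m + 1) \ interior (exh Ω m))
      (exh Ω (m - 1)) ((exh_isCompact Ω (m + 1)).diff isOpen_interior)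
      (sdiff_subset.trans (exh_subset Ω _)) (exh_isCompact Ω _).isClosed hdis (e m) (he m).ne'
    exact ⟨⟨⟨u', D'⟩, h1⟩, h2, h3, h4, h5⟩
  choose F hF1 hF2 hF3 hF4 using step
  let s : ℕ → State := fun m => Nat.rec ⟨⟨f, Df⟩, hf⟩ (fun m t => F m t) m
  have hs0 : s 0 = ⟨⟨f, Df⟩, hf⟩ := rfl
  have hsS : ∀ m, s (m + 1) = F m (s m) := fun m => rfl
  set u : ℕ → E n → E n := fun m => (s m).1.1 with hu
  set D : ℕ → Fin n → Fin n → E n → E n := fun m => (s m).1.2 with hD
  have hval : ∀ m, Valid Ω q Loc (u m) (D m) := fun m => (s m).2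
  -- goodness
  have hgood : ∀ m, ∀ x ∈ exh Ω m, Good (u m) x := by
    intro m
    induction m with
    | zero => intro x hx; exact absurd hx (notMem_empty x)
    | succ m ih =>
      intro x hx
      have e1 : u (m + 1) = (F m (s m)).1.1 := by simp only [hu, hsS]
      rw [e1]
      by_cases hx' : x ∈ interior (exh Ω m)
      · exact hF3 m (s m) x (exh_subset Ω _ hx) (ih x (interior_subset hx'))
      · exact hF4 m (s m) x ⟨hx, hx'⟩
  -- stabilisation
  have hstab1 : ∀ m k, m ≤ k → ∀ x ∈ exh Ω (m - 1), u k x = u m x ∧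
      ∀ i j, D k i j x = D m i j x := by
    intro m k hmk
    induction k, hmk using Nat.le_induction with
    | base => intro x _; exact ⟨rfl, fun _ _ => rfl⟩
    | succ k hmk ih =>
      intro x hx
      have h1 := hF1 k (s k) x (exh_mono Ω (by omega) hx)
      obtain ⟨h2, h3⟩ := ih x hx
      refine ⟨?_, fun i j => ?_⟩
      · have : u (k + 1) x = u k x := by simp only [hu, hsS]; exact h1.1
        rw [this, h2]
      · have : D (k + 1) i j x = D k i j x := by simp only [hD, hsS]; exact h1.2 i j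
        rw [this, h3]
  -- the limit
  have hcov : ∀ x ∈ Ω, ∃ m, x ∈ exh Ω m := fun x hx => exh_cover hΩ hx
  classical
  let N : E n → ℕ := fun x => if h : ∃ m, x ∈ exh Ω m then Nat.find h + 1 else 0
  set g : E n → E n := fun x => u (N x) x with hg
  set G : Fin n → Fin n → E n → E n := fun i j x => D (N x) i j x with hG
  have hstab : ∀ m, ∀ x ∈ exh Ω m, ∀ k, m + 1 ≤ k → g x = u k x ∧ ∀ i j, G i j x = D k i j x := by
    intro m x hx k hk
    have hex : ∃ m, x ∈ exh Ω m := ⟨m, hx⟩
    have hN : N x = Nat.find hex + 1 := by simp only [N, dif_pos hex]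
    have hfind : Nat.find hex ≤ m := Nat.find_min' hex hx
    have h1 := hstab1 (N x) k (by omega) x (by rw [hN]; simpa using Nat.find_spec hex)
    exact ⟨h1.1.symm, fun i j => (h1.2 i j).symm⟩
  have hgerm : ∀ m, ∀ x ∈ interior (exh Ω m), ∀ k, m + 1 ≤ k → g =ᶠ[𝓝 x] u k := by
    intro m x hx k hk
    filter_upwards [isOpen_interior.mem_nhds hx] with y hy
    exact (hstab m y (interior_subset hy) k hk).1
  have hnear : ∀ x ∈ Ω, ∃ m, x ∈ interior (exh Ω (m + 1)) := fun x hx => by
    obtain ⟨m, hm⟩ := hcov x hx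
    exact ⟨m, exh_interior Ω m hm⟩
  -- estimates
  have htri : ∀ m, ∀ i j,
      eLpNorm (fun x => u m x - f x) q (volume.restrict Ω) ≤ ∑ k ∈ Finset.range m, e k ∧
      eLpNorm (fun x => pd (u m) i x - pd f i x) q (volume.restrict Ω) ≤
        ∑ k ∈ Finset.range m, e k ∧
      eLpNorm (fun x => D m i j x - Df i j x) q (volume.restrict Ω) ≤
        ∑ k ∈ Finset.range m, e k := by
    intro m i j
    induction m with
    | zero =>
      have e1 : u 0 = f := rfl
      have e2 : D 0 = Df := rfl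
      simp [e1, e2]
    | succ m ih =>
      obtain ⟨ih1, ih2, ih3⟩ := ih
      have hb : dW Ω q (u m) (D m) (u (m + 1)) (D (m + 1)) ≤ e m := by
        simp only [hu, hD, hsS]; exact hF2 m (s m)
      unfold dW at hb
      rw [W2norm_def] at hb
      have b1 : eLpNorm (fun x => u (m + 1) x - u m x) q (volume.restrict Ω) ≤ e m :=
        (le_self_add.trans le_self_add).trans hb
      have b2 : eLpNorm (fun x => pd (u (m + 1)) i x - pd (u m) i x) q (volume.restrict Ω) ≤
          e m := by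
        refine le_trans ?_ hb
        refine le_trans ?_ le_self_add
        refine le_trans ?_ le_add_self
        exact Finset.single_le_sum (f := fun i => eLpNorm
          (fun x => pd (u (m + 1)) i x - pd (u m) i x) q (volume.restrict Ω))
          (fun _ _ => zero_le) (Finset.mem_univ i)
      have b3 : eLpNorm (fun x => D (m + 1) i j x - D m i j x) q (volume.restrict Ω) ≤ e m := by
        refine le_trans ?_ hb
        refine le_trans ?_ le_add_self
        refine le_trans ?_ (Finset.single_le_sum (f := fun i => ∑ j, eLpNorm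
          (fun x => D (m + 1) i j x - D m i j x) q (volume.restrict Ω))
          (fun _ _ => zero_le) (Finset.mem_univ i))
        exact Finset.single_le_sum (f := fun j => eLpNorm
          (fun x => D (m + 1) i j x - D m i j x) q (volume.restrict Ω))
          (fun _ _ => zero_le) (Finset.mem_univ j)
      have key : ∀ {a b c : E n → E n} {s t : ℝ≥0∞},
          AEStronglyMeasurable a (volume.restrict Ω) →
          AEStronglyMeasurable b (volume.restrict Ω) →
          AEStronglyMeasurable c (volume.restrict Ω) →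
          eLpNorm (fun x => b x - a x) q (volume.restrict Ω) ≤ s →
          eLpNorm (fun x => c x - b x) q (volume.restrict Ω) ≤ t →
          eLpNorm (fun x => c x - a x) q (volume.restrict Ω) ≤ s + t := by
        intro a b c s t ha hb hc h1 h2
        have e1 : (fun x => c x - a x) = (fun x => b x - a x) + fun x => c x - b x := by
          ext1 x; simp only [Pi.add_apply]; abel
        rw [e1]
        exact (eLpNorm_add_le (hb.sub ha) (hc.sub hb) hq).trans (add_le_add h1 h2)
      rw [Finset.sum_range_succ]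
      exact ⟨key (hf.aesm hΩ) ((hval m).aesm hΩ) ((hval (m + 1)).aesm hΩ) ih1 b1,
        key (hf.aesm_pd hΩ i) ((hval m).aesm_pd hΩ i) ((hval (m + 1)).aesm_pd hΩ i) ih2 b2,
        key (hf.mem i j).1 ((hval m).mem i j).1 ((hval (m + 1)).mem i j).1 ih3 b3⟩
  have hle : ∀ m, ∑ k ∈ Finset.range m, e k ≤ ε := fun m =>
    (ENNReal.sum_le_tsum _).trans hesum.le
  have hfatou : ∀ {a : ℕ → E n → E n} {b : E n → E n},
      (∀ m, AEStronglyMeasurable (a m) (volume.restrict Ω)) →
      (∀ x ∈ Ω, ∃ m, ∀ k ≥ m, b x = a k x) →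
      (∀ m, eLpNorm (a m) q (volume.restrict Ω) ≤ ε) →
      AEStronglyMeasurable b (volume.restrict Ω) ∧ eLpNorm b q (volume.restrict Ω) ≤ ε := by
    intro a b ha hb hbd
    have hlim : ∀ᵐ x ∂(volume.restrict Ω), Tendsto (fun k => a k x) atTop (𝓝 (b x)) := by
      rw [ae_restrict_iff' hΩ.measurableSet]
      refine Eventually.of_forall fun x hx => ?_
      obtain ⟨m, hm⟩ := hb x hx
      exact tendsto_const_nhds.congr' (eventually_atTop.2 ⟨m, fun k hk => hm k hk⟩)
    refine ⟨aestronglyMeasurable_of_tendsto_ae atTop ha hlim, ?_⟩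
    refine (Lp.eLpNorm_lim_le_liminf_eLpNorm ha b hlim).trans ?_
    exact (liminf_le_liminf (Eventually.of_forall hbd)).trans (by simp)
  have hpdg : ∀ m, ∀ x ∈ interior (exh Ω m), ∀ k, m + 1 ≤ k → ∀ i, pd g i x = pd (u k) i x := by
    intro m x hx k hk i
    unfold pd
    rw [(hgerm m x hx k hk).fderiv_eq]
  have est0 := hfatou (a := fun m x => u m x - f x) (b := fun x => g x - f x)
    (fun m => ((hval m).aesm hΩ).sub (hf.aesm hΩ)) (fun x hx => by
      obtain ⟨m, hm⟩ := hcov x hx
      exact ⟨m + 1, fun k hk => by rw [(hstab m x hm k hk).1]⟩)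
  have est1 : ∀ i, eLpNorm (fun x => pd g i x - pd f i x) q (volume.restrict Ω) ≤ ε := by
    intro i
    refine (hfatou (a := fun m x => pd (u m) i x - pd f i x)
      (fun m => ((hval m).aesm_pd hΩ i).sub (hf.aesm_pd hΩ i)) (fun x hx => ?_)
      (fun m => (htri m i i).2.1.trans (hle m))).2
    obtain ⟨m, hm⟩ := hnear x hx
    exact ⟨m + 1 + 1, fun k hk => by rw [hpdg (m + 1) x hm k hk i]⟩
  have est2 : ∀ i j, AEStronglyMeasurable (fun x => G i j x - Df i j x) (volume.restrict Ω) ∧
      eLpNorm (fun x => G i j x - Df i j x) q (volume.restrict Ω) ≤ ε := by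
    intro i j
    refine hfatou (a := fun m x => D m i j x - Df i j x)
      (fun m => ((hval m).mem i j).1.sub (hf.mem i j).1) (fun x hx => ?_)
      (fun m => (htri m i j).2.2.trans (hle m))
    obtain ⟨m, hm⟩ := hcov x hx
    exact ⟨m + 1, fun k hk => by rw [(hstab m x hm k hk).2 i j]⟩
  refine ⟨g, G, ⟨?_, ?_, ?_, ?_, ?_⟩, ?_, ?_⟩
  · -- injectivity
    intro x hx y hy hxy
    obtain ⟨m1, hm1⟩ := hcov x hx
    obtain ⟨m2, hm2⟩ := hcov y hy
    set k := max m1 m2 + 1
    have e1 := (hstab m1 x hm1 k (by omega)).1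
    have e2 := (hstab m2 y hm2 k (by omega)).1
    rw [e1, e2] at hxy
    exact (hval k).inj hx hy hxy
  · intro x hx
    obtain ⟨m, hm⟩ := hnear x hx
    have h1 := ((hval (m + 1 + 1)).c1.contDiffAt (hΩ.mem_nhds hx)).congr_of_eventuallyEq
      (hgerm (m + 1) x hm (m + 1 + 1) le_rfl)
    exact h1.contDiffWithinAt
  · intro x hx
    obtain ⟨m, hm⟩ := hnear x hx
    exact hLoc _ _ x (hgerm (m + 1) x hm (m + 1 + 1) le_rfl).symm ((hval (m + 1 + 1)).loc x hx)
  · intro i j φ hφ
    obtain ⟨h1, h2, h3⟩ := hφ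
    obtain ⟨m, hm⟩ := exh_compact hΩ h2 h3
    have hw := (hval (m + 1 + 1)).weak i j φ ⟨h1, h2, h3⟩
    have e1 : ∫ x, fderiv ℝ φ x (bv j) • pd g i x =
        ∫ x, fderiv ℝ φ x (bv j) • pd (u (m + 1 + 1)) i x := by
      congr 1
      ext1 x
      by_cases hx : x ∈ tsupport φ
      · rw [hpdg (m + 1) x (hm hx) _ le_rfl i]
      · have : fderiv ℝ φ x (bv j) = 0 := by
          by_contra h'
          exact hx (support_fderiv_apply_subset (bv j) h')
        simp [this]
    have e2 : ∫ x, φ x • G i j x = ∫ x, φ x • D (m + 1 + 1) i j x := by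
      congr 1
      ext1 x
      by_cases hx : x ∈ tsupport φ
      · rw [(hstab (m + 1) x (interior_subset (hm hx)) _ le_rfl).2 i j]
      · simp [image_eq_zero_of_notMem_tsupport hx]
    rw [e1, e2]
    exact hw
  · intro i j
    have h1 : MemLp (fun x => G i j x - Df i j x) q (volume.restrict Ω) :=
      ⟨(est2 i j).1, lt_of_le_of_lt (est2 i j).2 (lt_top_iff_ne_top.2 hε')⟩
    have h2 := h1.add (hf.mem i j)
    have h3 : (fun x => G i j x - Df i j x) + Df i j = G i j := by
      ext1 x; simp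
    rwa [h3] at h2
  · intro x hx
    obtain ⟨m, hm⟩ := hcov x hx
    have h1 : x ∈ exh Ω (m + 1 + 1) := exh_mono Ω (by omega) hm
    exact hGood _ _ x (hgerm (m + 1) x (exh_interior Ω m hm) (m + 1 + 1) le_rfl).symm
      (hgood (m + 1 + 1) x h1)
  · unfold dW
    rw [W2norm_def]
    have e0 : eLpNorm (fun x => g x - f x) q (volume.restrict Ω) ≤ ε := by
      rcases Nat.eq_zero_or_pos n with h0 | h0
      · subst h0
        have : (fun x : E 0 => g x - f x) = fun _ => 0 := by
          ext1 x; exact Subsingleton.elim _ _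
        rw [this]; simp
      · exact (est0 (fun m => (htri m ⟨0, h0⟩ ⟨0, h0⟩).1.trans (hle m))).2
    calc _ ≤ ε + ∑ _i : Fin n, ε + ∑ _i : Fin n, ∑ _j : Fin n, ε :=
          add_le_add (add_le_add e0 (Finset.sum_le_sum fun i _ => est1 i))
            (Finset.sum_le_sum fun i _ => Finset.sum_le_sum fun j _ => (est2 i j).2)
      _ = _ := by
          simp only [Finset.sum_const, Finset.card_univ, Fintype.card_fin, nsmul_eq_mul]
          ring

end Run7.h7
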