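import Mathlib
import Pool.Agent.Run7.h7.Defs
import Pool.Agent.Run7.h7.Basic
import Pool.Agent.Run7.h7.Weak
import Pool.Agent.Run7.h7.WeakC1
import Pool.Agent.Run7.h7.Smooth2
import Pool.Agent.Run7.h7.Limit
import Pool.Agent.Run7.h7.Perturb

/-!
Smoothing of injective immersions of class `C^1` with second derivatives in `L^q`.
-/

open MeasureTheory Filter Set Metric
open scoped ENNReal Topology ContDiff

namespace Run7.h7

variable {n : ℕ}

section formulas

variable {F : Type*} [NormedAddCommGroup F] [NormedSpace ℝ F] [CompleteSpace F]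

/-- The second derivative of a product with a scalar function. -/
noncomputable def prod2 (χ : E n → ℝ) (u : E n → F) (D : Fin n → Fin n → E n → F)
    (i j : Fin n) (x : E n) : F :=
  (pd2 χ i j x • u x + pd χ i x • pd u j x) + (pd χ j x • pd u i x + χ x • D i j x)

lemma pd_smul {χ : E n → ℝ} {u : E n → F} {x : E n} (h1 : DifferentiableAt ℝ χ x)
    (h2 : DifferentiableAt ℝ u x) (i : Fin n) :
    pd (fun y => χ y • u y) i x = pd χ i x • u x + χ x • pd u i x := by
  unfold pd
  rw [fderiv_fun_smul h1 h2]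
  simp only [add_apply, smul_apply, ContinuousLinearMap.smulRight_apply]
  rw [add_comm]

lemma pd_continuousOn {Ω : Set (E n)} (hΩ : IsOpen Ω) {u : E n → F} (hu : ContDiffOn ℝ 1 u Ω)
    (i : Fin n) : ContinuousOn (pd u i) Ω :=
  (hu.continuousOn_fderiv_of_isOpen hΩ le_rfl).clm_apply continuousOn_const

lemma smooth_pd {χ : E n → F} (hχ : ContDiff ℝ ∞ χ) (i : Fin n) : ContDiff ℝ ∞ (pd χ i) :=
  (hχ.fderiv_right (m := ∞) (by simp)).clm_apply contDiff_const

/-- Weak second derivatives of a product. -/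
lemma weak_prod2 {Ω : Set (E n)} (hΩ : IsOpen Ω) {χ : E n → ℝ} (hχ : ContDiff ℝ ∞ χ)
    {u : E n → F} (hu : ContDiffOn ℝ 1 u Ω) {D : Fin n → Fin n → E n → F} {i j : Fin n}
    (hw : IsWeakPartial Ω j (pd u i) (D i j)) (hD : LocallyIntegrableOn (D i j) Ω) :
    IsWeakPartial Ω j (fun x => pd χ i x • u x + χ x • pd u i x) (prod2 χ u D i j) := by
  have hχ1 : ContDiff ℝ 1 χ := hχ.of_le (by simp)
  have hpχ : ContDiff ℝ ∞ (pd χ i) := smooth_pd hχ i
  have hpχ1 : ContDiff ℝ 1 (pd χ i) := hpχ.of_le (by simp)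
  have cu : ContinuousOn u Ω := hu.continuousOn
  have cpu : ∀ i, ContinuousOn (pd u i) Ω := fun i => pd_continuousOn hΩ hu i
  have lu : LocallyIntegrableOn u Ω := cu.locallyIntegrableOn hΩ.measurableSet
  have lpu : ∀ i, LocallyIntegrableOn (pd u i) Ω := fun i =>
    (cpu i).locallyIntegrableOn hΩ.measurableSet
  have w1 := (IsWeakPartial.of_contDiffOn hΩ hu j).smul hΩ lu (lpu j) hpχ1.contDiffOn
  have w2 := hw.smul hΩ (lpu i) hD hχ1.contDiffOn
  have c1 : ContinuousOn (fun x => pd χ i x • u x) Ω := hpχ.continuous.continuousOn.smul cu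
  have c2 : ContinuousOn (fun x => pd (pd χ i) j x • u x + pd χ i x • pd u j x) Ω :=
    ((smooth_pd hpχ j).continuous.continuousOn.smul cu).add
      (hpχ.continuous.continuousOn.smul (cpu j))
  have c3 : ContinuousOn (fun x => χ x • pd u i x) Ω := hχ.continuous.continuousOn.smul (cpu i)
  have l4 : LocallyIntegrableOn (fun x => pd χ j x • pd u i x + χ x • D i j x) Ω :=
    ((lpu i).continuousOn_smul hΩ.isLocallyClosed (smooth_pd hχ j).continuous.continuousOn).add
      (hD.continuousOn_smul hΩ.isLocallyClosed hχ.continuous.continuousOn)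
  exact w1.add w2 (c1.locallyIntegrableOn hΩ.measurableSet)
    (c2.locallyIntegrableOn hΩ.measurableSet) (c3.locallyIntegrableOn hΩ.measurableSet) l4

lemma pd_eq_zero_of_notMem_tsupport {χ : E n → F} {x : E n} (hx : x ∉ tsupport χ) (i : Fin n) :
    pd χ i x = 0 := by
  unfold pd
  have : χ =ᶠ[𝓝 x] fun _ => 0 := by
    filter_upwards [(isClosed_tsupport χ).isOpen_compl.mem_nhds hx] with y hy
    exact image_eq_zero_of_notMem_tsupport hy
  rw [this.fderiv_eq]
  simp

lemma tsupport_pd_subset (χ : E n → F) (i : Fin n) : tsupport (pd χ i) ⊆ tsupport χ := by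
  refine closure_minimal ?_ (isClosed_tsupport χ)
  intro x hx
  by_contra h
  exact hx (pd_eq_zero_of_notMem_tsupport h i)

lemma prod2_eq_zero {χ : E n → ℝ} {u : E n → F} {D : Fin n → Fin n → E n → F}
    {x : E n} (hx : x ∉ tsupport χ) (i j : Fin n) : prod2 χ u D i j x = 0 := by
  unfold prod2
  have h1 : pd2 χ i j x = 0 := by
    have : x ∉ tsupport (pd χ i) := fun h => hx (tsupport_pd_subset χ i h)
    exact pd_eq_zero_of_notMem_tsupport this j
  rw [h1, pd_eq_zero_of_notMem_tsupport hx, pd_eq_zero_of_notMem_tsupport hx,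
    image_eq_zero_of_notMem_tsupport hx]
  simp

end formulas

/-- The localisation of a map of class `C^1` with weak second derivatives. -/
lemma localise {Ω S : Set (E n)} (hΩ : IsOpen Ω) (hS : IsCompact S) (hSΩ : S ⊆ Ω) {q : ℝ≥0∞}
    (hq : 1 ≤ q) {u : E n → E n} {D : Fin n → Fin n → E n → E n} (hu : ContDiffOn ℝ 1 u Ω)
    (hw : ∀ i j, IsWeakPartial Ω j (pd u i) (D i j))
    (hD : ∀ i j, MemLp (D i j) q (volume.restrict Ω)) :
    ∃ (w : E n → E n) (W : Fin n → Fin n → E n → E n), ContDiff ℝ 1 w ∧ HasCompactSupport w ∧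
      (∀ᶠ x in 𝓝ˢ S, w x = u x) ∧ (∀ i j, IsWeakPartial univ j (pd w i) (W i j)) ∧
      ∀ i j, MemLp (W i j) q := by
  obtain ⟨θ, hθ, hθc, hθΩ, hθ1, hθI⟩ := exists_cutoff hS hΩ hSΩ
  have hlD : ∀ i j, LocallyIntegrableOn (D i j) Ω := fun i j =>
    locallyIntegrableOn_of_memLp hq (hD i j)
  set w : E n → E n := fun x => θ x • u x with hwdef
  have hsup : tsupport w ⊆ tsupport θ := closure_mono (by
    intro x hx
    simp only [hwdef, Function.mem_support, ne_eq, smul_eq_zero, not_or] at hx
    exact hx.1)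
  have hzero : ∀ x, x ∉ tsupport θ → w =ᶠ[𝓝 x] fun _ => 0 := by
    intro x hx
    filter_upwards [(isClosed_tsupport θ).isOpen_compl.mem_nhds hx] with y hy
    simp only [hwdef]
    rw [image_eq_zero_of_notMem_tsupport hy, zero_smul]
  have hw1 : ContDiff ℝ 1 w := by
    rw [contDiff_iff_contDiffAt]
    intro x
    by_cases hx : x ∈ tsupport θ
    · exact (hθ.of_le (by simp)).contDiffAt.smul (hu.contDiffAt (hΩ.mem_nhds (hθΩ hx)))
    · exact contDiffAt_const.congr_of_eventuallyEq (hzero x hx)
  have hpd : ∀ i x, pd w i x = pd θ i x • u x + θ x • pd u i x := by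
    intro i x
    by_cases hx : x ∈ tsupport θ
    · exact pd_smul (hθ.differentiable (by simp) x)
        ((hu.contDiffAt (hΩ.mem_nhds (hθΩ hx))).differentiableAt (by simp)) i
    · have h1 : pd w i x = 0 := pd_eq_zero_of_notMem_tsupport (fun h => hx (hsup h)) i
      rw [h1, pd_eq_zero_of_notMem_tsupport hx, image_eq_zero_of_notMem_tsupport hx]
      simp
  refine ⟨w, prod2 θ u D, hw1, hθc.of_isClosed_subset (isClosed_tsupport _) hsup, ?_, ?_, ?_⟩
  · filter_upwards [hθ1] with x hx
    simp only [hwdef]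
    rw [hx, one_smul]
  · intro i j
    have h1 := weak_prod2 hΩ hθ hu (hw i j) (hlD i j)
    have h2 : (fun x => pd θ i x • u x + θ x • pd u i x) = pd w i := by
      ext1 x; exact (hpd i x).symm
    rw [h2] at h1
    refine h1.extend hΩ hθc.isCompact hθΩ ?_ ?_
    · intro x hx
      exact pd_eq_zero_of_notMem_tsupport (fun h => hx (hsup h)) i
    · intro x hx
      exact prod2_eq_zero hx i j
  · intro i j
    have hK : IsCompact (tsupport θ) := hθc.isCompact
    have hKm : MeasurableSet (tsupport θ) := (isClosed_tsupport θ).measurableSet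
    have hind : (tsupport θ).indicator (prod2 θ u D i j) = prod2 θ u D i j := by
      ext1 x
      by_cases hx : x ∈ tsupport θ
      · rw [indicator_of_mem hx]
      · rw [indicator_of_notMem hx, prod2_eq_zero hx]
    rw [← hind, memLp_indicator_iff_restrict hKm]
    have hfin : IsFiniteMeasure (volume.restrict (tsupport θ)) := ⟨by
      rw [Measure.restrict_apply_univ]; exact hK.measure_lt_top⟩
    have hcont : ∀ {v : E n → E n}, ContinuousOn v Ω →
        MemLp v q (volume.restrict (tsupport θ)) := by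
      intro v hv
      obtain ⟨C, hC⟩ := hK.exists_bound_of_continuousOn (hv.mono hθΩ)
      refine MemLp.of_bound ((hv.mono hθΩ).aestronglyMeasurable hKm) C ?_
      rw [ae_restrict_iff' hKm]
      exact Eventually.of_forall hC
    have cu : ContinuousOn u Ω := hu.continuousOn
    have cpu : ∀ i, ContinuousOn (pd u i) Ω := fun i => pd_continuousOn hΩ hu i
    have m1 := hcont (((smooth_pd (smooth_pd hθ i) j).continuous.continuousOn).smul cu)
    have m2 := hcont (((smooth_pd hθ i).continuous.continuousOn).smul (cpu j))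
    have m3 := hcont (((smooth_pd hθ j).continuous.continuousOn).smul (cpu i))
    have m4 : MemLp (fun x => θ x • D i j x) q (volume.restrict (tsupport θ)) := by
      have hDθ : MemLp (D i j) q (volume.restrict (tsupport θ)) :=
        (hD i j).mono_measure (Measure.restrict_mono hθΩ le_rfl)
      refine hDθ.mono (hθ.continuous.aestronglyMeasurable.restrict.smul hDθ.1) ?_
      refine Eventually.of_forall fun x => ?_
      rw [norm_smul, Real.norm_of_nonneg (hθI x).1]
      exact mul_le_of_le_one_left (norm_nonneg _) (hθI x).2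
    exact (m1.add m2).add (m3.add m4)


end Run7.h7
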