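import Mathlib
import Pool.Agent.Run7.h7.Defs
import Pool.Agent.Run7.h7.Basic
import Pool.Agent.Run7.h7.Weak
import Pool.Agent.Run7.h7.WeakC1
import Pool.Agent.Run7.h7.Smooth2
import Pool.Agent.Run7.h7.Limit
import Pool.Agent.Run7.h7.Perturb
import Pool.Agent.Run7.h7.Moll
import Pool.Agent.Run7.h7.Smoothing

/-!
Smoothing of injective immersions of class `C^1` with second derivatives in `L^q`.
-/

open MeasureTheory Filter Set Metric
open scoped ENNReal Topology ContDiff

namespace Run7.h7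

variable {n : ℕ}

/-- `L^q` norm of a bounded function supported in a compact set. -/
lemma eLpNorm_le_of_support {Ω S : Set (E n)} {q : ℝ≥0∞}
    {v : E n → E n} {b : ℝ} (h0 : ∀ x, x ∉ S → v x = 0) (hb : ∀ x, ‖v x‖ ≤ b) :
    eLpNorm v q (volume.restrict Ω) ≤ volume S ^ q.toReal⁻¹ * ENNReal.ofReal b := by
  have h1 : eLpNorm v q (volume.restrict Ω) ≤ eLpNorm v q volume :=
    eLpNorm_mono_measure _ Measure.restrict_le_self
  have hsup : Function.support v ⊆ S := by
    intro x hx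
    by_contra h
    exact hx (h0 x h)
  have h2 := eLpNorm_restrict_eq_of_support_subset (μ := volume) (p := q) hsup
  have h3 := eLpNorm_le_of_ae_bound (p := q) (μ := volume.restrict S) (f := v) (C := b)
    (Eventually.of_forall hb)
  rw [Measure.restrict_apply_univ, h2] at h3
  exact h1.trans h3

/-- small numbers -/
lemma exists_small {c ε : ℝ≥0∞} (hc : c ≠ ⊤) (hε : ε ≠ 0) :
    ∃ η : ℝ, 0 < η ∧ c * ENNReal.ofReal η ≤ ε := by
  have h1 : Tendsto (fun t : ℝ => c * ENNReal.ofReal t) (𝓝[>] 0) (𝓝 0) := by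
    have h2 : Tendsto (fun t : ℝ => ENNReal.ofReal t) (𝓝[>] 0) (𝓝 0) := by
      have := (ENNReal.continuous_ofReal.tendsto (0 : ℝ)).mono_left
        (nhdsWithin_le_nhds (s := Ioi 0))
      simpa using this
    simpa using ENNReal.Tendsto.const_mul h2 (Or.inr hc)
  have h3 := (ENNReal.tendsto_nhds_zero.1 h1) ε (pos_iff_ne_zero.2 hε)
  obtain ⟨t, ht1, ht2⟩ := (h3.and self_mem_nhdsWithin).exists
  exact ⟨t, ht2, ht1⟩

lemma exists_bound_all {ι : Type*} [Finite ι] {g : ι → E n → ℝ} (hg : ∀ i, Continuous (g i))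
    (hc : ∀ i, HasCompactSupport (g i)) : ∃ M : ℝ, 0 ≤ M ∧ ∀ i x, |g i x| ≤ M := by
  have : Fintype ι := Fintype.ofFinite ι
  choose C hC using fun i => (hg i).bounded_above_of_compact_support (hc i)
  refine ⟨∑ i, |C i|, by positivity, fun i x => ?_⟩
  calc |g i x| ≤ C i := hC i x
    _ ≤ |C i| := le_abs_self _
    _ ≤ ∑ i, |C i| := Finset.single_le_sum (f := fun i => |C i|) (fun _ _ => abs_nonneg _)
        (Finset.mem_univ i)

/-- Data of a small perturbation: a `C^1` map, small in `C^1`, with weak second derivatives. -/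
structure Small (q : ℝ≥0∞) (η : ℝ) (ε : ℝ≥0∞) (d : E n → E n)
    (T : Fin n → Fin n → E n → E n) : Prop where
  c1 : ContDiff ℝ 1 d
  b0 : ∀ x, ‖d x‖ ≤ η
  b1 : ∀ i x, ‖pd d i x‖ ≤ η
  weak : ∀ i j, IsWeakPartial univ j (pd d i) (T i j)
  mem : ∀ i j, MemLp (T i j) q
  b2 : ∑ i, ∑ j, eLpNorm (T i j) q ≤ ε

/-- Mollification of compactly supported maps. -/
lemma exists_smooth_close {q : ℝ≥0∞} (hq : 1 ≤ q) (hq' : q ≠ ⊤) {w : E n → E n}
    {W : Fin n → Fin n → E n → E n} (hw1 : ContDiff ℝ 1 w) (hwc : HasCompactSupport w)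
    (hwW : ∀ i j, IsWeakPartial univ j (pd w i) (W i j)) (hWL : ∀ i j, MemLp (W i j) q)
    {η : ℝ} (hη : 0 < η) {ε : ℝ≥0∞} (hε : ε ≠ 0) :
    ∃ (d : E n → E n) (T : Fin n → Fin n → E n → E n), Small q η ε d T ∧
      ContDiff ℝ ∞ (fun x => w x + d x) := by
  have hpw : ∀ i, Continuous (pd w i) := fun i =>
    (hw1.continuous_fderiv (by simp)).clm_apply continuous_const
  have hpwc : ∀ i, HasCompactSupport (pd w i) := fun i =>
    hwc.of_isClosed_subset (isClosed_tsupport _) (tsupport_pd_subset w i)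
  have ev0 := mo_close hw1.continuous hwc hη
  have ev1 : ∀ᶠ k in atTop, ∀ i, ∀ x, ‖mo k (pd w i) x - pd w i x‖ ≤ η :=
    eventually_all.2 fun i => mo_close (hpw i) (hpwc i) hη
  have ev2 : ∀ᶠ k in atTop, ∑ i, ∑ j, eLpNorm (fun x => mo k (W i j) x - W i j x) q ≤ ε := by
    have h1 : Tendsto (fun k => ∑ i, ∑ j, eLpNorm (fun x => mo k (W i j) x - W i j x) q)
        atTop (𝓝 (∑ _i : Fin n, ∑ _j : Fin n, 0)) :=
      tendsto_finsetSum _ fun i _ => tendsto_finsetSum _ fun j _ => mo_tendsto hq hq' (hWL i j)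
    simp only [Finset.sum_const_zero] at h1
    exact (ENNReal.tendsto_nhds_zero.1 h1) _ (pos_iff_ne_zero.2 hε)
  obtain ⟨k, hk0, hk1, hk2⟩ := (ev0.and (ev1.and ev2)).exists
  have hms : ContDiff ℝ ∞ (mo k w) := mo_contDiff hw1.continuous.locallyIntegrable k
  have hms1 : ContDiff ℝ 1 (mo k w) := hms.of_le (by simp)
  have hpmo : ∀ i x, pd (mo k w) i x = mo k (pd w i) x := fun i x => mo_fderiv hw1 hwc k x (bv i)
  have hpmo' : ∀ i, pd (mo k w) i = mo k (pd w i) := fun i => funext (hpmo i)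
  have hpd : ∀ i x, pd (fun x => mo k w x - w x) i x = mo k (pd w i) x - pd w i x := by
    intro i x
    have : pd (fun x => mo k w x - w x) i x = pd (mo k w) i x - pd w i x := by
      unfold pd
      rw [fderiv_fun_sub (hms.differentiable (by simp) x) (hw1.differentiable (by simp) x),
        sub_apply]
    rw [this, hpmo]
  have hlW : ∀ i j, LocallyIntegrable (W i j) := fun i j => (hWL i j).locallyIntegrable hq
  have hcW : ∀ i j, Continuous (mo k (W i j)) := fun i j => (mo_contDiff (hlW i j) k).continuous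
  have hmoW : ∀ i j, IsWeakPartial univ j (pd (mo k w) i) (mo k (W i j)) := by
    intro i j
    have h1 : ContDiff ℝ ∞ (pd (mo k w) i) := smooth_pd hms i
    have h1' : ContDiff ℝ 1 (pd (mo k w) i) := h1.of_le (by simp)
    have h2 := IsWeakPartial.of_contDiffOn isOpen_univ h1'.contDiffOn j
    have h3 : (fun x => fderiv ℝ (pd (mo k w) i) x (bv j)) = mo k (W i j) := by
      ext1 x
      rw [hpmo' i]
      exact mo_fderiv_weak (hwW i j) (hpw i).locallyIntegrable k x
    rwa [h3] at h2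
  have hTw : ∀ i j, IsWeakPartial univ j (pd (fun x => mo k w x - w x) i)
      (fun x => mo k (W i j) x - W i j x) := by
    intro i j
    have h1 : IsWeakPartial univ j (fun x => (-1 : ℝ) • pd w i x) (fun x => (-1 : ℝ) • W i j x) :=
      (hwW i j).clm ((hpw i).locallyIntegrable.locallyIntegrableOn _)
        ((hlW i j).locallyIntegrableOn _) ((-1 : ℝ) • ContinuousLinearMap.id ℝ (E n))
    have h2 := (hmoW i j).add h1
      ((smooth_pd hms i).continuous.locallyIntegrable.locallyIntegrableOn _)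
      ((hcW i j).locallyIntegrable.locallyIntegrableOn _)
      (((hpw i).const_smul (-1 : ℝ)).locallyIntegrable.locallyIntegrableOn _)
      (((hlW i j).smul (-1 : ℝ)).locallyIntegrableOn _)
    refine h2.congr_ae (Eventually.of_forall fun x _ => ?_) (Eventually.of_forall fun x _ => ?_)
    · rw [hpd, hpmo]; simp [sub_eq_add_neg]
    · simp [sub_eq_add_neg]
  refine ⟨fun x => mo k w x - w x, fun i j x => mo k (W i j) x - W i j x,
    ⟨hms1.sub hw1, hk0, fun i x => ?_, hTw, fun i j => ?_, hk2⟩, ?_⟩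
  · rw [hpd]; exact hk1 i x
  · have h1 := mo_eLpNorm_le hq hq' (hWL i j).1 k
    have h2 : MemLp (mo k (W i j)) q := ⟨(hcW i j).aestronglyMeasurable,
      lt_of_le_of_lt h1 (hWL i j).2⟩
    exact h2.sub (hWL i j)
  · have : (fun x => w x + (mo k w x - w x)) = mo k w := by ext1 x; simp
    rw [this]
    exact hms

lemma sum_bound {V e a0 : ℝ≥0∞} {a1 : Fin n → ℝ≥0∞} {a2 t : Fin n → Fin n → ℝ≥0∞} (h0 : a0 ≤ V)
    (h1 : ∀ i, a1 i ≤ V) (h2 : ∀ i j, a2 i j ≤ V + t i j) (ht : ∑ i, ∑ j, t i j ≤ e) :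
    a0 + ∑ i, a1 i + ∑ i, ∑ j, a2 i j ≤ (1 + n + n * n) * V + e := by
  have e1 : ∑ i, a1 i ≤ n * V := by
    calc ∑ i, a1 i ≤ ∑ _i : Fin n, V := Finset.sum_le_sum fun i _ => h1 i
      _ = n * V := by simp
  have e2 : ∑ i, ∑ j, a2 i j ≤ n * n * V + ∑ i, ∑ j, t i j := by
    calc ∑ i, ∑ j, a2 i j ≤ ∑ i : Fin n, ∑ j : Fin n, (V + t i j) :=
          Finset.sum_le_sum fun i _ => Finset.sum_le_sum fun j _ => h2 i j
      _ = n * n * V + ∑ i, ∑ j, t i j := by
          simp only [Finset.sum_add_distrib, Finset.sum_const, Finset.card_univ,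
            Fintype.card_fin, nsmul_eq_mul]
          ring
  calc a0 + ∑ i, a1 i + ∑ i, ∑ j, a2 i j ≤ V + n * V + (n * n * V + e) := by
        gcongr
        exact e2.trans (by gcongr)
    _ = (1 + n + n * n) * V + e := by ring

/-- Cutting off a small perturbation. -/
lemma Small.cutoff {q : ℝ≥0∞} (hq : 1 ≤ q) {χ : E n → ℝ} (hχ : ContDiff ℝ ∞ χ)
    (hχc : HasCompactSupport χ) (hχI : ∀ x, χ x ∈ Icc (0 : ℝ) 1) :
    ∃ M : ℝ, 0 < M ∧ ∀ (η : ℝ) (ε : ℝ≥0∞) (d : E n → E n) (T : Fin n → Fin n → E n → E n),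
      0 ≤ η → ε ≠ ⊤ → Small q η ε d T →
      ContDiff ℝ 1 (fun x => χ x • d x) ∧
      (∀ i x, ‖pd (fun x => χ x • d x) i x‖ ≤ 2 * M * η) ∧
      (∀ i j, IsWeakPartial univ j (pd (fun x => χ x • d x) i) (prod2 χ d T i j)) ∧
      (∀ i j, MemLp (prod2 χ d T i j) q) ∧
      (∀ Ω : Set (E n), W2norm Ω q (fun x => χ x • d x) (pd (fun x => χ x • d x))
        (prod2 χ d T) ≤ (1 + n + n * n) * (volume (tsupport χ) ^ q.toReal⁻¹ *
          ENNReal.ofReal (3 * M)) * ENNReal.ofReal η + ε) := by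
  have hpχ : ∀ i, ContDiff ℝ ∞ (pd χ i) := smooth_pd hχ
  have hp2χ : ∀ i j, ContDiff ℝ ∞ (pd2 χ i j) := fun i j => smooth_pd (hpχ i) j
  obtain ⟨M1, hM1, hM1'⟩ := exists_bound_all (g := fun i => pd χ i)
    (fun i => (hpχ i).continuous) (fun i => hχc.of_isClosed_subset (isClosed_tsupport _)
      (tsupport_pd_subset χ i))
  obtain ⟨M2, hM2, hM2'⟩ := exists_bound_all (g := fun p : Fin n × Fin n => pd2 χ p.1 p.2)
    (fun p => (hp2χ p.1 p.2).continuous) (fun p => hχc.of_isClosed_subset (isClosed_tsupport _)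
      ((tsupport_pd_subset (pd χ p.1) p.2).trans (tsupport_pd_subset χ p.1)))
  set M : ℝ := 1 + M1 + M2 with hM
  have hMpos : 0 < M := by positivity
  have bχ : ∀ x, |χ x| ≤ M := fun x => by
    rw [abs_of_nonneg (hχI x).1]; have := (hχI x).2; linarith
  have bpχ : ∀ i x, |pd χ i x| ≤ M := fun i x => by have := hM1' i x; linarith
  have bp2χ : ∀ i j x, |pd2 χ i j x| ≤ M := fun i j x => by have := hM2' (i, j) x; linarith
  refine ⟨M, hMpos, fun η ε d T hη hε hd => ?_⟩
  have hh1 : ContDiff ℝ 1 (fun x => χ x • d x) := (hχ.of_le (by simp)).smul hd.c1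
  have hh0 : ∀ x, x ∉ tsupport χ → (fun x => χ x • d x) x = 0 := fun x hx => by
    simp only; rw [image_eq_zero_of_notMem_tsupport hx, zero_smul]
  have hph : ∀ i x, pd (fun x => χ x • d x) i x = pd χ i x • d x + χ x • pd d i x := fun i x =>
    pd_smul (hχ.differentiable (by simp) x) (hd.c1.differentiable (by simp) x) i
  have bph : ∀ i x, ‖pd (fun x => χ x • d x) i x‖ ≤ 2 * M * η := by
    intro i x
    rw [hph]
    calc _ ≤ ‖pd χ i x • d x‖ + ‖χ x • pd d i x‖ := norm_add_le _ _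
      _ = |pd χ i x| * ‖d x‖ + |χ x| * ‖pd d i x‖ := by
          rw [norm_smul, norm_smul, Real.norm_eq_abs, Real.norm_eq_abs]
      _ ≤ M * η + M * η := by
          gcongr
          · exact bpχ i x
          · exact hd.b0 x
          · exact bχ x
          · exact hd.b1 i x
      _ = _ := by ring
  have hlT : ∀ i j, LocallyIntegrable (T i j) := fun i j => (hd.mem i j).locallyIntegrable hq
  have hprodw : ∀ i j, IsWeakPartial univ j (pd (fun x => χ x • d x) i) (prod2 χ d T i j) := by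
    intro i j
    have h1 := weak_prod2 isOpen_univ hχ hd.c1.contDiffOn (D := T) (hd.weak i j)
      ((hlT i j).locallyIntegrableOn _)
    have h2 : (fun x => pd χ i x • d x + χ x • pd d i x) = pd (fun x => χ x • d x) i := by
      ext1 x; exact (hph i x).symm
    rwa [h2] at h1
  have hTm : ∀ i j, AEStronglyMeasurable (T i j) := fun i j => (hd.mem i j).1
  have hRc : ∀ i j, Continuous fun x =>
      (pd2 χ i j x • d x + pd χ i x • pd d j x) + pd χ j x • pd d i x := fun i j => by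
    have cd : Continuous d := hd.c1.continuous
    have cpd : ∀ i, Continuous (pd d i) := fun i =>
      (hd.c1.continuous_fderiv (by simp)).clm_apply continuous_const
    exact (((hp2χ i j).continuous.smul cd).add ((hpχ i).continuous.smul (cpd j))).add
      ((hpχ j).continuous.smul (cpd i))
  have hprodR : ∀ i j, prod2 χ d T i j = (fun x =>
      (pd2 χ i j x • d x + pd χ i x • pd d j x) + pd χ j x • pd d i x) +
      fun x => χ x • T i j x := by
    intro i j
    ext1 x
    simp only [prod2, Pi.add_apply]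
    abel
  have hR0 : ∀ i j x, x ∉ tsupport χ →
      (pd2 χ i j x • d x + pd χ i x • pd d j x) + pd χ j x • pd d i x = 0 := by
    intro i j x hx
    have h1 : pd2 χ i j x = 0 := by
      have : x ∉ tsupport (pd χ i) := fun h => hx (tsupport_pd_subset χ i h)
      exact pd_eq_zero_of_notMem_tsupport this j
    rw [h1, pd_eq_zero_of_notMem_tsupport hx, pd_eq_zero_of_notMem_tsupport hx]
    simp
  have bR : ∀ i j x, ‖(pd2 χ i j x • d x + pd χ i x • pd d j x) + pd χ j x • pd d i x‖ ≤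
      3 * M * η := by
    intro i j x
    calc _ ≤ ‖pd2 χ i j x • d x + pd χ i x • pd d j x‖ + ‖pd χ j x • pd d i x‖ :=
          norm_add_le _ _
      _ ≤ (‖pd2 χ i j x • d x‖ + ‖pd χ i x • pd d j x‖) + ‖pd χ j x • pd d i x‖ := by
          gcongr; exact norm_add_le _ _
      _ = (|pd2 χ i j x| * ‖d x‖ + |pd χ i x| * ‖pd d j x‖) + |pd χ j x| * ‖pd d i x‖ := by
          simp only [norm_smul, Real.norm_eq_abs]
      _ ≤ (M * η + M * η) + M * η := by
          gcongr
          · exact bp2χ i j x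
          · exact hd.b0 x
          · exact bpχ i x
          · exact hd.b1 j x
          · exact bpχ j x
          · exact hd.b1 i x
      _ = _ := by ring
  have bh : ∀ x, ‖χ x • d x‖ ≤ 3 * M * η := by
    intro x
    rw [norm_smul, Real.norm_eq_abs]
    calc |χ x| * ‖d x‖ ≤ M * η := by gcongr; exacts [bχ x, hd.b0 x]
      _ ≤ 3 * M * η := by nlinarith
  have hχT : ∀ (Ω : Set (E n)) i j, eLpNorm (fun x => χ x • T i j x) q (volume.restrict Ω) ≤
      eLpNorm (T i j) q := by
    intro Ω i j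
    refine (eLpNorm_mono_measure _ Measure.restrict_le_self).trans (eLpNorm_mono fun x => ?_)
    rw [norm_smul, Real.norm_of_nonneg (hχI x).1]
    exact mul_le_of_le_one_left (norm_nonneg _) (hχI x).2
  have hprodL : ∀ (Ω : Set (E n)) i j, eLpNorm (prod2 χ d T i j) q (volume.restrict Ω) ≤
      volume (tsupport χ) ^ q.toReal⁻¹ * ENNReal.ofReal (3 * M * η) + eLpNorm (T i j) q := by
    intro Ω i j
    rw [hprodR i j]
    have e1 := eLpNorm_add_le (μ := volume.restrict Ω) (p := q)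
      (hRc i j).aestronglyMeasurable
      ((hχ.continuous.aestronglyMeasurable.smul (hTm i j)).restrict) hq
    have e2 := eLpNorm_le_of_support (Ω := Ω) (q := q) (hR0 i j) (bR i j)
    have e3 := hχT Ω i j
    exact e1.trans (add_le_add e2 e3)
  have hprodmem : ∀ i j, MemLp (prod2 χ d T i j) q := by
    intro i j
    have e0 := hprodL univ i j
    rw [Measure.restrict_univ] at e0
    refine ⟨?_, lt_of_le_of_lt e0 ?_⟩
    · rw [hprodR i j]
      exact (hRc i j).aestronglyMeasurable.add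
        (hχ.continuous.aestronglyMeasurable.smul (hTm i j))
    · rw [lt_top_iff_ne_top]
      refine ENNReal.add_ne_top.2 ⟨ENNReal.mul_ne_top ?_ ENNReal.ofReal_ne_top,
        (hd.mem i j).2.ne⟩
      exact ENNReal.rpow_ne_top_of_nonneg (by positivity) hχc.isCompact.measure_lt_top.ne
  refine ⟨hh1, bph, hprodw, hprodmem, fun Ω => ?_⟩
  rw [W2norm_def]
  set V := volume (tsupport χ) ^ q.toReal⁻¹ * ENNReal.ofReal (3 * M * η) with hV
  have a0 : eLpNorm (fun x => χ x • d x) q (volume.restrict Ω) ≤ V :=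
    eLpNorm_le_of_support hh0 bh
  have a1 : ∀ i, eLpNorm (pd (fun x => χ x • d x) i) q (volume.restrict Ω) ≤ V := fun i => by
    refine eLpNorm_le_of_support (fun x hx => ?_) (fun x => (bph i x).trans ?_)
    · rw [hph, pd_eq_zero_of_notMem_tsupport hx, image_eq_zero_of_notMem_tsupport hx]
      simp
    · nlinarith
  have e1 : ENNReal.ofReal (3 * M * η) = ENNReal.ofReal (3 * M) * ENNReal.ofReal η :=
    ENNReal.ofReal_mul (by positivity)
  have hVc : (1 + n + n * n) * V = (1 + n + n * n) * (volume (tsupport χ) ^ q.toReal⁻¹ *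
          ENNReal.ofReal (3 * M)) * ENNReal.ofReal η := by
    rw [hV, e1]; ring
  rw [← hVc]
  exact sum_bound a0 a1 (hprodL Ω) hd.b2

/-- Adding a compactly supported perturbation to a valid pair. -/
lemma Valid.add_pert {Ω : Set (E n)} (hΩ : IsOpen Ω) {q : ℝ≥0∞} (hq : 1 ≤ q)
    {Loc : (E n → E n) → E n → Prop} {u : E n → E n} {D : Fin n → Fin n → E n → E n}
    (hv : Valid Ω q Loc u D) {h : E n → E n} {H : Fin n → Fin n → E n → E n}
    (hh1 : ContDiff ℝ 1 h) (hH : ∀ i j, IsWeakPartial univ j (pd h i) (H i j))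
    (hHL : ∀ i j, MemLp (H i j) q) (hinj : InjOn (fun x => u x + h x) Ω)
    (hloc : ∀ x ∈ Ω, Loc (fun x => u x + h x) x) :
    Valid Ω q Loc (fun x => u x + h x) (fun i j x => D i j x + H i j x) ∧
      dW Ω q u D (fun x => u x + h x) (fun i j x => D i j x + H i j x) =
        W2norm Ω q h (pd h) H := by
  have hudiff : ∀ x ∈ Ω, DifferentiableAt ℝ u x := fun x hx =>
    (hv.c1.contDiffAt (hΩ.mem_nhds hx)).differentiableAt (by simp)
  have hpu' : ∀ i, ∀ x ∈ Ω, pd (fun x => u x + h x) i x = pd u i x + pd h i x :=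
      fun i x hx => by
    unfold pd
    rw [fderiv_fun_add (hudiff x hx) (hh1.differentiable (by simp) x), add_apply]
  have hHL' : ∀ i j, MemLp (H i j) q (volume.restrict Ω) := fun i j => (hHL i j).restrict Ω
  refine ⟨⟨hinj, hv.c1.add hh1.contDiffOn, hloc, fun i j => ?_, fun i j => ?_⟩, ?_⟩
  · have h1 := (hv.weak i j).add ((hH i j).mono (subset_univ Ω))
      ((pd_continuousOn hΩ hv.c1 i).locallyIntegrableOn hΩ.measurableSet)
      (locallyIntegrableOn_of_memLp hq (hv.mem i j))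
      (((hh1.continuous_fderiv (by simp)).clm_apply
        continuous_const).locallyIntegrable.locallyIntegrableOn _)
      (locallyIntegrableOn_of_memLp hq (hHL' i j))
    exact h1.congr_ae (Eventually.of_forall fun x hx => (hpu' i x hx).symm)
      (Eventually.of_forall fun x _ => rfl)
  · exact (hv.mem i j).add (hHL' i j)
  · unfold dW
    refine W2norm_congr hΩ.measurableSet ?_ (fun i => ?_) (fun i j => ?_)
    · exact Eventually.of_forall fun x _ => by simp
    · exact Eventually.of_forall fun x hx => by rw [hpu' i x hx, add_sub_cancel_left]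
    · exact Eventually.of_forall fun x _ => by simp

/-- **Smoothing step.** -/
theorem stage_smooth {Ω : Set (E n)} (hΩ : IsOpen Ω) {q : ℝ≥0∞} (hq : 1 ≤ q) (hq' : q ≠ ⊤) :
    Stage Ω q (fun u x => Function.Injective (fderiv ℝ u x)) (fun u x => ContDiffAt ℝ ∞ u x) := by
  intro u D hv K C hK hKΩ hC hdis ε hε
  have hKU : K ⊆ Ω ∩ Cᶜ := fun x hx => ⟨hKΩ hx, disjoint_left.1 hdis hx⟩
  obtain ⟨χ, hχ, hχc, hχU, hχ1, hχI⟩ := exists_cutoff hK (hΩ.inter hC.isOpen_compl) hKU
  have hSc : IsCompact (tsupport χ) := hχc.isCompact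
  have hSΩ : tsupport χ ⊆ Ω := fun x hx => (hχU hx).1
  obtain ⟨w, W, hw1, hwc, hwu, hwW, hWL⟩ := localise hΩ hSc hSΩ hq hv.c1 hv.weak hv.mem
  obtain ⟨δ, hδ, hpert⟩ := injOn_perturb hΩ hSc hSΩ hv.c1 hv.inj hv.loc
  obtain ⟨M, hM, hcut⟩ := Small.cutoff hq hχ hχc hχI
  -- choice of the parameters
  have hctop : ((1 + n + n * n : ℝ≥0∞) * (volume (tsupport χ) ^ q.toReal⁻¹ *
      ENNReal.ofReal (3 * M))) ≠ ⊤ := by
    refine ENNReal.mul_ne_top ?_ (ENNReal.mul_ne_top ?_ ENNReal.ofReal_ne_top)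
    · norm_cast; exact ENNReal.natCast_ne_top _
    · exact ENNReal.rpow_ne_top_of_nonneg (by positivity) hSc.measure_lt_top.ne
  have hε2 : min (ε / 2) 1 ≠ 0 := (lt_min (ENNReal.div_pos hε (by simp)) one_pos).ne'
  have hε2' : min (ε / 2) 1 ≠ ⊤ := ne_top_of_le_ne_top ENNReal.one_ne_top (min_le_right _ _)
  obtain ⟨η1, hη1, hη1c⟩ := exists_small hctop hε2
  have hden : 0 < (n : ℝ) * (2 * M) + 1 := by positivity
  obtain ⟨η, hη, hηη1, hηδ⟩ : ∃ η : ℝ, 0 < η ∧ η ≤ η1 ∧ (n : ℝ) * (2 * M) * η ≤ δ := by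
    refine ⟨min η1 (δ / (n * (2 * M) + 1)), lt_min hη1 (by positivity), min_le_left _ _, ?_⟩
    have h1 : min η1 (δ / (n * (2 * M) + 1)) ≤ δ / (n * (2 * M) + 1) := min_le_right _ _
    rw [le_div_iff₀ hden] at h1
    have h2 : 0 < min η1 (δ / (n * (2 * M) + 1)) := lt_min hη1 (by positivity)
    nlinarith
  obtain ⟨d, T, hd, hds⟩ := exists_smooth_close hq hq' hw1 hwc hwW hWL hη hε2
  obtain ⟨hh1, bph, hprodw, hprodmem, hW2⟩ := hcut η (min (ε / 2) 1) d T hη.le hε2' hd
  have hh0 : ∀ x, x ∉ tsupport χ → (fun x => χ x • d x) x = 0 := fun x hx => by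
    simp only; rw [image_eq_zero_of_notMem_tsupport hx, zero_smul]
  have hhδ : ∀ x, ‖fderiv ℝ (fun x => χ x • d x) x‖ ≤ δ := by
    intro x
    calc ‖fderiv ℝ (fun x => χ x • d x) x‖
        ≤ ∑ i, ‖fderiv ℝ (fun x => χ x • d x) x (bv i)‖ := norm_clm_le_sum _
      _ ≤ ∑ _i : Fin n, 2 * M * η := Finset.sum_le_sum fun i _ => bph i x
      _ = n * (2 * M) * η := by simp; ring
      _ ≤ δ := hηδ
  obtain ⟨hinj', hloc'⟩ := hpert _ hh1 hh0 hhδ
  obtain ⟨hval, hdW⟩ := hv.add_pert hΩ hq hh1 hprodw hprodmem hinj' hloc'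
  refine ⟨_, _, hval, ?_, ?_, ?_, ?_⟩
  · intro x hx
    have hxS : x ∉ tsupport χ := fun h => (hχU h).2 hx
    refine ⟨?_, fun i j => ?_⟩
    · have := hh0 x hxS
      simp only at this ⊢
      rw [this, add_zero]
    · rw [prod2_eq_zero hxS, add_zero]
  · rw [hdW]
    refine (hW2 Ω).trans ?_
    calc _ ≤ ((1 + n + n * n : ℝ≥0∞) * (volume (tsupport χ) ^ q.toReal⁻¹ *
          ENNReal.ofReal (3 * M))) * ENNReal.ofReal η1 + min (ε / 2) 1 := by
          gcongr
      _ ≤ min (ε / 2) 1 + min (ε / 2) 1 := add_le_add hη1c le_rfl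
      _ ≤ ε / 2 + ε / 2 := add_le_add (min_le_left _ _) (min_le_left _ _)
      _ = ε := ENNReal.add_halves ε
  · intro x hx hux
    by_cases hxS : x ∈ tsupport χ
    · have h1 : ∀ᶠ y in 𝓝 x, w y = u y := (eventually_nhdsSet_iff_forall.1 hwu) x hxS
      have h2 : (fun x => u x + χ x • d x) =ᶠ[𝓝 x]
          fun y => u y + χ y • ((w y + d y) - u y) := by
        filter_upwards [h1] with y hy
        rw [hy, add_sub_cancel_left]
      exact (hux.add (hχ.contDiffAt.smul (hds.contDiffAt.sub hux))).congr_of_eventuallyEq h2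
    · have h2 : (fun x => u x + χ x • d x) =ᶠ[𝓝 x] u := by
        filter_upwards [hSc.isClosed.isOpen_compl.mem_nhds hxS] with y hy
        have := hh0 y hy
        simp only at this
        rw [this, add_zero]
      exact hux.congr_of_eventuallyEq h2
  · intro x hx
    have h3 : ∀ᶠ y in 𝓝 x, χ y = 1 := (eventually_nhdsSet_iff_forall.1 hχ1) x hx
    have hxS : x ∈ tsupport χ := by
      apply subset_tsupport
      rw [Function.mem_support, h3.self_of_nhds]
      exact one_ne_zero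
    have h1 : ∀ᶠ y in 𝓝 x, w y = u y := (eventually_nhdsSet_iff_forall.1 hwu) x hxS
    have h2 : (fun x => u x + χ x • d x) =ᶠ[𝓝 x] fun x => w x + d x := by
      filter_upwards [h1, h3] with y hy hy3
      rw [hy, hy3, one_smul]
    exact hds.contDiffAt.congr_of_eventuallyEq h2

end Run7.h7
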