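import Mathlib
import Pool.Agent.Run7.h7.Defs
import Pool.Agent.Run7.h7.Basic
import Pool.Agent.Run7.h7.Weak
import Pool.Agent.Run7.h7.WeakC1
import Pool.Agent.Run7.h7.Smooth2
import Pool.Agent.Run7.h7.Smoothing

/-!
Weak second derivatives of compositions of smooth functions with maps of class `C^1` having weak
second derivatives.
-/

open MeasureTheory Filter Set Metric
open scoped ENNReal Topology ContDiff

namespace Run7.h7

variable {n : ℕ}

lemma vec_eq_sum (y : E n) : y = ∑ k, y k • bv k := by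
  ext i
  simp [bv, Finset.sum_apply, Pi.single_apply]

lemma locInt_sum {ι : Type*} (s : Finset ι) {Ω : Set (E n)} {f : ι → E n → ℝ}
    (h : ∀ k ∈ s, LocallyIntegrableOn (f k) Ω) :
    LocallyIntegrableOn (fun x => ∑ k ∈ s, f k x) Ω := by
  classical
  induction s using Finset.induction_on with
  | empty => simpa using (locallyIntegrable_const (0 : ℝ)).locallyIntegrableOn Ω
  | insert a s ha ih =>
    have h1 : (fun x => ∑ k ∈ insert a s, f k x) = (f a) + fun x => ∑ k ∈ s, f k x := by
      ext1 x; rw [Finset.sum_insert ha]; rfl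
    rw [h1]
    exact (h a (Finset.mem_insert_self a s)).add
      (ih fun k hk => h k (Finset.mem_insert_of_mem hk))

theorem exists_scalar_pert {Ω S : Set (E n)} (hΩ : IsOpen Ω) (hS : IsCompact S) (hSΩ : S ⊆ Ω)
    {q : ℝ≥0∞} (hq : 1 ≤ q) {v : E n → E n} {D : Fin n → Fin n → E n → E n}
    (hv : ContDiffOn ℝ 1 v Ω) (hw : ∀ i j, IsWeakPartial Ω j (pd v i) (D i j))
    (hD : ∀ i j, MemLp (D i j) q (volume.restrict Ω)) {Φ : E n × E n → ℝ}
    (hΦ : ContDiff ℝ ∞ Φ) (hΦ0 : ∀ y x, x ∉ S → Φ (y, x) = 0) :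
    ContDiff ℝ 1 (fun x => Φ (v x, x)) ∧ ∃ B : Fin n → Fin n → E n → ℝ,
      (∀ i j, IsWeakPartial univ j (pd (fun x => Φ (v x, x)) i) (B i j)) ∧
      (∀ i j, MemLp (B i j) q) ∧ ∀ i j x, x ∉ S → B i j x = 0 := by
  set b : E n → ℝ := fun x => Φ (v x, x) with hb
  have hb0 : ∀ x, x ∉ S → b x = 0 := fun x hx => hΦ0 _ _ hx
  have hpair : ContDiffOn ℝ 1 (fun x => (v x, x)) Ω := hv.prodMk contDiffOn_id
  have hbΩ : ContDiffOn ℝ 1 b Ω := (hΦ.of_le (by simp)).comp_contDiffOn hpair
  have hb1 : ContDiff ℝ 1 b := by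
    rw [contDiff_iff_contDiffAt]
    intro x
    by_cases hx : x ∈ S
    · exact hbΩ.contDiffAt (hΩ.mem_nhds (hSΩ hx))
    · have h1 : b =ᶠ[𝓝 x] fun _ => 0 := by
        filter_upwards [hS.isClosed.isOpen_compl.mem_nhds hx] with y hy
        exact hb0 y hy
      exact contDiffAt_const.congr_of_eventuallyEq h1
  have hvd : ∀ x ∈ Ω, DifferentiableAt ℝ v x := fun x hx =>
    (hv.contDiffAt (hΩ.mem_nhds hx)).differentiableAt (by simp)
  -- coefficients
  set c : Fin n → E n → ℝ := fun k x => fderiv ℝ Φ (v x, x) (bv k, 0) with hc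
  set d : Fin n → E n → ℝ := fun i x => fderiv ℝ Φ (v x, x) (0, bv i) with hd
  have hΦ' : ContDiff ℝ 1 (fderiv ℝ Φ) := (hΦ.fderiv_right (m := ∞) (by simp)).of_le (by simp)
  have hcC : ∀ k, ContDiffOn ℝ 1 (c k) Ω := fun k =>
    (hΦ'.comp_contDiffOn hpair).clm_apply contDiffOn_const
  have hdC : ∀ i, ContDiffOn ℝ 1 (d i) Ω := fun i =>
    (hΦ'.comp_contDiffOn hpair).clm_apply contDiffOn_const
  have hpb : ∀ i, ∀ x ∈ Ω, pd b i x = (∑ k, c k x • (pd v i x) k) + d i x := by
    intro i x hx
    have h1 : HasFDerivAt b ((fderiv ℝ Φ (v x, x)).comp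
        ((fderiv ℝ v x).prod (ContinuousLinearMap.id ℝ (E n)))) x :=
      HasFDerivAt.comp x (hΦ.differentiable (by simp) (v x, x)).hasFDerivAt
        ((hvd x hx).hasFDerivAt.prodMk (hasFDerivAt_id x))
    have h2 : pd b i x = fderiv ℝ Φ (v x, x) (pd v i x, bv i) := by
      unfold pd; rw [h1.fderiv]; rfl
    have h3 : ((pd v i x, bv i) : E n × E n) =
        (∑ k, (pd v i x) k • ((bv k, 0) : E n × E n)) + ((0, bv i) : E n × E n) := by
      have h4 : (∑ k, (pd v i x) k • ((bv k, 0) : E n × E n)) = ((pd v i x, 0) : E n × E n) := by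
        rw [Prod.ext_iff]
        constructor
        · rw [Prod.fst_sum]
          simp only [Prod.smul_fst]
          exact (vec_eq_sum (pd v i x)).symm
        · rw [Prod.snd_sum]
          simp
      rw [h4]; simp
    rw [h2, h3, map_add, map_sum]
    congr 1
    refine Finset.sum_congr rfl fun k _ => ?_
    rw [map_smul, smul_eq_mul, smul_eq_mul, mul_comm]
  -- scalar components
  have hlD : ∀ i j, LocallyIntegrableOn (D i j) Ω := fun i j =>
    locallyIntegrableOn_of_memLp hq (hD i j)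
  have cpv : ∀ i, ContinuousOn (pd v i) Ω := fun i => pd_continuousOn hΩ hv i
  have hlp : ∀ i, LocallyIntegrableOn (pd v i) Ω := fun i =>
    (cpv i).locallyIntegrableOn hΩ.measurableSet
  have ccoord : ∀ i k, ContinuousOn (fun x => (pd v i x) k) Ω := fun i k =>
    (EuclideanSpace.proj (𝕜 := ℝ) k).continuous.comp_continuousOn (cpv i)
  have hlcoord : ∀ i k, LocallyIntegrableOn (fun x => (pd v i x) k) Ω := fun i k =>
    (ccoord i k).locallyIntegrableOn hΩ.measurableSet
  have hlDk : ∀ i j k, LocallyIntegrableOn (fun x => (D i j x) k) Ω := by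
    intro i j k x hx
    obtain ⟨U, hU, hU'⟩ := hlD i j x hx
    exact ⟨U, hU, ContinuousLinearMap.integrable_comp (EuclideanSpace.proj (𝕜 := ℝ) k) hU'⟩
  have hwk : ∀ i j k, IsWeakPartial Ω j (fun x => (pd v i x) k) (fun x => (D i j x) k) :=
    fun i j k => (hw i j).clm (hlp i) (hlD i j) (EuclideanSpace.proj (𝕜 := ℝ) k)
  have hwck : ∀ i j k, IsWeakPartial Ω j (fun x => c k x • (pd v i x) k)
      (fun x => pd (c k) j x • (pd v i x) k + c k x • (D i j x) k) := fun i j k =>
    (hwk i j k).smul hΩ (hlcoord i k) (hlDk i j k) (hcC k)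
  have cpc : ∀ k j, ContinuousOn (pd (c k) j) Ω := fun k j => pd_continuousOn hΩ (hcC k) j
  have hlck : ∀ i k, LocallyIntegrableOn (fun x => c k x • (pd v i x) k) Ω := fun i k =>
    ((hcC k).continuousOn.smul (ccoord i k)).locallyIntegrableOn hΩ.measurableSet
  have hlck' : ∀ i j k, LocallyIntegrableOn
      (fun x => pd (c k) j x • (pd v i x) k + c k x • (D i j x) k) Ω := fun i j k =>
    (((cpc k j).smul (ccoord i k)).locallyIntegrableOn hΩ.measurableSet).add
      ((hlDk i j k).continuousOn_smul hΩ.isLocallyClosed (hcC k).continuousOn)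
  set G : Fin n → Fin n → E n → ℝ := fun i j x =>
    (∑ k, (pd (c k) j x • (pd v i x) k + c k x • (D i j x) k)) + pd (d i) j x with hG
  have hGw : ∀ i j, IsWeakPartial Ω j (pd b i) (G i j) := by
    intro i j
    have h1 := (IsWeakPartial.sum Finset.univ (fun k _ => hwck i j k) (fun k _ => hlck i k)
      (fun k _ => hlck' i j k)).add (IsWeakPartial.of_contDiffOn hΩ (hdC i) j)
      ((continuousOn_finsetSum _ fun k _ =>
        (hcC k).continuousOn.smul (ccoord i k)).locallyIntegrableOn hΩ.measurableSet)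
      (locInt_sum _ fun k _ => hlck' i j k)
      ((hdC i).continuousOn.locallyIntegrableOn hΩ.measurableSet)
      ((pd_continuousOn hΩ (hdC i) j).locallyIntegrableOn hΩ.measurableSet)
    exact h1.congr_ae (Eventually.of_forall fun x hx => (hpb i x hx).symm)
      (Eventually.of_forall fun x _ => rfl)
  have hlG : ∀ i j, LocallyIntegrableOn (G i j) Ω := fun i j =>
    (locInt_sum _ fun k _ => hlck' i j k).add
      ((pd_continuousOn hΩ (hdC i) j).locallyIntegrableOn hΩ.measurableSet)
  have hpb0 : ∀ i x, x ∉ S → pd b i x = 0 := by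
    intro i x hx
    have h1 : b =ᶠ[𝓝 x] fun _ => 0 := by
      filter_upwards [hS.isClosed.isOpen_compl.mem_nhds hx] with y hy
      exact hb0 y hy
    unfold pd
    rw [h1.fderiv_eq]; simp
  refine ⟨hb1, fun i j => S.indicator (G i j), fun i j => ?_, fun i j => ?_,
    fun i j x hx => indicator_of_notMem hx _⟩
  · have h1 := (hGw i j).indicator hΩ hS.isClosed (hlG i j) (fun x _ hx => hpb0 i x hx)
    exact h1.extend hΩ hS hSΩ (hpb0 i) (fun x hx => indicator_of_notMem hx _)
  · have hSm := hS.measurableSet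
    rw [memLp_indicator_iff_restrict hSm]
    have hfin : IsFiniteMeasure (volume.restrict S) := ⟨by
      rw [Measure.restrict_apply_univ]; exact hS.measure_lt_top⟩
    have hcont : ∀ {g : E n → ℝ}, ContinuousOn g Ω → MemLp g q (volume.restrict S) := by
      intro g hg
      obtain ⟨C, hC⟩ := hS.exists_bound_of_continuousOn (hg.mono hSΩ)
      refine MemLp.of_bound ((hg.mono hSΩ).aestronglyMeasurable hSm) C ?_
      rw [ae_restrict_iff' hSm]
      exact Eventually.of_forall hC
    refine (memLp_finsetSum _ fun k _ => ?_).add (hcont (pd_continuousOn hΩ (hdC i) j))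
    refine (hcont ((cpc k j).smul (ccoord i k))).add ?_
    obtain ⟨C, hC⟩ := hS.exists_bound_of_continuousOn ((hcC k).continuousOn.mono hSΩ)
    have hDS : MemLp (D i j) q (volume.restrict S) :=
      (hD i j).mono_measure (Measure.restrict_mono hSΩ le_rfl)
    have hm : AEStronglyMeasurable (fun x => c k x • (D i j x) k) (volume.restrict S) :=
      (((hcC k).continuousOn.mono hSΩ).aestronglyMeasurable hSm).smul
        ((EuclideanSpace.proj (𝕜 := ℝ) k).continuous.comp_aestronglyMeasurable hDS.1)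
    refine hDS.of_le_mul (c := C) hm ?_
    rw [ae_restrict_iff' hSm]
    refine Eventually.of_forall fun x hx => ?_
    rw [norm_smul]
    have h1 := hC x hx
    have h2 : ‖(D i j x) k‖ ≤ ‖D i j x‖ := PiLp.norm_apply_le (D i j x) k
    exact mul_le_mul h1 h2 (norm_nonneg _) ((norm_nonneg _).trans h1)

end Run7.h7
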