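import Mathlib
import Pool.Agent.Run7.h7.Defs
import Pool.Agent.Run7.h7.Basic
import Pool.Agent.Run7.h7.Weak
import Pool.Agent.Run7.h7.WeakC1
import Pool.Agent.Run7.h7.Smooth2
import Pool.Agent.Run7.h7.Limit
import Pool.Agent.Run7.h7.Smoothing
import Pool.Agent.Run7.h7.SmoothStage
import Pool.Agent.Run7.h7.Fibre
import Pool.Agent.Run7.h7.FibrePert
import Pool.Agent.Run7.h7.FibreChart
import Pool.Agent.Run7.h7.ScalarPert

/-!
Improvement of maps of class `C^1` with derivatives of corank at most one.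
-/

open MeasureTheory Filter Set Metric
open scoped ENNReal Topology ContDiff RealInnerProductSpace

namespace Run7.h7

variable {n : ℕ}

/-- Scaling a compactly supported perturbation. -/
lemma small_scale {Ω : Set (E n)} {q : ℝ≥0∞} (hq : 1 ≤ q) {h : E n → E n}
    {H : Fin n → Fin n → E n → E n} (hh : ContDiff ℝ 1 h) (hc : HasCompactSupport h)
    (hH : ∀ i j, IsWeakPartial univ j (pd h i) (H i j)) (hHL : ∀ i j, MemLp (H i j) q)
    {κ : ℝ} (hκ : 0 < κ) {ε : ℝ≥0∞} (hε : ε ≠ 0) :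
    ∃ σ0 : ℝ, 0 < σ0 ∧ ∀ σ : ℝ, |σ| ≤ σ0 → (∀ x, ‖σ • h x‖ ≤ κ) ∧
      (∀ x, ‖fderiv ℝ (fun x => σ • h x) x‖ ≤ κ) ∧ ContDiff ℝ 1 (fun x => σ • h x) ∧
      (∀ i j, IsWeakPartial univ j (pd (fun x => σ • h x) i) (fun x => σ • H i j x)) ∧
      (∀ i j, MemLp (fun x => σ • H i j x) q) ∧
      W2norm Ω q (fun x => σ • h x) (pd (fun x => σ • h x)) (fun i j x => σ • H i j x) ≤ ε := by
  obtain ⟨C, hC⟩ := hh.continuous.bounded_above_of_compact_support hc
  obtain ⟨C', hC'⟩ := (hh.continuous_fderiv (by simp)).bounded_above_of_compact_support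
    (hc.fderiv (𝕜 := ℝ))
  have hcpd : ∀ i, Continuous (pd h i) := fun i =>
    (hh.continuous_fderiv (by simp)).clm_apply continuous_const
  have hspd : ∀ i, HasCompactSupport (pd h i) := fun i =>
    hc.of_isClosed_subset (isClosed_tsupport _) (tsupport_pd_subset h i)
  have hfd : ∀ (σ : ℝ) x, fderiv ℝ (fun x => σ • h x) x = σ • fderiv ℝ h x := fun σ x =>
    fderiv_fun_const_smul (hh.differentiable (by simp) x) σ
  have hpd : ∀ (σ : ℝ) i, pd (fun x => σ • h x) i = fun x => σ • pd h i x := by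
    intro σ i; ext1 x; unfold pd; rw [hfd]; rfl
  have hfin : W2norm Ω q h (pd h) H ≠ ⊤ := by
    rw [W2norm_def]
    refine ENNReal.add_ne_top.2 ⟨ENNReal.add_ne_top.2 ⟨?_, ?_⟩, ?_⟩
    · exact ((hh.continuous.memLp_of_hasCompactSupport hc).restrict Ω).2.ne
    · exact (ENNReal.sum_lt_top.2 fun i _ =>
        (((hcpd i).memLp_of_hasCompactSupport (hspd i)).restrict Ω).2).ne
    · exact (ENNReal.sum_lt_top.2 fun i _ => ENNReal.sum_lt_top.2 fun j _ =>
        ((hHL i j).restrict Ω).2).ne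
  obtain ⟨σ1, hσ1, hσ1'⟩ := exists_small hfin hε
  refine ⟨min σ1 (κ / (|C| + |C'| + 1)), lt_min hσ1 (by positivity), fun σ hσ => ?_⟩
  have hσa : |σ| ≤ σ1 := hσ.trans (min_le_left _ _)
  have hσb : |σ| * (|C| + |C'| + 1) ≤ κ := by
    have := hσ.trans (min_le_right _ _)
    rwa [le_div_iff₀ (by positivity)] at this
  refine ⟨fun x => ?_, fun x => ?_, hh.const_smul σ, fun i j => ?_, fun i j => ?_, ?_⟩
  · rw [norm_smul, Real.norm_eq_abs]
    have h1 : ‖h x‖ ≤ |C| + |C'| + 1 := by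
      have := hC x; have := le_abs_self C; have := abs_nonneg C'; linarith
    exact (mul_le_mul_of_nonneg_left h1 (abs_nonneg _)).trans hσb
  · rw [hfd, norm_smul, Real.norm_eq_abs]
    have h1 : ‖fderiv ℝ h x‖ ≤ |C| + |C'| + 1 := by
      have := hC' x; have := le_abs_self C'; have := abs_nonneg C; linarith
    exact (mul_le_mul_of_nonneg_left h1 (abs_nonneg _)).trans hσb
  · rw [hpd]
    exact (hH i j).clm ((hcpd i).locallyIntegrable.locallyIntegrableOn _)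
      (((hHL i j).locallyIntegrable hq).locallyIntegrableOn _)
      (σ • ContinuousLinearMap.id ℝ (E n))
  · exact (hHL i j).const_smul σ
  · have h1 : W2norm Ω q (fun x => σ • h x) (pd (fun x => σ • h x)) (fun i j x => σ • H i j x) =
        ‖σ‖ₑ * W2norm Ω q h (pd h) H := by
      rw [W2norm_def, W2norm_def]
      have e0 : ∀ w : E n → E n, eLpNorm (fun x => σ • w x) q (volume.restrict Ω) =
          ‖σ‖ₑ * eLpNorm w q (volume.restrict Ω) := fun w =>
        eLpNorm_const_smul σ w q (volume.restrict Ω)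
      simp only [hpd, e0, mul_add, Finset.mul_sum]
    rw [h1, mul_comm]
    refine le_trans ?_ hσ1'
    gcongr
    rw [← ofReal_norm, Real.norm_eq_abs]
    exact ENNReal.ofReal_le_ofReal hσa

lemma W2norm_triangle {Ω : Set (E n)} {q : ℝ≥0∞} (hq : 1 ≤ q) {u v : E n → E n}
    {Du Dv : Fin n → E n → E n} {D2u D2v : Fin n → Fin n → E n → E n}
    (h1 : AEStronglyMeasurable u (volume.restrict Ω))
    (h2 : AEStronglyMeasurable v (volume.restrict Ω))
    (h3 : ∀ i, AEStronglyMeasurable (Du i) (volume.restrict Ω))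
    (h4 : ∀ i, AEStronglyMeasurable (Dv i) (volume.restrict Ω))
    (h5 : ∀ i j, AEStronglyMeasurable (D2u i j) (volume.restrict Ω))
    (h6 : ∀ i j, AEStronglyMeasurable (D2v i j) (volume.restrict Ω)) :
    W2norm Ω q (fun x => u x + v x) (fun i x => Du i x + Dv i x)
      (fun i j x => D2u i j x + D2v i j x) ≤ W2norm Ω q u Du D2u + W2norm Ω q v Dv D2v := by
  rw [W2norm_def, W2norm_def, W2norm_def]
  have e0 := eLpNorm_add_le h1 h2 hq
  have e1 : ∑ i, eLpNorm (fun x => Du i x + Dv i x) q (volume.restrict Ω) ≤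
      ∑ i, eLpNorm (Du i) q (volume.restrict Ω) + ∑ i, eLpNorm (Dv i) q (volume.restrict Ω) := by
    rw [← Finset.sum_add_distrib]
    exact Finset.sum_le_sum fun i _ => eLpNorm_add_le (h3 i) (h4 i) hq
  have e2 : ∑ i, ∑ j, eLpNorm (fun x => D2u i j x + D2v i j x) q (volume.restrict Ω) ≤
      ∑ i, ∑ j, eLpNorm (D2u i j) q (volume.restrict Ω) +
        ∑ i, ∑ j, eLpNorm (D2v i j) q (volume.restrict Ω) := by
    rw [← Finset.sum_add_distrib]
    refine Finset.sum_le_sum fun i _ => ?_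
    rw [← Finset.sum_add_distrib]
    exact Finset.sum_le_sum fun j _ => eLpNorm_add_le (h5 i j) (h6 i j) hq
  calc _ ≤ _ := add_le_add (add_le_add e0 e1) e2
    _ = _ := by ring

lemma dW_triangle {Ω : Set (E n)} (hΩ : IsOpen Ω) {q : ℝ≥0∞} (hq : 1 ≤ q)
    {Loc : (E n → E n) → E n → Prop} {u v w : E n → E n}
    {Du Dv Dw : Fin n → Fin n → E n → E n} (hu : Valid Ω q Loc u Du) (hv : Valid Ω q Loc v Dv)
    (hw : Valid Ω q Loc w Dw) : dW Ω q u Du w Dw ≤ dW Ω q u Du v Dv + dW Ω q v Dv w Dw := by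
  have h := W2norm_triangle (Ω := Ω) (q := q) hq
    (u := fun x => v x - u x) (v := fun x => w x - v x)
    (Du := fun i x => pd v i x - pd u i x) (Dv := fun i x => pd w i x - pd v i x)
    (D2u := fun i j x => Dv i j x - Du i j x) (D2v := fun i j x => Dw i j x - Dv i j x)
    ((hv.aesm hΩ).sub (hu.aesm hΩ)) ((hw.aesm hΩ).sub (hv.aesm hΩ))
    (fun i => (hv.aesm_pd hΩ i).sub (hu.aesm_pd hΩ i))
    (fun i => (hw.aesm_pd hΩ i).sub (hv.aesm_pd hΩ i))
    (fun i j => (hv.mem i j).1.sub (hu.mem i j).1)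
    (fun i j => (hw.mem i j).1.sub (hv.mem i j).1)
  have e0 : (fun x => (v x - u x) + (w x - v x)) = fun x => w x - u x := by ext1 x; abel
  have e1 : (fun i x => (pd v i x - pd u i x) + (pd w i x - pd v i x)) =
      fun i x => pd w i x - pd u i x := by ext1 i; ext1 x; abel
  have e2 : (fun i j x => (Dv i j x - Du i j x) + (Dw i j x - Dv i j x)) =
      fun i j x => Dw i j x - Du i j x := by ext1 i; ext1 j; ext1 x; abel
  unfold dW
  rw [← e0, ← e1, ← e2]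
  exact h

/-- The improvement in a box. -/
lemma Box.improve {Ω : Set (E n)} (hΩ : IsOpen Ω) {q : ℝ≥0∞} (hq : 1 ≤ q) {v : E n → E n}
    {D : Fin n → Fin n → E n → E n} (hv : Valid Ω q Loc1 v D) {a e x0 y0 : E n}
    {r t1 t2 η c : ℝ} (h : Box Ω v a e x0 y0 r t1 t2 η c) {κ : ℝ} (hκ : 0 < κ) {ε : ℝ≥0∞}
    (hε : ε ≠ 0) :
    ∃ v' D', Valid Ω q Loc1 v' D' ∧
      (∀ x, x ∉ closedBall x0 r → v' x = v x ∧ ∀ i j, D' i j x = D i j x) ∧
      dW Ω q v D v' D' ≤ ε ∧ (∀ x, ‖v' x - v x‖ ≤ κ) ∧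
      (∀ x ∈ Ω, ‖fderiv ℝ v' x - fderiv ℝ v x‖ ≤ κ) ∧
      (∀ x ∈ Ω, Good1 v x → Good1 v' x) ∧
      ∀ x ∈ ball x0 r, ‖Pa a (v x) - y0‖ ≤ η / 2 → ⟪e, x - x0⟫ ∈ Icc t1 t2 → Good1 v' x := by
  obtain ⟨ς, hς1, hς⟩ := h.exists_sign
  obtain ⟨W, M, hW, hMpos, hM, hW1, hW0⟩ := exists_W t1 t2 h.hη
  obtain ⟨ψ, hψ, hψI, hψ1, hψ0⟩ := exists_psi h.hη
  have hr := h.hr
  obtain ⟨θ, hθ, hθc, hθU, hθ1, hθI⟩ := exists_cutoff (isCompact_closedBall x0 (r / 2))
    (isOpen_ball (x := x0) (ε := r)) (closedBall_subset_ball (by linarith))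
  set S : Set (E n) := closedBall x0 (r / 2) with hS
  have hSc : IsCompact S := isCompact_closedBall _ _
  have hSb : S ⊆ ball x0 r := closedBall_subset_ball (by linarith)
  have hSΩ : S ⊆ Ω := hSb.trans h.hB
  have hTc : IsCompact (tsupport θ) := hθc.isCompact
  have hTΩ : tsupport θ ⊆ Ω := hθU.trans h.hB
  set Φ : E n × E n → ℝ := fun p => θ p.2 * (ψ (‖Pa a p.1 - y0‖ ^ 2) * W ⟪e, p.2 - x0⟫) with hΦ
  have hΦs : ContDiff ℝ ∞ Φ := by
    have g1 : ContDiff ℝ ∞ (fun p : E n × E n => Pa a p.1 - y0) :=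
      ((Pa a).contDiff.comp contDiff_fst).sub contDiff_const
    have g2 : ContDiff ℝ ∞ (fun p : E n × E n => ‖Pa a p.1 - y0‖ ^ 2) := g1.norm_sq ℝ
    have g3 : ContDiff ℝ ∞ (fun p : E n × E n => ⟪e, p.2 - x0⟫) :=
      (innerSL ℝ e).contDiff.comp (contDiff_snd.sub contDiff_const)
    exact (hθ.comp contDiff_snd).mul ((hψ.comp g2).mul (hW.comp g3))
  have hΦ0 : ∀ y x, x ∉ tsupport θ → Φ (y, x) = 0 := by
    intro y x hx
    simp only [hΦ]
    rw [image_eq_zero_of_notMem_tsupport hx, zero_mul]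
  obtain ⟨hb1, B, hBw, hBL, hB0⟩ := exists_scalar_pert hΩ hTc hTΩ hq hv.c1 hv.weak hv.mem hΦs hΦ0
  set b : E n → ℝ := fun x => Φ (v x, x) with hb
  -- the formula in the ball
  have hθS : ∀ x ∈ S, θ x = 1 := fun x hx =>
    ((eventually_nhdsSet_iff_forall.1 hθ1) x hx).self_of_nhds
  have hformula : ∀ x ∈ ball x0 r, b x = ψ (‖Pa a (v x) - y0‖ ^ 2) * W ⟪e, x - x0⟫ := by
    intro x hx
    by_cases hxS : x ∈ S
    · simp only [hb, hΦ]; rw [hθS x hxS, one_mul]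
    · have h0 : ψ (‖Pa a (v x) - y0‖ ^ 2) * W ⟪e, x - x0⟫ = 0 := by
        by_cases h1 : ‖Pa a (v x) - y0‖ < η
        · by_cases h2 : ⟪e, x - x0⟫ ∈ Ioo (t1 - η) (t2 + η)
          · exfalso
            apply hxS
            have h3 := (h.X_mem (Pa_Pa h.ha (v x)) h1.le (Ioo_subset_Icc_self h2)).1
            rwa [h.eq_X hx] at h3
          · rw [(hW0 _ h2).1, mul_zero]
        · push Not at h1
          have := h.hη
          rw [hψ0 _ (by gcongr), zero_mul]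
      simp only [hb, hΦ]
      rw [h0, mul_zero]
  have hb0 : ∀ x, x ∉ S → b x = 0 := by
    intro x hx
    by_cases hxb : x ∈ ball x0 r
    · rw [hformula x hxb]
      by_cases h1 : ‖Pa a (v x) - y0‖ < η
      · by_cases h2 : ⟪e, x - x0⟫ ∈ Ioo (t1 - η) (t2 + η)
        · exfalso
          apply hx
          have h3 := (h.X_mem (Pa_Pa h.ha (v x)) h1.le (Ioo_subset_Icc_self h2)).1
          rwa [h.eq_X hxb] at h3
        · rw [(hW0 _ h2).1, mul_zero]
      · push Not at h1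
        have := h.hη
        rw [hψ0 _ (by gcongr), zero_mul]
    · exact hΦ0 _ _ fun h1 => hxb (hθU h1)
  -- the vector perturbation
  set g : E n → E n := fun x => b x • a with hg
  set G : Fin n → Fin n → E n → E n := fun i j x => B i j x • a with hG
  have hg1 : ContDiff ℝ 1 g := hb1.smul contDiff_const
  have hbc : HasCompactSupport b := HasCompactSupport.intro hSc (fun x hx => hb0 x hx)
  have hgc : HasCompactSupport g := hbc.smul_right
  have hpg : ∀ i, pd g i = fun x => pd b i x • a := by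
    intro i; ext1 x
    unfold pd
    have := ((hb1.differentiable (by simp) x).hasFDerivAt.smul_const a).fderiv
    rw [hg, this]; rfl
  have hpbc : ∀ i, Continuous (pd b i) := fun i =>
    (hb1.continuous_fderiv (by simp)).clm_apply continuous_const
  have hGw : ∀ i j, IsWeakPartial univ j (pd g i) (G i j) := by
    intro i j
    rw [hpg]
    exact (hBw i j).smul_vec ((hpbc i).locallyIntegrable.locallyIntegrableOn _)
      (((hBL i j).locallyIntegrable hq).locallyIntegrableOn _) a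
  have hGL : ∀ i j, MemLp (G i j) q := by
    intro i j
    have h1 := (ContinuousLinearMap.smulRight (1 : ℝ →L[ℝ] ℝ) a).comp_memLp' (hBL i j)
    have h2 : (ContinuousLinearMap.smulRight (1 : ℝ →L[ℝ] ℝ) a) ∘ (B i j) = G i j := by
      ext1 x; simp [hG]
    rwa [h2] at h1
  obtain ⟨σ0, hσ0, hσ⟩ := small_scale (Ω := Ω) hq hg1 hgc hGw hGL hκ hε
  obtain ⟨σ, hσpos, hσσ0, hσM⟩ : ∃ σ : ℝ, 0 < σ ∧ σ ≤ σ0 ∧ σ * M < c := by
    refine ⟨min σ0 (c / (2 * M)), lt_min hσ0 (by have := h.hc; positivity), min_le_left _ _, ?_⟩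
    have h1 : min σ0 (c / (2 * M)) ≤ c / (2 * M) := min_le_right _ _
    have h2 : min σ0 (c / (2 * M)) * M ≤ c / (2 * M) * M := by gcongr
    have h3 : c / (2 * M) * M = c / 2 := by field_simp
    have := h.hc
    linarith
  have hςσ : |ς * σ| ≤ σ0 := by
    rw [abs_mul, abs_of_pos hσpos]
    rcases hς1 with rfl | rfl <;> simpa using hσσ0
  obtain ⟨k1, k2, k3, k4, k5, k6⟩ := hσ (ς * σ) hςσ
  have heq : (fun x => v x + (ς * σ) • g x) = fun x => v x + (ς * σ * b x) • a := by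
    ext1 x; rw [hg, smul_smul]
  have hinj : InjOn (fun x => v x + (ς * σ) • g x) Ω := by
    rw [heq]
    exact h.injOn_pert hς1 hς hW hM hW1 hW0 hσpos hσM hψI hψ0 hformula hb0
  obtain ⟨d1, d2, d3⟩ := h.der_pert hΩ hς1 hς hW hM hW1 hW0 hσpos hσM hψ hψI hψ1 hψ0
    hformula hb0
  rw [← heq] at d1 d2 d3
  obtain ⟨hval, hdW⟩ := hv.add_pert hΩ hq k3 k4 k5 hinj (fun x hx => d1 x hx (hv.loc x hx))
  refine ⟨_, _, hval, ?_, ?_, ?_, ?_, d2, d3⟩
  · intro x hx
    have hxS : x ∉ S := fun h1 => hx (ball_subset_closedBall (hSb h1))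
    have hxT : x ∉ tsupport θ := fun h1 => hx (ball_subset_closedBall (hθU h1))
    refine ⟨?_, fun i j => ?_⟩
    · simp only [hg]
      rw [hb0 x hxS]; simp
    · simp only [hG]
      rw [hB0 i j x hxT]; simp
  · rw [hdW]; exact k6
  · intro x
    have : v x + (ς * σ) • g x - v x = (ς * σ) • g x := by abel
    rw [this]
    exact k1 x
  · intro x hx
    have hvd : DifferentiableAt ℝ v x :=
      (hv.c1.contDiffAt (hΩ.mem_nhds hx)).differentiableAt (by simp)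
    have : fderiv ℝ (fun x => v x + (ς * σ) • g x) x - fderiv ℝ v x =
        fderiv ℝ (fun x => (ς * σ) • g x) x := by
      rw [fderiv_fun_add hvd (k3.differentiable (by simp) x)]
      abel
    rw [this]
    exact k2 x

/-- **Robust local improvement.** -/
theorem local_improve {Ω : Set (E n)} (hΩ : IsOpen Ω) {q : ℝ≥0∞} (hq : 1 ≤ q) {u : E n → E n}
    {D : Fin n → Fin n → E n → E n} (hu : Valid Ω q Loc1 u D) {x0 : E n} (hx0 : x0 ∈ Ω)
    {R : ℝ} (hR : 0 < R) :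
    ∃ ρ δ : ℝ, 0 < ρ ∧ 0 < δ ∧ ∀ v Dv, Valid Ω q Loc1 v Dv →
      (∀ x ∈ Ω, ‖v x - u x‖ ≤ δ ∧ ‖fderiv ℝ v x - fderiv ℝ u x‖ ≤ δ) →
      ∀ κ : ℝ, 0 < κ → ∀ ε : ℝ≥0∞, ε ≠ 0 →
      ∃ v' D', Valid Ω q Loc1 v' D' ∧
        (∀ x, x ∉ closedBall x0 R → v' x = v x ∧ ∀ i j, D' i j x = Dv i j x) ∧
        dW Ω q v Dv v' D' ≤ ε ∧ (∀ x, ‖v' x - v x‖ ≤ κ) ∧
        (∀ x ∈ Ω, ‖fderiv ℝ v' x - fderiv ℝ v x‖ ≤ κ) ∧
        (∀ x ∈ Ω, Good1 v x → Good1 v' x) ∧ ∀ x ∈ ball x0 ρ, Good1 v' x := by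
  by_cases hg : Good1 u x0
  · -- regular point
    obtain ⟨m, hm, hlow⟩ := exists_lower hg
    have hdc : ContinuousOn (fderiv ℝ u) Ω := hu.c1.continuousOn_fderiv_of_isOpen hΩ le_rfl
    have h1 : ∀ᶠ x in 𝓝 x0, x ∈ Ω ∧ ‖fderiv ℝ u x - fderiv ℝ u x0‖ < m / 4 := by
      have hm0 : ∀ᶠ x in 𝓝 x0, x ∈ Ω := hΩ.mem_nhds hx0
      refine hm0.and ?_
      have h2 := (hdc.continuousAt (hΩ.mem_nhds hx0)).sub (continuousAt_const (y := fderiv ℝ u x0))
      have h3 : Tendsto (fun x => ‖fderiv ℝ u x - fderiv ℝ u x0‖) (𝓝 x0) (𝓝 0) := by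
        have := h2.norm
        simpa [ContinuousAt] using this
      exact h3.eventually (gt_mem_nhds (by positivity))
    obtain ⟨ρ, hρ, hball⟩ := Metric.eventually_nhds_iff_ball.1 h1
    refine ⟨ρ, m / 4, hρ, by positivity, fun v Dv hv hclose κ hκ ε hε => ?_⟩
    refine ⟨v, Dv, hv, fun x _ => ⟨rfl, fun _ _ => rfl⟩, ?_, fun x => by simpa using hκ.le,
      fun x _ => by simpa using hκ.le, fun x _ h => h, fun x hx => ?_⟩
    · have : dW Ω q v Dv v Dv = 0 := by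
        unfold dW
        simp only [sub_self]
        rw [W2norm_def]
        simp
      rw [this]; exact zero_le
    · obtain ⟨hxΩ, hxc⟩ := hball x hx
      have h2 : ‖fderiv ℝ v x - fderiv ℝ u x0‖ ≤ m / 2 := by
        have h3 : fderiv ℝ v x - fderiv ℝ u x0 = (fderiv ℝ v x - fderiv ℝ u x) +
          (fderiv ℝ u x - fderiv ℝ u x0) := by abel
        rw [h3]
        refine (norm_add_le _ _).trans ?_
        have := (hclose x hxΩ).2
        linarith
      have h4 := lower_of_close hlow h2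
      exact injective_of_lower (m := m - m / 2) (by linarith) h4
  · obtain ⟨a, e, y0, r, t1, t2, η, c, δ, ρ, hδ, hρ, hρr, hrR, hrΩ, hbox⟩ :=
      exists_box hΩ hu.c1 hu.inj hx0 (hu.loc x0 hx0) hg hR
    refine ⟨ρ, δ, hρ, hδ, fun v Dv hv hclose κ hκ ε hε => ?_⟩
    obtain ⟨hB, hcore⟩ := hbox v hv.c1 hv.inj (fun x hx => hclose x (hrΩ hx))
    obtain ⟨v', D', h1, h2, h3, h4, h5, h6, h7⟩ := hB.improve hΩ hq hv hκ hε
    refine ⟨v', D', h1, fun x hx => h2 x fun h => hx (closedBall_subset_closedBall hrR h), h3, h4,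
      h5, h6, fun x hx => ?_⟩
    obtain ⟨c1, c2⟩ := hcore x hx
    exact h7 x (ball_subset_ball hρr hx) c1 c2

/-- **First stage.** -/
theorem stage_corank {Ω : Set (E n)} (hΩ : IsOpen Ω) {q : ℝ≥0∞} (hq : 1 ≤ q) :
    Stage Ω q Loc1 Good1 := by
  intro u D hu K C hK hKΩ hC hdis ε hε
  classical
  -- radii
  have hRex : ∀ x ∈ K, ∃ R : ℝ, 0 < R ∧ Disjoint (closedBall x R) C := by
    intro x hx
    have hxC : x ∈ Cᶜ := disjoint_left.1 hdis hx
    obtain ⟨R, hR, hsub⟩ := Metric.nhds_basis_closedBall.mem_iff.1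
      (hC.isOpen_compl.mem_nhds hxC)
    exact ⟨R, hR, disjoint_left.2 fun y hy => hsub hy⟩
  choose! R hR hRC using hRex
  have hloc : ∀ x ∈ K, ∃ ρ δ : ℝ, 0 < ρ ∧ 0 < δ ∧ ∀ v Dv, Valid Ω q Loc1 v Dv →
      (∀ y ∈ Ω, ‖v y - u y‖ ≤ δ ∧ ‖fderiv ℝ v y - fderiv ℝ u y‖ ≤ δ) →
      ∀ κ : ℝ, 0 < κ → ∀ ε : ℝ≥0∞, ε ≠ 0 →
      ∃ v' D', Valid Ω q Loc1 v' D' ∧
        (∀ y, y ∉ closedBall x (R x) → v' y = v y ∧ ∀ i j, D' i j y = Dv i j y) ∧
        dW Ω q v Dv v' D' ≤ ε ∧ (∀ y, ‖v' y - v y‖ ≤ κ) ∧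
        (∀ y ∈ Ω, ‖fderiv ℝ v' y - fderiv ℝ v y‖ ≤ κ) ∧
        (∀ y ∈ Ω, Good1 v y → Good1 v' y) ∧ ∀ y ∈ ball x ρ, Good1 v' y := fun x hx =>
    local_improve hΩ hq hu (hKΩ hx) (hR x hx)
  choose! ρ δ hρ hδ himp using hloc
  obtain ⟨t, htK, htcov⟩ := hK.elim_nhds_subcover (fun x => ball x (ρ x))
    (fun x hx => ball_mem_nhds x (hρ x hx))
  -- induction
  have key : ∀ s : Finset (E n), s ⊆ t → ∀ κ : ℝ, 0 < κ → ∀ ε : ℝ≥0∞, ε ≠ 0 →
      ∃ v' D', Valid Ω q Loc1 v' D' ∧ (∀ y ∈ C, v' y = u y ∧ ∀ i j, D' i j y = D i j y) ∧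
        dW Ω q u D v' D' ≤ ε ∧ (∀ y, ‖v' y - u y‖ ≤ κ) ∧
        (∀ y ∈ Ω, ‖fderiv ℝ v' y - fderiv ℝ u y‖ ≤ κ) ∧
        (∀ y ∈ Ω, Good1 u y → Good1 v' y) ∧ ∀ x ∈ s, ∀ y ∈ ball x (ρ x), y ∈ Ω → Good1 v' y := by
    intro s
    induction s using Finset.induction_on with
    | empty =>
      intro _ κ hκ ε hε
      refine ⟨u, D, hu, fun y _ => ⟨rfl, fun _ _ => rfl⟩, ?_, fun y => by simpa using hκ.le,
        fun y _ => by simpa using hκ.le, fun y _ h => h, fun x hx => absurd hx (by simp)⟩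
      have : dW Ω q u D u D = 0 := by
        unfold dW
        simp only [sub_self]
        rw [W2norm_def]
        simp
      rw [this]; exact zero_le
    | insert a s ha ih =>
      intro hst κ hκ ε hε
      have hat : a ∈ t := hst (Finset.mem_insert_self a s)
      have hst' : s ⊆ t := fun x hx => hst (Finset.mem_insert_of_mem hx)
      have haK : a ∈ K := htK a hat
      have hε2 : ε / 2 ≠ 0 := (ENNReal.div_pos hε (by simp)).ne'
      obtain ⟨v, Dv, v1, v2, v3, v4, v5, v6, v7⟩ := ih hst' (min (κ / 2) (δ a))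
        (lt_min (by positivity) (hδ a haK)) (ε / 2) hε2
      obtain ⟨v', D', w1, w2, w3, w4, w5, w6, w7⟩ := himp a haK v Dv v1
        (fun y hy => ⟨(v4 y).trans (min_le_right _ _), (v5 y hy).trans (min_le_right _ _)⟩)
        (κ / 2) (by positivity) (ε / 2) hε2
      refine ⟨v', D', w1, fun y hy => ?_, ?_, fun y => ?_, fun y hy => ?_,
        fun y hy h => w6 y hy (v6 y hy h), fun x hx y hy hyΩ => ?_⟩
      · have hya : y ∉ closedBall a (R a) := fun h => disjoint_left.1 (hRC a haK) h hy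
        obtain ⟨e1, e2⟩ := w2 y hya
        obtain ⟨e3, e4⟩ := v2 y hy
        exact ⟨e1.trans e3, fun i j => (e2 i j).trans (e4 i j)⟩
      · calc dW Ω q u D v' D' ≤ dW Ω q u D v Dv + dW Ω q v Dv v' D' :=
              dW_triangle hΩ hq hu v1 w1
          _ ≤ ε / 2 + ε / 2 := add_le_add v3 w3
          _ = ε := ENNReal.add_halves ε
      · have e1 : v' y - u y = (v' y - v y) + (v y - u y) := by abel
        rw [e1]
        refine (norm_add_le _ _).trans ?_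
        have := w4 y
        have := (v4 y).trans (min_le_left _ _)
        linarith
      · have e1 : fderiv ℝ v' y - fderiv ℝ u y = (fderiv ℝ v' y - fderiv ℝ v y) +
          (fderiv ℝ v y - fderiv ℝ u y) := by abel
        rw [e1]
        refine (norm_add_le _ _).trans ?_
        have := w5 y hy
        have := (v5 y hy).trans (min_le_left _ _)
        linarith
      · rcases Finset.mem_insert.1 hx with rfl | hx'
        · exact w7 y hy
        · exact w6 y hyΩ (v7 x hx' y hy hyΩ)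
  obtain ⟨v', D', w1, w2, w3, w4, w5, w6, w7⟩ := key t (Finset.Subset.refl t) 1 one_pos ε hε
  refine ⟨v', D', w1, w2, w3, w6, fun x hx => ?_⟩
  obtain ⟨a, ha, hxa⟩ := mem_iUnion₂.1 (htcov hx)
  exact w7 a ha x hxa (hKΩ hx)

end Run7.h7
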