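import Mathlib
import Pool.Agent.Run7.h7.Defs
import Pool.Agent.Run7.h7.Basic
import Pool.Agent.Run7.h7.Weak
import Pool.Agent.Run7.h7.WeakC1
import Pool.Agent.Run7.h7.Smooth2
import Pool.Agent.Run7.h7.Global
import Pool.Agent.Run7.h7.Limit
import Pool.Agent.Run7.h7.Smoothing
import Pool.Agent.Run7.h7.SmoothStage
import Pool.Agent.Run7.h7.StageOne

/-!
Second order Sobolev homeomorphisms of class `C^1` whose derivatives have corank at most one are
limits of diffeomorphisms.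
-/

open MeasureTheory Filter Set Metric
open scoped ENNReal Topology ContDiff

namespace Run7.h7

variable {n : ℕ}

/-- The weak first derivatives of a map of class `C^1` are the classical ones. -/
lemma InW2.ae_eq1 {F : Type*} [NormedAddCommGroup F] [NormedSpace ℝ F] [CompleteSpace F]
    {Ω : Set (E n)} (hΩ : IsOpen Ω) {q : ℝ≥0∞} (hq : 1 ≤ q)
    {u : E n → F} {Du : Fin n → E n → F} {D2u : Fin n → Fin n → E n → F}
    (hu : ContDiffOn ℝ 1 u Ω) (h : InW2 Ω q u Du D2u) :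
    (∀ i, ∀ᵐ x, x ∈ Ω → Du i x = pd u i x) ∧ ∀ i j, IsWeakPartial Ω j (pd u i) (D2u i j) := by
  have h1 : ∀ i, ∀ᵐ x, x ∈ Ω → Du i x = pd u i x := fun i =>
    (h.weak i).unique hΩ (IsWeakPartial.of_contDiffOn hΩ hu i)
      (locallyIntegrableOn_of_memLp hq (h.memLp_D i))
      ((pd_continuousOn hΩ hu i).locallyIntegrableOn hΩ.measurableSet)
  exact ⟨h1, fun i j => (h.weak2 i j).congr_ae (h1 i) (Eventually.of_forall fun x _ => rfl)⟩

lemma Valid.change {Ω : Set (E n)} {q : ℝ≥0∞} {Loc Loc' : (E n → E n) → E n → Prop}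
    {u : E n → E n} {D : Fin n → Fin n → E n → E n} (h : Valid Ω q Loc u D)
    (h' : ∀ x ∈ Ω, Loc' u x) : Valid Ω q Loc' u D :=
  ⟨h.inj, h.c1, h', h.weak, h.mem⟩

lemma Loc1.congr {u v : E n → E n} {x : E n} (h : u =ᶠ[𝓝 x] v) (hu : Loc1 u x) : Loc1 v x := by
  unfold Loc1 at hu ⊢
  rwa [← h.fderiv_eq]

lemma Good1.congr {u v : E n → E n} {x : E n} (h : u =ᶠ[𝓝 x] v) (hu : Good1 u x) :
    Good1 v x := by
  unfold Good1 at hu ⊢
  rwa [← h.fderiv_eq]

/-- approximation, with error bound -/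
lemma approx_of_corank {Ω : Set (E n)} (hΩ : IsOpen Ω) {q : ℝ≥0∞} (hq : 1 ≤ q) (hq' : q ≠ ⊤)
    {f : E n → E n} {D : Fin n → Fin n → E n → E n} (hf : Valid Ω q Loc1 f D) {ε : ℝ≥0∞}
    (hε : ε ≠ 0) (hε' : ε ≠ ⊤) :
    ∃ g D', Valid Ω q Good1 g D' ∧ ContDiffOn ℝ ∞ g Ω ∧
      dW Ω q f D g D' ≤ 2 * ((1 + n + n * n) * ε) := by
  obtain ⟨g1, D1, v1, good1, e1⟩ := limit_of_stage (Loc := Loc1) (Good := Good1) hΩ hq
    (fun u v x h => Loc1.congr h) (fun u v x h => Good1.congr h) (stage_corank hΩ hq) hf hε hε'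
  have v1' : Valid Ω q (fun u x => Function.Injective (fderiv ℝ u x)) g1 D1 := v1.change good1
  obtain ⟨g2, D2, v2, good2, e2⟩ := limit_of_stage
    (Loc := fun u x => Function.Injective (fderiv ℝ u x)) (Good := fun u x => ContDiffAt ℝ ∞ u x)
    hΩ hq (fun u v x h => Good1.congr h)
    (fun u v x h hu => hu.congr_of_eventuallyEq h.symm) (stage_smooth hΩ hq hq') v1' hε hε'
  refine ⟨g2, D2, v2, fun x hx => (good2 x hx).contDiffWithinAt, ?_⟩
  have h1 := dW_triangle (Loc := fun _ _ => True) hΩ hq (hf.change fun _ _ => trivial)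
    (v1.change fun _ _ => trivial) (v2.change fun _ _ => trivial)
  calc _ ≤ _ := h1
    _ ≤ (1 + n + n * n) * ε + (1 + n + n * n) * ε := add_le_add e1 e2
    _ = _ := by ring

/-- From approximation to limits. -/
lemma limit_of_approx {Ω : Set (E n)} (hΩ : IsOpen Ω) {q : ℝ≥0∞} (hq : 1 ≤ q)
    {f : E n → E n} {Df : Fin n → E n → E n} {D2f : Fin n → Fin n → E n → E n}
    (hf : InW2 Ω q f Df D2f) (hc : ContDiffOn ℝ 1 f Ω) {P : (E n → E n) → Prop}
    (h : ∀ ε : ℝ≥0∞, ε ≠ 0 → ε ≠ ⊤ → ∃ g D', P g ∧ ContDiffOn ℝ 1 g Ω ∧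
      (∀ i j, IsWeakPartial Ω j (pd g i) (D' i j)) ∧
      (∀ i j, MemLp (D' i j) q (volume.restrict Ω)) ∧ dW Ω q f D2f g D' ≤ ε) :
    IsW2Limit P Ω q f := by
  obtain ⟨hae, hw⟩ := hf.ae_eq1 hΩ hq hc
  choose! g D' hP hg hw' hm hd using h
  set ε : ℕ → ℝ≥0∞ := fun k => ((k : ℝ≥0∞) + 1)⁻¹ with hε
  have hε0 : ∀ k, ε k ≠ 0 := fun k => ENNReal.inv_ne_zero.2 (by
    exact ENNReal.add_ne_top.2 ⟨ENNReal.natCast_ne_top k, ENNReal.one_ne_top⟩)
  have hε1 : ∀ k, ε k ≠ ⊤ := fun k => ENNReal.inv_ne_top.2 (by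
    exact (lt_of_lt_of_le one_pos le_add_self).ne')
  refine ⟨Df, D2f, hf, fun k => g (ε k), fun k => pd (g (ε k)), fun k => D' (ε k), fun k => ?_, ?_⟩
  · refine ⟨hP _ (hε0 k) (hε1 k), ?_⟩
    have hc' := hg _ (hε0 k) (hε1 k)
    have hdk := hd _ (hε0 k) (hε1 k)
    have hfin : dW Ω q f D2f (g (ε k)) (D' (ε k)) < ⊤ := lt_of_le_of_lt hdk (lt_top_iff_ne_top.2 (hε1 k))
    unfold dW at hfin
    rw [W2norm_def, ENNReal.add_lt_top, ENNReal.add_lt_top] at hfin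
    obtain ⟨⟨f0, f1⟩, -⟩ := hfin
    refine ⟨?_, fun i => ?_, hm _ (hε0 k) (hε1 k), fun i =>
      IsWeakPartial.of_contDiffOn hΩ hc' i, hw' _ (hε0 k) (hε1 k)⟩
    · have m1 : MemLp (fun x => g (ε k) x - f x) q (volume.restrict Ω) :=
        ⟨(hc'.continuousOn.aestronglyMeasurable hΩ.measurableSet).sub hf.memLp.1, f0⟩
      have m2 := m1.add hf.memLp
      have e1 : ((fun x => g (ε k) x - f x) + f) = g (ε k) := by ext1 x; simp
      rwa [e1] at m2
    · have mf : MemLp (pd f i) q (volume.restrict Ω) :=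
        (memLp_congr_ae (ae_restrict_of_imp hΩ.measurableSet (hae i))).1 (hf.memLp_D i)
      have m1 : MemLp (fun x => pd (g (ε k)) i x - pd f i x) q (volume.restrict Ω) :=
        ⟨((pd_continuousOn hΩ hc' i).aestronglyMeasurable hΩ.measurableSet).sub mf.1,
          (ENNReal.sum_lt_top.1 f1) i (Finset.mem_univ i)⟩
      have m2 := m1.add mf
      have e1 : ((fun x => pd (g (ε k)) i x - pd f i x) + pd f i) = pd (g (ε k)) i := by
        ext1 x; simp
      rwa [e1] at m2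
  · have hk : ∀ k, W2norm Ω q (fun x => g (ε k) x - f x) (fun i x => pd (g (ε k)) i x - Df i x)
        (fun i j x => D' (ε k) i j x - D2f i j x) ≤ ε k := by
      intro k
      refine le_trans (le_of_eq ?_) (hd _ (hε0 k) (hε1 k))
      unfold dW
      refine W2norm_congr hΩ.measurableSet (Eventually.of_forall fun x _ => rfl) (fun i => ?_)
        (fun i j => Eventually.of_forall fun x _ => rfl)
      filter_upwards [hae i] with x hx hxΩ
      rw [hx hxΩ]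
    have hlim : Tendsto ε atTop (𝓝 0) := by
      have h1 : Tendsto (fun k : ℕ => ((k : ℝ≥0∞) + 1)) atTop (𝓝 ⊤) :=
        ENNReal.tendsto_nhds_top fun m => by
          filter_upwards [eventually_ge_atTop m] with k hk
          exact lt_of_lt_of_le (by exact_mod_cast Nat.lt_succ_self m)
            (show ((m : ℝ≥0∞) + 1) ≤ k + 1 by gcongr)
      have := tendsto_inv_iff.2 h1
      simpa using this
    exact tendsto_of_tendsto_of_tendsto_of_le_of_le tendsto_const_nhds hlim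
      (fun _ => zero_le) hk

/-- **Main theorem.** -/
theorem limit_of_corank {Ω : Set (E n)} (hΩ : IsOpen Ω) {q : ℝ≥0∞} (hq : 1 ≤ q) (hq' : q ≠ ⊤)
    {f : E n → E n} {Df : Fin n → E n → E n} {D2f : Fin n → Fin n → E n → E n}
    (hf : InW2 Ω q f Df D2f) (hc : ContDiffOn ℝ 1 f Ω) (hinj : InjOn f Ω)
    (hk : ∀ x ∈ Ω, Loc1 f x) : IsW2Limit (IsDiffeoOn Ω) Ω q f := by
  obtain ⟨hae, hw⟩ := hf.ae_eq1 hΩ hq hc
  have hval : Valid Ω q Loc1 f D2f := ⟨hinj, hc, hk, hw, fun i j => hf.memLp_D2 i j⟩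
  refine limit_of_approx hΩ hq hf hc fun ε hε hε' => ?_
  have hcpos : (2 * (1 + n + n * n) : ℝ≥0∞) ≠ 0 := by
    have : (1 : ℝ≥0∞) ≤ 2 * (1 + n + n * n) := by
      calc (1 : ℝ≥0∞) ≤ 2 * 1 := by norm_num
        _ ≤ 2 * (1 + n + n * n) := by gcongr; rw [add_assoc]; exact le_self_add
    exact (lt_of_lt_of_le one_pos this).ne'
  have hctop : (2 * (1 + n + n * n) : ℝ≥0∞) ≠ ⊤ := by
    refine ENNReal.mul_ne_top (by simp) ?_
    norm_cast; exact ENNReal.natCast_ne_top _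
  obtain ⟨g, D', v, hs, hd⟩ := approx_of_corank hΩ hq hq' hval
    (ε := ε / (2 * (1 + n + n * n))) (ENNReal.div_pos hε hctop).ne' (ENNReal.div_ne_top hε' hcpos)
  refine ⟨g, D', isDiffeoOn_of_injOn hΩ hs v.loc v.inj, hs.of_le (by simp), v.weak, v.mem,
    hd.trans (le_of_eq ?_)⟩
  rw [← mul_assoc, ENNReal.mul_div_cancel hcpos hctop]

end Run7.h7
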