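import Mathlib
import Pool.Agent.Run7.h7.Defs
import Pool.Agent.Run7.h7.Basic
import Pool.Agent.Run7.h7.Weak
import Pool.Agent.Run7.h7.WeakC1
import Pool.Agent.Run7.h7.Smooth2
import Pool.Agent.Run7.h7.Limit
import Pool.Agent.Run7.h7.Smoothing
import Pool.Agent.Run7.h7.SmoothStage
import Pool.Agent.Run7.h7.Fibre
import Pool.Agent.Run7.h7.FibrePert
import Pool.Agent.Run7.h7.FibreChart
import Pool.Agent.Run7.h7.ScalarPert
import Pool.Agent.Run7.h7.StageOne

/-!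
Relative versions: improvements of a map on an open subset, with control in `C^1`.
-/

open MeasureTheory Filter Set Metric
open scoped ENNReal Topology ContDiff RealInnerProductSpace

namespace Run7.h7

variable {n : ℕ}

/-- Small perturbations, in `C^1` and in the second order Sobolev norm, vanishing on `C`. -/
structure Pert (q : ℝ≥0∞) (κ : ℝ) (ε : ℝ≥0∞) (C : Set (E n)) (h : E n → E n)
    (H : Fin n → Fin n → E n → E n) : Prop where
  c1 : ContDiff ℝ 1 h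
  b0 : ∀ x, ‖h x‖ ≤ κ
  b1 : ∀ x, ‖fderiv ℝ h x‖ ≤ κ
  off : ∀ x ∈ C, h x = 0 ∧ ∀ i j, H i j x = 0
  weak : ∀ i j, IsWeakPartial univ j (pd h i) (H i j)
  mem : ∀ i j, MemLp (H i j) q
  norm : W2norm univ q h (pd h) H ≤ ε

lemma Pert.pd_cont {q : ℝ≥0∞} {κ : ℝ} {ε : ℝ≥0∞} {C : Set (E n)} {h : E n → E n}
    {H : Fin n → Fin n → E n → E n} (p : Pert q κ ε C h H) (i : Fin n) : Continuous (pd h i) :=
  (p.c1.continuous_fderiv (by simp)).clm_apply continuous_const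

lemma Pert.zero {q : ℝ≥0∞} {κ : ℝ} (hκ : 0 ≤ κ) (ε : ℝ≥0∞) (C : Set (E n)) :
    Pert q κ ε C (fun _ => 0) (fun _ _ _ => 0) := by
  have hpd : ∀ i : Fin n, pd (fun _ : E n => (0 : E n)) i = fun _ => 0 := by
    intro i; ext1 x; unfold pd; simp
  refine ⟨contDiff_const, fun x => by simpa using hκ, fun x => by simpa using hκ,
    fun x _ => ⟨rfl, fun _ _ => rfl⟩, fun i j => ?_, fun i j => MemLp.zero, ?_⟩
  · rw [hpd]; exact IsWeakPartial.zero
  · rw [W2norm_def]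
    simp only [hpd]
    simp

lemma Pert.add {q : ℝ≥0∞} (hq : 1 ≤ q) {κ κ' : ℝ} {ε ε' : ℝ≥0∞} {C : Set (E n)}
    {h h' : E n → E n} {H H' : Fin n → Fin n → E n → E n} (p : Pert q κ ε C h H)
    (p' : Pert q κ' ε' C h' H') :
    Pert q (κ + κ') (ε + ε') C (fun x => h x + h' x) (fun i j x => H i j x + H' i j x) := by
  have hd := p.c1.differentiable (by simp)
  have hd' := p'.c1.differentiable (by simp)
  have hf : ∀ x, fderiv ℝ (fun x => h x + h' x) x = fderiv ℝ h x + fderiv ℝ h' x := fun x =>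
    fderiv_fun_add (hd x) (hd' x)
  have hpd : ∀ i, pd (fun x => h x + h' x) i = fun x => pd h i x + pd h' i x := by
    intro i; ext1 x; unfold pd; rw [hf]; rfl
  refine ⟨p.c1.add p'.c1, fun x => ?_, fun x => ?_, fun x hx => ?_, fun i j => ?_,
    fun i j => (p.mem i j).add (p'.mem i j), ?_⟩
  · exact (norm_add_le _ _).trans (add_le_add (p.b0 x) (p'.b0 x))
  · rw [hf]; exact (norm_add_le _ _).trans (add_le_add (p.b1 x) (p'.b1 x))
  · obtain ⟨e1, e2⟩ := p.off x hx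
    obtain ⟨e3, e4⟩ := p'.off x hx
    exact ⟨by rw [e1, e3, add_zero], fun i j => by rw [e2, e4, add_zero]⟩
  · rw [hpd]
    exact (p.weak i j).add (p'.weak i j)
      ((p.pd_cont i).locallyIntegrable.locallyIntegrableOn _)
      (((p.mem i j).locallyIntegrable hq).locallyIntegrableOn _)
      ((p'.pd_cont i).locallyIntegrable.locallyIntegrableOn _)
      (((p'.mem i j).locallyIntegrable hq).locallyIntegrableOn _)
  · have e1 : pd (fun x => h x + h' x) = fun i x => pd h i x + pd h' i x := by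
      ext1 i; exact hpd i
    rw [e1]
    refine (W2norm_triangle hq ?_ ?_ ?_ ?_ ?_ ?_).trans (add_le_add p.norm p'.norm)
    · exact p.c1.continuous.aestronglyMeasurable
    · exact p'.c1.continuous.aestronglyMeasurable
    · exact fun i => (p.pd_cont i).aestronglyMeasurable
    · exact fun i => (p'.pd_cont i).aestronglyMeasurable
    · intro i j; rw [Measure.restrict_univ]; exact (p.mem i j).1
    · intro i j; rw [Measure.restrict_univ]; exact (p'.mem i j).1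

lemma Pert.mono {q : ℝ≥0∞} {κ κ' : ℝ} {ε ε' : ℝ≥0∞} {C C' : Set (E n)} {h : E n → E n}
    {H : Fin n → Fin n → E n → E n} (p : Pert q κ ε C h H) (h1 : κ ≤ κ') (h2 : ε ≤ ε')
    (h3 : C' ⊆ C) : Pert q κ' ε' C' h H :=
  ⟨p.c1, fun x => (p.b0 x).trans h1, fun x => (p.b1 x).trans h1, fun x hx => p.off x (h3 hx),
    p.weak, p.mem, p.norm.trans h2⟩

/-- Adding a perturbation to a valid pair. -/
lemma Valid.pert {Ω : Set (E n)} (hΩ : IsOpen Ω) {q : ℝ≥0∞} (hq : 1 ≤ q)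
    {Loc : (E n → E n) → E n → Prop} {u : E n → E n} {D : Fin n → Fin n → E n → E n}
    (hv : Valid Ω q Loc u D) {κ : ℝ} {ε : ℝ≥0∞} {C : Set (E n)} {h : E n → E n}
    {H : Fin n → Fin n → E n → E n} (p : Pert q κ ε C h H)
    (hinj : InjOn (fun x => u x + h x) Ω) (hloc : ∀ x ∈ Ω, Loc (fun x => u x + h x) x) :
    Valid Ω q Loc (fun x => u x + h x) (fun i j x => D i j x + H i j x) :=
  (hv.add_pert hΩ hq p.c1 p.weak p.mem hinj hloc).1

/-- The improvement in a box. -/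
lemma Box.improveR {Ω : Set (E n)} (hΩ : IsOpen Ω) {q : ℝ≥0∞} (hq : 1 ≤ q) {v : E n → E n}
    {D : Fin n → Fin n → E n → E n} {Loc : (E n → E n) → E n → Prop}
    (hv : Valid Ω q Loc v D) {a e x0 y0 : E n}
    {r t1 t2 η c : ℝ} (h : Box Ω v a e x0 y0 r t1 t2 η c) {κ : ℝ} (hκ : 0 < κ) {ε : ℝ≥0∞}
    (hε : ε ≠ 0) :
    ∃ h H, Pert q κ ε (closedBall x0 r)ᶜ h H ∧ InjOn (fun x => v x + h x) Ω ∧
      (∀ x ∈ Ω, Loc1 v x → Loc1 (fun x => v x + h x) x) ∧
      (∀ x ∈ Ω, Good1 v x → Good1 (fun x => v x + h x) x) ∧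
      ∀ x ∈ ball x0 r, ‖Pa a (v x) - y0‖ ≤ η / 2 → ⟪e, x - x0⟫ ∈ Icc t1 t2 →
        Good1 (fun x => v x + h x) x := by
  obtain ⟨ς, hς1, hς⟩ := h.exists_sign
  obtain ⟨W, M, hW, hMpos, hM, hW1, hW0⟩ := exists_W t1 t2 h.hη
  obtain ⟨ψ, hψ, hψI, hψ1, hψ0⟩ := exists_psi h.hη
  have hr := h.hr
  obtain ⟨θ, hθ, hθc, hθU, hθ1, hθI⟩ := exists_cutoff (isCompact_closedBall x0 (r / 2))
    (isOpen_ball (x := x0) (ε := r)) (closedBall_subset_ball (by linarith))
  set S : Set (E n) := closedBall x0 (r / 2) with hS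
  have hSc : IsCompact S := isCompact_closedBall _ _
  have hSb : S ⊆ ball x0 r := closedBall_subset_ball (by linarith)
  have hSΩ : S ⊆ Ω := hSb.trans h.hB
  have hTc : IsCompact (tsupport θ) := hθc.isCompact
  have hTΩ : tsupport θ ⊆ Ω := hθU.trans h.hB
  set Φ : E n × E n → ℝ := fun p => θ p.2 * (ψ (‖Pa a p.1 - y0‖ ^ 2) * W ⟪e, p.2 - x0⟫) with hΦ
  have hΦs : ContDiff ℝ ∞ Φ := by
    have g1 : ContDiff ℝ ∞ (fun p : E n × E n => Pa a p.1 - y0) :=
      ((Pa a).contDiff.comp contDiff_fst).sub contDiff_const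
    have g2 : ContDiff ℝ ∞ (fun p : E n × E n => ‖Pa a p.1 - y0‖ ^ 2) := g1.norm_sq ℝ
    have g3 : ContDiff ℝ ∞ (fun p : E n × E n => ⟪e, p.2 - x0⟫) :=
      (innerSL ℝ e).contDiff.comp (contDiff_snd.sub contDiff_const)
    exact (hθ.comp contDiff_snd).mul ((hψ.comp g2).mul (hW.comp g3))
  have hΦ0 : ∀ y x, x ∉ tsupport θ → Φ (y, x) = 0 := by
    intro y x hx
    simp only [hΦ]
    rw [image_eq_zero_of_notMem_tsupport hx, zero_mul]
  obtain ⟨hb1, B, hBw, hBL, hB0⟩ := exists_scalar_pert hΩ hTc hTΩ hq hv.c1 hv.weak hv.mem hΦs hΦ0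
  set b : E n → ℝ := fun x => Φ (v x, x) with hb
  -- the formula in the ball
  have hθS : ∀ x ∈ S, θ x = 1 := fun x hx =>
    ((eventually_nhdsSet_iff_forall.1 hθ1) x hx).self_of_nhds
  have hformula : ∀ x ∈ ball x0 r, b x = ψ (‖Pa a (v x) - y0‖ ^ 2) * W ⟪e, x - x0⟫ := by
    intro x hx
    by_cases hxS : x ∈ S
    · simp only [hb, hΦ]; rw [hθS x hxS, one_mul]
    · have h0 : ψ (‖Pa a (v x) - y0‖ ^ 2) * W ⟪e, x - x0⟫ = 0 := by
        by_cases h1 : ‖Pa a (v x) - y0‖ < η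
        · by_cases h2 : ⟪e, x - x0⟫ ∈ Ioo (t1 - η) (t2 + η)
          · exfalso
            apply hxS
            have h3 := (h.X_mem (Pa_Pa h.ha (v x)) h1.le (Ioo_subset_Icc_self h2)).1
            rwa [h.eq_X hx] at h3
          · rw [(hW0 _ h2).1, mul_zero]
        · push Not at h1
          have := h.hη
          rw [hψ0 _ (by gcongr), zero_mul]
      simp only [hb, hΦ]
      rw [h0, mul_zero]
  have hb0 : ∀ x, x ∉ S → b x = 0 := by
    intro x hx
    by_cases hxb : x ∈ ball x0 r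
    · rw [hformula x hxb]
      by_cases h1 : ‖Pa a (v x) - y0‖ < η
      · by_cases h2 : ⟪e, x - x0⟫ ∈ Ioo (t1 - η) (t2 + η)
        · exfalso
          apply hx
          have h3 := (h.X_mem (Pa_Pa h.ha (v x)) h1.le (Ioo_subset_Icc_self h2)).1
          rwa [h.eq_X hxb] at h3
        · rw [(hW0 _ h2).1, mul_zero]
      · push Not at h1
        have := h.hη
        rw [hψ0 _ (by gcongr), zero_mul]
    · exact hΦ0 _ _ fun h1 => hxb (hθU h1)
  -- the vector perturbation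
  set g : E n → E n := fun x => b x • a with hg
  set G : Fin n → Fin n → E n → E n := fun i j x => B i j x • a with hG
  have hg1 : ContDiff ℝ 1 g := hb1.smul contDiff_const
  have hbc : HasCompactSupport b := HasCompactSupport.intro hSc (fun x hx => hb0 x hx)
  have hgc : HasCompactSupport g := hbc.smul_right
  have hpg : ∀ i, pd g i = fun x => pd b i x • a := by
    intro i; ext1 x
    unfold pd
    have := ((hb1.differentiable (by simp) x).hasFDerivAt.smul_const a).fderiv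
    rw [hg, this]; rfl
  have hpbc : ∀ i, Continuous (pd b i) := fun i =>
    (hb1.continuous_fderiv (by simp)).clm_apply continuous_const
  have hGw : ∀ i j, IsWeakPartial univ j (pd g i) (G i j) := by
    intro i j
    rw [hpg]
    exact (hBw i j).smul_vec ((hpbc i).locallyIntegrable.locallyIntegrableOn _)
      (((hBL i j).locallyIntegrable hq).locallyIntegrableOn _) a
  have hGL : ∀ i j, MemLp (G i j) q := by
    intro i j
    have h1 := (ContinuousLinearMap.smulRight (1 : ℝ →L[ℝ] ℝ) a).comp_memLp' (hBL i j)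
    have h2 : (ContinuousLinearMap.smulRight (1 : ℝ →L[ℝ] ℝ) a) ∘ (B i j) = G i j := by
      ext1 x; simp [hG]
    rwa [h2] at h1
  obtain ⟨σ0, hσ0, hσ⟩ := small_scale (Ω := univ) hq hg1 hgc hGw hGL hκ hε
  obtain ⟨σ, hσpos, hσσ0, hσM⟩ : ∃ σ : ℝ, 0 < σ ∧ σ ≤ σ0 ∧ σ * M < c := by
    refine ⟨min σ0 (c / (2 * M)), lt_min hσ0 (by have := h.hc; positivity), min_le_left _ _, ?_⟩
    have h1 : min σ0 (c / (2 * M)) ≤ c / (2 * M) := min_le_right _ _
    have h2 : min σ0 (c / (2 * M)) * M ≤ c / (2 * M) * M := by gcongr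
    have h3 : c / (2 * M) * M = c / 2 := by field_simp
    have := h.hc
    linarith
  have hςσ : |ς * σ| ≤ σ0 := by
    rw [abs_mul, abs_of_pos hσpos]
    rcases hς1 with rfl | rfl <;> simpa using hσσ0
  obtain ⟨k1, k2, k3, k4, k5, k6⟩ := hσ (ς * σ) hςσ
  have heq : (fun x => v x + (ς * σ) • g x) = fun x => v x + (ς * σ * b x) • a := by
    ext1 x; rw [hg, smul_smul]
  have hinj : InjOn (fun x => v x + (ς * σ) • g x) Ω := by
    rw [heq]
    exact h.injOn_pert hς1 hς hW hM hW1 hW0 hσpos hσM hψI hψ0 hformula hb0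
  obtain ⟨d1, d2, d3⟩ := h.der_pert hΩ hς1 hς hW hM hW1 hW0 hσpos hσM hψ hψI hψ1 hψ0
    hformula hb0
  rw [← heq] at d1 d2 d3
  refine ⟨fun x => (ς * σ) • g x, fun i j x => (ς * σ) • G i j x, ⟨k3, k1, k2, ?_, k4, k5, k6⟩,
    hinj, d1, d2, d3⟩
  intro x hx
  have hxS : x ∉ S := fun h1 => hx (ball_subset_closedBall (hSb h1))
  have hxT : x ∉ tsupport θ := fun h1 => hx (ball_subset_closedBall (hθU h1))
  refine ⟨?_, fun i j => ?_⟩
  · simp only [hg]
    rw [hb0 x hxS]; simp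
  · simp only [hG]
    rw [hB0 i j x hxT]; simp

/-- Improvements near a compact subset of `Ω'`. -/
def StageR (Ω Ω' : Set (E n)) (q : ℝ≥0∞) (Loc Good : (E n → E n) → E n → Prop) : Prop :=
  ∀ u D, Valid Ω q (fun u x => x ∈ Ω' → Loc u x) u D → ∀ K C : Set (E n), IsCompact K →
    K ⊆ Ω' → IsClosed C → Disjoint K C → ∀ κ : ℝ, 0 < κ → ∀ ε : ℝ≥0∞, ε ≠ 0 →
    ∃ h H, Pert q κ ε C h H ∧ Valid Ω q (fun u x => x ∈ Ω' → Loc u x) (fun x => u x + h x)
      (fun i j x => D i j x + H i j x) ∧ (∀ x ∈ Ω', Good u x → Good (fun x => u x + h x) x) ∧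
      ∀ x ∈ K, Good (fun x => u x + h x) x

/-- **Robust local improvement.** -/
theorem local_improveR {Ω Ω' : Set (E n)} (hΩ : IsOpen Ω) (hsub : Ω' ⊆ Ω)
    {q : ℝ≥0∞} (hq : 1 ≤ q) {u : E n → E n}
    {D : Fin n → Fin n → E n → E n} (hu : Valid Ω q (fun u x => x ∈ Ω' → Loc1 u x) u D)
    {x0 : E n} (hx0 : x0 ∈ Ω') {R : ℝ} (hR : 0 < R) :
    ∃ ρ δ : ℝ, 0 < ρ ∧ 0 < δ ∧ ∀ v Dv, Valid Ω q (fun u x => x ∈ Ω' → Loc1 u x) v Dv →
      (∀ x ∈ Ω, ‖v x - u x‖ ≤ δ ∧ ‖fderiv ℝ v x - fderiv ℝ u x‖ ≤ δ) →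
      ∀ κ : ℝ, 0 < κ → ∀ ε : ℝ≥0∞, ε ≠ 0 →
      ∃ h H, Pert q κ ε (closedBall x0 R)ᶜ h H ∧
        Valid Ω q (fun u x => x ∈ Ω' → Loc1 u x) (fun x => v x + h x)
          (fun i j x => Dv i j x + H i j x) ∧
        (∀ x ∈ Ω', Good1 v x → Good1 (fun x => v x + h x) x) ∧
        ∀ x ∈ ball x0 ρ, Good1 (fun x => v x + h x) x := by
  have hx0Ω : x0 ∈ Ω := hsub hx0
  by_cases hg : Good1 u x0
  · -- regular point
    obtain ⟨m, hm, hlow⟩ := exists_lower hg
    have hdc : ContinuousOn (fderiv ℝ u) Ω := hu.c1.continuousOn_fderiv_of_isOpen hΩ le_rfl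
    have h1 : ∀ᶠ x in 𝓝 x0, x ∈ Ω ∧ ‖fderiv ℝ u x - fderiv ℝ u x0‖ < m / 4 := by
      have hm0 : ∀ᶠ x in 𝓝 x0, x ∈ Ω := hΩ.mem_nhds hx0Ω
      refine hm0.and ?_
      have h2 := (hdc.continuousAt (hΩ.mem_nhds hx0Ω)).sub
        (continuousAt_const (y := fderiv ℝ u x0))
      have h3 : Tendsto (fun x => ‖fderiv ℝ u x - fderiv ℝ u x0‖) (𝓝 x0) (𝓝 0) := by
        have := h2.norm
        simpa [ContinuousAt] using this
      exact h3.eventually (gt_mem_nhds (by positivity))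
    obtain ⟨ρ, hρ, hball⟩ := Metric.eventually_nhds_iff_ball.1 h1
    refine ⟨ρ, m / 4, hρ, by positivity, fun v Dv hv hclose κ hκ ε hε => ?_⟩
    refine ⟨fun _ => 0, fun _ _ _ => 0, Pert.zero hκ.le ε _, ?_, ?_, ?_⟩
    · simpa using hv
    · intro x _ h; simpa using h
    · intro x hx
      obtain ⟨hxΩ, hxc⟩ := hball x hx
      have h2 : ‖fderiv ℝ v x - fderiv ℝ u x0‖ ≤ m / 2 := by
        have h3 : fderiv ℝ v x - fderiv ℝ u x0 = (fderiv ℝ v x - fderiv ℝ u x) +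
          (fderiv ℝ u x - fderiv ℝ u x0) := by abel
        rw [h3]
        refine (norm_add_le _ _).trans ?_
        have := (hclose x hxΩ).2
        linarith
      have h4 := lower_of_close hlow h2
      have h5 : Good1 v x := injective_of_lower (m := m - m / 2) (by linarith) h4
      simpa using h5
  · obtain ⟨a, e, y0, r, t1, t2, η, c, δ, ρ, hδ, hρ, hρr, hrR, hrΩ, hbox⟩ :=
      exists_box hΩ hu.c1 hu.inj hx0Ω (hu.loc x0 hx0Ω hx0) hg hR
    refine ⟨ρ, δ, hρ, hδ, fun v Dv hv hclose κ hκ ε hε => ?_⟩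
    obtain ⟨hB, hcore⟩ := hbox v hv.c1 hv.inj (fun x hx => hclose x (hrΩ hx))
    obtain ⟨h, H, p, h2, h3, h4, h5⟩ := hB.improveR hΩ hq hv hκ hε
    refine ⟨h, H, p.mono le_rfl le_rfl (compl_subset_compl.2 (closedBall_subset_closedBall hrR)),
      hv.pert hΩ hq p h2 (fun x hx hx' => h3 x hx (hv.loc x hx hx')),
      fun x hx => h4 x (hsub hx), fun x hx => ?_⟩
    obtain ⟨c1, c2⟩ := hcore x hx
    exact h5 x (ball_subset_ball hρr hx) c1 c2

/-- **First stage.** -/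
theorem stage_corankR {Ω Ω' : Set (E n)} (hΩ : IsOpen Ω) (hsub : Ω' ⊆ Ω) {q : ℝ≥0∞}
    (hq : 1 ≤ q) : StageR Ω Ω' q Loc1 Good1 := by
  intro u D hu K C hK hKΩ hC hdis κ hκ ε hε
  classical
  -- radii
  have hRex : ∀ x ∈ K, ∃ R : ℝ, 0 < R ∧ C ⊆ (closedBall x R)ᶜ := by
    intro x hx
    have hxC : x ∈ Cᶜ := disjoint_left.1 hdis hx
    obtain ⟨R, hR, hsub⟩ := Metric.nhds_basis_closedBall.mem_iff.1
      (hC.isOpen_compl.mem_nhds hxC)
    exact ⟨R, hR, subset_compl_comm.1 hsub⟩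
  choose! R hR hRC using hRex
  have hloc : ∀ x ∈ K, ∃ ρ δ : ℝ, 0 < ρ ∧ 0 < δ ∧ ∀ v Dv,
      Valid Ω q (fun u x => x ∈ Ω' → Loc1 u x) v Dv →
      (∀ y ∈ Ω, ‖v y - u y‖ ≤ δ ∧ ‖fderiv ℝ v y - fderiv ℝ u y‖ ≤ δ) →
      ∀ κ : ℝ, 0 < κ → ∀ ε : ℝ≥0∞, ε ≠ 0 →
      ∃ h H, Pert q κ ε (closedBall x (R x))ᶜ h H ∧
        Valid Ω q (fun u x => x ∈ Ω' → Loc1 u x) (fun x => v x + h x)
          (fun i j x => Dv i j x + H i j x) ∧
        (∀ y ∈ Ω', Good1 v y → Good1 (fun x => v x + h x) y) ∧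
        ∀ y ∈ ball x ρ, Good1 (fun x => v x + h x) y := fun x hx =>
    local_improveR hΩ hsub hq hu (hKΩ hx) (hR x hx)
  choose! ρ δ hρ hδ himp using hloc
  obtain ⟨t, htK, htcov⟩ := hK.elim_nhds_subcover (fun x => ball x (ρ x))
    (fun x hx => ball_mem_nhds x (hρ x hx))
  have hudiff : ∀ x ∈ Ω, DifferentiableAt ℝ u x := fun x hx =>
    (hu.c1.contDiffAt (hΩ.mem_nhds hx)).differentiableAt (by simp)
  -- induction
  have key : ∀ s : Finset (E n), s ⊆ t → ∀ κ : ℝ, 0 < κ → ∀ ε : ℝ≥0∞, ε ≠ 0 →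
      ∃ h H, Pert q κ ε C h H ∧
        Valid Ω q (fun u x => x ∈ Ω' → Loc1 u x) (fun x => u x + h x)
          (fun i j x => D i j x + H i j x) ∧
        (∀ y ∈ Ω', Good1 u y → Good1 (fun x => u x + h x) y) ∧
        ∀ x ∈ s, ∀ y ∈ ball x (ρ x), y ∈ Ω' → Good1 (fun x => u x + h x) y := by
    intro s
    induction s using Finset.induction_on with
    | empty =>
      intro _ κ hκ ε hε
      refine ⟨fun _ => 0, fun _ _ _ => 0, Pert.zero hκ.le ε _, ?_, ?_,
        fun x hx => absurd hx (by simp)⟩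
      · simpa using hu
      · intro x _ h; simpa using h
    | insert a s ha ih =>
      intro hst κ hκ ε hε
      have hat : a ∈ t := hst (Finset.mem_insert_self a s)
      have hst' : s ⊆ t := fun x hx => hst (Finset.mem_insert_of_mem hx)
      have haK : a ∈ K := htK a hat
      have hε2 : ε / 2 ≠ 0 := (ENNReal.div_pos hε (by simp)).ne'
      obtain ⟨h, H, p, v1, v6, v7⟩ := ih hst' (min (κ / 2) (δ a))
        (lt_min (by positivity) (hδ a haK)) (ε / 2) hε2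
      obtain ⟨h', H', p', w1, w6, w7⟩ := himp a haK (fun x => u x + h x) _ v1
        (fun y hy => by
          refine ⟨?_, ?_⟩
          · rw [add_sub_cancel_left]
            exact (p.b0 y).trans (min_le_right _ _)
          · rw [fderiv_fun_add (hudiff y hy) (p.c1.differentiable (by simp) y),
              add_sub_cancel_left]
            exact (p.b1 y).trans (min_le_right _ _))
        (κ / 2) (by positivity) (ε / 2) hε2
      have e1 : (fun x => u x + h x + h' x) = fun x => u x + (h x + h' x) := by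
        ext1 x; rw [add_assoc]
      have e2 : (fun i j x => D i j x + H i j x + H' i j x) =
          fun i j x => D i j x + (H i j x + H' i j x) := by
        ext1 i; ext1 j; ext1 x; rw [add_assoc]
      rw [e1] at w1 w6 w7
      rw [e2] at w1
      refine ⟨_, _, ((p.mono (min_le_left _ _) le_rfl Subset.rfl).add hq
        (p'.mono le_rfl le_rfl (hRC a haK))).mono (by linarith)
        (ENNReal.add_halves ε).le Subset.rfl, w1, fun y hy h => w6 y hy (v6 y hy h),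
        fun x hx y hy hyΩ => ?_⟩
      rcases Finset.mem_insert.1 hx with rfl | hx'
      · exact w7 y hy
      · exact w6 y hyΩ (v7 x hx' y hy hyΩ)
  obtain ⟨h, H, p, w1, w6, w7⟩ := key t (Finset.Subset.refl t) κ hκ ε hε
  refine ⟨h, H, p, w1, w6, fun x hx => ?_⟩
  obtain ⟨a, ha, hxa⟩ := mem_iUnion₂.1 (htcov hx)
  exact w7 a ha x hxa (hKΩ hx)

end Run7.h7
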