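import Mathlib
import Pool.Agent.Run7.h7.Defs
import Pool.Agent.Run7.h7.Basic
import Pool.Agent.Run7.h7.Global

/-!
Maps close to a homeomorphism, in a fine sense, are homeomorphisms onto the same image.
-/

open MeasureTheory Filter Set Metric
open scoped ENNReal Topology

namespace Run7.h7

variable {n : ℕ}

/-- a gap function of an open set -/
lemma exists_gap {U : Set (E n)} (hU : IsOpen U) :
    ∃ δ : E n → ℝ, Continuous δ ∧ (∀ y ∈ U, 0 < δ y) ∧ (∀ y, δ y ≤ 1 / 2) ∧
      ∀ y, ∀ z ∉ U, δ y ≤ 1 / 2 * dist y z := by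
  rcases (Uᶜ).eq_empty_or_nonempty with he | hne
  · refine ⟨fun _ => 1 / 2, continuous_const, fun _ _ => by norm_num, fun _ => le_rfl,
      fun y z hz => ?_⟩
    have : z ∈ Uᶜ := hz
    rw [he] at this
    exact absurd this (notMem_empty z)
  · refine ⟨fun y => 1 / 2 * min 1 (infDist y Uᶜ), ?_, fun y hy => ?_, fun y => ?_,
      fun y z hz => ?_⟩
    · exact continuous_const.mul (continuous_const.min (continuous_infDist_pt _))
    · have h1 : 0 < infDist y Uᶜ :=
        (hU.isClosed_compl.notMem_iff_infDist_pos hne).1 fun h => h hy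
      have := lt_min one_pos h1
      positivity
    · have := min_le_left 1 (infDist y Uᶜ)
      linarith
    · have h1 := min_le_right 1 (infDist y Uᶜ)
      have h2 := infDist_le_dist_of_mem (x := y) (show z ∈ Uᶜ from hz)
      linarith

theorem homeo_of_close {Ω Ω' : Set (E n)} (hΩ : IsOpen Ω) (hΩ' : IsOpen Ω') (hsub : Ω' ⊆ Ω)
    {f g : E n → E n} (hf : IsHomeoOn Ω f) (hg : ContinuousOn g Ω) (hinj : InjOn g Ω)
    (hdiff : IsDiffeoOn Ω' g) (hb : ∀ x ∈ Ω', ‖g x - f x‖ ≤ 1 / 2)
    (hd : ∀ x ∈ Ω', ∀ z ∉ f '' Ω', ‖g x - f x‖ ≤ 1 / 2 * dist (f x) z)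
    (hfix : ∀ x ∈ Ω \ Ω', g x = f x) :
    IsHomeoOn Ω g ∧ g '' Ω = f '' Ω ∧ g '' Ω' = f '' Ω' := by
  obtain ⟨hfc, hfo, h0, h0c, h0l⟩ := hf
  obtain ⟨hgs, hgo, hi, his, hil⟩ := hdiff
  have hfinj : InjOn f Ω := h0l.injOn
  have hU : IsOpen (f '' Ω') := by
    have h1 : f '' Ω' = f '' Ω ∩ h0 ⁻¹' Ω' := by
      ext y
      constructor
      · rintro ⟨x, hx, rfl⟩
        refine ⟨⟨x, hsub hx, rfl⟩, ?_⟩
        rw [mem_preimage, h0l (hsub hx)]
        exact hx
      · rintro ⟨⟨x, hx, rfl⟩, h2⟩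
        rw [mem_preimage, h0l hx] at h2
        exact ⟨x, h2, rfl⟩
    rw [h1]
    exact h0c.isOpen_inter_preimage hfo hΩ'
  have hsubU : g '' Ω' ⊆ f '' Ω' := by
    rintro _ ⟨x, hx, rfl⟩
    by_contra h
    have h1 := hd x hx (g x) h
    rw [dist_comm, dist_eq_norm] at h1
    have h2 : ‖g x - f x‖ = 0 := by have := norm_nonneg (g x - f x); linarith
    rw [norm_eq_zero, sub_eq_zero] at h2
    exact h (h2 ▸ mem_image_of_mem f hx)
  have hclos : closure (g '' Ω') ∩ f '' Ω' ⊆ g '' Ω' := by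
    rintro z ⟨hz, hzU⟩
    obtain ⟨y, hy, hyz⟩ := mem_closure_iff_seq_limit.1 hz
    choose x hx hxy using hy
    have hgx : Tendsto (fun k => g (x k)) atTop (𝓝 z) := by
      have : (fun k => g (x k)) = y := by ext1 k; exact hxy k
      rw [this]; exact hyz
    have hbd : Bornology.IsBounded (range fun k => f (x k)) := by
      have h1 : Bornology.IsBounded (range fun k => g (x k)) := Metric.isBounded_range_of_tendsto _ hgx
      obtain ⟨R, hR⟩ := h1.exists_norm_le
      refine isBounded_iff_forall_norm_le.2 ⟨R + 1 / 2, ?_⟩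
      rintro _ ⟨k, rfl⟩
      have h2 := hR (g (x k)) ⟨k, rfl⟩
      have h3 := hb (x k) (hx k)
      calc ‖f (x k)‖ = ‖g (x k) - (g (x k) - f (x k))‖ := by rw [sub_sub_cancel]
        _ ≤ ‖g (x k)‖ + ‖g (x k) - f (x k)‖ := norm_sub_le _ _
        _ ≤ R + 1 / 2 := by linarith
    obtain ⟨w, -, φ, hφ, hφw⟩ := tendsto_subseq_of_bounded hbd (fun k => mem_range_self k)
    have hgφ : Tendsto (fun k => g (x (φ k))) atTop (𝓝 z) := hgx.comp hφ.tendsto_atTop
    have hwU : w ∈ f '' Ω' := by
      by_contra hw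
      have h1 : Tendsto (fun k => g (x (φ k))) atTop (𝓝 w) := by
        rw [tendsto_iff_dist_tendsto_zero]
        have h2 : Tendsto (fun k => 3 / 2 * dist (f (x (φ k))) w) atTop (𝓝 0) := by
          have := (tendsto_iff_dist_tendsto_zero.1 hφw).const_mul (3 / 2)
          simpa using this
        refine squeeze_zero (fun _ => dist_nonneg) (fun k => ?_) h2
        have h3 := hd (x (φ k)) (hx _) w hw
        have h4 : dist (g (x (φ k))) w ≤ dist (g (x (φ k))) (f (x (φ k))) +
          dist (f (x (φ k))) w := dist_triangle _ _ _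
        rw [dist_eq_norm (g (x (φ k))) (f (x (φ k)))] at h4
        linarith
      exact hw (tendsto_nhds_unique h1 hgφ ▸ hzU)
    obtain ⟨x', hx', hx'w⟩ := hwU
    have h1 : Tendsto (fun k => x (φ k)) atTop (𝓝 x') := by
      have h2 : ContinuousWithinAt h0 (f '' Ω) w := h0c w ⟨x', hsub hx', hx'w⟩
      have h3 : Tendsto (fun k => f (x (φ k))) atTop (𝓝[f '' Ω] w) :=
        tendsto_nhdsWithin_iff.2 ⟨hφw, Eventually.of_forall fun k => ⟨_, hsub (hx _), rfl⟩⟩
      have h4 := h2.tendsto.comp h3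
      have h5 : h0 w = x' := by rw [← hx'w]; exact h0l (hsub hx')
      rw [h5] at h4
      refine h4.congr fun k => ?_
      exact h0l (hsub (hx _))
    have h2 : Tendsto (fun k => g (x (φ k))) atTop (𝓝 (g x')) :=
      ((hg.continuousAt (hΩ.mem_nhds (hsub hx'))).tendsto).comp h1
    exact ⟨x', hx', tendsto_nhds_unique h2 hgφ⟩
  have himg' : g '' Ω' = f '' Ω' := by
    refine subset_antisymm hsubU ?_
    rintro y hy
    obtain ⟨x, hx, rfl⟩ := hy
    have hyU : f x ∈ f '' Ω' := ⟨x, hx, rfl⟩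
    have hpre : IsPreconnected (connectedComponentIn (f '' Ω') (f x)) :=
      isPreconnected_connectedComponentIn
    have hseg : segment ℝ (f x) (g x) ⊆ f '' Ω' := by
      rw [segment_eq_image']
      rintro _ ⟨t, ht, rfl⟩
      by_contra h
      have h1 := hd x hx _ h
      have h2 : dist (f x) (f x + t • (g x - f x)) = t * ‖g x - f x‖ := by
        rw [dist_eq_norm, sub_add_cancel_left, norm_neg, norm_smul, Real.norm_of_nonneg ht.1]
      rw [h2] at h1
      have h3 := norm_nonneg (g x - f x)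
      have h4 : t * ‖g x - f x‖ ≤ 1 * ‖g x - f x‖ := by gcongr; exact ht.2
      have h5 : ‖g x - f x‖ = 0 := by linarith
      apply h
      rw [norm_eq_zero] at h5
      simp only [h5, smul_zero, add_zero]
      exact hyU
    have hsegC : segment ℝ (f x) (g x) ⊆ connectedComponentIn (f '' Ω') (f x) :=
      (convex_segment _ _).isPreconnected.subset_connectedComponentIn (left_mem_segment ℝ _ _) hseg
    have hne : (connectedComponentIn (f '' Ω') (f x) ∩ g '' Ω').Nonempty :=
      ⟨g x, hsegC (right_mem_segment ℝ _ _), ⟨x, hx, rfl⟩⟩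
    have := hpre.subset_of_closure_inter_subset hgo hne
      ((inter_subset_inter_right _ (connectedComponentIn_subset _ _)).trans hclos)
    exact this (mem_connectedComponentIn hyU)
  have himg : g '' Ω = f '' Ω := by
    have h1 : Ω = Ω' ∪ (Ω \ Ω') := (union_sdiff_cancel hsub).symm
    rw [h1, image_union, image_union, himg']
    congr 1
    exact image_congr fun x hx => hfix x hx
  refine ⟨⟨hg, himg ▸ hfo, Function.invFunOn g Ω, ?_, hinj.leftInvOn_invFunOn⟩, himg, himg'⟩
  set k := Function.invFunOn g Ω with hk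
  have hkl : LeftInvOn k g Ω := hinj.leftInvOn_invFunOn
  rintro y0 ⟨x0, hx0, rfl⟩
  by_cases hx0' : x0 ∈ Ω'
  · have h1 : ContinuousAt hi (g x0) :=
      (his.continuousOn).continuousAt (hgo.mem_nhds ⟨x0, hx0', rfl⟩)
    have h2 : k =ᶠ[𝓝 (g x0)] hi := by
      filter_upwards [hgo.mem_nhds ⟨x0, hx0', rfl⟩] with y hy
      obtain ⟨x, hx, rfl⟩ := hy
      rw [hkl (hsub hx), hil hx]
    exact (h1.congr h2.symm).continuousWithinAt
  · have hy0 : g x0 = f x0 := hfix x0 ⟨hx0, hx0'⟩
    have hy0U : g x0 ∉ f '' Ω' := by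
      rintro ⟨x, hx, hxx⟩
      rw [hy0] at hxx
      exact hx0' (hfinj (hsub hx) hx0 hxx ▸ hx)
    have hbound : ∀ y ∈ g '' Ω, dist (f (k y)) (g x0) ≤ 2 * dist y (g x0) := by
      rintro _ ⟨x, hx, rfl⟩
      rw [hkl hx]
      by_cases hx' : x ∈ Ω'
      · have h1 := hd x hx' (g x0) hy0U
        have h2 : dist (f x) (g x0) ≤ dist (f x) (g x) + dist (g x) (g x0) :=
          dist_triangle _ _ _
        rw [dist_comm (f x) (g x), dist_eq_norm (g x) (f x)] at h2
        linarith
      · rw [hfix x ⟨hx, hx'⟩]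
        have := dist_nonneg (x := f x) (y := g x0)
        linarith
    have hkx : k (g x0) = x0 := hkl hx0
    have h1 : Tendsto (fun y => f (k y)) (𝓝[g '' Ω] (g x0)) (𝓝[f '' Ω] (g x0)) := by
      rw [tendsto_nhdsWithin_iff]
      constructor
      · rw [tendsto_iff_dist_tendsto_zero]
        have h2 : Tendsto (fun y => 2 * dist y (g x0)) (𝓝[g '' Ω] (g x0)) (𝓝 0) := by
          have h3 : Tendsto (fun y => 2 * dist y (g x0)) (𝓝 (g x0)) (𝓝 (2 * dist (g x0) (g x0))) :=
            (by fun_prop : Continuous fun y => 2 * dist y (g x0)).tendsto _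
          rw [dist_self, mul_zero] at h3
          exact h3.mono_left nhdsWithin_le_nhds
        refine tendsto_of_tendsto_of_tendsto_of_le_of_le' tendsto_const_nhds h2
          (Eventually.of_forall fun _ => dist_nonneg) ?_
        filter_upwards [self_mem_nhdsWithin] with y hy
        exact hbound y hy
      · filter_upwards [self_mem_nhdsWithin] with y hy
        obtain ⟨x, hx, rfl⟩ := hy
        rw [hkl hx]
        exact ⟨x, hx, rfl⟩
    have h2 : ContinuousWithinAt h0 (f '' Ω) (g x0) := h0c _ (hy0 ▸ ⟨x0, hx0, rfl⟩)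
    have h3 := h2.tendsto.comp h1
    unfold ContinuousWithinAt
    rw [hkx]
    have h4 : h0 (g x0) = x0 := by rw [hy0]; exact h0l hx0
    rw [h4] at h3
    refine h3.congr' ?_
    filter_upwards [self_mem_nhdsWithin] with y hy
    obtain ⟨x, hx, rfl⟩ := hy
    simp only [Function.comp]
    rw [hkl hx, h0l hx]

end Run7.h7
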