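import Mathlib
import Pool.Agent.Run7.h7.Defs
import Pool.Agent.Run7.h7.Basic
import Pool.Agent.Run7.h7.Weak
import Pool.Agent.Run7.h7.WeakC1
import Pool.Agent.Run7.h7.Smooth2
import Pool.Agent.Run7.h7.Limit
import Pool.Agent.Run7.h7.Smoothing
import Pool.Agent.Run7.h7.SmoothStage
import Pool.Agent.Run7.h7.StageOne
import Pool.Agent.Run7.h7.Rel

/-!
Infinite sums of small perturbations.
-/

open MeasureTheory Filter Set Metric
open scoped ENNReal Topology ContDiff

namespace Run7.h7

variable {n : ℕ}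

lemma W2norm_comp {F : Type*} [NormedAddCommGroup F] {Ω : Set (E n)} {q : ℝ≥0∞} {u : E n → F}
    {Du : Fin n → E n → F} {D2u : Fin n → Fin n → E n → F} {e : ℝ≥0∞}
    (h : W2norm Ω q u Du D2u ≤ e) : eLpNorm u q (volume.restrict Ω) ≤ e ∧
      (∀ i, eLpNorm (Du i) q (volume.restrict Ω) ≤ e) ∧
      ∀ i j, eLpNorm (D2u i j) q (volume.restrict Ω) ≤ e := by
  rw [show W2norm Ω q u Du D2u = eLpNorm u q (volume.restrict Ω) +
    ∑ i, eLpNorm (Du i) q (volume.restrict Ω)
    + ∑ i, ∑ j, eLpNorm (D2u i j) q (volume.restrict Ω) from rfl] at h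
  refine ⟨(le_self_add.trans le_self_add).trans h, fun i => ?_, fun i j => ?_⟩
  · refine le_trans ?_ h
    refine le_trans ?_ le_self_add
    refine le_trans ?_ le_add_self
    exact Finset.single_le_sum (f := fun i => eLpNorm (Du i) q (volume.restrict Ω))
      (fun _ _ => zero_le) (Finset.mem_univ i)
  · refine le_trans ?_ h
    refine le_trans ?_ le_add_self
    refine le_trans ?_ (Finset.single_le_sum (f := fun i => ∑ j, eLpNorm (D2u i j) q
      (volume.restrict Ω)) (fun _ _ => zero_le) (Finset.mem_univ i))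
    exact Finset.single_le_sum (f := fun j => eLpNorm (D2u i j) q (volume.restrict Ω))
      (fun _ _ => zero_le) (Finset.mem_univ j)

lemma Pert.comp {q : ℝ≥0∞} {κ : ℝ} {ε : ℝ≥0∞} {C : Set (E n)} {h : E n → E n}
    {H : Fin n → Fin n → E n → E n} (p : Pert q κ ε C h H) : eLpNorm h q volume ≤ ε ∧
      (∀ i, eLpNorm (pd h i) q volume ≤ ε) ∧ ∀ i j, eLpNorm (H i j) q volume ≤ ε := by
  have := W2norm_comp p.norm
  simpa only [Measure.restrict_univ] using this

/-- Convergence of partial sums, with norm bounds. -/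
lemma fatou_sum {F : Type*} [NormedAddCommGroup F] {q : ℝ≥0∞} (hq : 1 ≤ q)
    {a : ℕ → E n → F} {b : E n → F} {e : ℕ → ℝ≥0∞} {S : ℝ≥0∞} (he : ∑' m, e m ≤ S)
    (ha : ∀ m, AEStronglyMeasurable (a m) volume) (hae : ∀ m, eLpNorm (a m) q volume ≤ e m)
    (hlim : ∀ x, Tendsto (fun M => ∑ m ∈ Finset.range M, a m x) atTop (𝓝 (b x))) :
    AEStronglyMeasurable b volume ∧ eLpNorm b q volume ≤ S := by
  have hm : ∀ M, AEStronglyMeasurable (fun x => ∑ m ∈ Finset.range M, a m x) volume := fun M =>
    Finset.aestronglyMeasurable_fun_sum _ fun m _ => ha m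
  refine ⟨aestronglyMeasurable_of_tendsto_ae atTop hm (Eventually.of_forall hlim), ?_⟩
  refine (Lp.eLpNorm_lim_le_liminf_eLpNorm hm b (Eventually.of_forall hlim)).trans ?_
  have hbd : ∀ M, eLpNorm (fun x => ∑ m ∈ Finset.range M, a m x) q volume ≤ S := by
    intro M
    have h1 : (fun x => ∑ m ∈ Finset.range M, a m x) = ∑ m ∈ Finset.range M, a m := by
      ext1 x; simp
    rw [h1]
    calc _ ≤ ∑ m ∈ Finset.range M, eLpNorm (a m) q volume := eLpNorm_sum_le (fun m _ => ha m) hq
      _ ≤ ∑ m ∈ Finset.range M, e m := Finset.sum_le_sum fun m _ => hae m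
      _ ≤ S := (ENNReal.sum_le_tsum _).trans he
  exact (liminf_le_liminf (Eventually.of_forall hbd)).trans (by simp)

/-- finite sums stabilise -/
lemma tendsto_of_fin {F : Type*} [NormedAddCommGroup F] {a : ℕ → F} {M : ℕ}
    (h : ∀ m ≥ M, a m = 0) :
    Tendsto (fun N => ∑ m ∈ Finset.range N, a m) atTop (𝓝 (∑' m, a m)) := by
  have hs : Summable a := summable_of_ne_finset_zero (s := Finset.range M) fun m hm =>
    h m (by simpa using hm)
  exact hs.hasSum.tendsto_sum_nat

/-- **Infinite sums of perturbations.** -/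
theorem Pert.tsum {q : ℝ≥0∞} (hq : 1 ≤ q) {κ : ℕ → ℝ} {e : ℕ → ℝ≥0∞} {K : ℝ} {S : ℝ≥0∞}
    (hκ : Summable κ) (hK : ∑' m, κ m ≤ K) (he : ∑' m, e m ≤ S) (hS : S ≠ ⊤) {C : Set (E n)}
    {h : ℕ → E n → E n} {H : ℕ → Fin n → Fin n → E n → E n}
    (hp : ∀ m, Pert q (κ m) (e m) C (h m) (H m))
    (hfin : ∀ x, ∃ M, ∀ m ≥ M, ∀ i j, H m i j x = 0) :
    Pert q K ((1 + n + n * n) * S) C (fun x => ∑' m, h m x) (fun i j x => ∑' m, H m i j x) ∧
      ∀ x, HasFDerivAt (fun x => ∑' m, h m x) (∑' m, fderiv ℝ (h m) x) x := by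
  have hdiff : ∀ m x, HasFDerivAt (h m) (fderiv ℝ (h m) x) x := fun m x =>
    ((hp m).c1.differentiable (by simp) x).hasFDerivAt
  have hsum0 : ∀ x, Summable fun m => h m x := fun x =>
    Summable.of_norm_bounded hκ fun m => (hp m).b0 x
  have hsum1 : ∀ x, Summable fun m => fderiv ℝ (h m) x := fun x =>
    Summable.of_norm_bounded hκ fun m => (hp m).b1 x
  have hder : ∀ x, HasFDerivAt (fun x => ∑' m, h m x) (∑' m, fderiv ℝ (h m) x) x := fun x =>
    hasFDerivAt_tsum hκ hdiff (fun m x => (hp m).b1 x) (hsum0 0) x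
  have hfd : ∀ x, fderiv ℝ (fun x => ∑' m, h m x) x = ∑' m, fderiv ℝ (h m) x := fun x =>
    (hder x).fderiv
  have hC1 : ContDiff ℝ 1 (fun x => ∑' m, h m x) := by
    rw [contDiff_one_iff_fderiv]
    refine ⟨fun x => (hder x).differentiableAt, ?_⟩
    have : fderiv ℝ (fun x => ∑' m, h m x) = fun x => ∑' m, fderiv ℝ (h m) x := by
      ext1 x; exact hfd x
    rw [this]
    exact continuous_tsum (fun m => (hp m).c1.continuous_fderiv (by simp)) hκ
      fun m x => (hp m).b1 x
  have hpd : ∀ i x, pd (fun x => ∑' m, h m x) i x = ∑' m, pd (h m) i x := by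
    intro i x
    unfold pd
    rw [hfd]
    exact ((ContinuousLinearMap.apply ℝ (E n) (bv i)).map_tsum (hsum1 x))
  have hlimpd : ∀ i x, Tendsto (fun M => ∑ m ∈ Finset.range M, pd (h m) i x) atTop
      (𝓝 (pd (fun x => ∑' m, h m x) i x)) := by
    intro i x
    rw [hpd]
    have : Summable fun m => pd (h m) i x := by
      have := (hsum1 x).mapL (ContinuousLinearMap.apply ℝ (E n) (bv i))
      exact this
    exact this.hasSum.tendsto_sum_nat
  have hlimH : ∀ i j x, Tendsto (fun M => ∑ m ∈ Finset.range M, H m i j x) atTop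
      (𝓝 (∑' m, H m i j x)) := by
    intro i j x
    obtain ⟨M, hM⟩ := hfin x
    exact tendsto_of_fin fun m hm => hM m hm i j
  have hHm : ∀ i j, AEStronglyMeasurable (fun x => ∑' m, H m i j x) volume ∧
      eLpNorm (fun x => ∑' m, H m i j x) q volume ≤ S := fun i j =>
    fatou_sum hq he (fun m => ((hp m).mem i j).1) (fun m => (hp m).comp.2.2 i j) (hlimH i j)
  refine ⟨⟨hC1, fun x => ?_, fun x => ?_, fun x hx => ?_, fun i j => ?_, fun i j => ?_, ?_⟩, hder⟩
  · exact (tsum_of_norm_bounded hκ.hasSum fun m => (hp m).b0 x).trans hK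
  · rw [hfd]
    exact (tsum_of_norm_bounded hκ.hasSum fun m => (hp m).b1 x).trans hK
  · refine ⟨?_, fun i j => ?_⟩
    · have : ∀ m, h m x = 0 := fun m => ((hp m).off x hx).1
      simp [this]
    · have : ∀ m, H m i j x = 0 := fun m => ((hp m).off x hx).2 i j
      simp [this]
  · -- the weak derivative
    rintro φ ⟨h1, h2, h3⟩
    -- the dominating function
    set G : E n → ℝ := fun x => ∑' m, ‖H m i j x‖ with hG
    have hlimG : ∀ x, Tendsto (fun M => ∑ m ∈ Finset.range M, ‖H m i j x‖) atTop (𝓝 (G x)) := by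
      intro x
      obtain ⟨M, hM⟩ := hfin x
      exact tendsto_of_fin fun m hm => by rw [hM m hm i j, norm_zero]
    have hGm := fatou_sum (a := fun m x => ‖H m i j x‖) hq he
      (fun m => ((hp m).mem i j).1.norm) (fun m => by
        rw [eLpNorm_norm]; exact (hp m).comp.2.2 i j) hlimG
    have hGL : MemLp G q volume := ⟨hGm.1, lt_of_le_of_lt hGm.2 (lt_top_iff_ne_top.2 hS)⟩
    have hGloc : LocallyIntegrable G := hGL.locallyIntegrable hq
    have hGle : ∀ M x, ‖∑ m ∈ Finset.range M, H m i j x‖ ≤ G x := by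
      intro M x
      obtain ⟨M', hM'⟩ := hfin x
      have hs : Summable fun m => ‖H m i j x‖ :=
        summable_of_ne_finset_zero (s := Finset.range M') fun m hm => by
          rw [hM' m (by simpa using hm) i j, norm_zero]
      exact (norm_sum_le _ _).trans (hs.sum_le_tsum _ fun _ _ => norm_nonneg _)
    have hdφc : Continuous (fun x => fderiv ℝ φ x (bv j)) :=
      (h1.continuous_fderiv (by simp)).clm_apply continuous_const
    have hpw : ∀ M, IsWeakPartial univ j (fun x => ∑ m ∈ Finset.range M, pd (h m) i x)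
        (fun x => ∑ m ∈ Finset.range M, H m i j x) := fun M =>
      IsWeakPartial.sum _ (fun m _ => (hp m).weak i j)
        (fun m _ => ((hp m).pd_cont i).locallyIntegrable.locallyIntegrableOn _)
        (fun m _ => (((hp m).mem i j).locallyIntegrable hq).locallyIntegrableOn _)
    have t1 : Tendsto (fun M => ∫ x, fderiv ℝ φ x (bv j) • ∑ m ∈ Finset.range M, pd (h m) i x)
        atTop (𝓝 (∫ x, fderiv ℝ φ x (bv j) • pd (fun x => ∑' m, h m x) i x)) := by
      have hb : ∀ M x, ‖∑ m ∈ Finset.range M, pd (h m) i x‖ ≤ K * ‖(bv i : E n)‖ := by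
        intro M x
        calc ‖∑ m ∈ Finset.range M, pd (h m) i x‖
            ≤ ∑ m ∈ Finset.range M, ‖pd (h m) i x‖ := norm_sum_le _ _
          _ ≤ ∑ m ∈ Finset.range M, κ m * ‖(bv i : E n)‖ := by
              refine Finset.sum_le_sum fun m _ => ?_
              refine (ContinuousLinearMap.le_opNorm _ _).trans ?_
              gcongr
              exact (hp m).b1 x
          _ = (∑ m ∈ Finset.range M, κ m) * ‖(bv i : E n)‖ := by rw [Finset.sum_mul]
          _ ≤ K * ‖(bv i : E n)‖ := by
              gcongr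
              refine le_trans ?_ hK
              exact hκ.sum_le_tsum _ fun m _ => (norm_nonneg _).trans ((hp m).b0 0)
      refine tendsto_integral_of_dominated_convergence
        (fun x => ‖fderiv ℝ φ x (bv j)‖ * (K * ‖(bv i : E n)‖)) (fun M => ?_) ?_ (fun M => ?_) ?_
      · exact (hdφc.smul (continuous_finsetSum _ fun m _ =>
          (hp m).pd_cont i)).aestronglyMeasurable
      · refine Integrable.mul_const ?_ _
        refine Continuous.integrable_of_hasCompactSupport hdφc.norm ?_
        have : HasCompactSupport (fun x => fderiv ℝ φ x (bv j)) :=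
          (h2.fderiv ℝ).comp_left (g := fun L : E n →L[ℝ] ℝ => L (bv j)) (by simp)
        exact this.norm
      · refine Eventually.of_forall fun x => ?_
        rw [norm_smul]
        gcongr
        exact hb M x
      · exact Eventually.of_forall fun x => (hlimpd i x).const_smul _
    have t2 : Tendsto (fun M => ∫ x, φ x • ∑ m ∈ Finset.range M, H m i j x)
        atTop (𝓝 (∫ x, φ x • ∑' m, H m i j x)) := by
      refine tendsto_integral_of_dominated_convergence (fun x => ‖φ x • G x‖)
        (fun M => ?_) ?_ (fun M => ?_) ?_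
      · exact h1.continuous.aestronglyMeasurable.smul
          (Finset.aestronglyMeasurable_fun_sum _ fun m _ => ((hp m).mem i j).1)
      · exact (integrable_smul_of_locallyIntegrableOn h2 (subset_univ _) h1.continuous
          (subset_tsupport _) (hGloc.locallyIntegrableOn univ)).norm
      · refine Eventually.of_forall fun x => ?_
        rw [norm_smul, norm_smul]
        gcongr
        exact (hGle M x).trans (Real.le_norm_self _)
      · exact Eventually.of_forall fun x => (hlimH i j x).const_smul _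
    refine tendsto_nhds_unique t1 ?_
    refine t2.neg.congr fun M => ?_
    exact (hpw M φ ⟨h1, h2, h3⟩).symm
  · exact ⟨(hHm i j).1, lt_of_le_of_lt (hHm i j).2 (lt_top_iff_ne_top.2 hS)⟩
  · have e0 : eLpNorm (fun x => ∑' m, h m x) q volume ≤ S :=
      (fatou_sum hq he (fun m => (hp m).c1.continuous.aestronglyMeasurable)
        (fun m => (hp m).comp.1) (fun x => (hsum0 x).hasSum.tendsto_sum_nat)).2
    have e1 : ∀ i, eLpNorm (pd (fun x => ∑' m, h m x) i) q volume ≤ S := fun i =>
      (fatou_sum hq he (fun m => ((hp m).pd_cont i).aestronglyMeasurable)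
        (fun m => (hp m).comp.2.1 i) (hlimpd i)).2
    have e2 := fun i j => (hHm i j).2
    rw [W2norm_def]
    simp only [Measure.restrict_univ]
    have := sum_bound (t := fun _ _ => (0 : ℝ≥0∞)) (e := 0) e0 e1
      (fun i j => (e2 i j).trans le_self_add) (by simp)
    simpa using this

end Run7.h7
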