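import Mathlib
import Pool.Agent.Run7.h7.Defs
import Pool.Agent.Run7.h7.Basic
import Pool.Agent.Run7.h7.Weak
import Pool.Agent.Run7.h7.WeakC1
import Pool.Agent.Run7.h7.Smooth2
import Pool.Agent.Run7.h7.Limit
import Pool.Agent.Run7.h7.Smoothing
import Pool.Agent.Run7.h7.SmoothStage
import Pool.Agent.Run7.h7.StageOne
import Pool.Agent.Run7.h7.Rel
import Pool.Agent.Run7.h7.RelSum

/-!
Local improvements on an open subset, repeated along an exhaustion, with control in the fine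
topology of class `C^1`.
-/

open MeasureTheory Filter Set Metric
open scoped ENNReal Topology ContDiff

namespace Run7.h7

variable {n : ℕ}

/-- positive lower bounds on compact sets -/
lemma exists_pos_lower {S : Set (E n)} (hS : IsCompact S) {τ : E n → ℝ} (hτ : ContinuousOn τ S)
    (hpos : ∀ x ∈ S, 0 < τ x) : ∃ c : ℝ, 0 < c ∧ ∀ x ∈ S, c ≤ τ x := by
  rcases S.eq_empty_or_nonempty with rfl | hne
  · exact ⟨1, one_pos, fun x hx => absurd hx (notMem_empty x)⟩
  · obtain ⟨x, hx, hmin⟩ := hS.exists_isMinOn hne hτ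
    exact ⟨τ x, hpos x hx, fun y hy => hmin hy⟩

theorem limit_of_stageR {Ω Ω' : Set (E n)} (hΩ : IsOpen Ω) (hΩ' : IsOpen Ω') (hsub : Ω' ⊆ Ω)
    {q : ℝ≥0∞} (hq : 1 ≤ q) {Loc Good : (E n → E n) → E n → Prop}
    (hLoc : ∀ u v x, u =ᶠ[𝓝 x] v → Loc u x → Loc v x)
    (hGood : ∀ u v x, u =ᶠ[𝓝 x] v → Good u x → Good v x) (hst : StageR Ω Ω' q Loc Good)
    {f : E n → E n} {Df : Fin n → Fin n → E n → E n}
    (hf : Valid Ω q (fun u x => x ∈ Ω' → Loc u x) f Df) {ε : ℝ≥0∞}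
    (hε : ε ≠ 0) (hε' : ε ≠ ⊤) {κ : ℝ} (hκ : 0 < κ) {τ : E n → ℝ} (hτ : ContinuousOn τ Ω')
    (hpos : ∀ x ∈ Ω', 0 < τ x) :
    ∃ h H, Pert q κ ((1 + n + n * n) * ε) Ω'ᶜ h H ∧
      Valid Ω q (fun u x => x ∈ Ω' → Loc u x) (fun x => f x + h x)
        (fun i j x => Df i j x + H i j x) ∧
      (∀ x ∈ Ω', Good (fun x => f x + h x) x) ∧
      (∀ x ∈ Ω', ‖h x‖ ≤ τ x ∧ ‖fderiv ℝ h x‖ ≤ τ x) ∧ ∀ x, x ∉ Ω' → fderiv ℝ h x = 0 := by
  obtain ⟨e, he, hesum⟩ := ENNReal.exists_pos_sum_of_countable' hε ℕ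
  -- the sizes
  have hc : ∀ m : ℕ, ∃ c : ℝ, 0 < c ∧ ∀ x ∈ exh Ω' (m + 2), c ≤ τ x := fun m =>
    exists_pos_lower (exh_isCompact Ω' (m + 2)) (hτ.mono (exh_subset Ω' _))
      fun x hx => hpos x (exh_subset Ω' _ hx)
  choose c hcpos hcτ using hc
  set k : ℕ → ℝ := fun m => min κ (c m) * (1 / 2) ^ (m + 1) with hk
  have hkpos : ∀ m, 0 < k m := fun m => mul_pos (lt_min hκ (hcpos m)) (by positivity)
  have hgeo : HasSum (fun m : ℕ => ((1 : ℝ) / 2) ^ (m + 1)) 1 := by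
    have h1 := (hasSum_geometric_of_lt_one (r := (1 : ℝ) / 2) (by norm_num) (by norm_num)).mul_left
      ((1 : ℝ) / 2)
    have h2 : (fun m : ℕ => ((1 : ℝ) / 2) ^ (m + 1)) = fun m : ℕ => (1 / 2) * ((1 : ℝ) / 2) ^ m := by
      ext1 m; rw [pow_succ]; ring
    rw [h2]
    have h3 : (1 : ℝ) / 2 * (1 - 1 / 2)⁻¹ = 1 := by norm_num
    rw [h3] at h1
    exact h1
  have hkκ : ∀ m, k m ≤ κ * (1 / 2) ^ (m + 1) := fun m => by
    simp only [hk]; gcongr; exact min_le_left _ _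
  have hksum : Summable k := Summable.of_nonneg_of_le (fun m => (hkpos m).le) hkκ
    (hgeo.summable.mul_left κ)
  have hktot : ∑' m, k m ≤ κ := by
    calc ∑' m, k m ≤ ∑' m : ℕ, κ * (1 / 2) ^ (m + 1) := hksum.tsum_le_tsum hkκ
          (hgeo.summable.mul_left κ)
      _ = κ := by rw [tsum_mul_left, hgeo.tsum_eq, mul_one]
  have hkτ : ∀ m, ∀ x ∈ exh Ω' (m + 2), k m ≤ τ x * (1 / 2) ^ (m + 1) := fun m x hx => by
    simp only [hk]; gcongr; exact (min_le_right _ _).trans (hcτ m x hx)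
  -- the closed sets
  set C : ℕ → Set (E n) := fun m => exh Ω' (m - 1) ∪ (interior (exh Ω' (m + 2)))ᶜ with hC
  have hCcl : ∀ m, IsClosed (C m) := fun m =>
    (exh_isCompact Ω' _).isClosed.union isOpen_interior.isClosed_compl
  -- the recursion
  let State := {p : (E n → E n) × (Fin n → Fin n → E n → E n) //
    Valid Ω q (fun u x => x ∈ Ω' → Loc u x) p.1 p.2}
  have step : ∀ (m : ℕ) (s : State), ∃ (p : (E n → E n) × (Fin n → Fin n → E n → E n)),
      Pert q (k m) (e m) (C m) p.1 p.2 ∧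
      Valid Ω q (fun u x => x ∈ Ω' → Loc u x) (fun x => s.1.1 x + p.1 x)
        (fun i j x => s.1.2 i j x + p.2 i j x) ∧
      (∀ x ∈ Ω', Good s.1.1 x → Good (fun x => s.1.1 x + p.1 x) x) ∧
      ∀ x ∈ exh Ω' (m + 1) \ interior (exh Ω' m), Good (fun x => s.1.1 x + p.1 x) x := by
    rintro m ⟨⟨u, D⟩, hs⟩
    have hdis : Disjoint (exh Ω' (m + 1) \ interior (exh Ω' m)) (C m) := by
      rw [disjoint_left]
      rintro x ⟨hx0, hx1⟩ hx2
      rcases hx2 with hx2 | hx2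
      · apply hx1
        cases m with
        | zero => exact absurd hx2 (notMem_empty x)
        | succ m => exact exh_interior Ω' m hx2
      · exact hx2 (exh_interior Ω' (m + 1) hx0)
    obtain ⟨h, H, h1, h2, h3, h4⟩ := hst u D hs (exh Ω' (m + 1) \ interior (exh Ω' m))
      (C m) ((exh_isCompact Ω' (m + 1)).diff isOpen_interior)
      (sdiff_subset.trans (exh_subset Ω' _)) (hCcl m) hdis (k m) (hkpos m) (e m) (he m).ne'
    exact ⟨⟨h, H⟩, h1, h2, h3, h4⟩
  choose F hF1 hF2 hF3 hF4 using step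
  let s : ℕ → State := fun m => Nat.rec ⟨⟨f, Df⟩, hf⟩
    (fun m t => ⟨⟨fun x => t.1.1 x + (F m t).1 x, fun i j x => t.1.2 i j x + (F m t).2 i j x⟩,
      hF2 m t⟩) m
  have hs0 : s 0 = ⟨⟨f, Df⟩, hf⟩ := rfl
  have hsS : ∀ m, s (m + 1) = ⟨⟨fun x => (s m).1.1 x + (F m (s m)).1 x,
      fun i j x => (s m).1.2 i j x + (F m (s m)).2 i j x⟩, hF2 m (s m)⟩ := fun m => rfl
  set u : ℕ → E n → E n := fun m => (s m).1.1 with hu
  set h : ℕ → E n → E n := fun m => (F m (s m)).1 with hh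
  set H : ℕ → Fin n → Fin n → E n → E n := fun m => (F m (s m)).2 with hH
  have hval : ∀ m, Valid Ω q (fun u x => x ∈ Ω' → Loc u x) (u m) (s m).1.2 := fun m => (s m).2
  have hpert : ∀ m, Pert q (k m) (e m) (C m) (h m) (H m) := fun m => hF1 m (s m)
  have huS : ∀ m x, u (m + 1) x = u m x + h m x := fun m x => by
    simp only [hu, hh, hsS]
  have husum : ∀ m x, u m x = f x + ∑ l ∈ Finset.range m, h l x := by
    intro m x
    induction m with
    | zero => simp [hu, hs0]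
    | succ m ih => rw [huS, ih, Finset.sum_range_succ, add_assoc]
  -- goodness
  have hgood : ∀ m, ∀ x ∈ exh Ω' m, Good (u m) x := by
    intro m
    induction m with
    | zero => intro x hx; exact absurd hx (notMem_empty x)
    | succ m ih =>
      intro x hx
      have e1 : u (m + 1) = fun x => (s m).1.1 x + (F m (s m)).1 x := by simp only [hu, hsS]
      rw [e1]
      by_cases hx' : x ∈ interior (exh Ω' m)
      · exact hF3 m (s m) x (exh_subset Ω' _ hx) (ih x (interior_subset hx'))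
      · exact hF4 m (s m) x ⟨hx, hx'⟩
  -- vanishing
  have hcompl : ∀ m, Ω'ᶜ ⊆ C m := fun m x hx => Or.inr fun h' =>
    hx (exh_subset Ω' _ (interior_subset h'))
  have hzero1 : ∀ m, ∀ x ∈ exh Ω' m, ∀ l ≥ m + 1, h l x = 0 ∧ ∀ i j, H l i j x = 0 := by
    intro m x hx l hl
    exact (hpert l).off x (Or.inl (exh_mono Ω' (by omega) hx))
  have hfin : ∀ x, ∃ M, ∀ m ≥ M, h m x = 0 ∧ ∀ i j, H m i j x = 0 := by
    intro x
    by_cases hx : x ∈ Ω'
    · obtain ⟨m, hm⟩ := exh_cover hΩ' hx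
      exact ⟨m + 1, fun l hl => hzero1 m x hm l hl⟩
    · exact ⟨0, fun l _ => (hpert l).off x (hcompl l hx)⟩
  obtain ⟨hP, hder⟩ := Pert.tsum (C := Ω'ᶜ) hq hksum hktot hesum.le hε'
    (fun m => (hpert m).mono le_rfl le_rfl (hcompl m))
    (fun x => by
      obtain ⟨M, hM⟩ := hfin x
      exact ⟨M, fun m hm => (hM m hm).2⟩)
  set g : E n → E n := fun x => ∑' m, h m x with hg
  set G : Fin n → Fin n → E n → E n := fun i j x => ∑' m, H m i j x with hG
  have hsumfin : ∀ m, ∀ x ∈ exh Ω' m, ∀ k, m + 1 ≤ k → f x + g x = u k x := by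
    intro m x hx k hk
    rw [husum]
    congr 1
    refine tsum_eq_sum fun l hl => (hzero1 m x hx l ?_).1
    rw [Finset.mem_range, not_lt] at hl
    omega
  have hgerm : ∀ m, ∀ x ∈ interior (exh Ω' m), ∀ k, m + 1 ≤ k →
      (fun x => f x + g x) =ᶠ[𝓝 x] u k := by
    intro m x hx k hk
    filter_upwards [isOpen_interior.mem_nhds hx] with y hy
    exact hsumfin m y (interior_subset hy) k hk
  have hnear : ∀ x ∈ Ω', ∃ m, x ∈ interior (exh Ω' (m + 1)) := fun x hx => by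
    obtain ⟨m, hm⟩ := exh_cover hΩ' hx
    exact ⟨m, exh_interior Ω' m hm⟩
  have hstab : ∀ x, ∃ M, ∀ k ≥ M, f x + g x = u k x := by
    intro x
    obtain ⟨M, hM⟩ := hfin x
    refine ⟨M, fun k hk => ?_⟩
    rw [husum]
    congr 1
    refine tsum_eq_sum fun l hl => (hM l ?_).1
    rw [Finset.mem_range, not_lt] at hl
    omega
  -- derivatives
  have hfar : ∀ m x, x ∉ exh Ω' (m + 2) → h m x = 0 ∧ fderiv ℝ (h m) x = 0 := by
    intro m x hx
    have h0 : h m =ᶠ[𝓝 x] fun _ => 0 := by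
      filter_upwards [(exh_isCompact Ω' (m + 2)).isClosed.isOpen_compl.mem_nhds hx] with y hy
      exact ((hpert m).off y (Or.inr fun h' => hy (interior_subset h'))).1
    refine ⟨h0.self_of_nhds, ?_⟩
    rw [h0.fderiv_eq]
    simp
  refine ⟨g, G, hP, ?_, ?_, ?_, ?_⟩
  · refine hf.pert hΩ hq hP ?_ ?_
    · intro x hx y hy hxy
      simp only at hxy
      obtain ⟨m1, hm1⟩ := hstab x
      obtain ⟨m2, hm2⟩ := hstab y
      rw [hm1 (max m1 m2) (le_max_left _ _), hm2 (max m1 m2) (le_max_right _ _)] at hxy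
      exact (hval _).inj hx hy hxy
    · intro x _ hx
      obtain ⟨m, hm⟩ := hnear x hx
      exact hLoc _ _ x (hgerm (m + 1) x hm (m + 1 + 1) le_rfl).symm
        ((hval (m + 1 + 1)).loc x (hsub hx) hx)
  · intro x hx
    obtain ⟨m, hm⟩ := exh_cover hΩ' hx
    have h1 : x ∈ exh Ω' (m + 1 + 1) := exh_mono Ω' (by omega) hm
    exact hGood _ _ x (hgerm (m + 1) x (exh_interior Ω' m hm) (m + 1 + 1) le_rfl).symm
      (hgood (m + 1 + 1) x h1)
  · intro x hx
    have hτ0 := (hpos x hx).le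
    have hsumτ : HasSum (fun m : ℕ => τ x * ((1 : ℝ) / 2) ^ (m + 1)) (τ x) := by
      have := hgeo.mul_left (τ x)
      rwa [mul_one] at this
    constructor
    · refine tsum_of_norm_bounded hsumτ fun m => ?_
      by_cases hxm : x ∈ exh Ω' (m + 2)
      · exact ((hpert m).b0 x).trans (hkτ m x hxm)
      · rw [(hfar m x hxm).1, norm_zero]; positivity
    · rw [(hder x).fderiv]
      refine tsum_of_norm_bounded hsumτ fun m => ?_
      by_cases hxm : x ∈ exh Ω' (m + 2)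
      · exact ((hpert m).b1 x).trans (hkτ m x hxm)
      · rw [(hfar m x hxm).2, norm_zero]; positivity
  · intro x hx
    rw [(hder x).fderiv]
    have : ∀ m, fderiv ℝ (h m) x = 0 := fun m => (hfar m x fun h' => hx (exh_subset Ω' _ h')).2
    simp [this]

end Run7.h7
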