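import Mathlib
import Pool.Agent.Run7.h7.Defs
import Pool.Agent.Run7.h7.Basic
import Pool.Agent.Run7.h7.Weak
import Pool.Agent.Run7.h7.WeakC1
import Pool.Agent.Run7.h7.Smooth2
import Pool.Agent.Run7.h7.Perturb
import Pool.Agent.Run7.h7.Limit
import Pool.Agent.Run7.h7.Smoothing
import Pool.Agent.Run7.h7.SmoothStage
import Pool.Agent.Run7.h7.StageOne
import Pool.Agent.Run7.h7.Rel

/-!
Smoothing on an open subset, with control in `C^1`.
-/

open MeasureTheory Filter Set Metric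
open scoped ENNReal Topology ContDiff

namespace Run7.h7

variable {n : ℕ}

/-- Perturbation lemma, relative version. -/
theorem injOn_perturb_rel {Ω Ω' S : Set (E n)} (hΩ : IsOpen Ω) (hsub : Ω' ⊆ Ω)
    (hS : IsCompact S) (hSΩ' : S ⊆ Ω')
    {u : E n → E n} (hu : ContDiffOn ℝ 1 u Ω) (hinj : InjOn u Ω)
    (hd : ∀ x ∈ Ω', Function.Injective (fderiv ℝ u x)) :
    ∃ δ : ℝ, 0 < δ ∧ ∀ h : E n → E n, ContDiff ℝ 1 h → (∀ x, x ∉ S → h x = 0) →
      (∀ x, ‖fderiv ℝ h x‖ ≤ δ) → InjOn (fun x => u x + h x) Ω ∧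
        ∀ x ∈ Ω', Function.Injective (fderiv ℝ (fun x => u x + h x) x) := by
  have hSΩ : S ⊆ Ω := hSΩ'.trans hsub
  have hdc : ContinuousOn (fderiv ℝ u) Ω := hu.continuousOn_fderiv_of_isOpen hΩ le_rfl
  obtain ⟨c, hc, hlow⟩ := exists_lower_bound_compact hS (hdc.mono hSΩ)
    (fun x hx => hd x (hSΩ' hx))
  have hudiff : ∀ x ∈ Ω, DifferentiableAt ℝ u x := fun x hx =>
    (hu.contDiffAt (hΩ.mem_nhds hx)).differentiableAt (by simp)
  refine ⟨c / 2, by positivity, fun h hh h0 hδ => ?_⟩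
  have hhdiff : Differentiable ℝ h := hh.differentiable (by simp)
  have hh0 : ∀ x, x ∉ S → fderiv ℝ h x = 0 := by
    intro x hx
    have : h =ᶠ[𝓝 x] fun _ => 0 := by
      filter_upwards [hS.isClosed.isOpen_compl.mem_nhds hx] with y hy
      exact h0 y hy
    rw [this.fderiv_eq]
    simp
  classical
  set inv := Function.invFunOn u Ω with hinv
  have hleft : ∀ x ∈ Ω, inv (u x) = x := fun x hx => hinj.leftInvOn_invFunOn hx
  set e : E n → E n := fun y => if y ∈ u '' S then h (inv y) else 0 with he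
  have heu : ∀ x ∈ Ω, e (u x) = h x := by
    intro x hx
    simp only [he]
    split_ifs with hy
    · rw [hleft x hx]
    · have : x ∉ S := fun hxS => hy ⟨x, hxS, rfl⟩
      rw [h0 x this]
  have hclosed : IsClosed (u '' S) := (hS.image_of_continuousOn
    ((hu.continuousOn).mono hSΩ)).isClosed
  have hopen : ∀ x ∈ Ω', ∀ᶠ y in 𝓝 (u x), ∃ z ∈ Ω, u z = y := by
    intro x hx'
    have hx : x ∈ Ω := hsub hx'
    obtain ⟨B, hB⟩ := exists_equiv_of_injective (hd x hx')
    have hst : HasStrictFDerivAt u (B : E n →L[ℝ] E n) x := by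
      rw [hB]
      exact (hu.contDiffAt (hΩ.mem_nhds hx)).hasStrictFDerivAt (by simp)
    have := hst.map_nhds_eq_of_equiv
    rw [← this]
    exact image_mem_map (hΩ.mem_nhds hx)
  have hder : ∀ y, DifferentiableAt ℝ e y ∧ ‖fderiv ℝ e y‖ ≤ 1 / 2 := by
    intro y
    by_cases hy : y ∈ u '' Ω'
    · obtain ⟨x, hx', rfl⟩ := hy
      have hx : x ∈ Ω := hsub hx'
      obtain ⟨B, hB⟩ := exists_equiv_of_injective (hd x hx')
      have hst : HasStrictFDerivAt u (B : E n →L[ℝ] E n) x := by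
        rw [hB]
        exact (hu.contDiffAt (hΩ.mem_nhds hx)).hasStrictFDerivAt (by simp)
      have h1 := hasFDerivAt_invFunOn hΩ hinj hx hst
      have h2 : HasFDerivAt h (fderiv ℝ h x) (inv (u x)) := by
        rw [hleft x hx]; exact (hhdiff x).hasFDerivAt
      have h3 := h2.comp (u x) h1
      have h4 : e =ᶠ[𝓝 (u x)] h ∘ inv := by
        filter_upwards [hopen x hx'] with z hz
        obtain ⟨w, hw, rfl⟩ := hz
        rw [heu w hw, Function.comp, hleft w hw]
      have h5 := h3.congr_of_eventuallyEq h4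
      refine ⟨h5.differentiableAt, ?_⟩
      rw [h5.fderiv]
      by_cases hxS : x ∈ S
      · refine ContinuousLinearMap.opNorm_le_bound _ (by norm_num) fun v => ?_
        have e1 : B (B.symm v) = v := B.apply_symm_apply v
        have e2 : c * ‖B.symm v‖ ≤ ‖v‖ := by
          have := hlow x hxS (B.symm v)
          rw [← hB] at this
          simpa using this
        calc ‖(fderiv ℝ h x) (B.symm v)‖ ≤ ‖fderiv ℝ h x‖ * ‖B.symm v‖ :=
              ContinuousLinearMap.le_opNorm _ _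
          _ ≤ (c / 2) * ‖B.symm v‖ := by gcongr; exact hδ x
          _ = 1 / 2 * (c * ‖B.symm v‖) := by ring
          _ ≤ 1 / 2 * ‖v‖ := by gcongr
      · rw [hh0 x hxS]
        simp
    · have h1 : e =ᶠ[𝓝 y] fun _ => 0 := by
        have hy' : y ∉ u '' S := fun h => hy (image_mono hSΩ' h)
        filter_upwards [hclosed.isOpen_compl.mem_nhds hy'] with z hz
        simp only [he]
        rw [if_neg hz]
      refine ⟨(differentiableAt_const _).congr_of_eventuallyEq h1, ?_⟩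
      rw [h1.fderiv_eq]
      simp
  constructor
  · intro x hx x' hx' hxx
    simp only at hxx
    have h1 := Convex.norm_image_sub_le_of_norm_fderiv_le (𝕜 := ℝ) (f := e) (C := 1 / 2)
      (s := univ) (x := u x') (y := u x) (fun y _ => (hder y).1) (fun y _ => (hder y).2)
      convex_univ (mem_univ _) (mem_univ _)
    rw [heu x hx, heu x' hx'] at h1
    have h2 : h x - h x' = -(u x - u x') := by
      have : u x + h x - (u x' + h x') = 0 := sub_eq_zero.2 hxx
      have h3 : h x - h x' = (u x + h x - (u x' + h x')) - (u x - u x') := by abel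
      rw [h3, this, zero_sub]
    rw [h2, norm_neg] at h1
    have h3 : ‖u x - u x'‖ = 0 := by
      have := norm_nonneg (u x - u x')
      linarith
    exact hinj hx hx' (sub_eq_zero.1 (norm_eq_zero.1 h3))
  · intro x hx'
    have hx : x ∈ Ω := hsub hx'
    have h1 : fderiv ℝ (fun x => u x + h x) x = fderiv ℝ u x + fderiv ℝ h x :=
      fderiv_fun_add (hudiff x hx) (hhdiff x)
    rw [h1]
    by_cases hxS : x ∈ S
    · rw [injective_iff_map_eq_zero]
      intro v hv
      by_contra hv0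
      have hvp : 0 < ‖v‖ := norm_pos_iff.2 hv0
      rw [add_apply] at hv
      have e1 : fderiv ℝ u x v = -fderiv ℝ h x v := eq_neg_of_add_eq_zero_left hv
      have e2 := hlow x hxS v
      rw [e1, norm_neg] at e2
      have e3 : ‖fderiv ℝ h x v‖ ≤ c / 2 * ‖v‖ :=
        (ContinuousLinearMap.le_opNorm _ _).trans (by gcongr; exact hδ x)
      have : c * ‖v‖ ≤ c / 2 * ‖v‖ := e2.trans e3
      nlinarith
    · rw [hh0 x hxS, add_zero]
      exact hd x hx'

/-- **Smoothing step.** -/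
theorem stage_smoothR {Ω Ω' : Set (E n)} (hΩ : IsOpen Ω) (hΩ' : IsOpen Ω') (hsub : Ω' ⊆ Ω)
    {q : ℝ≥0∞} (hq : 1 ≤ q) (hq' : q ≠ ⊤) :
    StageR Ω Ω' q Good1 (fun u x => ContDiffAt ℝ ∞ u x) := by
  intro u D hv K C hK hKΩ' hC hdis κ hκ ε hε
  have hKU : K ⊆ Ω' ∩ Cᶜ := fun x hx => ⟨hKΩ' hx, disjoint_left.1 hdis hx⟩
  obtain ⟨χ, hχ, hχc, hχU, hχ1, hχI⟩ := exists_cutoff hK (hΩ'.inter hC.isOpen_compl) hKU
  have hSc : IsCompact (tsupport χ) := hχc.isCompact
  have hSΩ' : tsupport χ ⊆ Ω' := fun x hx => (hχU hx).1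
  have hSΩ : tsupport χ ⊆ Ω := hSΩ'.trans hsub
  obtain ⟨w, W, hw1, hwc, hwu, hwW, hWL⟩ := localise hΩ hSc hSΩ hq hv.c1 hv.weak hv.mem
  obtain ⟨δ0, hδ0, hpert⟩ := injOn_perturb_rel hΩ hsub hSc hSΩ' hv.c1 hv.inj
    (fun x hx => hv.loc x (hsub hx) hx)
  set δ : ℝ := min δ0 κ with hδdef
  have hδ : 0 < δ := lt_min hδ0 hκ
  obtain ⟨M, hM, hcut⟩ := Small.cutoff hq hχ hχc hχI
  -- choice of the parameters
  have hctop : ((1 + n + n * n : ℝ≥0∞) * (volume (tsupport χ) ^ q.toReal⁻¹ *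
      ENNReal.ofReal (3 * M))) ≠ ⊤ := by
    refine ENNReal.mul_ne_top ?_ (ENNReal.mul_ne_top ?_ ENNReal.ofReal_ne_top)
    · norm_cast; exact ENNReal.natCast_ne_top _
    · exact ENNReal.rpow_ne_top_of_nonneg (by positivity) hSc.measure_lt_top.ne
  have hε2 : min (ε / 2) 1 ≠ 0 := (lt_min (ENNReal.div_pos hε (by simp)) one_pos).ne'
  have hε2' : min (ε / 2) 1 ≠ ⊤ := ne_top_of_le_ne_top ENNReal.one_ne_top (min_le_right _ _)
  obtain ⟨η1, hη1, hη1c⟩ := exists_small hctop hε2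
  have hden : 0 < (n : ℝ) * (2 * M) + 1 := by positivity
  obtain ⟨η, hη, hηη1', hηδ⟩ : ∃ η : ℝ, 0 < η ∧ η ≤ min η1 κ ∧ (n : ℝ) * (2 * M) * η ≤ δ := by
    refine ⟨min (min η1 κ) (δ / (n * (2 * M) + 1)), lt_min (lt_min hη1 hκ) (by positivity),
      min_le_left _ _, ?_⟩
    have h1 : min (min η1 κ) (δ / (n * (2 * M) + 1)) ≤ δ / (n * (2 * M) + 1) := min_le_right _ _
    rw [le_div_iff₀ hden] at h1
    have h2 : 0 < min (min η1 κ) (δ / (n * (2 * M) + 1)) :=
      lt_min (lt_min hη1 hκ) (by positivity)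
    nlinarith
  have hηη1 : η ≤ η1 := hηη1'.trans (min_le_left _ _)
  obtain ⟨d, T, hd, hds⟩ := exists_smooth_close hq hq' hw1 hwc hwW hWL hη hε2
  obtain ⟨hh1, bph, hprodw, hprodmem, hW2⟩ := hcut η (min (ε / 2) 1) d T hη.le hε2' hd
  have hh0 : ∀ x, x ∉ tsupport χ → (fun x => χ x • d x) x = 0 := fun x hx => by
    simp only; rw [image_eq_zero_of_notMem_tsupport hx, zero_smul]
  have hhδ : ∀ x, ‖fderiv ℝ (fun x => χ x • d x) x‖ ≤ δ := by
    intro x
    calc ‖fderiv ℝ (fun x => χ x • d x) x‖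
        ≤ ∑ i, ‖fderiv ℝ (fun x => χ x • d x) x (bv i)‖ := norm_clm_le_sum _
      _ ≤ ∑ _i : Fin n, 2 * M * η := Finset.sum_le_sum fun i _ => bph i x
      _ = n * (2 * M) * η := by simp; ring
      _ ≤ δ := hηδ
  obtain ⟨hinj', hloc'⟩ := hpert _ hh1 hh0 (fun x => (hhδ x).trans (min_le_left _ _))
  have hpertP : Pert q κ ε C (fun x => χ x • d x) (prod2 χ d T) := by
    refine ⟨hh1, fun x => ?_, fun x => (hhδ x).trans (min_le_right _ _), ?_, hprodw, hprodmem, ?_⟩
    · rw [norm_smul, Real.norm_of_nonneg (hχI x).1]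
      calc χ x * ‖d x‖ ≤ 1 * η := by
            gcongr
            · exact (hχI x).2
            · exact hd.b0 x
        _ ≤ κ := by rw [one_mul]; exact hηη1'.trans (min_le_right _ _)
    · intro x hx
      have hxS : x ∉ tsupport χ := fun h => (hχU h).2 hx
      exact ⟨hh0 x hxS, fun i j => prod2_eq_zero hxS i j⟩
    · refine (hW2 univ).trans ?_
      calc _ ≤ ((1 + n + n * n : ℝ≥0∞) * (volume (tsupport χ) ^ q.toReal⁻¹ *
            ENNReal.ofReal (3 * M))) * ENNReal.ofReal η1 + min (ε / 2) 1 := by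
            gcongr
        _ ≤ min (ε / 2) 1 + min (ε / 2) 1 := add_le_add hη1c le_rfl
        _ ≤ ε / 2 + ε / 2 := add_le_add (min_le_left _ _) (min_le_left _ _)
        _ = ε := ENNReal.add_halves ε
  refine ⟨_, _, hpertP, hv.pert hΩ hq hpertP hinj' (fun x _ hx => hloc' x hx), ?_, ?_⟩
  · intro x hx hux
    by_cases hxS : x ∈ tsupport χ
    · have h1 : ∀ᶠ y in 𝓝 x, w y = u y := (eventually_nhdsSet_iff_forall.1 hwu) x hxS
      have h2 : (fun x => u x + χ x • d x) =ᶠ[𝓝 x]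
          fun y => u y + χ y • ((w y + d y) - u y) := by
        filter_upwards [h1] with y hy
        rw [hy, add_sub_cancel_left]
      exact (hux.add (hχ.contDiffAt.smul (hds.contDiffAt.sub hux))).congr_of_eventuallyEq h2
    · have h2 : (fun x => u x + χ x • d x) =ᶠ[𝓝 x] u := by
        filter_upwards [hSc.isClosed.isOpen_compl.mem_nhds hxS] with y hy
        have := hh0 y hy
        simp only at this
        rw [this, add_zero]
      exact hux.congr_of_eventuallyEq h2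
  · intro x hx
    have h3 : ∀ᶠ y in 𝓝 x, χ y = 1 := (eventually_nhdsSet_iff_forall.1 hχ1) x hx
    have hxS : x ∈ tsupport χ := by
      apply subset_tsupport
      rw [Function.mem_support, h3.self_of_nhds]
      exact one_ne_zero
    have h1 : ∀ᶠ y in 𝓝 x, w y = u y := (eventually_nhdsSet_iff_forall.1 hwu) x hxS
    have h2 : (fun x => u x + χ x • d x) =ᶠ[𝓝 x] fun x => w x + d x := by
      filter_upwards [h1, h3] with y hy hy3
      rw [hy, hy3, one_smul]
    exact hds.contDiffAt.congr_of_eventuallyEq h2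

end Run7.h7
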