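import Mathlib
import Pool.Agent.Run7.h7.Defs
import Pool.Agent.Run7.h7.Basic
import Pool.Agent.Run7.h7.Weak
import Pool.Agent.Run7.h7.WeakC1
import Pool.Agent.Run7.h7.Smooth2
import Pool.Agent.Run7.h7.Global
import Pool.Agent.Run7.h7.Limit
import Pool.Agent.Run7.h7.Smoothing
import Pool.Agent.Run7.h7.SmoothStage
import Pool.Agent.Run7.h7.StageOne
import Pool.Agent.Run7.h7.CorankDefs
import Pool.Agent.Run7.h7.CorankThm
import Pool.Agent.Run7.h7.Rel
import Pool.Agent.Run7.h7.RelSum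
import Pool.Agent.Run7.h7.RelSmooth
import Pool.Agent.Run7.h7.RelLimit
import Pool.Agent.Run7.h7.RelHomeo
import Pool.Agent.Run7.h7.FineDefs

/-!
Second order Sobolev homeomorphisms of class `C^1` are limits of homeomorphisms which are
diffeomorphisms off the points where the rank drops by at least two.
-/

open MeasureTheory Filter Set Metric
open scoped ENNReal Topology ContDiff

namespace Run7.h7

variable {n : ℕ}

/-- **Main theorem, relative version.** -/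
theorem limit_fine {Ω Z : Set (E n)} (hΩ : IsOpen Ω) (hZ : IsOpen (Ω \ Z)) {q : ℝ≥0∞}
    (hq : 1 ≤ q) (hq' : q ≠ ⊤) {f : E n → E n} {Df : Fin n → E n → E n}
    {D2f : Fin n → Fin n → E n → E n} (hf : InW2 Ω q f Df D2f) (hhom : IsHomeoOn Ω f)
    (hc : ContDiffOn ℝ 1 f Ω) (hk : ∀ x ∈ Ω \ Z, Loc1 f x) {τ : E n → ℝ}
    (hτ : ContinuousOn τ (Ω \ Z)) (hpos : ∀ x ∈ Ω \ Z, 0 < τ x) :
    IsW2Limit (IsFineApprox Ω Z f τ) Ω q f := by
  obtain ⟨hae, hw⟩ := hf.ae_eq1 hΩ hq hc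
  set Ω' : Set (E n) := Ω \ Z with hΩdef
  have hsub : Ω' ⊆ Ω := sdiff_subset
  have hfinj : InjOn f Ω := by
    obtain ⟨-, -, h0, -, h0l⟩ := hhom
    exact h0l.injOn
  have hval : Valid Ω q (fun u x => x ∈ Ω' → Loc1 u x) f D2f :=
    ⟨hfinj, hc, fun x _ hx => hk x hx, hw, fun i j => hf.memLp_D2 i j⟩
  -- openness of the image
  have hU : IsOpen (f '' Ω') := by
    obtain ⟨-, hfo, h0, h0c, h0l⟩ := hhom
    have h1 : f '' Ω' = f '' Ω ∩ h0 ⁻¹' Ω' := by
      ext y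
      constructor
      · rintro ⟨x, hx, rfl⟩
        refine ⟨⟨x, hsub hx, rfl⟩, ?_⟩
        rw [mem_preimage, h0l (hsub hx)]
        exact hx
      · rintro ⟨⟨x, hx, rfl⟩, h2⟩
        rw [mem_preimage, h0l hx] at h2
        exact ⟨x, h2, rfl⟩
    rw [h1]
    exact h0c.isOpen_inter_preimage hfo hZ
  obtain ⟨δ, hδc, hδpos, hδ1, hδ2⟩ := exists_gap hU
  set σ : E n → ℝ := fun x => min (τ x) (δ (f x)) / 2 with hσ
  have hσc : ContinuousOn σ Ω' := by
    have h1 : ContinuousOn (fun x => δ (f x)) Ω' :=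
      hδc.comp_continuousOn (hc.continuousOn.mono hsub)
    have h2 : ContinuousOn (fun x => min (τ x) (δ (f x))) Ω' := hτ.inf h1
    exact h2.div_const 2
  have hσpos : ∀ x ∈ Ω', 0 < σ x := fun x hx =>
    half_pos (lt_min (hpos x hx) (hδpos _ ⟨x, hx, rfl⟩))
  refine limit_of_approx hΩ hq hf hc fun ε hε hε' => ?_
  have hcpos : (2 * (1 + n + n * n) : ℝ≥0∞) ≠ 0 := by
    have : (1 : ℝ≥0∞) ≤ 2 * (1 + n + n * n) := by
      calc (1 : ℝ≥0∞) ≤ 2 * 1 := by norm_num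
        _ ≤ 2 * (1 + n + n * n) := by gcongr; rw [add_assoc]; exact le_self_add
    exact (lt_of_lt_of_le one_pos this).ne'
  have hctop : (2 * (1 + n + n * n) : ℝ≥0∞) ≠ ⊤ := by
    refine ENNReal.mul_ne_top (by simp) ?_
    norm_cast; exact ENNReal.natCast_ne_top _
  set η : ℝ≥0∞ := ε / (2 * (1 + n + n * n)) with hη
  have hη0 : η ≠ 0 := (ENNReal.div_pos hε hctop).ne'
  have hη1 : η ≠ ⊤ := ENNReal.div_ne_top hε' hcpos
  obtain ⟨h1, H1, p1, v1, g1, c1, o1⟩ := limit_of_stageR (Loc := Loc1) (Good := Good1) hΩ hZ hsub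
    hq (fun u v x h => Loc1.congr h) (fun u v x h => Good1.congr h) (stage_corankR hΩ hsub hq)
    hval hη0 hη1 one_pos hσc hσpos
  have v1' : Valid Ω q (fun u x => x ∈ Ω' → Good1 u x) (fun x => f x + h1 x)
      (fun i j x => D2f i j x + H1 i j x) := v1.change fun x _ hx => g1 x hx
  obtain ⟨h2, H2, p2, v2, g2, c2, o2⟩ := limit_of_stageR
    (Loc := Good1) (Good := fun u x => ContDiffAt ℝ ∞ u x)
    hΩ hZ hsub hq (fun u v x h => Good1.congr h)
    (fun u v x h hu => hu.congr_of_eventuallyEq h.symm) (stage_smoothR hΩ hZ hsub hq hq') v1'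
    hη0 hη1 one_pos hσc hσpos
  -- the sum
  have hP := p1.add hq p2
  have heq : (fun x => f x + h1 x + h2 x) = fun x => f x + (h1 x + h2 x) := by
    ext1 x; rw [add_assoc]
  rw [heq] at v2 g2
  have hdh1 : ∀ x, DifferentiableAt ℝ h1 x := fun x => p1.c1.differentiable (by simp) x
  have hdh2 : ∀ x, DifferentiableAt ℝ h2 x := fun x => p2.c1.differentiable (by simp) x
  have hdf : ∀ x ∈ Ω, DifferentiableAt ℝ f x := fun x hx =>
    (hc.contDiffAt (hΩ.mem_nhds hx)).differentiableAt (by simp)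
  have hfd : ∀ x ∈ Ω, fderiv ℝ (fun x => f x + (h1 x + h2 x)) x - fderiv ℝ f x =
      fderiv ℝ h1 x + fderiv ℝ h2 x := by
    intro x hx
    have e1 : fderiv ℝ (fun x => f x + (h1 x + h2 x)) x =
        fderiv ℝ f x + fderiv ℝ (fun x => h1 x + h2 x) x :=
      fderiv_fun_add (hdf x hx) ((hdh1 x).add (hdh2 x))
    have e2 : fderiv ℝ (fun x => h1 x + h2 x) x = fderiv ℝ h1 x + fderiv ℝ h2 x :=
      fderiv_fun_add (hdh1 x) (hdh2 x)
    rw [e1, e2, add_sub_cancel_left]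
  have hs : IsSmoothOn Ω' (fun x => f x + (h1 x + h2 x)) := fun x hx =>
    (g2 x hx).contDiffWithinAt
  have hdiffeo : IsDiffeoOn Ω' (fun x => f x + (h1 x + h2 x)) :=
    isDiffeoOn_of_injOn hZ hs (fun x hx => v2.loc x (hsub hx) hx) (v2.inj.mono hsub)
  have hb : ∀ x ∈ Ω', ‖(f x + (h1 x + h2 x)) - f x‖ ≤ min (τ x) (δ (f x)) := by
    intro x hx
    rw [add_sub_cancel_left]
    have a1 := (c1 x hx).1
    have a2 := (c2 x hx).1
    calc ‖h1 x + h2 x‖ ≤ ‖h1 x‖ + ‖h2 x‖ := norm_add_le _ _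
      _ ≤ σ x + σ x := add_le_add a1 a2
      _ = min (τ x) (δ (f x)) := by simp only [hσ]; ring
  have hb1 : ∀ x ∈ Ω', ‖fderiv ℝ (fun x => f x + (h1 x + h2 x)) x - fderiv ℝ f x‖ ≤ τ x := by
    intro x hx
    rw [hfd x (hsub hx)]
    have a1 := (c1 x hx).2
    have a2 := (c2 x hx).2
    calc ‖fderiv ℝ h1 x + fderiv ℝ h2 x‖ ≤ ‖fderiv ℝ h1 x‖ + ‖fderiv ℝ h2 x‖ := norm_add_le _ _
      _ ≤ σ x + σ x := add_le_add a1 a2
      _ = min (τ x) (δ (f x)) := by simp only [hσ]; ring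
      _ ≤ τ x := min_le_left _ _
  have hoff : ∀ x, x ∉ Ω' → h1 x = 0 ∧ h2 x = 0 := fun x hx =>
    ⟨(p1.off x hx).1, (p2.off x hx).1⟩
  obtain ⟨r1, r2, r3⟩ := homeo_of_close hΩ hZ hsub hhom v2.c1.continuousOn v2.inj hdiffeo
    (fun x hx => (hb x hx).trans ((min_le_right _ _).trans (hδ1 _)))
    (fun x hx z hz => (hb x hx).trans ((min_le_right _ _).trans (hδ2 _ z hz)))
    (fun x hx => by
      obtain ⟨e1, e2⟩ := hoff x hx.2
      rw [e1, e2, add_zero, add_zero])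
  obtain ⟨w1, w2⟩ := (hval.change (Loc' := fun _ _ => True) fun _ _ => trivial).add_pert hΩ hq
    hP.c1 hP.weak hP.mem v2.inj (fun _ _ => trivial)
  refine ⟨_, _, ⟨r1, r2, v2.c1, hdiffeo, r3, fun x hx => ?_, fun x hx =>
    ⟨(hb x hx).trans (min_le_left _ _), hb1 x hx⟩⟩, v2.c1, w1.weak, w1.mem, ?_⟩
  · have hx' : x ∉ Ω' := fun h => h.2 hx.2
    obtain ⟨e1, e2⟩ := hoff x hx'
    refine ⟨by rw [e1, e2, add_zero, add_zero], ?_⟩
    rw [← sub_eq_zero, hfd x hx.1, o1 x hx', o2 x hx', add_zero]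
  · rw [w2]
    refine (W2norm_mono (subset_univ Ω)).trans (hP.norm.trans (le_of_eq ?_))
    rw [hη, ← two_mul, ← mul_assoc, ENNReal.mul_div_cancel hcpos hctop]

end Run7.h7
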