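import Mathlib
import Pool.Agent.Run7.h7.Defs
import Pool.Agent.Run7.h7.Basic
import Pool.Agent.Run7.h7.Weak
import Pool.Agent.Run7.h7.WeakC1
import Pool.Agent.Run7.h7.Smooth2
import Pool.Agent.Run7.h7.Moll
import Pool.Agent.Run7.h7.Smoothing

/-!
Continuous functions with two weak derivatives in `L^q`, `q > n`, are of class `C^1`.
-/

open MeasureTheory Filter Set Metric
open scoped ENNReal Topology ContDiff

namespace Run7.h7

variable {n : ℕ} {F : Type*} [NormedAddCommGroup F] [NormedSpace ℝ F] [CompleteSpace F]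

omit [CompleteSpace F] in
lemma memLp_cut {Ω S : Set (E n)} (hΩ : IsOpen Ω) (hSΩ : S ⊆ Ω) {q : ℝ≥0∞} {c : E n → ℝ}
    (hc : Continuous c) (hcc : HasCompactSupport c) (h0 : ∀ x, x ∉ S → c x = 0) {v : E n → F}
    (hv : MemLp v q (volume.restrict Ω)) : MemLp (fun x => c x • v x) q := by
  obtain ⟨M, hM⟩ := hc.bounded_above_of_compact_support hcc
  have hind : Ω.indicator (fun x => c x • v x) = fun x => c x • v x := by
    ext1 x
    by_cases hx : x ∈ Ω
    · rw [indicator_of_mem hx]
    · rw [indicator_of_notMem hx, h0 x (fun h => hx (hSΩ h)), zero_smul]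
  rw [← hind, memLp_indicator_iff_restrict hΩ.measurableSet]
  refine MemLp.of_le_mul (c := M) hv (hc.aestronglyMeasurable.restrict.smul hv.1) ?_
  refine Eventually.of_forall fun x => ?_
  rw [norm_smul]
  gcongr
  exact hM x

/-- **Sobolev embedding into `C^1`.** -/
theorem contDiffOn_of_W2 {Ω : Set (E n)} (hΩ : IsOpen Ω) (hn : 1 ≤ n) {q : ℝ≥0∞}
    (hq : (n : ℝ≥0∞) < q) (hq' : q ≠ ⊤) {f : E n → F} {Df : Fin n → E n → F}
    {D2f : Fin n → Fin n → E n → F} (hf : InW2 Ω q f Df D2f) (hfc : ContinuousOn f Ω) :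
    ContDiffOn ℝ 1 f Ω := by
  have hq1 : 1 ≤ q := le_trans (by exact_mod_cast hn) hq.le
  intro x0 hx0
  obtain ⟨χ, hχ, hχc, hχΩ, hχ1, -⟩ := exists_cutoff (isCompact_singleton (x := x0)) hΩ
    (singleton_subset_iff.2 hx0)
  have hpχ : ∀ i, ContDiff ℝ ∞ (pd χ i) := smooth_pd hχ
  have hp2χ : ∀ i j, ContDiff ℝ ∞ (pd2 χ i j) := fun i j => smooth_pd (hpχ i) j
  have z1 : ∀ i x, x ∉ tsupport χ → pd χ i x = 0 := fun i x hx =>
    pd_eq_zero_of_notMem_tsupport hx i
  have z2 : ∀ i j x, x ∉ tsupport χ → pd2 χ i j x = 0 := fun i j x hx =>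
    pd_eq_zero_of_notMem_tsupport (fun h => hx (tsupport_pd_subset χ i h)) j
  have z0 : ∀ x, x ∉ tsupport χ → χ x = 0 := fun x hx => image_eq_zero_of_notMem_tsupport hx
  have cs1 : ∀ i, HasCompactSupport (pd χ i) := fun i =>
    hχc.of_isClosed_subset (isClosed_tsupport _) (tsupport_pd_subset χ i)
  have cs2 : ∀ i j, HasCompactSupport (pd2 χ i j) := fun i j =>
    hχc.of_isClosed_subset (isClosed_tsupport _)
      ((tsupport_pd_subset (pd χ i) j).trans (tsupport_pd_subset χ i))
  set w : E n → F := fun x => χ x • f x with hw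
  set W1 : Fin n → E n → F := fun i x => pd χ i x • f x + χ x • Df i x with hW1
  set W2 : Fin n → Fin n → E n → F := fun i j x =>
    (pd2 χ i j x • f x + pd χ i x • Df j x) + (pd χ j x • Df i x + χ x • D2f i j x) with hW2
  have lf : LocallyIntegrableOn f Ω := locallyIntegrableOn_of_memLp hq1 hf.memLp
  have lDf : ∀ i, LocallyIntegrableOn (Df i) Ω := fun i =>
    locallyIntegrableOn_of_memLp hq1 (hf.memLp_D i)
  have lD2f : ∀ i j, LocallyIntegrableOn (D2f i j) Ω := fun i j =>
    locallyIntegrableOn_of_memLp hq1 (hf.memLp_D2 i j)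
  -- integrability
  have mw : MemLp w q := memLp_cut hΩ hχΩ hχ.continuous hχc z0 hf.memLp
  have mW1 : ∀ i, MemLp (W1 i) q := fun i =>
    (memLp_cut hΩ hχΩ (hpχ i).continuous (cs1 i) (z1 i) hf.memLp).add
      (memLp_cut hΩ hχΩ hχ.continuous hχc z0 (hf.memLp_D i))
  have mW2 : ∀ i j, MemLp (W2 i j) q := fun i j =>
    ((memLp_cut hΩ hχΩ (hp2χ i j).continuous (cs2 i j) (z2 i j) hf.memLp).add
      (memLp_cut hΩ hχΩ (hpχ i).continuous (cs1 i) (z1 i) (hf.memLp_D j))).add
      ((memLp_cut hΩ hχΩ (hpχ j).continuous (cs1 j) (z1 j) (hf.memLp_D i)).add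
      (memLp_cut hΩ hχΩ hχ.continuous hχc z0 (hf.memLp_D2 i j)))
  -- weak derivatives
  have hw1 : ∀ i, IsWeakPartial univ i w (W1 i) := by
    intro i
    have h1 := (hf.weak i).smul hΩ lf (lDf i) (hχ.of_le (by simp)).contDiffOn
    refine IsWeakPartial.extend hΩ hχc.isCompact hχΩ h1 ?_ ?_
    · intro x hx
      change χ x • f x = 0
      rw [z0 x hx, zero_smul]
    · intro x hx
      change pd χ i x • f x + χ x • Df i x = 0
      rw [z0 x hx, z1 i x hx, zero_smul, zero_smul, add_zero]
  have lsm : ∀ {c : E n → ℝ} {v : E n → F}, Continuous c → LocallyIntegrableOn v Ω →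
      LocallyIntegrableOn (fun x => c x • v x) Ω := fun hc hv =>
    hv.continuousOn_smul hΩ.isLocallyClosed hc.continuousOn
  have hw2 : ∀ i j, IsWeakPartial univ j (W1 i) (W2 i j) := by
    intro i j
    have h1 := (hf.weak j).smul hΩ lf (lDf j) ((hpχ i).of_le (by simp)).contDiffOn
    have h2 := (hf.weak2 i j).smul hΩ (lDf i) (lD2f i j) (hχ.of_le (by simp)).contDiffOn
    have h3 := h1.add h2 (lsm (hpχ i).continuous lf)
      ((lsm (smooth_pd (hpχ i) j).continuous lf).add (lsm (hpχ i).continuous (lDf j)))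
      (lsm hχ.continuous (lDf i))
      ((lsm (hpχ j).continuous (lDf i)).add (lsm hχ.continuous (lD2f i j)))
    refine IsWeakPartial.extend hΩ hχc.isCompact hχΩ h3 ?_ ?_
    · intro x hx
      change pd χ i x • f x + χ x • Df i x = 0
      rw [z0 x hx, z1 i x hx, zero_smul, zero_smul, add_zero]
    · intro x hx
      change (pd2 χ i j x • f x + pd χ i x • Df j x) +
        (pd χ j x • Df i x + χ x • D2f i j x) = 0
      rw [z0 x hx, z1 i x hx, z1 j x hx, z2 i j x hx]
      simp
  -- mollification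
  have lw : LocallyIntegrable w := mw.locallyIntegrable hq1
  have lW1 : ∀ i, LocallyIntegrable (W1 i) := fun i => (mW1 i).locallyIntegrable hq1
  have lW2 : ∀ i j, LocallyIntegrable (W2 i j) := fun i j => (mW2 i j).locallyIntegrable hq1
  have hs : ∀ k, ContDiff ℝ ∞ (mo k w) := fun k => mo_contDiff lw k
  have hpd : ∀ k i, pd (mo k w) i = mo k (W1 i) := by
    intro k i; ext1 x
    exact mo_fderiv_weak (hw1 i) lw k x
  have hpd2 : ∀ k i j, pd2 (mo k w) i j = mo k (W2 i j) := by
    intro k i j; ext1 x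
    unfold pd2
    rw [hpd]
    exact mo_fderiv_weak (hw2 i j) (lW1 i) k x
  have hs2 : ∀ k, ContDiff ℝ 2 (mo k w) := fun k =>
    contDiff_infty.1 (hs k) 2
  obtain ⟨C, hC, hM⟩ := morreyC1 (F := F) (n := n) hn hq hq' one_pos
  -- the errors
  set e : ℕ → ℝ≥0∞ := fun k => eLpNorm (fun x => mo k w x - w x) q +
    ∑ i, eLpNorm (fun x => mo k (W1 i) x - W1 i x) q +
    ∑ i, ∑ j, eLpNorm (fun x => mo k (W2 i j) x - W2 i j x) q with he
  have hek : Tendsto e atTop (𝓝 0) := by
    have t0 := mo_tendsto hq1 hq' mw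
    have t1 : ∀ i, Tendsto (fun k => eLpNorm (fun x => mo k (W1 i) x - W1 i x) q) atTop (𝓝 0) :=
      fun i => mo_tendsto hq1 hq' (mW1 i)
    have t2 : ∀ i j, Tendsto (fun k => eLpNorm (fun x => mo k (W2 i j) x - W2 i j x) q) atTop
      (𝓝 0) := fun i j => mo_tendsto hq1 hq' (mW2 i j)
    have t1' := tendsto_finsetSum (Finset.univ : Finset (Fin n)) fun i _ => t1 i
    have t2' := tendsto_finsetSum (Finset.univ : Finset (Fin n)) fun i _ =>
      tendsto_finsetSum (Finset.univ : Finset (Fin n)) fun j _ => t2 i j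
    have := (t0.add t1').add t2'
    simpa using this
  have hdist : ∀ (v : E n → F), MemLp v q → ∀ k l, eLpNorm (fun x => mo k v x - mo l v x) q ≤
      eLpNorm (fun x => mo k v x - v x) q + eLpNorm (fun x => mo l v x - v x) q := by
    intro v hv k l
    have hl := hv.locallyIntegrable hq1
    have e1 : (fun x => mo k v x - mo l v x) =
        (fun x => mo k v x - v x) - fun x => mo l v x - v x := by
      ext1 x; simp only [Pi.sub_apply]; abel
    rw [e1]
    exact eLpNorm_sub_le ((mo_contDiff hl k).continuous.aestronglyMeasurable.sub hv.1)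
      ((mo_contDiff hl l).continuous.aestronglyMeasurable.sub hv.1) hq1
  have hcau : ∀ k l x, ‖fderiv ℝ (mo k w) x - fderiv ℝ (mo l w) x‖ₑ ≤ C * (e k + e l) := by
    intro k l x
    have h1 := (hM (fun x => mo k w x - mo l w x) x ((hs2 k).sub (hs2 l)).contDiffOn).2
    have h2 : fderiv ℝ (fun x => mo k w x - mo l w x) x =
        fderiv ℝ (mo k w) x - fderiv ℝ (mo l w) x :=
      fderiv_fun_sub ((hs k).differentiable (by simp) x) ((hs l).differentiable (by simp) x)
    rw [h2] at h1
    refine h1.trans ?_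
    gcongr
    refine (W2norm_mono (subset_univ _)).trans ?_
    have p1 : ∀ i, pd (fun x => mo k w x - mo l w x) i =
        fun x => mo k (W1 i) x - mo l (W1 i) x := by
      intro i; ext1 x
      have h3 : fderiv ℝ (fun x => mo k w x - mo l w x) x =
          fderiv ℝ (mo k w) x - fderiv ℝ (mo l w) x :=
        fderiv_fun_sub ((hs k).differentiable (by simp) x) ((hs l).differentiable (by simp) x)
      rw [← hpd, ← hpd]
      unfold pd
      rw [h3]; rfl
    have p2 : ∀ i j, pd2 (fun x => mo k w x - mo l w x) i j =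
        fun x => mo k (W2 i j) x - mo l (W2 i j) x := by
      intro i j; ext1 x
      rw [← hpd2, ← hpd2]
      unfold pd2
      rw [p1, hpd, hpd]
      have h3 : fderiv ℝ (fun x => mo k (W1 i) x - mo l (W1 i) x) x =
          fderiv ℝ (mo k (W1 i)) x - fderiv ℝ (mo l (W1 i)) x :=
        fderiv_fun_sub ((mo_contDiff (lW1 i) k).differentiable (by simp) x)
          ((mo_contDiff (lW1 i) l).differentiable (by simp) x)
      rw [h3]; rfl
    rw [W2norm_def]
    simp only [Measure.restrict_univ, p1, p2, he]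
    have q0 := hdist w mw k l
    have q1 : ∑ i, eLpNorm (fun x => mo k (W1 i) x - mo l (W1 i) x) q volume ≤
        ∑ i, eLpNorm (fun x => mo k (W1 i) x - W1 i x) q volume +
        ∑ i, eLpNorm (fun x => mo l (W1 i) x - W1 i x) q volume := by
      rw [← Finset.sum_add_distrib]
      exact Finset.sum_le_sum fun i _ => hdist (W1 i) (mW1 i) k l
    have q2 : ∑ i, ∑ j, eLpNorm (fun x => mo k (W2 i j) x - mo l (W2 i j) x) q volume ≤
        ∑ i, ∑ j, eLpNorm (fun x => mo k (W2 i j) x - W2 i j x) q volume +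
        ∑ i, ∑ j, eLpNorm (fun x => mo l (W2 i j) x - W2 i j x) q volume := by
      rw [← Finset.sum_add_distrib]
      refine Finset.sum_le_sum fun i _ => ?_
      rw [← Finset.sum_add_distrib]
      exact Finset.sum_le_sum fun j _ => hdist (W2 i j) (mW2 i j) k l
    refine (add_le_add (add_le_add q0 q1) q2).trans (le_of_eq ?_)
    abel
  -- uniform convergence of the derivatives
  have hunif : UniformCauchySeqOn (fun k => fderiv ℝ (mo k w)) atTop univ := by
    rw [Metric.uniformCauchySeqOn_iff]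
    intro ε hε
    have h1 : ∀ᶠ k in atTop, C * (e k + e k) < ENNReal.ofReal ε := by
      have h2 : Tendsto (fun k => C * (e k + e k)) atTop (𝓝 0) := by
        have := ENNReal.Tendsto.const_mul (hek.add hek) (Or.inr hC)
        simpa using this
      exact h2.eventually (gt_mem_nhds (by simpa using hε))
    have h1' : ∀ᶠ k in atTop, C * (e k) < ENNReal.ofReal (ε / 2) := by
      have h2 : Tendsto (fun k => C * (e k)) atTop (𝓝 0) := by
        have := ENNReal.Tendsto.const_mul hek (Or.inr hC)
        simpa using this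
      exact h2.eventually (gt_mem_nhds (by simpa using hε))
    obtain ⟨N, hN⟩ := eventually_atTop.1 h1'
    refine ⟨N, fun k hk l hl x _ => ?_⟩
    have h3 := hcau k l x
    rw [mul_add] at h3
    have h4 : C * e k + C * e l < ENNReal.ofReal (ε / 2) + ENNReal.ofReal (ε / 2) :=
      ENNReal.add_lt_add (hN k hk) (hN l hl)
    rw [← ENNReal.ofReal_add (by positivity) (by positivity), add_halves] at h4
    have h5 := h3.trans_lt h4
    rw [← ofReal_norm, ENNReal.ofReal_lt_ofReal_iff hε] at h5
    rwa [dist_eq_norm]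
  have hcs : ∀ x, CauchySeq (fun k => fderiv ℝ (mo k w) x) := fun x =>
    hunif.cauchySeq (mem_univ x)
  choose G hG using fun x => cauchySeq_tendsto_of_complete (hcs x)
  have hU : TendstoUniformly (fun k => fderiv ℝ (mo k w)) G atTop :=
    tendstoUniformlyOn_univ.1 (hunif.tendstoUniformlyOn_of_tendsto fun x _ => hG x)
  have hwc : Continuous w := by
    rw [continuous_iff_continuousAt]
    intro x
    by_cases hx : x ∈ tsupport χ
    · exact hχ.continuous.continuousAt.smul (hfc.continuousAt (hΩ.mem_nhds (hχΩ hx)))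
    · have : w =ᶠ[𝓝 x] fun _ => 0 := by
        filter_upwards [(isClosed_tsupport χ).isOpen_compl.mem_nhds hx] with y hy
        change χ y • f y = 0
        rw [z0 y hy, zero_smul]
      exact continuousAt_const.congr this.symm
  have hwcs : HasCompactSupport w := hχc.smul_right
  have hwlim : ∀ x, Tendsto (fun k => mo k w x) atTop (𝓝 (w x)) := by
    intro x
    rw [tendsto_iff_norm_sub_tendsto_zero, Metric.tendsto_atTop]
    intro ε hε
    obtain ⟨N, hN⟩ := eventually_atTop.1 (mo_close hwc hwcs (half_pos hε))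
    refine ⟨N, fun k hk => ?_⟩
    rw [dist_zero_right, norm_norm]
    exact (hN k hk x).trans_lt (half_lt_self hε)
  have hder : ∀ x, HasFDerivAt w (G x) x :=
    hasFDerivAt_of_tendstoUniformly hU (fun k x =>
      ((hs k).differentiable (by simp) x).hasFDerivAt) hwlim
  have hGc : Continuous G :=
    hU.continuous (Frequently.of_forall fun k => (hs k).continuous_fderiv (by simp))
  have hwC : ContDiff ℝ 1 w := by
    rw [contDiff_one_iff_fderiv]
    refine ⟨fun x => (hder x).differentiableAt, ?_⟩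
    have : fderiv ℝ w = G := by ext1 x; exact (hder x).fderiv
    rw [this]; exact hGc
  have hev : f =ᶠ[𝓝 x0] w := by
    have h3 : ∀ᶠ y in 𝓝 x0, χ y = 1 := (eventually_nhdsSet_iff_forall.1 hχ1) x0 rfl
    filter_upwards [h3] with y hy
    change f y = χ y • f y
    rw [hy, one_smul]
  exact (hwC.contDiffAt.congr_of_eventuallyEq hev).contDiffWithinAt

end Run7.h7
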