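import Mathlib
import Pool.Agent.W5h49.EC.Flow
import Pool.Agent.W5h49.EC.Lin
import Pool.Agent.W5h49.EC.Calc

/-!
Smooth paths of maps with nonsingular differentials which are the identity outside a compact set:
if the first map is bijective then all are (the proof of `Pool.Agent.W5h49.EC.bij`, for arbitrary
finite dimensional spaces).
-/

set_option autoImplicit false

open scoped ContDiff Topology
open Set Function

namespace Run7.h7.Avg

open Pool.Agent.W5h49.EC (flow_time inverse_smooth inverse_apply)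

variable {E : Type} [NormedAddCommGroup E] [NormedSpace ℝ E]

/-- cutoff: one on `[-1, 2]`, zero outside `[-2, 3]` -/
noncomputable def rho (t : ℝ) : ℝ := Real.smoothTransition (t + 2) * Real.smoothTransition (3 - t)

theorem rho_smooth : ContDiff ℝ ∞ rho :=
  (Real.smoothTransition.contDiff.comp (contDiff_id.add contDiff_const)).mul
    (Real.smoothTransition.contDiff.comp (contDiff_const.sub contDiff_id))

theorem rho_one {t : ℝ} (h0 : 0 ≤ t) (h1 : t ≤ 1) : rho t = 1 := by
  unfold rho
  rw [Real.smoothTransition.one_of_one_le (by linarith),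
    Real.smoothTransition.one_of_one_le (by linarith), one_mul]

theorem rho_zero {t : ℝ} (h : t ∉ Icc (-2 : ℝ) 3) : rho t = 0 := by
  unfold rho
  by_cases h1 : t + 2 ≤ 0
  · rw [Real.smoothTransition.zero_of_nonpos h1, zero_mul]
  · rw [Real.smoothTransition.zero_of_nonpos (x := 3 - t), mul_zero]
    by_contra h2
    exact h ⟨by linarith, by linarith⟩

/-- the differential in `x` -/
noncomputable def dx (F : ℝ × E → E) (z : ℝ × E) : E →L[ℝ] E :=
  (fderiv ℝ F z).comp (ContinuousLinearMap.inr ℝ ℝ E)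

theorem dx_smooth {F : ℝ × E → E} (hF : ContDiff ℝ ∞ F) : ContDiff ℝ ∞ (dx F) :=
  (hF.fderiv_right (m := ∞) (by simp)).clm_comp contDiff_const

theorem dx_eq {F : ℝ × E → E} (hF : ContDiff ℝ ∞ F) (t : ℝ) (x : E) :
    fderiv ℝ (fun y => F (t, y)) x = dx F (t, x) := by
  have h1 : HasFDerivAt F (fderiv ℝ F (t, x)) (t, x) :=
    ((hF.differentiable (by simp)) _).hasFDerivAt
  have h2 : HasFDerivAt (fun y : E => ((t, y) : ℝ × E))
      (ContinuousLinearMap.inr ℝ ℝ E) x := by
    have := (hasFDerivAt_const (𝕜 := ℝ) (E := E) t x).prodMk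
      (hasFDerivAt_id (𝕜 := ℝ) (E := E) x)
    exact this
  exact (h1.comp x h2).fderiv

variable [FiniteDimensional ℝ E]

theorem bijE {F : ℝ × E → E} (hF : ContDiff ℝ ∞ F) {K : Set E} (hK : IsCompact K)
    (h0 : ∀ t x, x ∉ K → F (t, x) = x) (hinj : ∀ z v, dx F z v = 0 → v = 0)
    (hb : Bijective (fun x => F (0, x))) :
    ∀ t ∈ Icc (0 : ℝ) 1, Bijective (fun x => F (t, x)) := by
  have : CompleteSpace E := FiniteDimensional.complete ℝ E
  set D : ℝ × E → E := fun z => fderiv ℝ F z ((1 : ℝ), (0 : E)) with hD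
  have hDs : ContDiff ℝ ∞ D := (hF.fderiv_right (m := ∞) (by simp)).clm_apply contDiff_const
  set Z : ℝ × E → E := fun z => - (rho z.1 • (dx F z).inverse (D z)) with hZ
  have hZs : ContDiff ℝ ∞ Z := by
    refine ContDiff.neg ((rho_smooth.comp contDiff_fst).smul ?_)
    exact (inverse_smooth rfl (dx_smooth hF) hinj).clm_apply hDs
  have hline : ∀ (t : ℝ) (x : E),
      HasDerivAt (fun r : ℝ => ((r, x) : ℝ × E)) ((1 : ℝ), (0 : E)) t := fun t x =>
    (hasDerivAt_id t).prodMk (hasDerivAt_const t x)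
  have hddt : ∀ t x, x ∉ K → D (t, x) = 0 := by
    intro t x hx
    have h1 := (((hF.differentiable (by simp)) (t, x)).hasFDerivAt).comp_hasDerivAt t (hline t x)
    have h2 : (F ∘ fun r : ℝ => ((r, x) : ℝ × E)) = fun _ => x := by
      funext r
      exact h0 r x hx
    rw [h2] at h1
    exact h1.unique (hasDerivAt_const t x)
  have hZc : HasCompactSupport Z := by
    refine HasCompactSupport.intro ((isCompact_Icc (a := (-2 : ℝ)) (b := 3)).prod hK) ?_
    rintro ⟨t, x⟩ hz
    rw [hZ]
    simp only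
    by_cases ht : t ∈ Icc (-2 : ℝ) 3
    · have hx : x ∉ K := fun hx => hz ⟨ht, hx⟩
      rw [hddt t x hx]
      simp
    · rw [rho_zero ht]
      simp
  obtain ⟨Φ, hΦ, hΦ0, hΦd, hΦb, -⟩ := flow_time Z hZs hZc
  intro t ht
  have key : ∀ x, F (t, Φ (t, x)) = F (0, x) := by
    intro x
    have h1 : ∀ s ∈ Icc (0 : ℝ) 1, HasDerivAt (fun s => F (s, Φ (s, x))) 0 s := by
      intro s hs
      have h2 : HasDerivAt (fun s => ((s, Φ (s, x)) : ℝ × E)) (1, Z (s, Φ (s, x))) s :=
        (hasDerivAt_id s).prodMk (hΦd s x)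
      have h3 := (((hF.differentiable (by simp)) (s, Φ (s, x))).hasFDerivAt).comp_hasDerivAt s h2
      have h4 : fderiv ℝ F (s, Φ (s, x)) (1, Z (s, Φ (s, x))) = 0 := by
        have h5 : ((1, Z (s, Φ (s, x))) : ℝ × E) = ((1 : ℝ), (0 : E)) +
            ((0 : ℝ), Z (s, Φ (s, x))) := by
          simp
        rw [h5, map_add]
        have h6 : fderiv ℝ F (s, Φ (s, x)) ((0 : ℝ), Z (s, Φ (s, x))) =
            dx F (s, Φ (s, x)) (Z (s, Φ (s, x))) := rfl
        rw [h6, hZ]
        simp only
        rw [rho_one hs.1 hs.2, one_smul, map_neg, inverse_apply rfl _ (hinj _)]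
        exact add_neg_cancel _
      rw [h4] at h3
      exact h3
    have h2 := constant_of_has_deriv_right_zero
      (fun t ht => (h1 t ht).continuousAt.continuousWithinAt)
      (fun t ht => (h1 t ⟨ht.1, ht.2.le⟩).hasDerivWithinAt) t ht
    simp only [hΦ0] at h2
    exact h2
  have hcomp : (fun x => F (t, x)) ∘ (fun x => Φ (t, x)) = fun x => F (0, x) := funext key
  have hb2 : Bijective ((fun x => F (t, x)) ∘ (fun x => Φ (t, x))) := by
    rw [hcomp]
    exact hb
  exact (Bijective.of_comp_iff _ (hΦb t)).1 hb2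

end Run7.h7.Avg
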