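import Pool.Agent.Run7.h7.AvgOsc

/-!
Diffeomorphisms whose differentials have small mean oscillation at small scales: close ones are
isotopic.
-/

set_option autoImplicit false
set_option linter.unusedSectionVars false

open scoped ContDiff Topology Pointwise
open MeasureTheory Set Metric Function Filter

namespace Run7.h7.Avg

variable {E : Type} [NormedAddCommGroup E] [NormedSpace ℝ E] [FiniteDimensional ℝ E]
  [MeasurableSpace E] [BorelSpace E] (vol : Measure E) [vol.IsAddHaarMeasure]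

/-- the mean oscillation of the differential on the ball with centre `x` and radius `r` -/
noncomputable def OS (φ : E → E) (r : ℝ) (x : E) : ℝ :=
  HM (unif vol) (fun y => ‖fderiv ℝ φ y - AV (unif vol) φ r x‖) r x

/-- compactly supported diffeomorphisms with `|v| ≤ M |Dφ v|` and mean oscillation of the
differential at most `θ` at the scales up to `r₀` -/
structure Cls (M θ r₀ : ℝ) (φ : E → E) : Prop where
  diff : DiffC φ
  lower : ∀ x v, ‖v‖ ≤ M * ‖fderiv ℝ φ x v‖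
  osc : ∀ x r, 0 < r → r ≤ r₀ → OS vol φ r x ≤ θ

variable {vol}

theorem fd_cont {φ : E → E} (h : DiffC φ) : Continuous (fderiv ℝ φ) :=
  h.smooth.continuous_fderiv (by simp)

theorem OS_int {φ : E → E} (h : DiffC φ) (r : ℝ) (x : E) :
    Integrable (fun z => ‖fderiv ℝ φ (x + r • z) - AV (unif vol) φ r x‖) (unif vol) :=
  (unif_BS vol).int (((fd_cont h).comp (by fun_prop)).sub continuous_const).norm

theorem lower_av {M θ r₀ : ℝ} (hM : 0 ≤ M) {φ : E → E} (h : Cls vol M θ r₀ φ) {r : ℝ}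
    (hr : 0 < r) (hr1 : r ≤ r₀) (x v : E) :
    ‖v‖ ≤ M * (‖AV (unif vol) φ r x v‖ + θ * ‖v‖) := by
  have hp := (unif_BS vol).prob
  obtain ⟨z, hz⟩ := exists_le_integral (OS_int (vol := vol) h.diff r x)
  have h1 : ‖fderiv ℝ φ (x + r • z) - AV (unif vol) φ r x‖ ≤ θ := hz.trans (h.osc x r hr hr1)
  refine (h.lower (x + r • z) v).trans (mul_le_mul_of_nonneg_left ?_ hM)
  have h2 : fderiv ℝ φ (x + r • z) v = AV (unif vol) φ r x v +
      (fderiv ℝ φ (x + r • z) - AV (unif vol) φ r x) v := by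
    simp
  rw [h2]
  refine (norm_add_le _ _).trans (add_le_add_right ?_ _)
  exact (ContinuousLinearMap.le_opNorm _ _).trans (mul_le_mul_of_nonneg_right h1 (norm_nonneg _))

/-- `θ` is nonnegative -/
theorem Cls.nonneg {M θ r₀ : ℝ} (hr : 0 < r₀) {φ : E → E} (h : Cls vol M θ r₀ φ) : 0 ≤ θ :=
  (integral_nonneg fun _ => norm_nonneg _).trans (h.osc 0 r₀ hr le_rfl)

theorem AV_sub {φ ψ : E → E} (hφ : DiffC φ) (hψ : DiffC ψ) (r : ℝ) (x : E) :
    AV (unif vol) φ r x - AV (unif vol) ψ r x =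
      HM (unif vol) (fderiv ℝ (fun y => φ y - ψ y)) r x := by
  have h1 : ∀ y, fderiv ℝ (fun y => φ y - ψ y) y = fderiv ℝ φ y - fderiv ℝ ψ y := fun y =>
    (((hφ.smooth.differentiable (by simp)) y).hasFDerivAt.sub
      ((hψ.smooth.differentiable (by simp)) y).hasFDerivAt).fderiv
  unfold AV HM
  simp_rw [h1]
  have i1 : Integrable (fun z => fderiv ℝ φ (x + r • z)) (unif vol) :=
    (unif_BS vol).int ((fd_cont hφ).comp (by fun_prop))
  have i2 : Integrable (fun z => fderiv ℝ ψ (x + r • z)) (unif vol) :=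
    (unif_BS vol).int ((fd_cont hψ).comp (by fun_prop))
  exact (integral_sub i1 i2).symm

theorem AV_close {φ ψ : E → E} (hφ : DiffC φ) (hψ : DiffC ψ) {η : ℝ}
    (hη : ∀ y, ‖φ y - ψ y‖ ≤ η) {r : ℝ} (hr : 0 < r) (x : E) :
    ‖AV (unif vol) φ r x - AV (unif vol) ψ r x‖ ≤ 2 * Module.finrank ℝ E * η / r := by
  rw [AV_sub hφ hψ]
  exact HM_fderiv_le vol ((hφ.smooth.sub hψ.smooth).of_le (by simp)) hη hr x

/-- the identity -/
theorem diffC_id : DiffC (fun x : E => x) :=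
  ⟨contDiff_id, ⟨fun x => x, contDiff_id, fun _ => rfl, fun _ => rfl⟩, 0, fun _ _ => rfl⟩

theorem AV_id (r : ℝ) (x : E) :
    AV (unif vol) (fun x : E => x) r x = ContinuousLinearMap.id ℝ E := by
  have := (unif_BS vol).prob
  have : CompleteSpace E := FiniteDimensional.complete ℝ E
  have h1 : ∀ y : E, fderiv ℝ (fun x : E => x) y = ContinuousLinearMap.id ℝ E := fun y =>
    (hasFDerivAt_id y).fderiv
  unfold AV HM
  simp_rw [h1]
  simp

theorem close_aux {M θ r₀ η : ℝ} (hM : 0 ≤ M) (hr : 0 < r₀) {φ ψ : E → E}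
    (hφ : Cls vol M θ r₀ φ) (hψ : DiffC ψ) (hθ : M * θ < 1)
    (hψl : ∀ r, 0 < r → r ≤ r₀ → ∀ x v, AV (unif vol) ψ r x v = 0 → v = 0)
    (hη : ∀ y, ‖φ y - ψ y‖ ≤ η) (hlt : 2 * Module.finrank ℝ E * η * M < r₀ * (1 - M * θ)) :
    IsotopicC φ ψ := by
  have hpos : 0 < 1 - M * θ := by linarith
  refine two (unif_BS vol) hφ.diff hψ hr.le (fun r h0 h1 x v hv => ?_) hψl
    (fun t ht0 ht1 x v hv => ?_)
  · have h2 := lower_av hM hφ h0 h1 x v
    rw [hv, norm_zero, zero_add] at h2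
    by_contra hne
    have h3 := norm_pos_iff.2 hne
    nlinarith
  · have h2 := lower_av hM hφ hr le_rfl x v
    have h3 : AV (unif vol) φ r₀ x v = t • (AV (unif vol) φ r₀ x - AV (unif vol) ψ r₀ x) v := by
      rw [_root_.sub_apply, smul_sub]
      have h4 : (1 - t) • AV (unif vol) φ r₀ x v = -(t • AV (unif vol) ψ r₀ x v) :=
        eq_neg_of_add_eq_zero_left hv
      rw [sub_smul, one_smul, sub_eq_iff_eq_add] at h4
      exact h4.trans (by abel)
    have h5 : ‖AV (unif vol) φ r₀ x v‖ ≤ 2 * Module.finrank ℝ E * η / r₀ * ‖v‖ := by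
      rw [h3, norm_smul, Real.norm_of_nonneg ht0]
      have h6 := (AV (unif vol) φ r₀ x - AV (unif vol) ψ r₀ x).le_opNorm v
      have h7 := mul_le_mul_of_nonneg_right (AV_close (vol := vol) hφ.diff hψ hη hr x)
        (norm_nonneg v)
      have h8 : t * ‖(AV (unif vol) φ r₀ x - AV (unif vol) ψ r₀ x) v‖ ≤
          1 * ‖(AV (unif vol) φ r₀ x - AV (unif vol) ψ r₀ x) v‖ :=
        mul_le_mul_of_nonneg_right ht1 (norm_nonneg _)
      linarith
    by_contra hne
    have h6 := norm_pos_iff.2 hne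
    have h7 : ‖v‖ ≤ M * (2 * Module.finrank ℝ E * η / r₀ * ‖v‖ + θ * ‖v‖) :=
      h2.trans (mul_le_mul_of_nonneg_left (add_le_add_left h5 _) hM)
    have h8 : 1 ≤ M * (2 * Module.finrank ℝ E * η / r₀ + θ) := by
      by_contra hlt'
      rw [not_le] at hlt'
      nlinarith
    have h9 : M * (2 * Module.finrank ℝ E * η / r₀ + θ) =
        (2 * Module.finrank ℝ E * η * M + r₀ * (M * θ)) / r₀ := by
      field_simp
    rw [h9, le_div_iff₀ hr] at h8
    linarith

/-- **Close diffeomorphisms with small mean oscillation are isotopic.** -/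
theorem close {M θ r₀ η : ℝ} (hM : 0 ≤ M) (hr : 0 < r₀) {φ ψ : E → E}
    (hφ : Cls vol M θ r₀ φ) (hψ : Cls vol M θ r₀ ψ) (hθ : M * θ < 1)
    (hη : ∀ y, ‖φ y - ψ y‖ ≤ η) (hlt : 2 * Module.finrank ℝ E * η * M < r₀ * (1 - M * θ)) :
    IsotopicC φ ψ := by
  have hpos : 0 < 1 - M * θ := by linarith
  refine close_aux hM hr hφ hψ.diff hθ (fun r h0 h1 x v hv => ?_) hη hlt
  have h2 := lower_av hM hψ h0 h1 x v
  rw [hv, norm_zero, zero_add] at h2
  by_contra hne
  have h3 := norm_pos_iff.2 hne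
  nlinarith

/-- **Small displacement.** -/
theorem close_id {M θ r₀ η : ℝ} (hM : 0 ≤ M) (hr : 0 < r₀) {φ : E → E}
    (hφ : Cls vol M θ r₀ φ) (hθ : M * θ < 1)
    (hη : ∀ y, ‖φ y - y‖ ≤ η) (hlt : 2 * Module.finrank ℝ E * η * M < r₀ * (1 - M * θ)) :
    IsotopicC φ (fun x => x) := by
  refine close_aux hM hr hφ diffC_id hθ (fun r h0 h1 x v hv => ?_) hη hlt
  rw [AV_id] at hv
  exact hv

end Run7.h7.Avg
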