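import Pool.Agent.Run7.h7.AvgNull

/-!
# Extension of diffeomorphisms with compact support from a chart to a manifold
-/

set_option autoImplicit false

open Set Filter Topology Metric Function
open scoped Manifold ContDiff

noncomputable section

namespace Run7.h7.AvgExt

/-- `ℝⁿ` -/
abbrev R (n : ℕ) : Type := EuclideanSpace ℝ (Fin n)

variable {n : ℕ} {X : Type} [TopologicalSpace X] [ChartedSpace (R n) X]

open Classical in
/-- extension by the identity -/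
def ext (α : R n → X) (φ : R n → R n) (x : X) : X :=
  if h : ∃ y, α y = x then α (φ h.choose) else x

omit [TopologicalSpace X] [ChartedSpace (R n) X] in
theorem ext_apply {α : R n → X} (hα : Injective α) (φ : R n → R n) (y : R n) :
    ext α φ (α y) = α (φ y) := by
  have h : ∃ z, α z = α y := ⟨y, rfl⟩
  unfold ext
  rw [dif_pos h, hα h.choose_spec]

omit [TopologicalSpace X] [ChartedSpace (R n) X] in
theorem ext_of_not {α : R n → X} (φ : R n → R n) {x : X} (h : ¬ ∃ y, α y = x) :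
    ext α φ x = x := dif_neg h

theorem ext_smooth [T2Space X] {α : R n → X} (hα : Injective α)
    (hd : IsLocalDiffeomorph (𝓡 n) (𝓡 n) ∞ α) {F : ℝ × R n → R n} (hF : ContDiff ℝ ∞ F) {ρ : ℝ}
    (hρ : ∀ t y, ρ < ‖y‖ → F (t, y) = y) :
    ContMDiff ((𝓘(ℝ, ℝ)).prod (𝓡 n)) (𝓡 n) ∞
      (fun p : ℝ × X => ext α (fun y => F (p.1, y)) p.2) := by
  rintro ⟨t₀, x₀⟩
  by_cases h : ∃ y, α y = x₀
  · obtain ⟨y₀, rfl⟩ := h
    obtain ⟨Φ, hΦ0, hΦ⟩ := hd y₀
    have ht : α y₀ ∈ Φ.target := by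
      rw [hΦ hΦ0]
      exact Φ.map_source hΦ0
    have a1 : ContMDiffAt ((𝓘(ℝ, ℝ)).prod (𝓡 n)) 𝓘(ℝ, ℝ) ∞ (fun p : ℝ × X => p.1)
        (t₀, α y₀) := contMDiffAt_fst
    have a2 : ContMDiffAt ((𝓘(ℝ, ℝ)).prod (𝓡 n)) (𝓡 n) ∞ (fun p : ℝ × X => Φ.invFun p.2)
        (t₀, α y₀) :=
      ContMDiffAt.comp (g := Φ.invFun) (f := fun p : ℝ × X => p.2) (t₀, α y₀)
        (Φ.contMDiffOn_invFun.contMDiffAt (Φ.open_target.mem_nhds ht)) contMDiffAt_snd
    have a3 := a1.prodMk_space a2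
    have a5 : ContMDiffAt ((𝓘(ℝ, ℝ)).prod (𝓡 n)) (𝓡 n) ∞
        (fun p : ℝ × X => F (p.1, Φ.invFun p.2)) (t₀, α y₀) :=
      ContMDiffAt.comp (g := F) (f := fun p : ℝ × X => (p.1, Φ.invFun p.2)) (t₀, α y₀)
        hF.contMDiff.contMDiffAt a3
    have a6 : ContMDiffAt ((𝓘(ℝ, ℝ)).prod (𝓡 n)) (𝓡 n) ∞
        (fun p : ℝ × X => α (F (p.1, Φ.invFun p.2))) (t₀, α y₀) :=
      ContMDiffAt.comp (g := α) (f := fun p : ℝ × X => F (p.1, Φ.invFun p.2)) (t₀, α y₀)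
        (hd _).contMDiffAt a5
    refine a6.congr_of_eventuallyEq ?_
    have h2 : ∀ᶠ p : ℝ × X in 𝓝 (t₀, α y₀), p.2 ∈ Φ.target :=
      (continuous_snd.tendsto (t₀, α y₀)).eventually (Φ.open_target.mem_nhds ht)
    filter_upwards [h2] with p hp
    have h3 : Φ.invFun p.2 ∈ Φ.source := Φ.map_target' hp
    have h4 : α (Φ.invFun p.2) = p.2 := (hΦ h3).trans (Φ.right_inv' hp)
    conv_lhs => rw [← h4]
    rw [ext_apply hα]
  · have hC : IsClosed (α '' closedBall (0 : R n) ρ) :=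
      ((isCompact_closedBall (0 : R n) ρ).image hd.contMDiff.continuous).isClosed
    have hx : x₀ ∈ (α '' closedBall (0 : R n) ρ)ᶜ := by
      rintro ⟨y, -, hy⟩
      exact h ⟨y, hy⟩
    refine (contMDiffAt_snd (M := ℝ) (N := X)).congr_of_eventuallyEq ?_
    have h2 : ∀ᶠ p : ℝ × X in 𝓝 (t₀, x₀), p.2 ∈ (α '' closedBall (0 : R n) ρ)ᶜ :=
      (continuous_snd.tendsto (t₀, x₀)).eventually (hC.isOpen_compl.mem_nhds hx)
    filter_upwards [h2] with p hp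
    by_cases hy : ∃ y, α y = p.2
    · obtain ⟨y, hy⟩ := hy
      have hn : ρ < ‖y‖ := by
        by_contra hcon
        exact hp ⟨y, by rw [mem_closedBall_zero_iff]; exact not_lt.1 hcon, hy⟩
      rw [← hy, ext_apply hα, hρ p.1 y hn]
    · exact ext_of_not _ hy

/-- `f` is a diffeomorphism of `X` -/
def IsDiff (f : X → X) : Prop := ∃ Φ : X ≃ₘ^∞⟮𝓡 n, 𝓡 n⟯ X, ∀ x, Φ x = f x

/-- smoothly isotopic diffeomorphisms -/
def Iso (n : ℕ) {X : Type} [TopologicalSpace X] [ChartedSpace (R n) X] (f g : X → X) : Prop :=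
  ∃ K : ℝ × X → X, ContMDiff ((𝓘(ℝ, ℝ)).prod (𝓡 n)) (𝓡 n) ∞ K ∧
    (∀ t ∈ Icc (0 : ℝ) 1, IsDiff (n := n) (fun x => K (t, x))) ∧ (∀ x, K (0, x) = f x) ∧
    ∀ x, K (1, x) = g x

theorem ext_diff [T2Space X] {α : R n → X} (hα : Injective α)
    (hd : IsLocalDiffeomorph (𝓡 n) (𝓡 n) ∞ α) {φ : R n → R n} (hφ : Run7.h7.Avg.DiffC φ) :
    IsDiff (n := n) (ext α φ) := by
  obtain ⟨g, hg, hl, hr⟩ := hφ.inv
  obtain ⟨ρ, hρ⟩ := hφ.supp
  have hρ' : ∀ y, ρ < ‖y‖ → g y = y := by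
    intro y hy
    have h1 := hl y
    rwa [hρ y hy] at h1
  have hs : ∀ {ψ : R n → R n}, ContDiff ℝ ∞ ψ → (∀ y, ρ < ‖y‖ → ψ y = y) →
      ContMDiff (𝓡 n) (𝓡 n) ∞ (ext α ψ) := by
    intro ψ h1 h2
    have h3 := ext_smooth hα hd (F := fun p => ψ p.2) (h1.comp contDiff_snd) (fun _ y hy => h2 y hy)
    have h4 : ContMDiff (𝓡 n) ((𝓘(ℝ, ℝ)).prod (𝓡 n)) ∞ (fun x : X => ((0 : ℝ), x)) :=
      contMDiff_const.prodMk contMDiff_id
    exact h3.comp h4
  have hinv : ∀ {a b : R n → R n}, LeftInverse a b → ∀ x, ext α a (ext α b x) = x := by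
    intro a b hab x
    by_cases h : ∃ y, α y = x
    · obtain ⟨y, rfl⟩ := h
      rw [ext_apply hα, ext_apply hα, hab]
    · rw [ext_of_not b h, ext_of_not a h]
  exact ⟨⟨⟨ext α φ, ext α g, hinv hl, hinv hr⟩, hs hφ.smooth hρ, hs hg hρ'⟩, fun x => rfl⟩

theorem ext_iso [T2Space X] {α : R n → X} (hα : Injective α)
    (hd : IsLocalDiffeomorph (𝓡 n) (𝓡 n) ∞ α) {φ ψ : R n → R n}
    (h : Run7.h7.Avg.IsotopicC φ ψ) : Iso n (ext α φ) (ext α ψ) := by
  obtain ⟨F, ρ, h1, h2, h3, h4, h5⟩ := h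
  refine ⟨fun p => ext α (fun y => F (p.1, y)) p.2, ext_smooth hα hd h1 h2,
    fun t ht => ext_diff hα hd (h3 t ht), fun x => ?_, fun x => ?_⟩
  · show ext α (fun y => F (0, y)) x = _
    rw [funext h4]
  · show ext α (fun y => F (1, y)) x = _
    rw [funext h5]

/-- `f` is the extension of `φ` by the identity -/
def IsExt (α : R n → X) (φ : R n → R n) (f : X → X) : Prop :=
  (∀ y, f (α y) = α (φ y)) ∧ ∀ x, (¬ ∃ y, α y = x) → f x = x

omit [TopologicalSpace X] [ChartedSpace (R n) X] in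
theorem IsExt.eq {α : R n → X} (hα : Injective α) {φ : R n → R n} {f : X → X}
    (h : IsExt α φ f) : f = ext α φ := by
  funext x
  by_cases hx : ∃ y, α y = x
  · obtain ⟨y, rfl⟩ := hx
    rw [h.1, ext_apply hα]
  · rw [h.2 x hx, ext_of_not φ hx]

omit [TopologicalSpace X] [ChartedSpace (R n) X] in
theorem ext_id (α : R n → X) (hα : Injective α) : ext α (fun y => y) = fun x => x := by
  funext x
  by_cases hx : ∃ y, α y = x
  · obtain ⟨y, rfl⟩ := hx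
    rw [ext_apply hα]
  · rw [ext_of_not _ hx]

end Run7.h7.AvgExt
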