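import Pool.Agent.Run7.h7.AvgCls

/-!
Finitely many isotopy classes of diffeomorphisms whose differentials have small mean oscillation
at small scales.
-/

set_option autoImplicit false
set_option linter.unusedSectionVars false

open scoped ContDiff Topology Pointwise
open MeasureTheory Set Metric Function Filter

namespace Run7.h7.Avg

variable {E : Type} [NormedAddCommGroup E] [NormedSpace ℝ E] [FiniteDimensional ℝ E]
  [MeasurableSpace E] [BorelSpace E] {vol : Measure E} [vol.IsAddHaarMeasure]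

theorem unif_sym : ∫ z, z ∂(unif vol) = (0 : E) := by
  have e1 : ∫ z, z ∂(unif vol) = ⨍ z in ball (0 : E) 1, z ∂vol :=
    (setAverage_eq' vol (fun z => z) (ball (0 : E) 1)).symm
  have e2 := Measure.setIntegral_comp_smul vol (fun z : E => z) (R := -1) (ball (0 : E) 1)
    (by norm_num)
  have e3 : (-1 : ℝ) • ball (0 : E) 1 = ball (0 : E) 1 := by
    rw [_root_.smul_ball (by norm_num), smul_zero, norm_neg, norm_one, one_mul]
  have e4 : |(((-1 : ℝ)) ^ Module.finrank ℝ E)⁻¹| = 1 := by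
    rw [abs_inv, abs_pow, abs_neg, abs_one, one_pow, inv_one]
  rw [e3, e4, one_smul] at e2
  simp only [neg_smul, one_smul] at e2
  rw [integral_neg] at e2
  have e5 : ∫ z in ball (0 : E) 1, z ∂vol = 0 := by
    have h2 : (2 : ℝ) • ∫ z in ball (0 : E) 1, z ∂vol = 0 := by
      rw [two_smul]
      nth_rewrite 1 [← e2]
      exact neg_add_cancel _
    exact (smul_eq_zero.1 h2).resolve_left (by norm_num)
  rw [e1, setAverage_eq, e5, smul_zero]

theorem unif_lin (A : E →L[ℝ] E) : ∫ z, A z ∂(unif vol) = 0 := by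
  have : CompleteSpace E := FiniteDimensional.complete ℝ E
  have h1 := ContinuousLinearMap.integral_comp_comm A
    ((unif_BS vol).int (continuous_id (X := E)))
  simp only [id] at h1
  rw [h1, unif_sym, map_zero]

theorem HM_deriv_scale {φ : E → E} (hφ : DiffC φ) (x : E) (ρ : ℝ) :
    HasDerivAt (fun ρ => HM (unif vol) φ ρ x)
      (∫ z, fderiv ℝ φ (x + ρ • z) z ∂(unif vol)) ρ := by
  have hν := unif_BS vol
  have := hν.prob
  have : ProperSpace E := FiniteDimensional.proper_real E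
  have hd : Differentiable ℝ φ := hφ.smooth.differentiable (by simp)
  have hc := fd_cont hφ
  have hcc : Continuous (fun q : ℝ × E => fderiv ℝ φ (x + q.1 • q.2) q.2) :=
    (hc.comp (continuous_const.add (continuous_fst.smul continuous_snd))).clm_apply
      continuous_snd
  obtain ⟨C, hC⟩ := ((isCompact_closedBall ρ 1).prod
    (isCompact_closedBall (0 : E) 1)).exists_bound_of_continuousOn hcc.continuousOn
  refine (hasDerivAt_integral_of_dominated_loc_of_deriv_le (s := ball ρ 1)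
    (ball_mem_nhds ρ one_pos) (F := fun ρ z => φ (x + ρ • z))
    (F' := fun ρ z => fderiv ℝ φ (x + ρ • z) z) (bound := fun _ => C)
    (Eventually.of_forall fun ρ =>
      (hν.int (hd.continuous.comp (by fun_prop))).aestronglyMeasurable)
    (hν.int (hd.continuous.comp (by fun_prop)))
    (hν.int (hcc.comp (continuous_const.prodMk continuous_id))).aestronglyMeasurable
    ?_ (integrable_const C) (Eventually.of_forall fun z σ _ => ?_)).2
  · filter_upwards [hν.supp] with z hz σ hσ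
    exact hC (σ, z) ⟨ball_subset_closedBall hσ, by simpa using hz⟩
  · have h1 : HasDerivAt (fun σ : ℝ => x + σ • z) z σ := by
      simpa using ((hasDerivAt_id σ).smul_const z).const_add x
    exact ((hd (x + σ • z)).hasFDerivAt).comp_hasDerivAt σ h1

theorem scale_bound {M θ r₀ : ℝ} {φ : E → E} (h : Cls vol M θ r₀ φ) {ρ : ℝ} (h0 : 0 < ρ)
    (h1 : ρ ≤ r₀) (x : E) : ‖∫ z, fderiv ℝ φ (x + ρ • z) z ∂(unif vol)‖ ≤ θ := by
  have hν := unif_BS vol
  have := hν.prob
  have : CompleteSpace E := FiniteDimensional.complete ℝ E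
  set A := AV (unif vol) φ ρ x with hA
  have hc : Continuous (fun z : E => fderiv ℝ φ (x + ρ • z)) :=
    (fd_cont h.diff).comp (by fun_prop)
  have e1 : ∫ z, A z ∂(unif vol) = 0 := unif_lin A
  have e2 : ∫ z, fderiv ℝ φ (x + ρ • z) z ∂(unif vol) =
      ∫ z, (fderiv ℝ φ (x + ρ • z) - A) z ∂(unif vol) := by
    have i1 : Integrable (fun z => fderiv ℝ φ (x + ρ • z) z) (unif vol) :=
      hν.int (hc.clm_apply continuous_id)
    have i2 : Integrable (fun z => A z) (unif vol) := hν.int A.continuous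
    have := integral_sub i1 i2
    rw [e1, sub_zero] at this
    exact this.symm
  rw [e2]
  refine (norm_integral_le_of_norm_le (OS_int h.diff ρ x) ?_).trans (h.osc x ρ h0 h1)
  filter_upwards [hν.supp] with z hz
  refine (ContinuousLinearMap.le_opNorm _ _).trans ?_
  exact mul_le_of_le_one_right (norm_nonneg _) hz

/-- the distance to the averages -/
theorem dist_HM {M θ r₀ : ℝ} {φ : E → E} (h : Cls vol M θ r₀ φ) {r : ℝ} (h0 : 0 < r)
    (h1 : r ≤ r₀) (x : E) : ‖HM (unif vol) φ r x - φ x‖ ≤ θ * r := by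
  have hν := unif_BS vol
  have := hν.prob
  have : CompleteSpace E := FiniteDimensional.complete ℝ E
  have hθ : 0 ≤ θ := h.nonneg (h0.trans_le h1)
  have h2 := norm_image_sub_le_of_norm_deriv_le_segment' (a := 0) (b := r)
    (f := fun ρ => HM (unif vol) φ ρ x)
    (f' := fun ρ => ∫ z, fderiv ℝ φ (x + ρ • z) z ∂(unif vol)) (C := θ)
    (fun ρ _ => (HM_deriv_scale h.diff x ρ).hasDerivWithinAt) (fun ρ hρ => by
      rcases eq_or_lt_of_le hρ.1 with h3 | h3
      · rw [← h3]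
        simp only [zero_smul, add_zero]
        rw [unif_lin, norm_zero]
        exact hθ
      · exact scale_bound h h3 (hρ.2.le.trans h1) x) r (right_mem_Icc.2 h0.le)
  rw [HM_zero hν, sub_zero] at h2
  exact h2

/-- the displacement is bounded -/
theorem disp_bound {φ : E → E} (h : DiffC φ) {R : ℝ} (hR : ∀ x, R < ‖x‖ → φ x = x) (x : E) :
    (‖x‖ ≤ R → ‖φ x‖ ≤ R) ∧ ‖φ x - x‖ ≤ 2 * max R 0 := by
  have h1 : ‖x‖ ≤ R → ‖φ x‖ ≤ R := by
    intro hx
    by_contra hlt
    rw [not_le] at hlt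
    have h2 := h.bij.1 (hR _ hlt)
    rw [h2] at hlt
    exact absurd hx (not_le.2 hlt)
  refine ⟨h1, ?_⟩
  by_cases hx : ‖x‖ ≤ R
  · have h2 := norm_sub_le (φ x) x
    have h3 := h1 hx
    have h4 := le_max_left R 0
    linarith
  · rw [hR x (not_le.1 hx), sub_self, norm_zero]
    positivity

theorem AV_bound {φ : E → E} (h : DiffC φ) {R : ℝ} (hR : ∀ x, R < ‖x‖ → φ x = x) {r : ℝ}
    (hr : 0 < r) (x : E) :
    ‖AV (unif vol) φ r x‖ ≤ 1 + 4 * Module.finrank ℝ E * max R 0 / r := by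
  have h1 := AV_close (vol := vol) h diffC_id (fun y => (disp_bound h hR y).2) hr x
  rw [AV_id] at h1
  have h2 : ‖ContinuousLinearMap.id ℝ E‖ ≤ 1 := ContinuousLinearMap.norm_id_le
  have h3 : AV (unif vol) φ r x = ContinuousLinearMap.id ℝ E +
      (AV (unif vol) φ r x - ContinuousLinearMap.id ℝ E) := by abel
  rw [h3]
  refine (norm_add_le _ _).trans (add_le_add h2 (h1.trans (le_of_eq ?_)))
  ring

/-- a modulus of continuity -/
theorem equi {M θ r₀ : ℝ} {φ : E → E} (h : Cls vol M θ r₀ φ) {R : ℝ}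
    (hR : ∀ x, R < ‖x‖ → φ x = x) {r : ℝ} (h0 : 0 < r) (h1 : r ≤ r₀) (x y : E) :
    ‖φ x - φ y‖ ≤ 2 * θ * r + (1 + 4 * Module.finrank ℝ E * max R 0 / r) * ‖x - y‖ := by
  have h2 : ‖HM (unif vol) φ r x - HM (unif vol) φ r y‖ ≤
      (1 + 4 * Module.finrank ℝ E * max R 0 / r) * ‖x - y‖ :=
    convex_univ.norm_image_sub_le_of_norm_hasFDerivWithin_le
      (fun z _ => (HM_fderiv (unif_BS vol) (h.diff.smooth.of_le (by simp)) r z).hasFDerivWithinAt)
      (fun z _ => AV_bound h.diff hR h0 z) (mem_univ y) (mem_univ x)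
  have h3 := dist_HM h h0 h1 x
  have h4 := dist_HM h h0 h1 y
  have h5 : φ x - φ y = -(HM (unif vol) φ r x - φ x) +
      ((HM (unif vol) φ r x - HM (unif vol) φ r y) + (HM (unif vol) φ r y - φ y)) := by abel
  rw [h5]
  refine (norm_add_le _ _).trans ?_
  rw [norm_neg]
  have h6 := norm_add_le (HM (unif vol) φ r x - HM (unif vol) φ r y) (HM (unif vol) φ r y - φ y)
  linarith

/-- **Finitely many isotopy classes.** -/
theorem finite_classes {M θ r₀ : ℝ} (hM : 0 ≤ M) (hr : 0 < r₀) (hθ : M * θ < 1) (R : ℝ) :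
    ∃ (N : ℕ) (Ψ : Fin N → E → E),
      (∀ i, Cls vol M θ r₀ (Ψ i) ∧ ∀ x, R < ‖x‖ → Ψ i x = x) ∧
      ∀ φ : E → E, Cls vol M θ r₀ φ → (∀ x, R < ‖x‖ → φ x = x) → ∃ i, IsotopicC φ (Ψ i) := by
  classical
  have : ProperSpace E := FiniteDimensional.proper_real E
  by_cases hθ0 : 0 ≤ θ
  swap
  · exact ⟨0, fun i => i.elim0, fun i => i.elim0, fun φ hφ _ => absurd (hφ.nonneg hr) hθ0⟩
  set n : ℝ := (Module.finrank ℝ E : ℝ) with hn
  have hn0 : 0 ≤ n := Nat.cast_nonneg _
  set m : ℝ := max R 0 with hm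
  have hm0 : 0 ≤ m := le_max_right _ _
  -- the admissible distance
  obtain ⟨ε, hε, hε1⟩ : ∃ ε : ℝ, 0 < ε ∧ 2 * n * ε * M < r₀ * (1 - M * θ) := by
    refine ⟨r₀ * (1 - M * θ) / (2 * n * M + 1), ?_, ?_⟩
    · have : 0 < 1 - M * θ := by linarith
      positivity
    · have h1 : 0 < 1 - M * θ := by linarith
      have h2 : 0 < r₀ * (1 - M * θ) := by positivity
      have h3 : 2 * n * (r₀ * (1 - M * θ) / (2 * n * M + 1)) * M =
          r₀ * (1 - M * θ) * (2 * n * M / (2 * n * M + 1)) := by ring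
      rw [h3]
      have h4 : 2 * n * M / (2 * n * M + 1) < 1 := by
        rw [div_lt_one (by positivity)]
        linarith
      exact mul_lt_of_lt_one_right h2 h4
  set r : ℝ := min r₀ (ε / (8 * (2 * θ + 1))) with hrdef
  have hr1 : 0 < r := lt_min hr (by positivity)
  have hr2 : r ≤ r₀ := min_le_left _ _
  have hr3 : 2 * θ * r ≤ ε / 8 := by
    have h1 : r ≤ ε / (8 * (2 * θ + 1)) := min_le_right _ _
    rw [le_div_iff₀ (by positivity)] at h1
    nlinarith
  set L : ℝ := 1 + 4 * n * m / r with hL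
  have hL0 : 0 < L := by positivity
  set δ : ℝ := ε / (8 * L) with hδ
  have hδ0 : 0 < δ := by positivity
  have hequi : ∀ φ : E → E, Cls vol M θ r₀ φ → (∀ x, R < ‖x‖ → φ x = x) → ∀ x y : E,
      ‖x - y‖ ≤ δ → ‖φ x - φ y‖ ≤ ε / 4 := by
    intro φ hφ hR x y hxy
    have h1 := equi hφ hR hr1 hr2 x y
    have h2 : L * ‖x - y‖ ≤ ε / 8 := by
      have := mul_le_mul_of_nonneg_left hxy hL0.le
      have h3 : L * δ = ε / 8 := by
        rw [hδ]
        field_simp
      linarith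
    linarith
  obtain ⟨X, hX⟩ := (isCompact_closedBall (0 : E) R).finite_cover_balls hδ0
  obtain ⟨Y, hY⟩ := (isCompact_closedBall (0 : E) R).finite_cover_balls
    (show (0 : ℝ) < ε / 8 by positivity)
  have hXf := hX.2.1
  have hYf := hY.2.1
  -- codes
  let 𝒟 : Set (E → E) := {φ | Cls vol M θ r₀ φ ∧ ∀ x, R < ‖x‖ → φ x = x}
  have hcode : ∀ φ : E → E, φ ∈ 𝒟 → ∀ x : X, ∃ y : E, y ∈ Y ∧ ‖φ x - y‖ < ε / 8 := by
    intro φ hφ x
    have hx : ‖(x : E)‖ ≤ R := by simpa using hX.1 x.2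
    have h1 : φ x ∈ closedBall (0 : E) R := by
      simpa using (disp_bound hφ.1.diff hφ.2 x).1 hx
    obtain ⟨y, hy, hy2⟩ := mem_iUnion₂.1 (hY.2.2 h1)
    exact ⟨y, hy, by simpa [dist_eq_norm] using hy2⟩
  choose! code hcode using hcode
  have hfinX : Finite X := hXf.to_subtype
  have hsame : ∀ φ ∈ 𝒟, ∀ ψ ∈ 𝒟, code φ = code ψ → IsotopicC φ ψ := by
    intro φ hφ ψ hψ he
    refine close hM hr hφ.1 hψ.1 hθ (fun x => ?_) hε1
    by_cases hx : ‖x‖ ≤ R
    · have h1 : x ∈ closedBall (0 : E) R := by simpa using hx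
      obtain ⟨y, hy, hy2⟩ := mem_iUnion₂.1 (hX.2.2 h1)
      have hxy : ‖x - y‖ ≤ δ := by
        rw [mem_ball, dist_eq_norm] at hy2
        exact hy2.le
      have h2 := hequi φ hφ.1 hφ.2 x y hxy
      have h3 := hequi ψ hψ.1 hψ.2 x y hxy
      have h4 := (hcode φ hφ ⟨y, hy⟩).2
      have h5 := (hcode ψ hψ ⟨y, hy⟩).2
      rw [← he] at h5
      have h6 : φ x - ψ x = (φ x - φ y) - (ψ x - ψ y) +
          ((φ y - code φ ⟨y, hy⟩) - (ψ y - code φ ⟨y, hy⟩)) := by abel
      rw [h6]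
      have h7 := norm_add_le ((φ x - φ y) - (ψ x - ψ y))
        ((φ y - code φ ⟨y, hy⟩) - (ψ y - code φ ⟨y, hy⟩))
      have h8 := norm_sub_le (φ x - φ y) (ψ x - ψ y)
      have h9 := norm_sub_le (φ y - code φ ⟨y, hy⟩) (ψ y - code φ ⟨y, hy⟩)
      linarith
    · rw [hφ.2 x (not_le.1 hx), hψ.2 x (not_le.1 hx), sub_self, norm_zero]
      exact hε.le
  -- representatives
  have hfin : (code '' 𝒟).Finite := by
    refine (Set.Finite.pi (t := fun _ : X => Y) fun _ => hYf).subset ?_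
    rintro _ ⟨φ, hφ, rfl⟩ x _
    exact (hcode φ hφ x).1
  have := hfin.to_subtype
  obtain ⟨N, e⟩ := Finite.exists_equiv_fin (code '' 𝒟)
  obtain ⟨e⟩ := e
  choose Ψ hΨ hΨc using fun c : code '' 𝒟 => c.2
  refine ⟨N, fun i => Ψ (e.symm i), fun i => hΨ _, fun φ hφ hR => ?_⟩
  have hφ' : φ ∈ 𝒟 := ⟨hφ, hR⟩
  refine ⟨e ⟨code φ, φ, hφ', rfl⟩, ?_⟩
  refine hsame φ hφ' _ (hΨ _) ?_
  rw [hΨc, Equiv.symm_apply_apply]

end Run7.h7.Avg
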