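import Pool.Agent.Run7.h7.AvgBij

/-!
Averages of maps along measures with bounded support, and the isotopy between two compactly
supported diffeomorphisms given by the averages (the path is the one used by helper233 for
symplectomorphisms, `Run7/h233/EC`).
-/

set_option autoImplicit false

open scoped ContDiff Topology
open MeasureTheory Set Metric Function

namespace Run7.h7.Avg

variable {E : Type} [NormedAddCommGroup E] [NormedSpace ℝ E] [FiniteDimensional ℝ E]
  [MeasurableSpace E] [BorelSpace E]

/-- probability measures with bounded support -/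
structure BS (μ : Measure E) (S : ℝ) : Prop where
  prob : IsProbabilityMeasure μ
  pos : 0 ≤ S
  supp : ∀ᵐ z ∂μ, ‖z‖ ≤ S

/-- the average of `h` over the points `x + s • z` -/
noncomputable def HM {F : Type} [NormedAddCommGroup F] [NormedSpace ℝ F] (μ : Measure E)
    (h : E → F) (s : ℝ) (x : E) : F :=
  ∫ z, h (x + s • z) ∂μ

section

variable {μ : Measure E} {S : ℝ} (hμ : BS μ S)

include hμ in
theorem BS.int {F : Type} [NormedAddCommGroup F] {g : E → F} (hg : Continuous g) :
    Integrable g μ := by
  have := hμ.prob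
  have : ProperSpace E := FiniteDimensional.proper_real E
  obtain ⟨C, hC⟩ := (isCompact_closedBall (0 : E) S).exists_bound_of_continuousOn
    hg.continuousOn
  refine Integrable.of_bound hg.aestronglyMeasurable C ?_
  filter_upwards [hμ.supp] with z hz
  exact hC z (by simpa using hz)

include hμ in
theorem HM_smooth {h : E → E} (hh : ContDiff ℝ ∞ h) :
    ContDiff ℝ ∞ (fun p : ℝ × E => HM μ h p.1 p.2) := by
  have := hμ.prob
  have : ProperSpace E := FiniteDimensional.proper_real E
  let χ : ContDiffBump (0 : E) := ⟨S + 1, S + 2, by linarith [hμ.pos], by linarith⟩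
  have hg : ContDiff ℝ ∞
      (fun q : (ℝ × E) × E => χ q.2 • h (q.1.2 + q.1.1 • (-q.2))) := by
    have e1 : ContDiff ℝ ∞ (fun q : (ℝ × E) × E => χ q.2) :=
      χ.contDiff.comp contDiff_snd
    have e3 : ContDiff ℝ ∞ (fun q : (ℝ × E) × E => q.1.1 • (-q.2)) := by
      have := (contDiff_fst.fst : ContDiff ℝ ∞ (fun q : (ℝ × E) × E => q.1.1)).smul
        (contDiff_snd.neg : ContDiff ℝ ∞ (fun q : (ℝ × E) × E => -q.2))
      exact this
    have e2 : ContDiff ℝ ∞ (fun q : (ℝ × E) × E => h (q.1.2 + q.1.1 • (-q.2))) :=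
      hh.comp (contDiff_fst.snd.add e3)
    exact e1.smul e2
  have h1 := contDiffOn_convolution_right_with_param (𝕜 := ℝ) (μ := μ)
    (n := (⊤ : ℕ∞)) (f := fun _ : E => (1 : ℝ)) (ContinuousLinearMap.lsmul ℝ ℝ)
    (g := fun (p : ℝ × E) (u : E) => χ u • h (p.2 + p.1 • (-u))) (s := univ)
    isOpen_univ χ.hasCompactSupport.isCompact
    (by
      intro p u _ hu
      have : χ u = 0 := image_eq_zero_of_notMem_tsupport hu
      simp [this])
    (locallyIntegrable_const _) (by
      apply ContDiff.contDiffOn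
      exact hg)
  rw [univ_prod_univ, contDiffOn_univ] at h1
  have h2 : ContDiff ℝ ∞ (fun p : ℝ × E => ((p, (0 : E)) : (ℝ × E) × E)) :=
    contDiff_id.prodMk contDiff_const
  have h3 := h1.comp h2
  convert h3 using 1
  funext p
  simp only [HM, Function.comp, convolution_def, ContinuousLinearMap.lsmul_apply, one_smul]
  refine integral_congr_ae ?_
  filter_upwards [hμ.supp] with z hz
  have h4 : χ (0 - z) = 1 := by
    apply χ.one_of_mem_closedBall
    rw [mem_closedBall, dist_zero_right, zero_sub, norm_neg]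
    show ‖z‖ ≤ S + 1
    linarith
  rw [h4, one_smul]
  simp

include hμ in
/-- differentiation under the integral -/
theorem HM_fderiv {F : Type} [NormedAddCommGroup F] [NormedSpace ℝ F] {h : E → F}
    (hh : ContDiff ℝ 1 h) (s : ℝ) (x : E) :
    HasFDerivAt (HM μ h s) (HM μ (fderiv ℝ h) s x) x := by
  have := hμ.prob
  have : ProperSpace E := FiniteDimensional.proper_real E
  have hd : Differentiable ℝ h := hh.differentiable (by simp)
  have hc : Continuous (fderiv ℝ h) := hh.continuous_fderiv (by simp)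
  have hK : IsCompact (closedBall x 1 ×ˢ closedBall (0 : E) S) :=
    (isCompact_closedBall x 1).prod (isCompact_closedBall _ _)
  have hcc : Continuous (fun z : E × E => fderiv ℝ h (z.1 + s • z.2)) :=
    hc.comp (continuous_fst.add (continuous_snd.const_smul s))
  obtain ⟨C, hC⟩ := hK.exists_bound_of_continuousOn hcc.continuousOn
  have hc1 : ∀ x : E, Continuous (fun y : E => h (x + s • y)) := fun x =>
    hd.continuous.comp (by fun_prop)
  have hc2 : ∀ x : E, Continuous (fun y : E => fderiv ℝ h (x + s • y)) := fun x =>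
    hc.comp (by fun_prop)
  refine hasFDerivAt_integral_of_dominated_of_fderiv_le (s := ball x 1)
    (ball_mem_nhds x one_pos)
    (F := fun x y => h (x + s • y))
    (F' := fun x y => fderiv ℝ h (x + s • y)) (bound := fun _ => C)
    (Filter.Eventually.of_forall fun x => (hμ.int (hc1 x)).aestronglyMeasurable)
    (hμ.int (hc1 x)) (hμ.int (hc2 x)).aestronglyMeasurable
    ?_ (integrable_const C)
    (Filter.Eventually.of_forall fun y z _ => ?_)
  · filter_upwards [hμ.supp] with y hy z hz
    exact hC (z, y) ⟨ball_subset_closedBall hz, by simpa using hy⟩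
  · have h1 : HasFDerivAt h (fderiv ℝ h (z + s • y)) (z + s • y) := (hd _).hasFDerivAt
    have h2 : HasFDerivAt (fun z : E => z + s • y) (ContinuousLinearMap.id ℝ E) z :=
      (hasFDerivAt_id z).add_const _
    have h3 := h1.comp z h2
    rw [ContinuousLinearMap.comp_id] at h3
    exact h3

include hμ in
theorem HM_zero {F : Type} [NormedAddCommGroup F] [NormedSpace ℝ F] [CompleteSpace F] (h : E → F)
    (x : E) : HM μ h 0 x = h x := by
  have := hμ.prob
  unfold HM
  simp

end

/-- compactly supported diffeomorphisms -/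
structure DiffC (φ : E → E) : Prop where
  smooth : ContDiff ℝ ∞ φ
  inv : ∃ g : E → E, ContDiff ℝ ∞ g ∧ LeftInverse g φ ∧ RightInverse g φ
  supp : ∃ R : ℝ, ∀ x, R < ‖x‖ → φ x = x

/-- smooth isotopies with compact support -/
def IsotopicC (φ ψ : E → E) : Prop :=
  ∃ (F : ℝ × E → E) (R : ℝ), ContDiff ℝ ∞ F ∧ (∀ t x, R < ‖x‖ → F (t, x) = x) ∧
    (∀ t ∈ Icc (0 : ℝ) 1, DiffC (fun x => F (t, x))) ∧ (∀ x, F (0, x) = φ x) ∧
    ∀ x, F (1, x) = ψ x

omit [MeasurableSpace E] [BorelSpace E] in
/-- bijective smooth maps with nonsingular differentials are diffeomorphisms -/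
theorem inv_smooth {f : E → E} (hf : ContDiff ℝ ∞ f) (hb : Bijective f)
    (hinj : ∀ x v, fderiv ℝ f x v = 0 → v = 0) :
    ∃ g : E → E, ContDiff ℝ ∞ g ∧ LeftInverse g f ∧ RightInverse g f := by
  have : CompleteSpace E := FiniteDimensional.complete ℝ E
  let e : ∀ x, E ≃L[ℝ] E := fun x =>
    (LinearEquiv.ofInjectiveEndo (fderiv ℝ f x : E →ₗ[ℝ] E) (by
      rw [← LinearMap.ker_eq_bot, LinearMap.ker_eq_bot']
      exact hinj x)).toContinuousLinearEquiv
  have he : ∀ x, (e x : E →L[ℝ] E) = fderiv ℝ f x := fun x => by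
    ext v
    rfl
  have hfd : ∀ x, HasFDerivAt f (e x : E →L[ℝ] E) x := fun x => by
    rw [he]
    exact ((hf.differentiable (by simp)) x).hasFDerivAt
  have hs : ∀ x, HasStrictFDerivAt f (e x : E →L[ℝ] E) x := fun x => by
    rw [he]
    exact hf.contDiffAt.hasStrictFDerivAt (by simp)
  obtain ⟨g, hg1, hg2⟩ := Function.bijective_iff_has_inverse.1 hb
  have hopen : IsOpenMap f := isOpenMap_iff_nhds_le.2 fun x => by
    exact ((hs x).map_nhds_eq_of_equiv).ge
  have hgc : Continuous g := by
    rw [continuous_def]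
    intro U hU
    have : g ⁻¹' U = f '' U := by
      ext y
      constructor
      · intro hy
        exact ⟨g y, hy, hg2 y⟩
      · rintro ⟨x, hx, rfl⟩
        show g (f x) ∈ U
        rw [hg1 x]
        exact hx
    rw [this]
    exact hopen U hU
  let H : OpenPartialHomeomorph E E :=
    (Homeomorph.mk (Equiv.mk f g hg1 hg2) hf.continuous hgc).toOpenPartialHomeomorph
  refine ⟨g, contDiff_iff_contDiffAt.2 fun y => ?_, hg1, hg2⟩
  exact H.contDiffAt_symm (n := ∞) (a := y) (mem_univ _) (hfd (g y)) hf.contDiffAt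

omit [MeasurableSpace E] [BorelSpace E] in
theorem DiffC.bij {φ : E → E} (h : DiffC φ) : Bijective φ := by
  obtain ⟨g, -, h1, h2⟩ := h.inv
  exact Function.bijective_iff_has_inverse.2 ⟨g, h1, h2⟩

omit [MeasurableSpace E] [BorelSpace E] in
theorem DiffC.inj {φ : E → E} (h : DiffC φ) (x v : E) (hv : fderiv ℝ φ x v = 0) : v = 0 := by
  obtain ⟨g, hg, h1, h2⟩ := h.inv
  have h3 := (((hg.differentiable (by simp)) (φ x)).hasFDerivAt).comp x
    (((h.smooth.differentiable (by simp)) x).hasFDerivAt)
  have h4 : g ∘ φ = id := funext h1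
  rw [h4] at h3
  have h5 := h3.unique (hasFDerivAt_id x)
  have h6 := congrArg (fun L : E →L[ℝ] E => L v) h5
  simp only [ContinuousLinearMap.comp_apply, hv, map_zero, ContinuousLinearMap.id_apply] at h6
  exact h6.symm

end Run7.h7.Avg
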