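import Pool.Agent.Run7.h7.AvgPoin

/-!
Diffeomorphisms which are isotopic to the identity: measures without atoms, and the weighted mean
oscillation (the concentration lemma follows helper233, `Run7/h233/EC/Far`).
-/

set_option autoImplicit false
set_option linter.unusedSectionVars false

open scoped ContDiff Topology Pointwise
open MeasureTheory Set Metric Function Filter

namespace Run7.h7.Avg

variable {E : Type} [NormedAddCommGroup E] [NormedSpace ℝ E] [FiniteDimensional ℝ E]
  [MeasurableSpace E] [BorelSpace E]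

/-- measures without atoms and with bounded support are not concentrated on small balls -/
theorem conc {μ : Measure E} {S : ℝ} (hμ : BS μ S) (hna : ∀ z : E, μ {z} = 0) {ε : ℝ}
    (hε : 0 < ε) : ∃ δ : ℝ, 0 < δ ∧ ∀ y : E, μ.real (closedBall y δ) ≤ ε := by
  have := hμ.prob
  have : ProperSpace E := FiniteDimensional.proper_real E
  have h1 : ∀ z : E, ∃ U : Set E, {z} ⊆ U ∧ IsOpen U ∧ μ U < ENNReal.ofReal ε := by
    intro z
    obtain ⟨U, hU, hUo, hlt⟩ := Set.exists_isOpen_lt_of_lt {z} (ENNReal.ofReal ε)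
      (by rw [hna]; exact ENNReal.ofReal_pos.2 hε : μ {z} < ENNReal.ofReal ε)
    exact ⟨U, hU, hUo, hlt⟩
  choose U hU hUo hUlt using h1
  obtain ⟨δ, hδ, hleb⟩ := lebesgue_number_lemma_of_metric
    (isCompact_closedBall (0 : E) (S + 1)) hUo
    (fun z _ => mem_iUnion.2 ⟨z, hU z rfl⟩)
  refine ⟨min (δ / 2) (1 / 2), by positivity, fun y => ?_⟩
  by_cases hy : y ∈ closedBall (0 : E) (S + 1)
  · obtain ⟨i, hi⟩ := hleb y hy
    have h2 : closedBall y (min (δ / 2) (1 / 2)) ⊆ U i :=
      (closedBall_subset_ball (lt_of_le_of_lt (min_le_left _ _) (by linarith))).trans hi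
    have h3 := (measure_mono h2).trans (hUlt i).le
    rw [Measure.real]
    exact ENNReal.toReal_le_of_le_ofReal hε.le h3
  · have h2 : μ (closedBall y (min (δ / 2) (1 / 2))) = 0 := by
      refine measure_mono_null ?_ hμ.supp
      intro z hz hzS
      apply hy
      rw [mem_closedBall, dist_zero_right]
      rw [mem_closedBall, dist_eq_norm] at hz
      have h3 : ‖z - y‖ ≤ 1 / 2 := hz.trans (min_le_right _ _)
      have h4 : ‖z‖ ≤ S := hzS
      have h5 := norm_sub_norm_le y z
      rw [norm_sub_rev] at h5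
      linarith
    rw [Measure.real, h2]
    simp [hε.le]

/-- at large scales the averages of a compactly supported map are small -/
theorem far {μ : Measure E} {S : ℝ} (hμ : BS μ S) (hna : ∀ z : E, μ {z} = 0)
    {F : Type} [NormedAddCommGroup F] [NormedSpace ℝ F] {h : E → F} (hc : Continuous h) {m : ℝ}
    (hm : ∀ x, m < ‖x‖ → h x = 0) {ε : ℝ} (hε : 0 < ε) :
    ∃ R : ℝ, 0 < R ∧ ∀ x, ‖HM μ h R x‖ ≤ ε := by
  have := hμ.prob
  have : ProperSpace E := FiniteDimensional.proper_real E
  obtain ⟨B, hB⟩ := (isCompact_closedBall (0 : E) m).exists_bound_of_continuousOn hc.continuousOn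
  have hB' : ∀ x, ‖h x‖ ≤ max B 0 := by
    intro x
    rcases le_or_gt ‖x‖ m with hx | hx
    · exact (hB x (by simpa using hx)).trans (le_max_left _ _)
    · rw [hm x hx, norm_zero]
      exact le_max_right _ _
  set C : ℝ := max B 0 with hC
  have hC0 : 0 ≤ C := le_max_right _ _
  obtain ⟨δ, hδ, hcδ⟩ := conc hμ hna (ε := ε / (C + 1)) (by positivity)
  set R : ℝ := (|m| + 1) / δ with hR
  have hR0 : 0 < R := by positivity
  refine ⟨R, hR0, fun x => ?_⟩
  have hpt : ∀ z : E, ‖h (x + R • z)‖ ≤
      (closedBall (-(R⁻¹ • x)) δ).indicator (fun _ => C) z := by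
    intro z
    by_cases hz : z ∈ closedBall (-(R⁻¹ • x)) δ
    · rw [indicator_of_mem hz]
      exact hB' _
    · rw [indicator_of_notMem hz]
      have h1 : h (x + R • z) = 0 := by
        apply hm
        rw [mem_closedBall, not_le, dist_eq_norm] at hz
        have h2 : x + R • z = R • (z - -(R⁻¹ • x)) := by
          rw [sub_neg_eq_add, smul_add, smul_smul, mul_inv_cancel₀ hR0.ne', one_smul, add_comm]
        rw [h2, norm_smul, Real.norm_of_nonneg hR0.le]
        have h3 : R * δ = |m| + 1 := by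
          rw [hR]
          field_simp
        have h4 := le_abs_self m
        nlinarith
      rw [h1, norm_zero]
  have hint : Integrable ((closedBall (-(R⁻¹ • x)) δ).indicator (fun _ : E => C)) μ :=
    (integrable_const C).indicator measurableSet_closedBall
  calc ‖HM μ h R x‖
      ≤ ∫ z, (closedBall (-(R⁻¹ • x)) δ).indicator (fun _ : E => C) z ∂μ :=
        norm_integral_le_of_norm_le hint (Filter.Eventually.of_forall hpt)
    _ = μ.real (closedBall (-(R⁻¹ • x)) δ) * C := by
        rw [integral_indicator measurableSet_closedBall, setIntegral_const, smul_eq_mul]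
    _ ≤ ε / (C + 1) * C := mul_le_mul_of_nonneg_right (hcδ _) hC0
    _ ≤ ε := by
        rw [div_mul_eq_mul_div, div_le_iff₀ (by positivity)]
        nlinarith

/-- the average differentials of the identity -/
theorem AV_id' {μ : Measure E} {S : ℝ} (hμ : BS μ S) (r : ℝ) (x : E) :
    AV μ (fun x : E => x) r x = ContinuousLinearMap.id ℝ E := by
  have := hμ.prob
  have : CompleteSpace E := FiniteDimensional.complete ℝ E
  have h1 : ∀ y : E, fderiv ℝ (fun x : E => x) y = ContinuousLinearMap.id ℝ E := fun y =>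
    (hasFDerivAt_id y).fderiv
  unfold AV HM
  simp_rw [h1]
  simp

/-- **Measures without atoms.** -/
theorem null_measure {μ : Measure E} {S : ℝ} (hμ : BS μ S) (hna : ∀ z : E, μ {z} = 0)
    {φ : E → E} (hφ : DiffC φ) (h : ∀ r, 0 < r → ∀ x v, AV μ φ r x v = 0 → v = 0) :
    IsotopicC φ (fun x => x) := by
  obtain ⟨m, hm⟩ := hφ.supp
  have hm' : ∀ x, max m 0 < ‖x‖ → fderiv ℝ (disp φ) x = 0 := by
    intro x hx
    have h1 : disp φ =ᶠ[𝓝 x] fun _ => (0 : E) := by
      have : {y : E | m < ‖y‖} ∈ 𝓝 x :=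
        (isOpen_lt continuous_const continuous_norm).mem_nhds
          (lt_of_le_of_lt (le_max_left _ _) hx)
      filter_upwards [this] with y hy
      rw [disp, hm y hy, sub_self]
    rw [h1.fderiv_eq]
    simp
  obtain ⟨R, hR, hfar⟩ := far hμ hna ((disp_smooth hφ.smooth).continuous_fderiv (by simp))
    hm' (ε := 1 / 2) (by norm_num)
  refine two hμ hφ diffC_id hR.le (fun r h0 _ x v hv => h r h0 x v hv)
    (fun r _ _ x v hv => ?_) (fun t ht0 ht1 x v hv => ?_)
  · rw [AV_id' hμ] at hv
    exact hv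
  · rw [AV_id' hμ, AV_eq hμ hφ.smooth] at hv
    simp only [_root_.add_apply, ContinuousLinearMap.id_apply] at hv
    have h2 : v = -((1 - t) • HM μ (fderiv ℝ (disp φ)) R x v) := by
      rw [smul_add, sub_smul, one_smul] at hv
      have h3 : v + (1 - t) • HM μ (fderiv ℝ (disp φ)) R x v = 0 := by
        rw [← hv]
        abel
      exact eq_neg_of_add_eq_zero_left h3
    have h4 : ‖v‖ ≤ 1 / 2 * ‖v‖ := by
      conv_lhs => rw [h2]
      rw [norm_neg, norm_smul, Real.norm_of_nonneg (by linarith)]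
      have h5 := (HM μ (fderiv ℝ (disp φ)) R x).le_opNorm v
      have h6 := mul_le_mul_of_nonneg_right (hfar x) (norm_nonneg v)
      have h7 : (1 - t) * ‖HM μ (fderiv ℝ (disp φ)) R x v‖ ≤
          1 * ‖HM μ (fderiv ℝ (disp φ)) R x v‖ :=
        mul_le_mul_of_nonneg_right (by linarith) (norm_nonneg _)
      linarith
    by_contra hne
    have h8 := norm_pos_iff.2 hne
    linarith

variable {vol : Measure E} [vol.IsAddHaarMeasure]

theorem unif_na (hd : Module.finrank ℝ E ≠ 0) (z : E) : unif vol {z} = 0 := by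
  have : Nontrivial E := Module.nontrivial_of_finrank_pos (R := ℝ) (Nat.pos_of_ne_zero hd)
  rw [unif, Measure.smul_apply, smul_eq_mul]
  have h1 : vol.restrict (ball 0 1) {z} = 0 := by
    refine le_antisymm ((Measure.restrict_apply_le _ _).trans ?_) bot_le
    rw [measure_singleton]
  rw [h1, mul_zero]

/-- the inverse of the differential is continuous -/
theorem inv_cont {φ : E → E} (h : DiffC φ) :
    Continuous (fun y => ‖(fderiv ℝ φ y).inverse‖) := by
  have : CompleteSpace E := FiniteDimensional.complete ℝ E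
  have h1 := Pool.Agent.W5h49.EC.inverse_smooth (E := E) (F := E) rfl
    (h.smooth.fderiv_right (m := ∞) (by simp)) (fun y v => h.inj y v)
  exact h1.continuous.norm

/-- **Weighted mean oscillation.** -/
theorem weighted (hd : Module.finrank ℝ E ≠ 0) {φ : E → E} (hφ : DiffC φ)
    (h : ∀ r, 0 < r → ∀ x, ⨍ y in ball x r,
      ‖fderiv ℝ φ y - ⨍ z in ball x r, fderiv ℝ φ z ∂vol‖ * ‖(fderiv ℝ φ y).inverse‖ ∂vol < 1) :
    IsotopicC φ (fun x => x) := by
  have hν := unif_BS vol
  have hp := hν.prob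
  have : CompleteSpace E := FiniteDimensional.complete ℝ E
  refine null_measure hν (unif_na hd) hφ fun r hr x v hv => ?_
  have h1 := h r hr x
  rw [← HM_unif vol _ hr] at h1
  set A := AV (unif vol) φ r x with hA
  have hAe : ⨍ z in ball x r, fderiv ℝ φ z ∂vol = A := (HM_unif vol _ hr x).symm
  rw [hAe] at h1
  have hint : Integrable (fun z => ‖fderiv ℝ φ (x + r • z) - A‖ *
      ‖(fderiv ℝ φ (x + r • z)).inverse‖) (unif vol) := by
    refine hν.int ?_
    have c1 : Continuous (fun z : E => x + r • z) := by fun_prop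
    exact (((fd_cont hφ).comp c1).sub continuous_const).norm.mul ((inv_cont hφ).comp c1)
  obtain ⟨z, hz⟩ := exists_le_integral hint
  have h2 : ‖fderiv ℝ φ (x + r • z) - A‖ * ‖(fderiv ℝ φ (x + r • z)).inverse‖ < 1 :=
    lt_of_le_of_lt hz h1
  set y := x + r • z with hy
  have h3 : v = (fderiv ℝ φ y).inverse (fderiv ℝ φ y v) := by
    obtain ⟨g, hg, hg1, hg2⟩ := hφ.inv
    have e : (fderiv ℝ φ y).IsInvertible := by
      refine ⟨(LinearEquiv.ofInjectiveEndo (fderiv ℝ φ y : E →ₗ[ℝ] E) (by
        rw [← LinearMap.ker_eq_bot, LinearMap.ker_eq_bot']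
        exact fun w hw => hφ.inj y w hw)).toContinuousLinearEquiv, ?_⟩
      ext w
      rfl
    obtain ⟨e, he⟩ := e
    rw [← he, ContinuousLinearMap.inverse_equiv]
    simp
  have h4 : fderiv ℝ φ y v = (fderiv ℝ φ y - A) v := by
    rw [_root_.sub_apply, hv, sub_zero]
  have h5 : ‖v‖ ≤ (‖fderiv ℝ φ y - A‖ * ‖(fderiv ℝ φ y).inverse‖) * ‖v‖ := by
    conv_lhs => rw [h3]
    refine (ContinuousLinearMap.le_opNorm _ _).trans ?_
    rw [h4]
    have := (fderiv ℝ φ y - A).le_opNorm v
    have h6 := mul_le_mul_of_nonneg_left this (norm_nonneg (fderiv ℝ φ y).inverse)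
    linarith
  by_contra hne
  have h8 := norm_pos_iff.2 hne
  nlinarith

end Run7.h7.Avg
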