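import Pool.Agent.Run7.h7.AvgTwo

/-!
Averages over balls: the uniform measure on the unit ball, the bound for the averages of a
differential by the supremum of the map, and the lower bound for averaged differentials with small
mean oscillation.
-/

set_option autoImplicit false
set_option linter.unusedSectionVars false

open scoped ContDiff Topology Pointwise
open MeasureTheory Set Metric Function Filter

namespace Run7.h7.Avg

variable {E : Type} [NormedAddCommGroup E] [NormedSpace ℝ E] [FiniteDimensional ℝ E]
  [MeasurableSpace E] [BorelSpace E] (vol : Measure E) [vol.IsAddHaarMeasure]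

/-- the uniform probability measure on the unit ball -/
noncomputable def unif : Measure E := (vol (ball 0 1))⁻¹ • vol.restrict (ball 0 1)

theorem ball_pos : 0 < vol (ball (0 : E) 1) := measure_ball_pos vol 0 one_pos

theorem ball_fin : vol (ball (0 : E) 1) ≠ ⊤ := measure_ball_lt_top.ne

theorem unif_BS : BS (unif vol) 1 := by
  refine ⟨⟨?_⟩, zero_le_one, ?_⟩
  · rw [unif, Measure.smul_apply, Measure.restrict_apply_univ, smul_eq_mul,
      ENNReal.inv_mul_cancel (ball_pos vol).ne' (ball_fin vol)]
  · refine Measure.ae_smul_measure ?_ _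
    refine (ae_restrict_mem measurableSet_ball).mono fun z hz => ?_
    rw [mem_ball, dist_zero_right] at hz
    exact hz.le

theorem real_ball {r : ℝ} (hr : 0 < r) (x : E) :
    vol.real (ball x r) = r ^ Module.finrank ℝ E * vol.real (ball (0 : E) 1) := by
  rw [Measure.real, Measure.addHaar_ball_of_pos vol x hr, ENNReal.toReal_mul,
    ENNReal.toReal_ofReal (by positivity), Measure.real]

theorem real_ball_pos : 0 < vol.real (ball (0 : E) 1) :=
  ENNReal.toReal_pos (ball_pos vol).ne' (ball_fin vol)

/-- integrals over the unit ball are averages over balls -/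
theorem HM_unif {F : Type} [NormedAddCommGroup F] [NormedSpace ℝ F] (h : E → F) {r : ℝ}
    (hr : 0 < r) (x : E) : HM (unif vol) h r x = ⨍ y in ball x r, h y ∂vol := by
  have e1 : HM (unif vol) h r x = ⨍ z in ball (0 : E) 1, h (x + r • z) ∂vol :=
    (setAverage_eq' vol (fun z => h (x + r • z)) (ball (0 : E) 1)).symm
  have e2 : ∫ z in ball (0 : E) 1, h (x + r • z) ∂vol =
      (r ^ Module.finrank ℝ E)⁻¹ • ∫ y in ball x r, h y ∂vol := by
    rw [Measure.setIntegral_comp_smul_of_pos vol (fun z => h (x + z)) (ball (0 : E) 1) hr]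
    have e3 : r • ball (0 : E) 1 = ball (0 : E) r := by
      rw [_root_.smul_ball hr.ne', smul_zero, Real.norm_of_nonneg hr.le, mul_one]
    rw [e3]
    congr 1
    have e4 : (fun z : E => x + z) ⁻¹' ball x r = ball (0 : E) r := by simp
    rw [← e4]
    exact (measurePreserving_add_left vol x).setIntegral_preimage_emb
      (MeasurableEquiv.addLeft x).measurableEmbedding h (ball x r)
  rw [e1, setAverage_eq, setAverage_eq, e2, real_ball vol hr, smul_smul, mul_inv, mul_comm]

/-- averages of bounded maps over balls are Lipschitz -/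
theorem HM_lip {h : E → E} (hc : Continuous h) {H : ℝ} (hH : ∀ y, ‖h y‖ ≤ H) {r : ℝ} (hr : 0 < r)
    (x x' : E) : ‖HM (unif vol) h r x' - HM (unif vol) h r x‖ ≤
      2 * H * (((r + ‖x' - x‖) ^ Module.finrank ℝ E - r ^ Module.finrank ℝ E) /
        r ^ Module.finrank ℝ E) := by
  have : ProperSpace E := FiniteDimensional.proper_real E
  set d := Module.finrank ℝ E with hd
  set s := ‖x' - x‖ with hs
  have hs0 : 0 ≤ s := norm_nonneg _
  have hH0 : 0 ≤ H := (norm_nonneg _).trans (hH x)
  have hint : ∀ y : E, IntegrableOn h (ball y r) vol := fun y =>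
    (hc.continuousOn.integrableOn_compact (isCompact_closedBall y r)).mono_set
      ball_subset_closedBall
  have hlt : ∀ y ρ, vol (ball (y : E) ρ) < ⊤ := fun y ρ => measure_ball_lt_top
  have key : ∀ y y' : E, ‖y' - y‖ = s → vol.real (ball y' r \ ball y r) ≤
      ((r + s) ^ d - r ^ d) * vol.real (ball (0 : E) 1) := by
    intro y y' hyy
    have h1 : ball y' r \ ball y r ⊆ ball y (r + s) \ ball y r := by
      refine sdiff_subset_sdiff_left fun z hz => ?_
      rw [mem_ball, dist_eq_norm] at hz ⊢
      have := norm_add_le (z - y') (y' - y)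
      rw [sub_add_sub_cancel, hyy] at this
      linarith
    have h2 : vol.real (ball y (r + s) \ ball y r) =
        vol.real (ball y (r + s)) - vol.real (ball y r) :=
      measureReal_sdiff (ball_subset_ball (by linarith)) measurableSet_ball
    rw [real_ball vol (by positivity), real_ball vol hr] at h2
    have h3 := measureReal_mono (μ := vol) h1
      ((measure_mono sdiff_subset).trans_lt (hlt y (r + s))).ne
    rw [h2] at h3
    linarith
  have hsplit : ∀ y y' : E, ‖y' - y‖ = s →
      ‖∫ z in ball y' r \ ball y r, h z ∂vol‖ ≤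
        H * (((r + s) ^ d - r ^ d) * vol.real (ball (0 : E) 1)) := by
    intro y y' hyy
    have h1 := norm_setIntegral_le_of_norm_le_const (μ := vol) (s := ball y' r \ ball y r)
      (f := h) (C := H) ((measure_mono sdiff_subset).trans_lt (hlt y' r)) (fun z _ => hH z)
    exact h1.trans (mul_le_mul_of_nonneg_left (key y y' hyy) hH0)
  have e1 : ∀ y : E, HM (unif vol) h r y =
      (r ^ d * vol.real (ball (0 : E) 1))⁻¹ • ∫ z in ball y r, h z ∂vol := by
    intro y
    rw [HM_unif vol h hr, setAverage_eq, real_ball vol hr]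
  rw [e1, e1, ← smul_sub, norm_smul]
  have e2 : (∫ z in ball x' r, h z ∂vol) - ∫ z in ball x r, h z ∂vol =
      (∫ z in ball x' r \ ball x r, h z ∂vol) - ∫ z in ball x r \ ball x' r, h z ∂vol := by
    have h1 := integral_inter_add_sdiff (μ := vol) (f := h) (s := ball x' r) (t := ball x r)
      measurableSet_ball (hint x')
    have h2 := integral_inter_add_sdiff (μ := vol) (f := h) (s := ball x r) (t := ball x' r)
      measurableSet_ball (hint x)
    rw [← h1, ← h2, inter_comm]
    abel
  rw [e2]
  have h5 := norm_sub_le (∫ z in ball x' r \ ball x r, h z ∂vol)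
    (∫ z in ball x r \ ball x' r, h z ∂vol)
  have h6 := hsplit x x' rfl
  have h7 := hsplit x' x (by rw [norm_sub_rev])
  have hV := real_ball_pos vol
  have hrd : 0 < r ^ d := by positivity
  rw [Real.norm_of_nonneg (by positivity)]
  calc (r ^ d * vol.real (ball (0 : E) 1))⁻¹ *
      ‖(∫ z in ball x' r \ ball x r, h z ∂vol) - ∫ z in ball x r \ ball x' r, h z ∂vol‖
      ≤ (r ^ d * vol.real (ball (0 : E) 1))⁻¹ *
        (2 * (H * (((r + s) ^ d - r ^ d) * vol.real (ball (0 : E) 1)))) :=
        mul_le_mul_of_nonneg_left (by linarith) (by positivity)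
    _ = 2 * H * (((r + s) ^ d - r ^ d) / r ^ d) := by
        field_simp

/-- the average of the differential of a bounded map over a ball of radius `r` -/
theorem HM_fderiv_le {h : E → E} (hh : ContDiff ℝ 1 h) {H : ℝ} (hH : ∀ y, ‖h y‖ ≤ H) {r : ℝ}
    (hr : 0 < r) (x : E) : ‖HM (unif vol) (fderiv ℝ h) r x‖ ≤
      2 * Module.finrank ℝ E * H / r := by
  set d := Module.finrank ℝ E with hd
  have hH0 : 0 ≤ H := (norm_nonneg _).trans (hH x)
  have hrd : 0 < r ^ d := by positivity
  have hder : HasDerivAt (fun s : ℝ => 2 * H * (((r + s) ^ d - r ^ d) / r ^ d))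
      (2 * d * H / r) 0 := by
    have h1 : HasDerivAt (fun s : ℝ => (r + s) ^ d) (d * (r + 0) ^ (d - 1) * 1) 0 :=
      ((hasDerivAt_id (0 : ℝ)).const_add r).pow d
    have h2 := ((h1.sub_const (r ^ d)).div_const (r ^ d)).const_mul (2 * H)
    refine h2.congr_deriv ?_
    rw [add_zero, mul_one]
    rcases Nat.eq_zero_or_pos d with h | h
    · rw [h]
      simp
    · obtain ⟨k, hk⟩ := Nat.exists_eq_succ_of_ne_zero h.ne'
      rw [hk]
      simp only [Nat.succ_eq_add_one, Nat.add_sub_cancel, pow_succ]
      field_simp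
  refine le_of_forall_pos_le_add fun ε hε => ?_
  refine (HM_fderiv (unif_BS vol) hh r x).le_of_lip' (by positivity) ?_
  have h1 : ∀ᶠ s in 𝓝 (0 : ℝ), ‖2 * H * (((r + s) ^ d - r ^ d) / r ^ d) -
      2 * H * (((r + 0) ^ d - r ^ d) / r ^ d) - (s - 0) * (2 * d * H / r)‖ ≤ ε * ‖s - 0‖ := by
    have := hder.isLittleO.def hε
    simpa using this
  have h2 : Tendsto (fun y : E => ‖y - x‖) (𝓝 x) (𝓝 0) := by
    have : Tendsto (fun y : E => ‖y - x‖) (𝓝 x) (𝓝 ‖x - x‖) :=
      (continuous_id.sub continuous_const).norm.tendsto x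
    simpa using this
  filter_upwards [h2.eventually h1] with y hy
  refine (HM_lip vol hh.continuous hH hr x y).trans ?_
  have h3 := (abs_le.1 hy).2
  rw [add_zero, sub_self, zero_div, mul_zero, sub_zero, sub_zero, norm_norm] at h3
  nlinarith

end Run7.h7.Avg
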