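import Pool.Agent.Run7.h7.AvgMap

/-!
Two compactly supported diffeomorphisms whose averaged differentials are nonsingular and close
at the largest scale are isotopic.
-/

set_option autoImplicit false
set_option linter.unusedSectionVars false

open scoped ContDiff Topology
open MeasureTheory Set Metric Function

namespace Run7.h7.Avg

variable {E : Type} [NormedAddCommGroup E] [NormedSpace ℝ E] [FiniteDimensional ℝ E]
  [MeasurableSpace E] [BorelSpace E]

/-- the displacement -/
def disp (φ : E → E) (x : E) : E := φ x - x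

theorem disp_smooth {φ : E → E} (h : ContDiff ℝ ∞ φ) : ContDiff ℝ ∞ (disp φ) := h.sub contDiff_id

theorem fderiv_disp {φ : E → E} (h : ContDiff ℝ ∞ φ) (x : E) :
    fderiv ℝ (disp φ) x = fderiv ℝ φ x - ContinuousLinearMap.id ℝ E :=
  (((h.differentiable (by simp)) x).hasFDerivAt.sub (hasFDerivAt_id x)).fderiv

/-- the averaged differential -/
noncomputable def AV (μ : Measure E) (φ : E → E) (s : ℝ) (x : E) : E →L[ℝ] E :=
  HM μ (fderiv ℝ φ) s x

section

variable {μ : Measure E} {S : ℝ} (hμ : BS μ S)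

include hμ

theorem AV_eq {φ : E → E} (h : ContDiff ℝ ∞ φ) (s : ℝ) (x : E) :
    AV μ φ s x = ContinuousLinearMap.id ℝ E + HM μ (fderiv ℝ (disp φ)) s x := by
  have := hμ.prob
  have : CompleteSpace E := FiniteDimensional.complete ℝ E
  have hc : Continuous (fderiv ℝ (disp φ)) := (disp_smooth h).continuous_fderiv (by simp)
  have h1 : ∀ y, fderiv ℝ φ y = ContinuousLinearMap.id ℝ E + fderiv ℝ (disp φ) y := by
    intro y
    rw [fderiv_disp h]
    abel
  unfold AV HM
  simp_rw [h1]
  have h2 : Integrable (fun z => fderiv ℝ (disp φ) (x + s • z)) μ :=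
    hμ.int (hc.comp (by fun_prop))
  rw [integral_add (integrable_const _) h2]
  simp

theorem HM_supp {u : E → E} {m : ℝ} (hu : ∀ x, m < ‖x‖ → u x = 0) {s T : ℝ} (hs0 : 0 ≤ s)
    (hs1 : s ≤ T) (x : E) (hx : m + T * S < ‖x‖) : HM μ u s x = 0 := by
  unfold HM
  rw [← integral_zero E E (μ := μ)]
  refine integral_congr_ae ?_
  filter_upwards [hμ.supp] with y hy
  apply hu
  have h6 : ‖x‖ ≤ ‖x + s • y‖ + ‖s • y‖ := by
    have := norm_sub_le (x + s • y) (s • y)
    rwa [add_sub_cancel_right] at this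
  have h7 : ‖s • y‖ ≤ T * S := by
    rw [norm_smul, Real.norm_of_nonneg hs0]
    exact mul_le_mul hs1 hy (norm_nonneg _) (hs0.trans hs1)
  linarith

/-- **Two diffeomorphisms.** -/
theorem two {φ ψ : E → E} (hφ : DiffC φ) (hψ : DiffC ψ) {R : ℝ} (hR : 0 ≤ R)
    (h1 : ∀ r, 0 < r → r ≤ R → ∀ x v, AV μ φ r x v = 0 → v = 0)
    (h2 : ∀ r, 0 < r → r ≤ R → ∀ x v, AV μ ψ r x v = 0 → v = 0)
    (h3 : ∀ t : ℝ, 0 ≤ t → t ≤ 1 → ∀ x v, (1 - t) • AV μ φ R x v + t • AV μ ψ R x v = 0 → v = 0) :
    IsotopicC φ ψ := by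
  have := hμ.prob
  have : ProperSpace E := FiniteDimensional.proper_real E
  have : CompleteSpace E := FiniteDimensional.complete ℝ E
  set c : ℝ → ℝ := fun t => Real.smoothTransition (3 * t - 1) with hc
  set r : ℝ → ℝ := fun t =>
    (Real.smoothTransition (3 * t) * Real.smoothTransition (3 - 3 * t)) * R with hr
  have hcs : ContDiff ℝ ∞ c :=
    Real.smoothTransition.contDiff.comp ((contDiff_const.mul contDiff_id).sub contDiff_const)
  have hrs : ContDiff ℝ ∞ r :=
    ((Real.smoothTransition.contDiff.comp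
      (contDiff_const.mul contDiff_id)).mul (Real.smoothTransition.contDiff.comp
        (contDiff_const.sub (contDiff_const.mul contDiff_id)))).mul contDiff_const
  have hc0 : ∀ t, 0 ≤ c t ∧ c t ≤ 1 := fun t =>
    ⟨Real.smoothTransition.nonneg _, Real.smoothTransition.le_one _⟩
  have hr0 : ∀ t, 0 ≤ r t ∧ r t ≤ R := by
    intro t
    have h1 := Real.smoothTransition.nonneg (3 * t)
    have h2 := Real.smoothTransition.le_one (3 * t)
    have h3 := Real.smoothTransition.nonneg (3 - 3 * t)
    have h4 := Real.smoothTransition.le_one (3 - 3 * t)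
    exact ⟨mul_nonneg (mul_nonneg h1 h3) hR,
      (mul_le_mul_of_nonneg_right (mul_le_one₀ h2 h3 h4) hR).trans (one_mul R).le⟩
  obtain ⟨m1, hm1⟩ := hφ.supp
  obtain ⟨m2, hm2⟩ := hψ.supp
  have hd1 : ∀ x, m1 < ‖x‖ → disp φ x = 0 := fun x hx => by rw [disp, hm1 x hx, sub_self]
  have hd2 : ∀ x, m2 < ‖x‖ → disp ψ x = 0 := fun x hx => by rw [disp, hm2 x hx, sub_self]
  set F : ℝ × E → E := fun q => q.2 + ((1 - c q.1) • HM μ (disp φ) (r q.1) q.2 +
    c q.1 • HM μ (disp ψ) (r q.1) q.2) with hF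
  have hFs : ContDiff ℝ ∞ F := by
    have e1 : ContDiff ℝ ∞ (fun q : ℝ × E => (r q.1, q.2)) :=
      (hrs.comp contDiff_fst).prodMk contDiff_snd
    have e2 : ContDiff ℝ ∞ (fun p : ℝ × E => c p.1) := hcs.comp contDiff_fst
    exact contDiff_snd.add (((contDiff_const.sub e2).smul
      ((HM_smooth hμ (disp_smooth hφ.smooth)).comp e1)).add
      (e2.smul ((HM_smooth hμ (disp_smooth hψ.smooth)).comp e1)))
  have hfd : ∀ t x, fderiv ℝ (fun y => F (t, y)) x =
      (1 - c t) • AV μ φ (r t) x + c t • AV μ ψ (r t) x := by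
    intro t x
    have h4 := (hasFDerivAt_id (𝕜 := ℝ) x).add (((HM_fderiv hμ
      ((disp_smooth hφ.smooth).of_le (by simp)) (r t) x).const_smul (1 - c t)).add
      ((HM_fderiv hμ ((disp_smooth hψ.smooth).of_le (by simp)) (r t) x).const_smul (c t)))
    rw [AV_eq hμ hφ.smooth, AV_eq hμ hψ.smooth]
    refine h4.fderiv.trans ?_
    module
  have hz : ∀ (χ : E → E), DiffC χ → ∀ x v, AV μ χ 0 x v = 0 → v = 0 := by
    intro χ hχ x v hv
    have e : AV μ χ 0 x = fderiv ℝ χ x := HM_zero hμ _ _
    rw [e] at hv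
    exact hχ.inj x v hv
  have hinj : ∀ z v, dx F z v = 0 → v = 0 := by
    rintro ⟨t, x⟩ v hv
    rw [← dx_eq hFs, hfd] at hv
    simp only [_root_.add_apply, _root_.smul_apply] at hv
    by_cases hc1 : c t = 0
    · rw [hc1, sub_zero, one_smul, zero_smul, add_zero] at hv
      rcases eq_or_lt_of_le (hr0 t).1 with h | h
      · rw [← h] at hv
        exact hz φ hφ x v hv
      · exact h1 _ h (hr0 t).2 x v hv
    · by_cases hc2 : c t = 1
      · rw [hc2, sub_self, zero_smul, one_smul, zero_add] at hv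
        rcases eq_or_lt_of_le (hr0 t).1 with h | h
        · rw [← h] at hv
          exact hz ψ hψ x v hv
        · exact h2 _ h (hr0 t).2 x v hv
      · have e1 : 0 < 3 * t - 1 := by
          by_contra h
          exact hc1 (Real.smoothTransition.zero_of_nonpos (not_lt.1 h))
        have e2 : 3 * t - 1 < 1 := by
          by_contra h
          exact hc2 (Real.smoothTransition.one_of_one_le (not_lt.1 h))
        have e3 : r t = R := by
          rw [hr]
          simp only
          rw [Real.smoothTransition.one_of_one_le (by linarith),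
            Real.smoothTransition.one_of_one_le (by linarith), one_mul, one_mul]
        rw [e3] at hv
        exact h3 _ (hc0 t).1 (hc0 t).2 x v hv
  have hout : ∀ t x, max (m1 + R * S) (m2 + R * S) < ‖x‖ → F (t, x) = x := by
    intro t x hx
    have e1 : HM μ (disp φ) (r t) x = 0 :=
      HM_supp hμ hd1 (hr0 t).1 (hr0 t).2 x (lt_of_le_of_lt (le_max_left _ _) hx)
    have e2 : HM μ (disp ψ) (r t) x = 0 :=
      HM_supp hμ hd2 (hr0 t).1 (hr0 t).2 x (lt_of_le_of_lt (le_max_right _ _) hx)
    show x + ((1 - c t) • HM μ (disp φ) (r t) x + c t • HM μ (disp ψ) (r t) x) = x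
    rw [e1, e2, smul_zero, smul_zero, add_zero, add_zero]
  have hF0 : ∀ x, F (0, x) = φ x := by
    intro x
    show x + ((1 - c 0) • HM μ (disp φ) (r 0) x + c 0 • HM μ (disp ψ) (r 0) x) = φ x
    have h1 : c 0 = 0 := Real.smoothTransition.zero_of_nonpos (by norm_num)
    have h2 : r 0 = 0 := by
      show Real.smoothTransition (3 * 0) * _ * _ = 0
      rw [mul_zero, Real.smoothTransition.zero, zero_mul, zero_mul]
    rw [h1, h2, HM_zero hμ]
    simp [disp]
  have hF1 : ∀ x, F (1, x) = ψ x := by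
    intro x
    show x + ((1 - c 1) • HM μ (disp φ) (r 1) x + c 1 • HM μ (disp ψ) (r 1) x) = ψ x
    have h1 : c 1 = 1 := Real.smoothTransition.one_of_one_le (by norm_num)
    have h2 : r 1 = 0 := by
      show _ * Real.smoothTransition (3 - 3 * 1) * _ = 0
      rw [show (3 : ℝ) - 3 * 1 = 0 by norm_num, Real.smoothTransition.zero, mul_zero, zero_mul]
    rw [h1, h2, HM_zero hμ (disp ψ)]
    simp [disp]
  have hbij := bijE hFs (isCompact_closedBall (0 : E) (max (m1 + R * S) (m2 + R * S)))
    (fun t x hx => hout t x (by simpa using hx)) hinj (by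
      have : (fun x => F (0, x)) = φ := funext hF0
      rw [this]
      exact hφ.bij)
  refine ⟨F, max (m1 + R * S) (m2 + R * S), hFs, hout, fun t ht => ?_, hF0, hF1⟩
  have hs : ContDiff ℝ ∞ (fun x => F (t, x)) := hFs.comp (contDiff_const.prodMk contDiff_id)
  exact ⟨hs, inv_smooth hs (hbij t ht) (fun x v hv => by
    rw [dx_eq hFs] at hv
    exact hinj _ v hv), _, hout t⟩

end

end Run7.h7.Avg
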