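import Pool.Agent.Y522.ML.Var

/-!
# Locally injective projections: pairs of points of a Lagrangian submanifold
-/

set_option autoImplicit false

open Set Filter Topology Metric Function
open scoped ContDiff RealInnerProductSpace

noncomputable section

namespace Run7.h7.Lag

open Pool.Agent.Y522.ML

variable {n : ℕ}

/-- regular points -/
def Nn (Λ : Set (E n × E n)) (z₀ : E n × E n) : Prop :=
  ∃ δ > 0, ∀ z ∈ Λ, ∀ z' ∈ Λ, ‖z - z₀‖ < δ → ‖z' - z₀‖ < δ → δ * ‖z.2 - z'.2‖ ≤ ‖z.1 - z'.1‖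

/-- points with one-sided almost vertical pairs -/
def Ss (Λ : Set (E n × E n)) (σ : ℝ) (z₀ : E n × E n) : Prop :=
  ∃ δ > 0, ∀ z ∈ Λ, ∀ z' ∈ Λ, ‖z - z₀‖ < δ → ‖z' - z₀‖ < δ → ‖z.1 - z'.1‖ ≤ δ * ‖z.2 - z'.2‖ →
    -(1 / 2) * (‖z.1 - z'.1‖ * ‖z.2 - z'.2‖) ≤ σ * ⟪z.1 - z'.1, z.2 - z'.2⟫

/-- charts of Lagrangian submanifolds -/
structure Chart (Λ : Set (E n × E n)) (z₀ : E n × E n) (F : E n → E n × E n) : Prop where
  smooth : ContDiff ℝ ∞ F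
  base : F 0 = z₀
  inj : Injective F
  op : ∀ V : Set (E n), IsOpen V → ∃ U : Set (E n × E n), IsOpen U ∧ F '' V = Λ ∩ U
  imm : ∀ s v, fderiv ℝ F s v = 0 → v = 0
  iso : ∀ s v w, om (fderiv ℝ F s v) (fderiv ℝ F s w) = 0

theorem Chart.mem {Λ : Set (E n × E n)} {z₀ : E n × E n} {F : E n → E n × E n}
    (hF : Chart Λ z₀ F) (s : E n) : F s ∈ Λ := by
  obtain ⟨U, -, hU'⟩ := hF.op univ isOpen_univ
  have : F s ∈ F '' univ := mem_image_of_mem _ (mem_univ s)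
  rw [hU'] at this
  exact this.1

theorem Chart.near {Λ : Set (E n × E n)} {z₀ : E n × E n} {F : E n → E n × E n}
    (hF : Chart Λ z₀ F) {V : Set (E n)} (hV : V ∈ 𝓝 (0 : E n)) :
    ∃ δ > 0, ∀ z ∈ Λ, ‖z - z₀‖ < δ → ∃ s ∈ V, F s = z := by
  obtain ⟨V', hV', hVo, h0⟩ := _root_.mem_nhds_iff.1 hV
  obtain ⟨U, hU, hU'⟩ := hF.op V' hVo
  have h1 : z₀ ∈ Λ ∩ U := by
    rw [← hU', ← hF.base]
    exact mem_image_of_mem _ h0
  obtain ⟨δ, hδ, hb⟩ := Metric.isOpen_iff.1 hU z₀ h1.2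
  refine ⟨δ, hδ, fun z hz hd => ?_⟩
  have h2 : z ∈ Λ ∩ U := ⟨hz, hb (by rw [mem_ball, dist_eq_norm]; exact hd)⟩
  rw [← hU'] at h2
  obtain ⟨s, hs, hs'⟩ := h2
  exact ⟨s, hV' hs, hs'⟩

theorem strict_est {V W : Type} [NormedAddCommGroup V] [NormedSpace ℝ V]
    [NormedAddCommGroup W] [NormedSpace ℝ W] {g : V → W} {T : V →L[ℝ] W} {x₀ : V}
    (h : HasStrictFDerivAt g T x₀) {ε : ℝ} (hε : 0 < ε) :
    ∃ r > 0, ∀ x x', ‖x - x₀‖ < r → ‖x' - x₀‖ < r →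
      ‖g x - g x' - T (x - x')‖ ≤ ε * ‖x - x'‖ := by
  have h1 := h.isLittleO.def hε
  obtain ⟨r, hr, hb⟩ := Metric.eventually_nhds_iff.1 h1
  refine ⟨r, hr, fun x x' hx hx' => ?_⟩
  exact hb (y := (x, x')) (by
    rw [Prod.dist_eq]
    exact max_lt (by rwa [dist_eq_norm]) (by rwa [dist_eq_norm]))

theorem nn_of_inj {Λ : Set (E n × E n)} {z₀ : E n × E n} {F : E n → E n × E n}
    (hF : Chart Λ z₀ F) (hi : ∀ v, (fderiv ℝ F 0 v).1 = 0 → v = 0) : Nn Λ z₀ := by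
  have hs : HasStrictFDerivAt F (fderiv ℝ F 0) 0 :=
    hF.smooth.contDiffAt.hasStrictFDerivAt (by simp)
  obtain ⟨A, hA⟩ : ∃ A : E n →L[ℝ] E n, ∀ v, A v = (fderiv ℝ F 0 v).1 :=
    ⟨(ContinuousLinearMap.fst ℝ (E n) (E n)).comp (fderiv ℝ F 0), fun v => rfl⟩
  obtain ⟨K, hK, hKA⟩ := (A : E n →ₗ[ℝ] E n).exists_antilipschitzWith
    (LinearMap.ker_eq_bot'.2 fun v hv => hi v ((hA v).symm.trans hv))
  have hlow : ∀ v, ‖v‖ ≤ K * ‖A v‖ := by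
    intro v
    have h1 := hKA.le_mul_dist v 0
    rw [dist_zero_right] at h1
    have h2 : dist ((A : E n →ₗ[ℝ] E n) v) ((A : E n →ₗ[ℝ] E n) 0) = ‖A v‖ := by
      rw [map_zero, dist_zero_right]
      rfl
    rw [h2] at h1
    exact h1
  have hK' : (0 : ℝ) < K := hK
  obtain ⟨C, hC, hCF⟩ : ∃ C : ℝ, 0 ≤ C ∧ ∀ v, ‖fderiv ℝ F 0 v‖ ≤ C * ‖v‖ :=
    ⟨_, norm_nonneg _, fun v => (fderiv ℝ F 0).le_opNorm v⟩
  obtain ⟨ε, hε⟩ : ∃ ε : ℝ, ε = 1 / (2 * K) := ⟨_, rfl⟩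
  have hε0 : 0 < ε := by rw [hε]; positivity
  have hεK : K * ε = 1 / 2 := by rw [hε]; field_simp
  obtain ⟨r, hr, hest⟩ := strict_est hs hε0
  obtain ⟨δ, hδ, hnear⟩ := hF.near (V := ball 0 r) (ball_mem_nhds _ hr)
  refine ⟨min δ (ε / (C + ε)), lt_min hδ (by positivity), fun z hz z' hz' h1 h2 => ?_⟩
  obtain ⟨s, hs1, rfl⟩ := hnear z hz (h1.trans_le (min_le_left _ _))
  obtain ⟨s', hs1', rfl⟩ := hnear z' hz' (h2.trans_le (min_le_left _ _))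
  have h3 := hest s s' (by rw [sub_zero]; exact mem_ball_zero_iff.1 hs1)
    (by rw [sub_zero]; exact mem_ball_zero_iff.1 hs1')
  have h4 := hlow (s - s')
  have h5 := hCF (s - s')
  have h6 : ‖A (s - s')‖ ≤ ‖(F s).1 - (F s').1‖ + ε * ‖s - s'‖ := by
    have g1 : A (s - s') = ((F s).1 - (F s').1) - (F s - F s' - fderiv ℝ F 0 (s - s')).1 := by
      rw [hA]
      simp only [Prod.fst_sub]
      abel
    rw [g1]
    exact (norm_sub_le _ _).trans (add_le_add le_rfl ((norm_fst_le _).trans h3))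
  have h7 : ‖(F s).2 - (F s').2‖ ≤ (C + ε) * ‖s - s'‖ := by
    have g1 : (F s).2 - (F s').2 = (fderiv ℝ F 0 (s - s')).2 +
        (F s - F s' - fderiv ℝ F 0 (s - s')).2 := by
      simp only [Prod.snd_sub]
      abel
    rw [g1]
    refine (norm_add_le _ _).trans ?_
    have g2 := (norm_snd_le (fderiv ℝ F 0 (s - s'))).trans h5
    have g3 := (norm_snd_le (F s - F s' - fderiv ℝ F 0 (s - s'))).trans h3
    linarith
  have h8 : ε * ‖s - s'‖ ≤ ‖(F s).1 - (F s').1‖ := by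
    have g1 : K * ‖A (s - s')‖ ≤ K * (‖(F s).1 - (F s').1‖ + ε * ‖s - s'‖) :=
      mul_le_mul_of_nonneg_left h6 hK'.le
    have g2 : K * (‖(F s).1 - (F s').1‖ + ε * ‖s - s'‖) =
        K * ‖(F s).1 - (F s').1‖ + 1 / 2 * ‖s - s'‖ := by
      rw [mul_add, ← mul_assoc, hεK]
    have g3 : 1 / 2 * ‖s - s'‖ ≤ K * ‖(F s).1 - (F s').1‖ := by linarith
    rw [← hεK, mul_assoc] at g3
    exact le_of_mul_le_mul_left g3 hK'
  calc min δ (ε / (C + ε)) * ‖(F s).2 - (F s').2‖ ≤ ε / (C + ε) * ((C + ε) * ‖s - s'‖) :=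
        mul_le_mul (min_le_right _ _) h7 (norm_nonneg _) (by positivity)
    _ = ε * ‖s - s'‖ := by field_simp
    _ ≤ _ := h8

end Run7.h7.Lag
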