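import Pool.Agent.Run7.h7.LagA

/-!
# The sign of a locally injective projection at a point of corank one
-/

set_option autoImplicit false

open Set Filter Topology Metric Function
open scoped ContDiff RealInnerProductSpace

noncomputable section

namespace Run7.h7.Lag

open Pool.Agent.Y522.ML

variable {n : ℕ}

theorem ar1 {Y τ D B X S C δ W ya w1 w2 main : ℝ} (hτ : 0 ≤ τ) (hY : 0 ≤ Y)
    (hC : 0 ≤ C) (hW : 0 ≤ W) (hYD : Y ≤ D) (hXD : X ≤ D) (hB0 : 0 ≤ B)
    (hDB : D ≤ δ * B) (hδC : δ * (C + 1) ≤ 1 / 64)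
    (hWe : W ≤ C * Y + 1 / 16 * (Y + τ)) (hB1 : B ≤ τ + W) (hB2 : τ - W ≤ B)
    (hS : S = w1 + main + w2) (h1 : |w1| ≤ Y * W) (h2 : |w2| ≤ X * W)
    (h3 : -(1 / 16 * Y) * τ ≤ main) (_ : ya = 0) :
    -(1 / 2) * (D * B) ≤ S := by
  have hD : 0 ≤ D := hY.trans hYD
  have a1 : (C + 1) * Y ≤ 1 / 64 * B := by
    calc (C + 1) * Y ≤ (C + 1) * (δ * B) := mul_le_mul_of_nonneg_left (hYD.trans hDB) (by linarith)
      _ = δ * (C + 1) * B := by ring
      _ ≤ _ := mul_le_mul_of_nonneg_right hδC hB0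
  have a2 : C * Y + Y ≤ 1 / 64 * B := by linarith
  have a3 : W ≤ 1 / 64 * B + 1 / 16 * τ := by linarith
  have a4 : W ≤ 1 / 8 * τ := by nlinarith
  have a5 : 7 / 8 * τ ≤ B := by linarith
  have b1 := (abs_le.1 h1).1
  have b2 := (abs_le.1 h2).1
  have b3 : Y * W ≤ D * (1 / 8 * τ) := mul_le_mul hYD a4 hW hD
  have b4 : X * W ≤ D * (1 / 8 * τ) := mul_le_mul hXD a4 hW hD
  have b5 : Y * τ ≤ D * τ := mul_le_mul_of_nonneg_right hYD hτ
  have b6 : D * (7 / 8 * τ) ≤ D * B := mul_le_mul_of_nonneg_left a5 hD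
  rw [hS]
  nlinarith

theorem core {f : E n → E n × E n} {T : E n →L[ℝ] E n × E n} {x₀ u : E n}
    (hf : HasStrictFDerivAt f T x₀) (hu : ‖u‖ = 1) (hTu : (T u).2 = u)
    (hTa : ∀ y, ⟪(T y).1, u⟫ = 0) {r₀ : ℝ} (hr₀ : 0 < r₀)
    (hf1 : ∀ x, ‖x - x₀‖ < r₀ → (f x).1 = x - ⟪x, u⟫ • u + ⟪(f x).1, u⟫ • u)
    (hinj : ∀ x x', ‖x - x₀‖ < r₀ → ‖x' - x₀‖ < r₀ → (f x).1 = (f x').1 → x = x') :
    ∃ σ : ℝ, (σ = 1 ∨ σ = -1) ∧
      (∃ δ > 0, ∀ x x', ‖x - x₀‖ < δ → ‖x' - x₀‖ < δ →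
        ‖(f x).1 - (f x').1‖ ≤ δ * ‖(f x).2 - (f x').2‖ →
        -(1 / 2) * (‖(f x).1 - (f x').1‖ * ‖(f x).2 - (f x').2‖) ≤
          σ * ⟪(f x).1 - (f x').1, (f x).2 - (f x').2⟫) ∧
      (∀ δ > 0, ∃ x x', ‖x - x₀‖ < δ ∧ ‖x' - x₀‖ < δ ∧
        ‖(f x).1 - (f x').1‖ ≤ δ * ‖(f x).2 - (f x').2‖ ∧
        (-σ) * ⟪(f x).1 - (f x').1, (f x).2 - (f x').2⟫ <
          -(1 / 2) * (‖(f x).1 - (f x').1‖ * ‖(f x).2 - (f x').2‖)) := by
  have huu : ⟪u, u⟫ = 1 := by rw [real_inner_self_eq_norm_sq, hu]; norm_num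
  obtain ⟨a, ha⟩ : ∃ a : E n → ℝ, ∀ x, a x = ⟪(f x).1, u⟫ := ⟨_, fun _ => rfl⟩
  have hf1' : ∀ x, ‖x - x₀‖ < r₀ → (f x).1 = x - ⟪x, u⟫ • u + a x • u := by
    intro x hx
    rw [ha]
    exact hf1 x hx
  -- continuity near `x₀`
  obtain ⟨r₁, hr₁, hest1⟩ := strict_est hf one_pos
  have hcont : ∀ x, ‖x - x₀‖ < r₁ → ContinuousAt a x := by
    intro x hx
    have h1 : ContinuousAt f x := by
      rw [Metric.continuousAt_iff]
      intro ε hε
      refine ⟨min (ε / (‖T‖ + 1)) (r₁ - ‖x - x₀‖), lt_min (by positivity) (by linarith),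
        fun {y} hy => ?_⟩
      rw [dist_eq_norm] at hy ⊢
      have h2 : ‖y - x₀‖ < r₁ := by
        have h3 : y - x₀ = (y - x) + (x - x₀) := by abel
        rw [h3]
        have h4 := hy.trans_le (min_le_right _ _)
        exact (norm_add_le _ _).trans_lt (by linarith)
      have h3 := hest1 y x h2 hx
      have h4 : ‖f y - f x‖ ≤ (‖T‖ + 1) * ‖y - x‖ := by
        have h5 : f y - f x = (f y - f x - T (y - x)) + T (y - x) := by abel
        rw [h5]
        refine (norm_add_le _ _).trans ?_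
        have h6 := T.le_opNorm (y - x)
        linarith
      refine h4.trans_lt ?_
      have h5 := hy.trans_le (min_le_left _ _)
      rw [lt_div_iff₀ (by positivity)] at h5
      linarith
    have h2 : a = fun x => ⟪(f x).1, u⟫ := funext ha
    rw [h2]
    exact ContinuousAt.inner (𝕜 := ℝ) (continuous_fst.continuousAt.comp h1) continuousAt_const
  -- the sign
  obtain ⟨r₂, hr₂, hr₂0, hr₂1⟩ : ∃ r₂ : ℝ, 0 < r₂ ∧ 4 * r₂ ≤ r₀ ∧ 4 * r₂ ≤ r₁ :=
    ⟨min r₀ r₁ / 4, by have := lt_min hr₀ hr₁; linarith,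
      by linarith [min_le_left r₀ r₁], by linarith [min_le_right r₀ r₁]⟩
  have hne : ∀ x (τ : ℝ), ‖x - x₀‖ < 2 * r₂ → 0 < τ → τ < 2 * r₂ → a (x + τ • u) ≠ a x := by
    intro x τ hx hτ hτ' he
    have h1 : ‖x + τ • u - x₀‖ < r₀ := by
      have h3 : x + τ • u - x₀ = (x - x₀) + τ • u := by abel
      rw [h3]
      refine (norm_add_le _ _).trans_lt ?_
      rw [norm_smul, hu, Real.norm_of_nonneg hτ.le]
      linarith
    have h2 : ‖x - x₀‖ < r₀ := by linarith
    have h3 := hinj _ _ h1 h2 (by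
      rw [hf1' _ h1, hf1' _ h2, he, inner_add_left, inner_smul_left, huu]
      simp only [RCLike.conj_to_real, mul_one, add_smul]
      abel)
    have h4 : τ • u = 0 := by
      have := h3
      rwa [add_eq_left] at this
    rw [smul_eq_zero] at h4
    rcases h4 with h4 | h4
    · exact hτ.ne' h4
    · rw [h4, norm_zero] at hu
      exact zero_ne_one hu
  obtain ⟨g, hg⟩ : ∃ g : E n × ℝ → ℝ, ∀ p, g p = a (p.1 + p.2 • u) - a p.1 := ⟨_, fun _ => rfl⟩
  obtain ⟨S, hS⟩ : ∃ S : Set (E n × ℝ), S = ball x₀ (2 * r₂) ×ˢ Ioo 0 (2 * r₂) := ⟨_, rfl⟩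
  have hSc : IsPreconnected S := by
    rw [hS]
    exact ((convex_ball x₀ (2 * r₂)).prod (convex_Ioo 0 (2 * r₂))).isPreconnected
  have hgc : ContinuousOn g S := by
    intro p hp
    rw [hS, mem_prod, mem_ball, dist_eq_norm] at hp
    have h1 : ‖p.1 + p.2 • u - x₀‖ < r₁ := by
      have h3 : p.1 + p.2 • u - x₀ = (p.1 - x₀) + p.2 • u := by abel
      rw [h3]
      refine (norm_add_le _ _).trans_lt ?_
      rw [norm_smul, hu, Real.norm_of_nonneg hp.2.1.le]
      have := hp.2.2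
      have := hp.1
      linarith
    have h2 : ‖p.1 - x₀‖ < r₁ := by linarith [hp.1]
    have h3 : g = fun p => a (p.1 + p.2 • u) - a p.1 := funext hg
    rw [h3]
    refine ContinuousAt.continuousWithinAt (ContinuousAt.sub ?_ ?_)
    · exact ContinuousAt.comp (g := a) (f := fun p : E n × ℝ => p.1 + p.2 • u) (hcont _ h1)
        (by fun_prop)
    · exact ContinuousAt.comp (g := a) (f := fun p : E n × ℝ => p.1) (hcont _ h2)
        (by fun_prop)
  have hgne : ∀ p ∈ S, g p ≠ 0 := by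
    intro p hp h0
    rw [hS, mem_prod, mem_ball, dist_eq_norm] at hp
    rw [hg, sub_eq_zero] at h0
    exact hne p.1 p.2 hp.1 hp.2.1 hp.2.2 h0
  have hp₀ : (x₀, r₂) ∈ S := by
    rw [hS]
    exact ⟨mem_ball_self (by linarith), ⟨hr₂, by linarith⟩⟩
  obtain ⟨σ, hσ, hσS⟩ : ∃ σ : ℝ, (σ = 1 ∨ σ = -1) ∧ ∀ p ∈ S, 0 < σ * g p := by
    rcases lt_or_gt_of_ne (hgne _ hp₀) with h1 | h1
    · refine ⟨-1, Or.inr rfl, fun p hp => ?_⟩
      by_contra hcon
      have h2 : 0 ≤ g p := by linarith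
      obtain ⟨p', hp', h3⟩ := hSc.intermediate_value hp₀ hp hgc ⟨h1.le, h2⟩
      exact hgne p' hp' h3
    · refine ⟨1, Or.inl rfl, fun p hp => ?_⟩
      by_contra hcon
      have h2 : g p ≤ 0 := by linarith
      obtain ⟨p', hp', h3⟩ := hSc.intermediate_value hp hp₀ hgc ⟨h2, h1.le⟩
      exact hgne p' hp' h3
  have hσS' : ∀ x (τ : ℝ), ‖x - x₀‖ < 2 * r₂ → 0 < τ → τ < 2 * r₂ →
      0 < σ * (a (x + τ • u) - a x) := by
    intro x τ hx hτ hτ'
    have h1 := hσS (x, τ) (by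
      rw [hS]
      exact ⟨by rw [mem_ball, dist_eq_norm]; exact hx, hτ, hτ'⟩)
    rw [hg] at h1
    exact h1
  have hσ1 : |σ| = 1 := by
    rcases hσ with h | h <;> rw [h] <;> simp
  -- `a` has derivative zero
  have haest : ∀ {ε r : ℝ}, (∀ x x', ‖x - x₀‖ < r → ‖x' - x₀‖ < r →
      ‖f x - f x' - T (x - x')‖ ≤ ε * ‖x - x'‖) → ∀ x x', ‖x - x₀‖ < r → ‖x' - x₀‖ < r →
      |a x - a x'| ≤ ε * ‖x - x'‖ := by
    intro ε r h x x' hx hx'
    have h1 : a x - a x' = ⟪(f x - f x' - T (x - x')).1, u⟫ := by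
      rw [ha, ha]
      simp only [Prod.fst_sub, inner_sub_left]
      rw [hTa]
      ring
    rw [h1]
    refine (abs_real_inner_le_norm _ _).trans ?_
    rw [hu, mul_one]
    exact (norm_fst_le _).trans (h x x' hx hx')
  refine ⟨σ, hσ, ?_, ?_⟩
  · obtain ⟨r₃, hr₃, hest3⟩ := strict_est hf (ε := 1 / 16) (by norm_num)
    obtain ⟨δ, hδ, d1, d2, d3⟩ : ∃ δ : ℝ, 0 < δ ∧ 4 * δ ≤ r₂ ∧ 4 * δ ≤ r₃ ∧
        δ * (‖T‖ + 1) ≤ 1 / 64 := by
      refine ⟨min (min (r₂ / 4) (r₃ / 4)) (1 / (64 * (‖T‖ + 1))), ?_, ?_, ?_, ?_⟩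
      · exact lt_min (lt_min (by positivity) (by positivity)) (by positivity)
      · have := (min_le_left (min (r₂ / 4) (r₃ / 4)) (1 / (64 * (‖T‖ + 1)))).trans
          (min_le_left _ _)
        linarith
      · have := (min_le_left (min (r₂ / 4) (r₃ / 4)) (1 / (64 * (‖T‖ + 1)))).trans
          (min_le_right _ _)
        linarith
      · have h1 := min_le_right (min (r₂ / 4) (r₃ / 4)) (1 / (64 * (‖T‖ + 1)))
        have h2 := mul_le_mul_of_nonneg_right h1 (by positivity : 0 ≤ ‖T‖ + 1)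
        refine h2.trans (le_of_eq ?_)
        field_simp
    have key : ∀ x x', ‖x - x₀‖ < δ → ‖x' - x₀‖ < δ → 0 ≤ ⟪x - x', u⟫ →
        ‖(f x).1 - (f x').1‖ ≤ δ * ‖(f x).2 - (f x').2‖ →
        -(1 / 2) * (‖(f x).1 - (f x').1‖ * ‖(f x).2 - (f x').2‖) ≤
          σ * ⟪(f x).1 - (f x').1, (f x).2 - (f x').2⟫ := by
      intro x x' hx hx' hτ hD
      obtain ⟨τ, hτd⟩ : ∃ τ : ℝ, τ = ⟪x - x', u⟫ := ⟨_, rfl⟩
      rw [← hτd] at hτ
      obtain ⟨y, hy⟩ : ∃ y : E n, y = (x - x') - τ • u := ⟨_, rfl⟩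
      have hyu : ⟪y, u⟫ = 0 := by
        rw [hy, inner_sub_left, inner_smul_left, huu, ← hτd]
        simp
      have hd : x - x' = y + τ • u := by rw [hy]; abel
      have hdn : ‖x - x'‖ < 2 * δ := by
        have h3 : x - x' = (x - x₀) - (x' - x₀) := by abel
        rw [h3]
        exact (norm_sub_le _ _).trans_lt (by linarith)
      have hτn : τ < 2 * δ := by
        have h1 := real_inner_le_norm (x - x') u
        rw [← hτd, hu, mul_one] at h1
        linarith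
      have hsq : ‖x - x'‖ ^ 2 = ‖y‖ ^ 2 + τ ^ 2 := by
        rw [hd, norm_add_sq_real, inner_smul_right, hyu, norm_smul, hu,
          Real.norm_of_nonneg hτ]
        ring
      have hyn : ‖y‖ ≤ ‖x - x'‖ := by
        refine le_of_sq_le_sq ?_ (norm_nonneg _)
        rw [hsq]
        nlinarith [sq_nonneg τ]
      -- the differences
      have hx0 : ‖x - x₀‖ < r₀ := by linarith
      have hx0' : ‖x' - x₀‖ < r₀ := by linarith
      have hx3 : ‖x - x₀‖ < r₃ := by linarith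
      have hx3' : ‖x' - x₀‖ < r₃ := by linarith
      obtain ⟨Δ, hΔ⟩ : ∃ Δ : ℝ, Δ = a x - a x' := ⟨_, rfl⟩
      have hq : (f x).1 - (f x').1 = y + Δ • u := by
        rw [hf1' x hx0, hf1' x' hx0', hy, hΔ, hτd, inner_sub_left]
        simp only [sub_smul]
        abel
      obtain ⟨κ, hκ⟩ : ∃ κ : E n, κ = (f x).2 - (f x').2 - τ • u := ⟨_, rfl⟩
      have hp : (f x).2 - (f x').2 = τ • u + κ := by rw [hκ]; abel
      have hWn : ‖κ‖ ≤ ‖T‖ * ‖y‖ + 1 / 16 * (‖y‖ + τ) := by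
        have h1 : κ = (T y).2 + (f x - f x' - T (x - x')).2 := by
          rw [hκ, hd]
          simp only [Prod.snd_sub, map_add, map_smul, Prod.snd_add, Prod.smul_snd, hTu]
          abel
        have h2 := (norm_snd_le (f x - f x' - T (x - x'))).trans (hest3 x x' hx3 hx3')
        have h3 := (norm_snd_le (T y)).trans (T.le_opNorm y)
        have h4 : ‖x - x'‖ ≤ ‖y‖ + τ := by
          rw [hd]
          refine (norm_add_le _ _).trans ?_
          rw [norm_smul, hu, Real.norm_of_nonneg hτ, mul_one]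
        rw [h1]
        refine (norm_add_le _ _).trans ?_
        linarith
      have hqsq : ‖(f x).1 - (f x').1‖ ^ 2 = ‖y‖ ^ 2 + Δ ^ 2 := by
        rw [hq, norm_add_sq_real, inner_smul_right, hyu, norm_smul, hu,
          Real.norm_eq_abs, mul_one, sq_abs]
        ring
      have hYD : ‖y‖ ≤ ‖(f x).1 - (f x').1‖ := by
        refine le_of_sq_le_sq ?_ (norm_nonneg _)
        rw [hqsq]
        nlinarith [sq_nonneg Δ]
      have hXD : |Δ| ≤ ‖(f x).1 - (f x').1‖ := by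
        refine le_of_sq_le_sq ?_ (norm_nonneg _)
        rw [hqsq, sq_abs]
        nlinarith [sq_nonneg ‖y‖]
      have hB1 : ‖(f x).2 - (f x').2‖ ≤ τ + ‖κ‖ := by
        rw [hp]
        refine (norm_add_le _ _).trans ?_
        rw [norm_smul, hu, Real.norm_of_nonneg hτ, mul_one]
      have hB2 : τ - ‖κ‖ ≤ ‖(f x).2 - (f x').2‖ := by
        have h1 : τ • u = ((f x).2 - (f x').2) - κ := by rw [hκ]; abel
        have h2 : ‖τ • u‖ ≤ ‖(f x).2 - (f x').2‖ + ‖κ‖ := by
          conv_lhs => rw [h1]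
          exact norm_sub_le _ _
        rw [norm_smul, hu, Real.norm_of_nonneg hτ, mul_one] at h2
        linarith
      have hmain : -(1 / 16 * ‖y‖) * τ ≤ σ * Δ * τ := by
        have h1 : -(1 / 16 * ‖y‖) ≤ σ * Δ ∨ τ = 0 := by
          rcases hτ.eq_or_lt with h0 | h0
          · exact Or.inr h0.symm
          · left
            have e1 : x = (x' + y) + τ • u := by
              have : x = x' + (x - x') := by abel
              rw [hd] at this
              rw [← add_assoc] at this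
              exact this
            have e2 : ‖x' + y - x₀‖ < 3 * δ := by
              have h3 : x' + y - x₀ = (x' - x₀) + y := by abel
              rw [h3]
              exact (norm_add_le _ _).trans_lt (by linarith)
            have e3 := hσS' (x' + y) τ (by linarith) h0 (by linarith)
            have e4 := haest hest3 (x' + y) x' (by linarith) hx3'
            rw [add_sub_cancel_left] at e4
            rw [← e1] at e3
            have e5 : σ * Δ = σ * (a x - a (x' + y)) + σ * (a (x' + y) - a x') := by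
              rw [hΔ]
              ring
            have e6 : |σ * (a (x' + y) - a x')| ≤ 1 / 16 * ‖y‖ := by
              rw [abs_mul, hσ1, one_mul]
              exact e4
            have e7 := (abs_le.1 e6).1
            rw [e5]
            linarith
        rcases h1 with h1 | h1
        · exact mul_le_mul_of_nonneg_right h1 hτ
        · rw [h1]
          simp
      refine ar1 (C := ‖T‖) (δ := δ) (W := ‖κ‖) (ya := 0) (w1 := σ * ⟪y, κ⟫) (w2 := σ * (Δ * ⟪u, κ⟫))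
        (main := σ * Δ * τ) (Y := ‖y‖) (X := |Δ|) hτ (norm_nonneg _)
        (norm_nonneg _) (norm_nonneg _) hYD hXD (norm_nonneg _) hD d3 hWn hB1 hB2
        ?_ ?_ ?_ hmain rfl
      · rw [hq, hp, inner_add_left, inner_add_right, inner_add_right, inner_smul_left,
          inner_smul_left, inner_smul_right, inner_smul_right, hyu, huu]
        simp only [RCLike.conj_to_real]
        ring
      · rw [abs_mul, hσ1, one_mul]
        exact abs_real_inner_le_norm _ _
      · rw [abs_mul, hσ1, one_mul, abs_mul]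
        refine mul_le_mul_of_nonneg_left ?_ (abs_nonneg _)
        have := abs_real_inner_le_norm u κ
        rwa [hu, one_mul] at this
    refine ⟨δ, hδ, fun x x' hx hx' hD => ?_⟩
    rcases le_total 0 ⟪x - x', u⟫ with h1 | h1
    · exact key x x' hx hx' h1 hD
    · have h2 : 0 ≤ ⟪x' - x, u⟫ := by
        have h3 : x' - x = -(x - x') := by abel
        rw [h3, inner_neg_left]
        linarith
      have e1 : (f x).1 - (f x').1 = -((f x').1 - (f x).1) := by abel
      have e2 : (f x).2 - (f x').2 = -((f x').2 - (f x).2) := by abel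
      rw [e1, e2, norm_neg, norm_neg] at hD ⊢
      rw [inner_neg_neg]
      exact key x' x hx' hx h2 hD
  · intro δ hδ
    obtain ⟨ε, hε, he1, he2⟩ : ∃ ε : ℝ, 0 < ε ∧ ε ≤ 1 / 16 ∧ ε ≤ δ / 2 :=
      ⟨min (1 / 16) (δ / 2), by positivity, min_le_left _ _, min_le_right _ _⟩
    obtain ⟨r₃, hr₃, hest3⟩ := strict_est hf hε
    obtain ⟨τ, hτ, t1, t2, t3⟩ : ∃ τ : ℝ, 0 < τ ∧ τ < δ ∧ τ < r₂ ∧ τ < r₃ := by
      have h1 : 0 < min δ (min r₂ r₃) := lt_min hδ (lt_min hr₂ hr₃)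
      have h2 := min_le_left δ (min r₂ r₃)
      have h3 := (min_le_right δ (min r₂ r₃)).trans (min_le_left _ _)
      have h4 := (min_le_right δ (min r₂ r₃)).trans (min_le_right _ _)
      exact ⟨min δ (min r₂ r₃) / 2, by linarith, by linarith, by linarith, by linarith⟩
    have hn : ‖x₀ + τ • u - x₀‖ = τ := by
      rw [add_sub_cancel_left, norm_smul, hu, Real.norm_of_nonneg hτ.le, mul_one]
    have h0 : ‖x₀ - x₀‖ = 0 := by simp
    obtain ⟨Δ, hΔ⟩ : ∃ Δ : ℝ, Δ = a (x₀ + τ • u) - a x₀ := ⟨_, rfl⟩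
    have hq : (f (x₀ + τ • u)).1 - (f x₀).1 = Δ • u := by
      rw [hf1' _ (by rw [hn]; linarith), hf1' x₀ (by rw [h0]; linarith), hΔ, inner_add_left,
        inner_smul_left, huu]
      simp only [RCLike.conj_to_real, mul_one, add_smul, sub_smul]
      abel
    obtain ⟨κ, hκ⟩ : ∃ κ : E n, κ = (f (x₀ + τ • u)).2 - (f x₀).2 - τ • u := ⟨_, rfl⟩
    have hp : (f (x₀ + τ • u)).2 - (f x₀).2 = τ • u + κ := by rw [hκ]; abel
    have h1 := hest3 (x₀ + τ • u) x₀ (by rw [hn]; linarith) (by rw [h0]; linarith)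
    rw [hn] at h1
    have hWn : ‖κ‖ ≤ ε * τ := by
      have h2 : κ = (f (x₀ + τ • u) - f x₀ - T (x₀ + τ • u - x₀)).2 := by
        rw [hκ, add_sub_cancel_left]
        simp only [Prod.snd_sub, map_smul, Prod.smul_snd, hTu]
      rw [h2]
      exact (norm_snd_le _).trans h1
    have hΔn : |Δ| ≤ ε * τ := by
      have := haest hest3 (x₀ + τ • u) x₀ (by rw [hn]; linarith) (by rw [h0]; linarith)
      rw [hn] at this
      rw [hΔ]
      exact this
    have hΔp : 0 < σ * Δ := by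
      rw [hΔ]
      exact hσS' x₀ τ (by rw [h0]; linarith) hτ (by linarith)
    have hΔa : σ * Δ = |Δ| := by
      have : |σ * Δ| = |Δ| := by rw [abs_mul, hσ1, one_mul]
      rw [← this, abs_of_pos hΔp]
    have hqn : ‖(f (x₀ + τ • u)).1 - (f x₀).1‖ = |Δ| := by
      rw [hq, norm_smul, hu, Real.norm_eq_abs, mul_one]
    have hB1 : ‖(f (x₀ + τ • u)).2 - (f x₀).2‖ ≤ τ + ‖κ‖ := by
      rw [hp]
      refine (norm_add_le _ _).trans ?_
      rw [norm_smul, hu, Real.norm_of_nonneg hτ.le, mul_one]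
    have hB2 : τ - ‖κ‖ ≤ ‖(f (x₀ + τ • u)).2 - (f x₀).2‖ := by
      have h1 : τ • u = ((f (x₀ + τ • u)).2 - (f x₀).2) - κ := by rw [hκ]; abel
      have h2 : ‖τ • u‖ ≤ ‖(f (x₀ + τ • u)).2 - (f x₀).2‖ + ‖κ‖ := by
        conv_lhs => rw [h1]
        exact norm_sub_le _ _
      rw [norm_smul, hu, Real.norm_of_nonneg hτ.le, mul_one] at h2
      linarith
    have hετ : ε * τ ≤ 1 / 16 * τ := mul_le_mul_of_nonneg_right he1 hτ.le
    refine ⟨x₀ + τ • u, x₀, by rw [hn]; exact t1, by rw [h0]; exact hδ, ?_, ?_⟩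
    · rw [hqn]
      have h2 : ε * τ ≤ δ / 2 * τ := mul_le_mul_of_nonneg_right he2 hτ.le
      have h3 : δ * (1 / 2 * τ) ≤ δ * ‖(f (x₀ + τ • u)).2 - (f x₀).2‖ :=
        mul_le_mul_of_nonneg_left (by linarith) hδ.le
      linarith
    · have h2 : ⟪(f (x₀ + τ • u)).1 - (f x₀).1, (f (x₀ + τ • u)).2 - (f x₀).2⟫ =
          Δ * (τ + ⟪u, κ⟫) := by
        rw [hq, hp, inner_smul_left, inner_add_right, inner_smul_right, huu]
        simp only [RCLike.conj_to_real, mul_one]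
      rw [h2, hqn]
      have h3 : -σ * (Δ * (τ + ⟪u, κ⟫)) = -(|Δ| * (τ + ⟪u, κ⟫)) := by
        rw [← hΔa]
        ring
      rw [h3]
      have h4 := (abs_le.1 (abs_real_inner_le_norm u κ)).1
      rw [hu, one_mul] at h4
      have h5 : 0 < |Δ| := by rw [← hΔa]; exact hΔp
      have h6 : 15 / 16 * τ ≤ τ + ⟪u, κ⟫ := by linarith
      have h7 : ‖(f (x₀ + τ • u)).2 - (f x₀).2‖ ≤ 17 / 16 * τ := by linarith
      have h8 := mul_le_mul_of_nonneg_left h6 h5.le
      have h9 := mul_le_mul_of_nonneg_left h7 h5.le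
      have h10 : 0 < |Δ| * τ := mul_pos h5 hτ
      nlinarith

end Run7.h7.Lag
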