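import Pool.Agent.Run7.h7.LagB

/-!
# The sign of a locally injective projection at a point of corank one, in charts
-/

set_option autoImplicit false

open Set Filter Topology Metric Function
open scoped ContDiff RealInnerProductSpace

noncomputable section

namespace Run7.h7.Lag

open Pool.Agent.Y522.ML

variable {n : ℕ}

theorem dichotomy {Λ : Set (E n × E n)} {z₀ : E n × E n} {F : E n → E n × E n}
    (hF : Chart Λ z₀ F) {e : E n} (he : (fderiv ℝ F 0 e).1 = 0) (he0 : e ≠ 0)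
    (hk : ∀ v, (fderiv ℝ F 0 v).1 = 0 → ∃ c : ℝ, v = c • e)
    (hinj : ∃ δ > 0, ∀ z ∈ Λ, ∀ z' ∈ Λ, ‖z - z₀‖ < δ → ‖z' - z₀‖ < δ → z.1 = z'.1 → z = z') :
    (Ss Λ 1 z₀ ∧ ¬ Ss Λ (-1) z₀) ∨ (Ss Λ (-1) z₀ ∧ ¬ Ss Λ 1 z₀) := by
  obtain ⟨D, hD⟩ : ∃ D : E n →L[ℝ] E n × E n, D = fderiv ℝ F 0 := ⟨_, rfl⟩
  have hDs : HasStrictFDerivAt F D 0 := by
    rw [hD]
    exact hF.smooth.contDiffAt.hasStrictFDerivAt (by simp)
  have himm : ∀ v, D v = 0 → v = 0 := by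
    rw [hD]
    exact hF.imm 0
  have hiso : ∀ v w, om (D v) (D w) = 0 := by
    rw [hD]
    exact hF.iso 0
  rw [← hD] at he hk
  -- normalization
  obtain ⟨e₁, u, hu, hDe, hk1⟩ : ∃ e₁ u : E n, ‖u‖ = 1 ∧ D e₁ = (0, u) ∧
      ∀ v, (D v).1 = 0 → ∃ c : ℝ, v = c • e₁ := by
    have hu0 : (D e).2 ≠ 0 := fun h0 => he0 (himm e (Prod.ext he h0))
    have hc : ‖(D e).2‖ ≠ 0 := norm_ne_zero_iff.2 hu0
    refine ⟨‖(D e).2‖⁻¹ • e, ‖(D e).2‖⁻¹ • (D e).2, ?_, ?_, fun v hv => ?_⟩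
    · rw [norm_smul, norm_inv, norm_norm, inv_mul_cancel₀ hc]
    · rw [map_smul]
      refine Prod.ext ?_ ?_
      · rw [Prod.smul_fst, he, smul_zero]
      · rfl
    · obtain ⟨c, hc'⟩ := hk v hv
      refine ⟨c * ‖(D e).2‖, ?_⟩
      rw [smul_smul, mul_assoc, mul_inv_cancel₀ hc, mul_one]
      exact hc'
  have huu : ⟪u, u⟫ = 1 := by rw [real_inner_self_eq_norm_sq, hu]; norm_num
  have hu0 : u ≠ 0 := by
    intro h0
    rw [h0, norm_zero] at hu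
    exact zero_ne_one hu
  have he10 : e₁ ≠ 0 := by
    intro h0
    rw [h0, map_zero] at hDe
    exact hu0 (congrArg Prod.snd hDe).symm
  have hperp : ∀ w, ⟪u, (D w).1⟫ = 0 := by
    intro w
    have h1 := hiso e₁ w
    rw [hDe] at h1
    simp only [om, inner_zero_right, sub_zero] at h1
    exact h1
  obtain ⟨ℓ, hℓ⟩ : ∃ ℓ : E n →L[ℝ] ℝ, ℓ e₁ = 1 := by
    refine ⟨(‖e₁‖ ^ 2)⁻¹ • innerSL ℝ e₁, ?_⟩
    have h1 : ‖e₁‖ ^ 2 ≠ 0 := pow_ne_zero _ (norm_ne_zero_iff.2 he10)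
    show (‖e₁‖ ^ 2)⁻¹ * ⟪e₁, e₁⟫ = 1
    rw [real_inner_self_eq_norm_sq, inv_mul_cancel₀ h1]
  obtain ⟨L, hL⟩ : ∃ L : E n × E n →L[ℝ] E n, ∀ z, L z = z.1 - ⟪u, z.1⟫ • u := by
    refine ⟨ContinuousLinearMap.fst ℝ (E n) (E n) -
      ((innerSL ℝ u).comp (ContinuousLinearMap.fst ℝ (E n) (E n))).smulRight u, fun z => ?_⟩
    rfl
  obtain ⟨G, hG⟩ : ∃ G : E n → E n, ∀ s, G s = L (F s) + ℓ s • u := ⟨_, fun _ => rfl⟩
  obtain ⟨D', hD'⟩ : ∃ D' : E n →L[ℝ] E n, ∀ v, D' v = L (D v) + ℓ v • u :=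
    ⟨L.comp D + ℓ.smulRight u, fun v => rfl⟩
  have hGs : HasStrictFDerivAt G D' 0 := by
    have h1 : HasStrictFDerivAt (fun s => L (F s) + ℓ s • u) (L.comp D + ℓ.smulRight u) 0 :=
      (L.hasStrictFDerivAt.comp 0 hDs).add (ℓ.hasStrictFDerivAt.smul_const u)
    have h2 : D' = L.comp D + ℓ.smulRight u := by
      ext1 v
      exact hD' v
    rw [funext hG, h2]
    exact h1
  have hDv : ∀ v, D' v = (D v).1 + ℓ v • u := by
    intro v
    rw [hD', hL, hperp, zero_smul, sub_zero]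
  have hDinj : Injective (D' : E n →ₗ[ℝ] E n) := by
    rw [← LinearMap.ker_eq_bot, LinearMap.ker_eq_bot']
    intro v hv
    have hv' : D' v = 0 := hv
    rw [hDv] at hv'
    have h1 : ℓ v = 0 := by
      have h2 := congrArg (fun x => ⟪u, x⟫) hv'
      simp only [inner_add_right, hperp, inner_smul_right, huu, inner_zero_right, mul_one,
        zero_add] at h2
      exact h2
    rw [h1, zero_smul, add_zero] at hv'
    obtain ⟨c, rfl⟩ := hk1 v hv'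
    rw [map_smul, hℓ, smul_eq_mul, mul_one] at h1
    rw [h1, zero_smul]
  obtain ⟨e', he'⟩ : ∃ e' : E n ≃L[ℝ] E n, (e' : E n →L[ℝ] E n) = D' := by
    refine ⟨(LinearEquiv.ofInjectiveEndo _ hDinj).toContinuousLinearEquiv, ?_⟩
    ext1 v
    rfl
  have he'v : ∀ v, e' v = D' v := fun v => congrArg (fun T : E n →L[ℝ] E n => T v) he'
  rw [← he'] at hGs
  obtain ⟨I, x₀, hIs, hI0, hIr, hIl, hx₀⟩ : ∃ (I : E n → E n) (x₀ : E n),
      HasStrictFDerivAt I (e'.symm : E n →L[ℝ] E n) x₀ ∧ I x₀ = 0 ∧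
      (∀ᶠ x in 𝓝 x₀, G (I x) = x) ∧ (∀ᶠ s in 𝓝 (0 : E n), I (G s) = s) ∧ x₀ = G 0 :=
    ⟨hGs.localInverse G e' 0, G 0, hGs.to_localInverse, hGs.localInverse_apply_image,
      hGs.eventually_right_inverse, hGs.eventually_left_inverse, rfl⟩
  obtain ⟨f, hf⟩ : ∃ f : E n → E n × E n, ∀ x, f x = F (I x) := ⟨_, fun _ => rfl⟩
  obtain ⟨T, hT⟩ : ∃ T : E n →L[ℝ] E n × E n, ∀ x, T x = D (e'.symm x) :=
    ⟨D.comp (e'.symm : E n →L[ℝ] E n), fun _ => rfl⟩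
  have hfs : HasStrictFDerivAt f T x₀ := by
    have h1 : T = D.comp (e'.symm : E n →L[ℝ] E n) := by
      ext1 v
      exact hT v
    rw [h1, funext hf]
    refine HasStrictFDerivAt.comp x₀ (g := F) ?_ hIs
    rw [hI0]
    exact hDs
  have hGc : ContinuousAt G 0 := hGs.continuousAt
  have hfc : ContinuousAt f x₀ := hfs.continuousAt
  have hf0 : f x₀ = z₀ := by rw [hf, hI0, hF.base]
  have hTu : (T u).2 = u := by
    have h1 : e' e₁ = u := by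
      rw [he'v, hDv, hDe, hℓ]
      simp
    have h2 : e'.symm u = e₁ := by
      rw [← h1]
      exact e'.symm_apply_apply e₁
    rw [hT, h2, hDe]
  have hTa : ∀ y, ⟪(T y).1, u⟫ = 0 := by
    intro y
    rw [hT, real_inner_comm]
    exact hperp _
  obtain ⟨δ, hδ, hδi⟩ := hinj
  have hev : ∀ᶠ x in 𝓝 x₀, G (I x) = x ∧ ‖f x - z₀‖ < δ := by
    refine hIr.and ?_
    have h1 := Metric.continuousAt_iff.1 hfc δ hδ
    obtain ⟨r, hr, h2⟩ := h1
    rw [Metric.eventually_nhds_iff]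
    refine ⟨r, hr, fun {y} hy => ?_⟩
    have := h2 hy
    rwa [dist_eq_norm, hf0] at this
  obtain ⟨r₀, hr₀, hr₀'⟩ := Metric.eventually_nhds_iff.1 hev
  have hΛf : ∀ x, f x ∈ Λ := fun x => by
    rw [hf]
    exact hF.mem _
  obtain ⟨σ, hσ, hpos, hneg⟩ := core hfs hu hTu hTa hr₀ (fun x hx => by
    obtain ⟨h1, -⟩ := hr₀' (y := x) (by rwa [dist_eq_norm])
    rw [hG, hL, ← hf] at h1
    have h2 : ⟪x, u⟫ = ℓ (I x) := by
      rw [← h1]
      rw [inner_add_left, inner_sub_left, inner_smul_left, inner_smul_left, huu,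
        real_inner_comm u (f _).1]
      simp
      rw [h1]
    conv_rhs => rw [h2, real_inner_comm]
    conv_rhs =>
      enter [1, 1]
      rw [← h1]
    abel) (fun x x' hx hx' h => by
    obtain ⟨h1, h2⟩ := hr₀' (y := x) (by rwa [dist_eq_norm])
    obtain ⟨h1', h2'⟩ := hr₀' (y := x') (by rwa [dist_eq_norm])
    have h3 := hδi _ (hΛf x) _ (hΛf x') h2 h2' h
    rw [hf, hf] at h3
    rw [← h1, ← h1', hF.inj h3])
  have hS : Ss Λ σ z₀ := by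
    obtain ⟨δ₁, hδ₁, hb⟩ := hpos
    have hV : {s | ‖G s - x₀‖ < δ₁ ∧ I (G s) = s} ∈ 𝓝 (0 : E n) := by
      have h1 : ∀ᶠ s in 𝓝 (0 : E n), ‖G s - x₀‖ < δ₁ := by
        obtain ⟨r, hr, h2⟩ := Metric.continuousAt_iff.1 hGc δ₁ hδ₁
        rw [Metric.eventually_nhds_iff]
        refine ⟨r, hr, fun {y} hy => ?_⟩
        have := h2 hy
        rwa [dist_eq_norm, ← hx₀] at this
      exact h1.and hIl
    obtain ⟨δ₂, hδ₂, hn⟩ := hF.near hV
    refine ⟨min δ₁ δ₂, lt_min hδ₁ hδ₂, fun z hz z' hz' h1 h2 h3 => ?_⟩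
    obtain ⟨s, ⟨s1, s2⟩, rfl⟩ := hn z hz (h1.trans_le (min_le_right _ _))
    obtain ⟨s', ⟨s1', s2'⟩, rfl⟩ := hn z' hz' (h2.trans_le (min_le_right _ _))
    have e1 : F s = f (G s) := by rw [hf, s2]
    have e2 : F s' = f (G s') := by rw [hf, s2']
    rw [e1, e2] at h3 ⊢
    exact hb _ _ s1 s1' (h3.trans (mul_le_mul_of_nonneg_right (min_le_left _ _) (norm_nonneg _)))
  have hS' : ¬ Ss Λ (-σ) z₀ := by
    rintro ⟨δ₁, hδ₁, hb⟩
    obtain ⟨r, hr, h2⟩ := Metric.continuousAt_iff.1 hfc δ₁ hδ₁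
    obtain ⟨x, x', x1, x2, x3, x4⟩ := hneg (min δ₁ r) (lt_min hδ₁ hr)
    have e1 : ‖f x - z₀‖ < δ₁ := by
      have := h2 (x := x) (by rw [dist_eq_norm]; exact x1.trans_le (min_le_right _ _))
      rwa [dist_eq_norm, hf0] at this
    have e2 : ‖f x' - z₀‖ < δ₁ := by
      have := h2 (x := x') (by rw [dist_eq_norm]; exact x2.trans_le (min_le_right _ _))
      rwa [dist_eq_norm, hf0] at this
    have e3 := hb _ (hΛf x) _ (hΛf x') e1 e2
      (x3.trans (mul_le_mul_of_nonneg_right (min_le_left _ _) (norm_nonneg _)))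
    exact absurd e3 (not_le.2 x4)
  rcases hσ with h | h
  · left
    rw [h] at hS hS'
    exact ⟨hS, hS'⟩
  · right
    rw [h] at hS hS'
    rw [neg_neg] at hS'
    exact ⟨hS, hS'⟩

end Run7.h7.Lag
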