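import Pool.Agent.Run7.h7.LagC

/-!
# Generating functions with a prescribed sign near two periodic sets
-/

set_option autoImplicit false

open Set Filter Topology Metric Function MeasureTheory
open scoped ContDiff RealInnerProductSpace Convolution

noncomputable section

namespace Run7.h7.Lag

open Pool.Agent.Y522.ML

variable {n : ℕ}

/-- the unit cube -/
def Qc (n : ℕ) : Set (E n) :=
  (fun x : Fin n → ℝ => (WithLp.toLp 2 x : E n)) '' (Set.pi univ fun _ => Icc (0 : ℝ) 1)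

theorem Qc_compact : IsCompact (Qc n) :=
  (isCompact_univ_pi fun _ => isCompact_Icc).image (PiLp.continuous_toLp 2 _)

theorem red (q : E n) : ∃ k : Fin n → ℤ, q + latt k ∈ Qc n := by
  refine ⟨fun i => -⌊q i⌋, fun i => Int.fract (q i), ?_, ?_⟩
  · intro i _
    exact ⟨Int.fract_nonneg _, (Int.fract_lt_one _).le⟩
  · ext i
    show Int.fract (q i) = q i + ((-⌊q i⌋ : ℤ) : ℝ)
    rw [Int.cast_neg, ← sub_eq_add_neg, Int.self_sub_floor]

theorem shift_sub (z z' : E n × E n) (k : Fin n → ℤ) :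
    (z.1 + latt k, z.2) - (z'.1 + latt k, z'.2) = z - z' := by
  refine Prod.ext ?_ ?_
  · simp
  · simp

theorem sep {T₁ T₂ : Set (E n × E n)} (c1 : IsClosed T₁) (c2 : IsClosed T₂)
    (p1 : ∀ z ∈ T₁, ∀ k : Fin n → ℤ, (z.1 + latt k, z.2) ∈ T₁)
    (p2 : ∀ z ∈ T₂, ∀ k : Fin n → ℤ, (z.1 + latt k, z.2) ∈ T₂)
    {R : ℝ} (b1 : ∀ z ∈ T₁, ‖z.2‖ ≤ R) (hd : Disjoint T₁ T₂) :
    ∃ δ > 0, ∀ z ∈ T₁, ∀ z' ∈ T₂, δ ≤ ‖z - z'‖ := by
  have hc : IsCompact (T₁ ∩ (Qc n ×ˢ closedBall (0 : E n) R)) :=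
    (Qc_compact.prod (isCompact_closedBall _ _)).inter_left c1
  have hdd : Disjoint (T₁ ∩ (Qc n ×ˢ closedBall (0 : E n) R)) T₂ := hd.mono_left inter_subset_left
  obtain ⟨δ, hδ, h⟩ := hdd.exists_thickenings hc c2
  refine ⟨δ, hδ, fun z hz z' hz' => ?_⟩
  by_contra hcon
  push Not at hcon
  obtain ⟨k, hk⟩ := red z.1
  have h1 : (z.1 + latt k, z.2) ∈ thickening δ (T₁ ∩ (Qc n ×ˢ closedBall (0 : E n) R)) :=
    self_subset_thickening hδ _ ⟨p1 z hz k, hk, by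
      rw [mem_closedBall_zero_iff]
      exact b1 z hz⟩
  have h2 : (z.1 + latt k, z.2) ∈ thickening δ T₂ := by
    rw [mem_thickening_iff]
    refine ⟨(z'.1 + latt k, z'.2), p2 z' hz' k, ?_⟩
    rw [dist_eq_norm, shift_sub]
    exact hcon
  exact Set.disjoint_left.1 h h1 h2

theorem exists_chi {T₁ T₂ : Set (E n × E n)}
    (p1 : ∀ z ∈ T₁, ∀ k : Fin n → ℤ, (z.1 + latt k, z.2) ∈ T₁)
    (p2 : ∀ z ∈ T₂, ∀ k : Fin n → ℤ, (z.1 + latt k, z.2) ∈ T₂)
    {δ : ℝ} (hδ : 0 < δ) (hs : ∀ z ∈ T₁, ∀ z' ∈ T₂, δ ≤ ‖z - z'‖) :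
    ∃ χ : E n × E n → ℝ, ContDiff ℝ ∞ χ ∧
      (∀ w (k : Fin n → ℤ), χ (w.1 + latt k, w.2) = χ w) ∧
      (∀ w, ∀ z ∈ T₁, ‖w - z‖ < δ / 4 → χ w = 1) ∧
      (∀ w, ∀ z ∈ T₂, ‖w - z‖ < δ / 4 → χ w = -1) := by
  classical
  obtain ⟨g, hg⟩ : ∃ g : E n × E n → ℝ, g = fun w =>
    (thickening (δ / 2) T₁).indicator (fun _ => (1 : ℝ)) w -
      (thickening (δ / 2) T₂).indicator (fun _ => (1 : ℝ)) w := ⟨_, rfl⟩
  have hgl : LocallyIntegrable g (Measure.addHaar : Measure (E n × E n)) := by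
    rw [hg]
    exact ((locallyIntegrable_const (1 : ℝ)).indicator isOpen_thickening.measurableSet).sub
      ((locallyIntegrable_const (1 : ℝ)).indicator isOpen_thickening.measurableSet)
  have hmem : ∀ {T : Set (E n × E n)} {w : E n × E n},
      w ∈ thickening (δ / 2) T ↔ ∃ z ∈ T, ‖w - z‖ < δ / 2 := by
    intro T w
    rw [mem_thickening_iff]
    simp only [dist_eq_norm]
  have hper : ∀ {T : Set (E n × E n)}, (∀ z ∈ T, ∀ k : Fin n → ℤ, (z.1 + latt k, z.2) ∈ T) →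
      ∀ (w : E n × E n) (k : Fin n → ℤ),
      (w.1 + latt k, w.2) ∈ thickening (δ / 2) T ↔ w ∈ thickening (δ / 2) T := by
    intro T hT w k
    rw [hmem, hmem]
    constructor
    · rintro ⟨z, hz, hd⟩
      refine ⟨(z.1 + latt (-k), z.2), hT z hz _, ?_⟩
      have h1 : latt (n := n) (-k) = -latt k := by
        ext i
        simp [latt]
      have h2 : w - (z.1 + latt (-k), z.2) = (w.1 + latt k, w.2) - z := by
        rw [h1]
        refine Prod.ext ?_ ?_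
        · simp only [Prod.fst_sub]
          abel
        · simp
      rw [h2]
      exact hd
    · rintro ⟨z, hz, hd⟩
      refine ⟨(z.1 + latt k, z.2), hT z hz k, ?_⟩
      rw [shift_sub]
      exact hd
  have hgp : ∀ (w : E n × E n) (k : Fin n → ℤ), g (w.1 + latt k, w.2) = g w := by
    intro w k
    rw [hg]
    simp only [indicator_apply, hper p1, hper p2]
  have hg1 : ∀ w, w ∈ thickening (δ / 2) T₁ → g w = 1 := by
    intro w hw
    have h2 : w ∉ thickening (δ / 2) T₂ := by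
      intro h2
      obtain ⟨z, hz, d1⟩ := hmem.1 hw
      obtain ⟨z', hz', d2⟩ := hmem.1 h2
      have h3 := hs z hz z' hz'
      have h4 : z - z' = (w - z') - (w - z) := by abel
      rw [h4] at h3
      have := norm_sub_le (w - z') (w - z)
      linarith
    rw [hg]
    simp only [indicator_of_mem hw, indicator_of_notMem h2, sub_zero]
  have hg2 : ∀ w, w ∈ thickening (δ / 2) T₂ → g w = -1 := by
    intro w hw
    have h2 : w ∉ thickening (δ / 2) T₁ := by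
      intro h2
      obtain ⟨z', hz', d1⟩ := hmem.1 hw
      obtain ⟨z, hz, d2⟩ := hmem.1 h2
      have h3 := hs z hz z' hz'
      have h4 : z - z' = (w - z') - (w - z) := by abel
      rw [h4] at h3
      have := norm_sub_le (w - z') (w - z)
      linarith
    rw [hg]
    simp only [indicator_of_mem hw, indicator_of_notMem h2, zero_sub]
  let φ : ContDiffBump (0 : E n × E n) := ⟨δ / 8, δ / 4, by positivity, by linarith⟩
  have hr : φ.rOut = δ / 4 := rfl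
  have hball : ∀ {T : Set (E n × E n)} (w z : E n × E n), z ∈ T → ‖w - z‖ < δ / 4 →
      ∀ x ∈ ball w φ.rOut, x ∈ thickening (δ / 2) T := by
    intro T w z hz hd x hx
    rw [hr, mem_ball, dist_eq_norm] at hx
    rw [hmem]
    refine ⟨z, hz, ?_⟩
    have h4 : x - z = (x - w) + (w - z) := by abel
    rw [h4]
    exact (norm_add_le _ _).trans_lt (by linarith)
  refine ⟨(φ.normed Measure.addHaar ⋆[ContinuousLinearMap.lsmul ℝ ℝ, Measure.addHaar] g),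
    ?_, ?_, ?_, ?_⟩
  · exact φ.hasCompactSupport_normed.contDiff_convolution_left _ φ.contDiff_normed hgl
  · intro w k
    rw [convolution_def, convolution_def]
    congr 1
    funext t
    have h1 : ((w.1 + latt k, w.2) : E n × E n) - t = ((w - t).1 + latt k, (w - t).2) := by
      refine Prod.ext ?_ ?_
      · simp only [Prod.fst_sub]
        abel
      · simp
    rw [h1, hgp]
  · intro w z hz hd
    have h0 : w ∈ ball w φ.rOut := mem_ball_self φ.rOut_pos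
    rw [φ.normed_convolution_eq_right (fun x hx => by
      rw [hg1 x (hball w z hz hd x hx), hg1 w (hball w z hz hd w h0)])]
    exact hg1 w (hball w z hz hd w h0)
  · intro w z hz hd
    have h0 : w ∈ ball w φ.rOut := mem_ball_self φ.rOut_pos
    rw [φ.normed_convolution_eq_right (fun x hx => by
      rw [hg2 x (hball w z hz hd x hx), hg2 w (hball w z hz hd w h0)])]
    exact hg2 w (hball w z hz hd w h0)

theorem exists_K {T₁ T₂ : Set (E n × E n)} (c1 : IsClosed T₁) (c2 : IsClosed T₂)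
    (p1 : ∀ z ∈ T₁, ∀ k : Fin n → ℤ, (z.1 + latt k, z.2) ∈ T₁)
    (p2 : ∀ z ∈ T₂, ∀ k : Fin n → ℤ, (z.1 + latt k, z.2) ∈ T₂)
    {R : ℝ} (b1 : ∀ z ∈ T₁, ‖z.2‖ ≤ R) (b2 : ∀ z ∈ T₂, ‖z.2‖ ≤ R) (hR : 0 ≤ R)
    (hd : Disjoint T₁ T₂) :
    ∃ (K : E n × E n → ℝ) (k₁ k₂ : E n × E n → E n) (M r : ℝ), 0 < r ∧ 0 ≤ M ∧ ContDiff ℝ ∞ K ∧
      ContDiff ℝ ∞ k₁ ∧ ContDiff ℝ ∞ k₂ ∧
      (∀ w a, fderiv ℝ K w a = ⟪k₁ w, a.1⟫ + ⟪k₂ w, a.2⟫) ∧
      (∀ w (k : Fin n → ℤ), K (w.1 + latt k, w.2) = K w) ∧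
      (∀ w (k : Fin n → ℤ), k₁ (w.1 + latt k, w.2) = k₁ w) ∧
      (∀ w (k : Fin n → ℤ), k₂ (w.1 + latt k, w.2) = k₂ w) ∧
      (∀ w, ‖k₁ w‖ ≤ M) ∧ (∀ w, ‖k₂ w‖ ≤ M) ∧ (∀ w w', ‖k₁ w - k₁ w'‖ ≤ M * ‖w - w'‖) ∧
      (∀ w w', ‖k₂ w - k₂ w'‖ ≤ M * ‖w - w'‖) ∧
      (∀ w, ∀ z ∈ T₁, ‖w - z‖ < r → k₂ w = w.2) ∧
      (∀ w, ∀ z ∈ T₂, ‖w - z‖ < r → k₂ w = -w.2) := by
  obtain ⟨δ, hδ, hs⟩ := sep c1 c2 p1 p2 b1 hd
  obtain ⟨χ, x1, x2, x3, x4⟩ := exists_chi p1 p2 hδ hs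
  let θ : ContDiffBump (0 : E n) := ⟨R + 1, R + 2, by linarith, by linarith⟩
  have hθs : ContDiff ℝ ∞ (θ : E n → ℝ) := θ.contDiff
  have hθ1 : ∀ p, ‖p‖ ≤ R + 1 → θ p = 1 := fun p hp =>
    θ.one_of_mem_closedBall (by rw [mem_closedBall_zero_iff]; exact hp)
  have hθ0 : ∀ p, R + 2 < ‖p‖ → θ p = 0 := fun p hp =>
    θ.zero_of_le_dist (by rw [dist_zero_right]; exact hp.le)
  obtain ⟨K, hKd⟩ : ∃ K : E n × E n → ℝ, K = fun w => 1 / 2 * (θ w.2 * (χ w * ‖w.2‖ ^ 2)) :=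
    ⟨_, rfl⟩
  have hK : ContDiff ℝ ∞ K := by
    rw [hKd]
    exact contDiff_const.mul ((hθs.comp contDiff_snd).mul
      (x1.mul (contDiff_snd.norm_sq ℝ)))
  have hKp : ∀ w (k : Fin n → ℤ), K (w.1 + latt k, w.2) = K w := fun w k => by
    rw [hKd]
    simp only [x2]
  obtain ⟨k₁, k₂, M, hM, s1, s2, hk, q1, q2, m1, m2, l1, l2⟩ := exists_grad K hK hKp (R + 2)
    (fun w hw => by rw [hKd]; simp only [hθ0 _ hw, zero_mul, mul_zero])
  have hk2 : ∀ (σ : ℝ) (w : E n × E n), (∀ᶠ y in 𝓝 w, K y = 1 / 2 * (σ * ‖y.2‖ ^ 2)) →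
      k₂ w = σ • w.2 := by
    intro σ w hw
    refine ext_inner_right ℝ fun a => ?_
    have h1 : ⟪k₂ w, a⟫ = fderiv ℝ K w (0, a) := by
      rw [hk]
      simp
    have h2 : HasFDerivAt (fun y : E n × E n => 1 / 2 * (σ * ‖y.2‖ ^ 2))
        ((1 / 2 : ℝ) • (σ • ((2 • innerSL ℝ w.2).comp (ContinuousLinearMap.snd ℝ (E n) (E n))))) w :=
      (((hasStrictFDerivAt_norm_sq w.2).hasFDerivAt.comp w hasFDerivAt_snd).const_mul σ).const_mul _
    have h3 : K =ᶠ[𝓝 w] fun y => 1 / 2 * (σ * ‖y.2‖ ^ 2) := hw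
    rw [h1, h3.fderiv_eq, h2.fderiv]
    simp [inner_smul_left]
    ring
  refine ⟨K, k₁, k₂, M, min (δ / 4) 1, lt_min (by positivity) one_pos, hM, hK, s1, s2, hk, hKp, q1,
    q2, m1, m2, l1, l2, fun w z hz hw => ?_, fun w z hz hw => ?_⟩
  · have h1 : ∀ᶠ y in 𝓝 w, ‖y - z‖ < min (δ / 4) 1 :=
      (continuous_id.sub continuous_const).norm.continuousAt.eventually (gt_mem_nhds hw)
    rw [hk2 1 w, one_smul]
    filter_upwards [h1] with y hy
    have h2 : ‖y.2‖ ≤ R + 1 := by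
      have h3 : y.2 = (y - z).2 + z.2 := by simp
      rw [h3]
      refine (norm_add_le _ _).trans ?_
      have h4 := (norm_snd_le (y - z)).trans (hy.le.trans (min_le_right _ _))
      linarith [b1 z hz]
    rw [hKd]
    simp only [hθ1 _ h2, x3 y z hz (hy.trans_le (min_le_left _ _)), one_mul]
  · have h1 : ∀ᶠ y in 𝓝 w, ‖y - z‖ < min (δ / 4) 1 :=
      (continuous_id.sub continuous_const).norm.continuousAt.eventually (gt_mem_nhds hw)
    rw [hk2 (-1) w, neg_one_smul]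
    filter_upwards [h1] with y hy
    have h2 : ‖y.2‖ ≤ R + 1 := by
      have h3 : y.2 = (y - z).2 + z.2 := by simp
      rw [h3]
      refine (norm_add_le _ _).trans ?_
      have h4 := (norm_snd_le (y - z)).trans (hy.le.trans (min_le_right _ _))
      linarith [b2 z hz]
    rw [hKd]
    simp only [hθ1 _ h2, x4 y z hz (hy.trans_le (min_le_left _ _)), one_mul]

end Run7.h7.Lag
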