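import Pool.Agent.Run7.h7.LagD

/-!
# Lower bounds for nearby pairs after the symplectic perturbation
-/

set_option autoImplicit false

open Set Filter Topology Metric Function
open scoped ContDiff RealInnerProductSpace

noncomputable section

namespace Run7.h7.Lag

open Pool.Agent.Y522.ML

variable {n : ℕ}

/-- the lower bound for a pair -/
def Bd (k₂ : E n × E n → E n) (t : ℝ) (z z' : E n × E n) : Prop :=
  ∀ w w' : E n × E n, w.2 = z.2 → w.1 = z.1 + t • k₂ w → w'.2 = z'.2 → w'.1 = z'.1 + t • k₂ w' →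
    t / 4 * ‖z - z'‖ ≤ ‖w.1 - w'.1‖

theorem Bd.shift {k₂ : E n × E n → E n}
    (q2 : ∀ w (k : Fin n → ℤ), k₂ (w.1 + latt k, w.2) = k₂ w) {t : ℝ} {z z' : E n × E n}
    (k : Fin n → ℤ) (h : Bd k₂ t (z.1 + latt k, z.2) (z'.1 + latt k, z'.2)) : Bd k₂ t z z' := by
  intro w w' w1 w2 w1' w2'
  have h1 := h (w.1 + latt k, w.2) (w'.1 + latt k, w'.2) w1 (by
    rw [q2]
    show w.1 + latt k = z.1 + latt k + t • k₂ w
    rw [w2]
    nth_rewrite 1 [← w2]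
    nth_rewrite 1 [w2]
    abel) w1' (by
    rw [q2]
    show w'.1 + latt k = z'.1 + latt k + t • k₂ w'
    nth_rewrite 1 [w2']
    abel)
  rw [shift_sub] at h1
  simpa using h1

theorem loc_sing {Λ : Set (E n × E n)} {σ : ℝ} (hσ : σ = 1 ∨ σ = -1) {z₀ : E n × E n}
    (hS : Ss Λ σ z₀) {k₂ : E n × E n → E n} {M r : ℝ} (hM : 0 ≤ M) (hr : 0 < r)
    (hk : ∀ w, ‖w - z₀‖ < r → k₂ w = σ • w.2) (m2 : ∀ w, ‖k₂ w‖ ≤ M) :
    ∃ ε > 0, ∀ t, 0 < t → t ≤ ε → ∀ z ∈ Λ, ∀ z' ∈ Λ, ‖z - z₀‖ < ε → ‖z' - z₀‖ < ε →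
      Bd k₂ t z z' := by
  obtain ⟨δ, hδ, hb⟩ := hS
  have hσ2 : σ * σ = 1 := by rcases hσ with h | h <;> rw [h] <;> norm_num
  have hσn : |σ| = 1 := by rcases hσ with h | h <;> rw [h] <;> simp
  obtain ⟨ε, hε, e1, e2, e3, e4, e5⟩ : ∃ ε : ℝ, 0 < ε ∧ ε ≤ δ ∧ ε ≤ r / 2 ∧ ε ≤ 1 ∧ ε ≤ δ / 2 ∧
      ε * M < r / 2 := by
    refine ⟨min (min (δ / 2) (r / 2)) (min 1 (r / (4 * (M + 1)))), ?_, ?_, ?_, ?_, ?_, ?_⟩
    · exact lt_min (lt_min (by positivity) (by positivity)) (lt_min one_pos (by positivity))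
    · exact ((min_le_left _ _).trans (min_le_left _ _)).trans (by linarith)
    · exact (min_le_left _ _).trans (min_le_right _ _)
    · exact (min_le_right _ _).trans (min_le_left _ _)
    · exact (min_le_left _ _).trans (min_le_left _ _)
    · have h1 : min (min (δ / 2) (r / 2)) (min 1 (r / (4 * (M + 1)))) ≤ r / (4 * (M + 1)) :=
        (min_le_right _ _).trans (min_le_right _ _)
      have h2 := mul_le_mul_of_nonneg_right h1 hM
      have h3 : r / (4 * (M + 1)) * M ≤ r / 4 := by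
        rw [div_mul_eq_mul_div, div_le_div_iff₀ (by positivity) (by positivity)]
        nlinarith
      linarith
  refine ⟨ε, hε, fun t ht htε z hz z' hz' hn hn' w w' w1 w2 w1' w2' => ?_⟩
  have hww : ∀ z w : E n × E n, ‖z - z₀‖ < ε → w.2 = z.2 → w.1 = z.1 + t • k₂ w →
      k₂ w = σ • z.2 := by
    intro z w hn w1 w2
    rw [← w1]
    apply hk
    have h1 : w - z₀ = (z - z₀) + (t • k₂ w, 0) := by
      refine Prod.ext ?_ ?_
      · simp only [Prod.fst_sub, Prod.fst_add]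
        nth_rewrite 1 [w2]
        abel
      · simp [w1]
    rw [h1]
    refine (norm_add_le _ _).trans_lt ?_
    have h2 : ‖((t • k₂ w, 0) : E n × E n)‖ ≤ ε * M := by
      rw [Prod.norm_def]
      simp only [norm_zero]
      refine max_le ?_ (by positivity)
      rw [norm_smul, Real.norm_of_nonneg ht.le]
      exact mul_le_mul htε (m2 w) (norm_nonneg _) hε.le
    linarith
  have g1 := hww z w hn w1 w2
  have g2 := hww z' w' hn' w1' w2'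
  obtain ⟨a, ha⟩ : ∃ a, a = z.1 - z'.1 := ⟨_, rfl⟩
  obtain ⟨b, hb'⟩ : ∃ b, b = z.2 - z'.2 := ⟨_, rfl⟩
  have hw : w.1 - w'.1 = a + (t * σ) • b := by
    rw [w2, w2', g1, g2, ha, hb', mul_smul, smul_sub, smul_sub]
    abel
  have hzn : ‖z - z'‖ = max ‖a‖ ‖b‖ := by
    rw [Prod.norm_def, ha, hb']
    rfl
  rw [hw, hzn]
  have ht1 : t ≤ 1 := htε.trans e3
  rcases le_or_gt ‖a‖ (δ * ‖b‖) with h1 | h1
  · have h2 := hb z hz z' hz' (hn.trans_le e1) (hn'.trans_le e1) (by rw [← ha, ← hb']; exact h1)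
    rw [← ha, ← hb'] at h2
    have h3 : ‖a + (t * σ) • b‖ ^ 2 = ‖a‖ ^ 2 + 2 * t * (σ * ⟪a, b⟫) + t ^ 2 * ‖b‖ ^ 2 := by
      rw [norm_add_sq_real, norm_smul, inner_smul_right, Real.norm_eq_abs, abs_mul, hσn,
        abs_of_pos ht]
      ring
    have h4 : 2 * t * (-(1 / 2) * (‖a‖ * ‖b‖)) ≤ 2 * t * (σ * ⟪a, b⟫) :=
      mul_le_mul_of_nonneg_left h2 (by positivity)
    have h5 : 1 / 2 * ‖a‖ ^ 2 + 1 / 2 * (t * ‖b‖) ^ 2 ≤ ‖a + (t * σ) • b‖ ^ 2 := by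
      rw [h3]
      nlinarith [sq_nonneg (‖a‖ - t * ‖b‖)]
    rw [mul_max_of_nonneg _ _ (by positivity)]
    refine max_le ?_ ?_
    · refine le_of_sq_le_sq (le_trans ?_ h5) (norm_nonneg _)
      have h6 : (t / 4 * ‖a‖) ^ 2 ≤ (1 / 4 * ‖a‖) ^ 2 := by
        refine pow_le_pow_left₀ (by positivity) ?_ 2
        exact mul_le_mul_of_nonneg_right (by linarith) (norm_nonneg _)
      nlinarith [sq_nonneg (t * ‖b‖), sq_nonneg ‖a‖]
    · refine le_of_sq_le_sq (le_trans ?_ h5) (norm_nonneg _)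
      nlinarith [sq_nonneg (t * ‖b‖), sq_nonneg ‖a‖]
  · have h2 : ‖a‖ - t * ‖b‖ ≤ ‖a + (t * σ) • b‖ := by
      have h3 : a = (a + (t * σ) • b) - (t * σ) • b := by abel
      have h4 : ‖a‖ ≤ ‖a + (t * σ) • b‖ + ‖(t * σ) • b‖ := by
        conv_lhs => rw [h3]
        exact norm_sub_le _ _
      rw [norm_smul, Real.norm_eq_abs, abs_mul, hσn, abs_of_pos ht, mul_one] at h4
      linarith
    have h3 : t * ‖b‖ ≤ δ / 2 * ‖b‖ := mul_le_mul_of_nonneg_right (htε.trans e4) (norm_nonneg _)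
    have h4 : t / 4 * ‖a‖ ≤ 1 / 4 * ‖a‖ :=
      mul_le_mul_of_nonneg_right (by linarith) (norm_nonneg _)
    rw [mul_max_of_nonneg _ _ (by positivity)]
    have h5 : 0 ≤ t * ‖b‖ := by positivity
    refine max_le ?_ ?_
    · linarith [norm_nonneg a]
    · have h6 : t / 4 * ‖b‖ = 1 / 4 * (t * ‖b‖) := by ring
      rw [h6]
      linarith

theorem loc_nn {Λ : Set (E n × E n)} {z₀ : E n × E n} (hN : Nn Λ z₀) {k₂ : E n × E n → E n}
    {M : ℝ} (hM : 0 ≤ M) (l2 : ∀ w w', ‖k₂ w - k₂ w'‖ ≤ M * ‖w - w'‖) :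
    ∃ ε > 0, ∀ t, 0 < t → t ≤ ε → ∀ z ∈ Λ, ∀ z' ∈ Λ, ‖z - z₀‖ < ε → ‖z' - z₀‖ < ε →
      Bd k₂ t z z' := by
  obtain ⟨δ, hδ, hb⟩ := hN
  obtain ⟨ε, hε, e1, e3, e4, e5⟩ : ∃ ε : ℝ, 0 < ε ∧ ε ≤ δ ∧ ε ≤ 1 ∧ ε * M ≤ δ / 2 ∧
      ε * M ≤ 1 / 2 := by
    refine ⟨min (min δ 1) (min (δ / (2 * (M + 1))) (1 / (2 * (M + 1)))), ?_, ?_, ?_, ?_, ?_⟩
    · exact lt_min (lt_min hδ one_pos) (lt_min (by positivity) (by positivity))
    · exact (min_le_left _ _).trans (min_le_left _ _)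
    · exact (min_le_left _ _).trans (min_le_right _ _)
    · have h1 : min (min δ 1) (min (δ / (2 * (M + 1))) (1 / (2 * (M + 1)))) ≤
          δ / (2 * (M + 1)) := (min_le_right _ _).trans (min_le_left _ _)
      refine (mul_le_mul_of_nonneg_right h1 hM).trans ?_
      rw [div_mul_eq_mul_div, div_le_div_iff₀ (by positivity) (by positivity)]
      nlinarith
    · have h1 : min (min δ 1) (min (δ / (2 * (M + 1))) (1 / (2 * (M + 1)))) ≤
          1 / (2 * (M + 1)) := (min_le_right _ _).trans (min_le_right _ _)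
      refine (mul_le_mul_of_nonneg_right h1 hM).trans ?_
      rw [div_mul_eq_mul_div, div_le_div_iff₀ (by positivity) (by positivity)]
      nlinarith
  refine ⟨ε, hε, fun t ht htε z hz z' hz' hn hn' w w' w1 w2 w1' w2' => ?_⟩
  have h1 := hb z hz z' hz' (hn.trans_le e1) (hn'.trans_le e1)
  obtain ⟨a, ha⟩ : ∃ a, a = z.1 - z'.1 := ⟨_, rfl⟩
  obtain ⟨b, hb'⟩ : ∃ b, b = z.2 - z'.2 := ⟨_, rfl⟩
  have hzn : ‖z - z'‖ = max ‖a‖ ‖b‖ := by
    rw [Prod.norm_def, ha, hb']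
    rfl
  rw [← ha, ← hb'] at h1
  have htM1 : t * M ≤ δ / 2 := (mul_le_mul_of_nonneg_right htε hM).trans e4
  have htM2 : t * M ≤ 1 / 2 := (mul_le_mul_of_nonneg_right htε hM).trans e5
  have ht1 : t ≤ 1 := htε.trans e3
  have htδ : t ≤ δ := htε.trans e1
  have h2 : a = (w.1 - w'.1) - t • (k₂ w - k₂ w') := by
    have g1 : z.1 = w.1 - t • k₂ w := by
      rw [eq_sub_iff_add_eq]
      exact w2.symm
    have g2 : z'.1 = w'.1 - t • k₂ w' := by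
      rw [eq_sub_iff_add_eq]
      exact w2'.symm
    rw [ha, g1, g2, smul_sub]
    abel
  have h3 : ‖w - w'‖ ≤ ‖w.1 - w'.1‖ + ‖b‖ := by
    rw [Prod.norm_def]
    refine max_le ?_ ?_
    · show ‖w.1 - w'.1‖ ≤ _
      linarith [norm_nonneg b]
    · show ‖w.2 - w'.2‖ ≤ _
      rw [w1, w1', hb']
      linarith [norm_nonneg (w.1 - w'.1)]
  have h4 : ‖a‖ ≤ ‖w.1 - w'.1‖ + t * M * (‖w.1 - w'.1‖ + ‖b‖) := by
    rw [h2]
    refine (norm_sub_le _ _).trans (add_le_add le_rfl ?_)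
    rw [norm_smul, Real.norm_of_nonneg ht.le, mul_assoc]
    exact mul_le_mul_of_nonneg_left ((l2 w w').trans (mul_le_mul_of_nonneg_left h3 hM)) ht.le
  have h5 : t * M * ‖w.1 - w'.1‖ ≤ 1 / 2 * ‖w.1 - w'.1‖ :=
    mul_le_mul_of_nonneg_right htM2 (norm_nonneg _)
  have h6 : t * M * ‖b‖ ≤ δ / 2 * ‖b‖ := mul_le_mul_of_nonneg_right htM1 (norm_nonneg _)
  have h7 : ‖a‖ ≤ 3 * ‖w.1 - w'.1‖ := by linarith
  rw [hzn, mul_max_of_nonneg _ _ (by positivity)]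
  refine max_le ?_ ?_
  · have h8 : t / 4 * ‖a‖ ≤ 1 / 4 * ‖a‖ :=
      mul_le_mul_of_nonneg_right (by linarith) (norm_nonneg _)
    linarith [norm_nonneg (w.1 - w'.1)]
  · have h8 : t * ‖b‖ ≤ δ * ‖b‖ := mul_le_mul_of_nonneg_right htδ (norm_nonneg _)
    have h9 : t / 4 * ‖b‖ = 1 / 4 * (t * ‖b‖) := by ring
    rw [h9]
    linarith [norm_nonneg (w.1 - w'.1)]

theorem unif {Λ : Set (E n × E n)} (hΛ : LagT n Λ) {k₂ : E n × E n → E n}
    (q2 : ∀ w (k : Fin n → ℤ), k₂ (w.1 + latt k, w.2) = k₂ w)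
    (hloc : ∀ z₀ ∈ Λ, ∃ ε > 0, ∀ t, 0 < t → t ≤ ε → ∀ z ∈ Λ, ∀ z' ∈ Λ, ‖z - z₀‖ < ε →
      ‖z' - z₀‖ < ε → Bd k₂ t z z') :
    ∃ ε > 0, ∀ t, 0 < t → t ≤ ε → ∀ z ∈ Λ, ∀ z' ∈ Λ, ‖z - z'‖ < ε → Bd k₂ t z z' := by
  obtain ⟨R, hR⟩ := hΛ.bdd
  have hc : IsCompact (Λ ∩ (Qc n ×ˢ closedBall (0 : E n) R)) :=
    (Qc_compact.prod (isCompact_closedBall _ _)).inter_left hΛ.closed
  have key : ∃ ε > 0, ∀ t, 0 < t → t ≤ ε → ∀ z ∈ Λ ∩ (Qc n ×ˢ closedBall (0 : E n) R), z ∈ Λ →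
      ∀ z' ∈ Λ, ‖z - z'‖ < ε → Bd k₂ t z z' := by
    refine hc.induction_on (p := fun S => ∃ ε > 0, ∀ t, 0 < t → t ≤ ε → ∀ z ∈ S, z ∈ Λ →
      ∀ z' ∈ Λ, ‖z - z'‖ < ε → Bd k₂ t z z') ?_ ?_ ?_ ?_
    · exact ⟨1, one_pos, fun t _ _ z hz => absurd hz (notMem_empty z)⟩
    · rintro s s' hs ⟨ε, hε, h⟩
      exact ⟨ε, hε, fun t ht hte z hz => h t ht hte z (hs hz)⟩
    · rintro s s' ⟨ε, hε, h⟩ ⟨ε', hε', h'⟩
      refine ⟨min ε ε', lt_min hε hε', fun t ht hte z hz hzΛ z' hz' hd => ?_⟩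
      rcases hz with hz | hz
      · exact h t ht (hte.trans (min_le_left _ _)) z hz hzΛ z' hz' (hd.trans_le (min_le_left _ _))
      · exact h' t ht (hte.trans (min_le_right _ _)) z hz hzΛ z' hz' (hd.trans_le (min_le_right _ _))
    · rintro z₀ ⟨hz₀, -⟩
      obtain ⟨ε, hε, h⟩ := hloc z₀ hz₀
      refine ⟨ball z₀ (ε / 2), mem_nhdsWithin_of_mem_nhds (ball_mem_nhds _ (by positivity)), ε / 2,
        by positivity, fun t ht hte z hz hzΛ z' hz' hd => ?_⟩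
      rw [mem_ball, dist_eq_norm] at hz
      refine h t ht (by linarith) z hzΛ z' hz' (by linarith) ?_
      have h1 : z' - z₀ = (z - z₀) - (z - z') := by abel
      rw [h1]
      exact (norm_sub_le _ _).trans_lt (by linarith)
  obtain ⟨ε, hε, h⟩ := key
  refine ⟨ε, hε, fun t ht hte z hz z' hz' hd => ?_⟩
  obtain ⟨k, hk⟩ := red z.1
  refine Bd.shift q2 k (h t ht hte _ ⟨hΛ.per z hz k, hk, ?_⟩ (hΛ.per z hz k) _ (hΛ.per z' hz' k) ?_)
  · rw [mem_closedBall_zero_iff]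
    exact hR z hz
  · rw [shift_sub]
    exact hd

end Run7.h7.Lag
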