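import Pool.Agent.Run7.h7.LagE

/-!
# Exactness and symplectic diffeomorphisms with a generating function
-/

set_option autoImplicit false

open Set Filter Topology Metric Function
open scoped ContDiff RealInnerProductSpace

noncomputable section

namespace Run7.h7.Lag

open Pool.Agent.Y522.ML

variable {n : ℕ}

/-- `h` is a periodic primitive of the form `p dq` on `Λ` -/
def Ex (Λ : Set (E n × E n)) (h : E n × E n → ℝ) : Prop :=
  (∀ z ∈ Λ, ∀ k : Fin n → ℤ, h (z.1 + latt k, z.2) = h z) ∧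
  ∀ F : E n → E n × E n, ContDiff ℝ ∞ F → (∀ s, F s ∈ Λ) → ContDiff ℝ ∞ (fun s => h (F s)) ∧
    ∀ s v, fderiv ℝ (fun s => h (F s)) s v = ⟪(F s).2, (fderiv ℝ F s v).1⟫

theorem exact_push {Λ : Set (E n × E n)} {h : E n × E n → ℝ} (hh : Ex Λ h)
    {K : E n × E n → ℝ} {k₁ k₂ : E n × E n → E n}
    (hK : ContDiff ℝ ∞ K) (s2 : ContDiff ℝ ∞ k₂)
    (hk : ∀ w a, fderiv ℝ K w a = ⟪k₁ w, a.1⟫ + ⟪k₂ w, a.2⟫)
    (q0 : ∀ w (k : Fin n → ℤ), K (w.1 + latt k, w.2) = K w)
    (q2 : ∀ w (k : Fin n → ℤ), k₂ (w.1 + latt k, w.2) = k₂ w) {t : ℝ}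
    (Φ : E n × E n ≃ E n × E n) (P2 : ContDiff ℝ ∞ Φ.symm)
    (P3 : ∀ z (k : Fin n → ℤ), Φ (z.1 + latt k, z.2) = ((Φ z).1 + latt k, (Φ z).2))
    (P5 : ∀ z, ∃ w, w.2 = z.2 ∧ w.1 = z.1 + t • k₂ w ∧ Φ z = (w.1, w.2 - t • k₁ w)) :
    ∃ h' : E n × E n → ℝ, Ex (Φ '' Λ) h' := by
  have P3' : ∀ z (k : Fin n → ℤ),
      Φ.symm (z.1 + latt k, z.2) = ((Φ.symm z).1 + latt k, (Φ.symm z).2) := by
    intro z k
    rw [Equiv.symm_apply_eq, P3]
    simp
  refine ⟨fun y => h (Φ.symm y) + t * (⟪(Φ.symm y).2, k₂ (y.1, (Φ.symm y).2)⟫ -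
    K (y.1, (Φ.symm y).2)), ?_, ?_⟩
  · rintro _ ⟨z, hz, rfl⟩ k
    have h1 := q2 ((Φ z).1, z.2) k
    have h2 := q0 ((Φ z).1, z.2) k
    simp only at h1 h2
    simp only [P3', Equiv.symm_apply_apply, h1, h2]
    rw [hh.1 z hz k]
  · intro F' hF' hm
    obtain ⟨F, hF⟩ : ∃ F : E n → E n × E n, ∀ s, F s = Φ.symm (F' s) := ⟨_, fun _ => rfl⟩
    have hFs : ContDiff ℝ ∞ F := by
      rw [funext hF]
      exact P2.comp hF'
    have hFm : ∀ s, F s ∈ Λ := by
      intro s
      obtain ⟨z, hz, hz'⟩ := hm s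
      rw [hF, ← hz', Equiv.symm_apply_apply]
      exact hz
    obtain ⟨W, hW⟩ : ∃ W : E n → E n × E n, ∀ s, W s = ((F' s).1, (F s).2) := ⟨_, fun _ => rfl⟩
    have hWs : ContDiff ℝ ∞ W := by
      rw [funext hW]
      exact (contDiff_fst.comp hF').prodMk (contDiff_snd.comp hFs)
    have hrel : ∀ s, (F' s).1 = (F s).1 + t • k₂ (W s) ∧ (F' s).2 = (F s).2 - t • k₁ (W s) := by
      intro s
      obtain ⟨w, w1, w2, w3⟩ := P5 (F s)
      have h1 : Φ (F s) = F' s := by rw [hF, Equiv.apply_symm_apply]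
      rw [h1] at w3
      have h2 : w = W s := by
        rw [hW, w3, ← w1]
      refine ⟨?_, ?_⟩
      · rw [w3, ← h2]
        exact w2
      · rw [w3, ← h2, ← w1]
    obtain ⟨g1, g2⟩ := hh.2 F hFs hFm
    have hfun : (fun s => h (Φ.symm (F' s)) + t * (⟪(Φ.symm (F' s)).2,
        k₂ ((F' s).1, (Φ.symm (F' s)).2)⟫ - K ((F' s).1, (Φ.symm (F' s)).2))) =
        fun s => h (F s) + t * (⟪(F s).2, k₂ (W s)⟫ - K (W s)) := by
      funext s
      rw [← hF, ← hW]
    refine ⟨?_, fun s v => ?_⟩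
    · simp only [hfun]
      exact g1.add (contDiff_const.mul (((contDiff_snd.comp hFs).inner ℝ (s2.comp hWs)).sub
        (hK.comp hWs)))
    · simp only [hfun]
      have d1 : HasFDerivAt F (fderiv ℝ F s) s :=
        (hFs.differentiable (by simp)).differentiableAt.hasFDerivAt
      have d2 : HasFDerivAt F' (fderiv ℝ F' s) s :=
        (hF'.differentiable (by simp)).differentiableAt.hasFDerivAt
      have d3 : HasFDerivAt W (fderiv ℝ W s) s :=
        (hWs.differentiable (by simp)).differentiableAt.hasFDerivAt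
      have d4 : HasFDerivAt k₂ (fderiv ℝ k₂ (W s)) (W s) :=
        (s2.differentiable (by simp)).differentiableAt.hasFDerivAt
      have d5 : HasFDerivAt K (fderiv ℝ K (W s)) (W s) :=
        (hK.differentiable (by simp)).differentiableAt.hasFDerivAt
      have d6 : HasFDerivAt (fun s => h (F s)) (fderiv ℝ (fun s => h (F s)) s) s :=
        (g1.differentiable (by simp)).differentiableAt.hasFDerivAt
      have d7 : HasFDerivAt (fun s => k₂ (W s)) ((fderiv ℝ k₂ (W s)).comp (fderiv ℝ W s)) s :=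
        d4.comp s d3
      have d8 : HasFDerivAt (fun s => K (W s)) ((fderiv ℝ K (W s)).comp (fderiv ℝ W s)) s :=
        d5.comp s d3
      have d9 : HasFDerivAt (fun s => (F s).2)
          ((ContinuousLinearMap.snd ℝ (E n) (E n)).comp (fderiv ℝ F s)) s := d1.snd
      have d10 := d6.add (((d9.inner ℝ d7).sub d8).const_mul t)
      have e1 : ∀ v, (fderiv ℝ W s v) = ((fderiv ℝ F' s v).1, (fderiv ℝ F s v).2) := by
        intro v
        have h1 : HasFDerivAt W
            (((ContinuousLinearMap.fst ℝ (E n) (E n)).comp (fderiv ℝ F' s)).prod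
              ((ContinuousLinearMap.snd ℝ (E n) (E n)).comp (fderiv ℝ F s))) s := by
          rw [funext hW]
          exact d2.fst.prodMk d1.snd
        rw [h1.fderiv]
        rfl
      have e2 : (fderiv ℝ F' s v).1 = (fderiv ℝ F s v).1 +
          t • fderiv ℝ k₂ (W s) (fderiv ℝ W s v) := by
        have h1 : HasFDerivAt (fun s => (F' s).1)
            ((ContinuousLinearMap.fst ℝ (E n) (E n)).comp (fderiv ℝ F' s)) s := d2.fst
        have h2 : HasFDerivAt (fun s => (F' s).1)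
            ((ContinuousLinearMap.fst ℝ (E n) (E n)).comp (fderiv ℝ F s) +
              t • ((fderiv ℝ k₂ (W s)).comp (fderiv ℝ W s))) s := by
          have h3 : (fun s => (F' s).1) = fun s => (F s).1 + t • k₂ (W s) :=
            funext fun s => (hrel s).1
          rw [h3]
          exact d1.fst.add (d7.const_smul t)
        exact congrArg (fun L : E n →L[ℝ] E n => L v) (h1.unique h2)
      rw [HasFDerivAt.fderiv (f := fun s => h (F s) + t * (⟪(F s).2, k₂ (W s)⟫ - K (W s))) d10]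
      simp only [add_apply, smul_apply, sub_apply, ContinuousLinearMap.comp_apply,
        ContinuousLinearMap.prod_apply, fderivInnerCLM_apply, ContinuousLinearMap.coe_snd',
        smul_eq_mul]
      rw [g2, hk, e1 v, (hrel s).2, inner_sub_left]
      rw [e1 v] at e2
      have e3 : ⟪(F s).2, (fderiv ℝ F' s v).1⟫ = ⟪(F s).2, (fderiv ℝ F s v).1⟫ +
          t * ⟪(F s).2, fderiv ℝ k₂ (W s) ((fderiv ℝ F' s v).1, (fderiv ℝ F s v).2)⟫ := by
        conv_lhs => rw [e2]
        rw [inner_add_right, inner_smul_right]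
      rw [e3, inner_smul_left, real_inner_comm (k₂ (W s)) (fderiv ℝ F s v).2]
      simp only [RCLike.conj_to_real]
      ring

end Run7.h7.Lag
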