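import Pool.Agent.Run7.h7.LagF

/-!
# Exact Lagrangian submanifolds with immersed projection
-/

set_option autoImplicit false

open Set Filter Topology Metric Function
open scoped ContDiff RealInnerProductSpace

noncomputable section

namespace Run7.h7.Lag

open Pool.Agent.Y522.ML

variable {n : ℕ}

/-- lower bounds for nearby pairs -/
def Lb (Λ : Set (E n × E n)) (δ c : ℝ) : Prop :=
  ∀ y ∈ Λ, ∀ y' ∈ Λ, ‖y - y'‖ < δ → c * ‖y - y'‖ ≤ ‖y.1 - y'.1‖

theorem chart_of {Λ : Set (E n × E n)} (hΛ : LagT n Λ) {y : E n × E n} (hy : y ∈ Λ) :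
    ∃ F, Chart Λ y F := by
  obtain ⟨F, f1, f2, f3, f4, f5, f6⟩ := hΛ.par y hy
  exact ⟨F, f1, f2, f3, f4, f5, f6⟩

theorem Chart.im {Λ : Set (E n × E n)} {y : E n × E n} {F : E n → E n × E n}
    (hF : Chart Λ y F) {δ c : ℝ} (hδ : 0 < δ) (hc : 0 < c) (hb : Lb Λ δ c) (v : E n)
    (hv : (fderiv ℝ F 0 v).1 = 0) : v = 0 := by
  have d1 : HasFDerivAt F (fderiv ℝ F 0) 0 :=
    (hF.smooth.differentiable (by simp)).differentiableAt.hasFDerivAt
  have h1 := d1.lim_real v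
  have h2 := d1.fst.lim_real v
  have h3 : ∀ᶠ r : ℝ in atTop, ‖F (0 + r⁻¹ • v) - F 0‖ < δ := by
    have g1 : Tendsto (fun r : ℝ => F (0 + r⁻¹ • v)) atTop (𝓝 (F 0)) := by
      have g2 : Tendsto (fun r : ℝ => (0 : E n) + r⁻¹ • v) atTop (𝓝 0) := by
        have := (tendsto_inv_atTop_zero (𝕜 := ℝ)).smul_const v
        rw [zero_smul] at this
        simpa using this
      exact (hF.smooth.continuous.tendsto 0).comp g2
    have g3 := (g1.sub_const (F 0)).norm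
    rw [sub_self, norm_zero] at g3
    exact g3.eventually (gt_mem_nhds hδ)
  have h4 : c * ‖fderiv ℝ F 0 v‖ ≤
      ‖((ContinuousLinearMap.fst ℝ (E n) (E n)).comp (fderiv ℝ F 0)) v‖ := by
    refine le_of_tendsto_of_tendsto (h1.norm.const_mul c) h2.norm ?_
    filter_upwards [h3] with r hr
    rw [norm_smul, norm_smul]
    have h5 := mul_le_mul_of_nonneg_left (hb _ (hF.mem _) _ (hF.mem _) hr) (norm_nonneg r)
    calc c * (‖r‖ * ‖F (0 + r⁻¹ • v) - F 0‖) = ‖r‖ * (c * ‖F (0 + r⁻¹ • v) - F 0‖) := by ring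
      _ ≤ _ := h5
  have h5 : ((ContinuousLinearMap.fst ℝ (E n) (E n)).comp (fderiv ℝ F 0)) v = 0 := hv
  rw [h5, norm_zero] at h4
  refine hF.imm 0 v (norm_le_zero_iff.1 ?_)
  by_contra hcon
  push Not at hcon
  have := mul_pos hc hcon
  linarith

/-- local sections -/
theorem sect {Λ : Set (E n × E n)} {y : E n × E n} {F : E n → E n × E n}
    (hF : Chart Λ y F) {δ c : ℝ} (hδ : 0 < δ) (hc : 0 < c) (hb : Lb Λ δ c)
    {h : E n × E n → ℝ} (hh : Ex Λ h) :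
    ∃ Y : E n → E n × E n, Y y.1 = y ∧ ContinuousAt Y y.1 ∧ (∀ x, Y x ∈ Λ) ∧
      (∀ᶠ x in 𝓝 y.1, (Y x).1 = x) ∧ HasFDerivAt (fun x => h (Y x)) (innerSL ℝ y.2) y.1 := by
  obtain ⟨G, hG⟩ : ∃ G : E n → E n, ∀ s, G s = (F s).1 := ⟨_, fun _ => rfl⟩
  have hGs : ContDiff ℝ ∞ G := by
    rw [funext hG]
    exact contDiff_fst.comp hF.smooth
  obtain ⟨D, hD⟩ : ∃ D : E n →L[ℝ] E n, ∀ v, D v = (fderiv ℝ F 0 v).1 :=
    ⟨(ContinuousLinearMap.fst ℝ (E n) (E n)).comp (fderiv ℝ F 0), fun v => rfl⟩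
  have hGd : HasFDerivAt G D 0 := by
    have d1 : HasFDerivAt F (fderiv ℝ F 0) 0 :=
      (hF.smooth.differentiable (by simp)).differentiableAt.hasFDerivAt
    have h1 : D = (ContinuousLinearMap.fst ℝ (E n) (E n)).comp (fderiv ℝ F 0) := by
      ext1 v
      exact hD v
    rw [h1, funext hG]
    exact d1.fst
  have hinj : Injective (D : E n →ₗ[ℝ] E n) := by
    rw [← LinearMap.ker_eq_bot, LinearMap.ker_eq_bot']
    intro v hv
    have hv' : D v = 0 := hv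
    rw [hD] at hv'
    exact hF.im hδ hc hb v hv'
  obtain ⟨e, he⟩ : ∃ e : E n ≃L[ℝ] E n, (e : E n →L[ℝ] E n) = D := by
    refine ⟨(LinearEquiv.ofInjectiveEndo _ hinj).toContinuousLinearEquiv, ?_⟩
    ext1 v
    rfl
  rw [← he] at hGd
  have hn : (∞ : WithTop ℕ∞) ≠ 0 := by simp
  have hs : HasStrictFDerivAt G (e : E n →L[ℝ] E n) 0 :=
    hGs.contDiffAt.hasStrictFDerivAt' hGd hn
  have hG0 : G 0 = y.1 := by rw [hG, hF.base]
  obtain ⟨I, hI1, hI2, hI3⟩ : ∃ I : E n → E n, HasFDerivAt I (e.symm : E n →L[ℝ] E n) y.1 ∧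
      I y.1 = 0 ∧ ∀ᶠ x in 𝓝 y.1, G (I x) = x := by
    rw [← hG0]
    exact ⟨hs.localInverse G e 0, hs.to_localInverse.hasFDerivAt, hs.localInverse_apply_image,
      hs.eventually_right_inverse⟩
  refine ⟨fun x => F (I x), by simp only [hI2, hF.base], ?_, fun x => hF.mem _, ?_, ?_⟩
  · exact hF.smooth.continuous.continuousAt.comp hI1.continuousAt
  · filter_upwards [hI3] with x hx
    rw [← hG, hx]
  · obtain ⟨g1, g2⟩ := hh.2 F hF.smooth hF.mem
    have d1 : HasFDerivAt (fun s => h (F s)) (fderiv ℝ (fun s => h (F s)) (I y.1)) (I y.1) :=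
      (g1.differentiable (by simp)).differentiableAt.hasFDerivAt
    have d2 := d1.comp y.1 hI1
    refine d2.congr_fderiv ?_
    ext1 v
    show fderiv ℝ (fun s => h (F s)) (I y.1) (e.symm v) = ⟪y.2, v⟫
    rw [g2, hI2, ← hD, hF.base]
    have h3 : D (e.symm v) = v := by
      rw [← he]
      exact e.apply_symm_apply v
    rw [h3]

theorem cont_ex {Λ : Set (E n × E n)} (hΛ : LagT n Λ) {h : E n × E n → ℝ} (hh : Ex Λ h) :
    ContinuousOn h Λ := by
  intro y hy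
  obtain ⟨F, hF⟩ := chart_of hΛ hy
  obtain ⟨g1, -⟩ := hh.2 F hF.smooth hF.mem
  rw [Metric.continuousWithinAt_iff]
  intro ε hε
  have h1 : {s | dist (h (F s)) (h (F 0)) < ε} ∈ 𝓝 (0 : E n) :=
    (Metric.continuousAt_iff'.1 g1.continuous.continuousAt) ε hε
  obtain ⟨δ, hδ, hn⟩ := hF.near h1
  refine ⟨δ, hδ, fun {x} hx hd => ?_⟩
  rw [dist_eq_norm] at hd
  obtain ⟨s, hs, rfl⟩ := hn x hx hd
  have h2 : dist (h (F s)) (h (F 0)) < ε := hs
  rwa [hF.base] at h2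

/-- exact Lagrangian submanifolds with immersed projection have injective projection -/
theorem inj_proj {Λ : Set (E n × E n)} (hΛ : LagT n Λ) {h : E n × E n → ℝ} (hh : Ex Λ h)
    {δ c : ℝ} (hδ : 0 < δ) (hc : 0 < c) (hb : Lb Λ δ c) :
    ∀ y ∈ Λ, ∀ y' ∈ Λ, y.1 = y'.1 → y = y' := by
  obtain ⟨R, hR⟩ := hΛ.bdd
  by_contra hcon
  push Not at hcon
  obtain ⟨y₀, hy₀, y₀', hy₀', he₀, hne₀⟩ := hcon
  have hfar : ∀ y ∈ Λ, ∀ y' ∈ Λ, y.1 = y'.1 → y ≠ y' → δ ≤ ‖y - y'‖ := by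
    intro y hy y' hy' he hne
    by_contra hlt
    push Not at hlt
    have h1 := hb y hy y' hy' hlt
    rw [he, sub_self, norm_zero] at h1
    refine hne (sub_eq_zero.1 (norm_le_zero_iff.1 ?_))
    by_contra hpos
    push Not at hpos
    have := mul_pos hc hpos
    linarith
  obtain ⟨Q, hQ⟩ : ∃ Q : Set (E n × E n), Q = Λ ∩ (Qc n ×ˢ closedBall (0 : E n) R) := ⟨_, rfl⟩
  have hQc : IsCompact Q := by
    rw [hQ]
    exact (Qc_compact.prod (isCompact_closedBall _ _)).inter_left hΛ.closed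
  obtain ⟨C, hC⟩ : ∃ C : Set ((E n × E n) × (E n × E n)),
      C = (Q ×ˢ Q) ∩ ({p | p.1.1 = p.2.1} ∩ {p | δ ≤ ‖p.1 - p.2‖}) := ⟨_, rfl⟩
  have hCc : IsCompact C := by
    rw [hC]
    refine (hQc.prod hQc).inter_right (IsClosed.inter ?_ ?_)
    · exact isClosed_eq (by fun_prop) (by fun_prop)
    · exact isClosed_le continuous_const (by fun_prop)
  -- every pair can be moved to `C`
  have hmove : ∀ y ∈ Λ, ∀ y' ∈ Λ, y.1 = y'.1 → y ≠ y' → ∃ p ∈ C, h p.1 - h p.2 = h y - h y' := by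
    intro y hy y' hy' he hne
    obtain ⟨k, hk⟩ := red y.1
    refine ⟨((y.1 + latt k, y.2), (y'.1 + latt k, y'.2)), ?_, ?_⟩
    · rw [hC, hQ]
      refine ⟨⟨⟨hΛ.per y hy k, hk, ?_⟩, ⟨hΛ.per y' hy' k, ?_, ?_⟩⟩, ?_, ?_⟩
      · rw [mem_closedBall_zero_iff]
        exact hR y hy
      · rw [← he]
        exact hk
      · rw [mem_closedBall_zero_iff]
        exact hR y' hy'
      · show y.1 + latt k = y'.1 + latt k
        rw [he]
      · show δ ≤ ‖(y.1 + latt k, y.2) - (y'.1 + latt k, y'.2)‖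
        rw [shift_sub]
        exact hfar y hy y' hy' he hne
    · show h (y.1 + latt k, y.2) - h (y'.1 + latt k, y'.2) = _
      rw [hh.1 y hy k, hh.1 y' hy' k]
  have hCne : C.Nonempty := by
    obtain ⟨p, hp, -⟩ := hmove y₀ hy₀ y₀' hy₀' he₀ hne₀
    exact ⟨p, hp⟩
  have hcont : ContinuousOn (fun p : (E n × E n) × (E n × E n) => h p.1 - h p.2) C := by
    have h1 := cont_ex hΛ hh
    refine ContinuousOn.sub ?_ ?_
    · refine h1.comp continuous_fst.continuousOn fun p hp => ?_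
      rw [hC, hQ] at hp
      exact hp.1.1.1
    · refine h1.comp continuous_snd.continuousOn fun p hp => ?_
      rw [hC, hQ] at hp
      exact hp.1.2.1
  obtain ⟨p, hp, hmax⟩ := hCc.exists_isMaxOn hCne hcont
  obtain ⟨y, y'⟩ := p
  rw [hC, hQ] at hp
  obtain ⟨⟨⟨hy, -⟩, ⟨hy', -⟩⟩, he, hd⟩ := hp
  have he' : y.1 = y'.1 := he
  have hd' : δ ≤ ‖y - y'‖ := hd
  have hmax' : ∀ x ∈ Λ, ∀ x' ∈ Λ, x.1 = x'.1 → x ≠ x' → h x - h x' ≤ h y - h y' := by
    intro x hx x' hx' hxe hxne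
    obtain ⟨p, hp, hp'⟩ := hmove x hx x' hx' hxe hxne
    rw [← hp']
    exact hmax hp
  obtain ⟨F, hF⟩ := chart_of hΛ hy
  obtain ⟨F', hF'⟩ := chart_of hΛ hy'
  obtain ⟨Y, a1, a2, a3, a4, a5⟩ := sect hF hδ hc hb hh
  obtain ⟨Y', b1, b2, b3, b4, b5⟩ := sect hF' hδ hc hb hh
  rw [← he'] at b1 b2 b4 b5
  have hne : y ≠ y' := by
    intro h0
    rw [h0, sub_self, norm_zero] at hd'
    linarith
  have hev : ∀ᶠ x in 𝓝 y.1, Y x ≠ Y' x := by
    have h1 : ContinuousAt (fun x => Y x - Y' x) y.1 := a2.sub b2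
    have h2 : (fun x => Y x - Y' x) y.1 ≠ 0 := by
      simp only [a1, b1]
      exact sub_ne_zero.2 hne
    filter_upwards [h1.eventually_ne h2] with x hx
    exact sub_ne_zero.1 hx
  have hloc : IsLocalMax (fun x => h (Y x) - h (Y' x)) y.1 := by
    filter_upwards [hev, a4, b4] with x hx1 hx2 hx3
    rw [a1, b1]
    exact hmax' _ (a3 x) _ (b3 x) (by rw [hx2, hx3]) hx1
  have hder := hloc.hasFDerivAt_eq_zero (a5.sub b5)
  have h0 : y.2 - y'.2 = 0 := by
    refine ext_inner_right ℝ fun v => ?_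
    have h1 := congrArg (fun L : E n →L[ℝ] ℝ => L v) hder
    have h2 : ⟪y.2, v⟫ - ⟪y'.2, v⟫ = 0 := h1
    rw [inner_sub_left, h2, inner_zero_left]
  exact hne (Prod.ext he' (sub_eq_zero.1 h0))

/-- the uniform bound -/
theorem glob {Λ : Set (E n × E n)} (hΛ : LagT n Λ) {δ c : ℝ} (hδ : 0 < δ) (hc : 0 < c)
    (hb : Lb Λ δ c) (hi : ∀ y ∈ Λ, ∀ y' ∈ Λ, y.1 = y'.1 → y = y') :
    ∃ c' > 0, ∀ y ∈ Λ, ∀ y' ∈ Λ, c' * ‖y - y'‖ ≤ ‖y.1 - y'.1‖ := by
  obtain ⟨R, hR⟩ := hΛ.bdd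
  obtain ⟨y₀, hy₀⟩ := hΛ.nonempty
  have hR0 : 0 ≤ R := (norm_nonneg _).trans (hR _ hy₀)
  obtain ⟨B, hB⟩ := (Qc_compact (n := n)).isBounded.exists_norm_le
  obtain ⟨C, hC⟩ : ∃ C : Set ((E n × E n) × (E n × E n)),
      C = ((Λ ×ˢ Λ) ∩ {p | δ ≤ ‖p.1 - p.2‖}) ∩
        ((closedBall (0 : E n) (B + 1) ×ˢ closedBall (0 : E n) R) ×ˢ
          (closedBall (0 : E n) (B + 1) ×ˢ closedBall (0 : E n) R)) := ⟨_, rfl⟩
  have hCc : IsCompact C := by
    rw [hC]
    refine IsCompact.inter_left ?_ ?_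
    · exact ((isCompact_closedBall _ _).prod (isCompact_closedBall _ _)).prod
        ((isCompact_closedBall _ _).prod (isCompact_closedBall _ _))
    · exact (hΛ.closed.prod hΛ.closed).inter (isClosed_le continuous_const (by fun_prop))
  obtain ⟨m, hm, hmC⟩ : ∃ m > 0, ∀ p ∈ C, m ≤ ‖p.1.1 - p.2.1‖ := by
    rcases C.eq_empty_or_nonempty with h0 | h0
    · exact ⟨1, one_pos, fun p hp => by rw [h0] at hp; exact absurd hp (notMem_empty p)⟩
    · obtain ⟨p, hp, hmin⟩ := hCc.exists_isMinOn h0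
        (f := fun p : (E n × E n) × (E n × E n) => ‖p.1.1 - p.2.1‖) (by fun_prop)
      refine ⟨‖p.1.1 - p.2.1‖, ?_, fun q hq => hmin hq⟩
      rw [hC] at hp
      obtain ⟨⟨⟨hp1, hp2⟩, hp3⟩, -⟩ := hp
      rw [gt_iff_lt, norm_pos_iff, sub_ne_zero]
      intro he
      have h1 := hi _ hp1 _ hp2 he
      have h2 : δ ≤ ‖p.1 - p.2‖ := hp3
      rw [h1, sub_self, norm_zero] at h2
      linarith
  refine ⟨min c (min (m / (1 + 2 * R)) (1 / (1 + 2 * R))),
    lt_min hc (lt_min (by positivity) (by positivity)), fun y hy y' hy' => ?_⟩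
  have hyn : ‖y - y'‖ ≤ ‖y.1 - y'.1‖ + 2 * R := by
    rw [Prod.norm_def]
    refine max_le ?_ ?_
    · show ‖y.1 - y'.1‖ ≤ _
      linarith
    · show ‖y.2 - y'.2‖ ≤ _
      have h1 := norm_sub_le y.2 y'.2
      linarith [hR y hy, hR y' hy', norm_nonneg (y.1 - y'.1)]
  rcases lt_or_ge ‖y - y'‖ δ with h1 | h1
  · exact (mul_le_mul_of_nonneg_right (min_le_left _ _) (norm_nonneg _)).trans (hb y hy y' hy' h1)
  · rcases le_or_gt ‖y.1 - y'.1‖ 1 with h2 | h2
    · have h3 : m ≤ ‖y.1 - y'.1‖ := by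
        obtain ⟨k, hk⟩ := red y.1
        have h4 := hmC ((y.1 + latt k, y.2), (y'.1 + latt k, y'.2)) (by
          rw [hC]
          refine ⟨⟨⟨hΛ.per y hy k, hΛ.per y' hy' k⟩, ?_⟩, ⟨?_, ?_⟩, ⟨?_, ?_⟩⟩
          · show δ ≤ ‖(y.1 + latt k, y.2) - (y'.1 + latt k, y'.2)‖
            rw [shift_sub]
            exact h1
          · rw [mem_closedBall_zero_iff]
            have := hB _ hk
            show ‖y.1 + latt k‖ ≤ B + 1
            linarith
          · rw [mem_closedBall_zero_iff]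
            exact hR y hy
          · rw [mem_closedBall_zero_iff]
            show ‖y'.1 + latt k‖ ≤ B + 1
            have h5 : y'.1 + latt k = (y.1 + latt k) - (y.1 - y'.1) := by abel
            rw [h5]
            refine (norm_sub_le _ _).trans ?_
            linarith [hB _ hk]
          · rw [mem_closedBall_zero_iff]
            exact hR y' hy')
        have h5 : (y.1 + latt k) - (y'.1 + latt k) = y.1 - y'.1 := by abel
        simp only [h5] at h4
        exact h4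
      calc min c (min (m / (1 + 2 * R)) (1 / (1 + 2 * R))) * ‖y - y'‖ ≤
            m / (1 + 2 * R) * (1 + 2 * R) :=
            mul_le_mul ((min_le_right _ _).trans (min_le_left _ _)) (by linarith)
              (norm_nonneg _) (by positivity)
        _ = m := by field_simp
        _ ≤ _ := h3
    · calc min c (min (m / (1 + 2 * R)) (1 / (1 + 2 * R))) * ‖y - y'‖ ≤
            1 / (1 + 2 * R) * ((1 + 2 * R) * ‖y.1 - y'.1‖) := by
            refine mul_le_mul ((min_le_right _ _).trans (min_le_right _ _)) ?_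
              (norm_nonneg _) (by positivity)
            nlinarith
        _ = ‖y.1 - y'.1‖ := by field_simp

end Run7.h7.Lag
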