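import Pool.Agent.Run7.h7.LagG

/-!
# Exact Lagrangian submanifolds with locally injective projection of corank at most one
-/

set_option autoImplicit false

open Set Filter Topology Metric Function
open scoped ContDiff RealInnerProductSpace

noncomputable section

namespace Run7.h7.Lag

open Pool.Agent.Y522.ML

variable {n : ℕ}

theorem Ss.opens {Λ : Set (E n × E n)} {σ : ℝ} {z₀ : E n × E n} (h : Ss Λ σ z₀) :
    ∃ δ > 0, ∀ z, ‖z - z₀‖ < δ → Ss Λ σ z := by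
  obtain ⟨δ, hδ, hb⟩ := h
  refine ⟨δ / 2, by positivity, fun z hz => ⟨δ / 2, by positivity,
    fun w hw w' hw' h1 h2 h3 => hb w hw w' hw' ?_ ?_ ?_⟩⟩
  · have h4 : w - z₀ = (w - z) + (z - z₀) := by abel
    rw [h4]
    exact (norm_add_le _ _).trans_lt (by linarith)
  · have h4 : w' - z₀ = (w' - z) + (z - z₀) := by abel
    rw [h4]
    exact (norm_add_le _ _).trans_lt (by linarith)
  · refine h3.trans (mul_le_mul_of_nonneg_right (by linarith) (norm_nonneg _))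

theorem Ss.shift {Λ : Set (E n × E n)} (hΛ : LagT n Λ) {σ : ℝ} {z₀ : E n × E n} (k : Fin n → ℤ)
    (h : Ss Λ σ (z₀.1 + latt k, z₀.2)) : Ss Λ σ z₀ := by
  obtain ⟨δ, hδ, hb⟩ := h
  refine ⟨δ, hδ, fun w hw w' hw' h1 h2 h3 => ?_⟩
  have h4 := hb _ (hΛ.per w hw k) _ (hΛ.per w' hw' k) (by rw [shift_sub]; exact h1)
    (by rw [shift_sub]; exact h2)
  have h5 : (w.1 + latt k) - (w'.1 + latt k) = w.1 - w'.1 := by abel
  simp only [h5] at h4
  exact h4 h3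

/-- the criterion -/
theorem criterion {Λ : Set (E n × E n)} (hΛ : LagT n Λ) {h : E n × E n → ℝ} (hh : Ex Λ h)
    {S₁ S₂ : Set (E n × E n)} (c1 : IsClosed S₁) (c2 : IsClosed S₂)
    (p1 : ∀ z ∈ S₁, ∀ k : Fin n → ℤ, (z.1 + latt k, z.2) ∈ S₁)
    (p2 : ∀ z ∈ S₂, ∀ k : Fin n → ℤ, (z.1 + latt k, z.2) ∈ S₂) (hd : Disjoint S₁ S₂)
    (b1 : S₁ ⊆ Λ) (b2 : S₂ ⊆ Λ) (f1 : ∀ z ∈ S₁, Ss Λ 1 z) (f2 : ∀ z ∈ S₂, Ss Λ (-1) z)
    (htri : ∀ z ∈ Λ, z ∉ S₁ → z ∉ S₂ →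
      Nn Λ z ∨ (Ss Λ 1 z ∧ ¬ Ss Λ (-1) z) ∨ (Ss Λ (-1) z ∧ ¬ Ss Λ 1 z)) :
    ∃ ψ : E n × E n ≃ E n × E n, ContDiff ℝ ∞ ψ ∧ ContDiff ℝ ∞ ψ.symm ∧
      (∀ z k, ψ (z.1 + latt k, z.2) = ((ψ z).1 + latt k, (ψ z).2)) ∧
      (∀ z a b, om (fderiv ℝ ψ z a) (fderiv ℝ ψ z b) = om a b) ∧ ψ '' {z | z.2 = 0} = Λ := by
  obtain ⟨R, hR⟩ := hΛ.bdd
  obtain ⟨z₀, hz₀⟩ := hΛ.nonempty
  have hR0 : 0 ≤ R := (norm_nonneg _).trans (hR _ hz₀)
  have hNS : ∀ σ : ℝ, ∀ z, Nn Λ z → Ss Λ σ z := by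
    rintro σ z ⟨δ, hδ, hb⟩
    refine ⟨δ / 2, by positivity, fun w hw w' hw' h1 h2 h3 => ?_⟩
    have h4 := hb w hw w' hw' (by linarith) (by linarith)
    have h5 : ‖w.2 - w'.2‖ = 0 := by
      by_contra h0
      have h6 : 0 < ‖w.2 - w'.2‖ := lt_of_le_of_ne (norm_nonneg _) (Ne.symm h0)
      nlinarith
    have h6 : w.2 - w'.2 = 0 := norm_eq_zero.1 h5
    rw [h6]
    simp
  have hany : ∀ z ∈ Λ, Ss Λ 1 z ∨ Ss Λ (-1) z := by
    intro z hz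
    by_cases g1 : z ∈ S₁
    · exact Or.inl (f1 z g1)
    · by_cases g2 : z ∈ S₂
      · exact Or.inr (f2 z g2)
      · rcases htri z hz g1 g2 with h1 | h1 | h1
        · exact Or.inl (hNS 1 z h1)
        · exact Or.inl h1.1
        · exact Or.inr h1.1
  obtain ⟨T, hT⟩ : ∃ T : ℝ → Set (E n × E n), ∀ σ z, z ∈ T σ ↔ z ∈ Λ ∧ ¬ Ss Λ σ z :=
    ⟨fun σ => {z | z ∈ Λ ∧ ¬ Ss Λ σ z}, fun _ _ => Iff.rfl⟩
  have hclosed : ∀ σ : ℝ, IsClosed (T σ) := by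
    intro σ
    have h1 : T σ = Λ ∩ {z | Ss Λ σ z}ᶜ := Set.ext fun z => hT σ z
    rw [h1]
    refine hΛ.closed.inter ?_
    rw [isClosed_compl_iff, Metric.isOpen_iff]
    intro z hz
    obtain ⟨δ, hδ, hb⟩ := Ss.opens hz
    refine ⟨δ, hδ, fun w hw => hb w ?_⟩
    rwa [mem_ball, dist_eq_norm] at hw
  have hperT : ∀ σ : ℝ, ∀ z ∈ T σ, ∀ k : Fin n → ℤ, (z.1 + latt k, z.2) ∈ T σ := by
    intro σ z hz k
    obtain ⟨hz1, hz2⟩ := (hT σ z).1 hz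
    exact (hT σ _).2 ⟨hΛ.per z hz1 k, fun h0 => hz2 (Ss.shift hΛ k h0)⟩
  have hs1 : ∀ z, z ∈ T (-1) ∪ S₁ → z ∈ Λ ∧ Ss Λ 1 z := by
    rintro z (hz | hz)
    · obtain ⟨hz1, hz2⟩ := (hT _ z).1 hz
      exact ⟨hz1, (hany z hz1).resolve_right hz2⟩
    · exact ⟨b1 hz, f1 z hz⟩
  have hs2 : ∀ z, z ∈ T 1 ∪ S₂ → z ∈ Λ ∧ Ss Λ (-1) z := by
    rintro z (hz | hz)
    · obtain ⟨hz1, hz2⟩ := (hT _ z).1 hz
      exact ⟨hz1, (hany z hz1).resolve_left hz2⟩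
    · exact ⟨b2 hz, f2 z hz⟩
  have hdisj : Disjoint (T (-1) ∪ S₁) (T 1 ∪ S₂) := by
    rw [Set.disjoint_left]
    intro z hz hz'
    obtain ⟨h1, h2⟩ := hs1 z hz
    obtain ⟨-, h3⟩ := hs2 z hz'
    rcases hz with hz | hz
    · exact ((hT _ z).1 hz).2 h3
    · rcases hz' with hz' | hz'
      · exact ((hT _ z).1 hz').2 h2
      · exact Set.disjoint_left.1 hd hz hz'
  obtain ⟨K, k₁, k₂, M, r, hr, hM, hK, s1, s2, hk, q0, q1, q2, m1, m2, l1, l2, a1, a2⟩ :=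
    exists_K ((hclosed (-1)).union c1) ((hclosed 1).union c2)
      (fun z hz k => by
        rcases hz with hz | hz
        · exact Or.inl (hperT _ z hz k)
        · exact Or.inr (p1 z hz k))
      (fun z hz k => by
        rcases hz with hz | hz
        · exact Or.inl (hperT _ z hz k)
        · exact Or.inr (p2 z hz k)) (fun z hz => hR z (hs1 z hz).1)
      (fun z hz => hR z (hs2 z hz).1) hR0 hdisj
  obtain ⟨ε, hε, hunif⟩ := unif hΛ q2 fun z hz => by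
    by_cases h1 : z ∈ T (-1) ∪ S₁
    · exact loc_sing (Or.inl rfl) (hs1 z h1).2 hM hr (fun w hw => by
        rw [one_smul]
        exact a1 w z h1 hw) m2
    · by_cases h2 : z ∈ T 1 ∪ S₂
      · exact loc_sing (Or.inr rfl) (hs2 z h2).2 hM hr (fun w hw => by
          rw [neg_one_smul]
          exact a2 w z h2 hw) m2
      · have g1 : Ss Λ (-1) z := by
          by_contra h0
          exact h1 (Or.inl ((hT _ z).2 ⟨hz, h0⟩))
        have g2 : Ss Λ 1 z := by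
          by_contra h0
          exact h2 (Or.inl ((hT _ z).2 ⟨hz, h0⟩))
        rcases htri z hz (fun h0 => h1 (Or.inr h0)) (fun h0 => h2 (Or.inr h0)) with h3 | h3 | h3
        · exact loc_nn h3 hM l2
        · exact absurd g1 h3.2
        · exact absurd g2 h3.2
  obtain ⟨t, ht, ht1, ht2⟩ : ∃ t : ℝ, 0 < t ∧ t ≤ ε ∧ t * M ≤ 1 / 2 := by
    refine ⟨min ε (1 / (2 * (M + 1))), lt_min hε (by positivity), min_le_left _ _, ?_⟩
    refine (mul_le_mul_of_nonneg_right (min_le_right _ _) hM).trans ?_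
    rw [div_mul_eq_mul_div, div_le_div_iff₀ (by positivity) (by positivity)]
    nlinarith
  obtain ⟨Φ, P1, P2, P3, P4, P5⟩ := exists_gen K hK s1 s2 hk q1 q2 l1 l2 ht.le ht2
  -- the image
  have hlag : LagT n (Φ '' Λ) := by
    refine push hΛ Φ P1 P2 P3 P4 ⟨R + t * M, fun z hz => ?_⟩
    obtain ⟨w, w1, w2, w3⟩ := P5 z
    rw [w3]
    refine (norm_sub_le _ _).trans (add_le_add (by rw [w1]; exact hR z hz) ?_)
    rw [norm_smul, Real.norm_of_nonneg ht.le]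
    exact mul_le_mul_of_nonneg_left (m1 w) ht.le
  obtain ⟨h', hh'⟩ := exact_push hh hK s2 hk q0 q2 Φ P2 P3 P5
  have hlb : Lb (Φ '' Λ) (ε / 3) (1 / (2 * (1 + 4 / t))) := by
    rintro _ ⟨z, hz, rfl⟩ _ ⟨z', hz', rfl⟩ hd
    obtain ⟨w, w1, w2, w3⟩ := P5 z
    obtain ⟨w', w1', w2', w3'⟩ := P5 z'
    have e1 : ‖((0, t • (k₁ w - k₁ w')) : E n × E n)‖ ≤ 1 / 2 * ‖w - w'‖ := by
      rw [Prod.norm_def]
      simp only [norm_zero]
      refine max_le (by positivity) ?_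
      rw [norm_smul, Real.norm_of_nonneg ht.le]
      calc t * ‖k₁ w - k₁ w'‖ ≤ t * (M * ‖w - w'‖) := mul_le_mul_of_nonneg_left (l1 _ _) ht.le
        _ = (t * M) * ‖w - w'‖ := by ring
        _ ≤ _ := mul_le_mul_of_nonneg_right ht2 (norm_nonneg _)
    have e2 : Φ z - Φ z' = (w - w') - ((0, t • (k₁ w - k₁ w')) : E n × E n) := by
      rw [w3, w3']
      refine Prod.ext ?_ ?_
      · simp
      · simp only [Prod.snd_sub, smul_sub]
        abel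
    have e3 : ‖w - w'‖ ≤ 2 * ‖Φ z - Φ z'‖ := by
      have h1 : w - w' = (Φ z - Φ z') + ((0, t • (k₁ w - k₁ w')) : E n × E n) := by
        rw [e2]
        abel
      have h2 : ‖w - w'‖ ≤ ‖Φ z - Φ z'‖ + ‖((0, t • (k₁ w - k₁ w')) : E n × E n)‖ := by
        conv_lhs => rw [h1]
        exact norm_add_le _ _
      linarith
    have e4 : ‖Φ z - Φ z'‖ ≤ 3 / 2 * ‖w - w'‖ := by
      rw [e2]
      refine (norm_sub_le _ _).trans ?_
      linarith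
    have e5 : ‖z - z'‖ ≤ 3 / 2 * ‖w - w'‖ := by
      have h1 : z - z' = (w - w') - ((t • (k₂ w - k₂ w'), 0) : E n × E n) := by
        refine Prod.ext ?_ ?_
        · have g1 : z.1 = w.1 - t • k₂ w := by
            rw [eq_sub_iff_add_eq]
            exact w2.symm
          have g2 : z'.1 = w'.1 - t • k₂ w' := by
            rw [eq_sub_iff_add_eq]
            exact w2'.symm
          simp only [Prod.fst_sub, smul_sub]
          rw [g1, g2]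
          abel
        · simp only [Prod.snd_sub, sub_zero]
          rw [w1, w1']
      rw [h1]
      refine (norm_sub_le _ _).trans ?_
      have h2 : ‖((t • (k₂ w - k₂ w'), 0) : E n × E n)‖ ≤ 1 / 2 * ‖w - w'‖ := by
        rw [Prod.norm_def]
        simp only [norm_zero]
        refine max_le ?_ (by positivity)
        rw [norm_smul, Real.norm_of_nonneg ht.le]
        calc t * ‖k₂ w - k₂ w'‖ ≤ t * (M * ‖w - w'‖) := mul_le_mul_of_nonneg_left (l2 _ _) ht.le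
          _ = (t * M) * ‖w - w'‖ := by ring
          _ ≤ _ := mul_le_mul_of_nonneg_right ht2 (norm_nonneg _)
      linarith
    have e6 : t / 4 * ‖z - z'‖ ≤ ‖w.1 - w'.1‖ :=
      hunif t ht ht1 z hz z' hz' (by linarith) w w' w1 w2 w1' w2'
    have e7 : ‖w - w'‖ ≤ ‖w.1 - w'.1‖ + ‖z - z'‖ := by
      have h1 : ‖z.2 - z'.2‖ ≤ ‖z - z'‖ := norm_snd_le (z - z')
      rw [Prod.norm_def]
      refine max_le ?_ ?_
      · show ‖w.1 - w'.1‖ ≤ _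
        linarith [norm_nonneg (z - z')]
      · show ‖w.2 - w'.2‖ ≤ _
        rw [w1, w1']
        linarith [norm_nonneg (w.1 - w'.1)]
    have e8 : (Φ z).1 - (Φ z').1 = w.1 - w'.1 := by rw [w3, w3']
    have e9 : ‖z - z'‖ ≤ 4 / t * ‖w.1 - w'.1‖ := by
      rw [div_mul_eq_mul_div, le_div_iff₀ ht]
      linarith
    rw [e8, div_mul_eq_mul_div, one_mul, div_le_iff₀ (by positivity)]
    have e10 : 0 ≤ 4 / t * ‖w.1 - w'.1‖ := by positivity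
    nlinarith [norm_nonneg (w.1 - w'.1)]
  have hc0 : 0 < 1 / (2 * (1 + 4 / t)) := by positivity
  obtain ⟨c', hc', hglob⟩ := glob hlag (by positivity) hc0 hlb
    (inj_proj hlag hh' (by positivity) hc0 hlb)
  obtain ⟨ψ, g1, g2, g3, g4, g5⟩ := main hlag (fun _ => 0) contDiff_const
    (fun p v w => by simp) hc' (fun z hz z' hz' => by
      simp only [add_zero]
      exact hglob z hz z' hz')
  have P3' : ∀ z (k : Fin n → ℤ),
      Φ.symm (z.1 + latt k, z.2) = ((Φ.symm z).1 + latt k, (Φ.symm z).2) := by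
    intro z k
    rw [Equiv.symm_apply_eq, P3]
    simp
  have hdΦ : ∀ y a, fderiv ℝ Φ (Φ.symm y) (fderiv ℝ Φ.symm y a) = a := by
    intro y a
    have f1 : HasFDerivAt Φ (fderiv ℝ Φ (Φ.symm y)) (Φ.symm y) :=
      (P1.differentiable (by simp)).differentiableAt.hasFDerivAt
    have f3 : HasFDerivAt Φ.symm (fderiv ℝ Φ.symm y) y :=
      (P2.differentiable (by simp)).differentiableAt.hasFDerivAt
    have f5 : HasFDerivAt (fun y => Φ (Φ.symm y))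
        ((fderiv ℝ Φ (Φ.symm y)).comp (fderiv ℝ Φ.symm y)) y := f1.comp y f3
    have f6 : (fun y => Φ (Φ.symm y)) = id := by
      funext y
      simp
    rw [f6] at f5
    exact congrArg (fun L : E n × E n →L[ℝ] E n × E n => L a) (f5.unique (hasFDerivAt_id y))
  refine ⟨ψ.trans Φ.symm, P2.comp g1, g2.comp P1, fun z k => ?_, fun z a b => ?_, ?_⟩
  · show Φ.symm (ψ (z.1 + latt k, z.2)) = ((Φ.symm (ψ z)).1 + latt k, (Φ.symm (ψ z)).2)
    rw [g3, P3']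
  · have f1 : HasFDerivAt ψ (fderiv ℝ ψ z) z :=
      (g1.differentiable (by simp)).differentiableAt.hasFDerivAt
    have f2 : HasFDerivAt Φ.symm (fderiv ℝ Φ.symm (ψ z)) (ψ z) :=
      (P2.differentiable (by simp)).differentiableAt.hasFDerivAt
    have f3 : fderiv ℝ (ψ.trans Φ.symm) z = (fderiv ℝ Φ.symm (ψ z)).comp (fderiv ℝ ψ z) :=
      (f2.comp z f1).fderiv
    rw [f3]
    show om (fderiv ℝ Φ.symm (ψ z) (fderiv ℝ ψ z a)) (fderiv ℝ Φ.symm (ψ z) (fderiv ℝ ψ z b)) = _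
    rw [← P4 (Φ.symm (ψ z)), hdΦ, hdΦ, g4]
  · rw [Equiv.coe_trans, image_comp, g5, ← image_comp, Equiv.symm_comp_self, image_id]

/-- exact Lagrangian submanifolds whose projection is locally injective of corank at most one away
from two closed sets with one-sided conditions -/
theorem corank_one {Λ : Set (E n × E n)} (hΛ : LagT n Λ) {h : E n × E n → ℝ} (hh : Ex Λ h)
    {S₁ S₂ : Set (E n × E n)} (c1 : IsClosed S₁) (c2 : IsClosed S₂)
    (p1 : ∀ z ∈ S₁, ∀ k : Fin n → ℤ, (z.1 + latt k, z.2) ∈ S₁)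
    (p2 : ∀ z ∈ S₂, ∀ k : Fin n → ℤ, (z.1 + latt k, z.2) ∈ S₂) (hd : Disjoint S₁ S₂)
    (b1 : S₁ ⊆ Λ) (b2 : S₂ ⊆ Λ) (f1 : ∀ z ∈ S₁, Ss Λ 1 z) (f2 : ∀ z ∈ S₂, Ss Λ (-1) z)
    (hinj : ∀ z₀ ∈ Λ, z₀ ∉ S₁ → z₀ ∉ S₂ → ∃ δ > 0, ∀ z ∈ Λ, ∀ z' ∈ Λ, ‖z - z₀‖ < δ →
      ‖z' - z₀‖ < δ → z.1 = z'.1 → z = z')
    (hcor : ∀ z₀ ∈ Λ, z₀ ∉ S₁ → z₀ ∉ S₂ → ∃ F, Chart Λ z₀ F ∧
      ∃ e : E n, ∀ v, (fderiv ℝ F 0 v).1 = 0 → ∃ c : ℝ, v = c • e) :
    ∃ ψ : E n × E n ≃ E n × E n, ContDiff ℝ ∞ ψ ∧ ContDiff ℝ ∞ ψ.symm ∧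
      (∀ z k, ψ (z.1 + latt k, z.2) = ((ψ z).1 + latt k, (ψ z).2)) ∧
      (∀ z a b, om (fderiv ℝ ψ z a) (fderiv ℝ ψ z b) = om a b) ∧ ψ '' {z | z.2 = 0} = Λ := by
  refine criterion hΛ hh c1 c2 p1 p2 hd b1 b2 f1 f2 fun z hz g1 g2 => ?_
  obtain ⟨F, hF, e, he⟩ := hcor z hz g1 g2
  by_cases h0 : ∀ v, (fderiv ℝ F 0 v).1 = 0 → v = 0
  · exact Or.inl (nn_of_inj hF h0)
  · right
    push Not at h0
    obtain ⟨v, hv, hv0⟩ := h0
    refine dichotomy hF hv hv0 (fun w hw => ?_) (hinj z hz g1 g2)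
    obtain ⟨a, ha⟩ := he v hv
    obtain ⟨b, hb⟩ := he w hw
    have ha0 : a ≠ 0 := by
      intro h1
      rw [h1, zero_smul] at ha
      exact hv0 ha
    refine ⟨b * a⁻¹, ?_⟩
    rw [ha, smul_smul, mul_assoc, inv_mul_cancel₀ ha0, mul_one]
    exact hb

end Run7.h7.Lag
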