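import Mathlib
import Pool.Agent.Run7.h7.Moll
import Pool.Agent.Run7.h7.Perturb
import Pool.Agent.Run7.h7.C1Mon

/-!
Smoothing of maps of class `C^1` which preserve a coordinate, in a ball.
-/

open MeasureTheory Filter Set Metric Function ContinuousLinearMap
open scoped Topology ContDiff Convolution Manifold RealInnerProductSpace

namespace Run7.h7

open Pool.Agent.Y522 (LD)

variable {n : ℕ} {F : Type*} [NormedAddCommGroup F] [NormedSpace ℝ F] [FiniteDimensional ℝ F]

/-- Mollifications converge in the `C^1` norm. -/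
lemma mo_C1close {g : E n → F} (hg : ContDiff ℝ 1 g) (hc : HasCompactSupport g) {ε : ℝ}
    (hε : 0 < ε) : ∀ᶠ k in atTop, ∀ x, ‖mo k g x - g x‖ ≤ ε ∧
      ‖fderiv ℝ (fun y => mo k g y - g y) x‖ ≤ ε := by
  have hcF : CompleteSpace F := FiniteDimensional.complete ℝ F
  filter_upwards [mo_close hg.continuous hc hε,
    mo_close (hg.continuous_fderiv (by simp)) (hc.fderiv ℝ) hε] with k h1 h2 x
  refine ⟨h1 x, ?_⟩
  have hm : DifferentiableAt ℝ (mo k g) x :=
    ((mo_contDiff hg.continuous.locallyIntegrable k).differentiable (by simp)) x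
  have hgd : DifferentiableAt ℝ g x := (hg.differentiable (by simp)) x
  have h3 : fderiv ℝ (fun y => mo k g y - g y) x = fderiv ℝ (mo k g) x - fderiv ℝ g x :=
    fderiv_sub hm hgd
  rw [h3]
  refine ContinuousLinearMap.opNorm_le_bound _ hε.le fun v => ?_
  rw [ContinuousLinearMap.sub_apply, mo_fderiv hg hc k x v]
  have h4 : mo k (fun y => fderiv ℝ g y v) x = (mo k (fderiv ℝ g) x) v := by
    rw [mo_apply, mo_apply, ContinuousLinearMap.integral_apply]
    · rfl
    · refine Continuous.integrable_of_hasCompactSupport ?_ ?_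
      · exact (rho n k).continuous_normed.smul
          ((hg.continuous_fderiv (by simp)).comp (continuous_const.sub continuous_id))
      · exact (rho n k).hasCompactSupport_normed.smul_right
  rw [h4, ← ContinuousLinearMap.sub_apply]
  exact (ContinuousLinearMap.le_opNorm _ v).trans
    (mul_le_mul_of_nonneg_right (h2 x) (norm_nonneg v))

/-- images of a ball -/
lemma image_ball_sub {k : ℕ} {u v : E (k + 1) → E (k + 1)} {z₀ : E (k + 1)} {r : ℝ} (hr : 0 < r)
    (hu : InjOn u (closedBall z₀ r)) (huc : ContinuousOn u (closedBall z₀ r))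
    (hvc : ContinuousOn v (closedBall z₀ r)) (hvo : IsOpen (v '' ball z₀ r))
    (hout : ∀ z, z ∉ closedBall z₀ (r / 2) → v z = u z) :
    u '' closedBall z₀ r ⊆ v '' closedBall z₀ r := by
  have hcl : IsClosed (v '' closedBall z₀ r) :=
    ((isCompact_closedBall z₀ r).image_of_continuousOn hvc).isClosed
  have hpre : IsPreconnected (u '' ball z₀ r) :=
    (convex_ball z₀ r).isPreconnected.image u (huc.mono ball_subset_closedBall)
  have hbd : ∀ w ∈ closedBall z₀ r, w ∉ ball z₀ r → v w = u w := by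
    intro w hw hw'
    refine hout w fun h => hw' ?_
    exact closedBall_subset_ball (by linarith) h
  have h1 : u '' ball z₀ r ⊆ v '' ball z₀ r ∪ (v '' closedBall z₀ r)ᶜ := by
    rintro _ ⟨z, hz, rfl⟩
    by_cases h : u z ∈ v '' closedBall z₀ r
    · left
      obtain ⟨w, hw, hwz⟩ := h
      by_cases hwb : w ∈ ball z₀ r
      · exact ⟨w, hwb, hwz⟩
      · exfalso
        rw [hbd w hw hwb] at hwz
        exact hwb (hu hw (ball_subset_closedBall hz) hwz ▸ hz)
    · exact Or.inr h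
  have h2 : u '' ball z₀ r ⊆ v '' ball z₀ r := by
    refine hpre.subset_left_of_subset_union hvo hcl.isOpen_compl ?_ h1 ?_
    · rw [disjoint_compl_right_iff_subset]
      exact image_mono ball_subset_closedBall
    · set z : E (k + 1) := z₀ + (3 * r / 4) • EuclideanSpace.single 0 (1 : ℝ) with hz
      have hd : dist z z₀ = 3 * r / 4 := by
        rw [hz, dist_eq_norm, add_sub_cancel_left, norm_smul, EuclideanSpace.norm_single]
        rw [Real.norm_of_nonneg (by positivity)]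
        simp
      have hzb : z ∈ ball z₀ r := by rw [mem_ball, hd]; linarith
      refine ⟨u z, ⟨z, hzb, rfl⟩, ⟨z, hzb, hout z fun h => ?_⟩⟩
      rw [mem_closedBall, hd] at h
      linarith
  rintro _ ⟨z, hz, rfl⟩
  by_cases hzb : z ∈ ball z₀ r
  · obtain ⟨w, hw, hwz⟩ := h2 ⟨z, hzb, rfl⟩
    exact ⟨w, ball_subset_closedBall hw, hwz⟩
  · exact ⟨z, hz, hbd z hz hzb⟩

/-- the image of an open set under a map of class `C^1` with injective derivatives -/
lemma isOpen_image_C1 {v : E n → E n} {U : Set (E n)} (hU : IsOpen U)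
    (hv : ∀ z ∈ U, ContDiffAt ℝ 1 v z ∧ Injective (fderiv ℝ v z)) : IsOpen (v '' U) := by
  rw [isOpen_iff_mem_nhds]
  rintro _ ⟨z, hz, rfl⟩
  obtain ⟨h1, h2⟩ := hv z hz
  have h3 : Surjective (fderiv ℝ v z) :=
    (LinearMap.injective_iff_surjective (f := (fderiv ℝ v z).toLinearMap)).1 h2
  obtain ⟨T, hT⟩ : ∃ T : E n ≃L[ℝ] E n, (T : E n →L[ℝ] E n) = fderiv ℝ v z :=
    ⟨ContinuousLinearEquiv.ofBijective (fderiv ℝ v z) (LinearMap.ker_eq_bot.2 h2)
      (LinearMap.range_eq_top.2 h3), ContinuousLinearEquiv.coe_ofBijective _ _ _⟩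
  have h4 : HasStrictFDerivAt v (T : E n →L[ℝ] E n) z := by
    rw [hT]; exact h1.hasStrictFDerivAt (by simp)
  rw [← h4.map_nhds_eq_of_equiv]
  exact image_mem_map (hU.mem_nhds hz)

/-- the projection which forgets the first coordinate -/
noncomputable def Pz (k : ℕ) : E (k + 1) →L[ℝ] E (k + 1) :=
  ContinuousLinearMap.id ℝ (E (k + 1)) -
    (EuclideanSpace.proj (𝕜 := ℝ) (0 : Fin (k + 1)) : E (k + 1) →L[ℝ] ℝ).smulRight
      (EuclideanSpace.single 0 (1 : ℝ))

lemma Pz_apply {k : ℕ} (w : E (k + 1)) : Pz k w = w - w 0 • EuclideanSpace.single 0 (1 : ℝ) := by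
  simp [Pz]

lemma Pz_zero {k : ℕ} (w : E (k + 1)) : (Pz k w) 0 = 0 := by
  rw [Pz_apply]
  simp

/-- **Smoothing in a ball.** -/
theorem stageL {k : ℕ} {Ω : Set (E (k + 1))} (hΩ : IsOpen Ω) {u : E (k + 1) → E (k + 1)}
    (hu : ∀ z ∈ Ω, ContDiffAt ℝ 1 u z ∧ Injective (fderiv ℝ u z)) (hi : InjOn u Ω)
    (h0 : ∀ z ∈ Ω, u z 0 = z 0) {z₀ : E (k + 1)} {r : ℝ} (hr : 0 < r)
    (hrΩ : closedBall z₀ r ⊆ Ω) {κ : ℝ} (hκ : 0 < κ) :
    ∃ v : E (k + 1) → E (k + 1), (∀ z, z ∉ closedBall z₀ (r / 2) → v z = u z) ∧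
      (∀ z, ‖v z - u z‖ ≤ κ) ∧ (∀ z ∈ Ω, ContDiffAt ℝ 1 v z ∧ Injective (fderiv ℝ v z)) ∧
      InjOn v Ω ∧ (∀ z ∈ Ω, v z 0 = z 0) ∧
      (∀ z ∈ Ω, (∀ᶠ w in 𝓝 z, ContDiffAt ℝ ∞ u w) → ∀ᶠ w in 𝓝 z, ContDiffAt ℝ ∞ v w) ∧
      (∀ z ∈ ball z₀ (r / 4), ∀ᶠ w in 𝓝 z, ContDiffAt ℝ ∞ v w) ∧
      v '' closedBall z₀ r = u '' closedBall z₀ r := by
  obtain ⟨δ, hδ, hpert⟩ := injOn_perturb hΩ (isCompact_closedBall z₀ (r / 2))
    ((closedBall_subset_closedBall (by linarith)).trans hrΩ)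
    (fun z hz => (hu z hz).1.contDiffWithinAt) hi (fun z hz => (hu z hz).2)
  let χ : ContDiffBump z₀ := ⟨r / 4, r / 2, by positivity, by linarith⟩
  let ξ : ContDiffBump z₀ := ⟨3 * r / 4, r, by positivity, by linarith⟩
  have hξt : tsupport ξ ⊆ Ω := by
    rw [ξ.tsupport_eq]; exact hrΩ
  set g : E (k + 1) → E (k + 1) := fun z => ξ z • u z with hg
  have hgsupp : tsupport g ⊆ tsupport ξ := tsupport_smul_subset_left _ _
  have hgc : HasCompactSupport g := ξ.hasCompactSupport.smul_right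
  have hgat : ∀ (j : WithTop ℕ∞) (z : E (k + 1)), (z ∈ tsupport ξ → ContDiffAt ℝ j u z) →
      j ≤ ∞ → ContDiffAt ℝ j g z := by
    intro j z hz hj
    by_cases h : z ∈ tsupport ξ
    · exact (ξ.contDiff.contDiffAt.of_le hj).smul (hz h)
    · have h1 : g =ᶠ[𝓝 z] fun _ => 0 := by
        filter_upwards [(isClosed_tsupport ξ).isOpen_compl.mem_nhds h] with w hw
        rw [hg]
        simp only
        rw [image_eq_zero_of_notMem_tsupport hw, zero_smul]
      exact contDiffAt_const.congr_of_eventuallyEq h1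
  have hg1 : ContDiff ℝ 1 g := contDiff_iff_contDiffAt.2 fun z =>
    hgat 1 z (fun h => (hu z (hξt h)).1) (by simp)
  obtain ⟨Cχ, hCχ, hCχb⟩ : ∃ C : ℝ, 0 ≤ C ∧ ∀ x, ‖fderiv ℝ χ x‖ ≤ C := by
    obtain ⟨C, hC⟩ := (χ.contDiff (n := 1).continuous_fderiv (by simp)).bounded_above_of_compact_support
      (χ.hasCompactSupport.fderiv (𝕜 := ℝ))
    exact ⟨max C 0, le_max_right _ _, fun x => (hC x).trans (le_max_left _ _)⟩
  set N := ‖Pz k‖ with hN
  have hNn : 0 ≤ N := norm_nonneg _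
  obtain ⟨ε, hε, hε1, hε2⟩ : ∃ ε : ℝ, 0 < ε ∧ N * ε ≤ κ ∧ (1 + Cχ) * (N * ε) ≤ δ := by
    refine ⟨min (κ / (N + 1)) (δ / ((1 + Cχ) * (N + 1))), ?_, ?_, ?_⟩
    · refine lt_min ?_ ?_ <;> positivity
    · calc N * min (κ / (N + 1)) (δ / ((1 + Cχ) * (N + 1))) ≤ (N + 1) * (κ / (N + 1)) := by
            refine mul_le_mul (by linarith) (min_le_left _ _) ?_ (by positivity)
            refine le_min ?_ ?_ <;> positivity
        _ = κ := by field_simp
    · calc (1 + Cχ) * (N * min (κ / (N + 1)) (δ / ((1 + Cχ) * (N + 1)))) ≤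
          (1 + Cχ) * ((N + 1) * (δ / ((1 + Cχ) * (N + 1)))) := by
            refine mul_le_mul_of_nonneg_left ?_ (by positivity)
            refine mul_le_mul (by linarith) (min_le_right _ _) ?_ (by positivity)
            refine le_min ?_ ?_ <;> positivity
        _ = δ := by field_simp
  obtain ⟨j, hj⟩ := (mo_C1close hg1 hgc hε).exists
  set W : E (k + 1) → E (k + 1) := fun z => Pz k (mo j g z - g z) with hW
  have hmo : ContDiff ℝ ∞ (mo j g) := mo_contDiff hg1.continuous.locallyIntegrable j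
  have hW1 : ContDiff ℝ 1 W := (Pz k).contDiff.comp ((hmo.of_le (by simp)).sub hg1)
  set h : E (k + 1) → E (k + 1) := fun z => χ z • W z with hh
  have hh1 : ContDiff ℝ 1 h := χ.contDiff.smul hW1
  have hWn : ∀ z, ‖W z‖ ≤ N * ε := fun z =>
    ((Pz k).le_opNorm _).trans (mul_le_mul_of_nonneg_left (hj z).1 hNn)
  have hWd : ∀ z, ‖fderiv ℝ W z‖ ≤ N * ε := by
    intro z
    have h1 : DifferentiableAt ℝ (fun z => mo j g z - g z) z :=
      (((hmo.of_le (by simp)).sub hg1).differentiable (n := 1) (by simp)) z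
    have h2 : fderiv ℝ W z = (Pz k).comp (fderiv ℝ (fun z => mo j g z - g z) z) :=
      ((Pz k).hasFDerivAt.comp z h1.hasFDerivAt).fderiv
    rw [h2]
    exact (ContinuousLinearMap.opNorm_comp_le _ _).trans (mul_le_mul_of_nonneg_left (hj z).2 hNn)
  have hχ1 : ∀ z, ‖χ z‖ ≤ 1 := fun z => by
    rw [Real.norm_of_nonneg χ.nonneg]; exact χ.le_one
  have hhd : ∀ z, ‖fderiv ℝ h z‖ ≤ δ := by
    intro z
    have h1 : fderiv ℝ h z = χ z • fderiv ℝ W z + (fderiv ℝ χ z).smulRight (W z) := by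
      rw [hh]
      exact fderiv_fun_smul ((χ.contDiff (n := 1)).differentiable (by simp) z)
        ((hW1.differentiable (by simp)) z)
    rw [h1]
    refine (norm_add_le _ _).trans ?_
    rw [norm_smul, ContinuousLinearMap.norm_smulRight_apply]
    calc ‖χ z‖ * ‖fderiv ℝ W z‖ + ‖fderiv ℝ χ z‖ * ‖W z‖ ≤ 1 * (N * ε) + Cχ * (N * ε) := by
          refine add_le_add (mul_le_mul (hχ1 z) (hWd z) (norm_nonneg _) zero_le_one)
            (mul_le_mul (hCχb z) (hWn z) (norm_nonneg _) hCχ)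
      _ = (1 + Cχ) * (N * ε) := by ring
      _ ≤ δ := hε2
  have hhout : ∀ z, z ∉ closedBall z₀ (r / 2) → h z = 0 := by
    intro z hz
    rw [hh]
    simp only
    rw [χ.zero_of_le_dist (by
      rw [mem_closedBall, not_le] at hz
      exact hz.le), zero_smul]
  obtain ⟨k1, k2⟩ := hpert h hh1 hhout hhd
  set v : E (k + 1) → E (k + 1) := fun z => u z + h z with hv
  have hvout : ∀ z, z ∉ closedBall z₀ (r / 2) → v z = u z := fun z hz => by
    rw [hv]; simp only; rw [hhout z hz, add_zero]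
  have hv1 : ∀ z ∈ Ω, ContDiffAt ℝ 1 v z ∧ Injective (fderiv ℝ v z) := fun z hz =>
    ⟨(hu z hz).1.add hh1.contDiffAt, k2 z hz⟩
  have hbΩ : ball z₀ r ⊆ Ω := ball_subset_closedBall.trans hrΩ
  have huo : IsOpen (u '' ball z₀ r) := isOpen_image_C1 isOpen_ball fun z hz => hu z (hbΩ hz)
  have hvo : IsOpen (v '' ball z₀ r) := isOpen_image_C1 isOpen_ball fun z hz => hv1 z (hbΩ hz)
  have huc : ContinuousOn u (closedBall z₀ r) := fun z hz =>
    (hu z (hrΩ hz)).1.continuousAt.continuousWithinAt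
  have hvc : ContinuousOn v (closedBall z₀ r) := fun z hz =>
    (hv1 z (hrΩ hz)).1.continuousAt.continuousWithinAt
  refine ⟨v, hvout, ?_, hv1, k1, ?_, ?_, ?_, ?_⟩
  · intro z
    have : v z - u z = χ z • W z := by rw [hv]; simp only; rw [add_sub_cancel_left]
    rw [this, norm_smul]
    calc ‖χ z‖ * ‖W z‖ ≤ 1 * (N * ε) := mul_le_mul (hχ1 z) (hWn z) (norm_nonneg _) zero_le_one
      _ ≤ κ := by rw [one_mul]; exact hε1
  · intro z hz
    show (u z + χ z • Pz k (mo j g z - g z)) 0 = z 0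
    rw [PiLp.add_apply, PiLp.smul_apply, Pz_zero, smul_zero, add_zero]
    exact h0 z hz
  · intro z hz huz
    have h2 := huz.eventually_nhds
    filter_upwards [huz] with w hw
    have h3 : ContDiffAt ℝ ∞ g w := hgat ∞ w (fun _ => hw) le_rfl
    have h4 : ContDiffAt ℝ ∞ W w := (Pz k).contDiff.contDiffAt.comp w (hmo.contDiffAt.sub h3)
    exact hw.add (χ.contDiff.contDiffAt.smul h4)
  · intro z hz
    filter_upwards [isOpen_ball.mem_nhds hz] with y hy
    have hyn : ∀ᶠ w in 𝓝 y, w ∈ ball z₀ (r / 4) := isOpen_ball.mem_nhds hy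
    have heq : v =ᶠ[𝓝 y] fun w => w 0 • EuclideanSpace.single 0 (1 : ℝ) + Pz k (mo j g w) := by
      filter_upwards [hyn] with w hw
      have hwΩ : w ∈ Ω := hbΩ (ball_subset_ball (by linarith) hw)
      have h1 : χ w = 1 := χ.one_of_mem_closedBall (ball_subset_closedBall hw)
      have h2 : ξ w = 1 := ξ.one_of_mem_closedBall (by
        have h5 : dist w z₀ < r / 4 := hw
        show dist w z₀ ≤ 3 * r / 4
        linarith)
      have h3 : g w = u w := by rw [hg]; simp only; rw [h2, one_smul]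
      show u w + χ w • Pz k (mo j g w - g w) = _
      rw [h1, one_smul, h3, map_sub, ← h0 w hwΩ]
      have h4 : u w = u w 0 • EuclideanSpace.single 0 (1 : ℝ) + Pz k (u w) := by
        rw [Pz_apply]; abel
      nth_rewrite 1 [h4]
      abel
    refine ContDiffAt.congr_of_eventuallyEq ?_ heq
    refine ContDiffAt.add ?_ ((Pz k).contDiff.contDiffAt.comp y hmo.contDiffAt)
    refine ContDiffAt.fun_smul ?_ contDiffAt_const
    exact (EuclideanSpace.proj (𝕜 := ℝ) (0 : Fin (k + 1)) :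
      E (k + 1) →L[ℝ] ℝ).contDiff.contDiffAt
  · refine Subset.antisymm ?_ ?_
    · exact image_ball_sub hr (k1.mono hrΩ) hvc huc huo (fun z hz => (hvout z hz).symm)
    · exact image_ball_sub hr (hi.mono hrΩ) huc hvc hvo hvout

end Run7.h7
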