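import Mathlib
import Pool.Agent.Run7.h7.QLev
import Pool.Agent.Run7.h7.QPt
import Pool.Agent.Run7.h7.QGlue
import Pool.Agent.Y522.Sch

/-!
Smoothing of homeomorphisms of class `C^1` with `C^1` inverse, without change of the levels.
-/

open Filter Set Metric Function
open scoped Topology ContDiff Manifold RealInnerProductSpace

namespace Run7.h7

open Pool.Agent.Y522 (LD)
open Pool.Agent.Y66.CM (LD_chart)

variable {k : ℕ}

/-- the first coordinate of every chart is the height -/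
def LevCh (k : ℕ) {P : Type} [TopologicalSpace P] [ChartedSpace (E (k + 1)) P] (lam : P → ℝ) :
    Prop :=
  ∀ x p : P, p ∈ (chartAt (E (k + 1)) x).source → (chartAt (E (k + 1)) x p) 0 = lam p

section man

variable {P Q : Type} [TopologicalSpace P] [ChartedSpace (E (k + 1)) P]
  [TopologicalSpace Q] [ChartedSpace (E (k + 1)) Q]

/-- balls in the coordinates -/
structure LGood (F : P ≃ₜ Q) (a : P × Q × ℝ) : Prop where
  pos : 0 < a.2.2
  tgt : closedBall (chartAt (E (k + 1)) a.1 a.1) a.2.2 ⊆ (chartAt (E (k + 1)) a.1).target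
  src : ∀ z ∈ closedBall (chartAt (E (k + 1)) a.1 a.1) a.2.2,
    F ((chartAt (E (k + 1)) a.1).symm z) ∈ (chartAt (E (k + 1)) a.2.1).source

/-- the support of the modification -/
def lsupp (k : ℕ) {P Q : Type} [TopologicalSpace P] [ChartedSpace (E (k + 1)) P]
    (a : P × Q × ℝ) : Set P :=
  (chartAt (E (k + 1)) a.1).symm '' closedBall (chartAt (E (k + 1)) a.1 a.1) (a.2.2 / 2)

/-- the set of the points near which the map is smoothed -/
def lcore (k : ℕ) {P Q : Type} [TopologicalSpace P] [ChartedSpace (E (k + 1)) P]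
    (a : P × Q × ℝ) : Set P :=
  (chartAt (E (k + 1)) a.1).symm '' ball (chartAt (E (k + 1)) a.1 a.1) (a.2.2 / 4)

lemma LGood.isCompact_supp {F : P ≃ₜ Q} {a : P × Q × ℝ} (h : LGood (k := k) F a) :
    IsCompact (lsupp k a) :=
  (isCompact_closedBall _ _).image_of_continuousOn
    ((chartAt (E (k + 1)) a.1).continuousOn_symm.mono
      ((closedBall_subset_closedBall (by linarith [h.pos])).trans h.tgt))

lemma LGood.isOpen_core {F : P ≃ₜ Q} {a : P × Q × ℝ} (h : LGood (k := k) F a) :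
    IsOpen (lcore k a) :=
  (chartAt (E (k + 1)) a.1).isOpen_image_symm_of_subset_target isOpen_ball
    ((ball_subset_closedBall.trans (closedBall_subset_closedBall (by linarith [h.pos]))).trans h.tgt)

lemma LGood.stable [T2Space P] {F : P ≃ₜ Q} {a : P × Q × ℝ} (h : LGood (k := k) F a) :
    ∃ O : Set (P × Q), IsOpen O ∧ (∀ x, (x, F x) ∈ O) ∧
      ∀ F' : P ≃ₜ Q, (∀ x, (x, F' x) ∈ O) → LGood (k := k) F' a := by
  have hc : IsCompact ((chartAt (E (k + 1)) a.1).symm ''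
      closedBall (chartAt (E (k + 1)) a.1 a.1) a.2.2) :=
    (isCompact_closedBall _ _).image_of_continuousOn
      ((chartAt (E (k + 1)) a.1).continuousOn_symm.mono h.tgt)
  refine ⟨{p | p.1 ∉ (chartAt (E (k + 1)) a.1).symm ''
    closedBall (chartAt (E (k + 1)) a.1 a.1) a.2.2 ∨
      p.2 ∈ (chartAt (E (k + 1)) a.2.1).source}, ?_, ?_, ?_⟩
  · have e1 : IsOpen {p : P × Q | p.1 ∉ (chartAt (E (k + 1)) a.1).symm ''
        closedBall (chartAt (E (k + 1)) a.1 a.1) a.2.2} :=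
      hc.isClosed.isOpen_compl.preimage continuous_fst
    exact e1.union ((chartAt (E (k + 1)) a.2.1).open_source.preimage continuous_snd)
  · intro x
    by_cases hx : x ∈ (chartAt (E (k + 1)) a.1).symm ''
        closedBall (chartAt (E (k + 1)) a.1 a.1) a.2.2
    · obtain ⟨z, hz, rfl⟩ := hx
      exact Or.inr (h.src z hz)
    · exact Or.inl hx
  · intro F' hF'
    refine ⟨h.pos, h.tgt, fun z hz => ?_⟩
    rcases hF' ((chartAt (E (k + 1)) a.1).symm z) with h1 | h1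
    · exact absurd ⟨z, hz, rfl⟩ h1
    · exact h1

variable [IsManifold (𝓡 (k + 1)) ∞ P] [IsManifold (𝓡 (k + 1)) ∞ Q]

/-- **One step.** -/
theorem lev_step [T2Space P] {lamP : P → ℝ} {lamQ : Q → ℝ} (hP : LevCh k lamP) (hQ : LevCh k lamQ)
    (F : P ≃ₜ Q) (hK : ∀ p, CP (n := k + 1) K0 F p) (hlev : ∀ p, lamQ (F p) = lamP p)
    {a : P × Q × ℝ} (ha : LGood (k := k) F a) {O : Set (P × Q)} (hO : IsOpen O)
    (hFO : ∀ x, (x, F x) ∈ O) :
    ∃ F' : P ≃ₜ Q, (∀ p, CP (n := k + 1) K0 F' p) ∧ (∀ p, lamQ (F' p) = lamP p) ∧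
      (∀ x, (x, F' x) ∈ O) ∧ (∀ x, x ∉ lsupp k a → F' x = F x) ∧
      (∀ x, LD (k + 1) F x → LD (k + 1) F' x) ∧ ∀ x ∈ lcore k a, LD (k + 1) F' x := by
  obtain ⟨x₀, y₀, r⟩ := a
  obtain ⟨hr, htgt, hsrc⟩ := ha
  simp only at hr htgt hsrc
  obtain ⟨φ, hφ⟩ : ∃ φ : OpenPartialHomeomorph P (E (k + 1)), φ = chartAt (E (k + 1)) x₀ := ⟨_, rfl⟩
  obtain ⟨e, he⟩ : ∃ e : OpenPartialHomeomorph Q (E (k + 1)), e = chartAt (E (k + 1)) y₀ := ⟨_, rfl⟩
  have hφLD : ∀ y ∈ φ.source, LD (k + 1) φ y := by rw [hφ]; exact fun y hy => LD_chart _ y hy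
  have heLD : ∀ y ∈ e.source, LD (k + 1) e y := by rw [he]; exact fun y hy => LD_chart _ y hy
  have hφsLD : ∀ z ∈ φ.target, LD (k + 1) φ.symm z := by
    rw [hφ]; exact fun z hz => chart_symm_LD _ hz
  have hesLD : ∀ z ∈ e.target, LD (k + 1) e.symm z := by
    rw [he]; exact fun z hz => chart_symm_LD _ hz
  have hφl : ∀ p ∈ φ.source, (φ p) 0 = lamP p := by rw [hφ]; exact hP x₀
  have hel : ∀ p ∈ e.source, (e p) 0 = lamQ p := by rw [he]; exact hQ y₀
  have hsuppd : lsupp k ((x₀, y₀, r) : P × Q × ℝ) = φ.symm '' closedBall (φ x₀) (r / 2) := by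
    rw [hφ]; rfl
  have hcored : lcore k ((x₀, y₀, r) : P × Q × ℝ) = φ.symm '' ball (φ x₀) (r / 4) := by
    rw [hφ]; rfl
  rw [← hφ] at htgt hsrc
  rw [← he] at hsrc
  rw [hsuppd, hcored]
  set z₀ := φ x₀ with hz₀
  set Ω : Set (E (k + 1)) := φ.target ∩ (fun z => F (φ.symm z)) ⁻¹' e.source with hΩ
  have hΩo : IsOpen Ω :=
    (F.continuous.comp_continuousOn φ.continuousOn_symm).isOpen_inter_preimage φ.open_target
      e.open_source
  set u : E (k + 1) → E (k + 1) := fun z => e (F (φ.symm z)) with hu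
  have huK : ∀ z ∈ Ω, CP (n := k + 1) K0 u z := fun z hz =>
    CP.to_coord (n := k + 1) (A := φ.symm) (B := e) linInv_K0 rfl (hφsLD z hz.1) (heLD _ hz.2)
      (hK _)
  have hu1 : ∀ z ∈ Ω, ContDiffAt ℝ 1 u z ∧ Injective (fderiv ℝ u z) := fun z hz =>
    CP_vec.1 (huK z hz)
  have hui : InjOn u Ω := fun z hz w hw hzw =>
    φ.symm.injOn hz.1 hw.1 (F.injective (e.injOn hz.2 hw.2 hzw))
  have hul : ∀ z ∈ Ω, u z 0 = z 0 := by
    intro z hz
    show (e (F (φ.symm z))) 0 = z 0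
    rw [hel _ hz.2, hlev, ← hφl _ (φ.map_target hz.1), φ.right_inv hz.1]
  have hcΩ : closedBall z₀ r ⊆ Ω := fun z hz => ⟨htgt hz, hsrc z hz⟩
  have hc2 : closedBall z₀ (r / 2) ⊆ closedBall z₀ r := closedBall_subset_closedBall (by linarith)
  obtain ⟨κ, hκ, hgr⟩ := compact_jets (isCompact_closedBall z₀ (r / 2)) (j := fun z => (z, u z))
    (continuousOn_id.prodMk fun z hz => (hu1 z (hcΩ (hc2 hz))).1.continuousAt.continuousWithinAt)
    (P := fun p => (φ.symm p.1, e.symm p.2) ∈ O) (by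
      intro z hz
      have hzΩ := hcΩ (hc2 hz)
      have h1 : ContinuousAt (fun p : E (k + 1) × E (k + 1) => (φ.symm p.1, e.symm p.2))
          (z, u z) := by
        refine ContinuousAt.prodMk ?_ ?_
        · exact (φ.symm.continuousAt hzΩ.1).comp_of_eq continuousAt_fst rfl
        · exact (e.symm.continuousAt (e.map_source hzΩ.2)).comp_of_eq continuousAt_snd rfl
      refine h1.eventually (hO.mem_nhds ?_)
      show (φ.symm z, e.symm (u z)) ∈ O
      have h2 : e.symm (u z) = F (φ.symm z) := e.left_inv hzΩ.2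
      rw [h2]
      exact hFO _)
  obtain ⟨v, hv0, hvκ, hv1, hvi, hvl, hvs, hvc, himg⟩ := stageL hΩo hu1 hui hul hr hcΩ hκ
  have hvt : ∀ z ∈ closedBall z₀ r, v z ∈ e.target := by
    intro z hz
    obtain ⟨w, hw, hwz⟩ : v z ∈ u '' closedBall z₀ r := by rw [← himg]; exact ⟨z, hz, rfl⟩
    rw [← hwz]
    exact e.map_source (hsrc w hw)
  obtain ⟨F', hF'o, hF'i⟩ := glue_homeo F φ e (U := ball z₀ r) isOpen_ball
    (closedBall_subset_ball (by linarith)) ball_subset_closedBall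
    (isCompact_closedBall z₀ (r / 2)) htgt hsrc
    (fun z hz => (hv1 z (hcΩ hz)).1.continuousAt.continuousWithinAt) (hvi.mono hcΩ) himg
    (fun z hz hz' => hv0 z hz')
  have hsc : IsCompact (φ.symm '' closedBall z₀ (r / 2)) :=
    (isCompact_closedBall _ _).image_of_continuousOn (φ.continuousOn_symm.mono (hc2.trans htgt))
  have hfar : ∀ x, x ∉ φ.symm '' closedBall z₀ (r / 2) → (F' : P → Q) =ᶠ[𝓝 x] F := by
    intro x hx
    filter_upwards [hsc.isClosed.isOpen_compl.mem_nhds hx] with y hy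
    exact hF'o y hy
  have hnear : ∀ z ∈ ball z₀ r, (F' : P → Q) =ᶠ[𝓝 (φ.symm z)] fun y => e.symm (v (φ y)) := by
    intro z hz
    have h1 : IsOpen (φ.symm '' ball z₀ r) :=
      φ.isOpen_image_symm_of_subset_target isOpen_ball (ball_subset_closedBall.trans htgt)
    filter_upwards [h1.mem_nhds ⟨z, hz, rfl⟩] with y hy
    obtain ⟨w, hw, rfl⟩ := hy
    rw [φ.right_inv (htgt (ball_subset_closedBall hw))]
    exact hF'i w (ball_subset_closedBall hw)
  have hb2 : closedBall z₀ (r / 2) ⊆ ball z₀ r := closedBall_subset_ball (by linarith)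
  have hLD : ∀ z ∈ ball z₀ r, (∀ᶠ w in 𝓝 z, ContDiffAt ℝ ∞ v w) → LD (k + 1) F' (φ.symm z) := by
    intro z hz h1
    have hzc := ball_subset_closedBall hz
    have h2 : Injective (fderiv ℝ v z) := (hv1 z (hcΩ hzc)).2
    have h3 : Surjective (fderiv ℝ v z) :=
      (LinearMap.injective_iff_surjective (f := (fderiv ℝ v z).toLinearMap)).1 h2
    have h4 : LD (k + 1) v z := Pool.Agent.Y522.LD_of_bij h1 ⟨h2, h3⟩
    have hφz : LD (k + 1) φ (φ.symm z) := hφLD _ (φ.map_target (htgt hzc))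
    have h5 : LD (k + 1) (fun y => v (φ y)) (φ.symm z) :=
      Pool.Agent.Y522.LD.comp_fun (g := v) (f := φ) (by rw [φ.right_inv (htgt hzc)]; exact h4) hφz
    have h6 : LD (k + 1) (fun y => e.symm (v (φ y))) (φ.symm z) :=
      Pool.Agent.Y522.LD.comp_fun (g := e.symm) (f := fun y => v (φ y))
        (hesLD _ (by rw [φ.right_inv (htgt hzc)]; exact hvt z hzc)) h5
    exact Pool.Agent.Y522.LD.congr h6 (hnear z hz)
  refine ⟨F', ?_, ?_, ?_, hF'o, ?_, ?_⟩
  · intro p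
    by_cases hp : p ∈ φ.symm '' closedBall z₀ (r / 2)
    · obtain ⟨z, hz, rfl⟩ := hp
      have hzt := htgt (hc2 hz)
      refine CP.of_chart (n := k + 1) linInv_K0 (φ := φ) (ψ := e.symm) (u := v)
        (hφLD _ (φ.map_target hzt)) ?_ ?_ (hnear z (hb2 hz))
      · rw [φ.right_inv hzt]; exact hesLD _ (hvt z (hc2 hz))
      · rw [φ.right_inv hzt]; exact CP_vec.2 (hv1 z (hcΩ (hc2 hz)))
    · exact (hK p).congr (hfar p hp)
  · intro p
    by_cases hp : p ∈ φ.symm '' closedBall z₀ (r / 2)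
    · obtain ⟨z, hz, rfl⟩ := hp
      have hzt := htgt (hc2 hz)
      rw [hF'i z (hc2 hz), ← hel _ (e.map_target (hvt z (hc2 hz))), e.right_inv (hvt z (hc2 hz)),
        hvl z (hcΩ (hc2 hz)), ← hφl _ (φ.map_target hzt), φ.right_inv hzt]
    · rw [hF'o p hp]; exact hlev p
  · intro p
    by_cases hp : p ∈ φ.symm '' closedBall z₀ (r / 2)
    · obtain ⟨z, hz, rfl⟩ := hp
      rw [hF'i z (hc2 hz)]
      refine hgr z hz (z, v z) ?_
      rw [Prod.dist_eq, dist_self, max_le_iff]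
      exact ⟨hκ.le, by rw [dist_eq_norm]; exact hvκ z⟩
    · rw [hF'o p hp]; exact hFO p
  · intro p hp1
    by_cases hp : p ∈ φ.symm '' closedBall z₀ (r / 2)
    · obtain ⟨z, hz, rfl⟩ := hp
      have hzΩ := hcΩ (hc2 hz)
      refine hLD z (hb2 hz) (hvs z hzΩ ?_)
      have h1 : LD (k + 1) (fun z => F (φ.symm z)) z :=
        Pool.Agent.Y522.LD.comp_fun (g := F) (f := φ.symm) hp1 (hφsLD z hzΩ.1)
      have h2 : LD (k + 1) u z :=
        Pool.Agent.Y522.LD.comp_fun (g := e) (f := fun z => F (φ.symm z)) (heLD _ hzΩ.2) h1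
      exact (Pool.Agent.Y522.LD.bij h2).1
    · exact Pool.Agent.Y522.LD.congr hp1 (hfar p hp)
  · rintro _ ⟨z, hz, rfl⟩
    exact hLD z (ball_subset_ball (by linarith) hz) (hvc z hz)

/-- a finite number of steps -/
theorem lev_steps [T2Space P] {lamP : P → ℝ} {lamQ : Q → ℝ} (hP : LevCh k lamP)
    (hQ : LevCh k lamQ) (L : List (P × Q × ℝ)) :
    ∀ {F : P ≃ₜ Q}, (∀ p, CP (n := k + 1) K0 F p) → (∀ p, lamQ (F p) = lamP p) →
      (∀ a ∈ L, LGood (k := k) F a) → ∀ {O : Set (P × Q)}, IsOpen O → (∀ x, (x, F x) ∈ O) →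
    ∃ F' : P ≃ₜ Q, (∀ p, CP (n := k + 1) K0 F' p) ∧ (∀ p, lamQ (F' p) = lamP p) ∧
      (∀ x, (x, F' x) ∈ O) ∧ (∀ x, (∀ a ∈ L, x ∉ lsupp k a) → F' x = F x) ∧
      (∀ x, LD (k + 1) F x → LD (k + 1) F' x) ∧ ∀ a ∈ L, ∀ x ∈ lcore k a, LD (k + 1) F' x := by
  induction L with
  | nil =>
    intro F hK hl _ O _ hFO
    exact ⟨F, hK, hl, hFO, fun _ _ => rfl, fun _ h => h, fun a ha => absurd ha (by simp)⟩
  | cons a L ih =>
    intro F hK hl hL O hO hFO
    have hst : ∀ b ∈ L, ∃ O : Set (P × Q), IsOpen O ∧ (∀ x, (x, F x) ∈ O) ∧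
      ∀ F' : P ≃ₜ Q, (∀ x, (x, F' x) ∈ O) → LGood (k := k) F' b :=
      fun b hb => (hL b (by simp [hb])).stable
    have hW : ∃ W : Set (P × Q), IsOpen W ∧ (∀ x, (x, F x) ∈ W) ∧
        ∀ F' : P ≃ₜ Q, (∀ x, (x, F' x) ∈ W) → ∀ b ∈ L, LGood (k := k) F' b := by
      clear ih hL
      induction L with
      | nil => exact ⟨univ, isOpen_univ, fun _ => trivial, fun _ _ b hb => absurd hb (by simp)⟩
      | cons b L ih =>
        obtain ⟨W₁, hW₁, hFW₁, h₁⟩ := ih (fun b hb => hst b (by simp [hb]))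
        obtain ⟨W₂, hW₂, hFW₂, h₂⟩ := hst b (by simp)
        refine ⟨W₁ ∩ W₂, hW₁.inter hW₂, fun x => ⟨hFW₁ x, hFW₂ x⟩, fun F' hF' c hc => ?_⟩
        rcases List.mem_cons.1 hc with rfl | hc
        · exact h₂ F' (fun x => (hF' x).2)
        · exact h₁ F' (fun x => (hF' x).1) c hc
    obtain ⟨W, hWo, hFW, hWP⟩ := hW
    obtain ⟨F₁, a1, a2, a3, a4, a5, a6⟩ := lev_step hP hQ F hK hl (hL a (by simp))
      (hO.inter hWo) (fun x => ⟨hFO x, hFW x⟩)
    obtain ⟨F₂, b1, b2, b3, b4, b5, b6⟩ := ih a1 a2 (hWP F₁ (fun x => (a3 x).2)) hO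
      (fun x => (a3 x).1)
    refine ⟨F₂, b1, b2, b3, fun x hx => ?_, fun x hx => b5 x (a5 x hx), fun b hb x hx => ?_⟩
    · rw [b4 x fun b hb => hx b (by simp [hb]), a4 x (hx a (by simp))]
    · rcases List.mem_cons.1 hb with rfl | hb
      · exact b5 x (a6 x hx)
      · exact b6 b hb x hx

/-- **Smoothing.** -/
theorem lev_smooth [T2Space P] {lamP : P → ℝ} {lamQ : Q → ℝ} (hP : LevCh k lamP)
    (hQ : LevCh k lamQ) (F : P ≃ₜ Q) (hK : ∀ p, CP (n := k + 1) K0 F p)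
    (hlev : ∀ p, lamQ (F p) = lamP p) (hB : IsCompact {p | ¬ LD (k + 1) F p}) {N : Set P}
    (hN : IsOpen N) (hBN : {p | ¬ LD (k + 1) F p} ⊆ N) {O : Set (P × Q)} (hO : IsOpen O)
    (hFO : ∀ x, (x, F x) ∈ O) :
    ∃ F' : P ≃ₜ Q, (∀ p, LD (k + 1) F' p) ∧ (∀ p, lamQ (F' p) = lamP p) ∧
      (∀ x, (x, F' x) ∈ O) ∧ ∀ x, x ∉ N → F' x = F x := by
  classical
  have h1 : ∀ x ∈ {p | ¬ LD (k + 1) F p}, ∃ r : ℝ, LGood (k := k) F (x, F x, r) ∧
      lsupp k ((x, F x, r) : P × Q × ℝ) ⊆ N := by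
    intro x hx
    obtain ⟨φ, hφ⟩ : ∃ φ : OpenPartialHomeomorph P (E (k + 1)), φ = chartAt (E (k + 1)) x :=
      ⟨_, rfl⟩
    have hxs : x ∈ φ.source := by rw [hφ]; exact mem_chart_source _ _
    have hopen : IsOpen (φ.target ∩ φ.symm ⁻¹' (N ∩ F ⁻¹' (chartAt (E (k + 1)) (F x)).source)) :=
      φ.continuousOn_symm.isOpen_inter_preimage φ.open_target
        (hN.inter ((chartAt (E (k + 1)) (F x)).open_source.preimage F.continuous))
    have hmem : φ x ∈ φ.target ∩ φ.symm ⁻¹' (N ∩ F ⁻¹' (chartAt (E (k + 1)) (F x)).source) := by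
      refine ⟨φ.map_source hxs, ?_⟩
      rw [mem_preimage, φ.left_inv hxs]
      exact ⟨hBN hx, mem_chart_source _ _⟩
    obtain ⟨r, hr, hrs⟩ := Metric.nhds_basis_closedBall.mem_iff.1 (hopen.mem_nhds hmem)
    rw [hφ] at hrs
    refine ⟨r, ⟨hr, fun z hz => (hrs hz).1, fun z hz => (hrs hz).2.2⟩, ?_⟩
    rintro _ ⟨z, hz, rfl⟩
    exact (hrs (closedBall_subset_closedBall (by simp only; linarith) hz)).2.1
  choose! r hr hrN using h1
  obtain ⟨t, htS, ht⟩ := hB.elim_nhds_subcover (fun x => lcore k ((x, F x, r x) : P × Q × ℝ))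
    (fun x hx => (hr x hx).isOpen_core.mem_nhds
      ⟨chartAt (E (k + 1)) x x, mem_ball_self (by
        have := (hr x hx).pos
        simp only at this ⊢
        linarith), (chartAt (E (k + 1)) x).left_inv (mem_chart_source _ _)⟩)
  obtain ⟨F', -, b2, b3, b4, b5, b6⟩ := lev_steps hP hQ (t.toList.map fun x => (x, F x, r x))
    hK hlev (by
      intro a ha
      obtain ⟨x, hx, rfl⟩ := List.mem_map.1 ha
      exact hr x (htS x (Finset.mem_toList.1 hx))) hO hFO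
  refine ⟨F', fun p => ?_, b2, b3, fun x hx => b4 x fun a ha hxa => hx ?_⟩
  · by_cases hp : LD (k + 1) F p
    · exact b5 p hp
    · obtain ⟨x, hx, hpx⟩ := mem_iUnion₂.1 (ht hp)
      exact b6 _ (List.mem_map.2 ⟨x, Finset.mem_toList.2 hx, rfl⟩) p hpx
  · obtain ⟨z, hz, rfl⟩ := List.mem_map.1 ha
    exact hrN z (htS z (Finset.mem_toList.1 hz)) hxa

end man

end Run7.h7
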