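import Mathlib
import Pool.Agent.Run7.h7.QAbs
import Pool.Agent.Run7.h7.QLevM
import Pool.Agent.Y434.CI.Main
import Pool.Agent.Y170.NA.Pre

/-!
Paths of homeomorphisms which preserve, near every bad point, the fibres of a submersion.
-/

open Filter Set Metric Function
open scoped Topology ContDiff Manifold RealInnerProductSpace

namespace Run7.h7

open Pool.Agent.Y522 (LD cn tl cn_zero cn_succ tl_cn cn_tl)
open Pool.Agent.Y66.CM (CMon LD_chart)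
open Pool.Agent.Y434.CI

variable {m : ℕ}

section transv

variable {l : ℕ} {X Y : Type} [TopologicalSpace X] [ChartedSpace (E l) X]
  [TopologicalSpace Y] [ChartedSpace (E (m + 1)) Y] [IsManifold (𝓡 (m + 1)) ∞ Y]

/-- a map which respects two transversal submersions is of class `C^1` -/
theorem c1_of_transvG {q q' : Y → E m} {F : X → Y} {x : X} (hF : ContinuousAt F x)
    (h1 : SubAt (m + 1) m q (F x)) (h2 : SubAt (m + 1) m q' (F x)) (ht : Transv m q q' (F x))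
    (g1 : ContMDiffAt (𝓡 l) (𝓡 m) 1 (fun y => q (F y)) x)
    (g2 : ContMDiffAt (𝓡 l) (𝓡 m) 1 (fun y => q' (F y)) x) :
    ContMDiffAt (𝓡 l) (𝓡 (m + 1)) 1 F x := by
  obtain ⟨Ψ, hFx, -, hΨ, hΨq⟩ := exists_C1C h1 univ_mem
  set w₀ := Ψ (F x) with hw₀
  have hw₀t : w₀ ∈ Ψ.target := Ψ.map_source hFx
  have hw₀s : Ψ.symm w₀ = F x := Ψ.left_inv hFx
  set G : E m × ℝ → E m := fun w => q' (Ψ.symm w) with hG
  have hG1 : ContDiffAt ℝ 1 G w₀ := SubAt.to_box hΨ hw₀t (by rw [hw₀s]; exact h2)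
  -- the derivative along the fibre
  have hGs : fderiv ℝ G w₀ (0, 1) ≠ 0 := by
    intro h0
    obtain ⟨A, hA, hAb⟩ := hΨ.exists_inv hw₀t
    obtain ⟨M, hM⟩ : ∃ M : E (m + 1) →L[ℝ] E m, HasMFDerivAt (𝓡 (m + 1)) (𝓡 m) q (Ψ.symm w₀) M :=
      ⟨_, ((show SubAt (m + 1) m q (Ψ.symm w₀) by rw [hw₀s]; exact h1).1.mdifferentiableAt
        (by simp)).hasMFDerivAt⟩
    obtain ⟨M', hM'⟩ : ∃ M' : E (m + 1) →L[ℝ] E m,
        HasMFDerivAt (𝓡 (m + 1)) (𝓡 m) q' (Ψ.symm w₀) M' :=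
      ⟨_, ((show SubAt (m + 1) m q' (Ψ.symm w₀) by rw [hw₀s]; exact h2).1.mdifferentiableAt
        (by simp)).hasMFDerivAt⟩
    have d1 : HasMFDerivAt 𝓘(ℝ, E m × ℝ) (𝓡 m) (fun w => q (Ψ.symm w)) w₀ (M.comp A) :=
      HasMFDerivAt.comp (g := q) (f := fun w => Ψ.symm w) w₀ hM hA
    have d2 : HasFDerivAt (fun w => q (Ψ.symm w)) (M.comp A) w₀ := hasMFDerivAt_iff_hasFDerivAt.1 d1
    have d3 : (fun w => q (Ψ.symm w)) =ᶠ[𝓝 w₀] fun w => w.1 := by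
      filter_upwards [Ψ.open_target.mem_nhds hw₀t] with w hw
      rw [← hΨq _ (Ψ.map_target hw), Ψ.right_inv hw]
    have d4 : M.comp A = ContinuousLinearMap.fst ℝ (E m) ℝ :=
      (d2.congr_of_eventuallyEq d3.symm).unique hasFDerivAt_fst
    have d5 : HasMFDerivAt 𝓘(ℝ, E m × ℝ) (𝓡 m) (fun w => q' (Ψ.symm w)) w₀ (M'.comp A) :=
      HasMFDerivAt.comp (g := q') (f := fun w => Ψ.symm w) w₀ hM' hA
    have d6 : HasFDerivAt G (M'.comp A) w₀ := hasMFDerivAt_iff_hasFDerivAt.1 d5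
    have d7 : (M'.comp A) (0, 1) = 0 := by rw [← d6.fderiv]; exact h0
    have d8 : (M.comp A) (0, 1) = 0 := by rw [d4]; rfl
    have e1 : (mfderiv (𝓡 (m + 1)) (𝓡 m) q (F x) : E (m + 1) →L[ℝ] E m) = M := by
      have : HasMFDerivAt (𝓡 (m + 1)) (𝓡 m) q (F x) M := by rw [hw₀s] at hM; exact hM
      exact this.mfderiv
    have e2 : (mfderiv (𝓡 (m + 1)) (𝓡 m) q' (F x) : E (m + 1) →L[ℝ] E m) = M' := by
      have : HasMFDerivAt (𝓡 (m + 1)) (𝓡 m) q' (F x) M' := by rw [hw₀s] at hM'; exact hM'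
      exact this.mfderiv
    have h3 := ht (A (0, 1)) (by rw [e1]; exact d8) (by rw [e2]; exact d7)
    have h4 : ((0 : E m), (1 : ℝ)) = 0 := hAb.1 (by rw [h3, map_zero])
    exact one_ne_zero (congrArg Prod.snd h4)
  -- the new coordinates
  set u := fderiv ℝ G w₀ (0, 1) with hu
  set Θ : E m × ℝ → E m × ℝ := fun w => (w.1, innerSL ℝ u (G w)) with hΘ
  have hΘ1 : ContDiffAt ℝ 1 Θ w₀ :=
    contDiffAt_fst.prodMk ((innerSL ℝ u).contDiff.contDiffAt.comp w₀ hG1)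
  set T₀ : E m × ℝ →L[ℝ] E m × ℝ := (ContinuousLinearMap.fst ℝ (E m) ℝ).prod
    ((innerSL ℝ u).comp (fderiv ℝ G w₀)) with hT₀
  have hΘd : HasFDerivAt Θ T₀ w₀ :=
    hasFDerivAt_fst.prodMk ((innerSL ℝ u).hasFDerivAt.comp w₀
      (hG1.differentiableAt (by simp)).hasFDerivAt)
  have hinj : Injective T₀ := by
    refine (injective_iff_map_eq_zero _).2 fun v hv => ?_
    rw [hT₀, ContinuousLinearMap.prod_apply, Prod.mk_eq_zero] at hv
    obtain ⟨hv1, hv2⟩ := hv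
    have hv3 : v.1 = 0 := hv1
    have hv4 : v = v.2 • ((0 : E m), (1 : ℝ)) := by
      ext1
      · simp [hv3]
      · simp
    rw [ContinuousLinearMap.comp_apply, hv4, map_smul, map_smul, ← hu, smul_eq_mul,
      innerSL_apply_apply, real_inner_self_eq_norm_sq] at hv2
    rcases mul_eq_zero.1 hv2 with h5 | h5
    · rw [hv4, h5, zero_smul]
    · exact absurd (pow_eq_zero_iff (two_ne_zero)|>.1 h5) (norm_ne_zero_iff.2 hGs)
  have hsurj : Surjective T₀ :=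
    (LinearMap.injective_iff_surjective (f := T₀.toLinearMap)).1 hinj
  obtain ⟨T, hT⟩ : ∃ T : (E m × ℝ) ≃L[ℝ] (E m × ℝ), (T : E m × ℝ →L[ℝ] E m × ℝ) = T₀ :=
    ⟨ContinuousLinearEquiv.ofBijective T₀ (LinearMap.ker_eq_bot.2 hinj)
      (LinearMap.range_eq_top.2 hsurj), ContinuousLinearEquiv.coe_ofBijective _ _ _⟩
  have hΘT : HasFDerivAt Θ (T : E m × ℝ →L[ℝ] E m × ℝ) w₀ := by rw [hT]; exact hΘd
  obtain ⟨R, hR1, hR2⟩ : ∃ R : E m × ℝ → E m × ℝ, ContDiffAt ℝ 1 R (Θ w₀) ∧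
      ∀ᶠ w in 𝓝 w₀, R (Θ w) = w := by
    refine ⟨hΘ1.localInverse hΘT (by simp), hΘ1.to_localInverse hΘT (by simp), ?_⟩
    exact (hΘ1.hasStrictFDerivAt' hΘT (by simp)).eventually_left_inverse
  -- the map
  have hcont : ContinuousAt (fun y => Ψ (F y)) x :=
    (Ψ.continuousAt hFx).comp_of_eq hF rfl
  have hev : F =ᶠ[𝓝 x] fun y => Ψ.symm (R (q (F y), innerSL ℝ u (q' (F y)))) := by
    filter_upwards [hcont.eventually hR2, hF.eventually (Ψ.open_source.mem_nhds hFx)] with y hy hys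
    have h3 : Θ (Ψ (F y)) = (q (F y), innerSL ℝ u (q' (F y))) := by
      show ((Ψ (F y)).1, innerSL ℝ u (q' (Ψ.symm (Ψ (F y))))) = _
      rw [Ψ.left_inv hys, hΨq _ hys]
    rw [← h3, hy, Ψ.left_inv hys]
  refine ContMDiffAt.congr_of_eventuallyEq ?_ hev
  have h3 : (q (F x), innerSL ℝ u (q' (F x))) = Θ w₀ := by
    show _ = ((Ψ (F x)).1, innerSL ℝ u (q' (Ψ.symm (Ψ (F x)))))
    rw [Ψ.left_inv hFx, hΨq _ hFx]
  have k1 : ContMDiffAt (𝓡 l) 𝓘(ℝ, E m × ℝ) 1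
      (fun y => (q (F y), innerSL ℝ u (q' (F y)))) x := by
    refine ContMDiffAt.prodMk_space g1 ?_
    have : ContMDiffAt (𝓡 m) 𝓘(ℝ, ℝ) 1 (fun v : E m => innerSL ℝ u v) (q' (F x)) :=
      (innerSL ℝ u).contDiff.contDiffAt.contMDiffAt
    exact this.comp x g2
  have k2 : ContMDiffAt 𝓘(ℝ, E m × ℝ) 𝓘(ℝ, E m × ℝ) 1 R
      (q (F x), innerSL ℝ u (q' (F x))) := by
    rw [h3]; exact hR1.contMDiffAt
  have k3 : R (Θ w₀) = w₀ := hR2.self_of_nhds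
  have k4 : ContMDiffAt 𝓘(ℝ, E m × ℝ) (𝓡 (m + 1)) 1 Ψ.symm
      (R (q (F x), innerSL ℝ u (q' (F x)))) := by
    rw [h3, k3]; exact hΨ.inv w₀ hw₀t
  have k5 : ContMDiffAt (𝓡 l) 𝓘(ℝ, E m × ℝ) 1
      (fun y => R (q (F y), innerSL ℝ u (q' (F y)))) x := ContMDiffAt.comp x k2 k1
  exact ContMDiffAt.comp (g := Ψ.symm)
    (f := fun y => R (q (F y), innerSL ℝ u (q' (F y)))) x k4 k5

end transv

end Run7.h7
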