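import Mathlib
import Pool.Agent.Run7.h7.QTrans

/-!
Submersions on the product with the line.
-/

open Filter Set Metric Function
open scoped Topology ContDiff Manifold RealInnerProductSpace

namespace Run7.h7

open Pool.Agent.Y522 (LD cn tl cn_zero cn_succ tl_cn cn_tl)
open Pool.Agent.Y66.CM (CMon LD_chart)
open Pool.Agent.Y434.CI

variable {m k : ℕ}

/-- the first coordinate -/
noncomputable def pr0 (m : ℕ) : E (m + 1) →L[ℝ] ℝ := EuclideanSpace.proj (𝕜 := ℝ) (0 : Fin (m + 1))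

lemma pr0_apply (w : E (m + 1)) : pr0 m w = w 0 := rfl

lemma ext_cn {w w' : E (m + 1)} (h0 : w 0 = w' 0) (h1 : tl w = tl w') : w = w' := by
  rw [← cn_tl w, ← cn_tl w', h0, h1]

section lift

variable {X : Type} [TopologicalSpace X] [ChartedSpace (E k) X] [IsManifold (𝓡 k) ∞ X]

/-- the map `(t, x) ↦ (t, h (t, x))` -/
noncomputable def hl (h : ℝ × X → E m) (p : Pr X) : E (m + 1) := cn (un p).1 (h (un p))

omit [TopologicalSpace X] [ChartedSpace (E k) X] [IsManifold (𝓡 k) ∞ X] in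
lemma tl_hl (h : ℝ × X → E m) (p : Pr X) : tl (hl h p) = h (un p) := tl_cn _ _

omit [TopologicalSpace X] [ChartedSpace (E k) X] [IsManifold (𝓡 k) ∞ X] in
lemma hl_zero (h : ℝ × X → E m) (p : Pr X) : (hl h p) 0 = (un p).1 := rfl

theorem hl_c1 {h : ℝ × X → E m} {p : Pr X}
    (hc : ContMDiffAt ((𝓘(ℝ, ℝ)).prod (𝓡 k)) (𝓡 m) 1 h (un p)) :
    ContMDiffAt (𝓡 (k + 1)) (𝓡 (m + 1)) 1 (hl h) p := by
  have g1 : ContMDiffAt (𝓡 (k + 1)) ((𝓘(ℝ, ℝ)).prod (𝓡 k)) 1 (un : Pr X → ℝ × X) p :=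
    ((smooth_un (X := X)) p).of_le (by simp)
  have g2 : ContMDiffAt (𝓡 (k + 1)) (𝓡 m) 1 (fun p => h (un p)) p := hc.comp p g1
  have g3 : ContMDiffAt (𝓡 (k + 1)) 𝓘(ℝ, ℝ) 1 (fun p : Pr X => (un p).1) p :=
    ((smooth_hgt (X := X) (k := k)) p).of_le (by simp)
  have g4 := g3.prodMk_space g2
  have g5 : ContMDiffAt 𝓘(ℝ, ℝ × E m) (𝓡 (m + 1)) 1 (fun p : ℝ × E m => (cn p.1 p.2 : E (m + 1)))
      ((un p).1, h (un p)) := ((contDiff_cn (k := m)).contMDiff.contMDiffAt).of_le (by simp)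
  exact ContMDiffAt.comp (g := fun p : ℝ × E m => (cn p.1 p.2 : E (m + 1)))
    (f := fun p : Pr X => ((un p).1, h (un p))) p g5 g4

/-- **Submersions on the product.** -/
theorem sub_lift {h : ℝ × X → E m} {p : Pr X}
    (hc : ContMDiffAt ((𝓘(ℝ, ℝ)).prod (𝓡 k)) (𝓡 m) 1 h (un p))
    (hs : Surjective (mfderiv (𝓡 k) (𝓡 m) (fun z => h ((un p).1, z)) (un p).2 :
      E k →L[ℝ] E m)) : SubAt (k + 1) (m + 1) (hl h) p := by
  obtain ⟨t, x⟩ := p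
  change ContMDiffAt ((𝓘(ℝ, ℝ)).prod (𝓡 k)) (𝓡 m) 1 h (t, x) at hc
  change Surjective (mfderiv (𝓡 k) (𝓡 m) (fun z => h (t, z)) x : E k →L[ℝ] E m) at hs
  change SubAt (k + 1) (m + 1) (hl h) (mk (t, x))
  have hC : ContMDiffAt (𝓡 (k + 1)) (𝓡 (m + 1)) 1 (hl h) (mk (t, x)) := hl_c1 hc
  refine ⟨hC, ?_⟩
  obtain ⟨D, hD⟩ : ∃ D : E (k + 1) →L[ℝ] E (m + 1),
      HasMFDerivAt (𝓡 (k + 1)) (𝓡 (m + 1)) (hl h) (mk (t, x)) D :=
    ⟨_, (hC.mdifferentiableAt (by simp)).hasMFDerivAt⟩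
  obtain ⟨J, hJ⟩ : ∃ J : E k →L[ℝ] E (k + 1),
      HasMFDerivAt (𝓡 k) (𝓡 (k + 1)) (fun z : X => mk (t, z)) x J :=
    ⟨_, ((smooth_lev (X := X) (k := k) t).mdifferentiableAt (by simp)).hasMFDerivAt⟩
  obtain ⟨V, hV⟩ : ∃ V : ℝ →L[ℝ] E (k + 1),
      HasMFDerivAt 𝓘(ℝ, ℝ) (𝓡 (k + 1)) (fun s : ℝ => mk (s, x)) t V :=
    ⟨_, ((smooth_lin (X := X) (k := k) x).mdifferentiableAt (by simp)).hasMFDerivAt⟩
  have hT : HasMFDerivAt (𝓡 (m + 1)) (𝓡 m) (tl : E (m + 1) → E m) (hl h (mk (t, x))) tl :=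
    (tl (m := m)).hasMFDerivAt
  have hP : HasMFDerivAt (𝓡 (m + 1)) 𝓘(ℝ, ℝ) (pr0 m : E (m + 1) → ℝ) (hl h (mk (t, x))) (pr0 m) :=
    (pr0 m).hasMFDerivAt
  have c1 : HasMFDerivAt (𝓡 k) (𝓡 m) (fun z => h (t, z)) x (tl.comp (D.comp J)) := by
    have := HasMFDerivAt.comp (g := (tl : E (m + 1) → E m))
      (f := hl h ∘ fun z : X => mk (t, z)) x hT (HasMFDerivAt.comp x hD hJ)
    have e : (tl : E (m + 1) → E m) ∘ (hl h ∘ fun z : X => mk (t, z)) = fun z => h (t, z) :=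
      funext fun z => tl_hl h (mk (t, z))
    rw [e] at this
    exact this
  have c2 : HasMFDerivAt (𝓡 k) 𝓘(ℝ, ℝ) (fun _ : X => t) x ((pr0 m).comp (D.comp J)) :=
    HasMFDerivAt.comp (g := (pr0 m : E (m + 1) → ℝ))
      (f := hl h ∘ fun z : X => mk (t, z)) x hP (HasMFDerivAt.comp x hD hJ)
  have c3 : HasMFDerivAt 𝓘(ℝ, ℝ) 𝓘(ℝ, ℝ) (fun s : ℝ => s) t ((pr0 m).comp (D.comp V)) :=
    HasMFDerivAt.comp (g := (pr0 m : E (m + 1) → ℝ))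
      (f := hl h ∘ fun s : ℝ => mk (s, x)) t hP (HasMFDerivAt.comp t hD hV)
  have c2' : (pr0 m).comp (D.comp J) = 0 := hasMFDerivAt_unique c2 (hasMFDerivAt_const t x)
  have c3' : (pr0 m).comp (D.comp V) = ContinuousLinearMap.id ℝ ℝ :=
    hasMFDerivAt_unique c3 (hasMFDerivAt_id _)
  have c1' : (mfderiv (𝓡 k) (𝓡 m) (fun z => h (t, z)) x : E k →L[ℝ] E m) =
    tl.comp (D.comp J) := c1.mfderiv
  have hD' : (mfderiv (𝓡 (k + 1)) (𝓡 (m + 1)) (hl h) (mk (t, x)) :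
    E (k + 1) →L[ℝ] E (m + 1)) = D := hD.mfderiv
  have hs' : Surjective (tl.comp (D.comp J) : E k →L[ℝ] E m) := by
    rw [← c1']; exact hs
  suffices hDs : Surjective D by rw [hD']; exact hDs
  intro w
  obtain ⟨v, hv⟩ := hs' (tl w - w 0 • tl (D (V 1)))
  have hv' : tl (D (J v)) = tl w - w 0 • tl (D (V 1)) := hv
  have e2 : (D (J v)) 0 = 0 := congrArg (fun L : E k →L[ℝ] ℝ => L v) c2'
  have e3 : (D (V 1)) 0 = 1 := congrArg (fun L : ℝ →L[ℝ] ℝ => L 1) c3'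
  refine ⟨w 0 • V 1 + J v, ext_cn ?_ ?_⟩
  · rw [map_add, map_smul, PiLp.add_apply, PiLp.smul_apply, e2, e3]
    simp
  · rw [map_add, map_smul, map_add, map_smul, hv']
    abel

end lift

end Run7.h7
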