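import Mathlib
import Pool.Agent.Run7.h7.QLift

/-!
Paths of homeomorphisms which preserve, near every point, the fibres of a submersion: they are limits
of isotopies.
-/

open Filter Set Metric Function
open scoped Topology ContDiff Manifold RealInnerProductSpace

namespace Run7.h7

open Pool.Agent.Y522 (LD cn tl cn_zero cn_succ tl_cn cn_tl)
open Pool.Agent.Y66.CM (CMon LD_chart)
open Pool.Agent.Y434.CI

variable {m : ℕ}

section defs

variable {X Y : Type} [TopologicalSpace X] [ChartedSpace (E (m + 1)) X]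
  [TopologicalSpace Y] [ChartedSpace (E (m + 1)) Y]

/-- `q ∘ f` is of class `C^1` near `(t, x)`, and its derivative in the direction of `X` is onto -/
def SubT (m : ℕ) {X Y : Type} [TopologicalSpace X] [ChartedSpace (E (m + 1)) X]
    (q : Y → E m) (f : ℝ × X → Y) (t : ℝ) (x : X) : Prop :=
  ContMDiffAt ((𝓘(ℝ, ℝ)).prod (𝓡 (m + 1))) (𝓡 m) 1 (fun p => q (f p)) (t, x) ∧
    Surjective (mfderiv (𝓡 (m + 1)) (𝓡 m) (fun z => q (f (t, z))) x : E (m + 1) →L[ℝ] E m)

variable [IsManifold (𝓡 (m + 1)) ∞ X] [IsManifold (𝓡 (m + 1)) ∞ Y]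

/-- paths of class `C^1` and of corank at most one preserve the fibres of some submersion -/
lemma exists_q {f : ℝ × X → Y} {t : ℝ} {x : X}
    (hf : ContMDiffAt ((𝓘(ℝ, ℝ)).prod (𝓡 (m + 1))) (𝓡 (m + 1)) 1 f (t, x))
    (hr : m ≤ Module.finrank ℝ (LinearMap.range
      (mfderiv (𝓡 (m + 1)) (𝓡 (m + 1)) (fun z => f (t, z)) x :
        E (m + 1) →L[ℝ] E (m + 1)).toLinearMap)) :
    ∃ q : Y → E m, SubAt (m + 1) m q (f (t, x)) ∧ SubT m q f t x := by
  obtain ⟨ψ, hψ⟩ : ∃ ψ : OpenPartialHomeomorph Y (E (m + 1)),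
      ψ = chartAt (E (m + 1)) (f (t, x)) := ⟨_, rfl⟩
  have hψLD : LD (m + 1) (ψ : Y → E (m + 1)) (f (t, x)) := by
    rw [hψ]; exact LD_chart _ _ (mem_chart_source _ _)
  have hψ1 : ContMDiffAt (𝓡 (m + 1)) (𝓡 (m + 1)) 1 (ψ : Y → E (m + 1)) (f (t, x)) :=
    hψLD.contMDiffAt.of_le (by simp)
  obtain ⟨A, hA⟩ : ∃ A : E (m + 1) →L[ℝ] E (m + 1),
      HasMFDerivAt (𝓡 (m + 1)) (𝓡 (m + 1)) (ψ : Y → E (m + 1)) (f (t, x)) A :=
    ⟨_, (hψ1.mdifferentiableAt (by simp)).hasMFDerivAt⟩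
  have hAb : Bijective A := by
    have h1 := LD.mfderiv_bijective hψLD
    have h2 : (mfderiv (𝓡 (m + 1)) (𝓡 (m + 1)) (ψ : Y → E (m + 1)) (f (t, x)) :
      E (m + 1) →L[ℝ] E (m + 1)) = A := hA.mfderiv
    rwa [h2] at h1
  obtain ⟨T, hT⟩ : ∃ T : E (m + 1) ≃L[ℝ] E (m + 1), (T : E (m + 1) →L[ℝ] E (m + 1)) = A :=
    ⟨ContinuousLinearEquiv.ofBijective A (LinearMap.ker_eq_bot.2 hAb.1)
      (LinearMap.range_eq_top.2 hAb.2), ContinuousLinearEquiv.coe_ofBijective _ _ _⟩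
  have hft : ContMDiffAt (𝓡 (m + 1)) (𝓡 (m + 1)) 1 (fun z => f (t, z)) x := by
    have h1 : ContMDiffAt (𝓡 (m + 1)) ((𝓘(ℝ, ℝ)).prod (𝓡 (m + 1))) 1 (fun z : X => (t, z)) x :=
      contMDiffAt_const.prodMk contMDiffAt_id
    exact ContMDiffAt.comp (g := f) (f := fun z : X => (t, z)) x hf h1
  obtain ⟨L, hL⟩ : ∃ L : E (m + 1) →L[ℝ] E (m + 1),
      HasMFDerivAt (𝓡 (m + 1)) (𝓡 (m + 1)) (fun z => f (t, z)) x L :=
    ⟨_, (hft.mdifferentiableAt (by simp)).hasMFDerivAt⟩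
  have hL' : (mfderiv (𝓡 (m + 1)) (𝓡 (m + 1)) (fun z => f (t, z)) x :
    E (m + 1) →L[ℝ] E (m + 1)) = L := hL.mfderiv
  rw [hL'] at hr
  obtain ⟨P₀, hP₀⟩ := Pool.Agent.Y170.NA.exists_proj (LinearMap.range L.toLinearMap) hr
  set P : E (m + 1) →L[ℝ] E m := P₀.comp (T.symm : E (m + 1) →L[ℝ] E (m + 1)) with hP
  have hPA : P.comp A = P₀ := by
    ext1 v
    show P₀ (T.symm (A v)) = P₀ v
    rw [← hT]
    exact congrArg P₀ (T.symm_apply_apply v)
  have hP₀s : Surjective P₀ := fun y => by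
    obtain ⟨w, -, hw⟩ := hP₀ y
    exact ⟨w, hw⟩
  have hPL : Surjective (P₀.comp L) := fun y => by
    obtain ⟨w, ⟨v, rfl⟩, hw⟩ := hP₀ y
    exact ⟨v, hw⟩
  have hPm : ContMDiffAt (𝓡 (m + 1)) (𝓡 m) 1 (P : E (m + 1) → E m) (ψ (f (t, x))) :=
    P.contDiff.contDiffAt.contMDiffAt
  have hPd : HasMFDerivAt (𝓡 (m + 1)) (𝓡 m) (P : E (m + 1) → E m) (ψ (f (t, x))) P :=
    P.hasMFDerivAt
  have hq1 : ContMDiffAt (𝓡 (m + 1)) (𝓡 m) 1 (fun y => P (ψ y)) (f (t, x)) :=
    ContMDiffAt.comp (g := (P : E (m + 1) → E m)) (f := (ψ : Y → E (m + 1))) (f (t, x)) hPm hψ1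
  have hqd : HasMFDerivAt (𝓡 (m + 1)) (𝓡 m) (fun y => P (ψ y)) (f (t, x)) P₀ := by
    have h2 : HasMFDerivAt (𝓡 (m + 1)) (𝓡 m) (fun y => P (ψ y)) (f (t, x))
        (P.comp A : E (m + 1) →L[ℝ] E m) :=
      HasMFDerivAt.comp (g := (P : E (m + 1) → E m)) (f := (ψ : Y → E (m + 1)))
        (f (t, x)) hPd hA
    have h3 : (P.comp A : E (m + 1) →L[ℝ] E m) = (P₀ : E (m + 1) →L[ℝ] E m) := hPA
    rw [h3] at h2
    exact h2
  refine ⟨fun y => P (ψ y), ⟨hq1, ?_⟩, ?_, ?_⟩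
  · have h3 : (mfderiv (𝓡 (m + 1)) (𝓡 m) (fun y => P (ψ y)) (f (t, x)) :
      E (m + 1) →L[ℝ] E m) = P₀ := hqd.mfderiv
    rw [h3]; exact hP₀s
  · exact ContMDiffAt.comp (g := fun y => P (ψ y)) (f := f) (t, x) hq1 hf
  · have h3 : HasMFDerivAt (𝓡 (m + 1)) (𝓡 m) (fun z => P (ψ (f (t, z)))) x (P₀.comp L) :=
      HasMFDerivAt.comp (g := fun y => P (ψ y)) (f := fun z => f (t, z)) x hqd hL
    have h4 : (mfderiv (𝓡 (m + 1)) (𝓡 m) (fun z => P (ψ (f (t, z)))) x :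
      E (m + 1) →L[ℝ] E m) = P₀.comp L := h3.mfderiv
    rw [h4]; exact hPL

/-- `lft f` is of class `C^1` where `f` is -/
lemma lft_c1 {f : ℝ × X → Y} {p : Pr X}
    (hf : ContMDiffAt (𝓡 (m + 1 + 1)) (𝓡 (m + 1)) 1 (fun p : Pr X => f (un p)) p) :
    ContMDiffAt (𝓡 (m + 1 + 1)) (𝓡 (m + 1 + 1)) 1 (lft f) p := by
  have g3 : ContMDiffAt (𝓡 (m + 1 + 1)) 𝓘(ℝ, ℝ) 1 (fun p : Pr X => (un p).1) p :=
    ((smooth_hgt (X := X) (k := m + 1)) p).of_le (by simp)
  have g4 := g3.prodMk hf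
  have g5 : ContMDiffAt ((𝓘(ℝ, ℝ)).prod (𝓡 (m + 1))) (𝓡 (m + 1 + 1)) 1 (mk : ℝ × Y → Pr Y)
      ((un p).1, f (un p)) := ((smooth_mk (X := Y)) _).of_le (by simp)
  exact ContMDiffAt.comp (g := (mk : ℝ × Y → Pr Y)) (f := fun p : Pr X => ((un p).1, f (un p)))
    p g5 g4

lemma levCh_Pr (k : ℕ) (X : Type) [TopologicalSpace X] [ChartedSpace (E k) X] :
    LevCh k (fun p : Pr X => (un p).1) := fun _ _ _ => rfl

end defs

section main

variable {X Y : Type} [TopologicalSpace X] [ChartedSpace (E (m + 1)) X]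
  [TopologicalSpace Y] [ChartedSpace (E (m + 1)) Y]
  [IsManifold (𝓡 (m + 1)) ∞ X] [IsManifold (𝓡 (m + 1)) ∞ Y]

/-- level preserving bijections which are constant off a compact set are closed maps -/
lemma lft_closed [T2Space X] [T2Space Y] {G : ℝ × X → Y} {g : X → Y} (hG : Continuous G)
    (hg : ∀ x, LD (m + 1) g x) (hgb : Bijective g) {C : Set X} (hC : IsCompact C)
    (hGC : ∀ t x, x ∉ C → G (t, x) = g x) : IsClosedMap (lft G) := by
  have hLc : Continuous (lft G) :=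
    cont_mk.comp ((continuous_fst.comp cont_un).prodMk (hG.comp cont_un))
  set H₀ : Pr X → Pr Y := lft (fun q : ℝ × X => g q.2) with hH₀
  have hH₀L : ∀ p, LD (m + 1 + 1) H₀ p := LD_const hgb hg
  have hH₀b : Bijective H₀ := bij_lft (F := fun q : ℝ × X => g q.2) fun _ => hgb
  have hl : IsLocalDiffeomorph (𝓡 (m + 1 + 1)) (𝓡 (m + 1 + 1)) ∞ H₀ := hH₀L
  have hH₀c : Continuous H₀ := hl.contMDiff.continuous
  have hH₀cl : IsClosedMap H₀ :=
    ((hl.diffeomorphOfBijective hH₀b).toHomeomorph).isClosedMap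
  intro S hS
  have hid : ∀ p ∈ closure {p : Pr X | (un p).2 ∉ C}, lft G p = H₀ p := by
    have h2 : IsClosed {p | lft G p = H₀ p} := isClosed_eq hLc hH₀c
    refine fun p hp => closure_minimal (fun z hz => ?_) h2 hp
    show mk ((un z).1, G (un z)) = mk ((un z).1, g (un z).2)
    rw [← hGC (un z).1 (un z).2 hz]
  have hcs : CompactSpace C := isCompact_iff_compactSpace.1 hC
  set γ : ℝ × C → Pr Y := fun p => lft G (mk (p.1, p.2.1)) with hγ
  have hγc : Continuous γ := hLc.comp (cont_mk.comp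
    (continuous_fst.prodMk (continuous_subtype_val.comp continuous_snd)))
  have hγcl : IsClosedMap γ := by
    have h2 : IsProperMap ((fun p : Pr Y => (un p).1) ∘ γ) :=
      (isProperMap_fst_of_compactSpace : IsProperMap (Prod.fst : ℝ × C → ℝ))
    exact (isProperMap_of_comp_of_t2 hγc (continuous_fst.comp cont_un) h2).isClosedMap
  have h3 : lft G '' S = γ '' {p | mk (p.1, p.2.1) ∈ S} ∪
      H₀ '' (closure {p : Pr X | (un p).2 ∉ C} ∩ S) := by
    ext y
    constructor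
    · rintro ⟨z, hz, rfl⟩
      by_cases hzC : (un z).2 ∈ C
      · exact Or.inl ⟨((un z).1, ⟨(un z).2, hzC⟩), hz, rfl⟩
      · right
        rw [hid z (subset_closure hzC)]
        exact ⟨z, ⟨subset_closure hzC, hz⟩, rfl⟩
    · rintro (⟨z, hz, rfl⟩ | ⟨z, ⟨hz, hzS⟩, rfl⟩)
      · exact ⟨_, hz, rfl⟩
      · exact ⟨z, hzS, hid z hz⟩
  rw [h3]
  refine (hγcl _ ?_).union (hH₀cl _ (isClosed_closure.inter hS))
  exact hS.preimage (cont_mk.comp
    (continuous_fst.prodMk (continuous_subtype_val.comp continuous_snd)))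

/-- **Isotopies.** -/
theorem iso_main [T2Space X] [T2Space Y] (f : ℝ × X → Y) (hf : Continuous f)
    (hb : ∀ t ∈ Icc (0 : ℝ) 1, Bijective fun x => f (t, x))
    {C : Set X} (hC : IsCompact C) (hfC : ∀ t ∈ Icc (0 : ℝ) 1, ∀ x, x ∉ C → f (t, x) = f (0, x))
    {V : Set X} (hV : IsOpen V) (hCV : C ⊆ V)
    (h0 : ∀ x, LD (m + 1) (fun x => f (0, x)) x) (h1 : ∀ x, LD (m + 1) (fun x => f (1, x)) x)
    {J : Type*} {U : J → Set Y} {Q : J → Y → E m} (hQ : Fam m U Q)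
    (hc : ∀ t ∈ Icc (0 : ℝ) 1, ∀ x ∈ C,
      (ContMDiffAt ((𝓘(ℝ, ℝ)).prod (𝓡 (m + 1))) (𝓡 (m + 1)) 1 f (t, x) ∧
        m ≤ Module.finrank ℝ (LinearMap.range
          (mfderiv (𝓡 (m + 1)) (𝓡 (m + 1)) (fun z => f (t, z)) x :
            E (m + 1) →L[ℝ] E (m + 1)).toLinearMap)) ∨
      ∃ j, f (t, x) ∈ U j ∧ SubT m (Q j) f t x)
    {θ : ℝ → ℝ} (hθ : ContDiff ℝ ∞ θ) (hθI : ∀ s, θ s ∈ Icc (0 : ℝ) 1) {a b : ℝ} (ha : 0 < a)
    (hb1 : b < 1) (hθ0 : ∀ s, s < a → θ s = 0) (hθ1 : ∀ s, b < s → θ s = 1)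
    {O : Set ((ℝ × X) × Y)} (hO : IsOpen O) (hfO : ∀ s x, ((s, x), f (θ s, x)) ∈ O) :
    ∃ K : ℝ × X → Y, ContMDiff ((𝓘(ℝ, ℝ)).prod (𝓡 (m + 1))) (𝓡 (m + 1)) ∞ K ∧
      (∀ t, Bijective fun x => K (t, x)) ∧ (∀ t x, LD (m + 1) (fun x => K (t, x)) x) ∧
      (∀ s x, s ∉ Ioo (0 : ℝ) 1 ∨ x ∉ V → K (s, x) = f (θ s, x)) ∧
      ∀ s x, ((s, x), K (s, x)) ∈ O := by
  classical
  have hLC : LocallyCompactSpace (Pr X) :=
    Manifold.locallyCompact_of_finiteDimensional (𝓡 (m + 1 + 1))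
  set G : ℝ × X → Y := fun p => f (θ p.1, p.2) with hG
  have hGc : Continuous G := hf.comp
    ((hθ.continuous.comp continuous_fst).prodMk continuous_snd)
  have hGb : ∀ t, Bijective fun x => G (t, x) := fun t => hb (θ t) (hθI t)
  have hLb := bij_lft hGb
  have hLc : Continuous (lft G) :=
    cont_mk.comp ((continuous_fst.comp cont_un).prodMk (hGc.comp cont_un))
  have hLcl : IsClosedMap (lft G) :=
    lft_closed hGc h0 (hb 0 ⟨le_rfl, zero_le_one⟩) hC fun t x hx => hfC (θ t) (hθI t) x hx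
  obtain ⟨H, hH⟩ : ∃ H : Pr X ≃ₜ Pr Y, (H : Pr X → Pr Y) = lft G :=
    ⟨(Equiv.ofBijective (lft G) hLb).toHomeomorphOfContinuousClosed hLc hLcl, rfl⟩
  have hlev : ∀ p, (un (H p)).1 = (un p).1 := fun p => by rw [hH]; rfl
  have hH2 : ∀ p, (un (H p)).2 = G (un p) := fun p => by rw [hH]; rfl
  -- the bad set
  have hLDout : ∀ p : Pr X, (un p).1 ∉ Icc a b → LD (m + 1 + 1) H p := by
    intro p hn
    have hn' : (un p).1 < a ∨ b < (un p).1 := by
      by_contra hc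
      push Not at hc
      exact hn ⟨hc.1, hc.2⟩
    rcases hn' with hn' | hn'
    · refine (LD_const (hb 0 ⟨le_rfl, zero_le_one⟩) h0 p).congr ?_
      have h3 : ∀ᶠ q : Pr X in 𝓝 p, (un q).1 < a :=
        (continuous_fst.comp cont_un).continuousAt.eventually (gt_mem_nhds hn')
      filter_upwards [h3] with q hq
      rw [hH]
      change mk ((un q).1, f (θ (un q).1, (un q).2)) = mk ((un q).1, f (0, (un q).2))
      rw [hθ0 _ hq]
    · refine (LD_const (hb 1 ⟨zero_le_one, le_rfl⟩) h1 p).congr ?_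
      have h3 : ∀ᶠ q : Pr X in 𝓝 p, b < (un q).1 :=
        (continuous_fst.comp cont_un).continuousAt.eventually (lt_mem_nhds hn')
      filter_upwards [h3] with q hq
      rw [hH]
      change mk ((un q).1, f (θ (un q).1, (un q).2)) = mk ((un q).1, f (1, (un q).2))
      rw [hθ1 _ hq]
  have hLDC : ∀ p : Pr X, (un p).2 ∉ C → LD (m + 1 + 1) H p := by
    intro p hp
    refine (LD_const (hb 0 ⟨le_rfl, zero_le_one⟩) h0 p).congr ?_
    have h3 : ∀ᶠ q : Pr X in 𝓝 p, (un q).2 ∉ C :=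
      (continuous_snd.comp cont_un).continuousAt.eventually
        (hC.isClosed.isOpen_compl.mem_nhds hp)
    filter_upwards [h3] with q hq
    rw [hH]
    change mk ((un q).1, f (θ (un q).1, (un q).2)) = mk ((un q).1, f (0, (un q).2))
    rw [hfC _ (hθI _) _ hq]
  set B : Set (Pr X) := {p | ¬ LD (m + 1 + 1) H p} with hBd
  have hBC : ∀ p ∈ B, (un p).2 ∈ C := fun p hp => by
    by_contra h
    exact hp (hLDC p h)
  have hB : IsCompact B := by
    have hK : IsCompact {p : Pr X | (un p).1 ∈ Icc a b ∧ (un p).2 ∈ C} := by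
      have h2 : IsCompact ((Icc a b) ×ˢ C) := isCompact_Icc.prod hC
      have h3 : {p : Pr X | (un p).1 ∈ Icc a b ∧ (un p).2 ∈ C} = mk '' ((Icc a b) ×ˢ C) := by
        ext p
        constructor
        · intro hp
          exact ⟨un p, hp, rfl⟩
        · rintro ⟨q, hq, rfl⟩
          exact hq
      rw [h3]
      exact h2.image cont_mk
    refine hK.of_isClosed_subset (isClosed_bad _) fun p hp => ⟨?_, hBC p hp⟩
    by_contra hn
    exact hp (hLDout p hn)
  set N : Set (Pr X) := {p | (un p).1 ∈ Ioo (0 : ℝ) 1 ∧ (un p).2 ∈ V} with hNd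
  have hN : IsOpen N := (isOpen_Ioo.preimage (continuous_fst.comp cont_un)).inter
    (hV.preimage (continuous_snd.comp cont_un))
  have hBN : B ⊆ N := by
    intro p hp
    refine ⟨?_, hCV (hBC p hp)⟩
    by_contra hn
    apply hp
    refine hLDout p fun h => hn ⟨lt_of_lt_of_le ha h.1, lt_of_le_of_lt h.2 hb1⟩
  -- the submersions
  have hθm : ∀ p : ℝ × X, ContMDiffAt ((𝓘(ℝ, ℝ)).prod (𝓡 (m + 1)))
      ((𝓘(ℝ, ℝ)).prod (𝓡 (m + 1))) 1 (fun p : ℝ × X => (θ p.1, p.2)) p := by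
    intro p
    have h2 : ContMDiffAt 𝓘(ℝ, ℝ) 𝓘(ℝ, ℝ) 1 θ p.1 := (hθ.contDiffAt.contMDiffAt).of_le (by simp)
    exact (ContMDiffAt.comp p h2 contMDiffAt_fst).prodMk contMDiffAt_snd
  have hsub : ∀ (q : Y → E m) (p : Pr X), SubAt (m + 1) m q (G (un p)) →
      SubT m q f (θ (un p).1) (un p).2 →
      SubAt (m + 1 + 1) (m + 1) (hl fun z : ℝ × Y => q z.2) (H p) ∧
        SubAt (m + 1 + 1) (m + 1) (fun p' => (hl fun z : ℝ × Y => q z.2) (H p')) p := by
    intro q p hq hqf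
    constructor
    · refine sub_lift (h := fun z : ℝ × Y => q z.2) ?_ ?_
      · have h2 : ContMDiffAt (𝓡 (m + 1)) (𝓡 m) 1 q (un (H p)).2 := by rw [hH2]; exact hq.1
        exact ContMDiffAt.comp (g := q) (f := fun z : ℝ × Y => z.2) (un (H p)) h2 contMDiffAt_snd
      · rw [hH2]
        exact hq.2
    · have e1 : (fun p' => (hl fun z : ℝ × Y => q z.2) (H p')) = hl fun z : ℝ × X => q (G z) := by
        funext p'
        rw [hH]
        rfl
      rw [e1]
      refine sub_lift (h := fun z : ℝ × X => q (G z)) ?_ ?_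
      · exact ContMDiffAt.comp (g := fun z => q (f z)) (f := fun p : ℝ × X => (θ p.1, p.2))
          (un p) hqf.1 (hθm _)
      · exact hqf.2
  have h5 : ∀ p ∈ B, ∃ (q : Y → E m) (D : Set (Pr X)), IsCompact D ∧ p ∈ interior D ∧ D ⊆ N ∧
      (∀ p' ∈ D, SubAt (m + 1 + 1) (m + 1) (hl fun z : ℝ × Y => q z.2) (H p') ∧
        SubAt (m + 1 + 1) (m + 1) (fun p' => (hl fun z : ℝ × Y => q z.2) (H p')) p') ∧
      ((∀ p' ∈ D, ContMDiffAt (𝓡 (m + 1 + 1)) (𝓡 (m + 1 + 1)) 1 H p') ∨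
        ∃ j, q = Q j ∧ ∀ p' ∈ D, G (un p') ∈ U j) := by
    intro p hp
    have hcase : ∃ (q : Y → E m) (R : Set (Pr X)), SubAt (m + 1) m q (G (un p)) ∧
        SubT m q f (θ (un p).1) (un p).2 ∧ IsOpen R ∧ p ∈ R ∧
        ((∀ p' ∈ R, ContMDiffAt (𝓡 (m + 1 + 1)) (𝓡 (m + 1 + 1)) 1 H p') ∨
          ∃ j, q = Q j ∧ ∀ p' ∈ R, G (un p') ∈ U j) := by
      rcases hc (θ (un p).1) (hθI _) (un p).2 (hBC p hp) with ⟨a1, a2⟩ | ⟨j, a1, a2⟩
      · obtain ⟨q, b1, b2⟩ := exists_q a1 a2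
        refine ⟨q, {p' | ContMDiffAt (𝓡 (m + 1 + 1)) (𝓡 (m + 1 + 1)) 1 H p'}, b1, b2,
          isOpen_C1M (m := m + 1) (H : Pr X → Pr Y), ?_, Or.inl fun p' hp' => hp'⟩
        rw [hH]
        refine lft_c1 ?_
        have h6 : ContMDiffAt ((𝓘(ℝ, ℝ)).prod (𝓡 (m + 1))) (𝓡 (m + 1)) 1 G (un p) :=
          ContMDiffAt.comp (g := f) (f := fun p : ℝ × X => (θ p.1, p.2)) (un p) a1 (hθm _)
        have h7 : ContMDiffAt (𝓡 (m + 1 + 1)) ((𝓘(ℝ, ℝ)).prod (𝓡 (m + 1))) 1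
            (un : Pr X → ℝ × X) p := ((smooth_un (X := X)) p).of_le (by simp)
        exact ContMDiffAt.comp (g := G) (f := (un : Pr X → ℝ × X)) p h6 h7
      · refine ⟨Q j, {p' | G (un p') ∈ U j}, hQ.sub j _ a1, a2,
          (hQ.op j).preimage (hGc.comp cont_un), a1, Or.inr ⟨j, rfl, fun p' hp' => hp'⟩⟩
    obtain ⟨q, R, c1, c2, c3, c4, c5⟩ := hcase
    have hop : IsOpen (N ∩ R ∩
        ({p' | SubAt (m + 1 + 1) (m + 1) (hl fun z : ℝ × Y => q z.2) (H p')} ∩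
        {p' | SubAt (m + 1 + 1) (m + 1) (fun p' => (hl fun z : ℝ × Y => q z.2) (H p')) p'})) :=
      (hN.inter c3).inter (((isOpen_subAt _).preimage H.continuous).inter (isOpen_subAt _))
    obtain ⟨D, hD, hxD, hDN⟩ := exists_compact_subset hop
      ⟨⟨hBN hp, c4⟩, (hsub q p c1 c2).1, (hsub q p c1 c2).2⟩
    refine ⟨q, D, hD, hxD, fun z hz => (hDN hz).1.1, fun z hz => ⟨(hDN hz).2.1, (hDN hz).2.2⟩, ?_⟩
    rcases c5 with c5 | ⟨j, c5, c6⟩
    · exact Or.inl fun z hz => c5 z (hDN hz).1.2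
    · exact Or.inr ⟨j, c5, fun z hz => c6 z (hDN hz).1.2⟩
  choose! q D hDc hxD hDN hDs hDalt using h5
  obtain ⟨t, htB, ht⟩ := hB.elim_nhds_subcover (fun x => interior (D x))
    (fun x hx => isOpen_interior.mem_nhds (hxD x hx))
  set O₁ : Set (Pr X × Pr Y) := {z | (un z.1, (un z.2).2) ∈ O} with hO₁
  have hO₁o : IsOpen O₁ := hO.preimage
    ((cont_un.comp continuous_fst).prodMk (continuous_snd.comp (cont_un.comp continuous_snd)))
  have hHO : ∀ p, (p, H p) ∈ O₁ := by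
    intro p
    show (un p, (un (H p)).2) ∈ O
    rw [hH2]
    exact hfO (un p).1 (un p).2
  obtain ⟨F, hgr, hoff, -, hk0, hS, hFl, -⟩ := engine (m := m + 1) (ι := t) (Λ := ℝ) H
    (q := fun i => hl fun z : ℝ × Y => q i z.2) (D := fun i => D i)
    (lam := fun y : Pr Y => (un y).1)
    (fun i => hDc i (htB i i.2)) (fun i x hx => hDs i (htB i i.2) x hx)
    (fun i j x hxi hxj => by
      rcases hDalt i (htB i i.2) with h | ⟨ji, e1, h1⟩
      · exact Or.inl (h x hxi)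
      · rcases hDalt j (htB j j.2) with h | ⟨jj, e2, h2⟩
        · exact Or.inl (h x hxj)
        · rcases hQ.adm ji jj (G (un x)) (h1 x hxi) (h2 x hxj) with h3 | ⟨W, hW, h3⟩
          · left
            rw [hH]
            refine lft_c1 ?_
            have hcq : ∀ i : t, x ∈ D i → ContMDiffAt (𝓡 (m + 1 + 1)) (𝓡 m) 1
                (fun p : Pr X => q i (G (un p))) x := by
              intro i hi
              have h6 := (hDs i (htB i i.2) x hi).2.1
              have h7 : ContMDiffAt (𝓡 (m + 1)) (𝓡 m) 1 (tl : E (m + 1) → E m)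
                  ((hl fun z : ℝ × Y => q i z.2) (H x)) :=
                (tl (m := m)).contDiff.contDiffAt.contMDiffAt
              have h8 := ContMDiffAt.comp (g := (tl : E (m + 1) → E m))
                (f := fun p' => (hl fun z : ℝ × Y => q i z.2) (H p')) x h7 h6
              refine h8.congr_of_eventuallyEq (Eventually.of_forall fun p' => ?_)
              show q i (G (un p')) = tl ((hl fun z : ℝ × Y => q i z.2) (H p'))
              rw [tl_hl, hH2]
            have hci := hcq i hxi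
            have hcj := hcq j hxj
            rw [e1] at hci
            rw [e2] at hcj
            exact c1_of_transvG (F := fun p : Pr X => G (un p))
              (hGc.comp cont_un).continuousAt (hQ.sub _ _ (h1 x hxi)) (hQ.sub _ _ (h2 x hxj))
              h3 hci hcj
          · right
            refine ⟨{y | (un y).2 ∈ W}, ?_, fun y₁ hy₁ y₂ hy₂ hy => ?_⟩
            · have h6 : Tendsto (fun y : Pr Y => (un y).2) (𝓝 (H x)) (𝓝 (G (un x))) := by
                rw [← hH2]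
                exact (continuous_snd.comp cont_un).continuousAt
              exact h6 hW
            · have g0 : (un y₁).1 = (un y₂).1 := congrArg (fun w : E (m + 1) => w 0) hy
              have g1 : q i (un y₁).2 = q i (un y₂).2 := by
                have := congrArg (fun w : E (m + 1) => tl w) hy
                simpa [tl_hl] using this
              rw [e1] at g1
              have g2 := h3 _ hy₁ _ hy₂ g1
              rw [← e2] at g2
              show cn (un y₁).1 (q j (un y₁).2) = cn (un y₂).1 (q j (un y₂).2)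
              rw [g0, g2])
    (fun i x hx => ⟨univ, univ_mem, fun y₁ _ y₂ _ hy => congrArg (fun w : E (m + 1) => w 0) hy⟩)
    hB (by
      intro x hx
      obtain ⟨z, hz, hxz⟩ := mem_iUnion₂.1 (ht hx)
      exact mem_iUnion.2 ⟨⟨z, hz⟩, hxz⟩) hO₁o hHO
  have hFK : ∀ p, CP (n := m + 1 + 1) K0 F p := by
    intro p
    by_cases hp : p ∈ B
    · exact hS p hp
    · exact hk0 p (LD.CP0 (not_not.1 hp))
  have hFlev : ∀ p, (un (F p)).1 = (un p).1 := fun p => by
    have := hFl p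
    rw [hlev] at this
    exact this
  have hFN : ∀ p, p ∉ N → F p = H p := fun p hp => hoff p fun i hi => hp (hDN i (htB i i.2) hi)
  set C₀ : Set (Pr X) := ⋃ i : t, D i with hC₀
  have hC₀c : IsCompact C₀ := isCompact_iUnion fun i => hDc i (htB i i.2)
  have hC₀N : C₀ ⊆ N := iUnion_subset fun i => hDN i (htB i i.2)
  have hBF' : {p | ¬ LD (m + 1 + 1) F p} ⊆ B ∪ C₀ := by
    intro p hp
    by_cases hpC : p ∈ C₀
    · exact Or.inr hpC
    · left
      intro h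
      refine hp (Pool.Agent.Y522.LD.congr h ?_)
      filter_upwards [hC₀c.isClosed.isOpen_compl.mem_nhds hpC] with y hy
      exact hoff y fun i hi => hy (mem_iUnion.2 ⟨i, hi⟩)
  obtain ⟨F', b1, b2, b3, b4⟩ := lev_smooth (k := m + 1) (levCh_Pr (m + 1) X)
    (levCh_Pr (m + 1) Y) F hFK hFlev ((hB.union hC₀c).of_isClosed_subset (isClosed_bad _) hBF') hN
    (hBF'.trans (union_subset hBN hC₀N)) hO₁o hgr
  have hs' : ContMDiff (𝓡 (m + 1 + 1)) (𝓡 (m + 1 + 1)) ∞ F' := fun p => (b1 p).contMDiffAt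
  refine ⟨fun q => (un (F' (mk q))).2, ?_, ?_, ?_, ?_, ?_⟩
  · exact (smooth_snd (X := Y)).comp (hs'.comp (smooth_mk (X := X)))
  · intro t
    constructor
    · intro x x' hxx
      have h2 : F' (mk (t, x)) = F' (mk (t, x')) := by
        apply un_inj
        refine Prod.ext ?_ hxx
        rw [b2, b2]
        rfl
      have h3 := F'.injective h2
      exact congrArg (fun r : Pr X => (un r).2) h3
    · intro y
      obtain ⟨p, hp⟩ := F'.surjective (mk (t, y))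
      refine ⟨(un p).2, ?_⟩
      have h2 : (un p).1 = t := by
        rw [← b2, hp]
        rfl
      have h3 : mk (t, (un p).2) = p := by
        apply un_inj
        exact Prod.ext h2.symm rfl
      change (un (F' (mk (t, (un p).2)))).2 = y
      rw [h3, hp]
      rfl
  · intro t x
    exact LD_slice F'.bijective b1 b2 t x
  · intro s x hs
    have h2 : (mk (s, x) : Pr X) ∉ N := fun h => by
      rcases hs with hs | hs
      · exact hs h.1
      · exact hs h.2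
    show (un (F' (mk (s, x)))).2 = _
    rw [b4 _ h2, hFN _ h2, hH2]
    rfl
  · intro s x
    exact b3 (mk (s, x))

end main

end Run7.h7
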