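import Mathlib
import Pool.Agent.Run7.h7.QFam
import Pool.Agent.Y522.Sch
import Pool.Agent.R769.Loc
import Pool.Agent.Helper514.IoD

/-!
Schoenflies: balls with a parametrization which has `m` coordinates of class `C^1`.
-/

open Filter Set Metric Function
open scoped Topology ContDiff Manifold RealInnerProductSpace

namespace Run7.h7

open Pool.Agent.Y522 (LD StExtO)
open Pool.Agent.Y66.CM (CMon LD_chart)
open Pool.Agent.Y514.SH (UB UB_left UB_right UB_norm UB_inj UB_LD UB_symm_LD UB_continuous LD_iff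
  range_comp_UB exists_shrink' isCompact_bad)
open Pool.Agent.R769 (LD_val)
open TopologicalSpace (Opens)

/-- the common end of the proofs, with the values on the ball (after the starting file
`Y514/SH/Base`) -/
theorem finishV (hE : StExtO) (n : ℕ) (H : E n → E n) (δ : ℝ) (hδ : 0 < δ)
    (hi : InjOn H (ball 0 (1 + δ))) (hL : ∀ x, 1 ≤ ‖x‖ → ‖x‖ < 1 + δ → LD n H x)
    (F' : E n → E n) (C : Set (E n)) (hC : IsCompact C) (hF'i : Injective F')
    (hr : range F' = range (fun y => H (UB n y)))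
    (hF'C : ∀ p, p ∉ C → F' p = H (UB n p))
    (hF'L : ∀ x, LD n F' x) :
    ∃ (G : E n → E n) (O : E n ≃ₗᵢ[ℝ] E n) (R' : ℝ), Bijective G ∧
      (∀ x, LD n G x) ∧ (∀ x, ‖x‖ = 1 → G x = H x) ∧
      G '' closedBall 0 1 = H '' closedBall 0 1 ∧ (∀ x, R' ≤ ‖x‖ → G x = O x) ∧
      ∀ x, ‖x‖ < 1 → G x = F' ((UB n).symm x) := by
  classical
  rw [range_comp_UB] at hr
  set H' : E n → E n := fun x => if ‖x‖ < 1 then F' ((UB n).symm x) else H x with hH'
  have hH1 : ∀ x, ‖x‖ < 1 → H' x = F' ((UB n).symm x) := fun x hx => if_pos hx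
  have hH2 : ∀ x, 1 ≤ ‖x‖ → H' x = H x := fun x hx => if_neg (not_lt.2 hx)
  have hBC : IsCompact (UB n '' C) := hC.image (UB_continuous n)
  have hBCs : ∀ y ∈ UB n '' C, ‖y‖ < 1 := by
    rintro _ ⟨y, _, rfl⟩
    exact UB_norm n y
  have hH3 : ∀ y, y ∉ UB n '' C → H' y = H y := by
    intro y hy
    by_cases h : ‖y‖ < 1
    · rw [hH1 y h, hF'C, UB_right n h]
      intro hc
      exact hy ⟨_, hc, UB_right n h⟩
    · exact hH2 y (not_lt.1 h)
  have hH'L : ∀ x, ‖x‖ < 1 + δ → LD n H' x := by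
    intro x hx
    by_cases h : ‖x‖ < 1
    · have h1 : LD n (fun z => F' ((UB n).symm z)) x :=
        LD.comp_fun (g := F') (f := (UB n).symm) (hF'L _) (UB_symm_LD n h)
      refine h1.congr ?_
      have h2 : ∀ᶠ z in 𝓝 x, ‖z‖ < 1 := continuous_norm.continuousAt.eventually (gt_mem_nhds h)
      filter_upwards [h2] with z hz
      exact hH1 z hz
    · refine (hL x (not_lt.1 h) hx).congr ?_
      have h2 : (UB n '' C)ᶜ ∈ 𝓝 x := hBC.isClosed.isOpen_compl.mem_nhds fun hc => h (hBCs x hc)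
      filter_upwards [h2] with z hz
      exact hH3 z hz
  have hmemr : ∀ x, ‖x‖ < 1 → ∃ z, ‖z‖ < 1 ∧ H z = H' x := by
    intro x hx
    have h1 : H' x ∈ range F' := by rw [hH1 x hx]; exact mem_range_self _
    rw [hr] at h1
    obtain ⟨z, hz, hz2⟩ := h1
    exact ⟨z, mem_ball_zero_iff.1 hz, hz2⟩
  have hH'i : ∀ x y, ‖x‖ < 1 + δ → ‖y‖ < 1 + δ → H' x = H' y → x = y := by
    have key : ∀ x y, ‖x‖ < 1 → 1 ≤ ‖y‖ → ‖y‖ < 1 + δ → H' x ≠ H' y := by
      intro x y hx hy hy2 hxy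
      obtain ⟨z, hz, hz2⟩ := hmemr x hx
      rw [hxy, hH2 y hy] at hz2
      have := hi (mem_ball_zero_iff.2 (by linarith)) (mem_ball_zero_iff.2 hy2) hz2
      rw [this] at hz
      linarith
    intro x y hx hy hxy
    by_cases h1 : ‖x‖ < 1
    · by_cases h2 : ‖y‖ < 1
      · rw [hH1 x h1, hH1 y h2] at hxy
        have h3 := hF'i hxy
        rw [← UB_right n h1, ← UB_right n h2, h3]
      · exact absurd hxy (key x y h1 (not_lt.1 h2) hy)
    · by_cases h2 : ‖y‖ < 1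
      · exact absurd hxy.symm (key y x h2 (not_lt.1 h1) hx)
      · rw [hH2 x (not_lt.1 h1), hH2 y (not_lt.1 h2)] at hxy
        exact hi (mem_ball_zero_iff.2 hx) (mem_ball_zero_iff.2 hy) hxy
  have hH'im : H' '' closedBall 0 1 = H '' closedBall 0 1 := by
    apply Subset.antisymm
    · rintro _ ⟨x, hx, rfl⟩
      rw [mem_closedBall_zero_iff] at hx
      rcases hx.lt_or_eq with h | h
      · obtain ⟨z, hz, hz2⟩ := hmemr x h
        exact ⟨z, mem_closedBall_zero_iff.2 hz.le, hz2⟩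
      · exact ⟨x, mem_closedBall_zero_iff.2 hx, (hH2 x h.ge).symm⟩
    · rintro _ ⟨x, hx, rfl⟩
      rw [mem_closedBall_zero_iff] at hx
      rcases hx.lt_or_eq with h | h
      · have h1 : H x ∈ range F' := by
          rw [hr]
          exact ⟨x, mem_ball_zero_iff.2 h, rfl⟩
        obtain ⟨w, hw⟩ := h1
        refine ⟨UB n w, mem_closedBall_zero_iff.2 (UB_norm n w).le, ?_⟩
        rw [hH1 _ (UB_norm n w), UB_left, hw]
      · exact ⟨x, mem_closedBall_zero_iff.2 hx, hH2 x h.ge⟩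
  obtain ⟨σ, hσi, hσL, hσb, hσ⟩ := exists_shrink' n hδ
  obtain ⟨G, O, R', hG1, hG2, hG3, hG4⟩ := hE n (fun x => H' (σ x))
    (fun x y hxy => hσi (hH'i _ _ (hσb x) (hσb y) hxy))
    (fun x => LD.comp_fun (g := H') (f := σ) (hH'L _ (hσb x)) (hσL x)) 1
  have hG5 : ∀ x, ‖x‖ ≤ 1 → G x = H' x := by
    intro x hx
    rw [hG3 x hx]
    simp only [hσ x hx]
  refine ⟨G, O, R', hG1, hG2, ?_, ?_, hG4, ?_⟩
  · intro x hx
    rw [hG5 x hx.le, hH2 x hx.ge]
  · rw [← hH'im]
    exact image_congr fun x hx => hG5 x (mem_closedBall_zero_iff.1 hx)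
  · intro x hx
    rw [hG5 x hx.le, hH1 x hx]

variable {m : ℕ}

/-- the family of submersions on an open subset -/
lemma Fam.restrict {J : Type*} {U : J → Set (E (m + 1))} {Q : J → E (m + 1) → E m}
    (hQ : Fam m U Q) (V : Opens (E (m + 1))) :
    Fam m (fun j => (Subtype.val : V → E (m + 1)) ⁻¹' U j) (fun j (y : V) => Q j y.1) := by
  have hsub : ∀ j, ∀ y : V, y.1 ∈ U j → SubAt (m + 1) m (fun y : V => Q j y.1) y :=
    fun j y hy => SubAt.comp_K0 (q := Q j) (F := (Subtype.val : V → E (m + 1)))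
      (hQ.sub j y.1 hy) (LD.CP0 (LD_val V y))
  refine ⟨fun j => (hQ.op j).preimage continuous_subtype_val, hsub, fun j k y hj hk => ?_⟩
  rcases hQ.adm j k y.1 hj hk with h | ⟨N, hN, h⟩
  · left
    have hv : HasMFDerivAt (𝓡 (m + 1)) (𝓡 (m + 1)) (Subtype.val : V → E (m + 1)) y
        (mfderiv (𝓡 (m + 1)) (𝓡 (m + 1)) (Subtype.val : V → E (m + 1)) y) :=
      (Pool.Agent.Y522.LD.mdifferentiableAt (LD_val V y)).hasMFDerivAt
    have hvi : Injective (mfderiv (𝓡 (m + 1)) (𝓡 (m + 1)) (Subtype.val : V → E (m + 1)) y :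
        E (m + 1) →L[ℝ] E (m + 1)) := (LD.mfderiv_bijective (LD_val V y)).1
    obtain ⟨A, hA⟩ : ∃ A : E (m + 1) →L[ℝ] E (m + 1),
        A = mfderiv (𝓡 (m + 1)) (𝓡 (m + 1)) (Subtype.val : V → E (m + 1)) y := ⟨_, rfl⟩
    rw [← hA] at hv hvi
    have hd : ∀ i, y.1 ∈ U i → ∀ v : E (m + 1),
        (mfderiv (𝓡 (m + 1)) (𝓡 m) (fun y : V => Q i y.1) y : E (m + 1) →L[ℝ] E m) v =
        (mfderiv (𝓡 (m + 1)) (𝓡 m) (Q i) y.1 : E (m + 1) →L[ℝ] E m) (A v) := by
      intro i hi v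
      have h1 : HasMFDerivAt (𝓡 (m + 1)) (𝓡 m) (Q i) y.1
          (mfderiv (𝓡 (m + 1)) (𝓡 m) (Q i) y.1) :=
        ((hQ.sub i y.1 hi).1.mdifferentiableAt (by simp)).hasMFDerivAt
      have h2 := (HasMFDerivAt.comp (g := Q i) (f := (Subtype.val : V → E (m + 1))) y h1 hv).mfderiv
      have h3 : (mfderiv (𝓡 (m + 1)) (𝓡 m) (fun y : V => Q i y.1) y : E (m + 1) →L[ℝ] E m) =
        ContinuousLinearMap.comp
          (mfderiv (𝓡 (m + 1)) (𝓡 m) (Q i) y.1 : E (m + 1) →L[ℝ] E m) A := h2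
      rw [h3]
      rfl
    intro v h1 h2
    rw [hd j hj v] at h1
    rw [hd k hk v] at h2
    have h3 : A v = 0 := h (A v) h1 h2
    have h4 : A (0 : E (m + 1)) = 0 := map_zero A
    exact hvi (h3.trans h4.symm)
  · right
    exact ⟨Subtype.val ⁻¹' N, continuous_subtype_val.continuousAt hN,
      fun y₁ h₁ y₂ h₂ hqq => h y₁.1 h₁ y₂.1 h₂ hqq⟩

/-- a map to an open subset -/
lemma LD_codRestrict {V : Opens (E (m + 1))} {f : E (m + 1) → V} (hf : Continuous f)
    {x : E (m + 1)} (h : LD (m + 1) (fun y => (f y).1) x) : LD (m + 1) f x := by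
  obtain ⟨p, hp, -, h1, -⟩ := (LD_val (n := m + 1) V (f x)).exists_inverse
  have h2 : LD (m + 1) (fun y => p ((f y).1)) x :=
    Pool.Agent.Y522.LD.comp_fun (g := p) (f := fun y => (f y).1) hp h
  exact Pool.Agent.Y522.LD.congr h2 ((hf.continuousAt.eventually h1).mono fun y hy => hy.symm)

lemma CP_codRestrict {V : Opens (E (m + 1))} {f : E (m + 1) → V} (hf : Continuous f)
    {P : (E (m + 1) →L[ℝ] E (m + 1)) → Prop} (hP : LinInv P)
    {x : E (m + 1)} (h : CP (n := m + 1) P (fun y => (f y).1) x) : CP (n := m + 1) P f x := by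
  obtain ⟨p, hp, -, h1, -⟩ := (LD_val (n := m + 1) V (f x)).exists_inverse
  have h2 : CP (n := m + 1) P (fun y => p ((f y).1)) x :=
    CP.post hP (g := p) (f := fun y => (f y).1) hp h
  exact h2.congr ((hf.continuousAt.eventually h1).mono fun y hy => hy.symm)

/-- **Schoenflies.** -/
theorem schQ (hm : 1 ≤ m) (H : E (m + 1) → E (m + 1)) (δ : ℝ) (hδ : 0 < δ)
    (hHc : ContinuousOn H (ball 0 (1 + δ))) (hHi : InjOn H (ball 0 (1 + δ)))
    (hL : ∀ x, 1 ≤ ‖x‖ → ‖x‖ < 1 + δ → LD (m + 1) H x)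
    {J : Type*} {U : J → Set (E (m + 1))} {Q : J → E (m + 1) → E m} (hQ : Fam m U Q)
    (h : ∀ x, ‖x‖ < 1 → LD (m + 1) H x ∨ CP (n := m + 1) K1 H x ∨
      ∃ j, H x ∈ U j ∧ SubAt (m + 1) m (fun y => Q j (H y)) x) {ε : ℝ} (hε : 0 < ε) :
    ∃ (G : E (m + 1) → E (m + 1)) (O : E (m + 1) ≃ₗᵢ[ℝ] E (m + 1)) (R' : ℝ), Bijective G ∧
      (∀ x, LD (m + 1) G x) ∧ (∀ x, ‖x‖ = 1 → G x = H x) ∧
      G '' closedBall 0 1 = H '' closedBall 0 1 ∧ (∀ x, R' ≤ ‖x‖ → G x = O x) ∧
      ∀ x, ‖x‖ ≤ 1 → ‖G x - H x‖ < ε := by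
  have hsub : ball (0 : E (m + 1)) 1 ⊆ ball 0 (1 + δ) := ball_subset_ball (by linarith)
  set F : E (m + 1) → E (m + 1) := fun y => H (UB (m + 1) y) with hF
  have hFc : Continuous F := by
    have h1 : ContinuousOn H (ball 0 1) := hHc.mono hsub
    exact h1.comp_continuous (UB_continuous (m + 1)) fun x => mem_ball_zero_iff.2 (UB_norm _ x)
  have hFi : Injective F := by
    intro x y hxy
    exact UB_inj (m + 1) (hHi (hsub (mem_ball_zero_iff.2 (UB_norm _ x)))
      (hsub (mem_ball_zero_iff.2 (UB_norm _ y))) hxy)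
  have hFo : IsOpenMap F := by
    rw [isOpenMap_iff_nhds_le]
    intro x W hW
    rw [mem_map] at hW
    obtain ⟨r, hr, hrW⟩ := Metric.nhds_basis_closedBall.mem_iff.mp hW
    have h := Pool.Agent.Helper514.IoD.image_mem_nhds F x r hr hFc.continuousOn hFi.injOn
    exact Filter.mem_of_superset h (by rintro _ ⟨y, hy, rfl⟩; exact hrW hy)
  let V : Opens (E (m + 1)) := ⟨range F, hFo.isOpen_range⟩
  have hmem : ∀ y, F y ∈ V := fun y => mem_range_self y
  let g₀ : E (m + 1) → V := fun y => ⟨F y, hmem y⟩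
  have hg₀c : Continuous g₀ := hFc.subtype_mk _
  have hg₀b : Bijective g₀ := by
    refine ⟨fun x y hxy => hFi (congrArg Subtype.val hxy), ?_⟩
    rintro ⟨_, ⟨y, rfl⟩⟩
    exact ⟨y, rfl⟩
  have hg₀o : IsOpenMap g₀ := by
    intro W hW
    have h1 : g₀ '' W = Subtype.val ⁻¹' (F '' W) := by
      ext z
      constructor
      · rintro ⟨y, hy, rfl⟩; exact ⟨y, hy, rfl⟩
      · rintro ⟨y, hy, hyz⟩; exact ⟨y, hy, Subtype.ext hyz⟩
    rw [h1]
    exact (hFo W hW).preimage continuous_subtype_val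
  let g : E (m + 1) ≃ₜ V :=
    (Equiv.ofBijective g₀ hg₀b).toHomeomorphOfContinuousOpen hg₀c hg₀o
  have hg : ∀ y, (g y).1 = H (UB (m + 1) y) := fun y => rfl
  have hval : (fun y => (g y).1) = fun y => H (UB (m + 1) y) := funext hg
  have hbad : IsCompact {x | ¬ LD (m + 1) g x} := by
    refine (isCompact_bad (m + 1) H fun x hx => hL x hx.ge (by linarith)).of_isClosed_subset
      (isClosed_bad _) fun x hx hx2 => hx ?_
    exact LD_codRestrict g.continuous (by rw [hval]; exact hx2)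
  set Oε : Set (E (m + 1) × V) := {p | ‖(p.2 : E (m + 1)) - F p.1‖ < ε} with hOε
  have hOo : IsOpen Oε := by
    refine isOpen_lt ?_ continuous_const
    exact ((continuous_subtype_val.comp continuous_snd).sub (hFc.comp continuous_fst)).norm
  obtain ⟨f', C, hC, hb, hLD, hgr, hoff⟩ := qmixed hm g (hQ.restrict V) (fun x => by
    have hBd : CP (n := m + 1) K0 (UB (m + 1)) x := LD.CP0 (UB_LD (m + 1) x)
    rcases h _ (UB_norm (m + 1) x) with h1 | h1 | ⟨j, h1, h2⟩
    · left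
      refine LD_codRestrict g.continuous ?_
      rw [hval]
      exact (LD_iff _ H x).2 h1
    · right; left
      refine CP_codRestrict g.continuous linInv_K1 ?_
      rw [hval]
      exact CP.pre linInv_K1 (f := H) (g := UB (m + 1)) (UB_LD (m + 1) x) h1
    · right; right
      refine ⟨j, h1, ?_⟩
      exact SubAt.comp_K0 (q := fun y => Q j (H y)) (F := UB (m + 1)) h2 hBd)
    hbad hOo (fun x => by
      show ‖(g x : E (m + 1)) - F x‖ < ε
      rw [hg x, sub_self, norm_zero]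
      exact hε)
  have hF'L : ∀ x, LD (m + 1) (fun y => (f' y).1) x := fun x =>
    Pool.Agent.Y522.LD.comp_fun (g := (Subtype.val : V → E (m + 1))) (f := f') (LD_val V _) (hLD x)
  obtain ⟨G, O, R', k1, k2, k3, k4, k5, k6⟩ := finishV Pool.Agent.Y702.SH.extO (m + 1) H δ hδ hHi hL
    (fun y => (f' y).1) C hC (fun x y hxy => hb.1 (Subtype.ext hxy)) (by
      ext z
      constructor
      · rintro ⟨y, rfl⟩
        exact (f' y).2
      · rintro ⟨y, rfl⟩
        obtain ⟨w, hw⟩ := hb.2 ⟨F y, hmem y⟩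
        exact ⟨w, congrArg Subtype.val hw⟩)
    (fun p hp => by
      show (f' p).1 = _
      rw [hoff p hp]
      exact hg p) hF'L
  refine ⟨G, O, R', k1, k2, k3, k4, k5, fun x hx => ?_⟩
  rcases hx.lt_or_eq with hx | hx
  · rw [k6 x hx]
    have h1 : ‖((f' ((UB (m + 1)).symm x)).1 : E (m + 1)) - F ((UB (m + 1)).symm x)‖ < ε :=
      hgr ((UB (m + 1)).symm x)
    have h2 : F ((UB (m + 1)).symm x) = H x := by
      show H (UB (m + 1) ((UB (m + 1)).symm x)) = H x
      rw [UB_right (m + 1) hx]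
    rwa [h2] at h1
  · rw [k3 x hx, sub_self, norm_zero]
    exact hε

/-- the surjective linear maps -/
lemma famLin (m : ℕ) : Fam m (fun _ : {P : E (m + 1) →L[ℝ] E m // Surjective P} => univ)
    (fun P y => P.1 y) := by
  have hd : ∀ (P : {P : E (m + 1) →L[ℝ] E m // Surjective P}) (y : E (m + 1)),
      (mfderiv (𝓡 (m + 1)) (𝓡 m) (fun y => P.1 y) y : E (m + 1) →L[ℝ] E m) = P.1 := by
    intro P y
    rw [mfderiv_eq_fderiv]
    exact P.1.fderiv
  refine ⟨fun _ => isOpen_univ, fun P y _ => ⟨?_, ?_⟩, fun P P' y _ _ => ?_⟩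
  · exact P.1.contDiff.contDiffAt.contMDiffAt
  · rw [hd]; exact P.2
  · obtain ⟨w, hw0, hw, hker⟩ := exists_ker P.2
    by_cases h : P'.1 w = 0
    · right
      refine ⟨univ, univ_mem, fun y₁ _ y₂ _ hy => ?_⟩
      have h1 : P.1 (y₁ - y₂) = 0 := by rw [map_sub, sub_eq_zero]; exact hy
      obtain ⟨t, ht⟩ := hker _ h1
      have h2 : P'.1 (y₁ - y₂) = 0 := by rw [ht, map_smul, h, smul_zero]
      rwa [map_sub, sub_eq_zero] at h2
    · left
      intro v hv hv'
      rw [hd] at hv hv'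
      obtain ⟨t, rfl⟩ := hker v hv
      have hv2 : t • P'.1 w = 0 := by rw [← map_smul]; exact hv'
      rcases smul_eq_zero.1 hv2 with h1 | h1
      · rw [h1, zero_smul]
      · exact absurd h1 h

end Run7.h7
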